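import Mathlib
import Pool.Agent.Y246.Z700.Jac2

/-!
# Partial sums of Jacobi's series `∑ (-1)^k (2k+1) x^(k(k+1)/2)`
-/

open Polynomial Filter Topology Finset

namespace Pool.Agent.X116.Theta

/-- triangular numbers -/
def T (k : ℕ) : ℕ := (k + 1).choose 2

lemma T_zero : T 0 = 0 := rfl

lemma T_succ (k : ℕ) : T (k + 1) = T k + (k + 1) := by
  unfold T
  rw [Nat.choose_succ_succ' (k + 1) 1, Nat.choose_one_right]
  ring

lemma two_T (k : ℕ) : 2 * T k = (k + 1) * k := Pool.Agent.Y246.Z700.two_tri k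

lemma le_T (k : ℕ) : k ≤ T k := Pool.Agent.Y246.Z700.k_le_tri k

/-- the terms -/
noncomputable def a (x : ℝ) (k : ℕ) : ℝ := (2 * k + 1) * x ^ T k

/-- the truncated product -/
noncomputable def PP (n : ℕ) (x : ℝ) : ℝ := ∏ j ∈ range n, (1 - x ^ (j + 1))

lemma poly_jac_eval (n : ℕ) (x : ℝ) : (PP n x) ^ 3 = ∑ k ∈ range (n + 1), (-1) ^ k * a x k *
    ((∏ j ∈ Ico (n - k) n, (1 - x ^ (j + 1))) *
      ∏ j ∈ Ico (n + 1 + k) (2 * n + 1), (1 - x ^ (j + 1))) := by
  have h := congrArg (fun p : ℤ[X] => (p.map (Int.castRingHom ℝ)).eval x)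
    (Pool.Agent.Y246.Z700.poly_jac n)
  simp only [Pool.Agent.Y246.Z700.PP, Polynomial.map_pow, Polynomial.map_prod,
    Polynomial.map_sub, Polynomial.map_one, Polynomial.map_X, eval_pow, eval_prod, eval_sub,
    eval_one, eval_X, Polynomial.map_sum, Polynomial.map_mul, Polynomial.map_neg,
    Polynomial.map_add, Polynomial.map_natCast, eval_finsetSum, eval_mul, eval_neg, eval_add,
    eval_natCast, Polynomial.map_ofNat, eval_ofNat] at h
  unfold PP a T
  rw [h]
  refine Finset.sum_congr rfl fun k _ => ?_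
  ring

lemma prod_bounds {x : ℝ} (hx0 : 0 ≤ x) (hx1 : x < 1) (m : ℕ) (s : Finset ℕ)
    (hs : ∀ j ∈ s, m ≤ j) :
    1 - x ^ (m + 1) / (1 - x) ≤ ∏ j ∈ s, (1 - x ^ (j + 1)) ∧
      ∏ j ∈ s, (1 - x ^ (j + 1)) ≤ 1 ∧ 0 ≤ ∏ j ∈ s, (1 - x ^ (j + 1)) := by
  have h1 : ∀ j : ℕ, 0 ≤ x ^ (j + 1) ∧ x ^ (j + 1) ≤ 1 := fun j =>
    ⟨pow_nonneg hx0 _, pow_le_one₀ hx0 hx1.le⟩
  refine ⟨?_, ?_, ?_⟩
  · have h2 : 1 - ∑ j ∈ s, x ^ (j + 1) ≤ ∏ j ∈ s, (1 - x ^ (j + 1)) := by
      classical
      induction s using Finset.induction_on with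
      | empty => simp
      | insert b s hb ih =>
        rw [Finset.prod_insert hb, Finset.sum_insert hb]
        have ih' := ih fun j hj => hs j (Finset.mem_insert_of_mem hj)
        have h3 : 0 ≤ ∑ j ∈ s, x ^ (j + 1) := Finset.sum_nonneg fun j _ => (h1 j).1
        have h4 : ∏ j ∈ s, (1 - x ^ (j + 1)) ≤ 1 :=
          Finset.prod_le_one (fun j _ => by linarith [(h1 j).2]) (fun j _ => by linarith [(h1 j).1])
        nlinarith [(h1 b).1, (h1 b).2]
    have h3 : ∑ j ∈ s, x ^ (j + 1) ≤ x ^ (m + 1) / (1 - x) := by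
      have hsum : Summable fun i : ℕ => x ^ (i + 1 + m) := by
        have := (summable_geometric_of_lt_one hx0 hx1).mul_left (x ^ (1 + m))
        refine this.congr fun i => ?_
        rw [← pow_add]; congr 1; ring
      have hle : ∑ j ∈ s, x ^ (j + 1) ≤ ∑' i : ℕ, x ^ (i + 1 + m) := by
        have e : ∑ j ∈ s, x ^ (j + 1) = ∑ i ∈ s.image (fun j => j - m), x ^ (i + 1 + m) := by
          rw [Finset.sum_image]
          · refine Finset.sum_congr rfl fun j hj => ?_
            have := hs j hj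
            congr 1
            omega
          · intro i hi j hj hij
            have := hs i hi
            have := hs j hj
            simp only at hij
            omega
        rw [e]
        exact hsum.sum_le_tsum _ fun i _ => pow_nonneg hx0 _
      refine hle.trans (le_of_eq ?_)
      have e2 : (fun i : ℕ => x ^ (i + 1 + m)) = fun i : ℕ => x ^ (m + 1) * x ^ i := by
        funext i
        rw [← pow_add]; congr 1; ring
      rw [e2, tsum_mul_left, tsum_geometric_of_lt_one hx0 hx1, div_eq_mul_inv]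
    linarith
  · exact Finset.prod_le_one (fun j _ => by linarith [(h1 j).2]) (fun j _ => by linarith [(h1 j).1])
  · exact Finset.prod_nonneg fun j _ => by linarith [(h1 j).2]

lemma summable_a {x : ℝ} (hx0 : 0 ≤ x) (hx1 : x < 1) : Summable (a x) := by
  have h1 : Summable fun k : ℕ => (2 * (k : ℝ) + 1) * x ^ k := by
    have h2 := summable_pow_mul_geometric_of_norm_lt_one (R := ℝ) 1 (r := x)
      (by rw [Real.norm_of_nonneg hx0]; exact hx1)
    have h3 := summable_geometric_of_lt_one hx0 hx1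
    refine ((h2.mul_left 2).add h3).congr fun k => ?_
    ring
  refine Summable.of_nonneg_of_le (fun k => ?_) (fun k => ?_) h1
  · unfold a; positivity
  · unfold a
    apply mul_le_mul_of_nonneg_left _ (by positivity)
    exact pow_le_pow_of_le_one hx0 hx1.le (le_T k)

lemma summable_sa {x : ℝ} (hx0 : 0 ≤ x) (hx1 : x < 1) : Summable fun k => (-1 : ℝ) ^ k * a x k := by
  refine Summable.of_norm ((summable_a hx0 hx1).congr fun k => ?_)
  rw [norm_mul, norm_pow, norm_neg, norm_one, one_pow, one_mul, Real.norm_of_nonneg]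
  unfold a; positivity

/-- the sum of Jacobi's series -/
noncomputable def J (x : ℝ) : ℝ := ∑' k, (-1 : ℝ) ^ k * a x k

/-- Jacobi's identity -/
lemma tendsto_PP {x : ℝ} (hx0 : 0 ≤ x) (hx1 : x < 1) :
    Tendsto (fun n => (PP n x) ^ 3) atTop (𝓝 (J x)) := by
  have key := tendsto_tsum_of_dominated_convergence (𝓕 := atTop)
    (f := fun (n : ℕ) (k : ℕ) => if k ≤ n then (-1 : ℝ) ^ k * a x k *
      ((∏ j ∈ Ico (n - k) n, (1 - x ^ (j + 1))) *
      ∏ j ∈ Ico (n + 1 + k) (2 * n + 1), (1 - x ^ (j + 1))) else 0)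
    (g := fun k => (-1 : ℝ) ^ k * a x k) (bound := a x) (summable_a hx0 hx1) ?_ ?_
  · refine key.congr fun n => ?_
    rw [poly_jac_eval]
    rw [tsum_eq_sum (s := range (n + 1))]
    · refine Finset.sum_congr rfl fun k hk => ?_
      rw [if_pos (Nat.lt_succ_iff.mp (Finset.mem_range.mp hk))]
    · intro k hk
      rw [if_neg]
      simpa using hk
  · intro k
    have hlim : Tendsto (fun n : ℕ => x ^ (n - k + 1) / (1 - x)) atTop (𝓝 0) := by
      have h1 : Tendsto (fun n : ℕ => x ^ (n - k + 1)) atTop (𝓝 0) :=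
        (tendsto_pow_atTop_nhds_zero_of_lt_one hx0 hx1).comp
          ((tendsto_add_atTop_nat 1).comp (tendsto_sub_atTop_nat k))
      simpa using h1.div_const (1 - x)
    have hprod : Tendsto (fun n : ℕ => (∏ j ∈ Ico (n - k) n, (1 - x ^ (j + 1))) *
      ∏ j ∈ Ico (n + 1 + k) (2 * n + 1), (1 - x ^ (j + 1))) atTop (𝓝 1) := by
      have hlow : Tendsto (fun n : ℕ => 1 - 2 * (x ^ (n - k + 1) / (1 - x))) atTop (𝓝 1) := by
        simpa using tendsto_const_nhds.sub (hlim.const_mul 2)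
      refine tendsto_of_tendsto_of_tendsto_of_le_of_le hlow tendsto_const_nhds ?_ ?_
      · intro n
        obtain ⟨u1, u2, u3⟩ := prod_bounds hx0 hx1 (n - k) (Ico (n - k) n)
          (fun j hj => (Finset.mem_Ico.mp hj).1)
        obtain ⟨v1, v2, v3⟩ := prod_bounds hx0 hx1 (n - k) (Ico (n + 1 + k) (2 * n + 1))
          (fun j hj => by have := (Finset.mem_Ico.mp hj).1; omega)
        simp only
        nlinarith
      · intro n
        obtain ⟨u1, u2, u3⟩ := prod_bounds hx0 hx1 (n - k) (Ico (n - k) n)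
          (fun j hj => (Finset.mem_Ico.mp hj).1)
        obtain ⟨v1, v2, v3⟩ := prod_bounds hx0 hx1 (n - k) (Ico (n + 1 + k) (2 * n + 1))
          (fun j hj => by have := (Finset.mem_Ico.mp hj).1; omega)
        exact mul_le_one₀ u2 v3 v2
    have h2 := hprod.const_mul ((-1 : ℝ) ^ k * a x k)
    rw [mul_one] at h2
    refine h2.congr' ?_
    filter_upwards [eventually_ge_atTop k] with n hn
    rw [if_pos hn]
  · refine Eventually.of_forall fun n k => ?_
    have ha : 0 ≤ a x k := by unfold a; positivity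
    split_ifs with h
    · rw [norm_mul, norm_mul, norm_pow, norm_neg, norm_one, one_pow, one_mul,
        Real.norm_of_nonneg ha]
      obtain ⟨u1, u2, u3⟩ := prod_bounds hx0 hx1 (n - k) (Ico (n - k) n)
        (fun j hj => (Finset.mem_Ico.mp hj).1)
      obtain ⟨v1, v2, v3⟩ := prod_bounds hx0 hx1 (n - k) (Ico (n + 1 + k) (2 * n + 1))
        (fun j hj => by have := (Finset.mem_Ico.mp hj).1; omega)
      rw [Real.norm_of_nonneg (mul_nonneg u3 v3)]
      exact mul_le_of_le_one_right ha (mul_le_one₀ u2 v3 v2)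
    · simpa using ha

lemma J_nonneg {x : ℝ} (hx0 : 0 ≤ x) (hx1 : x < 1) : 0 ≤ J x := by
  refine ge_of_tendsto' (tendsto_PP hx0 hx1) fun n => pow_nonneg ?_ 3
  exact (prod_bounds hx0 hx1 0 (range n) fun j _ => Nat.zero_le j).2.2

lemma J_anti {x y : ℝ} (hx0 : 0 ≤ x) (hxy : x ≤ y) (hy1 : y < 1) : J y ≤ J x := by
  refine le_of_tendsto_of_tendsto' (tendsto_PP (hx0.trans hxy) hy1)
    (tendsto_PP hx0 (lt_of_le_of_lt hxy hy1)) fun n => ?_
  have h0 : 0 ≤ PP n y := (prod_bounds (hx0.trans hxy) hy1 0 (range n) fun j _ => Nat.zero_le j).2.2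
  apply pow_le_pow_left₀ h0
  unfold PP
  apply Finset.prod_le_prod
  · intro j _
    have := pow_le_one₀ (n := j + 1) (hx0.trans hxy) hy1.le
    linarith
  · intro j _
    have := pow_le_pow_left₀ hx0 hxy (j + 1)
    linarith

/-- the partial sums -/
noncomputable def q (n : ℕ) (x : ℝ) : ℝ := ∑ k ∈ range (n + 1), (-1 : ℝ) ^ k * a x k

/-- the tail written with pairs: for odd `n` the tail is `∑ (a_{n+1+2i} - a_{n+2+2i})`, and for
even `n` it is the negative of that. -/
lemma J_eq {x : ℝ} (hx0 : 0 ≤ x) (hx1 : x < 1) (n : ℕ) :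
    J x = q n x + (-1) ^ (n + 1) * ∑' i : ℕ, (a x (n + 1 + 2 * i) - a x (n + 2 + 2 * i)) ∧
    Summable (fun i : ℕ => (a x (n + 1 + 2 * i) - a x (n + 2 + 2 * i))) := by
  have hs := summable_sa hx0 hx1
  have h1 := hs.sum_add_tsum_nat_add (n + 1)
  have hs2 : Summable fun i => (-1 : ℝ) ^ (i + (n + 1)) * a x (i + (n + 1)) :=
    (summable_nat_add_iff (n + 1)).mpr hs
  have he : Summable fun i => (-1 : ℝ) ^ (2 * i + (n + 1)) * a x (2 * i + (n + 1)) :=
    hs2.comp_injective (i := fun i => 2 * i) (fun _ _ h => by simpa using h)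
  have ho : Summable fun i => (-1 : ℝ) ^ (2 * i + 1 + (n + 1)) * a x (2 * i + 1 + (n + 1)) :=
    hs2.comp_injective (i := fun i => 2 * i + 1) (fun _ _ h => by simpa using h)
  have h2 := tsum_even_add_odd (f := fun i : ℕ => (-1 : ℝ) ^ (i + (n + 1)) * a x (i + (n + 1)))
    he ho
  have hadd := he.add ho
  have hform : ∀ i : ℕ, (-1 : ℝ) ^ (2 * i + (n + 1)) * a x (2 * i + (n + 1))
      + (-1 : ℝ) ^ (2 * i + 1 + (n + 1)) * a x (2 * i + 1 + (n + 1))
      = (-1) ^ (n + 1) * (a x (n + 1 + 2 * i) - a x (n + 2 + 2 * i)) := by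
    intro i
    have e1 : (-1 : ℝ) ^ (2 * i + (n + 1)) = (-1) ^ (n + 1) := by
      rw [pow_add, pow_mul]; norm_num
    have e2 : (-1 : ℝ) ^ (2 * i + 1 + (n + 1)) = -(-1) ^ (n + 1) := by
      rw [pow_add, pow_succ, pow_mul]; norm_num
    have e3 : 2 * i + (n + 1) = n + 1 + 2 * i := by ring
    have e4 : 2 * i + 1 + (n + 1) = n + 2 + 2 * i := by ring
    rw [e1, e2, e3, e4]
    ring
  have hsum : Summable (fun i : ℕ => (a x (n + 1 + 2 * i) - a x (n + 2 + 2 * i))) := by
    have h3 : Summable fun i => (-1 : ℝ) ^ (n + 1) * (a x (n + 1 + 2 * i) - a x (n + 2 + 2 * i)) :=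
      hadd.congr hform
    have h4 := h3.mul_left ((-1 : ℝ) ^ (n + 1))
    refine h4.congr fun i => ?_
    rw [← mul_assoc, ← pow_add, ← two_mul, pow_mul]
    norm_num
  refine ⟨?_, hsum⟩
  have h5 : ∑' i, (-1 : ℝ) ^ (i + (n + 1)) * a x (i + (n + 1))
      = (-1) ^ (n + 1) * ∑' i : ℕ, (a x (n + 1 + 2 * i) - a x (n + 2 + 2 * i)) := by
    rw [← h2, ← he.tsum_add ho, ← tsum_mul_left]
    exact tsum_congr hform
  rw [← h5]
  exact h1.symm

end Pool.Agent.X116.Theta
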