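import Mathlib
import Pool.Agent.X116.Theta

/-!
# Partial sums of Jacobi's series: signs and monotonicity
-/

open Polynomial Filter Topology Finset

namespace Pool.Agent.X116.Theta

/-- a threshold condition propagates upwards -/
lemma chain (c : ℕ → ℝ) (hc : ∀ j, c j ≤ c (j + 1)) (hc1 : ∀ j, c j < 1) {x : ℝ} (hx : 0 ≤ x)
    {j k : ℕ} (hjk : j ≤ k) (h : x ^ (j + 1) < c j) : x ^ (k + 1) < c k := by
  have hx1 : x < 1 := by
    by_contra hge
    push Not at hge
    have := one_le_pow₀ hge (n := j + 1)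
    linarith [hc1 j]
  induction k, hjk using Nat.le_induction with
  | base => exact h
  | succ k _ ih =>
    have h1 : x ^ (k + 1 + 1) ≤ x ^ (k + 1) := pow_le_pow_of_le_one hx hx1.le (by omega)
    linarith [hc k]

/-- threshold for the terms -/
noncomputable def d (j : ℕ) : ℝ := (2 * j + 1) / (2 * j + 3)

/-- threshold for the derivatives of the terms -/
noncomputable def c (j : ℕ) : ℝ := (2 * j + 1) * j / ((2 * j + 3) * (j + 2))

lemma d_mono (j : ℕ) : d j ≤ d (j + 1) := by
  unfold d
  rw [div_le_div_iff₀ (by positivity) (by positivity)]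
  push_cast
  nlinarith

lemma d_lt (j : ℕ) : d j < 1 := by
  unfold d
  rw [div_lt_one (by positivity)]
  linarith

lemma c_mono (j : ℕ) : c j ≤ c (j + 1) := by
  unfold c
  rw [div_le_div_iff₀ (by positivity) (by positivity)]
  push_cast
  have hj : (0 : ℝ) ≤ j := Nat.cast_nonneg j
  nlinarith [mul_nonneg hj hj, mul_nonneg (mul_nonneg hj hj) hj]

lemma c_lt (j : ℕ) : c j < 1 := by
  unfold c
  rw [div_lt_one (by positivity)]
  have hj : (0 : ℝ) ≤ j := Nat.cast_nonneg j
  nlinarith

lemma a_succ_sub (x : ℝ) (k : ℕ) :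
    a x (k + 1) - a x k = (2 * k + 3) * x ^ T k * (x ^ (k + 1) - d k) := by
  unfold a d
  rw [T_succ, pow_add]
  have : (2 * (k : ℝ) + 3) ≠ 0 := by positivity
  push_cast
  field_simp
  ring

/-- the derivatives of the terms -/
noncomputable def b (x : ℝ) (k : ℕ) : ℝ := (2 * k + 1) * (T k * x ^ (T k - 1))

lemma b_zero (x : ℝ) : b x 0 = 0 := by simp [b, T_zero]

lemma b_one (x : ℝ) : b x 1 = 3 := by
  have : T 1 = 1 := rfl
  simp [b, this]
  norm_num

lemma b_succ_sub (x : ℝ) {k : ℕ} (hk : 1 ≤ k) :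
    b x (k + 1) - b x k
      = (k + 1) / 2 * ((2 * k + 3) * (k + 2)) * x ^ (T k - 1) * (x ^ (k + 1) - c k) := by
  have h1 := le_T k
  have hT : (T k : ℝ) = (k + 1) * k / 2 := by
    have := two_T k
    have h2 : (2 : ℝ) * T k = (k + 1) * k := by exact_mod_cast this
    linarith
  unfold b c
  rw [T_succ]
  have e : T k + (k + 1) - 1 = (T k - 1) + (k + 1) := by omega
  rw [e, pow_add]
  have h3 : (2 * (k : ℝ) + 3) ≠ 0 := by positivity
  have h4 : ((k : ℝ) + 2) ≠ 0 := by positivity
  push_cast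
  rw [hT]
  field_simp
  ring

/-- the derivative of the partial sum -/
noncomputable def dq (n : ℕ) (x : ℝ) : ℝ := ∑ k ∈ range (n + 1), (-1 : ℝ) ^ k * b x k

lemma hasDerivAt_a (x : ℝ) (k : ℕ) : HasDerivAt (fun t => a t k) (b x k) x := by
  unfold a b
  exact (hasDerivAt_pow (T k) x).const_mul _

lemma hasDerivAt_q (n : ℕ) (x : ℝ) : HasDerivAt (q n) (dq n x) x := by
  unfold dq
  have : q n = fun t => ∑ k ∈ range (n + 1), (-1 : ℝ) ^ k * a t k := rfl
  rw [this]
  exact HasDerivAt.fun_sum fun k _ => (hasDerivAt_a x k).const_mul _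

/-- even partial sums are at least `1` where the terms increase -/
lemma q_even_ge (m : ℕ) (x : ℝ) (h : ∀ k < 2 * m, a x k ≤ a x (k + 1)) : 1 ≤ q (2 * m) x := by
  induction m with
  | zero => simp [q, a, T_zero]
  | succ m ih =>
    have h1 := ih fun k hk => h k (by omega)
    have h2 := h (2 * m + 1) (by omega)
    have e : q (2 * (m + 1)) x = q (2 * m) x + (a x (2 * m + 2) - a x (2 * m + 1)) := by
      unfold q
      rw [show 2 * (m + 1) + 1 = 2 * m + 1 + 1 + 1 by ring, Finset.sum_range_succ,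
        Finset.sum_range_succ]
      have e1 : (-1 : ℝ) ^ (2 * m + 1) = -1 := by rw [pow_succ, pow_mul]; norm_num
      have e2 : (-1 : ℝ) ^ (2 * m + 1 + 1) = 1 := by rw [pow_succ, pow_succ, pow_mul]; norm_num
      rw [e1, e2]
      ring
    rw [e]
    have e3 : 2 * m + 1 + 1 = 2 * m + 2 := by ring
    rw [e3] at h2
    linarith

/-- the derivative of an odd partial sum is at most `-3` where the derivatives of terms increase -/
lemma dq_odd_le (m : ℕ) (x : ℝ) (h : ∀ k, 1 ≤ k → k < 2 * m + 1 → b x k ≤ b x (k + 1)) :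
    dq (2 * m + 1) x ≤ -3 := by
  induction m with
  | zero => simp [dq, b_zero, b_one, Finset.sum_range_succ]
  | succ m ih =>
    have h1 := ih fun k hk hk' => h k hk (by omega)
    have h2 := h (2 * m + 2) (by omega) (by omega)
    have e : dq (2 * (m + 1) + 1) x = dq (2 * m + 1) x + (b x (2 * m + 2) - b x (2 * m + 3)) := by
      unfold dq
      rw [show 2 * (m + 1) + 1 + 1 = 2 * m + 1 + 1 + 1 + 1 by ring, Finset.sum_range_succ,
        Finset.sum_range_succ]
      have e1 : (-1 : ℝ) ^ (2 * m + 1 + 1) = 1 := by rw [pow_succ, pow_succ, pow_mul]; norm_num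
      have e2 : (-1 : ℝ) ^ (2 * m + 1 + 1 + 1) = -1 := by
        rw [pow_succ, pow_succ, pow_succ, pow_mul]; norm_num
      rw [e1, e2]
      ring
    rw [e]
    have e3 : 2 * m + 2 + 1 = 2 * m + 3 := by ring
    rw [e3] at h2
    linarith

/-- Even partial sums are positive. -/
theorem q_even_pos {n : ℕ} (hn : Even n) {x : ℝ} (hx : 0 ≤ x) : 0 < q n x := by
  obtain ⟨m, hm⟩ := hn
  obtain rfl : n = 2 * m := by omega
  rcases Nat.eq_zero_or_pos m with rfl | hmpos
  · simp [q, a, T_zero]
  rcases hx.eq_or_lt with rfl | hx0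
  · have h : q (2 * m) 0 = 1 := by
      unfold q
      rw [Finset.sum_range_succ']
      have h0 : ∑ k ∈ range (2 * m), (-1 : ℝ) ^ (k + 1) * a 0 (k + 1) = 0 := by
        refine Finset.sum_eq_zero fun k _ => ?_
        unfold a
        rw [T_succ, zero_pow (by omega), mul_zero, mul_zero]
      rw [h0]
      simp [a, T_zero]
    rw [h]
    exact one_pos
  by_cases hB : d (2 * m - 1) ≤ x ^ (2 * m - 1 + 1)
  · refine lt_of_lt_of_le one_pos (q_even_ge m x fun k hk => ?_)
    have h1 : d k ≤ x ^ (k + 1) := by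
      by_contra hlt
      push Not at hlt
      have := chain d d_mono d_lt hx (k := 2 * m - 1) (by omega) hlt
      linarith
    have h2 := a_succ_sub x k
    have h3 : 0 ≤ (2 * (k : ℝ) + 3) * x ^ T k * (x ^ (k + 1) - d k) :=
      mul_nonneg (by positivity) (by linarith)
    linarith
  · push Not at hB
    have hx1 : x < 1 := by
      by_contra hge
      push Not at hge
      have := one_le_pow₀ hge (n := 2 * m - 1 + 1)
      linarith [d_lt (2 * m - 1)]
    obtain ⟨h1, h2⟩ := J_eq hx hx1 (2 * m)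
    have h3 : (-1 : ℝ) ^ (2 * m + 1) = -1 := by rw [pow_succ, pow_mul]; norm_num
    rw [h3] at h1
    have hpos : ∀ k, 2 * m - 1 ≤ k → 0 < a x k - a x (k + 1) := by
      intro k hk
      have h4 := chain d d_mono d_lt hx hk hB
      have h5 := a_succ_sub x k
      have h6 : (2 * (k : ℝ) + 3) * x ^ T k * (x ^ (k + 1) - d k) < 0 :=
        mul_neg_of_pos_of_neg (by positivity) (by linarith)
      linarith
    have hJ := J_nonneg hx hx1
    have hts : 0 < ∑' i : ℕ, (a x (2 * m + 1 + 2 * i) - a x (2 * m + 2 + 2 * i)) := by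
      refine h2.tsum_pos (fun i => ?_) 0 ?_
      · have := hpos (2 * m + 1 + 2 * i) (by omega)
        have e : 2 * m + 1 + 2 * i + 1 = 2 * m + 2 + 2 * i := by ring
        rw [e] at this
        exact this.le
      · have := hpos (2 * m + 1) (by omega)
        simpa using this
    linarith

/-- differences of consecutive terms are monotone below the threshold -/
lemma pair_mono {j : ℕ} (hj : 1 ≤ j) {x y : ℝ} (hx : 0 ≤ x) (hxy : x ≤ y)
    (hy : y ^ (j + 1) ≤ c j) : a x j - a x (j + 1) ≤ a y j - a y (j + 1) := by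
  have hmono : MonotoneOn (fun t => a t j - a t (j + 1)) (Set.Icc 0 y) := by
    refine monotoneOn_of_deriv_nonneg (convex_Icc 0 y) ?_ ?_ ?_
    · exact fun t _ => ((hasDerivAt_a t j).sub (hasDerivAt_a t (j + 1))).continuousAt.continuousWithinAt
    · exact fun t _ =>
        ((hasDerivAt_a t j).sub (hasDerivAt_a t (j + 1))).differentiableAt.differentiableWithinAt
    · intro t ht
      rw [interior_Icc] at ht
      rw [((hasDerivAt_a t j).fun_sub (hasDerivAt_a t (j + 1))).deriv]
      have h1 := b_succ_sub t hj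
      have h2 : t ^ (j + 1) ≤ y ^ (j + 1) := pow_le_pow_left₀ ht.1.le ht.2.le _
      have ht0 : 0 ≤ t := ht.1.le
      have h3 : ((j : ℝ) + 1) / 2 * ((2 * j + 3) * (j + 2)) * t ^ (T j - 1) * (t ^ (j + 1) - c j) ≤ 0 :=
        mul_nonpos_of_nonneg_of_nonpos (by positivity) (by linarith)
      linarith
  exact hmono ⟨hx, hxy⟩ ⟨hx.trans hxy, le_rfl⟩ hxy

/-- Odd partial sums have negative derivative on the positive axis. -/
theorem dq_odd_neg {n : ℕ} (hn : Odd n) {x : ℝ} (hx : 0 < x) : dq n x < 0 := by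
  obtain ⟨m, rfl⟩ := hn
  rcases Nat.eq_zero_or_pos m with rfl | hmpos
  · simp [dq, b_zero, b_one, Finset.sum_range_succ]
  by_cases hB : c (2 * m) ≤ x ^ (2 * m + 1)
  · refine lt_of_le_of_lt (dq_odd_le m x fun k hk1 hk => ?_) (by norm_num)
    have h1 : c k ≤ x ^ (k + 1) := by
      by_contra hlt
      push Not at hlt
      have := chain c c_mono c_lt hx.le (k := 2 * m) (by omega) hlt
      linarith
    have h2 := b_succ_sub x hk1
    have h3 : 0 ≤ ((k : ℝ) + 1) / 2 * ((2 * k + 3) * (k + 2)) * x ^ (T k - 1)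
        * (x ^ (k + 1) - c k) := mul_nonneg (by positivity) (by linarith)
    linarith
  · push Not at hB
    -- a slightly larger point still below the threshold
    obtain ⟨y, hxy, hyB⟩ : ∃ y, x < y ∧ y ^ (2 * m + 1) < c (2 * m) := by
      have hcont : Continuous fun t : ℝ => t ^ (2 * m + 1) := by fun_prop
      have h1 := (hcont.tendsto x).eventually (gt_mem_nhds hB)
      have h2 : ∀ᶠ t in 𝓝[>] x, t ^ (2 * m + 1) < c (2 * m) := nhdsWithin_le_nhds h1
      obtain ⟨y, hy1, hy2⟩ := (h2.and self_mem_nhdsWithin).exists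
      exact ⟨y, hy2, hy1⟩
    have hy0 : 0 < y := hx.trans hxy
    have hy1 : y < 1 := by
      by_contra hge
      push Not at hge
      have := one_le_pow₀ hge (n := 2 * m + 1)
      linarith [c_lt (2 * m)]
    set N := 2 * m + 1 with hN
    -- `q + g` is antitone
    have hanti : AntitoneOn (fun t => q N t + (a t (N + 1) - a t (N + 2))) (Set.Icc 0 y) := by
      intro u hu v hv huv
      have hv1 : v < 1 := lt_of_le_of_lt hv.2 hy1
      have hu1 : u < 1 := lt_of_le_of_lt huv hv1
      obtain ⟨e1, s1⟩ := J_eq hu.1 hu1 N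
      obtain ⟨e2, s2⟩ := J_eq hv.1 hv1 N
      have h3 : (-1 : ℝ) ^ (N + 1) = 1 := by
        rw [hN, pow_succ, pow_succ, pow_mul]; norm_num
      rw [h3, one_mul, s1.tsum_eq_zero_add] at e1
      rw [h3, one_mul, s2.tsum_eq_zero_add] at e2
      have hJ := J_anti hu.1 huv hv1
      have s1' := (summable_nat_add_iff 1).mpr s1
      have s2' := (summable_nat_add_iff 1).mpr s2
      have hle : ∑' i : ℕ, (a u (N + 1 + 2 * (i + 1)) - a u (N + 2 + 2 * (i + 1)))
          ≤ ∑' i : ℕ, (a v (N + 1 + 2 * (i + 1)) - a v (N + 2 + 2 * (i + 1))) := by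
        refine s1'.tsum_le_tsum (fun i => ?_) s2'
        have e : N + 2 + 2 * (i + 1) = N + 1 + 2 * (i + 1) + 1 := by ring
        rw [e]
        refine pair_mono (by omega) hu.1 huv ?_
        refine le_of_lt (lt_of_le_of_lt (pow_le_pow_left₀ hv.1 hv.2 _) ?_)
        exact chain c c_mono c_lt hy0.le (j := 2 * m) (by omega) hyB
      simp only [mul_zero, add_zero] at e1 e2
      simp only
      linarith
    have hder : HasDerivAt (fun t => q N t + (a t (N + 1) - a t (N + 2)))
        (dq N x + (b x (N + 1) - b x (N + 2))) x :=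
      (hasDerivAt_q N x).add ((hasDerivAt_a x (N + 1)).sub (hasDerivAt_a x (N + 2)))
    have hle : dq N x + (b x (N + 1) - b x (N + 2)) ≤ 0 := by
      have hmem : Set.Icc (0 : ℝ) y ∈ 𝓝 x := Icc_mem_nhds hx hxy
      have h1 := hder.hasDerivWithinAt (s := Set.Icc 0 y)
      rw [← h1.derivWithin (uniqueDiffWithinAt_of_mem_nhds hmem)]
      exact hanti.derivWithin_nonpos
    have hpos : 0 < b x (N + 1) - b x (N + 2) := by
      have h1 := b_succ_sub x (k := N + 1) (by omega)
      have h2 : x ^ (N + 1 + 1) < c (N + 1) := chain c c_mono c_lt hx.le (j := 2 * m) (by omega) hB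
      have h3 : ((((N + 1 : ℕ) : ℝ)) + 1) / 2 * ((2 * ((N + 1 : ℕ) : ℝ) + 3)
          * (((N + 1 : ℕ) : ℝ) + 2)) * x ^ (T (N + 1) - 1) * (x ^ (N + 1 + 1) - c (N + 1)) < 0 :=
        mul_neg_of_pos_of_neg (by positivity) (by linarith)
      have e : N + 2 = N + 1 + 1 := by ring
      rw [e]
      linarith
    linarith

lemma q_zero (n : ℕ) : q n 0 = 1 := by
  unfold q
  rw [Finset.sum_range_succ']
  have h0 : ∑ k ∈ range n, (-1 : ℝ) ^ (k + 1) * a 0 (k + 1) = 0 := by
    refine Finset.sum_eq_zero fun k _ => ?_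
    unfold a
    rw [T_succ, zero_pow (by omega), mul_zero, mul_zero]
  rw [h0]
  simp [a, T_zero]

lemma q_one_odd (m : ℕ) : q (2 * m + 1) 1 < 0 := by
  have h : q (2 * m + 1) 1 = -(2 * m + 2) := by
    induction m with
    | zero => simp [q, a, Finset.sum_range_succ]
    | succ m ih =>
      have e : q (2 * (m + 1) + 1) 1 = q (2 * m + 1) 1 + (a 1 (2 * m + 2) - a 1 (2 * m + 3)) := by
        unfold q
        rw [show 2 * (m + 1) + 1 + 1 = 2 * m + 1 + 1 + 1 + 1 by ring, Finset.sum_range_succ,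
          Finset.sum_range_succ]
        have e1 : (-1 : ℝ) ^ (2 * m + 1 + 1) = 1 := by rw [pow_succ, pow_succ, pow_mul]; norm_num
        have e2 : (-1 : ℝ) ^ (2 * m + 1 + 1 + 1) = -1 := by
          rw [pow_succ, pow_succ, pow_succ, pow_mul]; norm_num
        rw [e1, e2]
        ring
      rw [e, ih]
      unfold a
      push_cast
      simp
      ring
  rw [h]
  have : (0 : ℝ) ≤ m := Nat.cast_nonneg m
  linarith

/-- For odd `n` the partial sum has exactly one zero on the positive axis, where the derivative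
is negative. -/
theorem exists_unique_zero {n : ℕ} (hn : Odd n) : ∃ x0 : ℝ, 0 < x0 ∧ q n x0 = 0 ∧
    ∀ x, 0 ≤ x → q n x = 0 → x = x0 := by
  have hcont : Continuous (q n) :=
    continuous_iff_continuousAt.mpr fun x => (hasDerivAt_q n x).continuousAt
  have hanti : StrictAntiOn (q n) (Set.Ici 0) := by
    refine strictAntiOn_of_deriv_neg (convex_Ici 0) hcont.continuousOn fun x hx => ?_
    rw [interior_Ici] at hx
    rw [(hasDerivAt_q n x).deriv]
    exact dq_odd_neg hn hx
  obtain ⟨m, hm⟩ := hn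
  have h1 : q n 1 < 0 := by rw [hm]; exact q_one_odd m
  have h0 : 0 < q n 0 := by rw [q_zero]; exact one_pos
  obtain ⟨x0, hx0, hq⟩ := intermediate_value_Icc' (zero_le_one' ℝ) hcont.continuousOn
    (show (0 : ℝ) ∈ Set.Icc (q n 1) (q n 0) from ⟨h1.le, h0.le⟩)
  refine ⟨x0, ?_, hq, fun x hx hqx => ?_⟩
  · rcases hx0.1.eq_or_lt with h | h
    · rw [← h] at hq
      linarith
    · exact h
  · exact hanti.injOn hx hx0.1 (hqx.trans hq.symm)

end Pool.Agent.X116.Theta
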