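import Mathlib
import Pool.Agent.X116.Theta2

/-!
# The polynomials `∑ (-1)^j (2j+1) z^(j^2+j)`
-/

open Polynomial Filter Topology Finset

namespace Pool.Agent.X116.Theta

lemma eval_eq (n : ℕ) (z : ℝ) :
    (∑ j ∈ range (n + 1), C ((-1 : ℝ) ^ j * (2 * j + 1)) * X ^ (j ^ 2 + j)).eval z
      = q n (z ^ 2) := by
  rw [eval_finsetSum]
  unfold q a
  refine Finset.sum_congr rfl fun j _ => ?_
  rw [eval_mul, eval_C, eval_pow, eval_X, ← pow_mul]
  have : 2 * T j = j ^ 2 + j := by rw [two_T]; ring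
  rw [this]
  ring

lemma ne_zero (n : ℕ) :
    (∑ j ∈ range (n + 1), C ((-1 : ℝ) ^ j * (2 * j + 1)) * X ^ (j ^ 2 + j)) ≠ 0 := by
  intro h
  have := eval_eq n 0
  rw [h, eval_zero] at this
  norm_num [q_zero] at this

/-- for odd `n` there are exactly two real roots, both simple -/
theorem roots_odd {n : ℕ} (hn : Odd n) : ∃ s : ℝ, 0 < s ∧
    (∑ j ∈ range (n + 1), C ((-1 : ℝ) ^ j * (2 * j + 1)) * X ^ (j ^ 2 + j)).roots = {s, -s} := by
  set p : ℝ[X] := ∑ j ∈ range (n + 1), C ((-1 : ℝ) ^ j * (2 * j + 1)) * X ^ (j ^ 2 + j) with hp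
  have hne : p ≠ 0 := ne_zero n
  obtain ⟨x0, hx0, hq0, huniq⟩ := exists_unique_zero hn
  have hev : ∀ z, p.eval z = q n (z ^ 2) := eval_eq n
  refine ⟨Real.sqrt x0, Real.sqrt_pos.mpr hx0, ?_⟩
  set s := Real.sqrt x0 with hs
  have hspos : 0 < s := Real.sqrt_pos.mpr hx0
  have hs2 : s ^ 2 = x0 := Real.sq_sqrt hx0.le
  have hroot : ∀ z, p.eval z = 0 ↔ z = s ∨ z = -s := by
    intro z
    rw [hev]
    constructor
    · intro h
      have := huniq _ (sq_nonneg z) h
      rw [← hs2] at this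
      exact sq_eq_sq_iff_eq_or_eq_neg.mp this
    · rintro (rfl | rfl)
      · rw [hs2, hq0]
      · rw [neg_sq, hs2, hq0]
  have hder : ∀ z : ℝ, (derivative p).eval z = dq n (z ^ 2) * (2 * z) := by
    intro z
    have h1 : HasDerivAt (fun t => p.eval t) ((derivative p).eval z) z := p.hasDerivAt z
    have h2 : HasDerivAt (fun t : ℝ => q n (t ^ 2)) (dq n (z ^ 2) * (2 * z)) z := by
      have h3 : HasDerivAt (fun t : ℝ => t ^ 2) (2 * z) z := by
        simpa using hasDerivAt_pow 2 z
      exact (hasDerivAt_q n (z ^ 2)).comp z h3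
    have h4 : (fun t => p.eval t) = fun t : ℝ => q n (t ^ 2) := funext hev
    rw [h4] at h1
    exact h1.unique h2
  have hnodup : p.roots.Nodup := by
    rw [Multiset.nodup_iff_count_le_one]
    intro z
    rw [count_roots]
    by_contra hlt
    push Not at hlt
    rw [one_lt_rootMultiplicity_iff_isRoot hne] at hlt
    obtain ⟨h1, h2⟩ := hlt
    have hz : z ≠ 0 := by
      rintro rfl
      have : p.eval 0 = 0 := h1
      rw [hev] at this
      norm_num [q_zero] at this
    have h3 : (derivative p).eval z = 0 := h2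
    rw [hder] at h3
    have h4 := dq_odd_neg hn (x := z ^ 2) (by positivity)
    rcases mul_eq_zero.mp h3 with h5 | h5
    · linarith
    · exact hz (by linarith)
  have hnodup2 : ({s, -s} : Multiset ℝ).Nodup := by
    have : s ≠ -s := by
      intro h
      linarith
    simp [this]
  rw [Multiset.Nodup.ext hnodup hnodup2]
  intro z
  rw [mem_roots hne, IsRoot, hroot]
  simp

end Pool.Agent.X116.Theta
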