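import Mathlib

/-!
# Windows with a local reproducing formula on every disc: definitions and L² preliminaries
-/

set_option autoImplicit false

namespace Pool.Agent.X116.Lr

open MeasureTheory Filter Topology
open scoped ComplexConjugate

/-- The time-frequency shift `π(z) g (t) = e^{2π i ξ t} g (t - x)`, `z = (x, ξ)`. -/
noncomputable def tf (z : ℝ × ℝ) (g : ℝ → ℂ) : ℝ → ℂ :=
  fun t => Complex.exp (2 * Real.pi * Complex.I * z.2 * t) * g (t - z.1)

/-- The inner product of `L²(ℝ)`. -/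
noncomputable def ip (f h : ℝ → ℂ) : ℂ := ∫ t, f t * conj (h t)

/-- The short-time Fourier transform of `f` with window `g`. -/
noncomputable def stft (g f : ℝ → ℂ) (z : ℝ × ℝ) : ℂ := ip f (tf z g)

/-- `g` admits a local reproducing formula on all discs. -/
def LocalRepro (g : ℝ → ℂ) : Prop :=
  ∀ R : ℝ, 0 < R → ∃ C : ℂ, C ≠ 0 ∧ ∀ f : ℝ → ℂ, MemLp f 2 volume → ∀ z : ℝ × ℝ,
    C * stft g f z =
      ∫ w in {w : ℝ × ℝ | (w.1 - z.1) ^ 2 + (w.2 - z.2) ^ 2 < R ^ 2},
        ip (tf w g) (tf z g) * stft g f w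

/-! ### L² tools -/

theorem int_mul {f h : ℝ → ℂ} (hf : MemLp f 2 volume) (hh : MemLp h 2 volume) :
    Integrable (fun t => f t * conj (h t)) volume := by
  have h1 : MemLp (fun t => conj (h t)) 2 volume := hh.star
  exact MemLp.integrable_mul hf h1

theorem cs {f h : ℝ → ℂ} (hf : MemLp f 2 volume) (hh : MemLp h 2 volume) :
    ‖∫ t, f t * conj (h t)‖ ≤ Real.sqrt (∫ t, ‖f t‖ ^ 2) * Real.sqrt (∫ t, ‖h t‖ ^ 2) := by
  have h0 := integral_mul_norm_le_Lp_mul_Lq (μ := (volume : Measure ℝ)) (f := f) (g := h)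
    (p := 2) (q := 2) (by constructor <;> norm_num) (by simpa using hf) (by simpa using hh)
  have h1 : ‖∫ t, f t * conj (h t)‖ ≤ ∫ t, ‖f t‖ * ‖h t‖ := by
    refine (norm_integral_le_integral_norm _).trans_eq ?_
    congr 1
    ext t
    rw [norm_mul, RCLike.norm_conj]
  refine h1.trans (h0.trans_eq ?_)
  rw [Real.sqrt_eq_rpow, Real.sqrt_eq_rpow]
  simp

theorem memLp_shift {g : ℝ → ℂ} (hg : MemLp g 2 volume) (x : ℝ) :
    MemLp (fun t => g (t + x)) 2 volume :=
  hg.comp_measurePreserving (measurePreserving_add_right volume x)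

theorem memLp_mod {g : ℝ → ℂ} (hg : MemLp g 2 volume) (ξ : ℝ) :
    MemLp (fun t : ℝ => Complex.exp (2 * Real.pi * Complex.I * ξ * t) * g t) 2 volume := by
  have h1 : ∀ t : ℝ, ‖Complex.exp (2 * Real.pi * Complex.I * ξ * t)‖ = 1 := by
    intro t
    rw [Complex.norm_exp]
    simp
  refine (memLp_congr_norm ?_ hg.1 ?_).2 hg
  · exact (Continuous.aestronglyMeasurable (by fun_prop)).mul hg.1
  · filter_upwards with t
    rw [norm_mul, h1, one_mul]

theorem memLp_tf {g : ℝ → ℂ} (hg : MemLp g 2 volume) (z : ℝ × ℝ) :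
    MemLp (tf z g) 2 volume := by
  have h := memLp_mod (memLp_shift hg (-z.1)) z.2
  exact h

/-- The symmetric cross-ambiguity function. -/
noncomputable def amb (f h : ℝ → ℂ) (w : ℝ × ℝ) : ℂ :=
  ∫ t : ℝ, (Complex.exp (2 * Real.pi * Complex.I * w.2 * t) * f (t + -(w.1 / 2))) *
    conj (h (t + w.1 / 2))

theorem norm_shift (h : ℝ → ℂ) (x : ℝ) :
    ∫ t, ‖h (t + x)‖ ^ 2 = ∫ t, ‖h t‖ ^ 2 :=
  integral_add_right_eq_self (fun t => ‖h t‖ ^ 2) x

theorem norm_mod (h : ℝ → ℂ) (ξ : ℝ) :
    ∫ t : ℝ, ‖Complex.exp (2 * Real.pi * Complex.I * ξ * t) * h t‖ ^ 2 = ∫ t, ‖h t‖ ^ 2 := by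
  congr 1
  ext t
  have h1 : ‖Complex.exp (2 * Real.pi * Complex.I * ξ * t)‖ = 1 := by
    rw [Complex.norm_exp]
    simp
  rw [norm_mul, h1, one_mul]

theorem amb_le {f h : ℝ → ℂ} (hf : MemLp f 2 volume) (hh : MemLp h 2 volume) (w : ℝ × ℝ) :
    ‖amb f h w‖ ≤ Real.sqrt (∫ t, ‖f t‖ ^ 2) * Real.sqrt (∫ t, ‖h t‖ ^ 2) := by
  have h1 := cs (memLp_mod (memLp_shift hf (-(w.1 / 2))) w.2) (memLp_shift hh (w.1 / 2))
  rw [norm_mod (fun t => f (t + -(w.1 / 2))), norm_shift, norm_shift] at h1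
  exact h1

theorem amb_sub_left {f f' h : ℝ → ℂ} (hf : MemLp f 2 volume) (hf' : MemLp f' 2 volume)
    (hh : MemLp h 2 volume) (w : ℝ × ℝ) :
    amb f h w - amb f' h w = amb (fun t => f t - f' t) h w := by
  unfold amb
  rw [← integral_sub (int_mul (memLp_mod (memLp_shift hf _) _) (memLp_shift hh _))
    (int_mul (memLp_mod (memLp_shift hf' _) _) (memLp_shift hh _))]
  congr 1
  ext t
  ring

theorem amb_sub_right {f h h' : ℝ → ℂ} (hf : MemLp f 2 volume) (hh : MemLp h 2 volume)
    (hh' : MemLp h' 2 volume) (w : ℝ × ℝ) :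
    amb f h w - amb f h' w = amb f (fun t => h t - h' t) w := by
  unfold amb
  rw [← integral_sub (int_mul (memLp_mod (memLp_shift hf _) _) (memLp_shift hh _))
    (int_mul (memLp_mod (memLp_shift hf _) _) (memLp_shift hh' _))]
  congr 1
  ext t
  rw [map_sub]
  ring

theorem amb_cont_compact {c : ℝ → ℂ} (hc : Continuous c) (hs : HasCompactSupport c) :
    Continuous (amb c c) := by
  obtain ⟨M, hM⟩ := hc.bounded_above_of_compact_support hs
  obtain ⟨A, hA⟩ := hs.isCompact.isBounded.subset_closedBall 0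
  rw [continuous_iff_continuousAt]
  intro w₀
  refine continuousAt_of_dominated
    (bound := (Set.Icc (-(|A| + |w₀.1| + 1)) (|A| + |w₀.1| + 1)).indicator
      (fun _ => |M| * |M|)) ?_ ?_ ?_ ?_
  · filter_upwards with w
    apply Continuous.aestronglyMeasurable
    fun_prop
  · have hev : ∀ᶠ w in 𝓝 w₀, |w.1| < |w₀.1| + 1 := by
      have : ContinuousAt (fun w : ℝ × ℝ => |w.1|) w₀ := by fun_prop
      exact this.eventually (gt_mem_nhds (by linarith))
    filter_upwards [hev] with w hw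
    filter_upwards with t
    have h1 : ‖Complex.exp (2 * Real.pi * Complex.I * w.2 * t)‖ = 1 := by
      rw [Complex.norm_exp]
      simp
    rw [norm_mul, norm_mul, RCLike.norm_conj, h1, one_mul]
    by_cases ht : t ∈ Set.Icc (-(|A| + |w₀.1| + 1)) (|A| + |w₀.1| + 1)
    · rw [Set.indicator_of_mem ht]
      exact mul_le_mul ((hM _).trans (le_abs_self M)) ((hM _).trans (le_abs_self M))
        (norm_nonneg _) (abs_nonneg _)
    · rw [Set.indicator_of_notMem ht]
      have h2 : c (t + -(w.1 / 2)) = 0 := by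
        by_contra hne
        apply ht
        have h3 := hA (subset_tsupport c (Function.mem_support.2 hne))
        rw [Metric.mem_closedBall, dist_zero_right, Real.norm_eq_abs] at h3
        have h4 : |t| ≤ |A| + |w₀.1| + 1 := by
          have h5 : |t| ≤ |t + -(w.1 / 2)| + |w.1 / 2| := by
            have := abs_add_le (t + -(w.1 / 2)) (w.1 / 2)
            simpa using this
          have h6 : |w.1 / 2| ≤ |w.1| := by
            rw [abs_div, abs_two]
            have := abs_nonneg w.1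
            linarith
          have h7 := le_abs_self A
          linarith
        rw [abs_le] at h4
        exact ⟨h4.1, h4.2⟩
      rw [h2, norm_zero, zero_mul]
  · exact (integrable_indicator_iff measurableSet_Icc).2
      (integrableOn_const (by simp [Real.volume_Icc]) (by simp [ENNReal.mul_eq_top]))
  · filter_upwards with t
    fun_prop

theorem amb_continuous {g : ℝ → ℂ} (hg : MemLp g 2 volume) : Continuous (amb g g) := by
  rw [continuous_iff_continuousAt]
  intro w₀
  rw [Metric.continuousAt_iff']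
  intro ε hε
  set N : ℝ := Real.sqrt (∫ t, ‖g t‖ ^ 2) with hN
  have hN0 : 0 ≤ N := Real.sqrt_nonneg _
  -- approximate
  set δ : ℝ := min 1 (ε / (4 * (2 * N + 1) + 1)) with hδ
  have hδ0 : 0 < δ := lt_min one_pos (by positivity)
  obtain ⟨c, hcs, hcl, hcc, hcm⟩ := MemLp.exists_hasCompactSupport_integral_rpow_sub_le
    (p := 2) two_pos (by simpa using hg) (ε := δ ^ 2) (by positivity)
  have hcm' : MemLp c 2 volume := by simpa using hcm
  have hsub : MemLp (fun t => g t - c t) 2 volume := hg.sub hcm'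
  have hd : Real.sqrt (∫ t, ‖g t - c t‖ ^ 2) ≤ δ := by
    rw [show δ = Real.sqrt (δ ^ 2) from (Real.sqrt_sq hδ0.le).symm]
    apply Real.sqrt_le_sqrt
    have : ∫ t, ‖g t - c t‖ ^ 2 = ∫ t, ‖g t - c t‖ ^ (2:ℝ) := by
      congr 1; ext t; rw [← Real.rpow_natCast]; norm_num
    rw [this]
    exact hcl
  have hcN : Real.sqrt (∫ t, ‖c t‖ ^ 2) ≤ N + 1 := by
    have e1 : ∫ t, ‖c t‖ ^ 2 = ‖∫ t, c t * conj (c t)‖ := by
      have : (∫ t, c t * conj (c t)) = ((∫ t, ‖c t‖ ^ 2 : ℝ) : ℂ) := by
        rw [← integral_complex_ofReal]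
        congr 1
        ext t
        rw [Complex.mul_conj, Complex.normSq_eq_norm_sq]
      rw [this, Complex.norm_real, Real.norm_of_nonneg (integral_nonneg fun t => by positivity)]
    have e2 : (∫ t, c t * conj (c t)) =
        (∫ t, g t * conj (c t)) - ∫ t, (g t - c t) * conj (c t) := by
      rw [← integral_sub (int_mul hg hcm') (int_mul hsub hcm')]
      congr 1
      ext t
      ring
    have e3 := cs hg hcm'
    have e4 := cs hsub hcm'
    set S : ℝ := Real.sqrt (∫ t, ‖c t‖ ^ 2) with hS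
    have hS0 : 0 ≤ S := Real.sqrt_nonneg _
    have hSS : S * S = ∫ t, ‖c t‖ ^ 2 :=
      Real.mul_self_sqrt (integral_nonneg fun t => by positivity)
    have e5 : S * S ≤ N * S + δ * S := by
      rw [hSS, e1, e2]
      refine (norm_sub_le _ _).trans (add_le_add e3 (e4.trans ?_))
      exact mul_le_mul_of_nonneg_right hd hS0
    rcases hS0.eq_or_lt with h0 | h0
    · rw [← h0]; linarith
    · have e6 : S ≤ N + δ := by nlinarith
      have := min_le_left 1 (ε / (4 * (2 * N + 1) + 1))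
      linarith
  have hcont := (amb_cont_compact hcc hcs).continuousAt (x := w₀)
  rw [Metric.continuousAt_iff'] at hcont
  have key : ∀ w, ‖amb g g w - amb c c w‖ ≤ δ * (2 * N + 1) := by
    intro w
    have h1 := amb_sub_left hg hcm' hg w
    have h2 := amb_sub_right hcm' hg hcm' w
    have h3 : amb g g w - amb c c w =
        amb (fun t => g t - c t) g w + amb c (fun t => g t - c t) w := by
      rw [← h1, ← h2]; ring
    rw [h3]
    have h4 := amb_le hsub hg w
    have h5 := amb_le hcm' hsub w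
    have h4' : ‖amb (fun t => g t - c t) g w‖ ≤ δ * N :=
      h4.trans (mul_le_mul_of_nonneg_right hd hN0)
    have h5' : ‖amb c (fun t => g t - c t) w‖ ≤ (N + 1) * δ :=
      h5.trans (mul_le_mul hcN hd (Real.sqrt_nonneg _) (by linarith))
    refine (norm_add_le _ _).trans ?_
    nlinarith
  have hδ2 : δ * (2 * N + 1) ≤ ε / 4 := by
    have h1 : δ ≤ ε / (4 * (2 * N + 1) + 1) := min_le_right _ _
    have h2 : ε / (4 * (2 * N + 1) + 1) * (2 * N + 1) ≤ ε / 4 := by
      rw [div_mul_eq_mul_div, div_le_div_iff₀ (by positivity) (by norm_num)]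
      nlinarith
    exact (mul_le_mul_of_nonneg_right h1 (by positivity)).trans h2
  filter_upwards [hcont (ε / 4) (by positivity)] with w hw
  rw [dist_eq_norm] at hw ⊢
  have e : amb g g w - amb g g w₀ =
      (amb g g w - amb c c w) + (amb c c w - amb c c w₀) - (amb g g w₀ - amb c c w₀) := by ring
  rw [e]
  have h1 := key w
  have h2 := key w₀
  have h3 := norm_sub_le ((amb g g w - amb c c w) + (amb c c w - amb c c w₀))
    (amb g g w₀ - amb c c w₀)
  have h4 := norm_add_le (amb g g w - amb c c w) (amb c c w - amb c c w₀)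
  linarith

theorem amb_neg (g : ℝ → ℂ) (w : ℝ × ℝ) : amb g g (-w) = conj (amb g g w) := by
  unfold amb
  rw [← integral_conj]
  congr 1
  ext t
  rw [map_mul, map_mul, Complex.conj_conj, ← Complex.exp_conj]
  simp only [Prod.fst_neg, Prod.snd_neg, map_mul, Complex.conj_I, Complex.conj_ofReal, map_ofNat]
  rw [show -(-w.1 / 2) = w.1 / 2 by ring, show -w.1 / 2 = -(w.1 / 2) by ring]
  push_cast
  ring_nf

theorem amb_zero (g : ℝ → ℂ) : amb g g 0 = ((∫ t, ‖g t‖ ^ 2 : ℝ) : ℂ) := by
  unfold amb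
  rw [← integral_complex_ofReal]
  congr 1
  ext t
  simp only [Prod.fst_zero, Prod.snd_zero]
  norm_num
  rw [Complex.mul_conj, Complex.normSq_eq_norm_sq]
  push_cast
  rfl

theorem ip_tf (g : ℝ → ℂ) (w : ℝ × ℝ) :
    ip (tf w g) (tf 0 g) = Complex.exp (Real.pi * Complex.I * w.1 * w.2) * amb g g w := by
  unfold ip amb tf
  rw [← integral_const_mul]
  rw [← integral_add_right_eq_self (fun t : ℝ =>
    Complex.exp (2 * Real.pi * Complex.I * w.2 * t) * g (t - w.1) *
      conj (Complex.exp (2 * Real.pi * Complex.I * ((0 : ℝ × ℝ).2 : ℝ) * t) *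
        g (t - (0 : ℝ × ℝ).1))) (w.1 / 2)]
  congr 1
  ext t
  simp only [Prod.fst_zero, Prod.snd_zero]
  rw [show t + w.1 / 2 - w.1 = t + -(w.1 / 2) by ring, sub_zero]
  simp only [Complex.ofReal_zero, mul_zero, zero_mul, Complex.exp_zero, one_mul]
  rw [← mul_assoc, ← mul_assoc, ← Complex.exp_add]
  congr 3
  push_cast
  ring

end Pool.Agent.X116.Lr
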