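import Mathlib
import Pool.Agent.X116.LrA

set_option autoImplicit false

namespace Pool.Agent.X116.Lr

open MeasureTheory Filter Topology
open scoped ComplexConjugate

/-- Gaussian test functions `t ↦ e^{-π t² + 2π z t}`. -/
noncomputable def phi (z : ℂ) (t : ℝ) : ℂ :=
  Complex.exp (-(Real.pi : ℂ) * t ^ 2 + 2 * Real.pi * z * t)

theorem phi_cont (z : ℂ) : Continuous (phi z) := by
  unfold phi; fun_prop

theorem norm_phi (z : ℂ) (t : ℝ) :
    ‖phi z t‖ = Real.exp (-Real.pi * t ^ 2 + 2 * Real.pi * z.re * t) := by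
  unfold phi
  rw [Complex.norm_exp]
  congr 1
  have : (-(Real.pi : ℂ) * t ^ 2 + 2 * Real.pi * z * t) =
      ((-Real.pi * t ^ 2 : ℝ) : ℂ) + ((2 * Real.pi * t : ℝ) : ℂ) * z := by
    push_cast; ring
  rw [this, Complex.add_re, Complex.ofReal_re, Complex.re_ofReal_mul]
  ring

theorem phi_memLp (z : ℂ) : MemLp (phi z) 2 volume := by
  rw [memLp_two_iff_integrable_sq_norm (phi_cont z).aestronglyMeasurable]
  have h := (integrable_cexp_quadratic' (b := ((-(2 * Real.pi) : ℝ) : ℂ))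
    (by rw [Complex.ofReal_re]; nlinarith [Real.pi_pos])
    (((4 * Real.pi * z.re : ℝ)) : ℂ) 0).norm
  refine h.congr ?_
  filter_upwards with t
  rw [norm_phi, Complex.norm_exp, ← Real.exp_nat_mul]
  congr 1
  have : ((-(2 * Real.pi) : ℝ) : ℂ) * t ^ 2 + ((4 * Real.pi * z.re : ℝ) : ℂ) * t + 0 =
      ((-(2 * Real.pi) * t ^ 2 + 4 * Real.pi * z.re * t : ℝ) : ℂ) := by push_cast; ring
  rw [this, Complex.ofReal_re]
  push_cast
  ring

/-- The (unnormalised) Bargmann transform of the conjugate window. -/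
noncomputable def Bt (g : ℝ → ℂ) (z : ℂ) : ℂ := ∫ t, phi z t * conj (g t)

theorem gauss_memLp : MemLp (fun t : ℝ => ((Real.exp (-Real.pi * t ^ 2 / 2) : ℝ) : ℂ)) 2 volume := by
  rw [memLp_two_iff_integrable_sq_norm (by
    apply Continuous.aestronglyMeasurable; fun_prop)]
  refine (integrable_exp_neg_mul_sq Real.pi_pos).congr ?_
  filter_upwards with t
  rw [Complex.norm_real, Real.norm_of_nonneg (Real.exp_pos _).le, ← Real.exp_nat_mul]
  congr 1
  push_cast
  ring

theorem Bt_hasDerivAt {g : ℝ → ℂ} (hg : MemLp g 2 volume) (z₀ : ℂ) :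
    ∃ d, HasDerivAt (Bt g) d z₀ := by
  set a : ℝ := 2 * Real.pi * (‖z₀‖ + 1) + 1 with ha
  have ha0 : 0 < a := by positivity
  refine ⟨_, (hasDerivAt_integral_of_dominated_loc_of_deriv_le (μ := (volume : Measure ℝ))
    (F := fun z t => phi z t * conj (g t))
    (F' := fun z t => (2 * Real.pi * t * phi z t) * conj (g t))
    (bound := fun t => (2 * Real.pi * Real.exp (a ^ 2 / (2 * Real.pi))) *
      (Real.exp (-Real.pi * t ^ 2 / 2) * ‖g t‖))
    (Metric.ball_mem_nhds z₀ one_pos) ?_ ?_ ?_ ?_ ?_ ?_).2⟩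
  · filter_upwards with z
    exact (phi_cont z).aestronglyMeasurable.mul hg.star.1
  · exact int_mul (phi_memLp z₀) hg
  · exact (Continuous.aestronglyMeasurable (by
      have := phi_cont z₀
      fun_prop)).mul hg.star.1
  · filter_upwards with t
    intro z hz
    rw [norm_mul, RCLike.norm_conj, norm_mul, norm_phi]
    have h1 : ‖(2 * Real.pi * t : ℂ)‖ = 2 * Real.pi * |t| := by
      rw [norm_mul, norm_mul, Complex.norm_real, Complex.norm_real, Complex.norm_ofNat,
        Real.norm_of_nonneg Real.pi_pos.le, Real.norm_eq_abs]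
    rw [h1]
    have hz1 : |z.re| ≤ ‖z₀‖ + 1 := by
      have h2 := Complex.abs_re_le_norm z
      have h3 : ‖z‖ ≤ ‖z₀‖ + ‖z - z₀‖ := by
        have := norm_add_le z₀ (z - z₀)
        simpa using this
      rw [Metric.mem_ball, dist_eq_norm] at hz
      linarith
    have h2 : |t| ≤ Real.exp |t| := (by linarith [Real.add_one_le_exp |t|])
    have h3 : z.re * t ≤ (‖z₀‖ + 1) * |t| := by
      refine (le_abs_self _).trans ?_
      rw [abs_mul]
      exact mul_le_mul_of_nonneg_right hz1 (abs_nonneg _)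
    have h4 : |t| + (-Real.pi * t ^ 2 + 2 * Real.pi * z.re * t) ≤
        a ^ 2 / (2 * Real.pi) + -Real.pi * t ^ 2 / 2 := by
      have h5 : a * |t| ≤ a ^ 2 / (2 * Real.pi) + Real.pi * t ^ 2 / 2 := by
        rw [← sq_abs t]
        have hp := Real.pi_pos
        rw [div_add_div _ _ (by positivity) (by norm_num), le_div_iff₀ (by positivity)]
        nlinarith [sq_nonneg (a - Real.pi * |t|)]
      have h6 : |t| + 2 * Real.pi * z.re * t ≤ a * |t| := by
        have := mul_le_mul_of_nonneg_left h3 (by positivity : (0:ℝ) ≤ 2 * Real.pi)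
        rw [ha]
        nlinarith
      linarith
    have h5 : |t| * Real.exp (-Real.pi * t ^ 2 + 2 * Real.pi * z.re * t) ≤
        Real.exp (a ^ 2 / (2 * Real.pi)) * Real.exp (-Real.pi * t ^ 2 / 2) := by
      rw [← Real.exp_add]
      calc _ ≤ Real.exp |t| * Real.exp (-Real.pi * t ^ 2 + 2 * Real.pi * z.re * t) :=
            mul_le_mul_of_nonneg_right h2 (Real.exp_pos _).le
        _ = Real.exp (|t| + (-Real.pi * t ^ 2 + 2 * Real.pi * z.re * t)) := by
            rw [← Real.exp_add]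
        _ ≤ _ := Real.exp_le_exp.2 h4
    have h6 := norm_nonneg (g t)
    have h7 : 0 ≤ 2 * Real.pi * ‖g t‖ := by positivity
    calc _ = (2 * Real.pi * ‖g t‖) * (|t| * Real.exp (-Real.pi * t ^ 2 + 2 * Real.pi * z.re * t)) := by
          ring
      _ ≤ (2 * Real.pi * ‖g t‖) *
          (Real.exp (a ^ 2 / (2 * Real.pi)) * Real.exp (-Real.pi * t ^ 2 / 2)) :=
          mul_le_mul_of_nonneg_left h5 h7
      _ = _ := by ring
  · refine Integrable.const_mul ?_ _
    refine (int_mul gauss_memLp hg).norm.congr ?_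
    filter_upwards with t
    rw [norm_mul, RCLike.norm_conj, Complex.norm_real, Real.norm_of_nonneg (Real.exp_pos _).le]
  · filter_upwards with t
    intro z _
    have h1 : HasDerivAt (fun z : ℂ => (-(Real.pi : ℂ) * (t : ℂ) ^ 2 +
        2 * (Real.pi : ℂ) * z * (t : ℂ))) (2 * (Real.pi : ℂ) * (t : ℂ)) z := by
      have h2 := ((hasDerivAt_id z).const_mul (2 * (Real.pi : ℂ) * t)).const_add
        (-(Real.pi : ℂ) * (t : ℂ) ^ 2)
      have h2' := h2.congr_deriv (g' := 2 * (Real.pi : ℂ) * (t : ℂ)) (by ring)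
      refine h2'.congr_of_eventuallyEq ?_
      filter_upwards with y
      simp only [id]
      ring
    have h3 := h1.cexp.mul_const (conj (g t))
    refine h3.congr_deriv ?_
    unfold phi
    ring

theorem Bt_differentiable {g : ℝ → ℂ} (hg : MemLp g 2 volume) : Differentiable ℂ (Bt g) := by
  intro z
  obtain ⟨d, hd⟩ := Bt_hasDerivAt hg z
  exact hd.differentiableAt

theorem stft_phi (g : ℝ → ℂ) (z : ℂ) (w : ℝ × ℝ) :
    stft g (phi z) w = Complex.exp (-2 * Real.pi * Complex.I * w.1 * w.2 -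
      Real.pi * w.1 ^ 2 + 2 * Real.pi * z * w.1) * Bt g (z - w.1 - Complex.I * w.2) := by
  unfold stft ip Bt tf
  rw [← integral_const_mul]
  rw [← integral_add_right_eq_self (fun t : ℝ => phi z t *
    conj (Complex.exp (2 * Real.pi * Complex.I * w.2 * t) * g (t - w.1))) w.1]
  congr 1
  ext t
  rw [map_mul, ← Complex.exp_conj, add_sub_cancel_right, ← mul_assoc, ← mul_assoc]
  congr 1
  unfold phi
  rw [← Complex.exp_add, ← Complex.exp_add]
  congr 1
  simp only [map_mul, Complex.conj_I, Complex.conj_ofReal, map_ofNat]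
  push_cast
  ring

/-- The Bargmann transform. -/
noncomputable def be (g : ℝ → ℂ) (z : ℂ) : ℂ := Complex.exp (-(Real.pi : ℂ) * z ^ 2 / 2) * Bt g z

theorem Bt_eq (g : ℝ → ℂ) (z : ℂ) :
    Bt g z = Complex.exp ((Real.pi : ℂ) * z ^ 2 / 2) * be g z := by
  unfold be
  rw [← mul_assoc, ← Complex.exp_add]
  rw [show (Real.pi : ℂ) * z ^ 2 / 2 + -(Real.pi : ℂ) * z ^ 2 / 2 = 0 by ring, Complex.exp_zero,
    one_mul]

theorem be_differentiable {g : ℝ → ℂ} (hg : MemLp g 2 volume) : Differentiable ℂ (be g) := by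
  unfold be
  have := Bt_differentiable hg
  fun_prop

/-- The disc of radius `R` about the origin. -/
def DD (R : ℝ) : Set (ℝ × ℝ) := {w | w.1 ^ 2 + w.2 ^ 2 < R ^ 2}

/-- the complex number attached to a time-frequency point -/
noncomputable def ze (w : ℝ × ℝ) : ℂ := w.1 + Complex.I * w.2

/-- The kernel function in the reduced identity. -/
noncomputable def PP (β : ℂ → ℂ) (z ζ : ℂ) : ℂ :=
  Complex.exp (-((Real.pi : ℂ) / 2) * (ζ * conj ζ) + Real.pi * z * conj ζ) * β (z - ζ)

theorem core {g : ℝ → ℂ} (hg : LocalRepro g) (R : ℝ) (hR : 0 < R) :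
    ∃ C : ℂ, ∀ z : ℂ, C * be g z = ∫ w in DD R, amb g g w * PP (be g) z (ze w) := by
  obtain ⟨C, -, hC⟩ := hg R hR
  refine ⟨C, fun z => ?_⟩
  have h1 := hC (phi z) (phi_memLp z) 0
  have h2 : stft g (phi z) 0 = Bt g z := by
    rw [stft_phi]
    simp
  rw [h2] at h1
  have h3 : C * be g z = Complex.exp (-(Real.pi : ℂ) * z ^ 2 / 2) * (C * Bt g z) := by
    unfold be; ring
  rw [h3, h1, ← integral_const_mul]
  have h4 : {w : ℝ × ℝ | (w.1 - (0 : ℝ × ℝ).1) ^ 2 + (w.2 - (0 : ℝ × ℝ).2) ^ 2 < R ^ 2} = DD R := by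
    ext w; simp [DD]
  rw [h4]
  congr 1
  ext w
  rw [ip_tf, stft_phi, Bt_eq]
  unfold PP
  have e1 : z - (w.1 : ℂ) - Complex.I * w.2 = z - ze w := by unfold ze; ring
  rw [e1]
  have e2 : Complex.exp (-(Real.pi : ℂ) * z ^ 2 / 2) *
      (Complex.exp (Real.pi * Complex.I * w.1 * w.2) * amb g g w *
        (Complex.exp (-2 * Real.pi * Complex.I * w.1 * w.2 - Real.pi * w.1 ^ 2 +
          2 * Real.pi * z * w.1) *
          (Complex.exp ((Real.pi : ℂ) * (z - ze w) ^ 2 / 2) * be g (z - ze w)))) =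
      amb g g w * ((Complex.exp (-(Real.pi : ℂ) * z ^ 2 / 2) *
        Complex.exp (Real.pi * Complex.I * w.1 * w.2) *
        Complex.exp (-2 * Real.pi * Complex.I * w.1 * w.2 - Real.pi * w.1 ^ 2 +
          2 * Real.pi * z * w.1) * Complex.exp ((Real.pi : ℂ) * (z - ze w) ^ 2 / 2)) *
          be g (z - ze w)) := by ring
  rw [e2, ← Complex.exp_add, ← Complex.exp_add, ← Complex.exp_add]
  congr 3
  unfold ze
  simp only [map_add, map_mul, Complex.conj_I, Complex.conj_ofReal]
  ring_nf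

end Pool.Agent.X116.Lr
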