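import Mathlib
import Pool.Agent.X116.LrB

set_option autoImplicit false

namespace Pool.Agent.X116.Lr

open MeasureTheory Filter Topology Asymptotics
open scoped ComplexConjugate

theorem taylor3 {f : ℂ → ℂ} (hf : Differentiable ℂ f) (z : ℂ) :
    (fun h : ℂ => f (z + h) - (f z + h * deriv f z + h ^ 2 * (iteratedDeriv 2 f z / 2))) =O[𝓝 0]
      fun h => ‖h‖ ^ 3 := by
  have h1 := (hf.analyticAt z).hasFPowerSeriesAt.isBigO_sub_partialSum_pow 3
  refine h1.congr_left fun h => ?_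
  congr 1
  rw [FormalMultilinearSeries.partialSum, Finset.sum_range_succ, Finset.sum_range_succ,
    Finset.sum_range_succ, Finset.sum_range_zero]
  simp only [FormalMultilinearSeries.ofScalars_apply_eq]
  simp [iteratedDeriv_one]
  ring

theorem conj_O : (fun ζ : ℂ => conj ζ) =O[𝓝 0] fun ζ => ‖ζ‖ :=
  IsBigO.of_bound 1 (by
    filter_upwards with ζ
    rw [RCLike.norm_conj, norm_norm, one_mul])

theorem id_O : (fun ζ : ℂ => ζ) =O[𝓝 0] fun ζ => ‖ζ‖ :=
  IsBigO.of_bound 1 (by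
    filter_upwards with ζ
    rw [norm_norm, one_mul])

theorem mono_O (a b : ℕ) (hab : 3 ≤ a + b) :
    (fun ζ : ℂ => ζ ^ a * (conj ζ) ^ b) =O[𝓝 0] fun ζ => ‖ζ‖ ^ 3 := by
  refine IsBigO.of_bound 1 ?_
  filter_upwards [Metric.closedBall_mem_nhds (0 : ℂ) one_pos] with ζ hζ
  rw [Metric.mem_closedBall, dist_zero_right] at hζ
  rw [norm_mul, norm_pow, norm_pow, RCLike.norm_conj, ← pow_add, one_mul, norm_pow, norm_norm]
  exact pow_le_pow_of_le_one (norm_nonneg _) hζ hab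

/-- The second order expansion. -/
noncomputable def QQ (b0 b1 b2 z ζ : ℂ) : ℂ :=
  b0 + (Real.pi * z * conj ζ * b0 - ζ * b1) +
    (-((Real.pi : ℂ) / 2) * (ζ * conj ζ) * (b0 + 2 * z * b1) +
      (Real.pi : ℂ) ^ 2 * z ^ 2 / 2 * (conj ζ) ^ 2 * b0 + ζ ^ 2 * b2)

theorem PP_expand {β : ℂ → ℂ} (hβ : Differentiable ℂ β) (z : ℂ) :
    (fun ζ : ℂ => PP β z ζ - QQ (β z) (deriv β z) (iteratedDeriv 2 β z / 2) z ζ) =O[𝓝 0]
      fun ζ => ‖ζ‖ ^ 3 := by
  set b0 := β z
  set b1 := deriv β z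
  set b2 := iteratedDeriv 2 β z / 2
  set A : ℂ → ℂ := fun ζ => -((Real.pi : ℂ) / 2) * (ζ * conj ζ) + Real.pi * z * conj ζ with hA
  have hAO : A =O[𝓝 0] fun ζ => ‖ζ‖ := by
    have h1 : (fun ζ : ℂ => -((Real.pi : ℂ) / 2) * (ζ * conj ζ)) =O[𝓝 0] fun ζ => ‖ζ‖ := by
      refine IsBigO.of_bound ‖-((Real.pi : ℂ) / 2)‖ ?_
      filter_upwards [Metric.closedBall_mem_nhds (0 : ℂ) one_pos] with ζ hζ
      rw [Metric.mem_closedBall, dist_zero_right] at hζ
      rw [norm_mul, norm_mul, RCLike.norm_conj, norm_norm]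
      refine mul_le_mul_of_nonneg_left ?_ (norm_nonneg _)
      nlinarith [norm_nonneg ζ]
    have h2 : (fun ζ : ℂ => Real.pi * z * conj ζ) =O[𝓝 0] fun ζ => ‖ζ‖ := conj_O.const_mul_left _
    exact h1.add h2
  have hA0 : Tendsto A (𝓝 0) (𝓝 0) := by
    have : Continuous A := by
      rw [hA]
      have := Complex.continuous_conj
      fun_prop
    have h0 : A 0 = 0 := by simp [hA]
    have h := this.tendsto 0
    rwa [h0] at h
  have hexp : (fun ζ => Complex.exp (A ζ) - (1 + A ζ + A ζ ^ 2 / 2)) =O[𝓝 0]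
      fun ζ => ‖ζ‖ ^ 3 := by
    have h1 := (taylor3 Complex.differentiable_exp 0).comp_tendsto hA0
    have h2 : (fun ζ => ‖A ζ‖ ^ 3) =O[𝓝 0] fun ζ => ‖ζ‖ ^ 3 := by
      have := hAO.norm_left.pow 3
      simpa using this
    refine (h1.congr_left fun ζ => ?_).trans h2
    simp only [Function.comp, zero_add, Complex.exp_zero, Complex.deriv_exp, iteratedDeriv_succ,
      iteratedDeriv_zero]
    simp
    ring
  have hβe : (fun ζ : ℂ => β (z - ζ) - (b0 - ζ * b1 + ζ ^ 2 * b2)) =O[𝓝 0]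
      fun ζ => ‖ζ‖ ^ 3 := by
    have h0 : Tendsto (fun ζ : ℂ => -ζ) (𝓝 0) (𝓝 0) := by
      have := (continuous_neg (G := ℂ)).tendsto 0
      simpa using this
    have h1 := (taylor3 hβ z).comp_tendsto h0
    refine (h1.congr_left fun ζ => ?_).congr_right fun ζ => ?_
    · simp only [Function.comp]
      rw [← sub_eq_add_neg]
      ring
    · simp [Function.comp]
  have hb1 : (fun ζ : ℂ => β (z - ζ)) =O[𝓝 0] fun _ => (1 : ℝ) := by
    have h1 : ContinuousAt (fun ζ : ℂ => β (z - ζ)) 0 := by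
      have := hβ.continuous
      fun_prop
    exact h1.isBigO_one ℝ
  have hb2 : (fun ζ : ℂ => 1 + A ζ + A ζ ^ 2 / 2) =O[𝓝 0] fun _ => (1 : ℝ) := by
    have h1 : ContinuousAt (fun ζ : ℂ => 1 + A ζ + A ζ ^ 2 / 2) 0 := by
      have : Continuous A := by
        rw [hA]
        have := Complex.continuous_conj
        fun_prop
      fun_prop
    exact h1.isBigO_one ℝ
  have t1 := (hexp.mul hb1).congr_right (g₂ := fun ζ => ‖ζ‖ ^ 3) (fun ζ => by ring)
  have t2 := (hb2.mul hβe).congr_right (g₂ := fun ζ => ‖ζ‖ ^ 3) (fun ζ => by ring)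
  have p : (Real.pi : ℂ) = Real.pi := rfl
  have t3 := ((((((mono_O 1 2 (by norm_num)).const_mul_left
      (-((Real.pi : ℂ) ^ 2 * z / 2) * b0 - (Real.pi : ℂ) ^ 2 * z ^ 2 / 2 * b1)).add
    ((mono_O 2 2 (by norm_num)).const_mul_left
      ((Real.pi : ℂ) ^ 2 / 8 * b0 + (Real.pi : ℂ) ^ 2 * z / 2 * b1 +
        (Real.pi : ℂ) ^ 2 * z ^ 2 / 2 * b2))).add
    ((mono_O 2 1 (by norm_num)).const_mul_left
      ((Real.pi : ℂ) / 2 * b1 + Real.pi * z * b2))).add
    ((mono_O 3 2 (by norm_num)).const_mul_left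
      (-((Real.pi : ℂ) ^ 2 / 8) * b1 - (Real.pi : ℂ) ^ 2 * z / 2 * b2))).add
    ((mono_O 3 1 (by norm_num)).const_mul_left (-((Real.pi : ℂ) / 2) * b2))).add
    ((mono_O 4 2 (by norm_num)).const_mul_left ((Real.pi : ℂ) ^ 2 / 8 * b2))
  refine ((t1.add t2).add t3).congr_left fun ζ => ?_
  unfold PP QQ
  rw [hA]
  ring

/-! ### Integrals over discs -/

theorem DD_open (R : ℝ) : IsOpen (DD R) := by
  unfold DD
  exact isOpen_lt (by fun_prop) (by fun_prop)

theorem DD_meas (R : ℝ) : MeasurableSet (DD R) := (DD_open R).measurableSet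

theorem intOn {F : ℝ × ℝ → ℂ} (hF : Continuous F) (R : ℝ) : IntegrableOn F (DD R) volume := by
  have h1 : DD R ⊆ Set.Icc (-|R|, -|R|) (|R|, |R|) := by
    intro w hw
    have hw' : w.1 ^ 2 + w.2 ^ 2 < R ^ 2 := hw
    have a1 : |w.1| ≤ |R| := by
      rw [← Real.sqrt_sq_eq_abs, ← Real.sqrt_sq_eq_abs]
      exact Real.sqrt_le_sqrt (by nlinarith [sq_nonneg w.2])
    have a2 : |w.2| ≤ |R| := by
      rw [← Real.sqrt_sq_eq_abs, ← Real.sqrt_sq_eq_abs]
      exact Real.sqrt_le_sqrt (by nlinarith [sq_nonneg w.1])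
    rw [abs_le] at a1 a2
    exact ⟨⟨a1.1, a2.1⟩, ⟨a1.2, a2.2⟩⟩
  exact (hF.continuousOn.integrableOn_compact isCompact_Icc).mono_set h1

theorem int_neg (F : ℝ × ℝ → ℂ) (R : ℝ) :
    ∫ w in DD R, F (-w) = ∫ w in DD R, F w := by
  have h := (Measure.measurePreserving_neg (volume : Measure (ℝ × ℝ))).setIntegral_preimage_emb
    (Homeomorph.neg (ℝ × ℝ)).measurableEmbedding F (DD R)
  rw [← h]
  congr 2
  ext w
  simp [DD]

theorem int_rot (F : ℝ × ℝ → ℂ) (R : ℝ) :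
    ∫ w in DD R, F (-w.2, w.1) = ∫ w in DD R, F w := by
  have h0 : MeasurePreserving (fun w : ℝ × ℝ => (-w.2, w.1)) volume volume := by
    have h1 : MeasurePreserving (Prod.swap : ℝ × ℝ → ℝ × ℝ) volume volume :=
      Measure.measurePreserving_swap
    have h2 : MeasurePreserving (Prod.map (Neg.neg : ℝ → ℝ) (id : ℝ → ℝ)) volume volume :=
      (Measure.measurePreserving_neg (volume : Measure ℝ)).prod (MeasurePreserving.id volume)
    exact h2.comp h1
  have h3 : MeasurableEmbedding (fun w : ℝ × ℝ => (-w.2, w.1)) :=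
    (((Homeomorph.prodComm ℝ ℝ).trans
      ((Homeomorph.neg ℝ).prodCongr (Homeomorph.refl ℝ)))).measurableEmbedding
  have h := h0.setIntegral_preimage_emb h3 F (DD R)
  rw [← h]
  congr 2
  ext w
  simp [DD, add_comm]

theorem ze_cont : Continuous ze := by unfold ze; fun_prop

theorem int_ze_sq (R : ℝ) : ∫ w in DD R, ze w ^ 2 = 0 := by
  have h := int_rot (fun w => ze w ^ 2) R
  have h1 : ∀ w : ℝ × ℝ, ze (-w.2, w.1) ^ 2 = -(ze w ^ 2) := by
    intro w
    have : ze (-w.2, w.1) = Complex.I * ze w := by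
      unfold ze
      push_cast
      ring_nf
      rw [Complex.I_sq]
      ring
    rw [this, mul_pow, Complex.I_sq]
    ring
  simp only [h1] at h
  rw [integral_neg] at h
  have h2 : (2 : ℂ) * ∫ w in DD R, ze w ^ 2 = 0 := by linear_combination -h
  simpa using h2

theorem int_conj_ze_sq (R : ℝ) : ∫ w in DD R, (conj (ze w)) ^ 2 = 0 := by
  have h := int_ze_sq R
  have h2 := congrArg conj h
  rw [← integral_conj] at h2
  simpa using h2

theorem norm_ze_sq (w : ℝ × ℝ) : ‖ze w‖ ^ 2 = w.1 ^ 2 + w.2 ^ 2 := by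
  rw [← Complex.normSq_eq_norm_sq]
  unfold ze
  rw [Complex.normSq_apply]
  simp
  ring

/-- `∫ |ζ|²` over the disc. -/
noncomputable def TT (R : ℝ) : ℝ := ∫ w in DD R, ‖ze w‖ ^ 2

theorem TT_int (R : ℝ) : IntegrableOn (fun w => ‖ze w‖ ^ 2) (DD R) volume := by
  have h := (intOn (F := fun w => ((‖ze w‖ ^ 2 : ℝ) : ℂ)) (by
    have := ze_cont
    fun_prop) R).norm
  refine h.congr ?_
  filter_upwards with w
  rw [Complex.norm_real, Real.norm_of_nonneg (by positivity)]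

theorem TT_pos {R : ℝ} (hR : 0 < R) : 0 < TT R := by
  unfold TT
  rw [setIntegral_pos_iff_support_of_nonneg_ae
    (Eventually.of_forall fun w => by positivity) (TT_int R)]
  have h1 : IsOpen (DD R ∩ {w : ℝ × ℝ | w ≠ 0}) := (DD_open R).inter isOpen_ne
  have h2 : DD R ∩ {w : ℝ × ℝ | w ≠ 0} ⊆ (Function.support fun w => ‖ze w‖ ^ 2) ∩ DD R := by
    intro w hw
    refine ⟨?_, hw.1⟩
    rw [Function.mem_support, norm_ze_sq]
    intro h
    apply hw.2
    have a1 : w.1 = 0 := by nlinarith [sq_nonneg w.1, sq_nonneg w.2]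
    have a2 : w.2 = 0 := by nlinarith [sq_nonneg w.1, sq_nonneg w.2]
    exact Prod.ext a1 a2
  refine lt_of_lt_of_le (h1.measure_pos volume ⟨(R / 2, 0), ?_, ?_⟩) (measure_mono h2)
  · show (R / 2) ^ 2 + (0 : ℝ) ^ 2 < R ^ 2
    nlinarith
  · intro h
    have := congrArg Prod.fst h
    simp at this
    linarith

end Pool.Agent.X116.Lr
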