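import Mathlib
import Pool.Agent.X116.LrC

set_option autoImplicit false

namespace Pool.Agent.X116.Lr

open MeasureTheory Filter Topology Asymptotics
open scoped ComplexConjugate

theorem ev_DD {P : ℝ × ℝ → Prop} (h : ∀ᶠ w in 𝓝 (0 : ℝ × ℝ), P w) :
    ∀ᶠ R in 𝓝[>] (0 : ℝ), ∀ w ∈ DD R, P w := by
  rw [Metric.eventually_nhds_iff] at h
  obtain ⟨δ, hδ, h⟩ := h
  filter_upwards [Ioo_mem_nhdsGT hδ] with R hR w hw
  apply h
  have hw' : w.1 ^ 2 + w.2 ^ 2 < R ^ 2 := hw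
  rw [dist_zero_right, Prod.norm_def, max_lt_iff, Real.norm_eq_abs, Real.norm_eq_abs]
  have a1 : |w.1| < R := by
    rw [← Real.sqrt_sq_eq_abs]
    rw [Real.sqrt_lt' hR.1]
    nlinarith [sq_nonneg w.2]
  have a2 : |w.2| < R := by
    rw [← Real.sqrt_sq_eq_abs]
    rw [Real.sqrt_lt' hR.1]
    nlinarith [sq_nonneg w.1]
  exact ⟨a1.trans hR.2, a2.trans hR.2⟩

/-- The linear relation. -/
noncomputable def rel (k0 : ℝ) (b0 b1 z : ℂ) (u m : ℂ) (s : ℝ) : ℂ :=
  u * b0 - Real.pi * conj m * z * b0 - m * b1 - (Real.pi / 2) * k0 * s * (b0 + 2 * z * b1)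

theorem asym {g : ℝ → ℂ} (hg : MemLp g 2 volume) (C : ℝ → ℂ)
    (hC : ∀ R > 0, ∀ z, C R * be g z = ∫ w in DD R, amb g g w * PP (be g) z (ze w)) (z : ℂ)
    (ε : ℝ) (hε : 0 < ε) :
    ∀ᶠ R in 𝓝[>] (0 : ℝ), ‖rel (∫ t, ‖g t‖ ^ 2) (be g z) (deriv (be g) z) z
      ((∫ w in DD R, amb g g w) - C R) (∫ w in DD R, amb g g w * ze w) (TT R)‖ ≤ ε * TT R := by
  set k := amb g g with hk
  set k0 : ℝ := ∫ t, ‖g t‖ ^ 2 with hk0
  have hkc : Continuous k := amb_continuous hg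
  have hk00 : 0 ≤ k0 := integral_nonneg fun t => by positivity
  have hkb : ∀ w, ‖k w‖ ≤ k0 := by
    intro w
    refine (amb_le hg hg w).trans_eq ?_
    exact Real.mul_self_sqrt hk00
  have hβ := be_differentiable hg
  set b0 := be g z with hb0
  set b1 := deriv (be g) z with hb1
  set b2 := iteratedDeriv 2 (be g) z / 2 with hb2
  set Cst : ℝ := k0 + (‖(Real.pi : ℂ) / 2 * (b0 + 2 * z * b1)‖ +
    ‖(Real.pi : ℂ) ^ 2 * z ^ 2 / 2 * b0‖ + ‖b2‖) with hCst
  have hCst0 : 0 ≤ Cst := by positivity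
  set ε' : ℝ := ε / (Cst + 1) with hε'
  have hε'0 : 0 < ε' := by positivity
  have hεC : ε' * Cst ≤ ε := by
    rw [hε', div_mul_eq_mul_div, div_le_iff₀ (by positivity)]
    nlinarith
  have hze0 : Tendsto ze (𝓝 0) (𝓝 0) := by
    have h := ze_cont.tendsto 0
    have : ze 0 = 0 := by simp [ze]
    rwa [this] at h
  have e1 : ∀ᶠ w in 𝓝 (0 : ℝ × ℝ), ‖k w - k0‖ ≤ ε' := by
    have h1 : Tendsto k (𝓝 0) (𝓝 (k0 : ℂ)) := by
      have h := hkc.tendsto 0
      rwa [hk, amb_zero] at h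
    have h2 := (Metric.tendsto_nhds.1 h1) ε' hε'0
    filter_upwards [h2] with w hw
    rw [dist_eq_norm] at hw
    exact hw.le
  have e2 : ∀ᶠ w in 𝓝 (0 : ℝ × ℝ), ‖PP (be g) z (ze w) - QQ b0 b1 b2 z (ze w)‖ ≤
      ε' * ‖ze w‖ ^ 2 := by
    obtain ⟨K, hK0, hK⟩ := (PP_expand hβ z).exists_pos
    rw [isBigOWith_iff] at hK
    have h1 : ∀ᶠ ζ in 𝓝 (0 : ℂ), ‖ζ‖ < ε' / K := by
      have : Tendsto (fun ζ : ℂ => ‖ζ‖) (𝓝 0) (𝓝 0) := by
        have := (continuous_norm (E := ℂ)).tendsto 0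
        simpa using this
      exact this.eventually (gt_mem_nhds (by positivity))
    filter_upwards [hze0.eventually hK, hze0.eventually h1] with w hw1 hw2
    refine hw1.trans ?_
    rw [norm_pow, norm_norm, pow_succ]
    have h3 : K * ‖ze w‖ ≤ ε' := by
      rw [lt_div_iff₀ hK0] at hw2
      linarith
    nlinarith [sq_nonneg ‖ze w‖]
  filter_upwards [ev_DD e1, ev_DD e2, self_mem_nhdsWithin] with R h1 h2 hR
  have hR' : 0 < R := hR
  -- continuity facts
  have cze := ze_cont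
  have ccj : Continuous fun w => conj (ze w) := Complex.continuous_conj.comp cze
  have cPP : Continuous fun w => PP (be g) z (ze w) := by
    unfold PP
    have := hβ.continuous
    fun_prop
  have I0 := intOn hkc R
  have I1 := intOn (hkc.mul cze) R
  have I2 := intOn (hkc.mul ccj) R
  have I3 := intOn (hkc.mul cPP) R
  have I4 := intOn (F := fun w => ((‖ze w‖ ^ 2 : ℝ) : ℂ)) (by fun_prop) R
  have I5 := intOn (ccj.pow 2) R
  have I6 := intOn (cze.pow 2) R
  have hM1 : (∫ w in DD R, k w * conj (ze w)) = -conj (∫ w in DD R, k w * ze w) := by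
    have h := int_neg (fun w => k w * conj (ze w)) R
    rw [← h, ← integral_conj, ← integral_neg]
    congr 1
    ext w
    rw [hk, amb_neg, map_mul]
    have : ze (-w) = -ze w := by unfold ze; simp; ring
    rw [this, map_neg]
    ring
  have hT : (∫ w in DD R, ((‖ze w‖ ^ 2 : ℝ) : ℂ)) = (TT R : ℂ) := by
    unfold TT
    rw [integral_complex_ofReal]
  have hE : rel k0 b0 b1 z ((∫ w in DD R, k w) - C R) (∫ w in DD R, k w * ze w) (TT R) =
      ∫ w in DD R, (((((((b0 * k w + Real.pi * z * b0 * (k w * conj (ze w))) -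
        b1 * (k w * ze w)) - k w * PP (be g) z (ze w)) -
        (Real.pi / 2) * k0 * (b0 + 2 * z * b1) * ((‖ze w‖ ^ 2 : ℝ) : ℂ)) +
        k0 * ((Real.pi : ℂ) ^ 2 * z ^ 2 / 2 * b0) * (conj (ze w)) ^ 2)) +
        k0 * b2 * (ze w) ^ 2) := by
    rw [integral_add, integral_add, integral_sub, integral_sub, integral_sub, integral_add,
      integral_const_mul, integral_const_mul, integral_const_mul, integral_const_mul,
      integral_const_mul, integral_const_mul, int_ze_sq, int_conj_ze_sq, hM1, hT, ← hC R hR' z]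
    · unfold rel
      ring
    · exact I0.const_mul _
    · exact I2.const_mul _
    · exact (I0.const_mul _).add (I2.const_mul _)
    · exact I1.const_mul _
    · exact ((I0.const_mul _).add (I2.const_mul _)).sub (I1.const_mul _)
    · exact I3
    · exact (((I0.const_mul _).add (I2.const_mul _)).sub (I1.const_mul _)).sub I3
    · exact I4.const_mul _
    · exact ((((I0.const_mul _).add (I2.const_mul _)).sub (I1.const_mul _)).sub I3).sub
        (I4.const_mul _)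
    · exact I5.const_mul _
    · exact (((((I0.const_mul _).add (I2.const_mul _)).sub (I1.const_mul _)).sub I3).sub
        (I4.const_mul _)).add (I5.const_mul _)
    · exact I6.const_mul _
  rw [hE]
  have hfin : ∫ w in DD R, ε * ‖ze w‖ ^ 2 = ε * TT R := by
    unfold TT
    rw [integral_const_mul]
  rw [← hfin]
  refine norm_integral_le_of_norm_le ((TT_int R).const_mul ε) ?_
  refine ae_restrict_of_forall_mem (DD_meas R) fun w hw => ?_
  have hn : ((‖ze w‖ ^ 2 : ℝ) : ℂ) = ze w * conj (ze w) := by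
    rw [Complex.mul_conj, Complex.normSq_eq_norm_sq]
  have hJ : (((((((b0 * k w + Real.pi * z * b0 * (k w * conj (ze w))) -
        b1 * (k w * ze w)) - k w * PP (be g) z (ze w)) -
        (Real.pi / 2) * k0 * (b0 + 2 * z * b1) * ((‖ze w‖ ^ 2 : ℝ) : ℂ)) +
        k0 * ((Real.pi : ℂ) ^ 2 * z ^ 2 / 2 * b0) * (conj (ze w)) ^ 2)) +
        k0 * b2 * (ze w) ^ 2) =
      -(k w * (PP (be g) z (ze w) - QQ b0 b1 b2 z (ze w))) +
      (k w - k0) * (((Real.pi : ℂ) / 2 * (b0 + 2 * z * b1)) * (ze w * conj (ze w)) -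
        ((Real.pi : ℂ) ^ 2 * z ^ 2 / 2 * b0) * (conj (ze w)) ^ 2 - b2 * (ze w) ^ 2) := by
    rw [hn]
    unfold QQ
    ring
  rw [hJ]
  set X : ℝ := ‖ze w‖ ^ 2 with hX
  have hX0 : 0 ≤ X := by positivity
  have n1 : ‖-(k w * (PP (be g) z (ze w) - QQ b0 b1 b2 z (ze w)))‖ ≤ k0 * (ε' * X) := by
    rw [norm_neg, norm_mul]
    exact mul_le_mul (hkb w) (h2 w hw) (norm_nonneg _) hk00
  have n2 : ‖((Real.pi : ℂ) / 2 * (b0 + 2 * z * b1)) * (ze w * conj (ze w)) -
        ((Real.pi : ℂ) ^ 2 * z ^ 2 / 2 * b0) * (conj (ze w)) ^ 2 - b2 * (ze w) ^ 2‖ ≤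
      (‖(Real.pi : ℂ) / 2 * (b0 + 2 * z * b1)‖ +
    ‖(Real.pi : ℂ) ^ 2 * z ^ 2 / 2 * b0‖ + ‖b2‖) * X := by
    refine (norm_sub_le _ _).trans ?_
    have n3 := norm_sub_le (((Real.pi : ℂ) / 2 * (b0 + 2 * z * b1)) * (ze w * conj (ze w)))
      (((Real.pi : ℂ) ^ 2 * z ^ 2 / 2 * b0) * (conj (ze w)) ^ 2)
    have n4 : ‖((Real.pi : ℂ) / 2 * (b0 + 2 * z * b1)) * (ze w * conj (ze w))‖ =
        ‖(Real.pi : ℂ) / 2 * (b0 + 2 * z * b1)‖ * X := by
      rw [norm_mul _ (ze w * conj (ze w)), norm_mul (ze w), RCLike.norm_conj, hX]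
      ring
    have n5 : ‖((Real.pi : ℂ) ^ 2 * z ^ 2 / 2 * b0) * (conj (ze w)) ^ 2‖ =
        ‖(Real.pi : ℂ) ^ 2 * z ^ 2 / 2 * b0‖ * X := by
      rw [norm_mul _ ((conj (ze w)) ^ 2), norm_pow (conj (ze w)), RCLike.norm_conj, hX]
    have n6 : ‖b2 * (ze w) ^ 2‖ = ‖b2‖ * X := by
      rw [norm_mul, norm_pow, hX]
    rw [n4, n5] at n3
    rw [n6]
    nlinarith
  refine (norm_add_le _ _).trans ?_
  rw [norm_mul (k w - k0)]
  have n7 := mul_le_mul (h1 w hw) n2 (norm_nonneg _) hε'0.le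
  calc _ ≤ k0 * (ε' * X) + ε' * ((‖(Real.pi : ℂ) / 2 * (b0 + 2 * z * b1)‖ +
    ‖(Real.pi : ℂ) ^ 2 * z ^ 2 / 2 * b0‖ + ‖b2‖) * X) := add_le_add n1 n7
    _ = (ε' * Cst) * X := by rw [hCst]; ring
    _ ≤ ε * X := mul_le_mul_of_nonneg_right hεC hX0

theorem limit_rel {g : ℝ → ℂ} (hg : MemLp g 2 volume) (hL : LocalRepro g) :
    ∃ (u m : ℂ) (s : ℝ), 0 ≤ s ∧ ‖u‖ + ‖m‖ + s = 1 ∧
      ∀ z, rel (∫ t, ‖g t‖ ^ 2) (be g z) (deriv (be g) z) z u m s = 0 := by
  have h0 : ∀ R : ℝ, ∃ C : ℂ, 0 < R →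
      ∀ z, C * be g z = ∫ w in DD R, amb g g w * PP (be g) z (ze w) := by
    intro R
    by_cases hR : 0 < R
    · obtain ⟨C, hC⟩ := core hL R hR
      exact ⟨C, fun _ => hC⟩
    · exact ⟨0, fun h => absurd h hR⟩
  choose C hC using h0
  have has := asym hg C (fun R hR => hC R hR)
  set k0 : ℝ := ∫ t, ‖g t‖ ^ 2 with hk0
  set a : ℕ → ℂ := fun n => (∫ w in DD (1 / ((n : ℝ) + 1)), amb g g w) - C (1 / ((n : ℝ) + 1))
    with ha
  set b : ℕ → ℂ := fun n => ∫ w in DD (1 / ((n : ℝ) + 1)), amb g g w * ze w with hb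
  set T : ℕ → ℝ := fun n => TT (1 / ((n : ℝ) + 1)) with hT
  have hRn : ∀ n : ℕ, (0 : ℝ) < 1 / ((n : ℝ) + 1) := fun n => by positivity
  have hTpos : ∀ n, 0 < T n := fun n => TT_pos (hRn n)
  set N : ℕ → ℝ := fun n => ‖a n‖ + ‖b n‖ + T n with hN
  have hNpos : ∀ n, 0 < N n := fun n => by
    have := hTpos n
    have h1 := norm_nonneg (a n)
    have h2 := norm_nonneg (b n)
    show 0 < ‖a n‖ + ‖b n‖ + T n
    linarith
  have hTN : ∀ n, T n / N n ≤ 1 := fun n => by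
    rw [div_le_one (hNpos n)]
    have h1 := norm_nonneg (a n)
    have h2 := norm_nonneg (b n)
    show T n ≤ ‖a n‖ + ‖b n‖ + T n
    linarith
  set v : ℕ → ℂ × ℂ × ℝ := fun n => (a n / N n, b n / N n, T n / N n) with hv
  have hsum : ∀ n, ‖(v n).1‖ + ‖(v n).2.1‖ + (v n).2.2 = 1 := by
    intro n
    have hNn := hNpos n
    show ‖a n / N n‖ + ‖b n / N n‖ + T n / N n = 1
    rw [norm_div, norm_div, Complex.norm_real, Real.norm_of_nonneg hNn.le, ← add_div, ← add_div]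
    exact div_self hNn.ne'
  have hTn0 : ∀ n, 0 ≤ (v n).2.2 := fun n => div_nonneg (hTpos n).le (hNpos n).le
  have hvb : ∀ n, v n ∈ Metric.closedBall (0 : ℂ × ℂ × ℝ) 1 := by
    intro n
    rw [Metric.mem_closedBall, dist_zero_right, Prod.norm_def, Prod.norm_def, max_le_iff,
      max_le_iff]
    have h1 := hsum n
    have h2 := hTn0 n
    have h3 := norm_nonneg (v n).1
    have h4 := norm_nonneg (v n).2.1
    refine ⟨by linarith, by linarith, ?_⟩
    rw [Real.norm_of_nonneg h2]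
    linarith
  obtain ⟨l, -, φ, hφ, hl⟩ := (isCompact_closedBall (0 : ℂ × ℂ × ℝ) 1).tendsto_subseq hvb
  have l1 : Tendsto (fun n => (v (φ n)).1) atTop (𝓝 l.1) := (continuous_fst.tendsto l).comp hl
  have l2 : Tendsto (fun n => (v (φ n)).2.1) atTop (𝓝 l.2.1) :=
    ((continuous_fst.comp continuous_snd).tendsto l).comp hl
  have l3 : Tendsto (fun n => (v (φ n)).2.2) atTop (𝓝 l.2.2) :=
    ((continuous_snd.comp continuous_snd).tendsto l).comp hl
  refine ⟨l.1, l.2.1, l.2.2, ge_of_tendsto' l3 fun n => hTn0 _, ?_, ?_⟩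
  · have h1 := (l1.norm.add l2.norm).add l3
    refine tendsto_nhds_unique h1 ?_
    refine tendsto_const_nhds.congr fun n => ?_
    exact (hsum (φ n)).symm
  · intro z
    have hlim : Tendsto (fun n => rel k0 (be g z) (deriv (be g) z) z (v (φ n)).1 (v (φ n)).2.1
        (v (φ n)).2.2) atTop (𝓝 (rel k0 (be g z) (deriv (be g) z) z l.1 l.2.1 l.2.2)) := by
      have hc : Continuous fun p : ℂ × ℂ × ℝ =>
          rel k0 (be g z) (deriv (be g) z) z p.1 p.2.1 p.2.2 := by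
        unfold rel
        have := Complex.continuous_conj
        fun_prop
      exact (hc.tendsto l).comp hl
    have hle : ∀ ε > 0, ‖rel k0 (be g z) (deriv (be g) z) z l.1 l.2.1 l.2.2‖ ≤ ε := by
      intro ε hε
      refine le_of_tendsto hlim.norm ?_
      have hR0 : Tendsto (fun n : ℕ => 1 / ((n : ℝ) + 1)) atTop (𝓝[>] 0) := by
        rw [tendsto_nhdsWithin_iff]
        exact ⟨tendsto_one_div_add_atTop_nhds_zero_nat, Eventually.of_forall fun n => hRn n⟩
      have h1 := (hR0.comp hφ.tendsto_atTop).eventually (has z ε hε)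
      filter_upwards [h1] with n hn
      have hNn := hNpos (φ n)
      have h2 : rel k0 (be g z) (deriv (be g) z) z (v (φ n)).1 (v (φ n)).2.1 (v (φ n)).2.2 =
          rel k0 (be g z) (deriv (be g) z) z (a (φ n)) (b (φ n)) (T (φ n)) / N (φ n) := by
        show rel k0 (be g z) (deriv (be g) z) z (a (φ n) / N (φ n)) (b (φ n) / N (φ n))
          (T (φ n) / N (φ n)) = _
        unfold rel
        rw [map_div₀, Complex.conj_ofReal]
        push_cast
        have : (N (φ n) : ℂ) ≠ 0 := by exact_mod_cast hNn.ne'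
        field_simp
      rw [h2, norm_div, Complex.norm_real, Real.norm_of_nonneg hNn.le, div_le_iff₀ hNn]
      refine le_trans hn ?_
      have h3 : T (φ n) ≤ N (φ n) := by
        have := hTN (φ n)
        rwa [div_le_one hNn] at this
      exact mul_le_mul_of_nonneg_left h3 hε.le
    have h0 : ‖rel k0 (be g z) (deriv (be g) z) z l.1 l.2.1 l.2.2‖ ≤ 0 :=
      le_of_forall_pos_le_add (by simpa using hle)
    exact norm_le_zero_iff.1 h0

end Pool.Agent.X116.Lr
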