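import Mathlib
import Pool.Agent.X116.LrD

set_option autoImplicit false

namespace Pool.Agent.X116.Lr

open MeasureTheory Filter Topology Asymptotics
open scoped ComplexConjugate

open scoped FourierTransform SchwartzMap ContDiff RealInnerProductSpace in
theorem fourier_injective {k : ℝ → ℂ} (hk : Integrable k)
    (h : ∀ t : ℝ, ∫ x, k x * Complex.exp ((t:ℂ) * (x:ℂ) * Complex.I) = 0) :
    k =ᵐ[volume] 0 := by
  have hF : ∀ ξ : ℝ,
      VectorFourier.fourierIntegral Real.fourierChar volume (innerₗ ℝ) k ξ = 0 := by
    intro ξ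
    rw [← h (-2 * Real.pi * ξ)]
    unfold VectorFourier.fourierIntegral
    congr 1
    ext x
    rw [Circle.smul_def, Real.fourierChar_apply, smul_eq_mul, mul_comm]
    congr 2
    have : (innerₗ ℝ) x ξ = x * ξ := by
      rw [innerₗ_apply_apply]
      simp [mul_comm]
    rw [this]
    push_cast
    ring
  refine ae_eq_zero_of_integral_contDiff_smul_eq_zero hk.locallyIntegrable ?_
  intro g hg hgc
  have hg₁ : HasCompactSupport (Complex.ofRealCLM ∘ g) := hgc.comp_left rfl
  have hg₂ : ContDiff ℝ ∞ (Complex.ofRealCLM ∘ g) := by fun_prop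
  let G : 𝓢(ℝ, ℂ) := hg₁.toSchwartzMap hg₂
  have h1 := VectorFourier.integral_fourierIntegral_smul_eq_flip (L := innerₗ ℝ) (f := k)
    (g := ((𝓕⁻ G : 𝓢(ℝ, ℂ)) : ℝ → ℂ)) Real.continuous_fourierChar continuous_inner hk
    ((𝓕⁻ G : 𝓢(ℝ, ℂ)).integrable (μ := volume))
  simp only [hF, zero_smul, integral_zero] at h1
  have h2 : ∀ x, VectorFourier.fourierIntegral Real.fourierChar volume (innerₗ ℝ).flip
      ((𝓕⁻ G : 𝓢(ℝ, ℂ)) : ℝ → ℂ) x = (g x : ℂ) := by
    intro x
    have h3 : (𝓕 (𝓕⁻ G) : 𝓢(ℝ, ℂ)) = G := FourierTransform.fourier_fourierInv_eq G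
    have h4 : (𝓕 (𝓕⁻ G) : 𝓢(ℝ, ℂ)) x = (g x : ℂ) := by rw [h3]; rfl
    rw [← h4, flip_innerₗ]
    rfl
  simp only [h2] at h1
  rw [h1]
  congr 1
  ext x
  show (g x : ℝ) • k x = k x • (g x : ℂ)
  rw [Complex.real_smul, smul_eq_mul, mul_comm]

/-- the value of the Bargmann transform on the imaginary axis -/
theorem Bt_imag (g : ℝ → ℂ) (τ : ℝ) :
    Bt g (Complex.I * τ / (2 * Real.pi)) =
      ∫ x : ℝ, (((Real.exp (-Real.pi * x ^ 2) : ℝ) : ℂ) * conj (g x)) *
        Complex.exp ((τ : ℂ) * x * Complex.I) := by
  unfold Bt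
  congr 1
  ext x
  unfold phi
  have : Complex.exp (-(Real.pi : ℂ) * x ^ 2 + 2 * Real.pi * (Complex.I * τ / (2 * Real.pi)) * x) =
      ((Real.exp (-Real.pi * x ^ 2) : ℝ) : ℂ) * Complex.exp ((τ : ℂ) * x * Complex.I) := by
    rw [Complex.ofReal_exp, ← Complex.exp_add]
    congr 1
    have hp : (Real.pi : ℂ) ≠ 0 := by exact_mod_cast Real.pi_pos.ne'
    push_cast
    field_simp
  rw [this]
  ring

theorem gauss1_memLp : MemLp (fun t : ℝ => ((Real.exp (-Real.pi * t ^ 2) : ℝ) : ℂ)) 2 volume := by
  have h := phi_memLp 0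
  refine (memLp_congr_ae ?_).1 h
  filter_upwards with t
  unfold phi
  push_cast
  ring_nf

theorem int_gk {g : ℝ → ℂ} (hg : MemLp g 2 volume) :
    Integrable (fun x : ℝ => ((Real.exp (-Real.pi * x ^ 2) : ℝ) : ℂ) * conj (g x)) volume :=
  int_mul gauss1_memLp hg

theorem Bt_zero {g : ℝ → ℂ} (hg : MemLp g 2 volume) (h : ∀ z, be g z = 0) :
    g =ᵐ[volume] 0 := by
  have h1 := fourier_injective (int_gk hg) (fun τ => by
    rw [← Bt_imag, Bt_eq, h, mul_zero])
  filter_upwards [h1] with x hx
  simp only [Pi.zero_apply] at hx ⊢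
  have h2 : ((Real.exp (-Real.pi * x ^ 2) : ℝ) : ℂ) ≠ 0 := by
    exact_mod_cast (Real.exp_pos _).ne'
  rcases mul_eq_zero.1 hx with h3 | h3
  · exact absurd h3 h2
  · simpa using h3

/-! ### Decay of the Bargmann transform along rays -/

theorem be_norm (g : ℝ → ℂ) (z : ℂ) :
    ‖be g z‖ * Real.exp (-Real.pi * ‖z‖ ^ 2 / 2) =
      Real.exp (-Real.pi * z.re ^ 2) * ‖Bt g z‖ := by
  unfold be
  rw [norm_mul, Complex.norm_exp, mul_right_comm, ← Real.exp_add]
  congr 2
  have h1 : (-(Real.pi : ℂ) * z ^ 2 / 2).re = -Real.pi * (z.re ^ 2 - z.im ^ 2) / 2 := by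
    have : -(Real.pi : ℂ) * z ^ 2 / 2 = ((-Real.pi / 2 : ℝ) : ℂ) * z ^ 2 := by push_cast; ring
    rw [this, Complex.re_ofReal_mul, sq z, Complex.mul_re]
    ring
  rw [h1, ← Complex.normSq_eq_norm_sq, Complex.normSq_apply]
  ring

theorem decay {g : ℝ → ℂ} (hg : MemLp g 2 volume) (v : ℂ) (hv : ‖v‖ = 1) :
    Tendsto (fun r : ℝ => ‖be g (r * v)‖ * Real.exp (-Real.pi * r ^ 2 / 2)) atTop (𝓝 0) := by
  have e0 : ∀ r : ℝ, ‖be g (r * v)‖ * Real.exp (-Real.pi * r ^ 2 / 2) =
      Real.exp (-Real.pi * (r * v.re) ^ 2) * ‖Bt g (r * v)‖ := by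
    intro r
    have h := be_norm g (r * v)
    rw [norm_mul, hv, mul_one, Complex.norm_real, Real.norm_eq_abs, sq_abs] at h
    rw [h, Complex.re_ofReal_mul]
  simp only [e0]
  by_cases hre : v.re = 0
  · -- Riemann-Lebesgue
    have him : v.im ≠ 0 := by
      intro h
      have : v = 0 := Complex.ext hre h
      rw [this] at hv
      simp at hv
    have hRL := Real.tendsto_integral_exp_smul_cocompact
      (fun x : ℝ => ((Real.exp (-Real.pi * x ^ 2) : ℝ) : ℂ) * conj (g x))
    have ht : Tendsto (fun r : ℝ => -(r * v.im)) atTop (cocompact ℝ) := by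
      rcases lt_or_gt_of_ne him with h | h
      · have : Tendsto (fun r : ℝ => -(r * v.im)) atTop atTop := by
          have := tendsto_id.atTop_mul_const (neg_pos.2 h) (α := ℝ) (l := atTop)
          simpa using this
        exact this.mono_right atTop_le_cocompact
      · have : Tendsto (fun r : ℝ => -(r * v.im)) atTop atBot := by
          have := tendsto_neg_atTop_atBot.comp (tendsto_id.atTop_mul_const h (α := ℝ) (l := atTop))
          exact this
        exact this.mono_right atBot_le_cocompact
    have h1 := (hRL.comp ht).norm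
    rw [norm_zero] at h1
    refine h1.congr fun r => ?_
    rw [hre, mul_zero, zero_pow two_ne_zero, mul_zero, Real.exp_zero, one_mul]
    have e1 : (r * v : ℂ) = Complex.I * ((2 * Real.pi * (r * v.im) : ℝ) : ℂ) / (2 * Real.pi) := by
      have hp : (Real.pi : ℂ) ≠ 0 := by exact_mod_cast Real.pi_pos.ne'
      have : v = Complex.I * (v.im : ℂ) := by
        apply Complex.ext <;> simp [hre]
      rw [this]
      push_cast
      field_simp
      simp
    rw [e1, Bt_imag]
    simp only [Function.comp]
    congr 2
    ext x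
    rw [Circle.smul_def, Real.fourierChar_apply, smul_eq_mul, mul_comm]
    congr 2
    push_cast
    ring
  · -- dominated convergence
    have hbound : ∀ r : ℝ, Real.exp (-Real.pi * (r * v.re) ^ 2) * ‖Bt g (r * v)‖ ≤
        Real.sqrt (∫ t : ℝ, Real.exp (-Real.pi * t ^ 2)) *
          Real.sqrt (∫ t : ℝ, Real.exp (-Real.pi * (t - r * v.re) ^ 2) * ‖g t‖ ^ 2) := by
      intro r
      set p : ℝ := r * v.re with hp
      set q : ℝ := r * v.im with hq
      have hz : (r * v : ℂ) = p + Complex.I * q := by
        apply Complex.ext <;> simp [hp, hq]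
      -- the two functions
      set f1 : ℝ → ℂ := fun t => ((Real.exp (-Real.pi * (t - p) ^ 2 / 2) : ℝ) : ℂ) with hf1
      set h1 : ℝ → ℂ := fun t => f1 t * (Complex.exp (2 * Real.pi * Complex.I * ((-q : ℝ) : ℂ) * t) *
        g t) with hh1
      have mf : MemLp f1 2 volume := by
        have h := memLp_shift gauss_memLp (-p)
        exact h
      have hf1b : ∀ t, ‖f1 t‖ ≤ 1 := by
        intro t
        rw [hf1, Complex.norm_real, Real.norm_of_nonneg (Real.exp_pos _).le]
        apply Real.exp_le_one_iff.2
        have := Real.pi_pos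
        nlinarith [sq_nonneg (t - p), mul_nonneg this.le (sq_nonneg (t - p))]
      have mh : MemLp h1 2 volume := by
        refine MemLp.of_le_mul (c := 1) (memLp_mod hg (-q)) ?_ ?_
        · exact (Continuous.aestronglyMeasurable (by rw [hf1]; fun_prop)).mul (memLp_mod hg (-q)).1
        · filter_upwards with t
          rw [hh1, norm_mul]
          exact mul_le_mul_of_nonneg_right (hf1b t) (norm_nonneg _)
      have hcs := cs mf mh
      have e2 : ∫ t, f1 t * conj (h1 t) =
          ((Real.exp (-Real.pi * p ^ 2) : ℝ) : ℂ) * Bt g (r * v) := by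
        unfold Bt
        rw [← integral_const_mul]
        congr 1
        ext t
        rw [hh1, hf1]
        simp only [map_mul, Complex.conj_ofReal]
        rw [← Complex.exp_conj, ← mul_assoc, ← mul_assoc, ← mul_assoc]
        congr 1
        unfold phi
        rw [hz, Complex.ofReal_exp, Complex.ofReal_exp, ← Complex.exp_add, ← Complex.exp_add,
          ← Complex.exp_add]
        congr 1
        simp only [map_mul, Complex.conj_I, Complex.conj_ofReal, map_ofNat]
        push_cast
        ring
      rw [e2, norm_mul, Complex.norm_real, Real.norm_of_nonneg (Real.exp_pos _).le] at hcs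
      refine hcs.trans_eq ?_
      congr 2
      · have h := integral_sub_right_eq_self (fun t : ℝ => Real.exp (-Real.pi * t ^ 2)) p
          (μ := volume)
        rw [← h]
        congr 1
        ext t
        rw [hf1, Complex.norm_real, Real.norm_of_nonneg (Real.exp_pos _).le, ← Real.exp_nat_mul]
        congr 1
        push_cast
        ring
      · congr 1
        ext t
        rw [hh1]
        simp only []
        rw [norm_mul, norm_mul, mul_pow, mul_pow, hf1, Complex.norm_real,
          Real.norm_of_nonneg (Real.exp_pos _).le, ← Real.exp_nat_mul]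
        have h2 : ‖Complex.exp (2 * Real.pi * Complex.I * ((-q : ℝ) : ℂ) * t)‖ = 1 := by
          rw [Complex.norm_exp]
          simp
        rw [h2, one_pow, one_mul]
        congr 2
        push_cast
        ring
    have hint : Integrable (fun t => ‖g t‖ ^ 2) volume :=
      (memLp_two_iff_integrable_sq_norm hg.1).1 hg
    have hdct : Tendsto (fun r : ℝ =>
        ∫ t : ℝ, Real.exp (-Real.pi * (t - r * v.re) ^ 2) * ‖g t‖ ^ 2) atTop (𝓝 0) := by
      have h := tendsto_integral_filter_of_dominated_convergence (μ := (volume : Measure ℝ))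
        (l := (atTop : Filter ℝ))
        (F := fun (r : ℝ) (t : ℝ) => Real.exp (-Real.pi * (t - r * v.re) ^ 2) * ‖g t‖ ^ 2)
        (f := fun _ => 0) (fun t => ‖g t‖ ^ 2) ?_ ?_ hint ?_
      · simpa using h
      · filter_upwards with r
        exact (Continuous.aestronglyMeasurable (by fun_prop)).mul hint.1
      · filter_upwards with r
        filter_upwards with t
        rw [Real.norm_of_nonneg (by positivity)]
        have : Real.exp (-Real.pi * (t - r * v.re) ^ 2) ≤ 1 := by
          apply Real.exp_le_one_iff.2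
          nlinarith [mul_nonneg Real.pi_pos.le (sq_nonneg (t - r * v.re))]
        nlinarith [sq_nonneg ‖g t‖]
      · filter_upwards with t
        have h1 : Tendsto (fun r : ℝ => (t - r * v.re) ^ 2) atTop atTop := by
          have h2 : Tendsto (fun r : ℝ => |t - r * v.re|) atTop atTop := by
            rcases lt_or_gt_of_ne hre with h | h
            · have h3 : Tendsto (fun r : ℝ => t - r * v.re) atTop atTop := by
                have := tendsto_atTop_add_const_left atTop t
                  (tendsto_id.atTop_mul_const (neg_pos.2 h) (α := ℝ) (l := atTop))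
                refine this.congr fun r => ?_
                simp only [id]; ring
              exact tendsto_abs_atTop_atTop.comp h3
            · have h3 : Tendsto (fun r : ℝ => t - r * v.re) atTop atBot := by
                have := tendsto_atBot_add_const_left atTop t
                  (tendsto_neg_atTop_atBot.comp
                    (tendsto_id.atTop_mul_const h (α := ℝ) (l := atTop)))
                refine this.congr fun r => ?_
                simp only [id, Function.comp]; ring
              exact tendsto_abs_atBot_atTop.comp h3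
          have h4 := (tendsto_pow_atTop (two_ne_zero)).comp h2
          refine h4.congr fun r => ?_
          simp only [Function.comp, sq_abs]
        have h5 : Tendsto (fun r : ℝ => Real.exp (-Real.pi * (t - r * v.re) ^ 2)) atTop (𝓝 0) := by
          have h6 := Real.tendsto_exp_neg_atTop_nhds_zero.comp
            (h1.const_mul_atTop Real.pi_pos)
          refine h6.congr fun r => ?_
          simp only [Function.comp]
          congr 1
          ring
        have := h5.mul_const (‖g t‖ ^ 2)
        simpa using this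
    have hup : Tendsto (fun r : ℝ => Real.sqrt (∫ t : ℝ, Real.exp (-Real.pi * t ^ 2)) *
          Real.sqrt (∫ t : ℝ, Real.exp (-Real.pi * (t - r * v.re) ^ 2) * ‖g t‖ ^ 2))
          atTop (𝓝 0) := by
      have := (hdct.sqrt).const_mul (Real.sqrt (∫ t : ℝ, Real.exp (-Real.pi * t ^ 2)))
      simpa using this
    exact squeeze_zero (fun r => by positivity) hbound hup

end Pool.Agent.X116.Lr
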