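import Mathlib
import Pool.Agent.X116.LrE

set_option autoImplicit false

namespace Pool.Agent.X116.Lr

open MeasureTheory Filter Topology Asymptotics
open scoped ComplexConjugate

/-- `e^{π t²} (d/dt)^n e^{-2π t²}`. -/
noncomputable def hermiteRaw (n : ℕ) (t : ℝ) : ℝ :=
  Real.exp (Real.pi * t ^ 2) * iteratedDeriv n (fun s : ℝ => Real.exp (-2 * Real.pi * s ^ 2)) t

/-- The normalised Hermite function `h_n = c_n e^{π t²} (d/dt)^n e^{-2π t²}`,
`c_n = (∫ (e^{π t²} (d/dt)^n e^{-2π t²})² dt)^{-1/2}`. -/
noncomputable def hermiteFun (n : ℕ) (t : ℝ) : ℂ :=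
  (((Real.sqrt (∫ s, hermiteRaw n s ^ 2))⁻¹ * hermiteRaw n t : ℝ) : ℂ)

/-! ### Gaussian derivatives -/

theorem raw_poly (n : ℕ) : ∃ P : Polynomial ℝ, ∀ x : ℝ,
    iteratedDeriv n (fun s : ℝ => Real.exp (-2 * Real.pi * s ^ 2)) x =
      P.eval x * Real.exp (-2 * Real.pi * x ^ 2) := by
  induction n with
  | zero => exact ⟨1, fun x => by simp⟩
  | succ n ih =>
    obtain ⟨P, hP⟩ := ih
    refine ⟨Polynomial.derivative P + P * (Polynomial.C (-4 * Real.pi) * Polynomial.X),
      fun x => ?_⟩
    rw [iteratedDeriv_succ]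
    have h1 : iteratedDeriv n (fun s : ℝ => Real.exp (-2 * Real.pi * s ^ 2)) =
        fun x => P.eval x * Real.exp (-2 * Real.pi * x ^ 2) := funext hP
    rw [h1]
    have h2 : HasDerivAt (fun x : ℝ => Real.exp (-2 * Real.pi * x ^ 2))
        (Real.exp (-2 * Real.pi * x ^ 2) * (-4 * Real.pi * x)) x := by
      have h3 : HasDerivAt (fun x : ℝ => -2 * Real.pi * x ^ 2) (-4 * Real.pi * x) x := by
        refine ((hasDerivAt_pow 2 x).const_mul (-2 * Real.pi)).congr_deriv ?_
        norm_num
        ring
      exact h3.exp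
    have h4 : HasDerivAt (fun x : ℝ => P.eval x * Real.exp (-2 * Real.pi * x ^ 2))
        (P.derivative.eval x * Real.exp (-2 * Real.pi * x ^ 2) +
          P.eval x * (Real.exp (-2 * Real.pi * x ^ 2) * (-4 * Real.pi * x))) x :=
      (P.hasDerivAt x).mul h2
    rw [h4.deriv]
    simp only [Polynomial.eval_add, Polynomial.eval_mul, Polynomial.eval_C, Polynomial.eval_X]
    ring

theorem poly_int (P : Polynomial ℝ) {b : ℝ} (hb : 0 < b) :
    Integrable (fun x : ℝ => P.eval x * Real.exp (-b * x ^ 2)) volume := by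
  have h : (fun x : ℝ => P.eval x * Real.exp (-b * x ^ 2)) =
      fun x => ∑ i ∈ Finset.range (P.natDegree + 1), P.coeff i *
        (x ^ i * Real.exp (-b * x ^ 2)) := by
    ext x
    rw [Polynomial.eval_eq_sum_range, Finset.sum_mul]
    refine Finset.sum_congr rfl fun i _ => ?_
    ring
  rw [h]
  refine integrable_finsetSum _ fun i _ => Integrable.const_mul ?_ _
  have h1 := integrable_rpow_mul_exp_neg_mul_sq hb (s := (i : ℝ))
    (by have : (0 : ℝ) ≤ i := Nat.cast_nonneg i
        linarith)
  refine h1.congr ?_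
  filter_upwards with x
  rw [Real.rpow_natCast]

theorem raw_hasDerivAt (n : ℕ) (x : ℝ) :
    HasDerivAt (iteratedDeriv n (fun s : ℝ => Real.exp (-2 * Real.pi * s ^ 2)))
      (iteratedDeriv (n + 1) (fun s : ℝ => Real.exp (-2 * Real.pi * s ^ 2)) x) x := by
  rw [iteratedDeriv_succ]
  apply DifferentiableAt.hasDerivAt
  obtain ⟨P, hP⟩ := raw_poly n
  rw [funext hP]
  have := P.differentiable x
  fun_prop

theorem raw_int (n : ℕ) :
    Integrable (iteratedDeriv n (fun s : ℝ => Real.exp (-2 * Real.pi * s ^ 2))) volume := by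
  obtain ⟨P, hP⟩ := raw_poly n
  refine (poly_int P (b := 2 * Real.pi) (by positivity)).congr ?_
  filter_upwards with x
  rw [hP]
  ring_nf

theorem rawc_int (n : ℕ) :
    Integrable (fun x => ((iteratedDeriv n (fun s : ℝ => Real.exp (-2 * Real.pi * s ^ 2)) x : ℝ)
      : ℂ)) volume := (raw_int n).ofReal

theorem rawc_mul_int (n : ℕ) (τ : ℝ) :
    Integrable (fun x : ℝ => Complex.exp ((τ : ℂ) * x * Complex.I) *
      ((iteratedDeriv n (fun s : ℝ => Real.exp (-2 * Real.pi * s ^ 2)) x : ℝ) : ℂ)) volume := by
  refine (rawc_int n).bdd_mul (c := 1) (Continuous.aestronglyMeasurable (by fun_prop)) ?_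
  filter_upwards with x
  rw [Complex.norm_exp]
  simp

theorem raw_fourier (n : ℕ) (τ : ℝ) :
    ∫ x : ℝ, Complex.exp ((τ : ℂ) * x * Complex.I) *
      ((iteratedDeriv n (fun s : ℝ => Real.exp (-2 * Real.pi * s ^ 2)) x : ℝ) : ℂ) =
    (-(Complex.I * τ)) ^ n * ((1 / 2 : ℂ) ^ (1 / 2 : ℂ) *
      Complex.exp (-(τ : ℂ) ^ 2 / (8 * Real.pi))) := by
  induction n with
  | zero =>
    have h := fourierIntegral_gaussian (b := (2 * Real.pi : ℂ)) (by
      have : (2 * (Real.pi : ℂ)) = ((2 * Real.pi : ℝ) : ℂ) := by push_cast; ring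
      rw [this, Complex.ofReal_re]; positivity) (τ : ℂ)
    have e1 : (Real.pi : ℂ) / (2 * Real.pi) = 1 / 2 := by
      have hp : (Real.pi : ℂ) ≠ 0 := by exact_mod_cast Real.pi_pos.ne'
      field_simp
    rw [e1] at h
    rw [pow_zero, one_mul]
    have e2 : -(τ : ℂ) ^ 2 / (8 * Real.pi) = -(τ : ℂ) ^ 2 / (4 * (2 * Real.pi)) := by ring
    rw [e2, ← h]
    congr 1
    ext x
    rw [iteratedDeriv_zero, Complex.ofReal_exp]
    congr 2
    · ring
    · push_cast; ring
  | succ n ih =>
    have h := integral_mul_deriv_eq_deriv_mul_of_integrable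
      (u := fun x : ℝ => Complex.exp ((τ : ℂ) * x * Complex.I))
      (u' := fun x : ℝ => Complex.exp ((τ : ℂ) * x * Complex.I) * (τ * Complex.I))
      (v := fun x : ℝ => ((iteratedDeriv n (fun s : ℝ => Real.exp (-2 * Real.pi * s ^ 2)) x : ℝ)
        : ℂ))
      (v' := fun x : ℝ =>
        ((iteratedDeriv (n + 1) (fun s : ℝ => Real.exp (-2 * Real.pi * s ^ 2)) x : ℝ) : ℂ))
      (fun x _ => by
        have h1 : HasDerivAt (fun x : ℝ => (τ : ℂ) * x * Complex.I) (τ * Complex.I) x := by
          have h2 := ((Complex.ofRealCLM.hasDerivAt (x := x)).const_mul (τ : ℂ)).mul_const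
            Complex.I
          refine h2.congr_deriv ?_
          simp
        exact h1.cexp)
      (fun x _ => (raw_hasDerivAt n x).ofReal_comp)
      (rawc_mul_int (n + 1) τ)
      (by
        have := (rawc_mul_int n τ).const_mul ((τ : ℂ) * Complex.I)
        refine this.congr ?_
        filter_upwards with x
        simp only [Pi.mul_apply]
        ring)
      (rawc_mul_int n τ)
    rw [h]
    have e : (fun x : ℝ => Complex.exp ((τ : ℂ) * x * Complex.I) * (τ * Complex.I) *
        ((iteratedDeriv n (fun s : ℝ => Real.exp (-2 * Real.pi * s ^ 2)) x : ℝ) : ℂ)) =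
        fun x : ℝ => (τ * Complex.I) * (Complex.exp ((τ : ℂ) * x * Complex.I) *
          ((iteratedDeriv n (fun s : ℝ => Real.exp (-2 * Real.pi * s ^ 2)) x : ℝ) : ℂ)) := by
      ext x; ring
    rw [e, integral_const_mul, ih]
    ring

/-! ### The differential equation -/

theorem euler_ode {h : ℂ → ℂ} (hh : Differentiable ℂ h) (z₀ ν : ℂ)
    (hode : ∀ z, (z - z₀) * deriv h z = ν * h z) (hne : ∃ z, h z ≠ 0) :
    ∃ (n : ℕ) (c : ℂ), c ≠ 0 ∧ ∀ z, h z = c * (z - z₀) ^ n := by
  have hit : ∀ k : ℕ, ∀ z, (z - z₀) * iteratedDeriv (k + 1) h z = (ν - k) * iteratedDeriv k h z := by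
    intro k
    induction k with
    | zero =>
      intro z
      rw [iteratedDeriv_one, iteratedDeriv_zero]
      simpa using hode z
    | succ k ih =>
      intro z
      have hd : ∀ j : ℕ, DifferentiableAt ℂ (iteratedDeriv j h) z := fun j =>
        ((hh.contDiff (n := ((j + 1 : ℕ) : WithTop ℕ∞))).differentiable_iteratedDeriv j (by
          exact_mod_cast Nat.lt_succ_self j)) z
      have h1 : (fun z => (z - z₀) * iteratedDeriv (k + 1) h z) =
          fun z => (ν - k) * iteratedDeriv k h z := funext ih
      have h2 := congrArg (fun f => deriv f z) h1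
      have h3 : HasDerivAt (fun z => (z - z₀) * iteratedDeriv (k + 1) h z)
          (1 * iteratedDeriv (k + 1) h z + (z - z₀) * iteratedDeriv (k + 1 + 1) h z) z := by
        have h4 := (hd (k + 1)).hasDerivAt
        rw [← iteratedDeriv_succ] at h4
        exact ((hasDerivAt_id z).sub_const z₀).mul h4
      have h5 : HasDerivAt (fun z => (ν - k) * iteratedDeriv k h z)
          ((ν - k) * iteratedDeriv (k + 1) h z) z := by
        have h4 := (hd k).hasDerivAt
        rw [← iteratedDeriv_succ] at h4
        exact h4.const_mul _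
      rw [h3.deriv, h5.deriv] at h2
      push_cast
      linear_combination h2
  have hz0 : ∀ k : ℕ, (ν - k) * iteratedDeriv k h z₀ = 0 := by
    intro k
    rw [← hit k z₀, sub_self, zero_mul]
  have htay := fun z => Complex.hasSum_taylorSeries_of_entire hh z₀ z
  have hex : ∃ n : ℕ, iteratedDeriv n h z₀ ≠ 0 := by
    by_contra hcon
    push Not at hcon
    obtain ⟨z, hz⟩ := hne
    apply hz
    have h1 := htay z
    simp only [hcon, smul_zero] at h1
    exact h1.unique hasSum_zero
  obtain ⟨n, hn⟩ := hex
  have hν : ν = n := by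
    rcases mul_eq_zero.1 (hz0 n) with h1 | h1
    · exact sub_eq_zero.1 h1
    · exact absurd h1 hn
  refine ⟨n, ((n.factorial : ℂ))⁻¹ * iteratedDeriv n h z₀,
    mul_ne_zero (inv_ne_zero (by exact_mod_cast n.factorial_ne_zero)) hn, fun z => ?_⟩
  have h1 := htay z
  have h2 : HasSum (fun k : ℕ => ((k.factorial : ℂ))⁻¹ • (z - z₀) ^ k • iteratedDeriv k h z₀)
      (((n.factorial : ℂ))⁻¹ • (z - z₀) ^ n • iteratedDeriv n h z₀) := by
    refine hasSum_single n fun k hk => ?_
    have h3 : iteratedDeriv k h z₀ = 0 := by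
      rcases mul_eq_zero.1 (hz0 k) with h4 | h4
      · exfalso
        apply hk
        rw [hν] at h4
        have := sub_eq_zero.1 h4
        exact_mod_cast this.symm
      · exact h4
    rw [h3, smul_zero, smul_zero]
  rw [h1.unique h2, smul_eq_mul, smul_eq_mul]
  ring

/-- The transform of a window with the local reproducing formula. -/
theorem be_form {g : ℝ → ℂ} (hg : MemLp g 2 volume) (hne : ¬ g =ᵐ[volume] 0)
    (hL : LocalRepro g) :
    ∃ (n : ℕ) (c z₀ : ℂ), c ≠ 0 ∧ ∀ z, be g z =
      c * Complex.exp (Real.pi * conj z₀ * z) * (z - z₀) ^ n := by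
  obtain ⟨u, m, s, hs, hsum, hrel⟩ := limit_rel hg hL
  set k0 : ℝ := ∫ t, ‖g t‖ ^ 2 with hk0
  have hβ := be_differentiable hg
  have hbne : ∃ z, be g z ≠ 0 := by
    by_contra hcon
    push Not at hcon
    exact hne (Bt_zero hg hcon)
  have hint : Integrable (fun t => ‖g t‖ ^ 2) volume :=
    (memLp_two_iff_integrable_sq_norm hg.1).1 hg
  have hk0pos : 0 < k0 := by
    rw [hk0, integral_pos_iff_support_of_nonneg (fun t => by positivity) hint]
    rw [pos_iff_ne_zero]
    intro h0
    apply hne
    rw [Filter.EventuallyEq, ae_iff]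
    convert h0 using 2
    ext t
    simp
  have hp : (Real.pi : ℂ) ≠ 0 := by exact_mod_cast Real.pi_pos.ne'
  rcases hs.eq_or_lt with hs0 | hspos
  · -- s = 0
    exfalso
    have hrel' : ∀ z, m * deriv (be g) z = (u - Real.pi * conj m * z) * be g z := by
      intro z
      have h := hrel z
      unfold rel at h
      rw [← hs0] at h
      push_cast at h
      linear_combination -h
    by_cases hm : m = 0
    · have hu : u ≠ 0 := by
        intro hu
        rw [hu, hm, ← hs0] at hsum
        simp at hsum
      obtain ⟨z, hz⟩ := hbne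
      have h := hrel' z
      rw [hm] at h
      simp [hu, hz] at h
    · -- be g z = c exp ((u z - π conj m z²/2)/m)
      set E : ℂ → ℂ := fun z => (u * z - Real.pi * conj m * z ^ 2 / 2) / m with hE
      have hEd : ∀ z, HasDerivAt E ((u - Real.pi * conj m * z) / m) z := by
        intro z
        have h1 : HasDerivAt (fun z : ℂ => u * z - Real.pi * conj m * z ^ 2 / 2)
            (u - Real.pi * conj m * z) z := by
          have h2 := ((hasDerivAt_id z).const_mul u).sub
            (((hasDerivAt_pow 2 z).const_mul (Real.pi * conj m)).div_const 2)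
          refine h2.congr_deriv ?_
          norm_num
          ring
        exact h1.div_const m
      have hconst : ∀ z, be g z * Complex.exp (-E z) = be g 0 * Complex.exp (-E 0) := by
        intro z
        refine is_const_of_deriv_eq_zero (𝕜 := ℂ) (f := fun z => be g z * Complex.exp (-E z))
          ?_ ?_ z 0
        · intro y
          have := hβ y
          have h2 := (hEd y).differentiableAt
          fun_prop
        · intro y
          have h1 : HasDerivAt (fun z => be g z * Complex.exp (-E z))
              (deriv (be g) y * Complex.exp (-E y) +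
                be g y * (Complex.exp (-E y) * -((u - Real.pi * conj m * y) / m))) y :=
            ((hβ y).hasDerivAt).mul (hEd y).neg.cexp
          rw [h1.deriv]
          have h2 : deriv (be g) y = (u - Real.pi * conj m * y) / m * be g y := by
            have := hrel' y
            field_simp
            linear_combination this
          rw [h2]
          ring
      have hE0 : E 0 = 0 := by simp [hE]
      rw [hE0, neg_zero, Complex.exp_zero, mul_one] at hconst
      have hform : ∀ z, be g z = be g 0 * Complex.exp (E z) := by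
        intro z
        rw [← hconst z, mul_assoc, ← Complex.exp_add]
        simp
      have hc0 : be g 0 ≠ 0 := by
        intro h
        obtain ⟨z, hz⟩ := hbne
        apply hz
        rw [hform z, h, zero_mul]
      -- choose direction
      have hmn : (‖m‖ : ℂ) ≠ 0 := by
        exact_mod_cast (norm_pos_iff.2 hm).ne'
      have key : ∀ v : ℂ, ‖v‖ = 1 → v ^ 2 * conj m = -m → 0 ≤ (u * v / m).re → False := by
        intro v hv hv2 hvre
        have hd := decay hg v hv
        have hlow : ∀ r : ℝ, 0 ≤ r → ‖be g 0‖ ≤ ‖be g (r * v)‖ * Real.exp (-Real.pi * r ^ 2 / 2) := by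
          intro r hr
          rw [hform (r * v), norm_mul, mul_assoc, Complex.norm_exp, ← Real.exp_add]
          have h1 : E (r * v) = ((r : ℝ) : ℂ) * (u * v / m) + ((Real.pi * r ^ 2 / 2 : ℝ) : ℂ) := by
            rw [hE]
            push_cast
            field_simp
            linear_combination (-(Real.pi : ℂ) * r ^ 2) * hv2
          rw [h1, Complex.add_re, Complex.ofReal_re, Complex.re_ofReal_mul]
          have h2 : (1 : ℝ) ≤ Real.exp (r * (u * v / m).re + Real.pi * r ^ 2 / 2 +
              -Real.pi * r ^ 2 / 2) := by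
            apply Real.one_le_exp
            have := mul_nonneg hr hvre
            linarith
          nlinarith [norm_nonneg (be g 0)]
        have h3 : ‖be g 0‖ ≤ 0 := by
          refine ge_of_tendsto hd ?_
          filter_upwards [eventually_ge_atTop (0 : ℝ)] with r hr
          exact hlow r hr
        exact hc0 (norm_le_zero_iff.1 h3)
      set v : ℂ := Complex.I * m / ‖m‖ with hv
      have hv1 : ‖v‖ = 1 := by
        rw [hv, norm_div, norm_mul, Complex.norm_I, one_mul, Complex.norm_real, norm_norm]
        exact div_self (norm_pos_iff.2 hm).ne'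
      have hv2 : v ^ 2 * conj m = -m := by
        have h1 : m * conj m = (‖m‖ : ℂ) ^ 2 := by
          rw [Complex.mul_conj, Complex.normSq_eq_norm_sq]
          push_cast
          rfl
        rw [hv, div_pow, mul_pow, Complex.I_sq]
        field_simp
        linear_combination (-1 : ℂ) * h1
      rcases le_total 0 (u * v / m).re with h | h
      · exact key v hv1 hv2 h
      · refine key (-v) (by rw [norm_neg, hv1]) (by rw [neg_sq]; exact hv2) ?_
        rw [mul_neg, neg_div, Complex.neg_re]
        linarith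
  · -- s > 0
    set σ : ℂ := (k0 : ℂ) * s with hσ
    have hσ0 : σ ≠ 0 := by
      rw [hσ]
      exact mul_ne_zero (by exact_mod_cast hk0pos.ne') (by exact_mod_cast hspos.ne')
    have hσc : conj σ = σ := by
      rw [hσ, map_mul, Complex.conj_ofReal, Complex.conj_ofReal]
    set z₀ : ℂ := -m / (Real.pi * σ) with hz₀
    have hz₀c : conj z₀ = -conj m / (Real.pi * σ) := by
      rw [hz₀, map_div₀, map_neg, map_mul, hσc, Complex.conj_ofReal]
    set ν₀ : ℂ := (u - Real.pi / 2 * σ) / (Real.pi * σ) with hν₀
    have hode : ∀ z, (z - z₀) * deriv (be g) z = (ν₀ + Real.pi * conj z₀ * z) * be g z := by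
      intro z
      have h := hrel z
      unfold rel at h
      rw [hz₀c, hz₀, hν₀]
      field_simp
      rw [hσ]
      linear_combination (-2) * h
    set h : ℂ → ℂ := fun z => be g z * Complex.exp (-(Real.pi * conj z₀ * z)) with hh
    have hhd : ∀ z, HasDerivAt h (deriv (be g) z * Complex.exp (-(Real.pi * conj z₀ * z)) +
        be g z * (Complex.exp (-(Real.pi * conj z₀ * z)) * -(Real.pi * conj z₀))) z := by
      intro z
      have h1 : HasDerivAt (fun z : ℂ => -(Real.pi * conj z₀ * z)) (-(Real.pi * conj z₀)) z := by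
        have := ((hasDerivAt_id z).const_mul (Real.pi * conj z₀)).neg
        refine this.congr_deriv ?_
        ring
      exact ((hβ z).hasDerivAt).mul h1.cexp
    obtain ⟨n, c, hc, hn⟩ := euler_ode (h := h) (fun z => (hhd z).differentiableAt) z₀
      (ν₀ + Real.pi * conj z₀ * z₀) (fun z => by
        rw [(hhd z).deriv, hh]
        linear_combination (Complex.exp (-(Real.pi * conj z₀ * z))) * hode z) (by
        obtain ⟨z, hz⟩ := hbne
        exact ⟨z, mul_ne_zero hz (Complex.exp_ne_zero _)⟩)
    refine ⟨n, c, z₀, hc, fun z => ?_⟩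
    have h1 : be g z * Complex.exp (-(Real.pi * conj z₀ * z)) = c * (z - z₀) ^ n := hn z
    have h2 : be g z = (be g z * Complex.exp (-(Real.pi * conj z₀ * z))) *
        Complex.exp (Real.pi * conj z₀ * z) := by
      rw [mul_assoc, ← Complex.exp_add]
      simp
    rw [h2, h1]
    ring

end Pool.Agent.X116.Lr
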