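import Mathlib
import Pool.Agent.X116.LrF

set_option autoImplicit false

namespace Pool.Agent.X116.Lr

open MeasureTheory Filter Topology Asymptotics
open scoped ComplexConjugate

theorem raw_sq_int (n : ℕ) : Integrable (fun t => hermiteRaw n t ^ 2) volume := by
  obtain ⟨P, hP⟩ := raw_poly n
  refine (poly_int (P ^ 2) (b := 2 * Real.pi) (by positivity)).congr ?_
  filter_upwards with x
  unfold hermiteRaw
  rw [hP, Polynomial.eval_pow, mul_pow, mul_pow, ← Real.exp_nat_mul, ← Real.exp_nat_mul]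
  rw [← mul_assoc, mul_comm (Real.exp _) (Polynomial.eval x P ^ 2), mul_assoc, ← Real.exp_add]
  congr 2
  push_cast
  ring

theorem raw_cont (n : ℕ) : Continuous (hermiteRaw n) := by
  obtain ⟨P, hP⟩ := raw_poly n
  have : hermiteRaw n = fun t => Real.exp (Real.pi * t ^ 2) *
      (P.eval t * Real.exp (-2 * Real.pi * t ^ 2)) := by
    ext t
    unfold hermiteRaw
    rw [hP]
  rw [this]
  have := P.continuous
  fun_prop

theorem raw_sq_pos (n : ℕ) : 0 < ∫ t, hermiteRaw n t ^ 2 := by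
  refine lt_of_le_of_ne (integral_nonneg fun t => sq_nonneg _) fun h0 => ?_
  have h1 := (integral_eq_zero_iff_of_nonneg (fun t => sq_nonneg (hermiteRaw n t))
    (raw_sq_int n)).1 h0.symm
  have h2 := raw_fourier n 1
  have h3 : ∫ x : ℝ, Complex.exp (((1 : ℝ) : ℂ) * x * Complex.I) *
      ((iteratedDeriv n (fun s : ℝ => Real.exp (-2 * Real.pi * s ^ 2)) x : ℝ) : ℂ) = 0 := by
    rw [← integral_zero ℝ ℂ (μ := volume)]
    apply integral_congr_ae
    filter_upwards [h1] with x hx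
    have hx' : hermiteRaw n x = 0 := by simpa using hx
    unfold hermiteRaw at hx'
    rcases mul_eq_zero.1 hx' with h | h
    · exact absurd h (Real.exp_pos _).ne'
    · rw [h]; simp
  rw [h3] at h2
  have h4 : (-(Complex.I * ((1 : ℝ) : ℂ))) ^ n * ((1 / 2 : ℂ) ^ (1 / 2 : ℂ) *
      Complex.exp (-(((1 : ℝ) : ℂ)) ^ 2 / (8 * Real.pi))) ≠ 0 := by
    refine mul_ne_zero (pow_ne_zero _ (by simp)) (mul_ne_zero ?_ (Complex.exp_ne_zero _))
    rw [Ne, Complex.cpow_eq_zero_iff]
    norm_num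
  exact h4 h2.symm

theorem hermiteFun_memLp (n : ℕ) : MemLp (hermiteFun n) 2 volume := by
  rw [memLp_two_iff_integrable_sq_norm (by
    apply Continuous.aestronglyMeasurable
    unfold hermiteFun
    have := raw_cont n
    fun_prop)]
  refine ((raw_sq_int n).const_mul (((Real.sqrt (∫ s, hermiteRaw n s ^ 2))⁻¹) ^ 2)).congr ?_
  filter_upwards with t
  unfold hermiteFun
  rw [Complex.norm_real, Real.norm_eq_abs, sq_abs, mul_pow]

theorem hermiteFun_norm (n : ℕ) : ∫ t, ‖hermiteFun n t‖ ^ 2 = 1 := by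
  have h : ∀ t, ‖hermiteFun n t‖ ^ 2 =
      (((Real.sqrt (∫ s, hermiteRaw n s ^ 2))⁻¹) ^ 2) * hermiteRaw n t ^ 2 := by
    intro t
    unfold hermiteFun
    rw [Complex.norm_real, Real.norm_eq_abs, sq_abs, mul_pow]
  simp only [h]
  rw [integral_const_mul, inv_pow, Real.sq_sqrt (raw_sq_pos n).le]
  exact inv_mul_cancel₀ (raw_sq_pos n).ne'

theorem main {g : ℝ → ℂ} (hg : MemLp g 2 volume) (hne : ¬ g =ᵐ[volume] 0)
    (hL : LocalRepro g) :
    ∃ (n : ℕ) (c : ℂ) (a : ℝ × ℝ), c ≠ 0 ∧ g =ᵐ[volume] fun t => c * tf a (hermiteFun n) t := by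
  obtain ⟨n, c, z₀, hc, hform⟩ := be_form hg hne hL
  set x₀ : ℝ := z₀.re with hx₀
  set ξ₀ : ℝ := z₀.im with hξ₀
  have hz₀ : z₀ = x₀ + Complex.I * ξ₀ := by
    apply Complex.ext <;> simp [hx₀, hξ₀]
  have hz₀c : conj z₀ = x₀ - Complex.I * ξ₀ := by
    rw [hz₀]
    simp
    ring
  set G : ℝ → ℂ := tf (-x₀, -ξ₀) g with hG
  have hGm : MemLp G 2 volume := memLp_tf hg _
  set c1 : ℂ := c * Complex.exp (-2 * Real.pi * Complex.I * x₀ * ξ₀ - Real.pi * x₀ ^ 2 +
    Real.pi * z₀ ^ 2 / 2 + Real.pi * conj z₀ * z₀) with hc1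
  have hc1ne : c1 ≠ 0 := mul_ne_zero hc (Complex.exp_ne_zero _)
  have hBG : ∀ z, Bt G z = c1 * Complex.exp (Real.pi * z ^ 2 / 2) * z ^ n := by
    intro z
    have h1 : Bt G z = stft g (phi z) (-x₀, -ξ₀) := rfl
    rw [h1, stft_phi, Bt_eq, hform]
    simp only []
    have e1 : z - ((-x₀ : ℝ) : ℂ) - Complex.I * ((-ξ₀ : ℝ) : ℂ) = z + z₀ := by
      rw [hz₀]; push_cast; ring
    rw [e1, add_sub_cancel_right, hc1]
    have e2 : ∀ A B D E : ℂ, A * (B * (c * D * E)) = c * (A * B * D) * E := by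
      intro A B D E; ring
    rw [e2, ← Complex.exp_add, ← Complex.exp_add]
    rw [mul_assoc c (Complex.exp _) (Complex.exp _), ← Complex.exp_add]
    congr 3
    rw [hz₀c, hz₀]
    push_cast
    ring
  set c2 : ℂ := c1 * (-(1 / (2 * Real.pi))) ^ n / ((1 / 2 : ℂ) ^ (1 / 2 : ℂ)) with hc2
  have hhalf : ((1 / 2 : ℂ) ^ (1 / 2 : ℂ)) ≠ 0 := by
    rw [Ne, Complex.cpow_eq_zero_iff]
    norm_num
  have hp : (Real.pi : ℂ) ≠ 0 := by exact_mod_cast Real.pi_pos.ne'
  have hc2ne : c2 ≠ 0 := by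
    rw [hc2]
    refine div_ne_zero (mul_ne_zero hc1ne (pow_ne_zero _ ?_)) hhalf
    rw [neg_ne_zero]
    exact one_div_ne_zero (mul_ne_zero two_ne_zero hp)
  set D : ℝ → ℂ := fun x =>
    ((iteratedDeriv n (fun s : ℝ => Real.exp (-2 * Real.pi * s ^ 2)) x : ℝ) : ℂ) with hD
  have hk := fourier_injective
    (k := fun x => ((Real.exp (-Real.pi * x ^ 2) : ℝ) : ℂ) * conj (G x) - c2 * D x)
    ((int_gk hGm).sub ((rawc_int n).const_mul c2)) (fun τ => by
      have i1 : Integrable (fun x : ℝ => ((Real.exp (-Real.pi * x ^ 2) : ℝ) : ℂ) * conj (G x) *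
          Complex.exp ((τ : ℂ) * x * Complex.I)) volume := by
        refine (int_gk hGm).mul_bdd (c := 1) (Continuous.aestronglyMeasurable (by fun_prop)) ?_
        filter_upwards with x
        rw [Complex.norm_exp]
        simp
      have e : ∀ x : ℝ, (((Real.exp (-Real.pi * x ^ 2) : ℝ) : ℂ) * conj (G x) - c2 * D x) *
          Complex.exp ((τ : ℂ) * x * Complex.I) =
          ((Real.exp (-Real.pi * x ^ 2) : ℝ) : ℂ) * conj (G x) *
          Complex.exp ((τ : ℂ) * x * Complex.I) -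
          c2 * (Complex.exp ((τ : ℂ) * x * Complex.I) * D x) := by
        intro x; ring
      simp only [e]
      rw [integral_sub i1 ((rawc_mul_int n τ).const_mul c2), ← Bt_imag, integral_const_mul,
        raw_fourier, hBG, hc2]
      have e3 : (Real.pi : ℂ) * (Complex.I * τ / (2 * Real.pi)) ^ 2 / 2 =
          -(τ : ℂ) ^ 2 / (8 * Real.pi) := by
        rw [div_pow, mul_pow, Complex.I_sq]
        field_simp
        norm_num
      rw [e3]
      have e4 : (Complex.I * τ / (2 * Real.pi)) ^ n =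
          (-(1 / (2 * Real.pi)) : ℂ) ^ n * (-(Complex.I * τ)) ^ n := by
        rw [← mul_pow]
        congr 1
        field_simp
      rw [e4]
      field_simp
      ring)
  -- `G` is a Hermite function
  have hGr : G =ᵐ[volume] fun x => conj c2 * (hermiteRaw n x : ℂ) := by
    filter_upwards [hk] with x hx
    simp only [Pi.zero_apply] at hx
    have h1 := sub_eq_zero.1 hx
    have h2 : conj (G x) = c2 * (hermiteRaw n x : ℂ) := by
      have h3 : ((Real.exp (Real.pi * x ^ 2) : ℝ) : ℂ) * ((Real.exp (-Real.pi * x ^ 2) : ℝ) : ℂ)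
          = 1 := by
        rw [← Complex.ofReal_mul, ← Real.exp_add]
        simp
      unfold hermiteRaw
      rw [Complex.ofReal_mul]
      calc conj (G x) = ((Real.exp (Real.pi * x ^ 2) : ℝ) : ℂ) *
            (((Real.exp (-Real.pi * x ^ 2) : ℝ) : ℂ) * conj (G x)) := by
              rw [← mul_assoc, h3, one_mul]
        _ = _ := by rw [h1]; ring
    have h4 := congrArg conj h2
    rw [Complex.conj_conj, map_mul, Complex.conj_ofReal] at h4
    exact h4
  set N : ℝ := Real.sqrt (∫ s, hermiteRaw n s ^ 2) with hN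
  have hN0 : N ≠ 0 := (Real.sqrt_pos.2 (raw_sq_pos n)).ne'
  have hGh : G =ᵐ[volume] fun x => (conj c2 * N) * hermiteFun n x := by
    filter_upwards [hGr] with x hx
    rw [hx]
    unfold hermiteFun
    rw [← hN]
    push_cast
    have : (N : ℂ) ≠ 0 := by exact_mod_cast hN0
    field_simp
  refine ⟨n, Complex.exp (-2 * Real.pi * Complex.I * x₀ * ξ₀) * (conj c2 * N), (x₀, ξ₀), ?_, ?_⟩
  · refine mul_ne_zero (Complex.exp_ne_zero _) (mul_ne_zero ?_ (by exact_mod_cast hN0))
    simpa using hc2ne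
  · have h1 := (measurePreserving_sub_right volume x₀).quasiMeasurePreserving.ae_eq_comp hGh
    filter_upwards [h1] with t ht
    simp only [Function.comp] at ht
    have h2 : g t = Complex.exp (2 * Real.pi * Complex.I * ξ₀ * ((t - x₀ : ℝ) : ℂ)) *
        G (t - x₀) := by
      rw [hG]
      unfold tf
      simp only []
      rw [← mul_assoc, ← Complex.exp_add, sub_neg_eq_add, sub_add_cancel]
      have : (2 * Real.pi * Complex.I * ξ₀ * ((t - x₀ : ℝ) : ℂ) +
        2 * Real.pi * Complex.I * ((-ξ₀ : ℝ) : ℂ) * ((t - x₀ : ℝ) : ℂ)) = 0 := by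
        push_cast; ring
      rw [this, Complex.exp_zero, one_mul]
    rw [h2, ht]
    unfold tf
    simp only []
    have h3 : Complex.exp (2 * Real.pi * Complex.I * ξ₀ * ((t - x₀ : ℝ) : ℂ)) =
        Complex.exp (-2 * Real.pi * Complex.I * x₀ * ξ₀) *
          Complex.exp (2 * Real.pi * Complex.I * ξ₀ * t) := by
      rw [← Complex.exp_add]
      congr 1
      push_cast
      ring
    rw [h3]
    ring

end Pool.Agent.X116.Lr
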