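import Mathlib
import Pool.Agent.Helper859.Br.C1

/-!
# Hyperbolic (real-rooted) polynomials
-/

open Polynomial Filter Topology Metric

namespace Pool.Agent.X116

/-- `p = 0` or all complex zeros of `p` are real. -/
def Hyp (p : ℝ[X]) : Prop := p = 0 ∨ ∀ z : ℂ, aeval z p = 0 → z.im = 0

namespace Hyp

lemma zero : Hyp 0 := Or.inl rfl

lemma aeval_eq_sum (p : ℝ[X]) {n : ℕ} (hn : p.natDegree ≤ n) (z : ℂ) :
    aeval z p = ∑ k ∈ Finset.range (n + 1), (p.coeff k : ℂ) * z ^ k := by
  rw [aeval_eq_sum_range' (n := n + 1) (by omega)]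
  refine Finset.sum_congr rfl fun k _ => ?_
  rw [Algebra.smul_def]
  rfl

/-- A coefficientwise limit of hyperbolic polynomials of bounded degree is hyperbolic. -/
theorem limit {P : ℕ → ℝ[X]} {p : ℝ[X]} {n : ℕ} (hdeg : ∀ i, (P i).natDegree ≤ n)
    (hp : ∀ k, Tendsto (fun i => (P i).coeff k) atTop (𝓝 (p.coeff k)))
    (hP : ∀ i, Hyp (P i)) : Hyp p := by
  by_cases hp0 : p = 0
  · exact Or.inl hp0
  right
  intro z0 hz0
  by_contra him
  have hpn : p.natDegree ≤ n := by
    rw [natDegree_le_iff_coeff_eq_zero]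
    intro k hk
    have h1 : ∀ i, (P i).coeff k = 0 := fun i =>
      coeff_eq_zero_of_natDegree_lt (lt_of_le_of_lt (hdeg i) hk)
    have h2 := hp k
    simp only [h1] at h2
    exact tendsto_nhds_unique h2 tendsto_const_nhds
  -- eventually `P i ≠ 0`
  obtain ⟨k0, hk0⟩ : ∃ k, p.coeff k ≠ 0 := by
    by_contra h
    push Not at h
    exact hp0 (Polynomial.ext (by simpa using h))
  have hev : ∀ᶠ i in atTop, P i ≠ 0 := by
    filter_upwards [(hp k0).eventually_ne hk0] with i hi h0
    rw [h0] at hi
    simp at hi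
  obtain ⟨N, hN⟩ := eventually_atTop.mp hev
  -- coefficients are bounded
  have hbd : ∀ k, ∃ M : ℝ, 0 ≤ M ∧ ∀ i, |(P i).coeff k| ≤ M := by
    intro k
    obtain ⟨M, hM⟩ := (Metric.isBounded_range_of_tendsto _ (hp k)).exists_norm_le
    refine ⟨max M 0, le_max_right _ _, fun i => ?_⟩
    exact (hM _ ⟨i, rfl⟩).trans (le_max_left _ _)
  choose M hM0 hM using hbd
  set r : ℝ := |z0.im| with hr
  have hr0 : 0 < r := abs_pos.mpr him
  set V : Set ℂ := ball z0 r with hV
  have hVim : ∀ z ∈ V, z.im ≠ 0 := by
    intro z hz h0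
    rw [hV, mem_ball, dist_eq_norm] at hz
    have h1 := Complex.abs_im_le_norm (z - z0)
    rw [Complex.sub_im, h0, zero_sub, abs_neg] at h1
    linarith
  set ρ : ℝ := ‖z0‖ + r with hρ
  have hρ0 : 0 ≤ ρ := by positivity
  have hVn : ∀ z ∈ V, ‖z‖ ≤ ρ := by
    intro z hz
    rw [hV, mem_ball, dist_eq_norm] at hz
    have h1 := norm_le_norm_add_norm_sub' z z0
    linarith
  have hd : ∀ i, DifferentiableOn ℂ (fun z : ℂ => aeval z (P (i + N))) V := fun i =>
    (Polynomial.differentiable_aeval _).differentiableOn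
  have hpt : ∀ z : ℂ, Tendsto (fun i => aeval z (P (i + N))) atTop (𝓝 (aeval z p)) := by
    intro z
    have h1 : Tendsto (fun i => aeval z (P i)) atTop (𝓝 (aeval z p)) := by
      simp only [aeval_eq_sum _ (hdeg _), aeval_eq_sum p hpn]
      refine tendsto_finsetSum _ fun k _ => ?_
      exact ((Complex.continuous_ofReal.tendsto _).comp (hp k)).mul_const _
    exact h1.comp (tendsto_add_atTop_nat N)
  have hb : ∀ i, ∀ z ∈ V, ‖(aeval z (P (i + N)) : ℂ)‖
      ≤ ∑ k ∈ Finset.range (n + 1), M k * ρ ^ k := by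
    intro i z hz
    rw [aeval_eq_sum _ (hdeg _)]
    refine (norm_sum_le _ _).trans (Finset.sum_le_sum fun k _ => ?_)
    rw [norm_mul, norm_pow, Complex.norm_real]
    exact mul_le_mul (hM k _) (pow_le_pow_left₀ (norm_nonneg _) (hVn z hz) k) (by positivity)
      (hM0 k)
  have hlim := Pool.Agent.Helper859.Br.C1.tlu_of_pointwise (l := atTop) isOpen_ball hd hb
    (fun z _ => hpt z)
  have hne : ∀ i, ∀ z ∈ V, (aeval z (P (i + N)) : ℂ) ≠ 0 := by
    intro i z hz h0
    rcases hP (i + N) with h | h
    · exact hN (i + N) (by omega) h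
    · exact hVim z hz (h z h0)
  have hz0V : z0 ∈ V := mem_ball_self hr0
  have hloc := Pool.Agent.Helper859.Br.C1.hurwitz isOpen_ball hd hlim hne hz0V hz0
  -- then `p = 0`
  apply hp0
  have hinf : {z : ℂ | (p.map (algebraMap ℝ ℂ)).IsRoot z}.Infinite := by
    have h1 : {z : ℂ | (p.map (algebraMap ℝ ℂ)).IsRoot z} ∈ 𝓝 z0 := by
      filter_upwards [hloc] with z hz
      change (p.map (algebraMap ℝ ℂ)).eval z = 0
      rw [eval_map_algebraMap]
      exact hz
    exact infinite_of_mem_nhds z0 h1
  have h2 := eq_zero_of_infinite_isRoot _ hinf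
  exact (Polynomial.map_eq_zero_iff (algebraMap ℝ ℂ).injective).mp h2

/-- the roots of a hyperbolic polynomial -/
theorem exists_roots {p : ℝ[X]} (h : Hyp p) :
    ∃ s : Multiset ℝ, p = C p.leadingCoeff * (s.map fun a : ℝ => X - C a).prod := by
  rcases h with rfl | h
  · exact ⟨0, by simp⟩
  set P : ℂ[X] := p.map (algebraMap ℝ ℂ) with hP
  have hPs : P.Splits := IsAlgClosed.splits P
  refine ⟨P.roots.map Complex.re, ?_⟩
  apply Polynomial.map_injective (algebraMap ℝ ℂ) (algebraMap ℝ ℂ).injective
  rw [Polynomial.map_mul, map_C, Polynomial.map_multiset_prod, Multiset.map_map, Multiset.map_map]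
  have h1 : P = C P.leadingCoeff * (P.roots.map fun a => X - C a).prod :=
    hPs.eq_prod_roots
  rw [← hP]
  conv_lhs => rw [h1]
  rw [hP, leadingCoeff_map, ← hP]
  congr 2
  apply Multiset.map_congr rfl
  intro a ha
  have ha0 : P.eval a = 0 := (mem_roots'.mp ha).2
  have him : a.im = 0 := h a (by rw [← ha0, hP, eval_map_algebraMap])
  have h2 : ((a.re : ℝ) : ℂ) = a := by
    apply Complex.ext <;> simp [him]
  simp only [Function.comp_apply, Polynomial.map_sub, map_X, map_C]
  rw [show (algebraMap ℝ ℂ) a.re = a from h2]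

/-- a product of real linear factors is hyperbolic -/
theorem of_roots (c : ℝ) (s : Multiset ℝ) : Hyp (C c * (s.map fun a : ℝ => X - C a).prod) := by
  by_cases hc : c = 0
  · left; simp [hc]
  right
  intro z hz
  rw [map_mul, aeval_C, map_multiset_prod, Multiset.map_map] at hz
  rcases mul_eq_zero.mp hz with h | h
  · exact absurd h (by simpa using hc)
  · rw [Multiset.prod_eq_zero_iff] at h
    obtain ⟨a, _, ha⟩ := Multiset.mem_map.mp h
    simp only [Function.comp_apply, map_sub, aeval_X, aeval_C] at ha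
    have : z = (a : ℂ) := sub_eq_zero.mp ha
    rw [this]
    simp

theorem iff_roots (p : ℝ[X]) : Hyp p ↔
    ∃ (c : ℝ) (s : Multiset ℝ), p = C c * (s.map fun a : ℝ => X - C a).prod := by
  constructor
  · intro h
    obtain ⟨s, hs⟩ := h.exists_roots
    exact ⟨_, s, hs⟩
  · rintro ⟨c, s, rfl⟩
    exact of_roots c s

theorem mul {p q : ℝ[X]} (hp : Hyp p) (hq : Hyp q) : Hyp (p * q) := by
  rcases hp with rfl | hp
  · left; simp
  rcases hq with rfl | hq
  · left; simp
  right
  intro z hz
  rw [map_mul] at hz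
  rcases mul_eq_zero.mp hz with h | h
  · exact hp z h
  · exact hq z h

/-- The Laguerre inequality. -/
theorem laguerre {p : ℝ[X]} (hp : Hyp p) (x : ℝ) :
    p.eval x * (derivative (derivative p)).eval x ≤ ((derivative p).eval x) ^ 2 := by
  obtain ⟨s, hs⟩ := hp.exists_roots
  have key : ∀ s : Multiset ℝ, ((s.map fun a : ℝ => X - C a).prod).eval x
      * (derivative (derivative ((s.map fun a : ℝ => X - C a).prod))).eval x
      ≤ ((derivative ((s.map fun a : ℝ => X - C a).prod)).eval x) ^ 2 := by
    intro s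
    induction s using Multiset.induction_on with
    | empty => simp
    | cons a s ih =>
      set q : ℝ[X] := (s.map fun a : ℝ => X - C a).prod with hq
      rw [Multiset.map_cons, Multiset.prod_cons, ← hq]
      simp only [derivative_mul, derivative_sub, derivative_X, derivative_C, sub_zero, one_mul,
        derivative_add, eval_add, eval_mul, eval_sub, eval_X, eval_C]
      nlinarith [mul_le_mul_of_nonneg_left ih (sq_nonneg (x - a)), sq_nonneg (q.eval x)]
  rw [hs]
  simp only [derivative_C_mul, eval_mul, eval_C]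
  have := mul_le_mul_of_nonneg_left (key s) (sq_nonneg p.leadingCoeff)
  nlinarith

/-- The derivative of a hyperbolic polynomial is hyperbolic. -/
theorem deriv {p : ℝ[X]} (hp : Hyp p) : Hyp (derivative p) := by
  by_cases hd : derivative p = 0
  · exact Or.inl hd
  right
  intro z hz
  by_contra him
  have hp' : ∀ z : ℂ, aeval z p = 0 → z.im = 0 := by
    rcases hp with rfl | h
    · simp at hd
    · exact h
  set P : ℂ[X] := p.map (algebraMap ℝ ℂ) with hP
  have hPs : P.Splits := IsAlgClosed.splits P
  have hPz : P.eval z ≠ 0 := by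
    intro h0
    exact him (hp' z (by rw [← h0, hP, eval_map_algebraMap]))
  have h1 := hPs.eval_derivative_div_eval_of_ne_zero hPz
  have h2 : (derivative P).eval z = 0 := by
    rw [hP, derivative_map, eval_map_algebraMap, hz]
  rw [h2, zero_div] at h1
  have h4 : (P.roots.map fun a => -(z.im * (1 / (z - a)).im)).sum = 0 := by
    rw [Multiset.sum_map_neg, Multiset.sum_map_mul_left]
    have h5 : (P.roots.map fun a => (1 / (z - a)).im).sum
        = ((P.roots.map fun a => 1 / (z - a)).sum).im := by
      rw [← Complex.imLm_coe, map_multiset_sum, Multiset.map_map]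
      rfl
    rw [h5, ← h1]
    simp
  have h6 : ∀ x ∈ (P.roots.map fun a => -(z.im * (1 / (z - a)).im)), 0 < x := by
    intro x hx
    obtain ⟨a, ha, rfl⟩ := Multiset.mem_map.mp hx
    have ha0 : P.eval a = 0 := (mem_roots'.mp ha).2
    have hima : a.im = 0 := hp' a (by rw [← ha0, hP, eval_map_algebraMap])
    rw [one_div, Complex.inv_im]
    simp only [Complex.sub_im, hima, sub_zero]
    have : -(z.im * (-z.im / Complex.normSq (z - a))) = z.im ^ 2 / Complex.normSq (z - a) := by
      ring
    rw [this]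
    have h7 : z - a ≠ 0 := by
      intro h
      rw [sub_eq_zero] at h
      rw [h] at him
      exact him hima
    have := Complex.normSq_pos.mpr h7
    positivity
  have h7 : P.roots ≠ 0 := by
    intro h0
    have h8 : P.natDegree = 0 := by
      rw [hPs.natDegree_eq_card_roots, h0, Multiset.card_zero]
    have h9 : p.natDegree = 0 := by
      rwa [hP, natDegree_map] at h8
    rw [eq_C_of_natDegree_eq_zero h9, derivative_C] at hd
    exact hd rfl
  have h8 : (P.roots.map fun a => -(z.im * (1 / (z - a)).im)) ≠ 0 := by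
    simpa using h7
  obtain ⟨x, hx⟩ := Multiset.exists_mem_of_ne_zero h8
  have h9 := Multiset.single_le_sum (fun y hy => (h6 y hy).le) x hx
  linarith [h6 x hx]

theorem iterate_deriv {p : ℝ[X]} (hp : Hyp p) (k : ℕ) : Hyp (derivative^[k] p) := by
  induction k with
  | zero => exact hp
  | succ k ih =>
    rw [Function.iterate_succ_apply']
    exact ih.deriv

/-- Newton-type inequality for the coefficients. -/
theorem newton {p : ℝ[X]} (hp : Hyp p) (j : ℕ) :
    ((j : ℝ) + 2) * (p.coeff j * p.coeff (j + 2)) ≤ ((j : ℝ) + 1) * p.coeff (j + 1) ^ 2 := by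
  have h := (hp.iterate_deriv j).laguerre 0
  have e0 : (derivative^[j] p).eval 0 = (j.factorial : ℝ) * p.coeff j := by
    rw [← coeff_zero_eq_eval_zero, coeff_iterate_derivative, zero_add, Nat.descFactorial_self,
      nsmul_eq_mul]
  have e1 : (derivative (derivative^[j] p)).eval 0 = ((j + 1).factorial : ℝ) * p.coeff (j + 1) := by
    rw [← Function.iterate_succ_apply' derivative j p, ← coeff_zero_eq_eval_zero,
      coeff_iterate_derivative, zero_add, Nat.descFactorial_self, nsmul_eq_mul]
  have e2 : (derivative (derivative (derivative^[j] p))).eval 0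
      = ((j + 2).factorial : ℝ) * p.coeff (j + 2) := by
    rw [← Function.iterate_succ_apply' derivative j p,
      ← Function.iterate_succ_apply' derivative (j + 1) p, ← coeff_zero_eq_eval_zero,
      coeff_iterate_derivative, zero_add, Nat.descFactorial_self, nsmul_eq_mul]
  rw [e0, e1, e2, Nat.factorial_succ (j + 1), Nat.factorial_succ j] at h
  have hf : (0 : ℝ) < (j.factorial : ℝ) := by exact_mod_cast j.factorial_pos
  push_cast at h
  have h3 : 0 < (j.factorial : ℝ) ^ 2 * (j + 1) := by positivity
  apply le_of_mul_le_mul_left _ h3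
  nlinarith

end Hyp

end Pool.Agent.X116
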