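import Mathlib

/-!
# Alternating chains of coefficients
-/

open Polynomial Finset

namespace Pool.Agent.X116.SignVar

/-- `f` alternates (strictly) in sign along a chain of `k + 1` indices in `[a, b]`. -/
def Alt (f : ℕ → ℝ) (a b k : ℕ) : Prop :=
  ∃ (ε : ℝ) (i : ℕ → ℕ), ε ≠ 0 ∧ (∀ j < k, i j < i (j + 1)) ∧ a ≤ i 0 ∧ i k ≤ b ∧
    ∀ j ≤ k, 0 < ε * (-1) ^ j * f (i j)

lemma chain_lt {i : ℕ → ℕ} {k : ℕ} (h : ∀ j < k, i j < i (j + 1)) {p q : ℕ} (hpq : p ≤ q)
    (hq : q ≤ k) : i p + (q - p) ≤ i q := by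
  induction q with
  | zero =>
    have : p = 0 := by omega
    subst this
    simp
  | succ q ih =>
    rcases Nat.eq_or_lt_of_le hpq with h1 | h1
    · subst h1; simp
    · have h2 := ih (by omega) (by omega)
      have h3 := h q (by omega)
      omega

/-- Multiplication by `X - η` creates a new sign change. -/
lemma Alt.mul {p : ℝ[X]} {η : ℝ} (hη : 0 < η) {a b k : ℕ} (h : Alt p.coeff a b k) :
    ∃ b', Alt ((X - C η) * p).coeff 0 b' (k + 1) := by
  classical
  obtain ⟨ε, i, hε, hi, _, _, hs⟩ := h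
  -- the sets from which the new indices are taken
  have hex : ∀ j, ∃ n, j ≤ k → ((j = 0 ∨ i (j - 1) < n) ∧ 0 < ε * (-1) ^ j * p.coeff n) := by
    intro j
    refine ⟨i j, fun hj => ⟨?_, hs j hj⟩⟩
    rcases Nat.eq_zero_or_pos j with h0 | h0
    · exact Or.inl h0
    · right
      have := hi (j - 1) (by omega)
      rwa [Nat.sub_add_cancel h0] at this
  set i' : ℕ → ℕ := fun j => Nat.find (hex j) with hi'
  have hspec : ∀ j ≤ k, ((j = 0 ∨ i (j - 1) < i' j) ∧ 0 < ε * (-1) ^ j * p.coeff (i' j)) :=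
    fun j hj => Nat.find_spec (hex j) hj
  have hmin : ∀ j ≤ k, ∀ n < i' j, ¬((j = 0 ∨ i (j - 1) < n) ∧ 0 < ε * (-1) ^ j * p.coeff n) := by
    intro j hj n hn hcon
    exact Nat.find_min (hex j) hn fun _ => hcon
  have hle : ∀ j ≤ k, i' j ≤ i j := by
    intro j hj
    apply Nat.find_min'
    intro _
    refine ⟨?_, hs j hj⟩
    rcases Nat.eq_zero_or_pos j with h0 | h0
    · exact Or.inl h0
    · right
      have := hi (j - 1) (by omega)
      rwa [Nat.sub_add_cancel h0] at this
  have hlt : ∀ j < k, i' j < i' (j + 1) := by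
    intro j hj
    have h1 := hle j hj.le
    have h2 := (hspec (j + 1) hj).1
    rcases h2 with h2 | h2
    · omega
    · rw [Nat.add_sub_cancel] at h2
      omega
  -- the last index
  set T : Finset ℕ := p.support.filter fun n => 0 < ε * (-1) ^ k * p.coeff n with hT
  have hTmem : ∀ n, n ∈ T ↔ 0 < ε * (-1) ^ k * p.coeff n := by
    intro n
    rw [hT, mem_filter, mem_support_iff]
    constructor
    · exact fun h => h.2
    · intro h
      refine ⟨?_, h⟩
      intro h0
      rw [h0, mul_zero] at h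
      exact lt_irrefl _ h
  have hTne : T.Nonempty := ⟨i' k, (hTmem _).mpr (hspec k le_rfl).2⟩
  set n₀ := T.max' hTne with hn₀
  have hn₀mem : 0 < ε * (-1) ^ k * p.coeff n₀ := (hTmem _).mp (T.max'_mem hTne)
  have hn₀ge : i' k ≤ n₀ := T.le_max' _ ((hTmem _).mpr (hspec k le_rfl).2)
  have hn₀next : ε * (-1) ^ k * p.coeff (n₀ + 1) ≤ 0 := by
    by_contra hcon
    push Not at hcon
    have := T.le_max' _ ((hTmem _).mpr hcon)
    omega
  -- coefficients of the product
  have hc0 : ((X - C η) * p).coeff 0 = -(η * p.coeff 0) := by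
    rw [sub_mul, coeff_sub, coeff_X_mul_zero, coeff_C_mul, zero_sub]
  have hcs : ∀ n, ((X - C η) * p).coeff (n + 1) = p.coeff n - η * p.coeff (n + 1) := by
    intro n
    rw [sub_mul, coeff_sub, coeff_X_mul, coeff_C_mul]
  refine ⟨n₀ + 1, -ε, fun j => if j ≤ k then i' j else n₀ + 1, neg_ne_zero.mpr hε, ?_,
    Nat.zero_le _, ?_, ?_⟩
  · intro j hj
    by_cases h1 : j + 1 ≤ k
    · simp only [h1, if_pos, (by omega : j ≤ k)]
      exact hlt j h1
    · have : j = k := by omega
      subst this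
      simp only [le_refl, if_true, (by omega : ¬ j + 1 ≤ j), if_false]
      omega
  · simp
  · intro j hj
    by_cases h1 : j ≤ k
    · simp only [h1, if_true]
      obtain ⟨g1, g2⟩ := hspec j h1
      rcases Nat.eq_zero_or_pos (i' j) with h0 | h0
      · rw [h0] at g2 ⊢
        rw [hc0]
        have : -ε * (-1) ^ j * -(η * p.coeff 0) = η * (ε * (-1) ^ j * p.coeff 0) := by ring
        rw [this]
        exact mul_pos hη g2
      · obtain ⟨n, hn⟩ : ∃ n, i' j = n + 1 := ⟨i' j - 1, by omega⟩
        rw [hn] at g2 ⊢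
        rw [hcs]
        have h2 : ε * (-1) ^ j * p.coeff n ≤ 0 := by
          by_contra hcon
          push Not at hcon
          have h3 := hmin j h1 n (by omega)
          apply h3
          refine ⟨?_, hcon⟩
          rcases g1 with g1 | g1
          · exact Or.inl g1
          · rcases Nat.eq_zero_or_pos j with hj0 | hj0
            · exact Or.inl hj0
            right
            rw [hn] at g1
            rcases Nat.lt_or_ge (i (j - 1)) n with h4 | h4
            · exact h4
            · exfalso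
              have h5 : i (j - 1) = n := by omega
              have h6 := hs (j - 1) (by omega)
              rw [h5] at h6
              have h7 : (-1 : ℝ) ^ j = (-1) ^ (j - 1) * (-1) := by
                rw [← pow_succ, Nat.sub_add_cancel hj0]
              rw [h7] at hcon
              have : ε * ((-1) ^ (j - 1) * -1) * p.coeff n
                  = -(ε * (-1) ^ (j - 1) * p.coeff n) := by ring
              rw [this] at hcon
              linarith
        have : -ε * (-1) ^ j * (p.coeff n - η * p.coeff (n + 1))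
            = -(ε * (-1) ^ j * p.coeff n) + η * (ε * (-1) ^ j * p.coeff (n + 1)) := by ring
        rw [this]
        have := mul_pos hη g2
        linarith
    · have : j = k + 1 := by omega
      subst this
      simp only [(by omega : ¬ k + 1 ≤ k), if_false]
      rw [hcs]
      have : -ε * (-1) ^ (k + 1) * (p.coeff n₀ - η * p.coeff (n₀ + 1))
          = ε * (-1) ^ k * p.coeff n₀ - η * (ε * (-1) ^ k * p.coeff (n₀ + 1)) := by ring
      rw [this]
      have := mul_nonpos_of_nonneg_of_nonpos hη.le hn₀next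
      linarith

/-- Multiplication by a product. -/
lemma Alt.mul_prod {p : ℝ[X]} {s : Multiset ℝ} (hs : ∀ a ∈ s, 0 < a) {c : ℝ} (hc : c ≠ 0)
    {a b k : ℕ} (h : Alt p.coeff a b k) :
    ∃ b', Alt ((C c * (s.map fun a : ℝ => X - C a).prod) * p).coeff 0 b' (k + s.card) := by
  have key : ∃ b', Alt ((s.map fun a : ℝ => X - C a).prod * p).coeff 0 b' (k + s.card) := by
    induction s using Multiset.induction_on with
    | empty =>
      obtain ⟨ε, i, h1, h2, _, h4, h5⟩ := h
      refine ⟨b, ε, i, h1, by simpa using h2, Nat.zero_le _, by simpa using h4, by simpa using h5⟩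
    | cons η s ih =>
      obtain ⟨b', hb'⟩ := ih fun a ha => hs a (Multiset.mem_cons_of_mem ha)
      obtain ⟨b'', hb''⟩ := hb'.mul (hs η (Multiset.mem_cons_self η s))
      refine ⟨b'', ?_⟩
      rw [Multiset.map_cons, Multiset.prod_cons, mul_assoc, Multiset.card_cons, ← add_assoc]
      exact hb''
  obtain ⟨b', ε, i, h1, h2, h3, h4, h5⟩ := key
  refine ⟨b', ε * c⁻¹, i, mul_ne_zero h1 (inv_ne_zero hc), h2, h3, h4, fun j hj => ?_⟩
  rw [mul_assoc (C c), coeff_C_mul]
  have := h5 j hj
  have e : ε * c⁻¹ * (-1) ^ j * (c * (((s.map fun a : ℝ => X - C a).prod * p).coeff (i j)))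
      = ε * (-1) ^ j * (((s.map fun a : ℝ => X - C a).prod * p).coeff (i j)) := by
    field_simp
  rw [e]
  exact this

/-- Truncation at the top: from a chain of order `k + d` (`d ≥ 1`) with all indices at most
`m + d - 1` to one of order `k + 1` in `[0, m]`. -/
lemma Alt.trunc {f : ℕ → ℝ} {b k d m : ℕ} (hd : 1 ≤ d) (h : Alt f 0 b (k + d))
    (hf : ∀ n, f n ≠ 0 → n + 1 ≤ m + d) : Alt f 0 m (k + 1) := by
  obtain ⟨ε, i, h1, h2, h3, h4, h5⟩ := h
  refine ⟨ε, i, h1, fun j hj => h2 j (by omega), h3, ?_, fun j hj => h5 j (by omega)⟩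
  have h6 : f (i (k + d)) ≠ 0 := by
    intro h0
    have := h5 (k + d) le_rfl
    rw [h0, mul_zero] at this
    exact lt_irrefl _ this
  have h7 := hf _ h6
  have h8 := chain_lt h2 (p := k + 1) (q := k + d) (by omega) le_rfl
  omega

/-- Dropping the index `0`. -/
lemma Alt.drop {f : ℕ → ℝ} {m k : ℕ} (h : Alt f 0 m (k + 1)) : Alt f 1 m k := by
  obtain ⟨ε, i, h1, h2, h3, h4, h5⟩ := h
  refine ⟨-ε, fun j => i (j + 1), neg_ne_zero.mpr h1, fun j hj => h2 (j + 1) (by omega), ?_, h4,
    fun j hj => ?_⟩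
  · have := h2 0 (by omega)
    change 1 ≤ i (0 + 1)
    omega
  · have := h5 (j + 1) (by omega)
    rw [pow_succ] at this
    linarith

lemma Alt.drop_zero {f : ℕ → ℝ} {m k : ℕ} (h : Alt f 0 m k) (h0 : f 0 = 0) : Alt f 1 m k := by
  obtain ⟨ε, i, h1, h2, h3, h4, h5⟩ := h
  refine ⟨ε, i, h1, h2, ?_, h4, h5⟩
  by_contra hcon
  have : i 0 = 0 := by omega
  have h6 := h5 0 (Nat.zero_le _)
  rw [this, h0, mul_zero] at h6
  exact lt_irrefl _ h6

/-- A chain has bounded length. -/
lemma Alt.le {f : ℕ → ℝ} {a b k : ℕ} (h : Alt f a b k) : k ≤ b := by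
  obtain ⟨ε, i, h1, h2, h3, h4, h5⟩ := h
  have := chain_lt h2 (p := 0) (q := k) (Nat.zero_le _) le_rfl
  omega

end Pool.Agent.X116.SignVar
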