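import Mathlib
import Pool.Agent.X116.SignVar

/-!
# Zeros of the coefficients of `1 / (Q(t) + z t^r)`: the core argument
-/

open Polynomial Finset Filter Topology
open Pool.Agent.X116.SignVar

namespace Pool.Agent.X116.SignCore

/-- `∑_{n<m} Re(u P_n) X^n` -/
noncomputable def xu (P : ℕ → ℂ) (m : ℕ) (u : ℂ) : ℝ[X] :=
  ∑ n ∈ range m, C ((u * P n).re) * X ^ n

lemma coeff_xu (P : ℕ → ℂ) (m : ℕ) (u : ℂ) (n : ℕ) :
    (xu P m u).coeff n = if n < m then (u * P n).re else 0 := by
  unfold xu
  rw [finsetSum_coeff]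
  simp only [coeff_C_mul, coeff_X_pow, mul_ite, mul_one, mul_zero]
  by_cases h : n < m
  · rw [if_pos h, Finset.sum_eq_single n]
    · simp
    · intro j _ hj
      rw [if_neg (Ne.symm hj)]
    · intro h1
      exact absurd (mem_range.mpr h) h1
  · rw [if_neg h]
    refine Finset.sum_eq_zero fun j hj => ?_
    have := mem_range.mp hj
    rw [if_neg (by omega)]

/-- the second coefficient of `Q` does not vanish -/
lemma coeff_one_ne {Q : ℝ[X]} {s : Multiset ℝ} {c : ℝ} (_ : c ≠ 0)
    (fac : Q = C c * (s.map fun a : ℝ => X - C a).prod) (pos : ∀ a ∈ s, 0 < a)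
    (card : 1 ≤ s.card) (q0 : 0 < Q.coeff 0) : Q.coeff 1 ≠ 0 := by
  -- evaluate the logarithmic derivative at `0`
  have key : ∀ t : Multiset ℝ, (∀ a ∈ t, 0 < a) →
      ((t.map fun a : ℝ => X - C a).prod).coeff 1
        = -(t.map fun a : ℝ => a⁻¹).sum * ((t.map fun a : ℝ => X - C a).prod).coeff 0 := by
    intro t
    induction t using Multiset.induction_on with
    | empty =>
      intro _
      simp [coeff_one]
    | cons a t ih =>
      intro ht
      have ha := ht a (Multiset.mem_cons_self a t)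
      have ih' := ih fun b hb => ht b (Multiset.mem_cons_of_mem hb)
      simp only [Multiset.map_cons, Multiset.prod_cons, Multiset.sum_cons]
      rw [sub_mul, coeff_sub, coeff_sub, coeff_X_mul_zero, coeff_C_mul, coeff_C_mul,
        (by rfl : (1 : ℕ) = 0 + 1), coeff_X_mul, zero_add, ih']
      field_simp
      ring
  rw [fac, coeff_C_mul, key s pos]
  have h0 : c * ((s.map fun a : ℝ => X - C a).prod).coeff 0 ≠ 0 := by
    rw [fac, coeff_C_mul] at q0
    exact q0.ne'
  have hsum : 0 < (s.map fun a : ℝ => a⁻¹).sum := by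
    obtain ⟨a, t, hat⟩ : ∃ a t, s = a ::ₘ t := by
      have : s ≠ 0 := by
        intro h0
        rw [h0] at card
        simp at card
      obtain ⟨a, ha⟩ := Multiset.exists_mem_of_ne_zero this
      exact ⟨a, _, (Multiset.cons_erase ha).symm⟩
    rw [hat, Multiset.map_cons, Multiset.sum_cons]
    have ha := pos a (by rw [hat]; exact Multiset.mem_cons_self a t)
    have ht : 0 ≤ (t.map fun a : ℝ => a⁻¹).sum := by
      apply Multiset.sum_nonneg
      intro x hx
      obtain ⟨b, hb, rfl⟩ := Multiset.mem_map.mp hx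
      have := pos b (by rw [hat]; exact Multiset.mem_cons_of_mem hb)
      positivity
    have : 0 < a⁻¹ := inv_pos.mpr ha
    linarith
  intro h1
  have h2 : c * (-(s.map fun a : ℝ => a⁻¹).sum * ((s.map fun a : ℝ => X - C a).prod).coeff 0)
      = -(s.map fun a : ℝ => a⁻¹).sum
        * (c * ((s.map fun a : ℝ => X - C a).prod).coeff 0) := by ring
  rw [h2] at h1
  rcases mul_eq_zero.mp h1 with h3 | h3
  · linarith
  · exact h0 h3

/-- The data. -/
structure Data (Q : ℝ[X]) (s : Multiset ℝ) (c : ℝ) (r m : ℕ) (z : ℂ) (P : ℕ → ℂ) : Prop where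
  pos : ∀ a ∈ s, 0 < a
  card : 1 ≤ s.card
  fac : Q = C c * (s.map fun a : ℝ => X - C a).prod
  q0 : 0 < Q.coeff 0
  recu : ∀ n, ∑ x ∈ antidiagonal n, ((Q.coeff x.1 : ℂ) + if x.1 = r then z else 0) * P x.2
    = if n = 0 then 1 else 0
  pm : P m = 0

variable {Q : ℝ[X]} {s : Multiset ℝ} {c : ℝ} {r m : ℕ} {z : ℂ} {P : ℕ → ℂ}

lemma Data.c_ne (h : Data Q s c r m z P) : c ≠ 0 := by
  rintro rfl
  have := h.q0
  rw [h.fac] at this
  simp at this

lemma Data.natDegree (h : Data Q s c r m z P) : Q.natDegree = s.card := by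
  rw [h.fac, natDegree_C_mul h.c_ne, natDegree_multiset_prod_X_sub_C_eq_card]

lemma Data.rec' (h : Data Q s c r m z P) (n : ℕ) :
    ∑ x ∈ antidiagonal n, (Q.coeff x.1 : ℂ) * P x.2
      = (if n = 0 then 1 else 0) - (if r ≤ n then z * P (n - r) else 0) := by
  have h1 := h.recu n
  simp only [add_mul, Finset.sum_add_distrib] at h1
  have h2 : ∑ x ∈ antidiagonal n, (if x.1 = r then z else 0) * P x.2
      = if r ≤ n then z * P (n - r) else 0 := by
    by_cases hr : r ≤ n
    · rw [if_pos hr, Finset.sum_eq_single (r, n - r)]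
      · simp
      · rintro ⟨a, b⟩ hx hne
        have hx' : a + b = n := HasAntidiagonal.mem_antidiagonal.mp hx
        rw [if_neg, zero_mul]
        rintro rfl
        apply hne
        ext <;> simp
        omega
      · intro hx
        exfalso
        apply hx
        rw [HasAntidiagonal.mem_antidiagonal]
        simp only
        omega
    · rw [if_neg hr]
      refine Finset.sum_eq_zero fun x hx => ?_
      have hx' : x.1 + x.2 = n := HasAntidiagonal.mem_antidiagonal.mp hx
      rw [if_neg (by omega), zero_mul]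
  rw [h2] at h1
  rw [← h1]
  ring

lemma Data.P0 (h : Data Q s c r m z P) : P 0 ≠ 0 := by
  intro h0
  have h1 := h.recu 0
  rw [Finset.Nat.antidiagonal_zero, Finset.sum_singleton, h0, mul_zero, if_pos rfl] at h1
  exact zero_ne_one h1

lemma Data.m_pos (h : Data Q s c r m z P) : 1 ≤ m := by
  by_contra hcon
  have : m = 0 := by omega
  subst this
  exact h.P0 h.pm

lemma Data.coeff_mul (h : Data Q s c r m z P) (u : ℂ) {n : ℕ} (hn : n ≤ m) :
    (Q * xu P m u).coeff n
      = (u * ((if n = 0 then 1 else 0) - (if r ≤ n then z * P (n - r) else 0))).re := by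
  rw [← h.rec' n, Polynomial.coeff_mul, Finset.mul_sum, Complex.re_sum]
  refine Finset.sum_congr rfl fun x hx => ?_
  have hx' : x.1 + x.2 = n := HasAntidiagonal.mem_antidiagonal.mp hx
  have h1 : (xu P m u).coeff x.2 = (u * P x.2).re := by
    rw [coeff_xu]
    by_cases h2 : x.2 < m
    · rw [if_pos h2]
    · have : x.2 = m := by omega
      rw [if_neg h2, this, h.pm, mul_zero, Complex.zero_re]
  rw [h1]
  have h2 : u * ((Q.coeff x.1 : ℂ) * P x.2) = (Q.coeff x.1 : ℂ) * (u * P x.2) := by ring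
  rw [h2, Complex.re_ofReal_mul]

/-- alternation of order `k` of `x_u` -/
def A (P : ℕ → ℂ) (m : ℕ) (u : ℂ) (k : ℕ) : Prop := Alt (xu P m u).coeff 0 m k

lemma A_zero {u : ℂ} {n : ℕ} (hn : (xu P m u).coeff n ≠ 0) : A P m u 0 := by
  have hnm : n < m := by
    by_contra hcon
    rw [coeff_xu, if_neg hcon] at hn
    exact hn rfl
  refine ⟨(xu P m u).coeff n, fun _ => n, hn, fun j hj => by omega, Nat.zero_le _, hnm.le,
    fun j hj => ?_⟩
  have : j = 0 := by omega
  subst this
  rw [pow_zero, mul_one]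
  exact mul_self_pos.mpr hn

lemma exists_max {u : ℂ} (h0 : A P m u 0) : ∃ k, A P m u k ∧ ¬ A P m u (k + 1) := by
  by_contra hcon
  push Not at hcon
  have h : ∀ k, A P m u k := by
    intro k
    induction k with
    | zero => exact h0
    | succ k ih => exact hcon k ih
  have := (h (m + 1)).le
  omega

lemma Data.big (h : Data Q s c r m z P) {u : ℂ} {k : ℕ} (hA : A P m u k) :
    Alt (Q * xu P m u).coeff 0 m (k + 1) := by
  obtain ⟨b', hb'⟩ := hA.mul_prod h.pos h.c_ne
  rw [← h.fac] at hb'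
  refine hb'.trunc h.card fun n hn => ?_
  have h1 : n ≤ (Q * xu P m u).natDegree := le_natDegree_of_ne_zero hn
  have h2 : (xu P m u).natDegree ≤ m - 1 := by
    unfold xu
    refine natDegree_sum_le_of_forall_le _ _ fun j hj => ?_
    have := mem_range.mp hj
    exact (natDegree_C_mul_X_pow_le _ _).trans (by omega)
  have h3 : (Q * xu P m u).natDegree ≤ Q.natDegree + (xu P m u).natDegree := natDegree_mul_le
  rw [h.natDegree] at h3
  have := h.m_pos
  omega

/-- transfer of a chain in `[1, m]` -/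
lemma Data.transfer (h : Data Q s c r m z P) {u ω : ℂ} {ρ : ℝ} (hρ : 0 ≤ ρ) (hz : z = ρ * ω)
    {k : ℕ} (hA : Alt (Q * xu P m u).coeff 1 m k) : A P m (u * ω) k := by
  obtain ⟨ε, i, h1, h2, h3, h4, h5⟩ := hA
  have hi1 : ∀ j ≤ k, 1 ≤ i j := fun j hj => by
    have := chain_lt h2 (p := 0) (q := j) (Nat.zero_le _) hj
    omega
  have hi2 : ∀ j ≤ k, i j ≤ m := fun j hj => by
    have := chain_lt h2 (p := j) (q := k) hj le_rfl
    omega
  have hval : ∀ j ≤ k, (Q * xu P m u).coeff (i j)
      = if r ≤ i j then -(ρ * (u * ω * P (i j - r)).re) else 0 := by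
    intro j hj
    rw [h.coeff_mul u (hi2 j hj), if_neg (by have := hi1 j hj; omega)]
    by_cases hr : r ≤ i j
    · rw [if_pos hr, if_pos hr, hz]
      have : u * (0 - (ρ : ℂ) * ω * P (i j - r)) = ((-ρ : ℝ) : ℂ) * (u * ω * P (i j - r)) := by
        push_cast; ring
      rw [this, Complex.re_ofReal_mul]
      ring
    · rw [if_neg hr, if_neg hr, sub_zero, mul_zero, Complex.zero_re]
  have hr : ∀ j ≤ k, r ≤ i j := by
    intro j hj
    by_contra hcon
    have := h5 j hj
    rw [hval j hj, if_neg hcon, mul_zero] at this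
    exact lt_irrefl _ this
  have hlt : ∀ j ≤ k, i j - r < m := by
    intro j hj
    rcases Nat.lt_or_ge (i j - r) m with h6 | h6
    · exact h6
    · exfalso
      have h7 : i j - r = m := by have := hi2 j hj; omega
      have := h5 j hj
      rw [hval j hj, if_pos (hr j hj), h7, h.pm] at this
      simp at this
  refine ⟨-ε, fun j => i j - r, neg_ne_zero.mpr h1, fun j hj => ?_, Nat.zero_le _,
    (hlt k le_rfl).le, fun j hj => ?_⟩
  · have e1 := h2 j hj
    have e2 := hr j hj.le
    have e3 := hr (j + 1) hj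
    change i j - r < i (j + 1) - r
    omega
  · have h6 := h5 j hj
    rw [hval j hj, if_pos (hr j hj)] at h6
    change 0 < -ε * (-1) ^ j * (xu P m (u * ω)).coeff (i j - r)
    rw [coeff_xu, if_pos (hlt j hj)]
    have h7 : ε * (-1) ^ j * -(ρ * (u * ω * P (i j - r)).re)
        = ρ * (-ε * (-1) ^ j * (u * ω * P (i j - r)).re) := by ring
    rw [h7] at h6
    by_contra hcon
    push Not at hcon
    have := mul_nonpos_of_nonneg_of_nonpos hρ hcon
    linarith

lemma Data.coeff_zero (_ : Data Q s c r m z P) (u : ℂ) :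
    (Q * xu P m u).coeff 0 = Q.coeff 0 * (xu P m u).coeff 0 := by
  rw [Polynomial.mul_coeff_zero]

/-- no zeros on the closed negative real axis -/
lemma Data.real_pos (h : Data Q s c r m z P) (hz : z.im = 0) : 0 < z.re := by
  by_contra hcon
  push Not at hcon
  set t : ℝ := -z.re with ht
  have ht0 : 0 ≤ t := by rw [ht]; linarith
  have hzt : z = ((-t : ℝ) : ℂ) := by
    apply Complex.ext
    · simp [ht]
    · simp [hz]
  set u : ℂ := (starRingEnd ℂ) (P 0) with hu
  have hx0 : (xu P m u).coeff 0 ≠ 0 := by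
    rw [coeff_xu, if_pos (by have := h.m_pos; omega), hu]
    have : (starRingEnd ℂ) (P 0) * P 0 = ((Complex.normSq (P 0) : ℝ) : ℂ) :=
      Complex.normSq_eq_conj_mul_self.symm
    rw [this, Complex.ofReal_re]
    exact (Complex.normSq_pos.mpr h.P0).ne'
  obtain ⟨k, hk1, hk2⟩ := exists_max (A_zero hx0)
  apply hk2
  obtain ⟨ε, i, h1, h2, h3, h4, h5⟩ := h.big hk1
  have hi2 : ∀ j ≤ k + 1, i j ≤ m := fun j hj => by
    have := chain_lt h2 (p := j) (q := k + 1) hj le_rfl
    omega
  have hval : ∀ j ≤ k + 1, 1 ≤ i j → (Q * xu P m u).coeff (i j)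
      = if r ≤ i j then t * (u * P (i j - r)).re else 0 := by
    intro j hj hj1
    rw [h.coeff_mul u (hi2 j hj), if_neg (by omega)]
    by_cases hr : r ≤ i j
    · rw [if_pos hr, if_pos hr, hzt]
      have : u * (0 - ((-t : ℝ) : ℂ) * P (i j - r)) = ((t : ℝ) : ℂ) * (u * P (i j - r)) := by
        push_cast; ring
      rw [this, Complex.re_ofReal_mul]
    · rw [if_neg hr, if_neg hr, sub_zero, mul_zero, Complex.zero_re]
  -- sign transfer
  have hsgn : ∀ j ≤ k + 1, i j - r < m ∧ (1 ≤ i j → r ≤ i j) ∧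
      0 < ε * (-1) ^ j * (xu P m u).coeff (i j - r) := by
    intro j hj
    rcases Nat.eq_zero_or_pos (i j) with h0 | h0
    · have h6 := h5 j hj
      rw [h0, h.coeff_zero u] at h6
      have h7 : ε * (-1) ^ j * (Q.coeff 0 * (xu P m u).coeff 0)
          = Q.coeff 0 * (ε * (-1) ^ j * (xu P m u).coeff 0) := by ring
      rw [h7] at h6
      rw [h0, Nat.zero_sub]
      exact ⟨h.m_pos, fun hh => by omega, (pos_iff_pos_of_mul_pos h6).mp h.q0⟩
    · have h6 := h5 j hj
      rw [hval j hj h0] at h6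
      have hr : r ≤ i j := by
        by_contra hr
        rw [if_neg hr, mul_zero] at h6
        exact lt_irrefl _ h6
      rw [if_pos hr] at h6
      have h7 : ε * (-1) ^ j * (t * (u * P (i j - r)).re)
          = t * (ε * (-1) ^ j * (u * P (i j - r)).re) := by ring
      rw [h7] at h6
      have h8 : 0 < ε * (-1) ^ j * (u * P (i j - r)).re := by
        by_contra hc
        push Not at hc
        have := mul_nonpos_of_nonneg_of_nonpos ht0 hc
        linarith
      have hlt : i j - r < m := by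
        rcases Nat.lt_or_ge (i j - r) m with h9 | h9
        · exact h9
        · exfalso
          have h10 : i j - r = m := by have := hi2 j hj; omega
          rw [h10, h.pm] at h8
          simp at h8
      refine ⟨hlt, fun _ => hr, ?_⟩
      rw [coeff_xu, if_pos hlt]
      exact h8
  refine ⟨ε, fun j => i j - r, h1, fun j hj => ?_, Nat.zero_le _, (hsgn (k + 1) le_rfl).1.le,
    fun j hj => (hsgn j hj).2.2⟩
  change i j - r < i (j + 1) - r
  have e1 := h2 j hj
  obtain ⟨_, e2, e3⟩ := hsgn j hj.le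
  obtain ⟨_, e4, e5⟩ := hsgn (j + 1) hj
  rcases Nat.eq_zero_or_pos (i j) with h0 | h0
  · rw [h0, Nat.zero_sub]
    by_contra hcon2
    have h6 : i (j + 1) - r = 0 := by omega
    rw [h6] at e5
    rw [h0, Nat.zero_sub] at e3
    rw [pow_succ] at e5
    linarith
  · have := e2 h0
    omega

lemma recurrence {ω : ℂ} (hω : ‖ω‖ = 1) {δ : ℝ} (hδ : 0 < δ) : ∃ k : ℕ, ‖ω ^ (k + 1) - 1‖ < δ := by
  obtain ⟨a, _, φ, hφ, hlim⟩ := (isCompact_closedBall (0 : ℂ) 1).tendsto_subseq
    (x := fun n : ℕ => ω ^ n) (fun n => by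
      rw [mem_closedBall_zero_iff, norm_pow, hω, one_pow])
  have hc := hlim.cauchySeq
  obtain ⟨N, hN⟩ := Metric.cauchySeq_iff'.mp hc δ hδ
  have h1 := hN (N + 1) (by omega)
  have h2 : φ N < φ (N + 1) := hφ (by omega)
  refine ⟨φ (N + 1) - φ N - 1, ?_⟩
  have e : φ (N + 1) - φ N - 1 + 1 = φ (N + 1) - φ N := by omega
  rw [e]
  rw [dist_eq_norm] at h1
  have h3 : ω ^ φ (N + 1) = ω ^ φ N * ω ^ (φ (N + 1) - φ N) := by
    rw [← pow_add]; congr 1; omega
  simp only [Function.comp_apply] at h1
  rw [h3] at h1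
  have h4 : ω ^ φ N * ω ^ (φ (N + 1) - φ N) - ω ^ φ N
      = ω ^ φ N * (ω ^ (φ (N + 1) - φ N) - 1) := by ring
  rw [h4, norm_mul, norm_pow, hω, one_pow, one_mul] at h1
  exact h1

lemma A_open {v : ℂ} {k : ℕ} (h : A P m v k) : ∀ᶠ u in 𝓝 v, A P m u k := by
  obtain ⟨ε, i, h1, h2, h3, h4, h5⟩ := h
  have hev : ∀ᶠ u in 𝓝 v, ∀ j ∈ range (k + 1), 0 < ε * (-1) ^ j * (xu P m u).coeff (i j) := by
    rw [Filter.eventually_all_finset]
    intro j hj
    have hj' : j ≤ k := Nat.lt_succ_iff.mp (mem_range.mp hj)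
    have hcont : Continuous fun u : ℂ => ε * (-1) ^ j * (xu P m u).coeff (i j) := by
      simp only [coeff_xu]
      by_cases hlt : i j < m
      · simp only [if_pos hlt]
        exact continuous_const.mul (Complex.continuous_re.comp (continuous_id.mul continuous_const))
      · simp only [if_neg hlt]
        exact continuous_const
    exact hcont.continuousAt.eventually (eventually_gt_nhds (h5 j hj'))
  filter_upwards [hev] with u hu
  exact ⟨ε, i, h1, h2, h3, h4, fun j hj => hu j (mem_range.mpr (by omega))⟩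

theorem Data.im_zero (h : Data Q s c r m z P) : z.im = 0 := by
  by_contra hz
  have hz0 : z ≠ 0 := by
    rintro rfl
    simp at hz
  have hm := h.m_pos
  have hP0 := h.P0
  -- all `P_n`, `n ≤ m`, cannot be real multiples of `P 0`
  set u₀ : ℂ := Complex.I * (starRingEnd ℂ) (P 0) with hu₀
  by_cases hrm : m < r
  · -- `z` does not enter
    set u : ℂ := (starRingEnd ℂ) (P 0) with hu
    have hx0 : (xu P m u).coeff 0 ≠ 0 := by
      rw [coeff_xu, if_pos (by omega), hu]
      have : (starRingEnd ℂ) (P 0) * P 0 = ((Complex.normSq (P 0) : ℝ) : ℂ) :=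
        Complex.normSq_eq_conj_mul_self.symm
      rw [this, Complex.ofReal_re]
      exact (Complex.normSq_pos.mpr h.P0).ne'
    obtain ⟨ε, i, h1, h2, h3, h4, h5⟩ := h.big (A_zero hx0)
    have h6 := h5 1 le_rfl
    have h7 := h2 0 (by omega)
    rw [h.coeff_mul u (by simpa using h4), if_neg (by simp only [zero_add] at h7; omega),
      if_neg (by simp only [zero_add] at h4; omega)] at h6
    simp at h6
  have hrm' : r ≤ m := not_lt.mp hrm
  have hx0 : (xu P m u₀).coeff 0 = 0 := by
    rw [coeff_xu, if_pos (by omega), hu₀, mul_assoc]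
    have : (starRingEnd ℂ) (P 0) * P 0 = ((Complex.normSq (P 0) : ℝ) : ℂ) :=
      Complex.normSq_eq_conj_mul_self.symm
    rw [this]
    simp
  have hne : ∃ n, (xu P m u₀).coeff n ≠ 0 := by
    by_contra hcon
    push Not at hcon
    -- `P n = ρ n * P 0` with real `ρ n` for `n ≤ m`
    have hρ : ∀ n ≤ m, (u₀ * P n).re = 0 := by
      intro n hn
      rcases Nat.lt_or_ge n m with h1 | h1
      · have := hcon n
        rwa [coeff_xu, if_pos h1] at this
      · have : n = m := by omega
        rw [this, h.pm, mul_zero, Complex.zero_re]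
    rcases Nat.eq_zero_or_pos r with hr | hr
    · subst hr
      have h1 := h.rec' 1
      rw [if_neg one_ne_zero, if_pos (Nat.zero_le _), Nat.sub_zero] at h1
      have h2 : ∑ x ∈ antidiagonal 1, (Q.coeff x.1 : ℂ) * P x.2
          = (Q.coeff 0 : ℂ) * P 1 + (Q.coeff 1 : ℂ) * P 0 := by
        rw [Finset.Nat.antidiagonal_succ]
        simp
      rw [h2] at h1
      -- multiply by conj (P 0)
      set w : ℂ := (starRingEnd ℂ) (P 0) * P 1 with hw
      have hwim : w.im = 0 := by
        have := hρ 1 hm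
        rw [hu₀, mul_assoc, Complex.I_mul_re] at this
        rw [hw]
        linarith
      have hN : (starRingEnd ℂ) (P 0) * P 0 = ((Complex.normSq (P 0) : ℝ) : ℂ) :=
        Complex.normSq_eq_conj_mul_self.symm
      have h3 : z * w = -((Q.coeff 0 : ℂ) * w + (Q.coeff 1 : ℂ) * ((Complex.normSq (P 0) : ℝ) : ℂ)) := by
        rw [← hN, hw]
        linear_combination ((starRingEnd ℂ) (P 0)) * h1
      have h4 := congrArg Complex.im h3
      have hwre : w = ((w.re : ℝ) : ℂ) := by
        apply Complex.ext <;> simp [hwim]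
      rw [hwre] at h4
      simp only [Complex.mul_im, Complex.ofReal_im, Complex.ofReal_re, mul_zero, zero_add,
        Complex.neg_im, Complex.add_im, zero_mul, neg_zero, add_zero] at h4
      have hw0 : w.re = 0 := (mul_eq_zero.mp h4).resolve_left hz
      rw [hwre, hw0] at h3
      simp only [Complex.ofReal_zero, mul_zero, zero_add, zero_eq_neg] at h3
      have hq1 : Q.coeff 1 = 0 := by
        have h5 := (mul_eq_zero.mp h3).resolve_right (by
          exact_mod_cast (Complex.normSq_pos.mpr hP0).ne')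
        exact_mod_cast h5
      exact coeff_one_ne h.c_ne h.fac h.pos h.card h.q0 hq1
    · have h1 := h.rec' r
      rw [if_neg (by omega), if_pos le_rfl, Nat.sub_self] at h1
      have hN : (starRingEnd ℂ) (P 0) * P 0 = ((Complex.normSq (P 0) : ℝ) : ℂ) :=
        Complex.normSq_eq_conj_mul_self.symm
      have h2 : z * ((Complex.normSq (P 0) : ℝ) : ℂ)
          = -∑ x ∈ antidiagonal r, (Q.coeff x.1 : ℂ) * ((starRingEnd ℂ) (P 0) * P x.2) := by
        have h3 : ∑ x ∈ antidiagonal r, (Q.coeff x.1 : ℂ) * ((starRingEnd ℂ) (P 0) * P x.2)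
            = (starRingEnd ℂ) (P 0) * ∑ x ∈ antidiagonal r, (Q.coeff x.1 : ℂ) * P x.2 := by
          rw [Finset.mul_sum]
          refine Finset.sum_congr rfl fun x _ => ?_
          ring
        rw [h3, h1, ← hN]
        ring
      have h4 := congrArg Complex.im h2
      rw [Complex.neg_im, Complex.im_sum] at h4
      have h5 : ∑ x ∈ antidiagonal r, ((Q.coeff x.1 : ℂ) * ((starRingEnd ℂ) (P 0) * P x.2)).im
          = 0 := by
        refine Finset.sum_eq_zero fun x hx => ?_
        have hx' : x.1 + x.2 = r := HasAntidiagonal.mem_antidiagonal.mp hx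
        have h6 := hρ x.2 (by omega)
        rw [hu₀, mul_assoc, Complex.I_mul_re] at h6
        rw [Complex.im_ofReal_mul]
        have h7 : ((starRingEnd ℂ) (P 0) * P x.2).im = 0 := by linarith
        rw [h7, mul_zero]
      rw [h5, neg_zero, Complex.mul_im, Complex.ofReal_im, Complex.ofReal_re, mul_zero,
        zero_add] at h4
      rcases mul_eq_zero.mp h4 with h8 | h8
      · exact hz h8
      · exact (Complex.normSq_pos.mpr hP0).ne' h8
  obtain ⟨n, hn⟩ := hne
  obtain ⟨k, hk1, hk2⟩ := exists_max (A_zero hn)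
  -- the rotation
  have hzn : 0 < ‖z‖ := norm_pos_iff.mpr hz0
  set ω : ℂ := z / ‖z‖ with hω
  have hωn : ‖ω‖ = 1 := by
    rw [hω, norm_div, Complex.norm_real, norm_norm, div_self hzn.ne']
  have hzω : z = (‖z‖ : ℝ) * ω := by
    rw [hω]
    have : ((‖z‖ : ℝ) : ℂ) ≠ 0 := by exact_mod_cast hzn.ne'
    field_simp
  have hω0 : ω ≠ 0 := by
    rw [← norm_pos_iff, hωn]
    exact one_pos
  have hstep : ∀ (u : ℂ) (k : ℕ), A P m u k → A P m (u * ω) k := fun u k hA =>
    h.transfer hzn.le hzω (h.big hA).drop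
  have hstrict : A P m (u₀ * ω) (k + 1) := by
    have h1 := h.big hk1
    have h2 : (Q * xu P m u₀).coeff 0 = 0 := by
      rw [h.coeff_zero, hx0, mul_zero]
    exact h.transfer hzn.le hzω (h1.drop_zero h2)
  have hopen := A_open hstrict
  obtain ⟨δ, hδ, hball⟩ := Metric.eventually_nhds_iff_ball.mp hopen
  have hu₀n : 0 < ‖u₀‖ := by
    rw [norm_pos_iff, hu₀]
    exact mul_ne_zero Complex.I_ne_zero ((_root_.map_ne_zero _).mpr hP0)
  obtain ⟨j, hj⟩ := recurrence hωn (δ := δ / ‖u₀‖) (by positivity)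
  -- the point `u₀ ω^{-j}`
  have hmem : u₀ * (ω ^ j)⁻¹ ∈ Metric.ball (u₀ * ω) δ := by
    rw [Metric.mem_ball, dist_comm, dist_eq_norm]
    have e : u₀ * ω - u₀ * (ω ^ j)⁻¹ = u₀ * (ω ^ j)⁻¹ * (ω ^ (j + 1) - 1) := by
      rw [pow_succ]
      have := pow_ne_zero j hω0
      field_simp
    rw [e, norm_mul, norm_mul, norm_inv, norm_pow, hωn, one_pow, inv_one, mul_one]
    rw [lt_div_iff₀ hu₀n] at hj
    linarith
  have h1 := hball _ hmem
  have h2 : ∀ i : ℕ, A P m (u₀ * (ω ^ j)⁻¹ * ω ^ i) (k + 1) := by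
    intro i
    induction i with
    | zero => simpa using h1
    | succ i ih =>
      have := hstep _ _ ih
      rwa [mul_assoc, ← pow_succ] at this
  have h3 := h2 j
  rw [mul_assoc, inv_mul_cancel₀ (pow_ne_zero j hω0), mul_one] at h3
  exact hk2 h3

theorem Data.main (h : Data Q s c r m z P) : z.im = 0 ∧ 0 < z.re :=
  ⟨h.im_zero, h.real_pos h.im_zero⟩

end Pool.Agent.X116.SignCore
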