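import Mathlib

/-!
# Sums for the Legendre expansion of `(1 - x) ^ n`
-/

open Polynomial Filter Topology Finset

namespace Pool.Agent.X116.Leg

/-- `k (k + 1)` -/
noncomputable def mm (k : ℕ) : ℝ := (k : ℝ) * (k + 1)

/-- `∏_{i<j} (m - i (i + 1))` as a polynomial in `m` -/
noncomputable def ppi (j : ℕ) : ℝ[X] := ∏ i ∈ range j, (X - C (mm i))

/-- weights -/
noncomputable def wt (n k : ℕ) : ℝ := (-1) ^ k / ((n - k).factorial * (n + k + 1).factorial)

/-- odd functional -/
noncomputable def S' (n : ℕ) (g : ℝ[X]) : ℝ := ∑ k ∈ range (n + 1), wt n k * g.eval (mm k)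

/-- even functional -/
noncomputable def S (n : ℕ) (g : ℝ[X]) : ℝ :=
  ∑ k ∈ range (n + 1), wt n k * (2 * k + 1) * g.eval (mm k)

lemma fac_ne (n : ℕ) : (n.factorial : ℝ) ≠ 0 := Nat.cast_ne_zero.mpr n.factorial_ne_zero

lemma wt_step {n k : ℕ} (hk : k ≤ n) :
    wt (n + 1) k * (((n : ℝ) + 1) * (n + 2) - mm k) = wt n k := by
  obtain ⟨r, rfl⟩ := Nat.exists_eq_add_of_le hk
  unfold wt mm
  have e1 : k + r + 1 - k = r + 1 := by omega
  have e2 : k + r - k = r := by omega
  have e3 : k + r + 1 + k + 1 = (k + r + k + 1) + 1 := by ring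
  rw [e1, e2, e3, Nat.factorial_succ, Nat.factorial_succ (k + r + k + 1)]
  have h1 := fac_ne r
  have h2 := fac_ne (k + r + k + 1)
  have h3 : ((r : ℝ) + 1) ≠ 0 := by positivity
  have h4 : ((k : ℝ) + r + k + 1 + 1) ≠ 0 := by positivity
  push_cast
  field_simp
  ring

lemma S'_mul_X (n : ℕ) (g : ℝ[X]) :
    S' (n + 1) (X * g) = ((n : ℝ) + 1) * (n + 2) * S' (n + 1) g - S' n g := by
  unfold S'
  rw [Finset.mul_sum, Finset.sum_range_succ _ (n + 1), Finset.sum_range_succ (fun k =>
    ((n : ℝ) + 1) * (n + 2) * (wt (n + 1) k * eval (mm k) g)) (n + 1)]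
  have h1 : ∀ k ∈ range (n + 1), wt (n + 1) k * eval (mm k) (X * g)
      = ((n : ℝ) + 1) * (n + 2) * (wt (n + 1) k * eval (mm k) g) - wt n k * eval (mm k) g := by
    intro k hk
    have := wt_step (Nat.lt_succ_iff.mp (Finset.mem_range.mp hk))
    rw [eval_mul, eval_X, ← this]
    ring
  rw [Finset.sum_congr rfl h1, Finset.sum_sub_distrib]
  have h2 : mm (n + 1) = ((n : ℝ) + 1) * (n + 2) := by
    unfold mm; push_cast; ring
  rw [eval_mul, eval_X, h2]
  ring

lemma S_mul_X (n : ℕ) (g : ℝ[X]) :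
    S (n + 1) (X * g) = ((n : ℝ) + 1) * (n + 2) * S (n + 1) g - S n g := by
  unfold S
  rw [Finset.mul_sum, Finset.sum_range_succ _ (n + 1), Finset.sum_range_succ (fun k : ℕ =>
    ((n : ℝ) + 1) * (n + 2) * (wt (n + 1) k * (2 * (k : ℝ) + 1) * eval (mm k) g)) (n + 1)]
  have h1 : ∀ k ∈ range (n + 1), wt (n + 1) k * (2 * (k : ℝ) + 1) * eval (mm k) (X * g)
      = ((n : ℝ) + 1) * (n + 2) * (wt (n + 1) k * (2 * (k : ℝ) + 1) * eval (mm k) g)
        - wt n k * (2 * (k : ℝ) + 1) * eval (mm k) g := by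
    intro k hk
    have := wt_step (Nat.lt_succ_iff.mp (Finset.mem_range.mp hk))
    rw [eval_mul, eval_X, ← this]
    ring
  rw [Finset.sum_congr rfl h1, Finset.sum_sub_distrib]
  have h2 : mm (n + 1) = ((n : ℝ) + 1) * (n + 2) := by
    unfold mm; push_cast; ring
  rw [eval_mul, eval_X, h2]
  push_cast
  ring

lemma S_add (n : ℕ) (g h : ℝ[X]) : S n (g + h) = S n g + S n h := by
  unfold S
  rw [← Finset.sum_add_distrib]
  exact Finset.sum_congr rfl fun k _ => by rw [eval_add]; ring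

lemma S'_add (n : ℕ) (g h : ℝ[X]) : S' n (g + h) = S' n g + S' n h := by
  unfold S'
  rw [← Finset.sum_add_distrib]
  exact Finset.sum_congr rfl fun k _ => by rw [eval_add]; ring

lemma S_C_mul (n : ℕ) (a : ℝ) (g : ℝ[X]) : S n (C a * g) = a * S n g := by
  unfold S
  rw [Finset.mul_sum]
  exact Finset.sum_congr rfl fun k _ => by rw [eval_mul, eval_C]; ring

lemma S'_C_mul (n : ℕ) (a : ℝ) (g : ℝ[X]) : S' n (C a * g) = a * S' n g := by
  unfold S'
  rw [Finset.mul_sum]
  exact Finset.sum_congr rfl fun k _ => by rw [eval_mul, eval_C]; ring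

/-- partial sums for the even functional -/
lemma S_partial (n K : ℕ) (hK : K < n) :
    ∑ k ∈ range (K + 1), wt n k * (2 * k + 1)
      = (-1) ^ K * (K + 1) / (n * ((n - K - 1).factorial * (n + K + 1).factorial)) := by
  induction K with
  | zero =>
    obtain ⟨r, rfl⟩ : ∃ r, n = r + 1 := ⟨n - 1, by omega⟩
    unfold wt
    simp only [Finset.sum_range_succ, Finset.sum_range_zero]
    have e1 : r + 1 - 0 = r + 1 := by omega
    have e2 : r + 1 - 1 = r := by omega
    rw [e1, e2, Nat.factorial_succ r]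
    have h1 := fac_ne r
    have h2 := fac_ne (r + 1 + 0 + 1)
    have h3 : ((r : ℝ) + 1) ≠ 0 := by positivity
    push_cast
    field_simp
    ring
  | succ K ih =>
    obtain ⟨r, rfl⟩ : ∃ r, n = K + 1 + 1 + r := ⟨n - (K + 2), by omega⟩
    rw [Finset.sum_range_succ, ih (by omega)]
    unfold wt
    have e1 : K + 1 + 1 + r - K - 1 = r + 1 := by omega
    have e2 : K + 1 + 1 + r - (K + 1) = r + 1 := by omega
    have e3 : K + 1 + 1 + r - (K + 1) - 1 = r := by omega
    have e4 : K + 1 + 1 + r + (K + 1) + 1 = (K + 1 + 1 + r + K + 1) + 1 := by ring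
    rw [e3, e1, e2, e4, Nat.factorial_succ r, Nat.factorial_succ (K + 1 + 1 + r + K + 1)]
    have h1 := fac_ne r
    have h2 := fac_ne (K + 1 + 1 + r + K + 1)
    have h3 : ((r : ℝ) + 1) ≠ 0 := by positivity
    have h4 : ((K : ℝ) + 1 + 1 + r + K + 1 + 1) ≠ 0 := by positivity
    have h5 : ((K : ℝ) + 1 + 1 + r) ≠ 0 := by positivity
    push_cast
    rw [pow_succ]
    field_simp
    ring

lemma S_one (n : ℕ) (hn : 1 ≤ n) : S n 1 = 0 := by
  obtain ⟨r, rfl⟩ : ∃ r, n = r + 1 := ⟨n - 1, by omega⟩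
  unfold S
  simp only [eval_one, mul_one]
  rw [Finset.sum_range_succ, S_partial (r + 1) r (by omega)]
  unfold wt
  have e1 : r + 1 - r - 1 = 0 := by omega
  have e2 : r + 1 - (r + 1) = 0 := by omega
  have e3 : r + 1 + (r + 1) + 1 = (r + 1 + r + 1) + 1 := by ring
  rw [e1, e2, e3, Nat.factorial_succ (r + 1 + r + 1)]
  have h2 := fac_ne (r + 1 + r + 1)
  have h3 : ((r : ℝ) + 1) ≠ 0 := by positivity
  have h4 : ((r : ℝ) + 1 + r + 1 + 1) ≠ 0 := by positivity
  rw [pow_succ]
  push_cast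
  field_simp
  ring

/-- The even functional kills polynomials of degree `< n`. -/
lemma S_eq_zero (e : ℕ) : ∀ g : ℝ[X], g.natDegree ≤ e → ∀ n, e < n → S n g = 0 := by
  induction e with
  | zero =>
    intro g hg n hn
    rw [eq_C_of_natDegree_le_zero hg, ← mul_one (C (g.coeff 0)), S_C_mul, S_one n hn, mul_zero]
  | succ e ih =>
    intro g hg n hn
    obtain ⟨r, rfl⟩ : ∃ r, n = r + 1 := ⟨n - 1, by omega⟩
    have h1 : X * divX g + C (g.coeff 0) = g := X_mul_divX_add g
    have h2 : (divX g).natDegree ≤ e := by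
      rw [natDegree_divX_eq_natDegree_tsub_one]
      omega
    rw [← h1, S_add, S_mul_X, ih _ h2 _ (by omega), ih _ h2 _ (by omega),
      ← mul_one (C (g.coeff 0)), S_C_mul, S_one _ (by omega)]
    ring

/-- partial sums for the odd functional -/
lemma S'_partial (n K : ℕ) (hK : K ≤ n) :
    ∑ k ∈ range K, wt n k
      = 1 / ((n.factorial : ℝ) ^ 2 * (2 * n + 1))
        - (-1) ^ K / ((2 * n + 1) * ((n - K).factorial * (n + K).factorial)) := by
  induction K with
  | zero =>
    simp only [Finset.range_zero, Finset.sum_empty, pow_zero, Nat.sub_zero, Nat.add_zero]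
    have h1 := fac_ne n
    have h2 : (2 * (n : ℝ) + 1) ≠ 0 := by positivity
    field_simp
    ring
  | succ K ih =>
    obtain ⟨r, rfl⟩ : ∃ r, n = K + 1 + r := ⟨n - (K + 1), by omega⟩
    rw [Finset.sum_range_succ, ih (by omega)]
    unfold wt
    have e1 : K + 1 + r - K = r + 1 := by omega
    have e2 : K + 1 + r - (K + 1) = r := by omega
    have e4 : K + 1 + r + (K + 1) = (K + 1 + r + K) + 1 := by ring
    rw [e1, e2, e4, Nat.factorial_succ r, Nat.factorial_succ (K + 1 + r + K)]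
    have h1 := fac_ne r
    have h2 := fac_ne (K + 1 + r + K)
    have h3 : ((r : ℝ) + 1) ≠ 0 := by positivity
    have h4 : ((K : ℝ) + 1 + r + K + 1) ≠ 0 := by positivity
    have h5 : (2 * ((K : ℝ) + 1 + r) + 1) ≠ 0 := by positivity
    have h6 := fac_ne (K + 1 + r)
    push_cast
    rw [pow_succ]
    field_simp
    ring

/-- the normalising constant -/
noncomputable def cc (n : ℕ) : ℝ := 1 / ((n.factorial : ℝ) ^ 2 * (2 * n + 1))

lemma cc_pos (n : ℕ) : 0 < cc n := by unfold cc; positivity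

lemma S'_one (n : ℕ) : S' n 1 = cc n := by
  unfold S'
  simp only [eval_one, mul_one]
  rw [Finset.sum_range_succ, S'_partial n n le_rfl]
  unfold wt cc
  have e1 : n - n = 0 := by omega
  rw [e1, Nat.factorial_succ (n + n)]
  have h1 := fac_ne (n + n)
  have h2 : (2 * (n : ℝ) + 1) ≠ 0 := by positivity
  have h3 : ((n : ℝ) + n + 1) ≠ 0 := by positivity
  push_cast
  rw [show (2 * (n : ℝ) + 1) = (n : ℝ) + n + 1 by ring]
  field_simp
  ring

/-- `(-1)^j j! (1/2)_j` -/
noncomputable def ll (j : ℕ) : ℝ := ∏ i ∈ range j, (-(((i : ℝ) + 1) * (i + 1 / 2)))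

/-- correction factors -/
noncomputable def ww (n j : ℕ) : ℝ := ∏ i ∈ range j, ((2 * (n : ℝ) - 2 * i) / (2 * n - 1 - 2 * i))

lemma half_ne (n i : ℕ) : (2 * (n : ℝ) - 1 - 2 * i) ≠ 0 := by
  intro h
  have h1 : (2 * (n : ℤ) - 1 - 2 * i : ℤ) = 0 := by
    exact_mod_cast h
  omega

lemma ww_succ (n j : ℕ) : ww n (j + 1) * (2 * n - 1 - 2 * j) = ww n j * (2 * (n : ℝ) - 2 * j) := by
  have h := half_ne n j
  unfold ww
  rw [Finset.prod_range_succ, mul_assoc, div_mul_cancel₀ _ h]

lemma ww_succ_left (n j : ℕ) :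
    ww n j * (((n : ℝ) + 1) * (2 * n + 1 - 2 * j))
      = ww (n + 1) j * (((n : ℝ) + 1 - j) * (2 * n + 1)) := by
  induction j with
  | zero =>
    simp only [ww, Finset.range_zero, Finset.prod_empty]
    push_cast
    ring
  | succ j ih =>
    have e1 := ww_succ n j
    have e2 := ww_succ (n + 1) j
    have h1 := half_ne n j
    have h2 := half_ne (n + 1) j
    push_cast at h2 e2
    have h3 : (2 * (n : ℝ) + 1 - 2 * j) ≠ 0 := by
      intro h; apply h2; linarith
    have h4 : 2 * ((n : ℝ) + 1) - 1 - 2 * j = 2 * n + 1 - 2 * j := by ring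
    rw [h4] at e2
    apply mul_left_cancel₀ (mul_ne_zero h1 h3)
    push_cast
    linear_combination ((n + 1) * (2 * n - 1 - 2 * j) * (2 * n + 1 - 2 * j)) * e1
      + (2 * (n : ℝ) - 2 * j) * (2 * n - 1 - 2 * j) * ih
      - ((n : ℝ) - j) * (2 * n + 1) * (2 * n - 1 - 2 * j) * e2

lemma ppi_succ (j : ℕ) : ppi (j + 1) = X * ppi j - C (mm j) * ppi j := by
  unfold ppi
  rw [Finset.prod_range_succ]
  ring

lemma cc_succ (n : ℕ) : cc n * (2 * n + 1) = cc (n + 1) * (((n : ℝ) + 1) ^ 2 * (2 * n + 3)) := by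
  unfold cc
  rw [Nat.factorial_succ]
  have h1 := fac_ne n
  have h2 : (2 * (n : ℝ) + 1) ≠ 0 := by positivity
  have h3 : ((n : ℝ) + 1) ≠ 0 := by positivity
  have h4 : (2 * ((n : ℝ) + 1) + 1) ≠ 0 := by positivity
  push_cast
  field_simp
  ring

/-- exact values of the odd functional -/
lemma S'_ppi (j : ℕ) : ∀ n, S' n (ppi j) = cc n * (ll j * ww n j) := by
  induction j with
  | zero =>
    intro n
    have : ppi 0 = 1 := by simp [ppi]
    rw [this, S'_one]
    simp [ll, ww]
  | succ j ih =>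
    intro n
    have e2 : ll (j + 1) = ll j * (-(((j : ℝ) + 1) * (j + 1 / 2))) := by
      unfold ll; rw [Finset.prod_range_succ]
    rcases n with _ | n
    · -- `n = 0`
      have h1 : S' 0 (ppi (j + 1)) = 0 := by
        unfold S'
        simp only [zero_add, Finset.sum_range_one]
        have : (ppi (j + 1)).eval (mm 0) = 0 := by
          unfold ppi
          rw [eval_prod]
          exact Finset.prod_eq_zero (Finset.mem_range.mpr (Nat.succ_pos j)) (by simp)
        rw [this, mul_zero]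
      have h2 : ww 0 (j + 1) = 0 := by
        unfold ww
        exact Finset.prod_eq_zero (Finset.mem_range.mpr (Nat.succ_pos j)) (by simp)
      rw [h1, h2]
      ring
    · rw [ppi_succ, sub_eq_add_neg, S'_add, ← neg_mul, ← C_neg, S'_C_mul, S'_mul_X, ih, ih, e2]
      have e1 := ww_succ (n + 1) j
      have h2 := half_ne (n + 1) j
      push_cast at h2 e1
      have h4 : 2 * ((n : ℝ) + 1) - 1 - 2 * j = 2 * n + 1 - 2 * j := by ring
      rw [h4] at e1 h2
      have h5 : ((n : ℝ) + 1) ≠ 0 := by positivity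
      have h6 : (2 * (n : ℝ) + 1) ≠ 0 := by positivity
      have h7 := cc_succ n
      have h8 := ww_succ_left n j
      -- `cc n * ww n j` in terms of `cc (n+1) * ww (n+1) j`
      have h9 : cc n * ww n j * (2 * n + 1 - 2 * j)
          = cc (n + 1) * ww (n + 1) j * (((n : ℝ) + 1) * (2 * n + 3) * (n + 1 - j)) := by
        apply mul_left_cancel₀ (mul_ne_zero h5 h6)
        linear_combination (cc n * (2 * n + 1)) * h8
          + (ww (n + 1) j * (((n : ℝ) + 1 - j) * (2 * n + 1))) * h7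
      unfold mm
      apply mul_left_cancel₀ h2
      linear_combination (-(ll j)) * h9
        + (cc (n + 1) * ll j * (((j : ℝ) + 1) * (j + 1 / 2))) * e1

lemma ww_tendsto (j : ℕ) : Tendsto (fun n => ww n j) atTop (𝓝 1) := by
  have h : ∀ i : ℕ, Tendsto (fun n : ℕ => (2 * (n : ℝ) - 2 * i) / (2 * n - 1 - 2 * i)) atTop
      (𝓝 1) := by
    intro i
    have h1 : Tendsto (fun n : ℕ => 2 * (n : ℝ) - 1 - 2 * i) atTop atTop := by
      have := tendsto_atTop_add_const_right atTop (-1 - 2 * (i : ℝ))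
        ((tendsto_natCast_atTop_atTop (R := ℝ)).const_mul_atTop (zero_lt_two))
      refine this.congr fun n => ?_
      ring
    have h2 : Tendsto (fun n : ℕ => 1 + (2 * (n : ℝ) - 1 - 2 * i)⁻¹) atTop (𝓝 1) := by
      simpa using (tendsto_const_nhds (x := (1 : ℝ))).add (tendsto_inv_atTop_zero.comp h1)
    refine h2.congr fun n => ?_
    have := half_ne n i
    rw [eq_div_iff this, add_mul, inv_mul_cancel₀ this]
    ring
  have := tendsto_finsetProd (range j) (fun i _ => h i)
  simpa [ww] using this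

/-- the operator which corresponds to multiplication by `m` -/
noncomputable def MM (ρ : ℝ[X]) : ℝ[X] :=
  X * (X + 1) * ρ - (X + 1) * (X + C (1 / 2)) * ρ.comp (X + 1)

lemma ll_succ (j : ℕ) : ll (j + 1) = ll j * (-(((j : ℝ) + 1) * (j + 1 / 2))) := by
  unfold ll; rw [Finset.prod_range_succ]

lemma MM_coeff (ρ : ℝ[X]) (k : ℕ) :
    (MM ρ).coeff (k + 2) = ρ.coeff k + ρ.coeff (k + 1)
      - ((ρ.comp (X + 1)).coeff k + 3 / 2 * (ρ.comp (X + 1)).coeff (k + 1)
        + 1 / 2 * (ρ.comp (X + 1)).coeff (k + 2)) := by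
  set σ := ρ.comp (X + 1) with hσ
  have h1 : MM ρ = (X ^ 2 * ρ + X * ρ) - (X ^ 2 * σ + C (3 / 2) * (X * σ) + C (1 / 2) * σ) := by
    unfold MM
    rw [← hσ]
    have : (C (3 / 2) : ℝ[X]) = 1 + C (1 / 2) := by
      rw [← C_1, ← C_add]; norm_num
    rw [this]
    ring
  rw [h1, coeff_sub, coeff_add, coeff_add, coeff_add, coeff_C_mul, coeff_C_mul, coeff_X_pow_mul,
    coeff_X_pow_mul, show k + 2 = (k + 1) + 1 by ring, coeff_X_mul, coeff_X_mul]

lemma comp_coeff_top (ρ : ℝ[X]) {e : ℕ} (he : ρ.natDegree ≤ e + 1) :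
    (ρ.comp (X + 1)).coeff e = ρ.coeff e + (e + 1) * ρ.coeff (e + 1) ∧
    (ρ.comp (X + 1)).coeff (e + 1) = ρ.coeff (e + 1) := by
  have h1 : ρ.comp (X + 1) = taylor 1 ρ := by
    rw [taylor_apply, C_1]
  rw [h1, taylor_coeff, taylor_coeff]
  have h2 : (hasseDeriv e ρ).natDegree < 2 := by
    have := natDegree_hasseDeriv_le ρ e
    omega
  have h3 : (hasseDeriv (e + 1) ρ).natDegree < 1 := by
    have := natDegree_hasseDeriv_le ρ (e + 1)
    omega
  rw [eval_eq_sum_range' h2, eval_eq_sum_range' h3]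
  simp only [Finset.sum_range_succ, Finset.sum_range_zero, hasseDeriv_coeff, one_pow, mul_one,
    zero_add, Nat.choose_self, Nat.cast_one, one_mul]
  constructor
  · rw [show 1 + e = e + 1 by ring, Nat.choose_succ_self_right]
    push_cast
    ring
  · trivial

lemma MM_natDegree (ρ : ℝ[X]) (hρ : ρ ≠ 0) : (MM ρ).natDegree = ρ.natDegree + 1 ∧ MM ρ ≠ 0 := by
  have hlc := leadingCoeff_ne_zero.mpr hρ
  have hcomp : (ρ.comp (X + 1)).natDegree ≤ ρ.natDegree := by
    have h1 : ρ.comp (X + 1) = taylor 1 ρ := by rw [taylor_apply, C_1]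
    rw [h1, natDegree_taylor]
  -- leading coefficient
  have htop : (MM ρ).coeff (ρ.natDegree + 1) = -((ρ.natDegree : ℝ) + 1 / 2) * ρ.leadingCoeff := by
    rcases he : ρ.natDegree with _ | e
    · have h1 : ρ = C (ρ.coeff 0) := eq_C_of_natDegree_eq_zero he
      have h2 : MM ρ = C (-(1 / 2) * ρ.coeff 0) * X + C (-(1 / 2) * ρ.coeff 0) := by
        unfold MM
        rw [h1]
        simp only [C_comp, coeff_C_zero, C_mul, C_neg]
        have h3 : (C (1 / 2) : ℝ[X]) + C (1 / 2) = 1 := by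
          rw [← C_add]; norm_num
        linear_combination ((X + 1) * C (ρ.coeff 0) * X) * (0 : ℝ[X]) * h3
      rw [h2]
      simp [leadingCoeff, he]
    · obtain ⟨h1, h2⟩ := comp_coeff_top ρ (e := e) he.le
      rw [show e + 1 + 1 = e + 2 by ring, MM_coeff, h1, h2]
      have h3 : (ρ.comp (X + 1)).coeff (e + 2) = 0 := by
        apply coeff_eq_zero_of_natDegree_lt
        omega
      rw [h3, leadingCoeff, he]
      push_cast
      ring
  have hne : (MM ρ).coeff (ρ.natDegree + 1) ≠ 0 := by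
    rw [htop]
    apply mul_ne_zero _ hlc
    have : (0 : ℝ) ≤ ρ.natDegree := Nat.cast_nonneg _
    intro h
    linarith
  have hle : (MM ρ).natDegree ≤ ρ.natDegree + 1 := by
    rw [natDegree_le_iff_coeff_eq_zero]
    intro k hk
    obtain ⟨i, rfl⟩ : ∃ i, k = i + 2 := ⟨k - 2, by omega⟩
    rw [MM_coeff]
    have h1 : ρ.coeff (i + 1) = 0 := coeff_eq_zero_of_natDegree_lt (by omega)
    have h2 : (ρ.comp (X + 1)).coeff (i + 1) = 0 := coeff_eq_zero_of_natDegree_lt (by omega)
    have h3 : (ρ.comp (X + 1)).coeff (i + 2) = 0 := coeff_eq_zero_of_natDegree_lt (by omega)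
    have h4 : (ρ.comp (X + 1)).coeff i = ρ.coeff i := by
      obtain ⟨h5, -⟩ := comp_coeff_top ρ (e := i) (by omega)
      rw [h5, h1]
      ring
    rw [h1, h2, h3, h4]
    ring
  refine ⟨le_antisymm hle (le_natDegree_of_ne_zero hne), ?_⟩
  intro h
  rw [h, coeff_zero] at hne
  exact hne rfl

/-- The limit of the normalised odd functional on `g * ppi j`. -/
lemma exists_rho (e : ℕ) : ∀ g : ℝ[X], g ≠ 0 → g.natDegree = e → ∃ ρ : ℝ[X], ρ ≠ 0 ∧
    ρ.natDegree = e ∧ ∀ j : ℕ, Tendsto (fun n => S' n (g * ppi j) / cc n) atTop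
      (𝓝 (ρ.eval (j : ℝ) * ll j)) := by
  have hbase : ∀ (a : ℝ) (j : ℕ), Tendsto (fun n => S' n (C a * ppi j) / cc n) atTop
      (𝓝 (a * ll j)) := by
    intro a j
    have h1 := ((ww_tendsto j).const_mul (ll j)).const_mul a
    rw [mul_one] at h1
    refine h1.congr fun n => ?_
    have := (cc_pos n).ne'
    rw [S'_C_mul, S'_ppi]
    field_simp
  induction e with
  | zero =>
    intro g hg he
    refine ⟨C (g.coeff 0), ?_, natDegree_C _, fun j => ?_⟩
    · rw [← eq_C_of_natDegree_eq_zero he]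
      exact hg
    · have h1 := hbase (g.coeff 0) j
      rw [← eq_C_of_natDegree_eq_zero he] at h1
      rw [eval_C]
      exact h1
  | succ e ih =>
    intro g hg he
    have h1 : X * divX g + C (g.coeff 0) = g := X_mul_divX_add g
    have h2 : (divX g).natDegree = e := by
      rw [natDegree_divX_eq_natDegree_tsub_one]
      omega
    have h3 : divX g ≠ 0 := by
      intro h
      rw [h, mul_zero, zero_add] at h1
      rw [← h1, natDegree_C] at he
      omega
    obtain ⟨ρ, hρ0, hρe, hρ⟩ := ih (divX g) h3 h2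
    obtain ⟨hM1, hM2⟩ := MM_natDegree ρ hρ0
    have hdeg : (MM ρ + C (g.coeff 0)).natDegree = e + 1 := by
      rw [natDegree_add_C, hM1, hρe]
    refine ⟨MM ρ + C (g.coeff 0), ?_, hdeg, fun j => ?_⟩
    · intro h
      rw [h, natDegree_zero] at hdeg
      omega
    · -- `X * g' * ppi j = g' * ppi (j+1) + mm j * g' * ppi j`
      have h4 := (hρ (j + 1)).add (((hρ j).const_mul (mm j)).add (hbase (g.coeff 0) j))
      have h5 : (MM ρ + C (g.coeff 0)).eval (j : ℝ) * ll j
          = ρ.eval ((j + 1 : ℕ) : ℝ) * ll (j + 1) + (mm j * (ρ.eval (j : ℝ) * ll j)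
            + g.coeff 0 * ll j) := by
        rw [ll_succ]
        unfold MM mm
        simp only [eval_add, eval_sub, eval_mul, eval_X, eval_one, eval_C, eval_comp]
        push_cast
        ring
      rw [h5]
      refine h4.congr fun n => ?_
      have hc := (cc_pos n).ne'
      have h6 : g * ppi j = divX g * ppi (j + 1) + (C (mm j) * (divX g * ppi j)
          + C (g.coeff 0) * ppi j) := by
        conv_lhs => rw [← h1]
        rw [ppi_succ]
        ring
      rw [h6, S'_add, S'_add, S'_C_mul n (mm j)]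
      field_simp

end Pool.Agent.X116.Leg
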