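import Mathlib
import Pool.Agent.X116.Hyp
import Pool.Agent.X116.Leg

/-!
# Legendre multiplier sequences interpolated by polynomials
-/

open Polynomial Filter Topology Finset

namespace Pool.Agent.X116.Leg

/-- shifted Legendre polynomials with real coefficients -/
noncomputable def shL (k : ℕ) : ℝ[X] := (shiftedLegendre k).map (Int.castRingHom ℝ)

lemma ppi_eval (j k : ℕ) :
    (ppi j).eval (mm k) = ((j.factorial : ℝ)) ^ 2 * (k.choose j * (k + j).choose k) := by
  induction j with
  | zero => simp [ppi]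
  | succ j ih =>
    have h1 : (ppi (j + 1)).eval (mm k) = (ppi j).eval (mm k) * (mm k - mm j) := by
      rw [ppi_succ]
      simp only [eval_sub, eval_mul, eval_X, eval_C]
      ring
    rw [h1, ih, Nat.factorial_succ]
    have h2 : (k.choose (j + 1) : ℝ) * (j + 1) = k.choose j * (k - j) := by
      have := Nat.choose_succ_right_eq k j
      rcases le_or_gt j k with h | h
      · have h3 : ((k - j : ℕ) : ℝ) = k - j := Nat.cast_sub h
        rw [← h3]
        exact_mod_cast this
      · rw [Nat.choose_eq_zero_of_lt h, Nat.choose_eq_zero_of_lt (by omega)]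
        simp
    have h3 : ((k + (j + 1)).choose k : ℝ) * (j + 1) = (k + j).choose k * (k + j + 1) := by
      have h5 := Nat.choose_mul_succ_eq (k + j) k
      have h6 : k + j + 1 - k = j + 1 := by omega
      rw [h6] at h5
      have h7 : ((k + j).choose k : ℝ) * (((k + j : ℕ) : ℝ) + 1)
          = ((k + j + 1).choose k : ℝ) * ((j : ℝ) + 1) := by exact_mod_cast h5
      rw [show k + (j + 1) = k + j + 1 by ring, ← h7]
      push_cast
      ring
    have h4 : mm k - mm j = (k - j) * (k + j + 1) := by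
      unfold mm; ring
    rw [h4]
    push_cast
    linear_combination (-((j.factorial : ℝ) ^ 2 * ((k + j).choose k * (k + j + 1)))) * h2
      - ((j.factorial : ℝ) ^ 2 * (j + 1) * (k.choose (j + 1))) * h3

lemma shL_coeff (k j : ℕ) :
    (shL k).coeff j = (-1) ^ j / ((j.factorial : ℝ)) ^ 2 * (ppi j).eval (mm k) := by
  unfold shL
  rw [coeff_map, coeff_shiftedLegendre, ppi_eval]
  have := fac_ne j
  push_cast
  simp only [eq_intCast, Int.cast_mul, Int.cast_pow, Int.cast_neg, Int.cast_one, Int.cast_natCast]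
  field_simp

/-- the transformed polynomial -/
noncomputable def FF (n : ℕ) (γ : ℕ → ℝ) : ℝ[X] :=
  ∑ k ∈ range (n + 1), C (wt n k * (2 * k + 1) * γ k) * shL k

lemma FF_coeff (n : ℕ) (γ : ℕ → ℝ) (j : ℕ) :
    (FF n γ).coeff j = (-1) ^ j / ((j.factorial : ℝ)) ^ 2
      * ∑ k ∈ range (n + 1), wt n k * (2 * k + 1) * γ k * (ppi j).eval (mm k) := by
  unfold FF
  rw [finsetSum_coeff, Finset.mul_sum]
  refine Finset.sum_congr rfl fun k _ => ?_
  rw [coeff_C_mul, shL_coeff]
  ring

lemma ppi_natDegree (j : ℕ) : (ppi j).natDegree = j := by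
  unfold ppi
  rw [natDegree_prod_of_monic _ _ (fun i _ => monic_X_sub_C _)]
  simp

lemma ppi_ne_zero (j : ℕ) : ppi j ≠ 0 := by
  unfold ppi
  exact Finset.prod_ne_zero_iff.mpr fun i _ => X_sub_C_ne_zero _

/-- the expansion of `X ^ n` -/
lemma FF_one (n : ℕ) : FF n (fun _ => 1) = C (1 / ((n.factorial : ℝ)) ^ 2) * X ^ n := by
  ext j
  rw [FF_coeff, coeff_C_mul, coeff_X_pow]
  have hS : ∑ k ∈ range (n + 1), wt n k * (2 * (k : ℝ) + 1) * 1 * (ppi j).eval (mm k)
      = S n (ppi j) := by
    unfold S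
    exact Finset.sum_congr rfl fun k _ => by ring
  rw [hS]
  rcases lt_trichotomy j n with h | h | h
  · rw [S_eq_zero j (ppi j) (ppi_natDegree j).le n h, if_neg h.ne, mul_zero, mul_zero]
  · subst h
    rw [if_pos rfl, mul_one]
    have h1 : S j (ppi j) = wt j j * (2 * j + 1) * (ppi j).eval (mm j) := by
      unfold S
      rw [Finset.sum_range_succ]
      have : ∑ k ∈ range j, wt j k * (2 * (k : ℝ) + 1) * (ppi j).eval (mm k) = 0 := by
        refine Finset.sum_eq_zero fun k hk => ?_
        rw [ppi_eval, Nat.choose_eq_zero_of_lt (Finset.mem_range.mp hk)]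
        simp
      rw [this, zero_add]
    rw [h1, ppi_eval, Nat.choose_self]
    unfold wt
    have e1 : j - j = 0 := by omega
    have h2 : ((j + j).choose j : ℝ) = (j + j).factorial / (j.factorial * j.factorial) := by
      rw [Nat.add_choose]
      rw [Nat.cast_div (Nat.factorial_mul_factorial_dvd_factorial_add j j)]
      · push_cast; ring
      · have := fac_ne j
        push_cast
        exact mul_ne_zero this this
    rw [e1, h2, Nat.factorial_succ (j + j)]
    have h3 := fac_ne j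
    have h4 := fac_ne (j + j)
    have h5 : ((j : ℝ) + j + 1) ≠ 0 := by positivity
    have h6 : ((-1 : ℝ)) ^ j * (-1) ^ j = 1 := by
      rw [← mul_pow]; simp
    push_cast
    rw [Nat.factorial_zero]
    push_cast
    field_simp
    rw [show ((-1 : ℝ) ^ j) ^ 2 = 1 by rw [pow_two]; exact h6]
    ring
  · rw [if_neg h.ne', mul_zero]
    have : S n (ppi j) = 0 := by
      unfold S
      refine Finset.sum_eq_zero fun k hk => ?_
      have := Finset.mem_range.mp hk
      rw [ppi_eval, Nat.choose_eq_zero_of_lt (by omega)]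
      simp
    rw [this, mul_zero]

/-- the transformed polynomial for a sequence `A (k (k+1)) + (k + 1/2) B (k (k+1))` -/
lemma FF_AB (n : ℕ) (A B : ℝ[X]) (j : ℕ) (hn : (A * ppi j).natDegree < n) :
    (FF n (fun k => A.eval (mm k) + ((k : ℝ) + 1 / 2) * B.eval (mm k))).coeff j
      = (-1) ^ j / ((j.factorial : ℝ)) ^ 2 * (2 * S' n ((X + C (1 / 4)) * B * ppi j)) := by
  rw [FF_coeff]
  congr 1
  have h1 : ∑ k ∈ range (n + 1), wt n k * (2 * (k : ℝ) + 1)
      * (A.eval (mm k) + ((k : ℝ) + 1 / 2) * B.eval (mm k)) * (ppi j).eval (mm k)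
      = S n (A * ppi j) + 2 * S' n ((X + C (1 / 4)) * B * ppi j) := by
    unfold S S'
    rw [Finset.mul_sum, ← Finset.sum_add_distrib]
    refine Finset.sum_congr rfl fun k _ => ?_
    simp only [eval_mul, eval_add, eval_X, eval_C]
    have : mm k + 1 / 4 = ((k : ℝ) + 1 / 2) ^ 2 := by unfold mm; ring
    rw [this]
    ring
  rw [h1, S_eq_zero _ _ le_rfl n hn, zero_add]

/-- the ratio of consecutive values of a nonzero polynomial tends to one -/
lemma ratio_tendsto (ρ : ℝ[X]) (hρ : ρ ≠ 0) :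
    Tendsto (fun j : ℕ => ρ.eval ((j : ℝ) + 1) / ρ.eval (j : ℝ)) atTop (𝓝 1) := by
  have h1 : (ρ.comp (X + C 1)).degree = ρ.degree := by
    rw [← taylor_apply, degree_taylor]
  have h2 := Polynomial.div_tendsto_atTop_leadingCoeff_div_of_degree_eq (ρ.comp (X + C 1)) ρ h1
  have h3 : (ρ.comp (X + C 1)).leadingCoeff = ρ.leadingCoeff := by
    rw [← taylor_apply, leadingCoeff_taylor]
  rw [h3, div_self (leadingCoeff_ne_zero.mpr hρ)] at h2
  refine (h2.comp tendsto_natCast_atTop_atTop).congr fun j => ?_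
  simp

/-- the final contradiction -/
lemma no_seq (ρ : ℝ[X]) (hρ : ρ ≠ 0) (τ : ℕ → ℝ)
    (hτ : ∀ j, τ j = ρ.eval (j : ℝ) * ∏ i ∈ range j, (((i : ℝ) + 1 / 2) / (i + 1)))
    (hnewton : ∀ j : ℕ, ((j : ℝ) + 2) * (τ j * τ (j + 2)) ≤ ((j : ℝ) + 1) * τ (j + 1) ^ 2) :
    False := by
  set v : ℕ → ℝ := fun j => ∏ i ∈ range j, (((i : ℝ) + 1 / 2) / (i + 1)) with hv
  have hvpos : ∀ j, 0 < v j := fun j => Finset.prod_pos fun i _ => by positivity
  have hvs : ∀ j, v (j + 1) = v j * (((j : ℝ) + 1 / 2) / (j + 1)) := fun j => by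
    simp only [hv]; rw [Finset.prod_range_succ]
  set s : ℕ → ℝ := fun j => τ (j + 1) / τ j with hs
  have hslim : Tendsto s atTop (𝓝 1) := by
    have h1 := ratio_tendsto ρ hρ
    have h2 : Tendsto (fun j : ℕ => ((j : ℝ) + 1 / 2) / (j + 1)) atTop (𝓝 1) := by
      have h3 : Tendsto (fun j : ℕ => 1 - (1 / 2) * ((j : ℝ) + 1)⁻¹) atTop (𝓝 1) := by
        have h4 : Tendsto (fun j : ℕ => ((j : ℝ) + 1)⁻¹) atTop (𝓝 0) :=
          tendsto_inv_atTop_zero.comp
            (tendsto_atTop_add_const_right _ _ tendsto_natCast_atTop_atTop)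
        simpa using (tendsto_const_nhds (x := (1 : ℝ))).sub (h4.const_mul (1 / 2 : ℝ))
      refine h3.congr fun j => ?_
      have : ((j : ℝ) + 1) ≠ 0 := by positivity
      field_simp
      ring
    have h3 := h1.mul h2
    rw [mul_one] at h3
    refine h3.congr fun j => ?_
    simp only [hs]
    rw [hτ, hτ]
    have h4 : ∏ i ∈ range (j + 1), (((i : ℝ) + 1 / 2) / (i + 1)) = v (j + 1) := rfl
    have h5 : ∏ i ∈ range j, (((i : ℝ) + 1 / 2) / (i + 1)) = v j := rfl
    rw [h4, h5, hvs j]
    have h6 := (hvpos j).ne'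
    push_cast
    by_cases h7 : ρ.eval (j : ℝ) = 0
    · rw [h7]; simp
    · field_simp
  have hev : ∀ᶠ j in atTop, 1 / 2 < s j := hslim.eventually (lt_mem_nhds (by norm_num))
  obtain ⟨J, hJ⟩ := eventually_atTop.mp hev
  have hstep : ∀ j, J ≤ j → ((j : ℝ) + 2) * s (j + 1) ≤ ((j : ℝ) + 1) * s j := by
    intro j hj
    have h1 := hJ j hj
    have h2 : 0 < s j := by linarith
    have h3 : τ j ≠ 0 := by
      intro h
      simp only [hs] at h2
      rw [h, div_zero] at h2
      exact lt_irrefl _ h2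
    have h4 : τ (j + 1) ≠ 0 := by
      intro h
      simp only [hs] at h2
      rw [h, zero_div] at h2
      exact lt_irrefl _ h2
    have h5 : 0 < τ j * τ (j + 1) := by
      have h6 : τ (j + 1) = s j * τ j := by
        simp only [hs]; field_simp
      rw [h6]
      have : 0 < τ j ^ 2 := by positivity
      nlinarith
    have h7 := hnewton j
    have h8 : ((j : ℝ) + 2) * s (j + 1) = ((j : ℝ) + 2) * (τ j * τ (j + 2)) / (τ j * τ (j + 1)) := by
      simp only [hs]
      rw [show j + 1 + 1 = j + 2 by ring]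
      field_simp
    have h9 : ((j : ℝ) + 1) * s j = ((j : ℝ) + 1) * τ (j + 1) ^ 2 / (τ j * τ (j + 1)) := by
      simp only [hs]
      field_simp
    rw [h8, h9]
    exact div_le_div_of_nonneg_right h7 h5.le
  have hbound : ∀ i : ℕ, (((J + i : ℕ) : ℝ) + 1) * s (J + i) ≤ ((J : ℝ) + 1) * s J := by
    intro i
    induction i with
    | zero => simp
    | succ i ih =>
      have h1 := hstep (J + i) (by omega)
      have h2 : (((J + (i + 1) : ℕ) : ℝ) + 1) = ((J + i : ℕ) : ℝ) + 2 := by push_cast; ring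
      rw [h2]
      exact h1.trans ih
  obtain ⟨i, hi⟩ := exists_nat_gt (2 * (((J : ℝ) + 1) * s J))
  have h1 := hbound i
  have h2 := hJ (J + i) (by omega)
  have h3 : (0 : ℝ) < ((J + i : ℕ) : ℝ) + 1 := by positivity
  have h4 : (((J + i : ℕ) : ℝ) + 1) * (1 / 2) < (((J + i : ℕ) : ℝ) + 1) * s (J + i) :=
    mul_lt_mul_of_pos_left h2 h3
  push_cast at h1 h4
  have h5 : (0 : ℝ) ≤ J := Nat.cast_nonneg J
  linarith

/-- If all transformed polynomials are hyperbolic then `B = 0`. -/
theorem B_eq_zero (A B : ℝ[X])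
    (h : ∀ n, Hyp (FF n (fun k => A.eval (mm k) + ((k : ℝ) + 1 / 2) * B.eval (mm k)))) :
    B = 0 := by
  by_contra hB
  have hG : (X + C (1 / 4)) * B ≠ 0 := mul_ne_zero (X_add_C_ne_zero _) hB
  obtain ⟨ρ, hρ, -, hlim⟩ := exists_rho _ ((X + C (1 / 4)) * B) hG rfl
  -- limits of the coefficients
  set γ : ℕ → ℝ := fun k => A.eval (mm k) + ((k : ℝ) + 1 / 2) * B.eval (mm k) with hγ
  have hcoef : ∀ j : ℕ, Tendsto (fun n => (FF n γ).coeff j / (2 * cc n)) atTop
      (𝓝 (ρ.eval (j : ℝ) * ∏ i ∈ range j, (((i : ℝ) + 1 / 2) / (i + 1)))) := by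
    intro j
    have h1 := (hlim j).const_mul ((-1) ^ j / ((j.factorial : ℝ)) ^ 2)
    have h2 : (-1 : ℝ) ^ j / ((j.factorial : ℝ)) ^ 2 * (ρ.eval (j : ℝ) * ll j)
        = ρ.eval (j : ℝ) * ∏ i ∈ range j, (((i : ℝ) + 1 / 2) / (i + 1)) := by
      have h3 : (-1 : ℝ) ^ j / ((j.factorial : ℝ)) ^ 2 * ll j
          = ∏ i ∈ range j, (((i : ℝ) + 1 / 2) / (i + 1)) := by
        induction j with
        | zero => simp [ll]
        | succ j ih =>
          rw [Finset.prod_range_succ, ← ih ?_, ll_succ, Nat.factorial_succ]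
          · have := fac_ne j
            have h4 : ((j : ℝ) + 1) ≠ 0 := by positivity
            push_cast
            rw [pow_succ]
            field_simp
          · exact (hlim j).const_mul _
      rw [← h3]
      ring
    rw [h2] at h1
    refine h1.congr' ?_
    filter_upwards [eventually_gt_atTop (A * ppi j).natDegree] with n hn
    have hc := (cc_pos n).ne'
    rw [hγ, FF_AB n A B j hn]
    field_simp
  refine no_seq ρ hρ _ (fun j => rfl) fun j => ?_
  have h0 := hcoef j
  have h1 := hcoef (j + 1)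
  have h2 := hcoef (j + 2)
  have hl := (h0.mul h2).const_mul ((j : ℝ) + 2)
  have hr := (h1.pow 2).const_mul ((j : ℝ) + 1)
  refine le_of_tendsto_of_tendsto' hl hr fun n => ?_
  have hn := (h n).newton j
  have hc : 0 < (2 * cc n) ^ 2 := by
    have := cc_pos n
    positivity
  have e1 : ((j : ℝ) + 2) * ((FF n γ).coeff j / (2 * cc n) * ((FF n γ).coeff (j + 2) / (2 * cc n)))
      = ((j : ℝ) + 2) * ((FF n γ).coeff j * (FF n γ).coeff (j + 2)) / (2 * cc n) ^ 2 := by
    have := (cc_pos n).ne'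
    field_simp
  have e2 : ((j : ℝ) + 1) * ((FF n γ).coeff (j + 1) / (2 * cc n)) ^ 2
      = ((j : ℝ) + 1) * (FF n γ).coeff (j + 1) ^ 2 / (2 * cc n) ^ 2 := by
    have := (cc_pos n).ne'
    field_simp
  rw [e1, e2]
  exact div_le_div_of_nonneg_right hn hc.le

/-- every polynomial in `k` is `A (k (k+1)) + (k + 1/2) B (k (k+1))` -/
lemma exists_AB (d : ℕ) : ∀ Q : ℝ[X], Q.natDegree ≤ d → ∃ A B : ℝ[X],
    Q = A.comp (X * (X + 1)) + (X + C (1 / 2)) * B.comp (X * (X + 1)) := by
  induction d using Nat.strong_induction_on with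
  | _ d ih =>
    intro Q hQ
    have hmon : (X * (X + 1) : ℝ[X]).Monic := by
      have : (X + 1 : ℝ[X]).Monic := by
        have := monic_X_add_C (1 : ℝ)
        simpa using this
      exact monic_X.mul this
    have hdeg : (X * (X + 1) : ℝ[X]).natDegree = 2 := by
      have h1 : (X + 1 : ℝ[X]).natDegree = 1 := by
        have := natDegree_X_add_C (1 : ℝ)
        simpa using this
      rw [natDegree_mul X_ne_zero (by intro h; rw [h] at h1; simp at h1), natDegree_X, h1]
    rcases Nat.lt_or_ge Q.natDegree 2 with hlt | hge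
    · refine ⟨C (Q.coeff 0 - Q.coeff 1 / 2), C (Q.coeff 1), ?_⟩
      rw [C_comp, C_comp]
      conv_lhs => rw [Q.as_sum_range_C_mul_X_pow' hlt]
      simp only [Finset.sum_range_succ, Finset.sum_range_zero, pow_zero, mul_one, zero_add, pow_one]
      rw [C_sub]
      have : (C (Q.coeff 1 / 2) : ℝ[X]) = C (1 / 2) * C (Q.coeff 1) := by
        rw [← C_mul]; congr 1; ring
      rw [this]
      ring
    · have h1 := modByMonic_add_div Q (X * (X + 1))
      set q1 := Q /ₘ (X * (X + 1)) with hq1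
      set r := Q %ₘ (X * (X + 1)) with hr
      have hrd : r.natDegree < 2 := by
        have := natDegree_modByMonic_lt Q hmon (by
          intro h; rw [h, natDegree_one] at hdeg; omega)
        rw [hdeg] at this
        exact this
      have hq1d : q1.natDegree ≤ d - 2 := by
        rw [hq1, natDegree_divByMonic Q hmon, hdeg]
        omega
      obtain ⟨A1, B1, hAB⟩ := ih (d - 2) (by omega) q1 hq1d
      refine ⟨X * A1 + C (r.coeff 0 - r.coeff 1 / 2), X * B1 + C (r.coeff 1), ?_⟩
      rw [← h1, hAB]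
      conv_lhs => rw [r.as_sum_range_C_mul_X_pow' hrd]
      simp only [Finset.sum_range_succ, Finset.sum_range_zero, pow_zero, mul_one, zero_add, pow_one,
        add_comp, mul_comp, X_comp, C_comp]
      rw [C_sub]
      have : (C (r.coeff 1 / 2) : ℝ[X]) = C (1 / 2) * C (r.coeff 1) := by
        rw [← C_mul]; congr 1; ring
      rw [this]
      ring

end Pool.Agent.X116.Leg
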