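import Mathlib
import Pool.Agent.X116.Leg2

/-!
# Legendre polynomials by Rodrigues' formula and the main consequence
-/

open Polynomial Filter Topology Finset

namespace Pool.Agent.X116.Leg

lemma iterate_derivative_comp_affine (f : ℝ[X]) (n : ℕ) :
    derivative^[n] (f.comp (1 - 2 * X)) = C ((-2) ^ n) * (derivative^[n] f).comp (1 - 2 * X) := by
  induction n with
  | zero => simp
  | succ n ih =>
    rw [Function.iterate_succ_apply', ih, Function.iterate_succ_apply', derivative_C_mul,
      derivative_comp]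
    have h1 : derivative (1 - 2 * X : ℝ[X]) = C (-2) := by
      simp
      rfl
    rw [h1, pow_succ, C_mul]
    ring

/-- Rodrigues' polynomials composed with `1 - 2 x` are the shifted Legendre polynomials. -/
lemma rodrigues_comp (n : ℕ) :
    (C (1 / (2 ^ n * (n.factorial : ℝ))) * derivative^[n] ((X ^ 2 - 1 : ℝ[X]) ^ n)).comp (1 - 2 * X)
      = shL n := by
  have h1 := iterate_derivative_comp_affine ((X ^ 2 - 1 : ℝ[X]) ^ n) n
  have h2 : ((X ^ 2 - 1 : ℝ[X]) ^ n).comp (1 - 2 * X) = C ((-4) ^ n) * (X ^ n * (1 - X) ^ n) := by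
    rw [pow_comp, sub_comp, pow_comp, X_comp, one_comp, C_pow, ← mul_pow, ← mul_pow]
    congr 1
    have : (C (-4) : ℝ[X]) = -4 := by
      rw [C_neg]
      rfl
    rw [this]
    ring
  have h3 := congrArg (Polynomial.map (Int.castRingHom ℝ)) (factorial_mul_shiftedLegendre_eq n)
  rw [Polynomial.map_mul, Polynomial.map_natCast, ← iterate_derivative_map, Polynomial.map_mul,
    Polynomial.map_pow, map_X, Polynomial.map_pow, Polynomial.map_sub, Polynomial.map_one,
    map_X] at h3
  rw [h2, iterate_derivative_C_mul, ← h3] at h1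
  rw [mul_comp, C_comp]
  have h4 : (C ((-4) ^ n) : ℝ[X]) = C ((-2) ^ n) * C (2 ^ n) := by
    rw [← C_mul, ← mul_pow]; norm_num
  rw [h4, mul_assoc] at h1
  have h5 : (C ((-2) ^ n) : ℝ[X]) ≠ 0 := C_ne_zero.mpr (pow_ne_zero _ (by norm_num))
  have h6 := mul_left_cancel₀ h5 h1
  rw [← h6]
  have h7 : ((n.factorial : ℕ) : ℝ[X]) = C (n.factorial : ℝ) := by simp
  rw [h7]
  unfold shL
  rw [← mul_assoc, ← mul_assoc, ← C_mul, ← C_mul]
  have h8 : (1 / (2 ^ n * (n.factorial : ℝ)) * (2 ^ n) * (n.factorial : ℝ)) = 1 := by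
    have := fac_ne n
    field_simp
  rw [h8, C_1, one_mul]

lemma hyp_comp_iff (p : ℝ[X]) : Hyp (p.comp (1 - 2 * X)) ↔ Hyp p := by
  have key : ∀ q : ℝ[X], ∀ a b : ℝ, Hyp q → Hyp (q.comp (C a * X + C b)) := by
    intro q a b hq
    rcases hq with rfl | h
    · left; simp
    by_cases ha : a = 0
    · subst ha
      rw [C_0, zero_mul, zero_add, comp_C]
      by_cases h0 : q.eval b = 0
      · left; rw [h0, C_0]
      · right
        intro z hz
        rw [aeval_C] at hz
        exact absurd hz (by simpa using h0)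
    · right
      intro z hz
      rw [aeval_comp] at hz
      have h1 := h _ hz
      simp only [map_add, map_mul, aeval_C, aeval_X] at h1
      have h2 : ((algebraMap ℝ ℂ) a * z + (algebraMap ℝ ℂ) b).im = a * z.im := by simp
      rw [h2] at h1
      exact (mul_eq_zero.mp h1).resolve_left ha
  constructor
  · intro h
    have h1 := key _ (-(1 / 2)) (1 / 2) h
    rw [comp_assoc] at h1
    have h2 : ((1 - 2 * X : ℝ[X]).comp (C (-(1 / 2)) * X + C (1 / 2))) = X := by
      simp only [sub_comp, mul_comp, one_comp, X_comp, ofNat_comp]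
      have h3 : (2 : ℝ[X]) * C (1 / 2) = 1 := by
        rw [← C_ofNat, ← C_mul]; norm_num
      rw [C_neg]
      linear_combination (X - 1) * h3
    rw [h2, comp_X] at h1
    exact h1
  · intro h
    have h1 := key _ (-2) 1 h
    have h2 : (C (-2) * X + C 1 : ℝ[X]) = 1 - 2 * X := by
      rw [C_neg, C_1, show (C 2 : ℝ[X]) = 2 from rfl]
      ring
    rwa [h2] at h1

/-- Main consequence: if the sequence `Q(k)` preserves hyperbolicity in the Legendre basis (given
by Rodrigues' formula), then `Q` is a polynomial in `k (k + 1)`. -/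
theorem main (Q : ℝ[X]) (L : ℕ → ℝ[X])
    (hL : ∀ n, L n = C (1 / (2 ^ n * (n.factorial : ℝ))) * derivative^[n] ((X ^ 2 - 1 : ℝ[X]) ^ n))
    (h : ∀ (n : ℕ) (a : ℕ → ℝ), (∑ k ∈ range (n + 1), C (a k) * L k) ≠ 0 →
      Hyp (∑ k ∈ range (n + 1), C (a k) * L k) →
      Hyp (∑ k ∈ range (n + 1), C (Q.eval (k : ℝ) * a k) * L k)) :
    ∃ A : ℝ[X], Q = A.comp (X * (X + 1)) := by
  obtain ⟨A, B, hAB⟩ := exists_AB _ Q le_rfl
  have hcomp : ∀ (n : ℕ) (b : ℕ → ℝ), (∑ k ∈ range (n + 1), C (b k) * L k).comp (1 - 2 * X)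
      = ∑ k ∈ range (n + 1), C (b k) * shL k := by
    intro n b
    rw [Polynomial.sum_comp]
    refine Finset.sum_congr rfl fun k _ => ?_
    rw [mul_comp, C_comp, hL, rodrigues_comp]
  have hB : B = 0 := by
    apply B_eq_zero A B
    intro n
    have h1 : Hyp (∑ k ∈ range (n + 1), C (wt n k * (2 * k + 1)) * L k) := by
      rw [← hyp_comp_iff, hcomp]
      have h2 := FF_one n
      unfold FF at h2
      simp only [mul_one] at h2
      rw [h2]
      right
      intro z hz
      rw [map_mul, aeval_C, map_pow, aeval_X] at hz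
      rcases mul_eq_zero.mp hz with h3 | h3
      · exfalso
        have h4 := fac_ne n
        have h5 : (1 / ((n.factorial : ℝ)) ^ 2) ≠ 0 := by positivity
        exact h5 (by simpa using h3)
      · rw [eq_zero_of_pow_eq_zero h3]
        simp
    have h0 : (∑ k ∈ range (n + 1), C (wt n k * (2 * k + 1)) * L k) ≠ 0 := by
      intro h0
      have h3 := hcomp n (fun k => wt n k * (2 * k + 1))
      have h2 := FF_one n
      unfold FF at h2
      simp only [mul_one] at h2
      rw [h0, zero_comp, h2] at h3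
      have h4 := fac_ne n
      have h5 : (1 / ((n.factorial : ℝ)) ^ 2) ≠ 0 := by positivity
      rcases mul_eq_zero.mp h3.symm with h6 | h6
      · exact h5 (C_eq_zero.mp h6)
      · exact pow_ne_zero n X_ne_zero h6
    have h2 := h n _ h0 h1
    rw [← hyp_comp_iff, hcomp] at h2
    unfold FF
    convert h2 using 3 with k hk
    have h3 : Q.eval (k : ℝ) = A.eval (mm k) + ((k : ℝ) + 1 / 2) * B.eval (mm k) := by
      rw [hAB]
      simp only [eval_add, eval_mul, eval_comp, eval_X, eval_C, eval_one]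
      rfl
    rw [h3]
    ring_nf
  refine ⟨A, ?_⟩
  rw [hAB, hB]
  simp

end Pool.Agent.X116.Leg
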