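import Mathlib

/-!
# Wronskian inequalities for refined weighted Eulerian polynomials
-/

open Polynomial Finset

namespace Pool.Agent.X116.Eul

/-- `g' f - g f'` at `x` -/
noncomputable def W (x : ℝ) (f g : ℝ[X]) : ℝ :=
  (derivative g).eval x * f.eval x - g.eval x * (derivative f).eval x

lemma W_add_left (x : ℝ) (f1 f2 g : ℝ[X]) : W x (f1 + f2) g = W x f1 g + W x f2 g := by
  simp only [W, derivative_add, eval_add]; ring

lemma W_add_right (x : ℝ) (f g1 g2 : ℝ[X]) : W x f (g1 + g2) = W x f g1 + W x f g2 := by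
  simp only [W, derivative_add, eval_add]; ring

lemma W_sum_left {ι : Type} (x : ℝ) (s : Finset ι) (f : ι → ℝ[X]) (g : ℝ[X]) :
    W x (∑ i ∈ s, f i) g = ∑ i ∈ s, W x (f i) g := by
  classical
  induction s using Finset.induction_on with
  | empty => simp [W]
  | insert a s ha ih => rw [Finset.sum_insert ha, W_add_left, ih, Finset.sum_insert ha]

lemma W_sum_right {ι : Type} (x : ℝ) (s : Finset ι) (f : ℝ[X]) (g : ι → ℝ[X]) :
    W x f (∑ i ∈ s, g i) = ∑ i ∈ s, W x f (g i) := by
  classical
  induction s using Finset.induction_on with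
  | empty => simp [W]
  | insert a s ha ih => rw [Finset.sum_insert ha, W_add_right, ih, Finset.sum_insert ha]

/-- the weights -/
noncomputable def wt (lam : ℝ) : ℝ[X] := C lam * X

/-- key identities -/
lemma W_key1 (x lam : ℝ) (P Q R : ℝ[X]) :
    W x (P + Q + C lam * X * R) (P + C lam * X * Q + C lam * X * R)
      = lam * (W x P (X * Q) + lam * x ^ 2 * W x R Q) + (W x Q P + lam * W x Q (X * R))
        + lam * (Q.eval x) ^ 2 := by
  simp only [W, derivative_add, derivative_mul, derivative_C, derivative_X, eval_add, eval_mul,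
    eval_C, eval_X, eval_one, zero_mul, zero_add, one_mul, mul_one]
  ring

lemma W_key2 (x lam : ℝ) (P Q R : ℝ[X]) :
    W x (P + C lam * X * Q + C lam * X * R) (X * (P + Q + C lam * X * R))
      = ((P + C lam * X * R).eval x) ^ 2 + (W x P (X * Q) + lam * x ^ 2 * W x R Q)
        + lam * x ^ 2 * (W x Q P + lam * W x Q (X * R)) := by
  simp only [W, derivative_add, derivative_mul, derivative_C, derivative_X, eval_add, eval_mul,
    eval_C, eval_X, eval_one, zero_mul, zero_add, one_mul, mul_one]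
  ring

lemma W_self (x : ℝ) (f : ℝ[X]) : W x f f = 0 := by simp only [W]; ring

lemma W_self_X (x : ℝ) (f : ℝ[X]) : W x f (X * f) = (f.eval x) ^ 2 := by
  simp only [W, derivative_mul, derivative_X, eval_add, eval_mul, eval_X, one_mul]
  ring

/-- the refined polynomials: `aa lam m i`, `i : Fin (m + 1)`, with the recursion -/
noncomputable def aa (lam : ℕ → ℝ) : (m : ℕ) → Fin (m + 1) → ℝ[X]
  | 0, _ => 1
  | m + 1, i => ∑ j : Fin (m + 1), if j.castSucc < i then aa lam m j
      else C (lam (m + 1)) * X * aa lam m j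

lemma aa_succ (lam : ℕ → ℝ) (m : ℕ) (i : Fin (m + 2)) :
    aa lam (m + 1) i = ∑ j : Fin (m + 1), if j.castSucc < i then aa lam m j
      else C (lam (m + 1)) * X * aa lam m j := rfl

/-- splitting for `i ≤ k` -/
lemma aa_split (lam : ℕ → ℝ) (m : ℕ) (i k : Fin (m + 2)) (hik : i ≤ k) :
    aa lam (m + 1) i = (∑ j ∈ univ.filter (fun j : Fin (m + 1) => j.castSucc < i), aa lam m j)
      + C (lam (m + 1)) * X *
        (∑ j ∈ univ.filter (fun j : Fin (m + 1) => i ≤ j.castSucc ∧ j.castSucc < k), aa lam m j)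
      + C (lam (m + 1)) * X *
        (∑ j ∈ univ.filter (fun j : Fin (m + 1) => k ≤ j.castSucc), aa lam m j) ∧
    aa lam (m + 1) k = (∑ j ∈ univ.filter (fun j : Fin (m + 1) => j.castSucc < i), aa lam m j)
      + (∑ j ∈ univ.filter (fun j : Fin (m + 1) => i ≤ j.castSucc ∧ j.castSucc < k), aa lam m j)
      + C (lam (m + 1)) * X *
        (∑ j ∈ univ.filter (fun j : Fin (m + 1) => k ≤ j.castSucc), aa lam m j) := by
  rw [aa_succ, aa_succ, Finset.mul_sum, Finset.mul_sum]
  simp only [Finset.sum_filter]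
  constructor
  · rw [← Finset.sum_add_distrib, ← Finset.sum_add_distrib]
    refine Finset.sum_congr rfl fun j _ => ?_
    by_cases h1 : j.castSucc < i
    · have h2 : ¬ i ≤ j.castSucc := not_le.mpr h1
      have h3 : ¬ k ≤ j.castSucc := not_le.mpr (lt_of_lt_of_le h1 hik)
      simp [h1, h3]
    · have h1' : i ≤ j.castSucc := not_lt.mp h1
      by_cases h4 : j.castSucc < k
      · have h3 : ¬ k ≤ j.castSucc := not_le.mpr h4
        simp [h1, h1', h4, h3]
      · have h3 : k ≤ j.castSucc := not_lt.mp h4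
        simp [h1, h4, h3]
  · rw [← Finset.sum_add_distrib, ← Finset.sum_add_distrib]
    refine Finset.sum_congr rfl fun j _ => ?_
    by_cases h1 : j.castSucc < i
    · have h2 : ¬ i ≤ j.castSucc := not_le.mpr h1
      have h4 : j.castSucc < k := lt_of_lt_of_le h1 hik
      have h3 : ¬ k ≤ j.castSucc := not_le.mpr h4
      simp [h1, h3, h4]
    · have h1' : i ≤ j.castSucc := not_lt.mp h1
      by_cases h4 : j.castSucc < k
      · have h3 : ¬ k ≤ j.castSucc := not_le.mpr h4
        simp [h1, h1', h4, h3]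
      · have h3 : k ≤ j.castSucc := not_lt.mp h4
        simp [h1, h4, h3]

/-- the system of inequalities -/
def Sys (lam : ℕ → ℝ) (m : ℕ) : Prop :=
  ∀ (x : ℝ) (i j : Fin (m + 1)), i ≤ j →
    0 ≤ W x (aa lam m j) (aa lam m i) ∧ 0 ≤ W x (aa lam m i) (X * aa lam m j)

lemma key_parts {lam : ℕ → ℝ} (hlam : ∀ k, 0 < lam k) {m : ℕ} (h : Sys lam m) (x : ℝ)
    (i k : Fin (m + 2)) (hik : i ≤ k) :
    0 ≤ W x (∑ j ∈ univ.filter (fun j : Fin (m + 1) => j.castSucc < i), aa lam m j)
        (X * (∑ j ∈ univ.filter (fun j : Fin (m + 1) => i ≤ j.castSucc ∧ j.castSucc < k),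
          aa lam m j))
      + lam (m + 1) * x ^ 2 *
        W x (∑ j ∈ univ.filter (fun j : Fin (m + 1) => k ≤ j.castSucc), aa lam m j)
        (∑ j ∈ univ.filter (fun j : Fin (m + 1) => i ≤ j.castSucc ∧ j.castSucc < k), aa lam m j) ∧
    0 ≤ W x (∑ j ∈ univ.filter (fun j : Fin (m + 1) => i ≤ j.castSucc ∧ j.castSucc < k), aa lam m j)
        (∑ j ∈ univ.filter (fun j : Fin (m + 1) => j.castSucc < i), aa lam m j)
      + lam (m + 1) *
        W x (∑ j ∈ univ.filter (fun j : Fin (m + 1) => i ≤ j.castSucc ∧ j.castSucc < k), aa lam m j)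
        (X * (∑ j ∈ univ.filter (fun j : Fin (m + 1) => k ≤ j.castSucc), aa lam m j)) := by
  have hl := (hlam (m + 1)).le
  have key1 : ∀ (S T : Finset (Fin (m + 1))), (∀ i ∈ S, ∀ j ∈ T, i ≤ j) →
      0 ≤ W x (∑ j ∈ T, aa lam m j) (∑ j ∈ S, aa lam m j) ∧
      0 ≤ W x (∑ j ∈ S, aa lam m j) (X * ∑ j ∈ T, aa lam m j) := by
    intro S T hST
    rw [Finset.mul_sum]
    constructor
    · rw [W_sum_left]
      refine Finset.sum_nonneg fun j hj => ?_
      rw [W_sum_right]
      exact Finset.sum_nonneg fun i hi => (h x i j (hST i hi j hj)).1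
    · rw [W_sum_left]
      refine Finset.sum_nonneg fun i hi => ?_
      rw [W_sum_right]
      exact Finset.sum_nonneg fun j hj => (h x i j (hST i hi j hj)).2
  have hPQ : ∀ a ∈ univ.filter (fun j : Fin (m + 1) => j.castSucc < i),
      ∀ b ∈ univ.filter (fun j : Fin (m + 1) => i ≤ j.castSucc ∧ j.castSucc < k), a ≤ b := by
    intro a ha b hb
    have h1 := (Finset.mem_filter.mp ha).2
    have h2 := (Finset.mem_filter.mp hb).2.1
    exact Fin.castSucc_le_castSucc_iff.mp (h1.le.trans h2)
  have hQR : ∀ a ∈ univ.filter (fun j : Fin (m + 1) => i ≤ j.castSucc ∧ j.castSucc < k),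
      ∀ b ∈ univ.filter (fun j : Fin (m + 1) => k ≤ j.castSucc), a ≤ b := by
    intro a ha b hb
    have h1 := (Finset.mem_filter.mp ha).2.2
    have h2 := (Finset.mem_filter.mp hb).2
    exact Fin.castSucc_le_castSucc_iff.mp (h1.le.trans h2)
  have h1 := key1 _ _ hPQ
  have h2 := key1 _ _ hQR
  constructor
  · have := mul_nonneg (mul_nonneg hl (sq_nonneg x)) h2.1
    linarith [h1.2]
  · have := mul_nonneg hl h2.2
    linarith [h1.1]

theorem sys {lam : ℕ → ℝ} (hlam : ∀ k, 0 < lam k) (m : ℕ) : Sys lam m := by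
  induction m with
  | zero =>
    intro x i j _
    have hi : aa lam 0 i = 1 := rfl
    have hj : aa lam 0 j = 1 := rfl
    rw [hi, hj]
    constructor
    · rw [W_self]
    · rw [W_self_X]
      exact sq_nonneg _
  | succ m ih =>
    intro x i k hik
    obtain ⟨h1, h2⟩ := key_parts hlam ih x i k hik
    obtain ⟨e1, e2⟩ := aa_split lam m i k hik
    have hl := (hlam (m + 1)).le
    rw [e1, e2]
    constructor
    · rw [W_key1]
      have h3 := mul_nonneg hl h1
      have h4 := mul_nonneg hl (sq_nonneg (eval x (∑ j ∈ univ.filter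
        (fun j : Fin (m + 1) => i ≤ j.castSucc ∧ j.castSucc < k), aa lam m j)))
      linarith
    · rw [W_key2]
      have h3 := mul_nonneg (mul_nonneg hl (sq_nonneg x)) h2
      have h4 := sq_nonneg (eval x ((∑ j ∈ univ.filter (fun j : Fin (m + 1) => j.castSucc < i),
        aa lam m j) + C (lam (m + 1)) * X *
        (∑ j ∈ univ.filter (fun j : Fin (m + 1) => k ≤ j.castSucc), aa lam m j)))
      linarith

/-- the polynomials `e` -/
noncomputable def ee (lam : ℕ → ℝ) (m : ℕ) : ℝ[X] := ∑ i, aa lam m i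

lemma aa_last (lam : ℕ → ℝ) (m : ℕ) : aa lam (m + 1) (Fin.last (m + 1)) = ee lam m := by
  rw [aa_succ]
  unfold ee
  refine Finset.sum_congr rfl fun j _ => ?_
  rw [if_pos (Fin.castSucc_lt_last j)]

/-- not all refined polynomials vanish at a negative point -/
lemma not_all_zero {lam : ℕ → ℝ} (hlam : ∀ k, 0 < lam k) (m : ℕ) {x : ℝ} (hx : x < 0) :
    ¬ ∀ j, (aa lam m j).eval x = 0 := by
  induction m with
  | zero =>
    intro h
    have h1 := h 0
    have h2 : aa lam 0 0 = 1 := rfl
    rw [h2, eval_one] at h1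
    exact one_ne_zero h1
  | succ m ih =>
    intro h
    apply ih
    intro j
    have h1 := h j.castSucc
    have h2 := h j.succ
    -- `B_j - B_{j+1} = (lam x - 1) a_j`
    have h3 : aa lam (m + 1) j.castSucc - aa lam (m + 1) j.succ
        = (C (lam (m + 1)) * X - 1) * aa lam m j := by
      rw [aa_succ, aa_succ, ← Finset.sum_sub_distrib, Finset.sum_eq_single j]
      · rw [if_neg (lt_irrefl _), if_pos (Fin.castSucc_lt_succ)]
        ring
      · intro l _ hl
        have h4 : (l.castSucc < j.castSucc) ↔ (l.castSucc < j.succ) := by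
          rw [Fin.castSucc_lt_castSucc_iff, Fin.castSucc_lt_succ_iff]
          constructor
          · exact fun h => h.le
          · exact fun h => lt_of_le_of_ne h hl
        by_cases h5 : l.castSucc < j.castSucc
        · rw [if_pos h5, if_pos (h4.mp h5), sub_self]
        · rw [if_neg h5, if_neg (fun h => h5 (h4.mpr h)), sub_self]
      · intro h4
        exact absurd (Finset.mem_univ j) h4
    have h4 := congrArg (fun p => eval x p) h3
    simp only [eval_sub, eval_mul, eval_C, eval_X, eval_one] at h4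
    rw [h1, h2, sub_zero] at h4
    rcases mul_eq_zero.mp h4.symm with h5 | h5
    · have := hlam (m + 1)
      nlinarith
    · exact h5

/-- strict Wronskian inequality -/
theorem W_pos {lam : ℕ → ℝ} (hlam : ∀ k, 0 < lam k) (m : ℕ) {x : ℝ} (hx : x < 0) :
    0 < W x (ee lam m) (ee lam (m + 1)) := by
  have hl := hlam (m + 1)
  rw [← aa_last, show ee lam (m + 1) = ∑ i, aa lam (m + 1) i from rfl, W_sum_right]
  have hterm : ∀ i : Fin (m + 2), lam (m + 1) * ((∑ j ∈ univ.filter
      (fun j : Fin (m + 1) => i ≤ j.castSucc ∧ j.castSucc < Fin.last (m + 1)),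
        aa lam m j).eval x) ^ 2
      ≤ W x (aa lam (m + 1) (Fin.last (m + 1))) (aa lam (m + 1) i) := by
    intro i
    have hik : i ≤ Fin.last (m + 1) := Fin.le_last i
    obtain ⟨h1, h2⟩ := key_parts hlam (sys hlam m) x i _ hik
    obtain ⟨e1, e2⟩ := aa_split lam m i _ hik
    rw [e1, e2, W_key1]
    have h3 := mul_nonneg hl.le h1
    linarith
  have hnn : ∀ i : Fin (m + 2), 0 ≤ W x (aa lam (m + 1) (Fin.last (m + 1))) (aa lam (m + 1) i) :=
    fun i => le_trans (mul_nonneg hl.le (sq_nonneg _)) (hterm i)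
  by_contra hcon
  have hzero : ∀ i ∈ (univ : Finset (Fin (m + 2))),
      W x (aa lam (m + 1) (Fin.last (m + 1))) (aa lam (m + 1) i) = 0 := by
    have h1 : ∑ i : Fin (m + 2), W x (aa lam (m + 1) (Fin.last (m + 1))) (aa lam (m + 1) i) = 0 :=
      le_antisymm (not_lt.mp hcon) (Finset.sum_nonneg fun i _ => hnn i)
    exact (Finset.sum_eq_zero_iff_of_nonneg (fun i _ => hnn i)).mp h1
  have hQ : ∀ i : Fin (m + 2), (∑ j ∈ univ.filter
      (fun j : Fin (m + 1) => i ≤ j.castSucc ∧ j.castSucc < Fin.last (m + 1)),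
        aa lam m j).eval x = 0 := by
    intro i
    have h1 := hterm i
    rw [hzero i (Finset.mem_univ i)] at h1
    have h2 : ((∑ j ∈ univ.filter
      (fun j : Fin (m + 1) => i ≤ j.castSucc ∧ j.castSucc < Fin.last (m + 1)),
        aa lam m j).eval x) ^ 2 ≤ 0 := by
      by_contra h3
      push Not at h3
      have := mul_pos hl h3
      linarith
    exact pow_eq_zero_iff (two_ne_zero) |>.mp (le_antisymm h2 (sq_nonneg _))
  apply not_all_zero hlam m hx
  intro j
  have h1 := hQ j.castSucc
  have h2 := hQ j.succ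
  have h3 : (univ.filter (fun l : Fin (m + 1) => j.castSucc ≤ l.castSucc
      ∧ l.castSucc < Fin.last (m + 1)))
      = insert j (univ.filter (fun l : Fin (m + 1) => j.succ ≤ l.castSucc
      ∧ l.castSucc < Fin.last (m + 1))) := by
    ext l
    simp only [Finset.mem_filter, Finset.mem_univ, true_and, Finset.mem_insert,
      Fin.castSucc_lt_last, and_true, Fin.castSucc_le_castSucc_iff, Fin.succ_le_castSucc_iff]
    constructor
    · intro h
      rcases h.eq_or_lt with h | h
      · exact Or.inl h.symm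
      · exact Or.inr h
    · rintro (h | h)
      · exact h.ge
      · exact h.le
  rw [h3, Finset.sum_insert, eval_add, h2, add_zero] at h1
  · exact h1
  · simp

end Pool.Agent.X116.Eul
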