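import Mathlib

/-!
# Building interlacing zeros from a strict Wronskian inequality at the zeros
-/

open Polynomial Finset Filter Topology

namespace Pool.Agent.X116

/-- a polynomial of degree `n` with `n` distinct zeros factors -/
lemma factor_of_roots {n : ℕ} {g : ℝ[X]} (hg : g.natDegree = n) (G : Fin n → ℝ)
    (hinj : Function.Injective G) (h0 : ∀ i, g.eval (G i) = 0) :
    g = C g.leadingCoeff * ∏ i, (X - C (G i)) := by
  by_cases hg0 : g = 0
  · rw [hg0]; simp
  set q : ℝ[X] := C g.leadingCoeff * ∏ i, (X - C (G i)) with hq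
  have hqd : q.natDegree = n := by
    rw [hq, natDegree_C_mul (leadingCoeff_ne_zero.mpr hg0),
      natDegree_prod_of_monic _ _ (fun i _ => monic_X_sub_C _)]
    simp
  have hql : q.leadingCoeff = g.leadingCoeff := by
    rw [hq, leadingCoeff_mul, leadingCoeff_C,
      (monic_prod_of_monic _ _ (fun i _ => monic_X_sub_C (G i))).leadingCoeff, mul_one]
  rcases Nat.eq_zero_or_pos n with hn | hn
  · subst hn
    rw [hq, Finset.univ_eq_empty, Finset.prod_empty, mul_one]
    conv_lhs => rw [eq_C_of_natDegree_eq_zero hg]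
    rw [leadingCoeff, hg]
  have hsub : (g - q).natDegree < n := by
    have h1 : (g - q).coeff n = 0 := by
      rw [coeff_sub]
      have h2 : g.coeff n = g.leadingCoeff := by rw [leadingCoeff, hg]
      have h3 : q.coeff n = q.leadingCoeff := by rw [leadingCoeff, hqd]
      rw [h2, h3, hql, sub_self]
    have h4 : (g - q).natDegree ≤ n := by
      refine (natDegree_sub_le _ _).trans ?_
      rw [hg, hqd, max_self]
    refine lt_of_le_of_ne h4 fun h5 => ?_
    have h6 : (g - q).leadingCoeff = 0 := by rw [leadingCoeff, h5, h1]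
    rw [leadingCoeff_eq_zero] at h6
    rw [h6, natDegree_zero] at h5
    omega
  have hzero : g - q = 0 := by
    apply eq_zero_of_natDegree_lt_card_of_eval_eq_zero (g - q) hinj
    · intro i
      rw [eval_sub, h0, hq, eval_mul, eval_prod,
        Finset.prod_eq_zero (Finset.mem_univ i) (by simp), mul_zero, sub_zero]
    · rw [Fintype.card_fin]
      exact hsub
  exact sub_eq_zero.mp hzero

/-- sign of the derivative at a zero -/
lemma deriv_sign {m : ℕ} (F : Fin m → ℝ) (hF : StrictAnti F) {L : ℝ} (hL : 0 < L) (i : Fin m) :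
    0 < (-1 : ℝ) ^ (i : ℕ) * (derivative (C L * ∏ j, (X - C (F j)))).eval (F i) := by
  have h1 : (derivative (C L * ∏ j, (X - C (F j)))).eval (F i)
      = L * ∏ j ∈ univ.erase i, (F i - F j) := by
    rw [derivative_C_mul, eval_mul, eval_C]
    congr 1
    rw [← Finset.mul_prod_erase univ _ (Finset.mem_univ i), derivative_mul]
    simp [eval_prod]
  rw [h1]
  have h2 : ∏ j ∈ univ.erase i, (F i - F j)
      = (∏ j ∈ univ.filter (fun j => j < i), (F i - F j))
        * ∏ j ∈ univ.filter (fun j => i < j), (F i - F j) := by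
    rw [← Finset.prod_union]
    · congr 1
      ext j
      simp only [Finset.mem_erase, Finset.mem_univ, and_true, Finset.mem_union, Finset.mem_filter,
        true_and]
      exact ne_iff_lt_or_gt
    · rw [Finset.disjoint_filter]
      intro j _ h1 h2
      exact absurd h1 (not_lt.mpr h2.le)
  have h3 : ∏ j ∈ univ.filter (fun j => j < i), (F i - F j)
      = (-1 : ℝ) ^ (i : ℕ) * ∏ j ∈ univ.filter (fun j => j < i), (F j - F i) := by
    have h4 : ∀ j ∈ univ.filter (fun j => j < i), (F i - F j) = (-1) * (F j - F i) := by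
      intro j _; ring
    rw [Finset.prod_congr rfl h4, Finset.prod_mul_distrib, Finset.prod_const]
    congr 2
    have : univ.filter (fun j => j < i) = Finset.Iio i := by
      ext j; simp
    rw [this, Fin.card_Iio]
  have h5 : 0 < ∏ j ∈ univ.filter (fun j => j < i), (F j - F i) :=
    Finset.prod_pos fun j hj => sub_pos.mpr (hF (Finset.mem_filter.mp hj).2)
  have h6 : 0 < ∏ j ∈ univ.filter (fun j => i < j), (F i - F j) :=
    Finset.prod_pos fun j hj => sub_pos.mpr (hF (Finset.mem_filter.mp hj).2)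
  rw [h2, h3]
  have h7 : ((-1 : ℝ) ^ (i : ℕ)) * (-1 : ℝ) ^ (i : ℕ) = 1 := by
    rw [← mul_pow]; simp
  have h8 : (-1 : ℝ) ^ (i : ℕ) * (L * ((-1 : ℝ) ^ (i : ℕ)
      * (∏ j ∈ univ.filter (fun j => j < i), (F j - F i))
      * ∏ j ∈ univ.filter (fun j => i < j), (F i - F j)))
      = (((-1 : ℝ) ^ (i : ℕ)) * (-1 : ℝ) ^ (i : ℕ)) * (L * ((∏ j ∈ univ.filter
        (fun j => j < i), (F j - F i)) * ∏ j ∈ univ.filter (fun j => i < j), (F i - F j))) := by
    ring
  rw [h8, h7, one_mul]
  positivity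

/-- behaviour at `-∞` -/
lemma exists_neg_point {g : ℝ[X]} {n : ℕ} (hg : g.natDegree = n + 1) (hL : 0 < g.leadingCoeff)
    (M : ℝ) : ∃ x < M, 0 < (-1 : ℝ) ^ (n + 1) * g.eval x := by
  set q : ℝ[X] := C ((-1 : ℝ) ^ (n + 1)) * g.comp (-X) with hq
  have hdX : (-X : ℝ[X]).natDegree = 1 := by rw [natDegree_neg, natDegree_X]
  have hc : ((-1 : ℝ) ^ (n + 1)) ≠ 0 := pow_ne_zero _ (by norm_num)
  have hqd : q.natDegree = n + 1 := by
    rw [hq, natDegree_C_mul hc, natDegree_comp, hdX, hg, mul_one]
  have hql : q.leadingCoeff = g.leadingCoeff := by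
    rw [hq, leadingCoeff_mul, leadingCoeff_C, leadingCoeff_comp (by rw [hdX]; norm_num),
      leadingCoeff_neg, leadingCoeff_X, hg, mul_comm, mul_assoc, ← mul_pow]
    simp
  have htend := q.tendsto_atTop_of_leadingCoeff_nonneg
    (by rw [← natDegree_pos_iff_degree_pos, hqd]; omega) (by rw [hql]; exact hL.le)
  have hev := (htend.eventually_gt_atTop 0).and (eventually_gt_atTop (-M))
  obtain ⟨y, hy1, hy2⟩ := hev.exists
  refine ⟨-y, by linarith, ?_⟩
  rw [hq, eval_mul, eval_C, eval_comp, eval_neg, eval_X] at hy1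
  exact hy1

/-- The interlacing step. -/
theorem interlace_step {m : ℕ} {f g : ℝ[X]} (F : Fin m → ℝ) (hF : StrictAnti F)
    (hF0 : ∀ i, F i < 0) {L : ℝ} (hL : 0 < L) (hf : f = C L * ∏ j, (X - C (F j)))
    (hgd : g.natDegree = m + 1) (hgl : 0 < g.leadingCoeff) (hg0 : 0 < g.eval 0)
    (hW : ∀ i, 0 < (derivative g).eval (F i) * f.eval (F i)
      - g.eval (F i) * (derivative f).eval (F i)) :
    ∃ G : Fin (m + 1) → ℝ, StrictAnti G ∧ (∀ i, G i < 0) ∧
      g = C g.leadingCoeff * ∏ j, (X - C (G j)) ∧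
      (∀ i : Fin m, F i < G i.castSucc) ∧ (∀ i : Fin m, G i.succ < F i) := by
  -- signs of `g` at the zeros of `f`
  have hsign : ∀ i : Fin m, 0 < (-1 : ℝ) ^ ((i : ℕ) + 1) * g.eval (F i) := by
    intro i
    have h1 := hW i
    have h2 : f.eval (F i) = 0 := by
      rw [hf, eval_mul, eval_prod, Finset.prod_eq_zero (Finset.mem_univ i) (by simp), mul_zero]
    rw [h2, mul_zero, zero_sub] at h1
    have h3 := deriv_sign F hF hL i
    rw [← hf] at h3
    have h4 : 0 < (-(eval (F i) g * eval (F i) (derivative f)))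
        * ((-1 : ℝ) ^ (i : ℕ) * eval (F i) (derivative f)) := mul_pos h1 h3
    have h5 : (-(eval (F i) g * eval (F i) (derivative f)))
        * ((-1 : ℝ) ^ (i : ℕ) * eval (F i) (derivative f))
        = ((-1 : ℝ) ^ ((i : ℕ) + 1) * g.eval (F i)) * (eval (F i) (derivative f)) ^ 2 := by
      rw [pow_succ]; ring
    rw [h5] at h4
    exact pos_of_mul_pos_left h4 (sq_nonneg _)
  -- a point far to the left
  obtain ⟨M, hM1, hM2⟩ := exists_neg_point hgd hgl
    (-(1 + ∑ i, |F i|))
  have hMF : ∀ i, M < F i := by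
    intro i
    have h1 : |F i| ≤ ∑ i, |F i| := Finset.single_le_sum (fun j _ => abs_nonneg (F j))
      (Finset.mem_univ i)
    have h2 := neg_abs_le (F i)
    linarith
  have hM0 : M < 0 := by
    have : 0 ≤ ∑ i, |F i| := Finset.sum_nonneg fun j _ => abs_nonneg (F j)
    linarith
  -- the sequence of points
  set P : ℕ → ℝ := fun k => if k = 0 then 0 else if h : k - 1 < m then F ⟨k - 1, h⟩ else M with hP
  have hP0 : P 0 = 0 := by simp [hP]
  have hPs : ∀ i : Fin m, P ((i : ℕ) + 1) = F i := by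
    intro i
    simp only [hP]
    rw [if_neg (Nat.succ_ne_zero _), dif_pos (by rw [Nat.add_sub_cancel]; exact i.isLt)]
    congr 1
  have hPM : P (m + 1) = M := by
    simp only [hP]
    rw [if_neg (Nat.succ_ne_zero _), dif_neg (by omega)]
  have hPdec : ∀ k, k ≤ m → P (k + 1) < P k := by
    intro k hk
    rcases Nat.eq_zero_or_pos k with rfl | hkpos
    · rw [hP0]
      rcases Nat.eq_zero_or_pos m with hm | hm
      · subst hm
        rw [hPM]
        exact hM0
      · rw [hPs ⟨0, hm⟩]
        exact hF0 _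
    · obtain ⟨l, rfl⟩ : ∃ l, k = l + 1 := ⟨k - 1, by omega⟩
      have hl : l < m := by omega
      rw [hPs ⟨l, hl⟩]
      rcases hk.lt_or_eq with h | h
      · rw [hPs ⟨l + 1, h⟩]
        apply hF
        simp [Fin.lt_def]
      · rw [h, hPM]
        exact hMF _
  have hPsign : ∀ k, k ≤ m + 1 → 0 < (-1 : ℝ) ^ k * g.eval (P k) := by
    intro k hk
    rcases Nat.eq_zero_or_pos k with rfl | hkpos
    · rw [hP0, pow_zero, one_mul]
      exact hg0
    · obtain ⟨l, rfl⟩ : ∃ l, k = l + 1 := ⟨k - 1, by omega⟩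
      rcases hk.lt_or_eq with h | h
      · have hl : l < m := by omega
        rw [hPs ⟨l, hl⟩]
        exact hsign ⟨l, hl⟩
      · rw [h, hPM]
        exact hM2
  -- zeros of `g` in the gaps
  have hroot : ∀ k : Fin (m + 1), ∃ r, P ((k : ℕ) + 1) < r ∧ r < P k ∧ g.eval r = 0 := by
    intro k
    have hk : (k : ℕ) ≤ m := Nat.lt_succ_iff.mp k.isLt
    have h1 := hPsign k (by omega)
    have h2 := hPsign (k + 1) (by omega)
    have h3 := hPdec k hk
    set q : ℝ → ℝ := fun x => (-1 : ℝ) ^ (k : ℕ) * g.eval x with hq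
    have hqc : ContinuousOn q (Set.Icc (P ((k : ℕ) + 1)) (P k)) :=
      (continuous_const.mul g.continuous).continuousOn
    have h4 : q (P ((k : ℕ) + 1)) < 0 := by
      simp only [hq]
      rw [pow_succ] at h2
      linarith
    have h5 : 0 < q (P k) := h1
    obtain ⟨r, hr, hqr⟩ := intermediate_value_Ioo h3.le hqc ⟨h4, h5⟩
    refine ⟨r, hr.1, hr.2, ?_⟩
    simp only [hq] at hqr
    exact (mul_eq_zero.mp hqr).resolve_left (pow_ne_zero _ (by norm_num))
  choose G hG1 hG2 hG3 using hroot
  have hGanti : StrictAnti G := by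
    rw [Fin.strictAnti_iff_succ_lt]
    intro i
    have h1 := hG2 i.succ
    have h2 := hG1 i.castSucc
    simp only [Fin.val_succ, Fin.val_castSucc] at h1 h2
    linarith
  refine ⟨G, hGanti, ?_, factor_of_roots hgd G hGanti.injective hG3, ?_, ?_⟩
  · intro i
    have h1 : G i ≤ G 0 := hGanti.antitone (Fin.zero_le i)
    have h2 := hG2 0
    simp only [Fin.val_zero] at h2
    rw [hP0] at h2
    linarith
  · intro i
    have h2 := hG1 i.castSucc
    simp only [Fin.val_castSucc] at h2
    rw [hPs i] at h2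
    exact h2
  · intro i
    have h2 := hG2 i.succ
    simp only [Fin.val_succ] at h2
    rw [hPs i] at h2
    exact h2

end Pool.Agent.X116
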