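import Mathlib

/-!
# Laguerre's theorem and the coincidence theorem for a half-plane
-/

open Polynomial

namespace Pool.Agent.X116

/-- the condition `|ξ|² Im z + Im ξ` which describes the image of a half-plane -/
noncomputable def hh (z ξ : ℂ) : ℝ := Complex.normSq ξ * z.im + ξ.im

lemma hh_inv {z w : ℂ} (h : z ≠ w) : hh z (1 / (z - w)) = w.im / Complex.normSq (z - w) := by
  have h1 : z - w ≠ 0 := sub_ne_zero.mpr h
  have h2 : Complex.normSq (z - w) ≠ 0 := (Complex.normSq_pos.mpr h1).ne'
  unfold hh
  rw [one_div, Complex.inv_im, map_inv₀, Complex.sub_im]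
  field_simp
  ring

/-- Laguerre's theorem for the closed lower half-plane. -/
theorem laguerre_lower {Q : ℂ[X]} {d : ℕ} (hd : Q.natDegree ≤ d) (hd1 : 1 ≤ d)
    (hQ : ∀ z : ℂ, z.im ≤ 0 → Q.eval z ≠ 0) {a z : ℂ} (ha : a.im ≤ 0) (hz : z.im ≤ 0) :
    (d : ℂ) * Q.eval z + (a - z) * Q.derivative.eval z ≠ 0 := by
  have hq := hQ z hz
  have hdpos : (0 : ℝ) < d := by exact_mod_cast hd1
  by_cases haz : a = z
  · rw [haz, sub_self, zero_mul, add_zero]
    exact mul_ne_zero (by exact_mod_cast hdpos.ne') hq
  have hs := IsAlgClosed.splits Q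
  have hform := hs.eval_derivative_eq_eval_mul_sum hq
  set S := (Q.roots.map fun w => 1 / (z - w)).sum with hS
  rw [hform]
  have key : (d : ℂ) * Q.eval z + (a - z) * (Q.eval z * S)
      = Q.eval z * ((d : ℂ) + (a - z) * S) := by ring
  rw [key]
  refine mul_ne_zero hq ?_
  intro h0
  by_cases hroots : Q.roots = 0
  · rw [hS, hroots] at h0
    simp only [Multiset.map_zero, Multiset.sum_zero, mul_zero, add_zero] at h0
    exact absurd h0 (by exact_mod_cast hdpos.ne')
  -- Jensen for the concave function `hh z`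
  have hroot : ∀ w ∈ Q.roots, 0 < w.im := by
    intro w hw
    have hw0 : Q.eval w = 0 := (Polynomial.mem_roots'.1 hw).2
    by_contra hlt
    exact hQ w (not_lt.1 hlt) hw0
  have hsumim : 0 < (d : ℝ) * S.im + Complex.normSq S * z.im := by
    -- Cauchy–Schwarz: `normSq S ≤ card * ∑ normSq ξ`
    have hcs : ∀ s : Multiset ℂ, Complex.normSq s.sum
        ≤ (Multiset.card s : ℝ) * (s.map fun ξ => Complex.normSq ξ).sum := by
      intro s
      induction s using Multiset.induction_on with
      | empty => simp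
      | cons b s ih =>
        have hnn : 0 ≤ (s.map fun ξ => Complex.normSq ξ).sum := by
          apply Multiset.sum_nonneg
          intro x hx
          obtain ⟨ξ, _, rfl⟩ := Multiset.mem_map.mp hx
          exact Complex.normSq_nonneg ξ
        simp only [Multiset.sum_cons, Multiset.card_cons, Multiset.map_cons]
        set A := (s.map fun ξ => Complex.normSq ξ).sum
        set n : ℝ := (Multiset.card s : ℝ)
        have hn : 0 ≤ n := Nat.cast_nonneg _
        push_cast
        by_cases hn0 : Multiset.card s = 0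
        · rw [Multiset.card_eq_zero] at hn0
          subst hn0
          simp [A]
        · have hn1 : 0 < n := by
            have : 0 < Multiset.card s := Nat.pos_of_ne_zero hn0
            exact Nat.cast_pos.mpr this
          have h1 : Complex.normSq (b + s.sum) = Complex.normSq b + Complex.normSq s.sum
              + 2 * (b * (starRingEnd ℂ) s.sum).re := Complex.normSq_add b s.sum
          have h2 : 2 * (b * (starRingEnd ℂ) s.sum).re
              ≤ n * Complex.normSq b + Complex.normSq s.sum / n := by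
            have h3 : 0 ≤ Complex.normSq ((n : ℂ) * b - s.sum) := Complex.normSq_nonneg _
            rw [Complex.normSq_sub, Complex.normSq_mul, Complex.normSq_ofReal] at h3
            have h4 : ((n : ℂ) * b * (starRingEnd ℂ) s.sum).re
                = n * (b * (starRingEnd ℂ) s.sum).re := by
              rw [mul_assoc, Complex.re_ofReal_mul]
            rw [h4] at h3
            have h5 : n * Complex.normSq b + Complex.normSq s.sum / n
                - 2 * (b * (starRingEnd ℂ) s.sum).re
                = (n * n * Complex.normSq b + Complex.normSq s.sum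
                  - 2 * (n * (b * (starRingEnd ℂ) s.sum).re)) / n := by
              field_simp
            have h6 : 0 ≤ (n * n * Complex.normSq b + Complex.normSq s.sum
                  - 2 * (n * (b * (starRingEnd ℂ) s.sum).re)) / n := div_nonneg h3 hn1.le
            linarith
          have h7 : Complex.normSq s.sum / n ≤ A := by
            rw [div_le_iff₀ hn1]
            linarith
          linarith
    have hcard : Multiset.card Q.roots ≤ d := (Polynomial.card_roots' Q).trans hd
    set s : Multiset ℂ := Q.roots.map fun w => 1 / (z - w) with hs'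
    have hcs' := hcs s
    rw [hs', Multiset.card_map, ← hs'] at hcs'
    have hSs : S = s.sum := rfl
    rw [← hSs] at hcs'
    -- each term is positive
    have hterm : 0 < (s.map fun ξ => hh z ξ).sum := by
      have hne : (s.map fun ξ => hh z ξ) ≠ 0 := by
        rw [hs']
        simpa using hroots
      have hpos : ∀ x ∈ (s.map fun ξ => hh z ξ), 0 < x := by
        intro x hx
        obtain ⟨ξ, hξ, rfl⟩ := Multiset.mem_map.mp hx
        obtain ⟨w, hw, rfl⟩ := Multiset.mem_map.mp hξ
        have hw' := hroot w hw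
        have hne : z ≠ w := by
          rintro rfl
          linarith
        rw [hh_inv hne]
        exact div_pos hw' (Complex.normSq_pos.mpr (sub_ne_zero.mpr hne))
      obtain ⟨x, hx⟩ := Multiset.exists_mem_of_ne_zero hne
      exact lt_of_lt_of_le (hpos x hx) (Multiset.single_le_sum (fun y hy => (hpos y hy).le) x hx)
    have hexp : (s.map fun ξ => hh z ξ).sum
        = (s.map fun ξ => Complex.normSq ξ).sum * z.im + S.im := by
      unfold hh
      rw [Multiset.sum_map_add, Multiset.sum_map_mul_right]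
      congr 1
      rw [hSs, ← Complex.imLm_coe, map_multiset_sum]
    rw [hexp] at hterm
    have hA : 0 ≤ (s.map fun ξ => Complex.normSq ξ).sum := by
      apply Multiset.sum_nonneg
      intro x hx
      obtain ⟨ξ, _, rfl⟩ := Multiset.mem_map.mp hx
      exact Complex.normSq_nonneg ξ
    have hcardR : (Multiset.card Q.roots : ℝ) ≤ d := by exact_mod_cast hcard
    have h1 : Complex.normSq S ≤ d * (s.map fun ξ => Complex.normSq ξ).sum :=
      hcs'.trans (mul_le_mul_of_nonneg_right hcardR hA)
    have h2 : (d : ℝ) * (s.map fun ξ => Complex.normSq ξ).sum * z.im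
        ≤ Complex.normSq S * z.im := mul_le_mul_of_nonpos_right h1 hz
    have h3 : 0 < (d : ℝ) * ((s.map fun ξ => Complex.normSq ξ).sum * z.im + S.im) :=
      mul_pos hdpos hterm
    nlinarith
  -- but `S = d / (z - a)`
  have haz' : z - a ≠ 0 := sub_ne_zero.mpr (Ne.symm haz)
  have hSval : S = (d : ℂ) * (1 / (z - a)) := by
    field_simp
    linear_combination (-1 : ℂ) * h0
  have h1 : (d : ℝ) * S.im + Complex.normSq S * z.im = (d : ℝ) ^ 2 * hh z (1 / (z - a)) := by
    rw [hSval]
    unfold hh
    rw [Complex.normSq_mul, Complex.normSq_natCast]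
    have : ((d : ℂ) * (1 / (z - a))).im = (d : ℝ) * (1 / (z - a)).im := by
      rw [← Complex.ofReal_natCast, Complex.im_ofReal_mul]
    rw [this]
    ring
  rw [h1, hh_inv (Ne.symm haz)] at hsumim
  have h2 : a.im / Complex.normSq (z - a) ≤ 0 :=
    div_nonpos_of_nonpos_of_nonneg ha (Complex.normSq_nonneg _)
  nlinarith [sq_nonneg (d : ℝ)]

/-- the polynomial `ζ ↦ Λ ((X - ζ) ^ d)` -/
noncomputable def LamPoly (Λ : ℂ[X] →ₗ[ℂ] ℂ) (d : ℕ) : ℂ[X] :=
  ∑ i ∈ Finset.range (d + 1), C ((d.choose i : ℂ) * (-1) ^ i * Λ (X ^ (d - i))) * X ^ i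

lemma LamPoly_eval (Λ : ℂ[X] →ₗ[ℂ] ℂ) (d : ℕ) (ζ : ℂ) :
    (LamPoly Λ d).eval ζ = Λ ((X - C ζ) ^ d) := by
  unfold LamPoly
  have h : ((X - C ζ) ^ d : ℂ[X]) = ∑ i ∈ Finset.range (d + 1),
      ((d.choose i : ℂ) * (-1) ^ i * ζ ^ i) • (X ^ (d - i)) := by
    have h1 : ((X - C ζ) ^ d : ℂ[X]) = (-C ζ + X) ^ d := by ring
    rw [h1, add_pow]
    refine Finset.sum_congr rfl fun i _ => ?_
    rw [smul_eq_C_mul, C_mul, C_mul, C_pow, C_pow, C_neg, C_1, neg_pow (C ζ) i]
    have : (C ((d.choose i : ℕ) : ℂ) : ℂ[X]) = ((d.choose i : ℕ) : ℂ[X]) := by simp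
    rw [this]
    ring
  rw [h, map_sum, eval_finsetSum]
  refine Finset.sum_congr rfl fun i _ => ?_
  rw [map_smul, smul_eq_mul, eval_mul, eval_C, eval_pow, eval_X]
  ring

lemma LamPoly_natDegree (Λ : ℂ[X] →ₗ[ℂ] ℂ) (d : ℕ) : (LamPoly Λ d).natDegree ≤ d := by
  unfold LamPoly
  refine natDegree_sum_le_of_forall_le _ _ fun i hi => ?_
  refine (natDegree_C_mul_X_pow_le _ _).trans ?_
  have := Finset.mem_range.1 hi
  omega

lemma LamPoly_derivative (Λ : ℂ[X] →ₗ[ℂ] ℂ) (d : ℕ) :
    derivative (LamPoly Λ (d + 1)) = C (-((d : ℂ) + 1)) * LamPoly Λ d := by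
  unfold LamPoly
  rw [derivative_sum, Finset.sum_range_succ' _ (d + 1), Finset.mul_sum]
  simp only [derivative_C_mul_X_pow, Nat.cast_zero, mul_zero, C_0, zero_mul, add_zero]
  refine Finset.sum_congr rfl fun i hi => ?_
  have h := Nat.add_one_mul_choose_eq d i
  have h' : ((d : ℂ) + 1) * (d.choose i : ℂ) = ((d + 1).choose (i + 1) : ℂ) * ((i : ℂ) + 1) := by
    exact_mod_cast h
  have e : d + 1 - (i + 1) = d - i := by omega
  rw [e, ← mul_assoc, ← C_mul, Nat.add_sub_cancel]
  congr 2
  push_cast
  rw [pow_succ]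
  linear_combination ((-1) ^ i * Λ (X ^ (d - i))) * h'

/-- The coincidence theorem for the closed lower half-plane: if the functional `Λ` does not
vanish on `(X - ζ) ^ d` for `Im ζ ≤ 0`, then it does not vanish on products of `d` linear factors
with zeros in the closed lower half-plane. -/
theorem coincidence_lower (s : Multiset ℂ) : ∀ Λ : ℂ[X] →ₗ[ℂ] ℂ,
    (∀ ζ : ℂ, ζ.im ≤ 0 → Λ ((X - C ζ) ^ (Multiset.card s)) ≠ 0) → (∀ a ∈ s, a.im ≤ 0) →
    Λ ((s.map fun a => X - C a).prod) ≠ 0 := by
  induction s using Multiset.induction_on with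
  | empty =>
    intro Λ h _
    simpa using h 0 (by simp)
  | cons a s ih =>
    intro Λ h ha
    rw [Multiset.card_cons] at h
    have ha0 : a.im ≤ 0 := ha a (Multiset.mem_cons_self a s)
    set Λ' : ℂ[X] →ₗ[ℂ] ℂ := Λ.comp (LinearMap.mulLeft ℂ (X - C a)) with hΛ'
    have h1 : Λ' ((s.map fun a => X - C a).prod) ≠ 0 := by
      apply ih Λ' _ (fun b hb => ha b (Multiset.mem_cons_of_mem hb))
      intro ζ hζ
      set d := Multiset.card s with hd
      have h2 := laguerre_lower (Q := LamPoly Λ (d + 1)) (d := d + 1) (LamPoly_natDegree Λ (d + 1))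
        (by omega) (fun z hz => by rw [LamPoly_eval]; exact h z hz) ha0 hζ
      rw [LamPoly_derivative, eval_mul, eval_C, LamPoly_eval, LamPoly_eval] at h2
      have h3 : Λ' ((X - C ζ) ^ d) = Λ ((X - C ζ) ^ (d + 1)) - (a - ζ) * Λ ((X - C ζ) ^ d) := by
        rw [hΛ', LinearMap.comp_apply, LinearMap.mulLeft_apply, ← smul_eq_mul (a - ζ),
          ← map_smul, ← map_sub]
        congr 1
        rw [smul_eq_C_mul, C_sub]
        ring
      rw [h3]
      intro h4
      apply h2
      push_cast
      linear_combination ((d : ℂ) + 1) * h4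
    rw [Multiset.map_cons, Multiset.prod_cons]
    exact h1

end Pool.Agent.X116
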