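import Mathlib
import Pool.Agent.X116.Hyp
import Pool.Agent.X116.GWS

/-!
# Products of shifted Legendre differential operators preserve hyperbolicity
-/

open Polynomial

namespace Pool.Agent.X116

namespace Hyp

/-- a cofactor of a nonzero polynomial in a hyperbolic product is hyperbolic -/
theorem of_mul_left {p q : ℝ[X]} (h : Hyp (p * q)) (hp : p ≠ 0) : Hyp q := by
  rcases h with h | h
  · exact Or.inl ((mul_eq_zero.mp h).resolve_left hp)
  · right
    intro z hz
    exact h z (by rw [map_mul, hz, mul_zero])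

/-- It suffices to exclude zeros in the upper half-plane. -/
theorem of_upper {p : ℝ[X]} (h : ∀ z : ℂ, 0 < z.im → aeval z p ≠ 0) : Hyp p := by
  right
  intro z hz
  rcases lt_trichotomy z.im 0 with h1 | h1 | h1
  · exfalso
    refine h (starRingEnd ℂ z) (by simpa using h1) ?_
    rw [Polynomial.aeval_conj, hz, map_zero]
  · exact h1
  · exact absurd hz (h z h1)

end Hyp

namespace FallLeg

/-- `(x² - 1) f'' + 2 a x f' + c f` -/
noncomputable def UU (a c : ℝ) : ℝ[X] →ₗ[ℝ] ℝ[X] :=
  (LinearMap.mulLeft ℝ (X ^ 2 - 1)).comp (derivative.comp derivative)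
    + (LinearMap.mulLeft ℝ (C (2 * a) * X)).comp derivative + c • LinearMap.id

lemma UU_apply (a c : ℝ) (f : ℝ[X]) :
    UU a c f = (X ^ 2 - 1) * derivative (derivative f) + C (2 * a) * X * derivative f + C c * f := by
  simp [UU, smul_eq_C_mul]
  ring

lemma derivative_UU (a c : ℝ) (f : ℝ[X]) :
    derivative (UU a c f) = UU (a + 1) (c + 2 * a) (derivative f) := by
  rw [UU_apply, UU_apply]
  simp only [derivative_add, derivative_mul, derivative_sub, derivative_X_pow, derivative_one,
    derivative_C, derivative_X, sub_zero, zero_mul, zero_add, mul_one]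
  simp only [C_mul, C_add, Nat.cast_ofNat, C_1]
  norm_num
  ring

/-- the quadratic form argument -/
lemma quad_ne {N B c : ℝ} (hN : 0 < N) (hB : 0 < B) (hc : 0 ≤ c) (hdisc : N * c ≤ B ^ 2)
    {z t : ℂ} (hz : 0 < z.im) (ht : 0 < t.im) :
    (N : ℂ) * (z ^ 2 - 1) + 2 * B * (z * t) + c * t ^ 2 ≠ 0 := by
  intro h
  set x := z.re
  set y := z.im
  set u := t.re
  set v := t.im
  have hre := congrArg Complex.re h
  have him := congrArg Complex.im h
  have e1 : ((N : ℂ) * (z ^ 2 - 1) + 2 * B * (z * t) + c * t ^ 2).re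
      = N * (x ^ 2 - y ^ 2 - 1) + 2 * B * (x * u - y * v) + c * (u ^ 2 - v ^ 2) := by
    simp [pow_two, x, y, u, v]
  have e2 : ((N : ℂ) * (z ^ 2 - 1) + 2 * B * (z * t) + c * t ^ 2).im
      = 2 * (N * (x * y) + B * (x * v + y * u) + c * (u * v)) := by
    simp [pow_two, x, y, u, v]
    ring
  rw [e1, Complex.zero_re] at hre
  rw [e2, Complex.zero_im] at him
  have hBil : N * (x * y) + B * (x * v + y * u) + c * (u * v) = 0 := by linarith
  have hQq : 0 < N * y ^ 2 + 2 * B * (y * v) + c * v ^ 2 := by
    have h1 : 0 < N * y ^ 2 := by positivity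
    have h2 : 0 < 2 * B * (y * v) := by positivity
    have h3 : 0 ≤ c * v ^ 2 := by positivity
    linarith
  have hQp : N * x ^ 2 + 2 * B * (x * u) + c * u ^ 2
      = N + (N * y ^ 2 + 2 * B * (y * v) + c * v ^ 2) := by linarith
  have hid : (N * x ^ 2 + 2 * B * (x * u) + c * u ^ 2) * (N * y ^ 2 + 2 * B * (y * v) + c * v ^ 2)
      = (N * (x * y) + B * (x * v + y * u) + c * (u * v)) ^ 2
        + (N * c - B ^ 2) * (x * v - u * y) ^ 2 := by ring
  rw [hBil, hQp] at hid
  have h4 : (N * c - B ^ 2) * (x * v - u * y) ^ 2 ≤ 0 :=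
    mul_nonpos_of_nonpos_of_nonneg (by linarith) (sq_nonneg _)
  have h5 : 0 < (N + (N * y ^ 2 + 2 * B * (y * v) + c * v ^ 2))
      * (N * y ^ 2 + 2 * B * (y * v) + c * v ^ 2) := by
    apply mul_pos _ hQq
    linarith
  nlinarith

/-- the functional -/
noncomputable def Lam (a c : ℝ) (z : ℂ) : ℂ[X] →ₗ[ℂ] ℂ :=
  (z ^ 2 - 1) • ((Polynomial.leval z).comp (derivative.comp derivative))
    + (2 * a * z) • ((Polynomial.leval z).comp derivative) + (c : ℂ) • Polynomial.leval z

lemma Lam_apply (a c : ℝ) (z : ℂ) (f : ℂ[X]) :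
    Lam a c z f = (z ^ 2 - 1) * (derivative (derivative f)).eval z
      + 2 * a * z * (derivative f).eval z + c * f.eval z := by
  simp [Lam]

lemma Lam_pow_ne {a c : ℝ} (ha : 1 ≤ a) (hc : 0 ≤ c) (hca : c ≤ a ^ 2) {z : ℂ} (hz : 0 < z.im)
    {n : ℕ} (hn : 1 ≤ n) {ζ : ℂ} (hζ : ζ.im ≤ 0) : Lam a c z ((X - C ζ) ^ n) ≠ 0 := by
  rw [Lam_apply]
  rcases n with _ | _ | m
  · omega
  · simp only [zero_add, pow_one, derivative_sub, derivative_X, derivative_C, sub_zero,
      derivative_one, eval_zero, mul_zero, eval_one, mul_one, eval_sub, eval_X, eval_C]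
    intro h
    have h1 := congrArg Complex.im h
    simp at h1
    nlinarith
  · have hne : z - ζ ≠ 0 := by
      intro h
      rw [sub_eq_zero] at h
      rw [h] at hz
      linarith
    have h1 : derivative ((X - C ζ) ^ (m + 1 + 1) : ℂ[X])
        = C ((m : ℂ) + 2) * (X - C ζ) ^ (m + 1) := by
      rw [derivative_X_sub_C_pow]
      push_cast
      simp only [Nat.add_sub_cancel, map_add, map_natCast, map_one]
      rw [show (C 2 : ℂ[X]) = 2 from rfl]
      ring
    have h2 : derivative (derivative ((X - C ζ) ^ (m + 1 + 1) : ℂ[X]))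
        = C (((m : ℂ) + 2) * ((m : ℂ) + 1)) * (X - C ζ) ^ m := by
      rw [h1, derivative_C_mul, derivative_X_sub_C_pow]
      push_cast
      simp only [Nat.add_sub_cancel, map_add, map_natCast, map_one, C_mul]
      ring
    rw [h2, h1]
    simp only [eval_mul, eval_C, eval_pow, eval_sub, eval_X]
    have ht : 0 < (z - ζ).im := by
      rw [Complex.sub_im]
      linarith
    have hkey := quad_ne (N := ((m : ℝ) + 2) * ((m : ℝ) + 1)) (B := a * ((m : ℝ) + 2)) (c := c)
      (by positivity) (by positivity) hc (by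
        have h3 : 0 ≤ ((m : ℝ) + 2) := by positivity
        have h4 : ((m : ℝ) + 2) * ((m : ℝ) + 1) * c ≤ ((m : ℝ) + 2) * ((m : ℝ) + 1) * a ^ 2 :=
          mul_le_mul_of_nonneg_left hca (by positivity)
        have h5 : ((m : ℝ) + 2) * ((m : ℝ) + 1) * a ^ 2 ≤ (a * ((m : ℝ) + 2)) ^ 2 := by
          have : 0 ≤ a ^ 2 * ((m : ℝ) + 2) := by positivity
          nlinarith
        linarith) hz ht
    intro h0
    have h6 : (z - ζ) ^ m * (((((m : ℝ) + 2) * ((m : ℝ) + 1) : ℝ) : ℂ) * (z ^ 2 - 1)
        + 2 * ((a * ((m : ℝ) + 2) : ℝ) : ℂ) * (z * (z - ζ)) + c * (z - ζ) ^ 2) = 0 := by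
      push_cast
      rw [← h0]
      ring
    rcases mul_eq_zero.mp h6 with h7 | h7
    · exact hne (eq_zero_of_pow_eq_zero h7)
    · exact hkey h7

/-- The operator `(x² - 1) D² + 2 a x D + c` with `0 ≤ c ≤ a²`, `a ≥ 1` preserves
hyperbolicity. -/
theorem UU_hyp {a c : ℝ} (ha : 1 ≤ a) (hc : 0 ≤ c) (hca : c ≤ a ^ 2) {f : ℝ[X]} (hf : Hyp f) :
    Hyp (UU a c f) := by
  obtain ⟨s, hs⟩ := hf.exists_roots
  by_cases hf0 : f = 0
  · left
    rw [hf0, map_zero]
  by_cases hs0 : s = 0
  · subst hs0
    rw [hs, UU_apply]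
    simp only [Multiset.map_zero, Multiset.prod_zero, mul_one, derivative_C, derivative_zero,
      mul_zero, zero_add]
    rw [← C_mul]
    have := Hyp.of_roots (c * f.leadingCoeff) 0
    simpa using this
  apply Hyp.of_upper
  intro z hz
  have hlc : (f.leadingCoeff : ℂ) ≠ 0 := by
    exact_mod_cast leadingCoeff_ne_zero.mpr hf0
  -- pass to complex polynomials
  set s' : Multiset ℂ := s.map fun r : ℝ => (r : ℂ) with hs'
  set F : ℂ[X] := (s'.map fun b => X - C b).prod with hF
  have hmap : f.map (algebraMap ℝ ℂ) = C (f.leadingCoeff : ℂ) * F := by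
    conv_lhs => rw [hs]
    rw [Polynomial.map_mul, map_C, Polynomial.map_multiset_prod, Multiset.map_map, hF, hs',
      Multiset.map_map]
    congr 2
    apply Multiset.map_congr rfl
    intro r _
    simp
  have hne : Lam a c z F ≠ 0 := by
    apply coincidence_lower
    · intro ζ hζ
      refine Lam_pow_ne ha hc hca hz ?_ hζ
      rw [hs', Multiset.card_map]
      exact Multiset.card_pos.mpr hs0
    · intro b hb
      obtain ⟨r, _, rfl⟩ := Multiset.mem_map.mp hb
      simp
  have heq : aeval z (UU a c f) = (f.leadingCoeff : ℂ) * Lam a c z F := by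
    rw [← smul_eq_mul, ← map_smul, smul_eq_C_mul, ← hmap, Lam_apply, UU_apply]
    rw [derivative_map, derivative_map]
    simp only [map_add, map_mul, map_sub, map_pow, aeval_X, aeval_C, map_one, eval_map_algebraMap]
    simp
  rw [heq]
  exact mul_ne_zero hlc hne

/-- the product of the operators `L_b + b (b + 1) - i` for `i = k, …, k + d - 1`, where
`L_b = (x² - 1) D² + 2 (b + 1) x D` -/
noncomputable def VV (b : ℕ) : ℕ → ℕ → (ℝ[X] →ₗ[ℝ] ℝ[X])
  | _, 0 => LinearMap.id
  | k, d + 1 => (UU ((b : ℝ) + 1) ((b : ℝ) * (b + 1) - k)).comp (VV b (k + 1) d)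

lemma VV_succ (b k d : ℕ) (g : ℝ[X]) :
    VV b k (d + 1) g = UU ((b : ℝ) + 1) ((b : ℝ) * (b + 1) - k) (VV b (k + 1) d g) := rfl

lemma derivative_VV (b : ℕ) (d : ℕ) : ∀ (k : ℕ) (g : ℝ[X]),
    derivative (VV b k d g) = VV (b + 1) k d (derivative g) := by
  induction d with
  | zero => intro k g; rfl
  | succ d ih =>
    intro k g
    rw [VV_succ, VV_succ, derivative_UU, ih]
    have e1 : ((b : ℝ) + 1 + 1) = (((b + 1 : ℕ) : ℝ) + 1) := by push_cast; ring
    have e2 : ((b : ℝ) * (b + 1) - k + 2 * ((b : ℝ) + 1))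
        = (((b + 1 : ℕ) : ℝ) * (((b + 1 : ℕ) : ℝ) + 1) - k) := by push_cast; ring
    rw [e1, e2]

theorem VV_hyp (d : ℕ) : ∀ (b k : ℕ) (g : ℝ[X]), k ≤ b * (b + 1) → Hyp g → Hyp (VV b k d g) := by
  induction d with
  | zero => intro b k g _ hg; exact hg
  | succ d ih =>
    intro b k g hk hg
    rw [VV_succ]
    rcases hk.lt_or_eq with hlt | heq
    · refine UU_hyp ?_ ?_ ?_ (ih b (k + 1) g hlt hg)
      · have : (0 : ℝ) ≤ b := Nat.cast_nonneg b
        linarith
      · have : (k : ℝ) ≤ ((b * (b + 1) : ℕ) : ℝ) := by exact_mod_cast hk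
        push_cast at this
        linarith
      · have h1 : (0 : ℝ) ≤ k := Nat.cast_nonneg k
        have h2 : (0 : ℝ) ≤ b := Nat.cast_nonneg b
        nlinarith
    · -- `c = 0`
      have hc : ((b : ℝ) * (b + 1) - k) = 0 := by
        have : (k : ℝ) = ((b * (b + 1) : ℕ) : ℝ) := by exact_mod_cast heq
        push_cast at this
        linarith
      rw [hc]
      set h := VV b (k + 1) d g with hh
      have hDh : Hyp (derivative h) := by
        rw [hh, derivative_VV]
        exact ih (b + 1) (k + 1) (derivative g) (by rw [heq]; nlinarith) hg.deriv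
      have hq : Hyp ((X ^ 2 - 1 : ℝ[X]) ^ (b + 1)) := by
        have h1 : Hyp (X ^ 2 - 1 : ℝ[X]) := by
          have := Hyp.of_roots 1 ({1, -1} : Multiset ℝ)
          have e : (C 1 * (({1, -1} : Multiset ℝ).map fun a : ℝ => X - C a).prod : ℝ[X])
              = X ^ 2 - 1 := by
            simp
            ring
          rwa [e] at this
        have h2 : ∀ n : ℕ, Hyp ((X ^ 2 - 1 : ℝ[X]) ^ n) := by
          intro n
          induction n with
          | zero =>
            have := Hyp.of_roots 1 0
            simpa using this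
          | succ n ihn =>
            rw [pow_succ]
            exact ihn.mul h1
        exact h2 _
      have hprod := (hq.mul hDh).deriv
      have heq2 : derivative ((X ^ 2 - 1 : ℝ[X]) ^ (b + 1) * derivative h)
          = (X ^ 2 - 1) ^ b * UU ((b : ℝ) + 1) 0 h := by
        rw [UU_apply, derivative_mul, derivative_pow]
        simp only [derivative_sub, derivative_X_pow, derivative_one, sub_zero, Nat.add_sub_cancel,
          C_0, zero_mul, add_zero]
        push_cast
        simp only [C_mul, C_add, C_1, map_natCast]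
        rw [show (C 2 : ℝ[X]) = 2 from rfl, pow_succ]
        ring
      rw [heq2] at hprod
      refine hprod.of_mul_left (pow_ne_zero _ ?_)
      have := X_pow_sub_C_ne_zero (R := ℝ) (n := 2) (by norm_num) 1
      simpa using this

/-- iterated derivatives of `x u` -/
lemma iter_X_mul (u : ℝ[X]) (n : ℕ) :
    derivative^[n + 1] (X * u) = X * derivative^[n + 1] u + C ((n : ℝ) + 1) * derivative^[n] u := by
  induction n with
  | zero =>
    simp only [zero_add, Function.iterate_one, Function.iterate_zero, id, derivative_mul,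
      derivative_X, Nat.cast_zero, C_1]
    ring
  | succ n ih =>
    rw [Function.iterate_succ_apply', ih]
    simp only [derivative_add, derivative_mul, derivative_X, derivative_C, zero_mul, zero_add]
    rw [← Function.iterate_succ_apply' derivative (n + 1) u,
      ← Function.iterate_succ_apply' derivative n u]
    push_cast
    simp only [C_add, C_1, map_natCast]
    ring

/-- iterated derivatives of `(x² - 1) u` -/
lemma iter_sq_mul (u : ℝ[X]) (n : ℕ) :
    derivative^[n + 2] ((X ^ 2 - 1) * u) = (X ^ 2 - 1) * derivative^[n + 2] u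
      + C (2 * ((n : ℝ) + 2)) * X * derivative^[n + 1] u
      + C (((n : ℝ) + 2) * ((n : ℝ) + 1)) * derivative^[n] u := by
  induction n with
  | zero =>
    simp only [zero_add, Function.iterate_succ_apply', Function.iterate_zero, id, derivative_mul,
      derivative_sub, derivative_X_pow, derivative_one, sub_zero, derivative_add, Nat.cast_ofNat,
      derivative_C, zero_mul]
    norm_num
    simp only [C_mul, C_add, C_1, show (C 2 : ℝ[X]) = 2 from rfl, show (C 4 : ℝ[X]) = 4 from rfl]
    ring
  | succ n ih =>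
    rw [Function.iterate_succ_apply', ih]
    simp only [derivative_add, derivative_mul, derivative_sub, derivative_X_pow, derivative_one,
      sub_zero, derivative_X, derivative_C, zero_mul, zero_add, Nat.cast_ofNat, mul_one]
    rw [← Function.iterate_succ_apply' derivative (n + 2) u,
      ← Function.iterate_succ_apply' derivative (n + 1) u,
      ← Function.iterate_succ_apply' derivative n u]
    push_cast
    simp only [C_mul, C_add, C_1, map_natCast, show (C 2 : ℝ[X]) = 2 from rfl]
    norm_num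
    ring

/-- the differential equation of `D^k (x² - 1)^k` -/
lemma legendre_ode (k : ℕ) :
    UU 1 0 (derivative^[k] ((X ^ 2 - 1 : ℝ[X]) ^ k))
      = C ((k : ℝ) * (k + 1)) * derivative^[k] ((X ^ 2 - 1 : ℝ[X]) ^ k) := by
  rcases k with _ | _ | j
  · rw [UU_apply]; simp
  · rw [UU_apply]
    simp
    norm_num
    simp only [show (C 2 : ℝ[X]) = 2 from rfl]
    ring
  · -- `(x² - 1) u' = 2 k x u`
    set k := j + 2 with hk
    set u : ℝ[X] := (X ^ 2 - 1) ^ k with hu
    have h1 : (X ^ 2 - 1) * derivative u = C (2 * (k : ℝ)) * (X * u) := by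
      rw [hu, derivative_pow, hk]
      simp only [derivative_sub, derivative_X_pow, derivative_one, sub_zero]
      push_cast
      simp only [C_mul, C_add, map_natCast, show (C 2 : ℝ[X]) = 2 from rfl]
      ring
    have h2 := congrArg (fun p => derivative^[k + 1] p) h1
    beta_reduce at h2
    rw [iterate_derivative_C_mul, iter_X_mul] at h2
    have h3 := iter_sq_mul (derivative u) (j + 1)
    rw [show j + 1 + 2 = k + 1 by omega] at h3
    rw [h3] at h2
    have e0 : derivative^[k + 1] (derivative u) = derivative (derivative (derivative^[k] u)) := by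
      rw [← Function.iterate_succ_apply, Function.iterate_succ_apply', Function.iterate_succ_apply']
    have e1 : derivative^[j + 1 + 1] (derivative u) = derivative (derivative^[k] u) := by
      rw [← Function.iterate_succ_apply, Function.iterate_succ_apply']
    have e2 : derivative^[j + 1] (derivative u) = derivative^[k] u := by
      rw [← Function.iterate_succ_apply]
    have e3 : derivative^[k + 1] u = derivative (derivative^[k] u) := by
      rw [Function.iterate_succ_apply']
    rw [e0, e1, e2, e3] at h2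
    rw [UU_apply]
    have hkj : (k : ℝ) = (j : ℝ) + 2 := by rw [hk]; push_cast; ring
    rw [hkj] at h2 ⊢
    push_cast at h2
    simp only [C_mul, C_add, C_1, C_0, map_natCast, show (C 2 : ℝ[X]) = 2 from rfl] at h2 ⊢
    linear_combination h2

lemma VV_eigen {P : ℝ[X]} {m : ℝ} (hP : UU 1 0 P = C m * P) (d : ℕ) : ∀ k : ℕ,
    VV 0 k d P = C (∏ i ∈ Finset.range d, (m - ((k : ℝ) + i))) * P := by
  have hU : ∀ c : ℝ, UU 1 c P = C (m + c) * P := by
    intro c
    have h1 : UU 1 c P = UU 1 0 P + C c * P := by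
      rw [UU_apply, UU_apply, C_0, zero_mul, add_zero]
    rw [h1, hP, C_add, add_mul]
  induction d with
  | zero =>
    intro k
    rw [Finset.prod_range_zero, C_1, one_mul]
    rfl
  | succ d ih =>
    intro k
    rw [VV_succ, ih, ← smul_eq_C_mul, map_smul]
    have e1 : (((0 : ℕ) : ℝ) + 1) = 1 := by simp
    rw [e1, hU, Finset.prod_range_succ', smul_eq_C_mul, ← mul_assoc, ← C_mul]
    congr 2
    push_cast
    have e2 : ∏ i ∈ Finset.range d, (m - ((k : ℝ) + 1 + i))
        = ∏ i ∈ Finset.range d, (m - ((k : ℝ) + (i + 1))) :=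
      Finset.prod_congr rfl fun i _ => by ring
    rw [e2]
    ring

/-- The final statement for the Legendre basis. -/
theorem main (L : ℕ → ℝ[X])
    (hL : ∀ n, L n = C (1 / (2 ^ n * (n.factorial : ℝ))) * derivative^[n] ((X ^ 2 - 1 : ℝ[X]) ^ n))
    (N n : ℕ) (a : ℕ → ℝ) (h : Hyp (∑ k ∈ Finset.range (N + 1), C (a k) * L k)) :
    Hyp (∑ k ∈ Finset.range (N + 1),
      C ((∏ i ∈ Finset.range n, ((k : ℝ) * (k + 1) - i)) * a k) * L k) := by
  have h1 := VV_hyp n 0 0 _ le_rfl h
  rw [map_sum] at h1
  convert h1 using 2 with k hk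
  have h2 : UU 1 0 (L k) = C ((k : ℝ) * (k + 1)) * L k := by
    rw [hL, ← smul_eq_C_mul, map_smul, legendre_ode, smul_eq_C_mul, smul_eq_C_mul]
    ring
  rw [← smul_eq_C_mul (a := a k), map_smul, VV_eigen h2, smul_eq_C_mul, ← mul_assoc, ← C_mul]
  congr 2
  rw [mul_comm]
  congr 1
  exact Finset.prod_congr rfl fun i _ => by push_cast; ring

end FallLeg

end Pool.Agent.X116
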