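import Mathlib

/-!
# Newton maps of `P exp(∫Q)`: behaviour near infinity
-/

open Polynomial Filter Topology Metric Bornology

namespace Pool.Agent.X116.NewtonA

/-- the polynomial `QP + P'` -/
noncomputable def dP (P Q : ℂ[X]) : ℂ[X] := Q * P + derivative P

/-- the polynomial `Q dP + dP'` -/
noncomputable def d2 (P Q : ℂ[X]) : ℂ[X] := Q * dP P Q + derivative (dP P Q)

/-- the Newton map -/
noncomputable def N (P Q : ℂ[X]) (z : ℂ) : ℂ := z - P.eval z / (dP P Q).eval z

/-- its derivative -/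
noncomputable def N' (P Q : ℂ[X]) (z : ℂ) : ℂ :=
  P.eval z * (d2 P Q).eval z / (dP P Q).eval z ^ 2

lemma hasDerivAt_N {P Q : ℂ[X]} {z : ℂ} (hz : (dP P Q).eval z ≠ 0) :
    HasDerivAt (N P Q) (N' P Q z) z := by
  have h1 : HasDerivAt (fun w => P.eval w) ((derivative P).eval z) z := P.hasDerivAt z
  have h2 : HasDerivAt (fun w => (dP P Q).eval w) ((derivative (dP P Q)).eval z) z :=
    (dP P Q).hasDerivAt z
  have h3 := (hasDerivAt_id z).sub (h1.div h2 hz)
  refine h3.congr_deriv ?_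
  unfold N' d2
  have e : (derivative P).eval z = (dP P Q).eval z - Q.eval z * P.eval z := by
    unfold dP
    simp
  rw [e]
  simp only [eval_add, eval_mul]
  field_simp
  ring

lemma tendsto_div_pow (A : ℂ[X]) {n : ℕ} (hn : A.natDegree ≤ n) :
    Tendsto (fun z : ℂ => A.eval z / z ^ n) (cobounded ℂ) (𝓝 (A.coeff n)) := by
  have hinv : Tendsto (fun z : ℂ => z⁻¹) (cobounded ℂ) (𝓝 0) := tendsto_inv₀_cobounded
  have hne : ∀ᶠ z : ℂ in cobounded ℂ, z ≠ 0 := by
    have := (tendsto_norm_cobounded_atTop (E := ℂ)).eventually (eventually_gt_atTop 0)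
    filter_upwards [this] with z hz h0
    rw [h0] at hz
    simp at hz
  have h1 : Tendsto (fun z : ℂ => ∑ k ∈ Finset.range (n + 1), A.coeff k * (z⁻¹) ^ (n - k))
      (cobounded ℂ) (𝓝 (∑ k ∈ Finset.range (n + 1), A.coeff k * (0 : ℂ) ^ (n - k))) :=
    tendsto_finsetSum _ fun k _ => (hinv.pow (n - k)).const_mul _
  have h2 : ∑ k ∈ Finset.range (n + 1), A.coeff k * (0 : ℂ) ^ (n - k) = A.coeff n := by
    rw [Finset.sum_eq_single n]
    · simp
    · intro k hk hkn
      have := Finset.mem_range.mp hk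
      rw [zero_pow (by omega), mul_zero]
    · intro h
      exact absurd (Finset.mem_range.mpr (by omega)) h
  rw [h2] at h1
  refine h1.congr' ?_
  filter_upwards [hne] with z hz
  rw [eval_eq_sum_range' (Nat.lt_succ_of_le hn), Finset.sum_div]
  refine Finset.sum_congr rfl fun k hk => ?_
  have hk' : k ≤ n := Nat.lt_succ_iff.mp (Finset.mem_range.mp hk)
  have : z ^ n = z ^ (n - k) * z ^ k := by rw [← pow_add]; congr 1; omega
  rw [this, inv_pow]
  field_simp

lemma ne_zero_eventually : ∀ᶠ z : ℂ in cobounded ℂ, z ≠ 0 := by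
  have := (tendsto_norm_cobounded_atTop (E := ℂ)).eventually (eventually_gt_atTop 0)
  filter_upwards [this] with z hz h0
  rw [h0] at hz
  simp at hz

section

variable {P Q : ℂ[X]}

lemma natDegree_dP_le : (dP P Q).natDegree ≤ P.natDegree + Q.natDegree := by
  unfold dP
  refine (natDegree_add_le _ _).trans (max_le ?_ ?_)
  · rw [add_comm]
    exact natDegree_mul_le
  · exact (natDegree_derivative_le P).trans (by omega)

lemma coeff_dP (hP : 0 < P.natDegree) :
    (dP P Q).coeff (P.natDegree + Q.natDegree) = P.leadingCoeff * Q.leadingCoeff := by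
  unfold dP
  rw [coeff_add, add_comm P.natDegree, coeff_mul_degree_add_degree]
  have h : (derivative P).coeff (Q.natDegree + P.natDegree) = 0 := by
    apply coeff_eq_zero_of_natDegree_lt
    have := natDegree_derivative_lt hP.ne'
    omega
  rw [h, add_zero, mul_comm]

lemma dP_ne (hP : 0 < P.natDegree) (hQ : Q ≠ 0) : dP P Q ≠ 0 := by
  intro h
  have h1 := coeff_dP (Q := Q) hP
  rw [h, coeff_zero] at h1
  have hP0 : P ≠ 0 := by
    rintro rfl
    simp at hP
  exact mul_ne_zero (leadingCoeff_ne_zero.mpr hP0) (leadingCoeff_ne_zero.mpr hQ) h1.symm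

lemma tendsto_f (hP : 0 < P.natDegree) (hQ : Q ≠ 0) :
    Tendsto (fun z : ℂ => z ^ Q.natDegree * (P.eval z / (dP P Q).eval z)) (cobounded ℂ)
      (𝓝 (1 / Q.leadingCoeff)) := by
  have hP0 : P ≠ 0 := by
    rintro rfl
    simp at hP
  have hp := leadingCoeff_ne_zero.mpr hP0
  have hq := leadingCoeff_ne_zero.mpr hQ
  have h1 := tendsto_div_pow P le_rfl
  have h2 := tendsto_div_pow (dP P Q) natDegree_dP_le
  rw [coeff_dP hP] at h2
  have h3 := h1.div h2 (mul_ne_zero hp hq)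
  have e : P.coeff P.natDegree / (P.leadingCoeff * Q.leadingCoeff) = 1 / Q.leadingCoeff := by
    change P.leadingCoeff / _ = _
    field_simp
  rw [e] at h3
  refine h3.congr' ?_
  filter_upwards [ne_zero_eventually] with z hz
  simp only [Pi.div_apply]
  rw [pow_add]
  by_cases h0 : (dP P Q).eval z = 0
  · rw [h0]; simp
  · field_simp

/-- the numerator of `N' - 1` -/
noncomputable def Num (P Q : ℂ[X]) : ℂ[X] :=
  derivative Q * P * P + P * derivative (derivative P) - derivative P * derivative P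

lemma N'_sub_one {z : ℂ} (hz : (dP P Q).eval z ≠ 0) :
    N' P Q z - 1 = (Num P Q).eval z / (dP P Q).eval z ^ 2 := by
  have key : P * d2 P Q - dP P Q ^ 2 = Num P Q := by
    unfold d2 Num dP
    simp only [derivative_add, derivative_mul]
    ring
  have h := congrArg (fun A => eval z A) key
  simp only [eval_sub, eval_mul, eval_pow] at h
  rw [← h]
  unfold N'
  field_simp

lemma tendsto_N'_lin (hP : 0 < P.natDegree) (hQ : Q ≠ 0) {k : ℕ} {c : ℂ}
    (hk : k + (Num P Q).natDegree ≤ 2 * (P.natDegree + Q.natDegree))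
    (hc : (Num P Q).coeff (2 * (P.natDegree + Q.natDegree) - k) = c) :
    Tendsto (fun z : ℂ => z ^ k * (N' P Q z - 1)) (cobounded ℂ)
      (𝓝 (c / (P.leadingCoeff * Q.leadingCoeff) ^ 2)) := by
  have hP0 : P ≠ 0 := by
    rintro rfl
    simp at hP
  have hp := leadingCoeff_ne_zero.mpr hP0
  have hq := leadingCoeff_ne_zero.mpr hQ
  have h1 := tendsto_div_pow (Num P Q) (n := 2 * (P.natDegree + Q.natDegree) - k) (by omega)
  have h2 := tendsto_div_pow (dP P Q) natDegree_dP_le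
  rw [coeff_dP hP] at h2
  rw [hc] at h1
  have h3 := h1.div (h2.pow 2) (pow_ne_zero 2 (mul_ne_zero hp hq))
  refine h3.congr' ?_
  have hne : ∀ᶠ z in cobounded ℂ, (dP P Q).eval z / z ^ (P.natDegree + Q.natDegree) ≠ 0 :=
    h2.eventually_ne (mul_ne_zero hp hq)
  filter_upwards [ne_zero_eventually, hne] with z hz hz2
  have h0 : (dP P Q).eval z ≠ 0 := by
    intro h0
    rw [h0, zero_div] at hz2
    exact hz2 rfl
  simp only [Pi.div_apply]
  rw [N'_sub_one h0]
  have e : z ^ (2 * (P.natDegree + Q.natDegree) - k) * z ^ k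
      = (z ^ (P.natDegree + Q.natDegree)) ^ 2 := by
    rw [← pow_add, ← pow_mul]
    congr 1
    omega
  field_simp
  linear_combination (-(Num P Q).eval z) * e

lemma ev_dP_ne (hP : 0 < P.natDegree) (hQ : Q ≠ 0) :
    ∀ᶠ z in cobounded ℂ, (dP P Q).eval z ≠ 0 := by
  have hP0 : P ≠ 0 := by
    rintro rfl
    simp at hP
  have hp := leadingCoeff_ne_zero.mpr hP0
  have hq := leadingCoeff_ne_zero.mpr hQ
  have h2 := tendsto_div_pow (dP P Q) natDegree_dP_le
  rw [coeff_dP hP] at h2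
  filter_upwards [h2.eventually_ne (mul_ne_zero hp hq)] with z hz h0
  rw [h0, zero_div] at hz
  exact hz rfl

/-- approximate Fatou coordinate -/
noncomputable def H (Q : ℂ[X]) (z : ℂ) : ℂ :=
  -(Q.leadingCoeff / ((Q.natDegree : ℂ) + 1)) * z ^ (Q.natDegree + 1)

lemma tendsto_f_div (hP : 0 < P.natDegree) (hQ : Q ≠ 0) :
    Tendsto (fun z : ℂ => P.eval z / (dP P Q).eval z / z) (cobounded ℂ) (𝓝 0) := by
  have h1 := tendsto_f hP hQ
  have hinv : Tendsto (fun z : ℂ => z⁻¹) (cobounded ℂ) (𝓝 0) := tendsto_inv₀_cobounded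
  have h2 := h1.mul (hinv.pow (Q.natDegree + 1))
  rw [zero_pow (Nat.succ_ne_zero _), mul_zero] at h2
  refine h2.congr' ?_
  filter_upwards [ne_zero_eventually] with z hz
  rw [inv_pow, pow_succ]
  by_cases h0 : (dP P Q).eval z = 0
  · rw [h0]; simp
  · field_simp

lemma tendsto_H (hP : 0 < P.natDegree) (hQ : Q ≠ 0) :
    Tendsto (fun z : ℂ => H Q (N P Q z) - H Q z) (cobounded ℂ) (𝓝 1) := by
  have hq := leadingCoeff_ne_zero.mpr hQ
  have hd : ((Q.natDegree : ℂ) + 1) ≠ 0 := Nat.cast_add_one_ne_zero _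
  have ht := tendsto_f_div hP hQ
  have h1 : Tendsto (fun z : ℂ => ∑ j ∈ Finset.range (Q.natDegree + 1),
      (1 - P.eval z / (dP P Q).eval z / z) ^ j) (cobounded ℂ)
      (𝓝 (∑ j ∈ Finset.range (Q.natDegree + 1), (1 - 0 : ℂ) ^ j)) :=
    tendsto_finsetSum _ fun j _ => ((tendsto_const_nhds.sub ht).pow j)
  have h2 : ∑ j ∈ Finset.range (Q.natDegree + 1), (1 - 0 : ℂ) ^ j = (Q.natDegree : ℂ) + 1 := by
    simp
  rw [h2] at h1
  have h3 := ((tendsto_f hP hQ).mul h1).const_mul (Q.leadingCoeff / ((Q.natDegree : ℂ) + 1))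
  have e : Q.leadingCoeff / ((Q.natDegree : ℂ) + 1) * (1 / Q.leadingCoeff * ((Q.natDegree : ℂ) + 1))
      = 1 := by field_simp
  rw [e] at h3
  refine h3.congr' ?_
  filter_upwards [ne_zero_eventually] with z hz
  set f := P.eval z / (dP P Q).eval z with hf
  have hN : N P Q z = z * (1 - f / z) := by
    unfold N
    rw [← hf]
    field_simp
  have hg := geom_sum_mul (1 - f / z) (Q.natDegree + 1)
  unfold H
  rw [hN, mul_pow]
  have h4 : (1 - f / z) ^ (Q.natDegree + 1) = 1 + (∑ i ∈ Finset.range (Q.natDegree + 1),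
      (1 - f / z) ^ i) * (1 - f / z - 1) := by
    rw [hg]; ring
  rw [h4, pow_succ]
  field_simp
  ring

/-! ### orbits in the attracting region -/

lemma H_norm (z : ℂ) : ‖H Q z‖ = ‖Q.leadingCoeff‖ / ((Q.natDegree : ℝ) + 1)
    * ‖z‖ ^ (Q.natDegree + 1) := by
  unfold H
  rw [norm_mul, norm_neg, norm_div, norm_pow]
  congr 2
  have : ((Q.natDegree : ℂ) + 1) = ((Q.natDegree + 1 : ℕ) : ℂ) := by push_cast; rfl
  rw [this, Complex.norm_natCast]
  push_cast
  rfl

/-- The attracting region. -/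
def W (Q : ℂ[X]) (ρ : ℝ) : Set ℂ := {z | ρ ≤ (H Q z).re ∧ |(H Q z).im| ≤ (H Q z).re}

/-- large real part of `H` forces large modulus -/
lemma large_of_re (hQ : Q ≠ 0) {R : ℝ} {z : ℂ}
    (hz : ‖Q.leadingCoeff‖ / ((Q.natDegree : ℝ) + 1) * R ^ (Q.natDegree + 1) < (H Q z).re) :
    R < ‖z‖ := by
  have hq : 0 < ‖Q.leadingCoeff‖ := norm_pos_iff.mpr (leadingCoeff_ne_zero.mpr hQ)
  have hc : 0 < ‖Q.leadingCoeff‖ / ((Q.natDegree : ℝ) + 1) := by positivity
  have h1 := hz.trans_le ((Complex.re_le_norm _).trans_eq (H_norm (Q := Q) z))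
  have h2 := lt_of_mul_lt_mul_left h1 hc.le
  exact lt_of_pow_lt_pow_left₀ _ (norm_nonneg _) h2

/-! derivative bounds -/

lemma Num_const (hd : Q.natDegree = 0) (hP : 0 < P.natDegree) :
    2 + (Num P Q).natDegree ≤ 2 * (P.natDegree + Q.natDegree) := by
  have hQ' : derivative Q = 0 := by
    rw [eq_C_of_natDegree_eq_zero hd, derivative_C]
  have h1 := natDegree_derivative_lt hP.ne'
  have h2 : (derivative (derivative P)).natDegree ≤ P.natDegree - 2 := by
    refine (natDegree_derivative_le _).trans ?_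
    omega
  have h3 : 2 ≤ P.natDegree ∨ P.natDegree = 1 := by omega
  have h4 : (Num P Q).natDegree ≤ 2 * P.natDegree - 2 := by
    unfold Num
    rw [hQ', zero_mul, zero_mul, zero_add]
    refine (natDegree_sub_le _ _).trans (max_le ?_ ?_)
    · rcases h3 with h3 | h3
      · exact natDegree_mul_le.trans (by omega)
      · have h5 : derivative (derivative P) = 0 := by
          apply derivative_of_natDegree_zero
          omega
        rw [h5, mul_zero, natDegree_zero]
        omega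
    · exact natDegree_mul_le.trans (by omega)
  omega

lemma Num_nonconst (hd : 0 < Q.natDegree) (hP : 0 < P.natDegree) :
    Q.natDegree + 1 + (Num P Q).natDegree ≤ 2 * (P.natDegree + Q.natDegree) ∧
    (Num P Q).coeff (2 * (P.natDegree + Q.natDegree) - (Q.natDegree + 1))
      = Q.leadingCoeff * Q.natDegree * P.leadingCoeff * P.leadingCoeff := by
  have h1 := natDegree_derivative_lt hP.ne'
  have hQ1 := natDegree_derivative_lt hd.ne'
  obtain ⟨d, hdd⟩ := Nat.exists_eq_add_of_lt hd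
  rw [zero_add] at hdd
  have h2 : (P * derivative (derivative P)).natDegree ≤ 2 * P.natDegree - 1 := by
    have := natDegree_derivative_le (derivative P)
    exact natDegree_mul_le.trans (by omega)
  have h3 : (derivative P * derivative P).natDegree ≤ 2 * P.natDegree - 1 :=
    natDegree_mul_le.trans (by omega)
  have h4 : (derivative Q * P * P).natDegree ≤ d + P.natDegree + P.natDegree := by
    refine natDegree_mul_le.trans ?_
    have : (derivative Q * P).natDegree ≤ d + P.natDegree := natDegree_mul_le.trans (by omega)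
    omega
  have h5 : (Num P Q).natDegree ≤ d + P.natDegree + P.natDegree := by
    unfold Num
    refine (natDegree_sub_le _ _).trans (max_le ((natDegree_add_le _ _).trans (max_le h4 ?_)) ?_)
    · omega
    · omega
  refine ⟨by omega, ?_⟩
  have e : 2 * (P.natDegree + Q.natDegree) - (Q.natDegree + 1) = d + P.natDegree + P.natDegree := by
    omega
  rw [e]
  unfold Num
  rw [coeff_sub, coeff_add, coeff_mul_add_eq_of_natDegree_le (df := d + P.natDegree) (dg := P.natDegree)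
    (natDegree_mul_le.trans (by omega)) le_rfl,
    coeff_mul_add_eq_of_natDegree_le (df := d) (dg := P.natDegree) (by omega) le_rfl, coeff_derivative,
    coeff_eq_zero_of_natDegree_lt (p := P * derivative (derivative P)) (by omega),
    coeff_eq_zero_of_natDegree_lt (p := derivative P * derivative P) (by omega), ← hdd]
  have e2 : ((Q.natDegree : ℕ) : ℂ) = (d : ℂ) + 1 := by
    rw [hdd]; push_cast; rfl
  rw [e2]
  simp only [leadingCoeff]
  ring

/-- From an eventual property near infinity to a property on `W`. -/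
lemma on_W (hQ : Q ≠ 0) {p : ℂ → Prop} (hp : ∀ᶠ z in cobounded ℂ, p z) :
    ∃ ρ₀ : ℝ, ∀ z : ℂ, ρ₀ < (H Q z).re → p z := by
  obtain ⟨R, _, hR'⟩ := (hasBasis_cobounded_norm (E := ℂ)).eventually_iff.mp hp
  refine ⟨‖Q.leadingCoeff‖ / ((Q.natDegree : ℝ) + 1) * (max R 0) ^ (Q.natDegree + 1),
    fun z hz => hR' ?_⟩
  have := large_of_re hQ hz
  exact (le_max_left R 0).trans this.le

/-- For non-constant `Q` the Newton map is non-expanding on `W`. -/
lemma norm_le_one (hP : 0 < P.natDegree) (hQ : Q ≠ 0) (hd : 0 < Q.natDegree) :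
    ∃ ρ₀ : ℝ, ∀ z : ℂ, ρ₀ < (H Q z).re → |(H Q z).im| ≤ (H Q z).re → ‖N' P Q z‖ ≤ 1 := by
  have hP0 : P ≠ 0 := by
    rintro rfl
    simp at hP
  have hp := leadingCoeff_ne_zero.mpr hP0
  have hq := leadingCoeff_ne_zero.mpr hQ
  have hd1 : ((Q.natDegree : ℂ) + 1) ≠ 0 := Nat.cast_add_one_ne_zero _
  have h1 := tendsto_N'_lin hP hQ (Num_nonconst (P := P) (Q := Q) hd hP).1
    (Num_nonconst (P := P) (Q := Q) hd hP).2
  have h2 := h1.const_mul (-(Q.leadingCoeff / ((Q.natDegree : ℂ) + 1)))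
  set κ : ℝ := (Q.natDegree : ℝ) / ((Q.natDegree : ℝ) + 1) with hκ
  have hdr : (0 : ℝ) < Q.natDegree := by exact_mod_cast hd
  have hκ0 : 0 < κ := by positivity
  have hκ1 : κ < 1 := by
    rw [hκ, div_lt_one (by positivity)]
    linarith
  have e : -(Q.leadingCoeff / ((Q.natDegree : ℂ) + 1))
      * (Q.leadingCoeff * Q.natDegree * P.leadingCoeff * P.leadingCoeff
        / (P.leadingCoeff * Q.leadingCoeff) ^ 2) = ((-κ : ℝ) : ℂ) := by
    rw [hκ]
    push_cast
    field_simp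
  rw [e] at h2
  have h3 : ∀ᶠ z in cobounded ℂ, ‖H Q z * (N' P Q z - 1) - ((-κ : ℝ) : ℂ)‖ ≤ κ / 4 := by
    have h4 := (Metric.tendsto_nhds.mp h2) (κ / 4) (by positivity)
    filter_upwards [h4] with z hz
    rw [dist_eq_norm] at hz
    refine le_trans (le_of_eq ?_) hz.le
    congr 2
    unfold H
    ring
  obtain ⟨ρ₀, hρ⟩ := on_W hQ h3
  refine ⟨max ρ₀ 2, fun z hz1 hz2 => ?_⟩
  have h5 := hρ z ((le_max_left _ _).trans_lt hz1)
  have hre : 2 < (H Q z).re := (le_max_right _ _).trans_lt hz1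
  set h := H Q z with hh
  set w := N' P Q z - 1 with hw
  have hN : N' P Q z = 1 + w := by rw [hw]; ring
  set s := h * w with hs
  have hsre : s.re ≤ -(3 * κ / 4) := by
    have h6 := (Complex.re_le_norm (s - ((-κ : ℝ) : ℂ))).trans h5
    rw [Complex.sub_re, Complex.ofReal_re] at h6
    linarith
  have hsim : |s.im| ≤ κ / 4 := by
    have h6 := (Complex.abs_im_le_norm (s - ((-κ : ℝ) : ℂ))).trans h5
    rw [Complex.sub_im, Complex.ofReal_im, sub_zero] at h6
    exact h6
  have hsn : ‖s‖ ≤ 5 * κ / 4 := by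
    have h6 : s = (s - ((-κ : ℝ) : ℂ)) + ((-κ : ℝ) : ℂ) := by ring
    have h7 := norm_add_le (s - ((-κ : ℝ) : ℂ)) ((-κ : ℝ) : ℂ)
    rw [← h6, Complex.norm_real, Real.norm_eq_abs, abs_neg, abs_of_pos hκ0] at h7
    linarith
  have hhn : 0 < Complex.normSq h := by
    rw [Complex.normSq_pos]
    intro h0
    rw [h0] at hre
    simp at hre
    linarith
  -- |h|² Re w = Re (s conj h)
  have e1 : Complex.normSq h * w.re = s.re * h.re + s.im * h.im := by
    rw [hs, Complex.mul_re, Complex.mul_im, Complex.normSq_apply]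
    ring
  have e2 : Complex.normSq h * Complex.normSq w = Complex.normSq s := by
    rw [hs, Complex.normSq_mul]
  have h8 : Complex.normSq s ≤ (5 * κ / 4) ^ 2 := by
    rw [Complex.normSq_eq_norm_sq]
    exact pow_le_pow_left₀ (norm_nonneg _) hsn 2
  have h9 : s.re * h.re + s.im * h.im ≤ -(κ / 2) * h.re := by
    have h10 : s.im * h.im ≤ κ / 4 * h.re := by
      refine (le_abs_self _).trans ?_
      rw [abs_mul]
      exact mul_le_mul hsim hz2 (abs_nonneg _) (by positivity)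
    have h11 : s.re * h.re ≤ -(3 * κ / 4) * h.re := mul_le_mul_of_nonneg_right hsre (by linarith)
    linarith
  have h12 : Complex.normSq h * (2 * w.re + Complex.normSq w) ≤ 0 := by
    have : Complex.normSq h * (2 * w.re + Complex.normSq w)
        = 2 * (s.re * h.re + s.im * h.im) + Complex.normSq s := by
      rw [← e1, ← e2]; ring
    rw [this]
    nlinarith
  have h13 : 2 * w.re + Complex.normSq w ≤ 0 := by
    by_contra hcon
    push Not at hcon
    have := mul_pos hhn hcon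
    linarith
  have h14 : ‖N' P Q z‖ ^ 2 ≤ 1 := by
    rw [← Complex.normSq_eq_norm_sq, hN]
    have : Complex.normSq (1 + w) = 1 + (2 * w.re + Complex.normSq w) := by
      simp only [Complex.normSq_apply, Complex.add_re, Complex.add_im, Complex.one_re,
        Complex.one_im]
      ring
    rw [this]
    linarith
  nlinarith [norm_nonneg (N' P Q z)]

/-- For constant `Q` the derivative is `1 + O(z⁻²)`. -/
lemma norm_const (hP : 0 < P.natDegree) (hQ : Q ≠ 0) (hd : Q.natDegree = 0) :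
    ∃ ρ₀ C : ℝ, 0 ≤ C ∧ ∀ z : ℂ, ρ₀ < (H Q z).re → ‖N' P Q z‖ ≤ 1 + C / (H Q z).re ^ 2 := by
  have hq : 0 < ‖Q.leadingCoeff‖ := norm_pos_iff.mpr (leadingCoeff_ne_zero.mpr hQ)
  have h1 := tendsto_N'_lin hP hQ (Num_const (P := P) hd hP) rfl
  have h2 := h1.norm
  set c := ‖(Num P Q).coeff (2 * (P.natDegree + Q.natDegree) - 2)
    / (P.leadingCoeff * Q.leadingCoeff) ^ 2‖ with hc
  have hc0 : 0 ≤ c := norm_nonneg _
  have h3 : ∀ᶠ z in cobounded ℂ, ‖z ^ 2 * (N' P Q z - 1)‖ ≤ c + 1 :=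
    (h2.eventually_lt_const (lt_add_one c)).mono fun z hz => hz.le
  obtain ⟨ρ₀, hρ⟩ := on_W hQ h3
  refine ⟨max ρ₀ 0, (c + 1) * ‖Q.leadingCoeff‖ ^ 2, by positivity, fun z hz => ?_⟩
  have h4 := hρ z ((le_max_left _ _).trans_lt hz)
  have hre : 0 < (H Q z).re := (le_max_right _ _).trans_lt hz
  have h5 : ‖H Q z‖ = ‖Q.leadingCoeff‖ * ‖z‖ := by
    rw [H_norm, hd]
    simp
  have h6 : (H Q z).re ≤ ‖Q.leadingCoeff‖ * ‖z‖ := h5 ▸ Complex.re_le_norm _
  have hz0 : 0 < ‖z‖ := by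
    by_contra hcon
    have : ‖z‖ = 0 := le_antisymm (not_lt.mp hcon) (norm_nonneg _)
    rw [this, mul_zero] at h6
    linarith
  rw [norm_mul, norm_pow] at h4
  have h7 : ‖N' P Q z - 1‖ ≤ (c + 1) / ‖z‖ ^ 2 := by
    rw [le_div_iff₀ (by positivity)]
    linarith
  have h8 : (c + 1) / ‖z‖ ^ 2 ≤ (c + 1) * ‖Q.leadingCoeff‖ ^ 2 / (H Q z).re ^ 2 := by
    rw [div_le_div_iff₀ (by positivity) (by positivity), mul_assoc, ← mul_pow]
    gcongr
  have h9 : N' P Q z = 1 + (N' P Q z - 1) := by ring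
  rw [h9]
  refine (norm_add_le _ _).trans ?_
  rw [norm_one]
  linarith

/-- The attracted orbit. -/
lemma orbit (hP : 0 < P.natDegree) (hQ : Q ≠ 0) : ∃ (z₀ : ℂ) (B : ℝ),
    (∀ k, (dP P Q).eval ((N P Q)^[k] z₀) ≠ 0) ∧
    Tendsto (fun k => ‖(N P Q)^[k] z₀‖) atTop atTop ∧
    (∀ k, ‖∏ i ∈ Finset.range k, N' P Q ((N P Q)^[i] z₀)‖ ≤ B) := by
  have hq := leadingCoeff_ne_zero.mpr hQ
  have hd1 : ((Q.natDegree : ℂ) + 1) ≠ 0 := Nat.cast_add_one_ne_zero _
  have hstep : ∀ᶠ z in cobounded ℂ, ‖H Q (N P Q z) - H Q z - 1‖ ≤ 1 / 4 := by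
    have h := (Metric.tendsto_nhds.mp (tendsto_H hP hQ)) (1 / 4) (by norm_num)
    filter_upwards [h] with z hz
    rw [dist_eq_norm] at hz
    exact hz.le
  obtain ⟨ρ₁, h1⟩ := on_W hQ hstep
  obtain ⟨ρ₂, h2⟩ := on_W hQ (ev_dP_ne hP hQ)
  -- derivative bound
  obtain ⟨ρ₃, C, hC, h3⟩ : ∃ ρ₃ C : ℝ, 0 ≤ C ∧ ∀ z : ℂ, ρ₃ < (H Q z).re →
      |(H Q z).im| ≤ (H Q z).re → ‖N' P Q z‖ ≤ 1 + C / (H Q z).re ^ 2 := by
    rcases Nat.eq_zero_or_pos Q.natDegree with hd | hd
    · obtain ⟨ρ₀, C, hC, h⟩ := norm_const hP hQ hd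
      exact ⟨ρ₀, C, hC, fun z hz _ => h z hz⟩
    · obtain ⟨ρ₀, h⟩ := norm_le_one hP hQ hd
      exact ⟨ρ₀, 0, le_rfl, fun z hz hz2 => by simpa using h z hz hz2⟩
  set ρ : ℝ := max (max ρ₁ ρ₂) (max ρ₃ 1) + 1 with hρ
  have hρ1 : ρ₁ < ρ := by
    have : ρ₁ ≤ max (max ρ₁ ρ₂) (max ρ₃ 1) := (le_max_left _ _).trans (le_max_left _ _)
    linarith
  have hρ2 : ρ₂ < ρ := by
    have : ρ₂ ≤ max (max ρ₁ ρ₂) (max ρ₃ 1) := (le_max_right _ _).trans (le_max_left _ _)
    linarith
  have hρ3 : ρ₃ < ρ := by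
    have : ρ₃ ≤ max (max ρ₁ ρ₂) (max ρ₃ 1) := (le_max_left _ _).trans (le_max_right _ _)
    linarith
  have hρ4 : 1 ≤ ρ := by
    have : 1 ≤ max (max ρ₁ ρ₂) (max ρ₃ 1) := (le_max_right _ _).trans (le_max_right _ _)
    linarith
  obtain ⟨z₀, hz₀⟩ := IsAlgClosed.exists_pow_nat_eq
    (-((ρ : ℂ) * ((Q.natDegree : ℂ) + 1) / Q.leadingCoeff)) (Nat.succ_pos Q.natDegree)
  have hH0 : H Q z₀ = (ρ : ℂ) := by
    unfold H
    rw [hz₀]
    field_simp
  have horb : ∀ k : ℕ, ρ + 3 / 4 * k ≤ (H Q ((N P Q)^[k] z₀)).re ∧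
      |(H Q ((N P Q)^[k] z₀)).im| ≤ (H Q ((N P Q)^[k] z₀)).re := by
    intro k
    induction k with
    | zero =>
      rw [Function.iterate_zero, id, hH0]
      simp
      linarith
    | succ k ih =>
      rw [Function.iterate_succ_apply']
      set z := (N P Q)^[k] z₀ with hz
      obtain ⟨i1, i2⟩ := ih
      have hk : (0 : ℝ) ≤ k := Nat.cast_nonneg k
      have h4 := h1 z (by linarith)
      have h5 := (Complex.abs_re_le_norm _).trans h4
      have h6 := (Complex.abs_im_le_norm _).trans h4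
      simp only [Complex.sub_re, Complex.sub_im, Complex.one_re, Complex.one_im, sub_zero] at h5 h6
      have h7 := (abs_le.mp h5).1
      have h8 : |(H Q (N P Q z)).im| ≤ |(H Q z).im| + 1 / 4 := by
        have : (H Q (N P Q z)).im = (H Q z).im + ((H Q (N P Q z)).im - (H Q z).im) := by ring
        rw [this]
        exact (abs_add_le _ _).trans (by linarith)
      push_cast
      constructor
      · linarith
      · linarith
  refine ⟨z₀, Real.exp (∑' i : ℕ, (C * (16 / 9)) * (1 / ((i : ℝ) + 1) ^ 2)), ?_, ?_, ?_⟩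
  · intro k
    apply h2
    have := (horb k).1
    have hk : (0 : ℝ) ≤ k := Nat.cast_nonneg k
    linarith
  · -- norms tend to infinity
    have hqn : 0 < ‖Q.leadingCoeff‖ := norm_pos_iff.mpr hq
    have hc : 0 < ‖Q.leadingCoeff‖ / ((Q.natDegree : ℝ) + 1) := by positivity
    rw [Filter.tendsto_atTop]
    intro R
    have hev : ∀ᶠ k : ℕ in atTop, ‖Q.leadingCoeff‖ / ((Q.natDegree : ℝ) + 1)
        * (max R 0) ^ (Q.natDegree + 1) < 3 / 4 * k := by
      have : Tendsto (fun k : ℕ => 3 / 4 * (k : ℝ)) atTop atTop :=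
        tendsto_natCast_atTop_atTop.const_mul_atTop (by norm_num)
      exact this.eventually_gt_atTop _
    filter_upwards [hev] with k hk
    have h4 := (horb k).1
    have h5 := large_of_re hQ (R := max R 0) (z := (N P Q)^[k] z₀) (by linarith)
    exact (le_max_left R 0).trans h5.le
  · intro k
    have hb : ∀ i : ℕ, ‖N' P Q ((N P Q)^[i] z₀)‖ ≤
        Real.exp ((C * (16 / 9)) * (1 / ((i : ℝ) + 1) ^ 2)) := by
      intro i
      have hi : (0 : ℝ) ≤ i := Nat.cast_nonneg i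
      obtain ⟨i1, i2⟩ := horb i
      have h4 := h3 _ (by linarith) i2
      have h5 : 3 / 4 * ((i : ℝ) + 1) ≤ (H Q ((N P Q)^[i] z₀)).re := by linarith
      have h6 : C / (H Q ((N P Q)^[i] z₀)).re ^ 2 ≤ (C * (16 / 9)) * (1 / ((i : ℝ) + 1) ^ 2) := by
        calc C / (H Q ((N P Q)^[i] z₀)).re ^ 2 ≤ C / (3 / 4 * ((i : ℝ) + 1)) ^ 2 := by gcongr
          _ = _ := by
            field_simp
            ring
      calc ‖N' P Q ((N P Q)^[i] z₀)‖ ≤ 1 + C / (H Q ((N P Q)^[i] z₀)).re ^ 2 := h4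
        _ ≤ (C * (16 / 9)) * (1 / ((i : ℝ) + 1) ^ 2) + 1 := by linarith
        _ ≤ _ := Real.add_one_le_exp _
    have hs : Summable fun i : ℕ => (C * (16 / 9)) * (1 / ((i : ℝ) + 1) ^ 2) := by
      have h4 : Summable fun i : ℕ => 1 / ((i : ℝ)) ^ 2 := Real.summable_one_div_nat_pow.mpr one_lt_two
      have h5 := (summable_nat_add_iff 1).mpr h4
      refine (h5.mul_left (C * (16 / 9))).congr fun i => ?_
      push_cast
      rfl
    calc ‖∏ i ∈ Finset.range k, N' P Q ((N P Q)^[i] z₀)‖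
        = ∏ i ∈ Finset.range k, ‖N' P Q ((N P Q)^[i] z₀)‖ := norm_prod _ _
      _ ≤ ∏ i ∈ Finset.range k, Real.exp ((C * (16 / 9)) * (1 / ((i : ℝ) + 1) ^ 2)) :=
          Finset.prod_le_prod (fun _ _ => norm_nonneg _) fun i _ => hb i
      _ = Real.exp (∑ i ∈ Finset.range k, (C * (16 / 9)) * (1 / ((i : ℝ) + 1) ^ 2)) :=
          (Real.exp_sum _ _).symm
      _ ≤ _ := Real.exp_le_exp.mpr (hs.sum_le_tsum _ fun i _ => by positivity)

end

end Pool.Agent.X116.NewtonA
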