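import Mathlib
import Pool.Agent.X116.NewtonA

/-!
# Newton maps of `P exp(∫Q)` always have a free critical point
-/

open Polynomial Filter Topology Metric Bornology
open Pool.Agent.X116.NewtonA

namespace Pool.Agent.X116.NewtonB

/-- The hypotheses to be contradicted. -/
structure Hyps (P Q : ℂ[X]) : Prop where
  pos : 0 < P.natDegree
  qne : Q ≠ 0
  simple : ∀ z, P.eval z = 0 → (derivative P).eval z ≠ 0
  crit : ∀ z, (d2 P Q).eval z = 0 → P.eval z = 0 ∨ (dP P Q).eval z = 0

variable {P Q : ℂ[X]}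

lemma dP_at_zero {z : ℂ} (h : P.eval z = 0) : (dP P Q).eval z = (derivative P).eval z := by
  unfold dP
  rw [eval_add, eval_mul, h, mul_zero, zero_add]

lemma N_fix {z : ℂ} (h : P.eval z = 0) : N P Q z = z := by
  unfold N
  rw [h, zero_div, sub_zero]

lemma N_fix_iter {z : ℂ} (h : P.eval z = 0) (n : ℕ) : (N P Q)^[n] z = z :=
  Function.iterate_fixed (N_fix h) n

lemma N'_ne (hy : Hyps P Q) {z : ℂ} (h1 : (dP P Q).eval z ≠ 0)
    (h2 : P.eval (N P Q z) ≠ 0) : N' P Q z ≠ 0 := by
  have hPz : P.eval z ≠ 0 := by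
    intro h
    rw [N_fix h] at h2
    exact h2 h
  unfold N'
  refine div_ne_zero (mul_ne_zero hPz ?_) (pow_ne_zero 2 h1)
  intro h
  rcases hy.crit z h with h | h
  · exact hPz h
  · exact h1 h

lemma tendsto_N (hy : Hyps P Q) : ∀ᶠ z in cobounded ℂ, ‖z‖ / 2 ≤ ‖N P Q z‖ := by
  have h := (Metric.tendsto_nhds.mp (tendsto_f_div hy.pos hy.qne)) (1 / 2) (by norm_num)
  filter_upwards [h, ne_zero_eventually] with z hz hz0
  rw [dist_zero_right] at hz
  have e : N P Q z = z - z * (P.eval z / (dP P Q).eval z / z) := by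
    unfold N
    field_simp
  rw [e]
  have h1 : ‖z * (P.eval z / (dP P Q).eval z / z)‖ ≤ ‖z‖ / 2 := by
    rw [norm_mul]
    have := mul_le_mul_of_nonneg_left hz.le (norm_nonneg z)
    linarith
  have h2 := norm_sub_norm_le z (z * (P.eval z / (dP P Q).eval z / z))
  linarith

lemma isCompact_pre (hy : Hyps P Q) {K : Set ℂ} (hK : IsCompact K) :
    IsCompact {z : ℂ | (dP P Q).eval z ≠ 0 ∧ N P Q z ∈ K} := by
  obtain ⟨R, _, hR⟩ := (hasBasis_cobounded_norm (E := ℂ)).eventually_iff.mp (tendsto_N hy)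
  obtain ⟨M, hM⟩ := hK.isBounded.exists_norm_le
  set T : Set (ℂ × ℂ) := {x | x.1 * (dP P Q).eval x.1 - P.eval x.1 = x.2 * (dP P Q).eval x.1}
    with hT
  have hTc : IsClosed T := by
    apply isClosed_eq
    · exact (continuous_fst.mul ((dP P Q).continuous.comp continuous_fst)).sub
        (P.continuous.comp continuous_fst)
    · exact continuous_snd.mul ((dP P Q).continuous.comp continuous_fst)
  have hcomp : IsCompact ((closedBall (0 : ℂ) (max R (2 * M)) ×ˢ K) ∩ T) :=
    ((isCompact_closedBall _ _).prod hK).inter_right hTc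
  have himg := hcomp.image continuous_fst
  convert himg using 1
  ext z
  constructor
  · rintro ⟨h1, h2⟩
    refine ⟨(z, N P Q z), ⟨⟨?_, h2⟩, ?_⟩, rfl⟩
    · rw [mem_closedBall_zero_iff]
      by_contra hcon
      push Not at hcon
      have h3 : R ≤ ‖z‖ := (le_max_left _ _).trans hcon.le
      have h4 := hR h3
      have h5 := hM _ h2
      have h6 := (le_max_right R (2 * M)).trans_lt hcon
      linarith
    · simp only [hT, N]
      change z * _ - _ = (z - _) * _
      field_simp
  · rintro ⟨⟨a, b⟩, ⟨⟨_, h2⟩, h3⟩, rfl⟩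
    simp only [hT] at h3
    have h3' : a * (dP P Q).eval a - P.eval a = b * (dP P Q).eval a := h3
    have h4 : (dP P Q).eval a ≠ 0 := by
      intro h
      rw [h, mul_zero, mul_zero, zero_sub, neg_eq_zero] at h3'
      exact hy.simple a h3' (by rw [← dP_at_zero (Q := Q) h3']; exact h)
    refine ⟨h4, ?_⟩
    have h5 : N P Q a = b := by
      unfold N
      field_simp
      linear_combination h3'
    change N P Q a ∈ K
    rw [h5]
    exact h2

/-- The domain of the Newton map. -/
abbrev E (P Q : ℂ[X]) : Type := {z : ℂ // (dP P Q).eval z ≠ 0}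

/-- The Newton map on its domain. -/
noncomputable def pm (P Q : ℂ[X]) : E P Q → ℂ := fun z => N P Q z

lemma continuous_pm : Continuous (pm P Q) := by
  unfold pm N
  have h : ∀ x : E P Q, (dP P Q).eval (x : ℂ) ≠ 0 := fun x => x.2
  exact continuous_subtype_val.sub ((P.continuous.comp continuous_subtype_val).div
    ((dP P Q).continuous.comp continuous_subtype_val) h)

lemma proper_pm (hy : Hyps P Q) : IsProperMap (pm P Q) := by
  rw [isProperMap_iff_isCompact_preimage]
  refine ⟨continuous_pm, fun K hK => ?_⟩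
  rw [Subtype.isCompact_iff]
  convert isCompact_pre hy hK using 1
  ext z
  constructor
  · rintro ⟨x, hx, rfl⟩
    exact ⟨x.2, hx⟩
  · rintro ⟨h1, h2⟩
    exact ⟨⟨z, h1⟩, h2, rfl⟩

lemma finite_fiber (hy : Hyps P Q) (w : ℂ) : (pm P Q ⁻¹' {w}).Finite := by
  set G : ℂ[X] := (X - C w) * dP P Q - P with hG
  have hP0 : P ≠ 0 := by
    intro h
    have := hy.pos
    rw [h] at this
    simp at this
  have hG0 : G ≠ 0 := by
    intro h
    have h1 : (X - C w) * dP P Q = P := by
      rw [hG] at h
      exact sub_eq_zero.mp h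
    have h2 : P.natDegree + Q.natDegree ≤ (dP P Q).natDegree := by
      apply le_natDegree_of_ne_zero
      rw [coeff_dP hy.pos]
      exact mul_ne_zero (leadingCoeff_ne_zero.mpr hP0) (leadingCoeff_ne_zero.mpr hy.qne)
    have h3 := congrArg natDegree h1
    rw [natDegree_mul (X_sub_C_ne_zero w) (dP_ne hy.pos hy.qne), natDegree_X_sub_C] at h3
    omega
  have hfin : {z : ℂ | G.eval z = 0}.Finite := by
    have := G.roots.toFinset.finite_toSet
    refine this.subset fun z hz => ?_
    simp only [Finset.mem_coe, Multiset.mem_toFinset, mem_roots hG0]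
    exact hz
  refine (hfin.preimage Subtype.val_injective.injOn).subset fun x hx => ?_
  have hx' : N P Q x = w := hx
  change G.eval (x : ℂ) = 0
  have hx2 := x.2
  rw [hG]
  simp only [eval_sub, eval_mul, eval_X, eval_C]
  rw [← hx']
  unfold N
  field_simp
  ring

lemma analyticAt_N {z : ℂ} (hz : (dP P Q).eval z ≠ 0) : AnalyticAt ℂ (N P Q) z := by
  unfold N
  exact analyticAt_id.sub ((P.differentiable.analyticAt z).div
    ((dP P Q).differentiable.analyticAt z) hz)

lemma isLocalHomeomorphOn_N : IsLocalHomeomorphOn (N P Q)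
    {z | (dP P Q).eval z ≠ 0 ∧ N' P Q z ≠ 0} := by
  refine IsLocalHomeomorphOn.mk _ _ fun z hz => ?_
  have h1 := (analyticAt_N (P := P) (Q := Q) hz.1).hasStrictDerivAt
  rw [(hasDerivAt_N hz.1).deriv] at h1
  have h2 := h1.hasStrictFDerivAt_equiv hz.2
  exact ⟨h2.toOpenPartialHomeomorph (N P Q), h2.mem_toOpenPartialHomeomorph_source,
    fun x _ => rfl⟩

lemma covering (hy : Hyps P Q) : IsCoveringMapOn (pm P Q) {w | P.eval w ≠ 0} := by
  refine (proper_pm hy).isClosedMap.isCoveringMapOn_of_isLocalHomeomorphOn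
    (fun x _ => finite_fiber hy x) ?_
  have hopen : IsOpen {z : ℂ | (dP P Q).eval z ≠ 0} :=
    isOpen_ne.preimage (dP P Q).continuous
  have h1 : IsLocalHomeomorph (Subtype.val : E P Q → ℂ) :=
    hopen.isOpenEmbedding_subtypeVal.isLocalHomeomorph
  have h2 := (isLocalHomeomorphOn_N (P := P) (Q := Q)).comp
    (h1.isLocalHomeomorphOn (s := pm P Q ⁻¹' {w | P.eval w ≠ 0})) ?_
  · exact h2
  · intro x hx
    exact ⟨x.2, N'_ne hy x.2 hx⟩

/-- Lifting of a disc avoiding the zeros of `P` along an orbit. -/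
lemma lift (hy : Hyps P Q) {c : ℂ} {r : ℝ} (hr : 0 < r) (hav : ∀ u ∈ ball c r, P.eval u ≠ 0) :
    ∀ (k : ℕ) (z : ℂ), (∀ i < k, (dP P Q).eval ((N P Q)^[i] z) ≠ 0) → (N P Q)^[k] z = c →
      ∃ G : C(ball c r, ℂ), G ⟨c, mem_ball_self hr⟩ = z ∧
        (∀ u, (N P Q)^[k] (G u) = u) ∧
        (∀ u, ∀ i < k, (dP P Q).eval ((N P Q)^[i] (G u)) ≠ 0) := by
  have hsc : SimplyConnectedSpace (ball c r) := by
    have := contractibleSpace_ball (x := c) hr
    infer_instance
  have hlp : LocallyPathConnectedSpace (ball c r) := isOpen_ball.locallyPathConnectedSpace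
  intro k
  induction k with
  | zero =>
    intro z _ hz
    refine ⟨⟨Subtype.val, continuous_subtype_val⟩, ?_, fun u => rfl, fun u i hi => by omega⟩
    rw [Function.iterate_zero, id] at hz
    rw [hz]
    rfl
  | succ k ih =>
    intro z h1 h2
    rw [Function.iterate_succ_apply] at h2
    obtain ⟨G', g1, g2, g3⟩ := ih (N P Q z) (fun i hi => by
      have := h1 (i + 1) (by omega)
      rwa [Function.iterate_succ_apply] at this) h2
    have hvals : ∀ u, G' u ∈ {w | P.eval w ≠ 0} := by
      intro u hu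
      have h3 := g2 u
      rw [N_fix_iter hu] at h3
      exact hav u u.2 (h3 ▸ hu)
    have hz0 : (dP P Q).eval z ≠ 0 := h1 0 (by omega)
    obtain ⟨F, ⟨f1, f2⟩, _⟩ := (covering hy).existsUnique_continuousMap_lifts G'
      (a₀ := ⟨c, mem_ball_self hr⟩) (e₀ := ⟨z, hz0⟩) (by rw [g1]; rfl) hvals
    have hF : ∀ u, N P Q (F u) = G' u := fun u => congrFun f2 u
    refine ⟨⟨fun u => (F u : ℂ), continuous_subtype_val.comp F.continuous⟩, ?_, fun u => ?_,
      fun u i hi => ?_⟩
    · change ((F ⟨c, mem_ball_self hr⟩ : E P Q) : ℂ) = z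
      rw [f1]
    · rw [Function.iterate_succ_apply]
      change (N P Q)^[k] (N P Q (F u)) = u
      rw [hF, g2]
    · change (dP P Q).eval ((N P Q)^[i] (F u : ℂ)) ≠ 0
      cases i with
      | zero => exact (F u).2
      | succ i =>
        rw [Function.iterate_succ_apply, hF]
        exact g3 u i (by omega)

/-- derivative of iterates -/
lemma hasDerivAt_iter {z : ℂ} {k : ℕ} (h : ∀ i < k, (dP P Q).eval ((N P Q)^[i] z) ≠ 0) :
    HasDerivAt ((N P Q)^[k]) (∏ i ∈ Finset.range k, N' P Q ((N P Q)^[i] z)) z := by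
  induction k with
  | zero => simpa using hasDerivAt_id z
  | succ k ih =>
    have h1 := ih fun i hi => h i (by omega)
    have h2 := hasDerivAt_N (P := P) (Q := Q) (h k (by omega))
    rw [Function.iterate_succ', Finset.prod_range_succ, mul_comm]
    exact h2.comp z h1

/-- an invariant disc around a zero of `P` -/
lemma inv_disc (hy : Hyps P Q) {q : ℂ} (hq : P.eval q = 0) :
    ∃ ε > 0, ∀ z ∈ ball q ε, N P Q z ∈ ball q ε := by
  have hd : (dP P Q).eval q ≠ 0 := by
    rw [dP_at_zero hq]
    exact hy.simple q hq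
  have h1 := hasDerivAt_N (P := P) (Q := Q) hd
  have h0 : N' P Q q = 0 := by
    unfold N'
    rw [hq, zero_mul, zero_div]
  rw [h0] at h1
  have h2 := (hasDerivAt_iff_isLittleO.mp h1).def (c := 1 / 2) (by norm_num)
  obtain ⟨ε, hε, h3⟩ := Metric.eventually_nhds_iff_ball.mp h2
  refine ⟨ε, hε, fun z hz => ?_⟩
  have h4 := h3 z hz
  rw [smul_zero, sub_zero, N_fix hq] at h4
  rw [mem_ball, dist_eq_norm] at hz ⊢
  have := norm_nonneg (z - q)
  linarith

theorem contra (hy : Hyps P Q) : False := by
  obtain ⟨z₀, B, o1, o2, o3⟩ := orbit hy.pos hy.qne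
  have hP0 : P ≠ 0 := by
    intro h
    have := hy.pos
    rw [h] at this
    simp at this
  obtain ⟨q, hq⟩ : ∃ q, P.eval q = 0 := by
    have := IsAlgClosed.exists_root P (by
      rw [degree_eq_natDegree hP0]
      exact_mod_cast hy.pos.ne')
    exact this
  obtain ⟨ε, hε, hinv⟩ := inv_disc hy hq
  -- bound for the zeros and the disc
  obtain ⟨R₁, hR₁⟩ : ∃ R₁ : ℝ, (∀ u, P.eval u = 0 → ‖u‖ ≤ R₁) ∧ ∀ u ∈ ball q ε, ‖u‖ ≤ R₁ := by
    have hb1 : IsBounded ((P.roots.toFinset : Set ℂ) ∪ ball q ε) :=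
      (Finset.finite_toSet _).isBounded.union isBounded_ball
    obtain ⟨R, hR⟩ := hb1.exists_norm_le
    refine ⟨R, fun u hu => hR u (Or.inl ?_), fun u hu => hR u (Or.inr hu)⟩
    simp only [Finset.mem_coe, Multiset.mem_toFinset, mem_roots hP0]
    exact hu
  obtain ⟨hR1, hR2⟩ := hR₁
  have hB0 : 0 < B := by
    have := o3 0
    simp at this
    linarith
  have hinvN : ∀ n : ℕ, ∀ z ∈ ball q ε, (N P Q)^[n] z ∈ ball q ε := by
    intro n
    induction n with
    | zero => intro z hz; exact hz
    | succ n ih => intro z hz; rw [Function.iterate_succ_apply]; exact ih _ (hinv z hz)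
  have key : ∀ n : ℕ, ∀ r : ℝ, 0 < r → R₁ + 2 * r ≤ ‖(N P Q)^[n] z₀‖ →
      r ≤ B * ‖z₀ - q‖ ^ 2 / ε := by
    intro n r hr hn
    set c := (N P Q)^[n] z₀ with hc
    have hball : ∀ u ∈ ball c (2 * r), R₁ < ‖u‖ := by
      intro u hu
      rw [mem_ball, dist_comm, dist_eq_norm] at hu
      have := norm_sub_norm_le c (c - u)
      have e : c - (c - u) = u := by ring
      rw [e] at this
      linarith
    have hav : ∀ u ∈ ball c (2 * r), P.eval u ≠ 0 := fun u hu h0 =>
      absurd (hR1 u h0) (not_le.mpr (hball u hu))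
    have h2r : 0 < 2 * r := by linarith
    obtain ⟨G, G1, G2, G3⟩ := lift hy h2r hav n z₀ (fun i _ => o1 i) hc.symm
    -- extend to a function on ℂ
    classical
    set g : ℂ → ℂ := fun u => if h : u ∈ ball c (2 * r) then G ⟨u, h⟩ else 0 with hg
    have hgG : ∀ (u : ℂ) (h : u ∈ ball c (2 * r)), g u = G ⟨u, h⟩ := fun u h => by
      simp only [hg, dif_pos h]
    have hgcont : ContinuousOn g (ball c (2 * r)) := by
      rw [continuousOn_iff_continuous_domRestrict]
      have : (ball c (2 * r)).domRestrict g = G := by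
        funext u
        exact hgG u u.2
      rw [this]
      exact G.continuous
    have hgc : g c = z₀ := by
      rw [hgG c (mem_ball_self h2r), G1]
    have hgavoid : ∀ u ∈ ball c (2 * r), ε ≤ ‖g u - q‖ := by
      intro u hu
      by_contra hcon
      push Not at hcon
      have h1 : g u ∈ ball q ε := by
        rw [mem_ball, dist_eq_norm]
        exact hcon
      have h2 := hinvN n _ h1
      rw [hgG u hu, G2] at h2
      exact absurd (hR2 u h2) (not_le.mpr (hball u hu))
    have hgderiv : ∀ u ∈ ball c (2 * r), HasDerivAt g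
        (∏ i ∈ Finset.range n, N' P Q ((N P Q)^[i] (g u)))⁻¹ u := by
      intro u hu
      have hd : ∀ i < n, (dP P Q).eval ((N P Q)^[i] (g u)) ≠ 0 := by
        rw [hgG u hu]
        exact G3 ⟨u, hu⟩
      refine HasDerivAt.of_local_left_inverse (hgcont.continuousAt (isOpen_ball.mem_nhds hu))
        (hasDerivAt_iter hd) ?_ ?_
      · refine Finset.prod_ne_zero_iff.mpr fun i hi => ?_
        have hi' := Finset.mem_range.mp hi
        apply N'_ne hy (hd i hi')
        intro h0
        have h1 : (N P Q)^[n] (g u) = N P Q ((N P Q)^[i] (g u)) := by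
          have e : n = (n - (i + 1)) + (i + 1) := by omega
          rw [e, Function.iterate_add_apply, Function.iterate_succ_apply', N_fix_iter h0]
        rw [← h1, hgG u hu, G2] at h0
        exact hav u hu h0
      · filter_upwards [isOpen_ball.mem_nhds hu] with v hv
        rw [hgG v hv, G2]
    -- Cauchy estimate
    set k : ℂ → ℂ := fun u => (g u - q)⁻¹ with hk
    have hne : ∀ u ∈ ball c (2 * r), g u - q ≠ 0 := by
      intro u hu h0
      have := hgavoid u hu
      rw [h0, norm_zero] at this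
      linarith
    have hkd : ∀ u ∈ ball c (2 * r), HasDerivAt k
        (-(∏ i ∈ Finset.range n, N' P Q ((N P Q)^[i] (g u)))⁻¹ / (g u - q) ^ 2) u := fun u hu =>
      ((hgderiv u hu).sub_const q).inv (hne u hu)
    have hdc : DiffContOnCl ℂ k (ball c r) := by
      apply DifferentiableOn.diffContOnCl
      intro u hu
      have hu' : u ∈ ball c (2 * r) := by
        have := closure_ball_subset_closedBall hu
        rw [mem_closedBall] at this
        rw [mem_ball]
        linarith
      exact (hkd u hu').differentiableAt.differentiableWithinAt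
    have hbound : ∀ u ∈ sphere c r, ‖k u‖ ≤ 1 / ε := by
      intro u hu
      have hu' : u ∈ ball c (2 * r) := by
        rw [mem_sphere] at hu
        rw [mem_ball, hu]
        linarith
      rw [hk]
      simp only
      rw [norm_inv, ← one_div]
      exact one_div_le_one_div_of_le hε (hgavoid u hu')
    have hcauchy := Complex.norm_deriv_le_of_forall_mem_sphere_norm_le hr hdc hbound
    rw [(hkd c (mem_ball_self h2r)).deriv, hgc, norm_div, norm_neg, norm_inv, norm_pow] at hcauchy
    have hD := o3 n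
    have hDpos : 0 < ‖∏ i ∈ Finset.range n, N' P Q ((N P Q)^[i] z₀)‖ := by
      rw [norm_pos_iff]
      refine Finset.prod_ne_zero_iff.mpr fun i hi => ?_
      have hi' := Finset.mem_range.mp hi
      apply N'_ne hy (o1 i)
      intro h0
      have h1 : c = N P Q ((N P Q)^[i] z₀) := by
        have e : n = (n - (i + 1)) + (i + 1) := by omega
        rw [hc, e, Function.iterate_add_apply, Function.iterate_succ_apply', N_fix_iter h0]
      rw [← h1] at h0
      exact hav c (mem_ball_self h2r) h0
    have hzq : 0 < ‖z₀ - q‖ := by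
      have := hgavoid c (mem_ball_self h2r)
      rw [hgc] at this
      linarith
    have h5 : B⁻¹ / ‖z₀ - q‖ ^ 2 ≤ 1 / ε / r := by
      refine le_trans ?_ hcauchy
      gcongr
    rw [div_div, div_le_div_iff₀ (by positivity) (by positivity)] at h5
    rw [le_div_iff₀ hε]
    have h6 : B * (B⁻¹ * (ε * r)) = ε * r := by
      rw [← mul_assoc, mul_inv_cancel₀ hB0.ne', one_mul]
    have h7 := mul_le_mul_of_nonneg_left h5 hB0.le
    rw [h6] at h7
    linarith
  -- conclusion
  set L := B * ‖z₀ - q‖ ^ 2 / ε with hL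
  have hL0 : 0 ≤ L := by positivity
  obtain ⟨n, hn⟩ := (o2.eventually_ge_atTop (R₁ + 2 * (L + 1))).exists
  have := key n (L + 1) (by linarith) hn
  linarith

end Pool.Agent.X116.NewtonB
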