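import Mathlib

set_option autoImplicit false

open Set Filter Metric Topology

namespace Pool.Agent.X116.Ui

theorem selFin {b : ℕ → ℕ → ℂ} {M : ℕ → ℕ} (hM : ∀ k, 0 < M k)
    (hMs : ∀ K, ∑ k ∈ Finset.range K, 1 / (M k : ℝ) < 1)
    (hb : ∀ k, Summable fun n => ‖b k n‖) (hkk : ∀ k, b k k ≠ 0) (K : ℕ) :
    ∃ ξ : ℕ → ℝ, (∀ n, ξ n ∈ Icc (0:ℝ) 1) ∧
      ∀ k < K, ‖b k k‖ / (2 * M k) ≤ ‖∑' n, (ξ n : ℂ) * b k n‖ := by
  classical
  set ext : ((i : Fin K) → Fin (M i)) → ℕ → ℝ := fun σ n =>
    if h : n < K then ((σ ⟨n, h⟩ : ℕ) + 1 : ℝ) / M n else 1 with hext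
  have hext1 : ∀ σ n, ext σ n ∈ Icc (0:ℝ) 1 := by
    intro σ n
    simp only [hext]
    split_ifs with h
    · constructor
      · positivity
      · have h1 : ((σ ⟨n, h⟩ : ℕ) : ℝ) + 1 ≤ M n := by
          exact_mod_cast (σ ⟨n, h⟩).2
        have h2 : (0:ℝ) < M n := by exact_mod_cast hM n
        rw [div_le_one h2]
        exact h1
    · simp
  have hsum : ∀ (ξ : ℕ → ℝ), (∀ n, ξ n ∈ Icc (0:ℝ) 1) → ∀ k, Summable fun n => (ξ n : ℂ) * b k n := by
    intro ξ hξ k
    apply Summable.of_norm_bounded (hb k)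
    intro n
    rw [norm_mul, Complex.norm_real, Real.norm_of_nonneg (hξ n).1]
    have := (hξ n).2
    have h0 := norm_nonneg (b k n)
    nlinarith
  set Bad : Fin K → Finset ((i : Fin K) → Fin (M i)) := fun k =>
    Finset.univ.filter fun σ => ‖∑' n, (ext σ n : ℂ) * b k n‖ < ‖b k k‖ / (2 * M k) with hBad
  set P : ℕ := Fintype.card ((i : Fin K) → Fin (M i)) with hP
  have hPpos : 0 < P := by
    rw [hP, Fintype.card_pos_iff]
    exact ⟨fun i => ⟨0, hM i⟩⟩
  have hcard : ∀ k : Fin K, M k * (Bad k).card ≤ P := by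
    intro k
    have h1 : ((Finset.univ : Finset (Fin (M k))) ×ˢ Bad k).card ≤ P := by
      rw [hP, ← Finset.card_univ]
      apply Finset.card_le_card_of_injOn (fun q => Function.update q.2 k q.1)
      · intro q _
        exact Finset.mem_coe.2 (Finset.mem_univ _)
      · rintro ⟨j, σ⟩ hq ⟨j', σ'⟩ hq' heq
        simp only at heq
        have hj : j = j' := by
          have := congrFun heq k
          simpa using this
        have hoff : ∀ i, i ≠ k → σ i = σ' i := by
          intro i hi
          have := congrFun heq i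
          simpa [Function.update_of_ne hi] using this
        simp only [hBad, Finset.coe_product, Set.mem_prod, Finset.mem_coe, Finset.mem_filter,
          Finset.mem_univ, true_and] at hq hq'
        have hMk : (0:ℝ) < M k := by exact_mod_cast hM k
        have hbk : 0 < ‖b k k‖ := norm_pos_iff.2 (hkk k)
        have hdiff : (∑' n, (ext σ n : ℂ) * b k n) - ∑' n, (ext σ' n : ℂ) * b k n
            = ((((σ k : ℕ) : ℝ) - ((σ' k : ℕ) : ℝ)) / M k : ℝ) * b k k := by
          rw [← Summable.tsum_sub (hsum _ (hext1 σ) k) (hsum _ (hext1 σ') k)]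
          rw [tsum_eq_single (k : ℕ)]
          · simp only [hext, k.2, dif_pos, Fin.eta]
            push_cast
            ring
          · intro n hn
            by_cases h : n < K
            · have h2 := hoff ⟨n, h⟩ (fun h3 => hn (congrArg Fin.val h3))
              simp only [hext, h, dif_pos, h2, sub_self]
            · simp only [hext, h, dif_neg, not_false_iff, sub_self]
        have h3 : ‖((((σ k : ℕ) : ℝ) - ((σ' k : ℕ) : ℝ)) / M k : ℝ) * b k k‖ < ‖b k k‖ / M k := by
          rw [← hdiff]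
          calc _ ≤ _ := norm_sub_le _ _
            _ < ‖b k k‖ / (2 * M k) + ‖b k k‖ / (2 * M k) := add_lt_add hq hq'
            _ = ‖b k k‖ / M k := by field_simp; norm_num
        rw [norm_mul, Complex.norm_real, Real.norm_eq_abs, abs_div, abs_of_pos hMk, div_mul_eq_mul_div,
          div_lt_div_iff_of_pos_right hMk] at h3
        have h4 : |((σ k : ℕ) : ℝ) - ((σ' k : ℕ) : ℝ)| < 1 := by
          by_contra hcon
          push Not at hcon
          nlinarith
        have h5 : σ k = σ' k := by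
          apply Fin.ext
          have h6 : |((σ k : ℕ) : ℤ) - ((σ' k : ℕ) : ℤ)| < 1 := by exact_mod_cast h4
          rw [Int.abs_lt_one_iff] at h6
          omega
        have h7 : σ = σ' := by
          funext i
          by_cases hi : i = k
          · subst hi; exact h5
          · exact hoff i hi
        rw [hj, h7]
    rwa [Finset.card_product, Finset.card_univ, Fintype.card_fin] at h1
  have htot : ((Finset.univ.biUnion Bad).card : ℝ) < P := by
    have hPr : (0:ℝ) < P := by exact_mod_cast hPpos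
    calc ((Finset.univ.biUnion Bad).card : ℝ) ≤ ∑ k, ((Bad k).card : ℝ) := by
          exact_mod_cast Finset.card_biUnion_le
      _ ≤ ∑ k : Fin K, P * (1 / (M k : ℝ)) := by
          apply Finset.sum_le_sum
          intro k _
          have hMk : (0:ℝ) < M k := by exact_mod_cast hM k
          rw [mul_one_div, le_div_iff₀ hMk]
          have := hcard k
          rw [mul_comm] at this
          exact_mod_cast this
      _ = P * ∑ k ∈ Finset.range K, 1 / (M k : ℝ) := by
          rw [← Finset.mul_sum, Finset.sum_range]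
      _ < P * 1 := by
          gcongr
          exact hMs K
      _ = P := mul_one _
  have hex : ∃ σ, σ ∉ Finset.univ.biUnion Bad := by
    by_contra hcon
    push Not at hcon
    have h1 : Finset.univ.biUnion Bad = Finset.univ := Finset.eq_univ_of_forall hcon
    rw [h1, Finset.card_univ, ← hP] at htot
    exact lt_irrefl _ htot
  obtain ⟨σ, hσ⟩ := hex
  refine ⟨ext σ, hext1 σ, ?_⟩
  intro k hk
  by_contra hcon
  push Not at hcon
  apply hσ
  rw [Finset.mem_biUnion]
  refine ⟨⟨k, hk⟩, Finset.mem_univ _, ?_⟩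
  simp only [hBad, Finset.mem_filter, Finset.mem_univ, true_and]
  exact hcon

theorem select {b : ℕ → ℕ → ℂ} {M : ℕ → ℕ} (hM : ∀ k, 0 < M k)
    (hMs : ∀ K, ∑ k ∈ Finset.range K, 1 / (M k : ℝ) < 1)
    (hb : ∀ k, Summable fun n => ‖b k n‖) (hkk : ∀ k, b k k ≠ 0) :
    ∃ ξ : ℕ → ℝ, (∀ n, ξ n ∈ Icc (0:ℝ) 1) ∧
      ∀ k, ‖b k k‖ / (2 * M k) ≤ ‖∑' n, (ξ n : ℂ) * b k n‖ := by
  choose X hX1 hX2 using selFin hM hMs hb hkk
  have hcomp : IsCompact (Set.pi univ (fun _ : ℕ => Icc (0:ℝ) 1)) :=
    isCompact_univ_pi (fun _ => isCompact_Icc)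
  obtain ⟨ξ, hξ, φ, hφ, hlim⟩ := hcomp.tendsto_subseq (x := X) (fun K n _ => hX1 K n)
  refine ⟨ξ, fun n => hξ n (mem_univ n), ?_⟩
  intro k
  have hpt : ∀ n, Tendsto (fun j => X (φ j) n) atTop (𝓝 (ξ n)) := by
    intro n
    exact (tendsto_pi_nhds.1 hlim) n
  have h1 : Tendsto (fun j => ∑' n, (X (φ j) n : ℂ) * b k n) atTop (𝓝 (∑' n, (ξ n : ℂ) * b k n)) := by
    apply tendsto_tsum_of_dominated_convergence (hb k)
    · intro n
      apply Tendsto.mul_const
      exact (Complex.continuous_ofReal.tendsto _).comp (hpt n)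
    · refine Eventually.of_forall fun j n => ?_
      rw [norm_mul, Complex.norm_real, Real.norm_of_nonneg (hX1 (φ j) n).1]
      have := (hX1 (φ j) n).2
      have h0 := norm_nonneg (b k n)
      nlinarith
  refine ge_of_tendsto h1.norm ?_
  filter_upwards [eventually_gt_atTop k] with j hj
  exact hX2 (φ j) k (hj.trans_le (hφ.le_apply))

end Pool.Agent.X116.Ui
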