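import Pool.Agent.X116.UiC
import Pool.Agent.X116.UiD

set_option autoImplicit false

open Complex Set Filter Metric Topology

namespace Pool.Agent.X116.Ui

theorem iter_fn {g : ℂ → ℂ} (hg : Differentiable ℂ g) {a : ℕ → ℂ} {p : ℕ → ℕ}
    (hp : ∀ n, 1 ≤ p n) {n : ℕ} (hgi : Interp a p (fun m κ => if m = n ∧ κ + 1 = p n then 1 else 0) g) :
    (∀ m, ∀ k < p m, iteratedDeriv k (fun z => (z - a n) * g z) (a m) = 0) ∧
    iteratedDeriv (p n) (fun z => (z - a n) * g z) (a n) = ((p n).factorial : ℂ) := by
  have hfac : ∀ k : ℕ, (k.factorial : ℂ) ≠ 0 := fun k => by exact_mod_cast k.factorial_ne_zero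
  have hz : ∀ m, m ≠ n → ∀ k < p m, iteratedDeriv k g (a m) = 0 := by
    intro m hm k hk
    have h1 := hgi m k hk
    beta_reduce at h1
    rw [if_neg (fun h => hm h.1), div_eq_zero_iff] at h1
    exact h1.resolve_right (hfac k)
  have hz2 : ∀ k, k + 1 < p n → iteratedDeriv k g (a n) = 0 := by
    intro k hk
    have h1 := hgi n k (by omega)
    beta_reduce at h1
    rw [if_neg (fun h => by omega), div_eq_zero_iff] at h1
    exact h1.resolve_right (hfac k)
  constructor
  · intro m k hk
    rcases Nat.eq_zero_or_pos k with h0 | h0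
    · subst h0
      rw [iteratedDeriv_zero]
      by_cases hm : m = n
      · subst hm; simp
      · have h1 := hz m hm 0 hk
        rw [iteratedDeriv_zero] at h1
        simp [h1]
    · obtain ⟨j, rfl⟩ : ∃ j, k = j + 1 := ⟨k - 1, by omega⟩
      rw [iter_mul hg]
      by_cases hm : m = n
      · subst hm
        rw [hz2 j hk]
        simp
      · rw [hz m hm (j + 1) hk, hz m hm j (by omega)]
        simp
  · obtain ⟨j, hj⟩ : ∃ j, p n = j + 1 := ⟨p n - 1, by have := hp n; omega⟩
    rw [hj, iter_mul hg]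
    have h1 := hgi n j (by omega)
    beta_reduce at h1
    rw [if_pos ⟨rfl, hj.symm⟩, div_eq_one_iff_eq (hfac j)] at h1
    rw [h1, Nat.factorial_succ]
    push_cast
    ring

theorem main (a : ℕ → ℂ) (p : ℕ → ℕ) (hp : ∀ n, 1 ≤ p n)
    (H : ∀ lam : ℕ → ℕ → ℂ, (∃ C > (0:ℝ), ∀ n κ, ‖lam n κ‖ ≤ C) →
      ∃ A > (0:ℝ), ∃ B > (0:ℝ), ∃ g, Cls A B g ∧ Interp a p lam g) :
    ∃ f : ℂ → ℂ, (∃ A > (0:ℝ), ∃ B > (0:ℝ), Cls A B f) ∧ (∃ z, f z ≠ 0) ∧
      (∀ n, ∀ k < p n, iteratedDeriv k f (a n) = 0) ∧
      ∃ ε > (0:ℝ), ∃ c > (0:ℝ), ∀ n,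
        ε * Real.exp (-(c * rho (a n))) ≤
          ‖iteratedDeriv (p n) f (a n)‖ / ((p n).factorial : ℝ) := by
  obtain ⟨A, hA, B, hB, hU⟩ := unif a p H
  -- summability
  have hS := summ (a := a) hB hA (fun n => by
    obtain ⟨g, hg, hgi⟩ := hU (fun m κ => if m = n ∧ κ = 0 then 1 else 0) (by
      intro m κ
      split_ifs <;> simp)
    refine ⟨g, hg, ?_, ?_⟩
    · have h1 := hgi n 0 (hp n)
      simpa using h1
    · intro m hm
      have h1 := hgi m 0 (hp m)
      simpa [hm] using h1)
  have hG : ∀ n, ∃ g, Cls A B g ∧ Interp a p (fun m κ => if m = n ∧ κ + 1 = p n then 1 else 0) g := by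
    intro n
    apply hU
    intro m κ
    split_ifs <;> simp
  choose g hg hgi using hG
  set s : ℝ := 2 * B + 3 with hs
  have hspos : 0 < s := by positivity
  set u : ℕ → ℝ := fun n => Real.exp (-s * rho (a n)) with hu
  set w : ℕ → ℝ := fun n => Real.exp (-(s + 1) * rho (a n)) with hw
  have hu0 : ∀ n, 0 ≤ u n := fun n => (Real.exp_pos _).le
  set b : ℂ → ℝ := fun z => 2 * A * (1 + ‖z‖) * Real.exp (B * rho z) with hb
  have hbc : Continuous b := by
    have := rho_cont
    rw [hb]
    fun_prop
  have hb0 : ∀ z, 0 ≤ b z := fun z => by rw [hb]; positivity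
  set F : ℕ → ℂ → ℂ := fun n z => (w n : ℂ) * ((z - a n) * g n z) with hF
  have hFd : ∀ n, Differentiable ℂ (F n) := by
    intro n
    have := (hg n).1
    rw [hF]
    fun_prop
  have hFb : ∀ n z, ‖F n z‖ ≤ u n * b z := by
    intro n z
    simp only [hF]
    rw [norm_mul, norm_mul, Complex.norm_real, Real.norm_of_nonneg (Real.exp_pos _).le]
    have h1 : ‖z - a n‖ ≤ (1 + ‖z‖) * (1 + ‖a n‖) := by
      have := norm_sub_le z (a n)
      nlinarith [norm_nonneg z, norm_nonneg (a n), mul_nonneg (norm_nonneg z) (norm_nonneg (a n))]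
    have h2 := one_add_le (a n)
    have h3 := (hg n).2 z
    have h4 : w n * Real.exp (rho (a n)) = u n := by
      simp only [hw, hu]
      rw [← Real.exp_add]
      congr 1
      ring
    calc w n * (‖z - a n‖ * ‖g n z‖)
        ≤ w n * (((1 + ‖z‖) * (2 * Real.exp (rho (a n)))) * (A * Real.exp (B * rho z))) := by
          have hw0 : 0 ≤ w n := (Real.exp_pos _).le
          gcongr
          exact h1.trans (by gcongr)
      _ = (w n * Real.exp (rho (a n))) * (2 * A * (1 + ‖z‖) * Real.exp (B * rho z)) := by ring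
      _ = u n * b z := by rw [h4]
  have hFi : ∀ n k z, iteratedDeriv k (F n) z
      = (w n : ℂ) * iteratedDeriv k (fun z => (z - a n) * g n z) z := by
    intro n k z
    simp only [hF]
    rw [iteratedDeriv_const_mul_field]
  have hfac : ∀ k : ℕ, (k.factorial : ℂ) ≠ 0 := fun k => by exact_mod_cast k.factorial_ne_zero
  set c : ℕ → ℕ → ℂ := fun k n => iteratedDeriv (p k) (F n) (a k) / ((p k).factorial : ℂ) with hc
  have hckk : ∀ k, c k k = (w k : ℂ) := by
    intro k
    simp only [hc]
    rw [hFi, (iter_fn (hg k).1 hp (hgi k)).2, mul_div_assoc, div_self (hfac _), mul_one]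
  have hwpos : ∀ k, 0 < w k := fun k => Real.exp_pos _
  have hcsum : ∀ k, Summable fun n => ‖c k n‖ := by
    intro k
    obtain ⟨C, hC⟩ := (isCompact_closedBall (a k) 1).exists_bound_of_continuousOn hbc.continuousOn
    refine Summable.of_nonneg_of_le (fun n => norm_nonneg _) (fun n => ?_) (hS.mul_right C)
    simp only [hc]
    rw [norm_div, Complex.norm_natCast, div_le_iff₀ (by positivity)]
    have h1 := cauchy (hFd n) (p k) (a k) (M := u n * C) (fun z hz => (hFb n z).trans (by
      have := hC z hz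
      rw [Real.norm_of_nonneg (hb0 z)] at this
      have := hu0 n
      gcongr))
    refine h1.trans (le_of_eq ?_)
    simp only [hu]
    ring
  set T : ℝ := ∑' n, u n with hT
  have hT0 : 0 ≤ T := tsum_nonneg hu0
  set M : ℕ → ℕ := fun k => ⌈(T + 1) * Real.exp (s * rho (a k))⌉₊ with hM
  have hM1 : ∀ k, (T + 1) * Real.exp (s * rho (a k)) ≤ M k := fun k => Nat.le_ceil _
  have hMpos : ∀ k, 0 < M k := by
    intro k
    have := hM1 k
    have h2 : 0 < (T + 1) * Real.exp (s * rho (a k)) := by positivity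
    exact_mod_cast h2.trans_le this
  have hM2 : ∀ k, (M k : ℝ) ≤ (T + 2) * Real.exp (s * rho (a k)) := by
    intro k
    have h2 : 0 ≤ (T + 1) * Real.exp (s * rho (a k)) := by positivity
    have h3 := Nat.ceil_lt_add_one h2
    have h4 : 1 ≤ Real.exp (s * rho (a k)) := Real.one_le_exp (by have := rho_nonneg (a k); positivity)
    simp only [hM]
    nlinarith
  have hMs : ∀ K, ∑ k ∈ Finset.range K, 1 / (M k : ℝ) < 1 := by
    intro K
    calc ∑ k ∈ Finset.range K, 1 / (M k : ℝ) ≤ ∑ k ∈ Finset.range K, u k / (T + 1) := by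
          apply Finset.sum_le_sum
          intro k _
          rw [div_le_div_iff₀ (by exact_mod_cast hMpos k) (by positivity), one_mul]
          have h1 := hM1 k
          have h2 : u k * ((T + 1) * Real.exp (s * rho (a k))) = T + 1 := by
            have : u k * Real.exp (s * rho (a k)) = 1 := by
              simp only [hu]
              rw [← Real.exp_add]
              simp
            calc _ = (u k * Real.exp (s * rho (a k))) * (T + 1) := by ring
              _ = T + 1 := by rw [this, one_mul]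
          calc T + 1 = u k * ((T + 1) * Real.exp (s * rho (a k))) := h2.symm
            _ ≤ u k * M k := by have := hu0 k; gcongr
      _ = (∑ k ∈ Finset.range K, u k) / (T + 1) := by rw [Finset.sum_div]
      _ ≤ T / (T + 1) := by
          gcongr
          exact hS.sum_le_tsum _ fun n _ => hu0 n
      _ < 1 := by
          rw [div_lt_one (by positivity)]
          linarith
  obtain ⟨ξ, hξ, hξ2⟩ := select hMpos hMs hcsum (fun k => by
    rw [hckk]
    exact_mod_cast (hwpos k).ne')
  set G : ℕ → ℂ → ℂ := fun n z => (ξ n : ℂ) * F n z with hGdef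
  have hGd : ∀ n, Differentiable ℂ (G n) := fun n => (hFd n).const_mul _
  have hGb : ∀ n z, ‖G n z‖ ≤ u n * b z := by
    intro n z
    simp only [hGdef]
    rw [norm_mul, Complex.norm_real, Real.norm_of_nonneg (hξ n).1]
    have h1 := hFb n z
    have h2 := (hξ n).2
    have h3 := (hξ n).1
    have h4 := norm_nonneg (F n z)
    nlinarith
  have hGi : ∀ n k z, iteratedDeriv k (G n) z = (ξ n : ℂ) * iteratedDeriv k (F n) z := by
    intro n k z
    simp only [hGdef]
    rw [iteratedDeriv_const_mul_field]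
  obtain ⟨hf1, hf2, hf3⟩ := series hGd hbc hS hu0 hGb
  have hlow : ∀ n, (1 / (2 * (T + 2))) * Real.exp (-((2 * s + 1) * rho (a n))) ≤
          ‖iteratedDeriv (p n) (fun z => ∑' n, G n z) (a n)‖ / ((p n).factorial : ℝ) := by
    intro n
    have h1 : iteratedDeriv (p n) (fun z => ∑' n, G n z) (a n) / ((p n).factorial : ℂ)
        = ∑' m, (ξ m : ℂ) * c n m := by
      rw [hf3, ← tsum_div_const]
      congr 1
      funext m
      rw [hGi]
      simp only [hc]
      ring
    have h2 : ‖iteratedDeriv (p n) (fun z => ∑' n, G n z) (a n)‖ / ((p n).factorial : ℝ)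
        = ‖∑' m, (ξ m : ℂ) * c n m‖ := by
      rw [← h1, norm_div, Complex.norm_natCast]
    rw [h2]
    refine le_trans ?_ (hξ2 n)
    rw [hckk, Complex.norm_real, Real.norm_of_nonneg (hwpos n).le]
    have hMn : (0:ℝ) < M n := by exact_mod_cast hMpos n
    rw [le_div_iff₀ (by positivity)]
    have h3 := hM2 n
    calc 1 / (2 * (T + 2)) * Real.exp (-((2 * s + 1) * rho (a n))) * (2 * M n)
        ≤ 1 / (2 * (T + 2)) * Real.exp (-((2 * s + 1) * rho (a n))) *
            (2 * ((T + 2) * Real.exp (s * rho (a n)))) := by gcongr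
      _ = Real.exp (-((2 * s + 1) * rho (a n))) * Real.exp (s * rho (a n)) := by
          have : T + 2 ≠ 0 := by positivity
          field_simp
      _ = w n := by
          simp only [hw]
          rw [← Real.exp_add]
          congr 1
          ring
  refine ⟨fun z => ∑' n, G n z, ⟨4 * A * (T + 1), by positivity, B + 1, by positivity, hf1, ?_⟩, ?_, ?_, ?_⟩
  · intro z
    refine (hf2 z).trans ?_
    have h1 := one_add_le z
    calc T * b z = 2 * A * T * (1 + ‖z‖) * Real.exp (B * rho z) := by simp only [hb]; ring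
      _ ≤ 2 * A * (T + 1) * (2 * Real.exp (rho z)) * Real.exp (B * rho z) := by
          gcongr
          linarith
      _ = 4 * A * (T + 1) * (Real.exp (rho z) * Real.exp (B * rho z)) := by ring
      _ = 4 * A * (T + 1) * Real.exp ((B + 1) * rho z) := by
          rw [← Real.exp_add]
          congr 2
          ring
  · by_contra hcon
    push Not at hcon
    have h1 : (fun z => ∑' n, G n z) = fun _ => 0 := by
      funext z
      exact hcon z
    have h2 := hlow 0
    rw [h1] at h2
    have h3 : iteratedDeriv (p 0) (fun _ : ℂ => (0:ℂ)) (a 0) = 0 := by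
      simp
    rw [h3, norm_zero, zero_div] at h2
    have h4 : 0 < 1 / (2 * (T + 2)) * Real.exp (-((2 * s + 1) * rho (a 0))) := by positivity
    linarith
  · intro n k hk
    rw [hf3]
    have : ∀ m, iteratedDeriv k (G m) (a n) = 0 := by
      intro m
      rw [hGi, hFi, (iter_fn (hg m).1 hp (hgi m)).1 n k hk]
      simp
    simp [this]
  · exact ⟨1 / (2 * (T + 2)), by positivity, 2 * s + 1, by positivity, hlow⟩

end Pool.Agent.X116.Ui
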