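import Pool.Agent.X116.KlL

/-!
# Krall classification: normal forms
-/

open MeasureTheory Set Filter Topology Polynomial

namespace Pool.Agent.X116.Kl

/-- the six families -/
def Six (μ : MeasureTheory.Measure ℝ) : Prop :=
      ((∃ α β : ℝ, -1 < α ∧ -1 < β ∧
          μ = MeasureTheory.volume.withDensity (fun x : ℝ => ENNReal.ofReal
            ((Set.Icc (-1 : ℝ) 1).indicator (fun y : ℝ => (1 - y) ^ α * (1 + y) ^ β) x)))
        ∨ (∃ α : ℝ, -1 < α ∧
          μ = MeasureTheory.volume.withDensity (fun x : ℝ => ENNReal.ofReal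
            ((Set.Ioi (0 : ℝ)).indicator (fun y : ℝ => y ^ α * Real.exp (-y)) x)))
        ∨ (μ = MeasureTheory.volume.withDensity (fun x : ℝ => ENNReal.ofReal
            (Real.exp (-(x ^ 2)))))
        ∨ (∃ A : ℝ, 0 < A ∧
          μ = MeasureTheory.volume.restrict (Set.Icc (-1 : ℝ) 1)
            + ENNReal.ofReal (1 / A) • (MeasureTheory.Measure.dirac (-1 : ℝ)
                + MeasureTheory.Measure.dirac (1 : ℝ)))
        ∨ (∃ R : ℝ, 0 < R ∧
          μ = MeasureTheory.volume.withDensity (fun x : ℝ => ENNReal.ofReal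
            ((Set.Ioi (0 : ℝ)).indicator (fun y : ℝ => Real.exp (-y)) x))
            + ENNReal.ofReal (1 / R) • MeasureTheory.Measure.dirac (0 : ℝ))
        ∨ (∃ α M : ℝ, -1 < α ∧ 0 < M ∧
          μ = MeasureTheory.volume.withDensity (fun x : ℝ => ENNReal.ofReal
            ((Set.Ico (0 : ℝ) 1).indicator (fun y : ℝ => (1 - y) ^ α) x))
            + ENNReal.ofReal (1 / M) • MeasureTheory.Measure.dirac (0 : ℝ)))

def Good (φ : Measure ℝ) : Prop := ∃ μ : Measure ℝ, Six μ ∧ ∃ a b κ : ℝ, a ≠ 0 ∧ κ ≠ 0 ∧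
  ∀ h : ℝ[X], ∫ x, h.eval (a * x + b) ∂μ = κ * ∫ x, h.eval x ∂φ

lemma good_refl {φ : Measure ℝ} (h : Good (φ.map (fun x => -x))) : Good φ := by
  obtain ⟨μ, hμ, a, b, κ, ha, hκ, hh⟩ := h
  refine ⟨μ, hμ, -a, -b, κ, neg_ne_zero.mpr ha, hκ, fun f => ?_⟩
  have h1 := hh (f.comp (-X))
  rw [Sys.int_neg_map] at h1
  simp only [eval_comp, eval_neg, eval_X, neg_neg] at h1
  rw [← h1]
  refine integral_congr_ae (Eventually.of_forall fun x => ?_)
  change f.eval (-a * x + -b) = f.eval (-(a * x + b))
  congr 1; ring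

lemma cov (F : ℝ → ℝ) {a : ℝ} (b : ℝ) : ∫ x, F (a * x + b) = |a⁻¹| * ∫ x, F x := by
  have h1 := Measure.integral_comp_mul_left (fun z => F (z + b)) a
  rw [integral_add_right_eq_self (μ := volume) F b, smul_eq_mul] at h1
  exact h1

lemma wd_ind {S : Set ℝ} (hS : MeasurableSet S) {D : ℝ → ℝ} (hD : ∀ x ∈ S, 0 ≤ D x)
    (hm : Measurable D) (g : ℝ → ℝ) :
    ∫ x, g x ∂(volume.withDensity (fun x => ENNReal.ofReal (S.indicator D x)))
      = ∫ x in S, D x * g x := by
  rw [integral_withDensity_eq_integral_toReal_smul (hm.indicator hS).ennreal_ofReal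
    (Eventually.of_forall fun x => ENNReal.ofReal_lt_top), ← integral_indicator hS]
  refine integral_congr_ae (Eventually.of_forall fun x => ?_)
  change (ENNReal.ofReal (S.indicator D x)).toReal • g x = S.indicator (fun x => D x * g x) x
  by_cases hx : x ∈ S
  · rw [indicator_of_mem hx, indicator_of_mem hx, ENNReal.toReal_ofReal (hD x hx), smul_eq_mul]
  · rw [indicator_of_notMem hx, indicator_of_notMem hx]; simp

lemma wd_ind_int {S : Set ℝ} (hS : MeasurableSet S) {D : ℝ → ℝ} (hD : ∀ x ∈ S, 0 ≤ D x)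
    (hm : Measurable D) {g : ℝ → ℝ} (hg : IntegrableOn (fun x => D x * g x) S) :
    Integrable g (volume.withDensity (fun x => ENNReal.ofReal (S.indicator D x))) := by
  rw [integrable_withDensity_iff_integrable_smul' (hm.indicator hS).ennreal_ofReal
    (Eventually.of_forall fun x => ENNReal.ofReal_lt_top)]
  refine ((integrable_indicator_iff hS).mpr hg).congr (Eventually.of_forall fun x => ?_)
  change S.indicator (fun x => D x * g x) x = (ENNReal.ofReal (S.indicator D x)).toReal • g x
  by_cases hx : x ∈ S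
  · rw [indicator_of_mem hx, indicator_of_mem hx, ENNReal.toReal_ofReal (hD x hx), smul_eq_mul]
  · rw [indicator_of_notMem hx, indicator_of_notMem hx]; simp

/-- integral against a measure with an atom at `0` -/
lemma atom_int {μ₁ : Measure ℝ} {g : ℝ → ℝ} (hg : Integrable g μ₁)
    {M : ℝ} (hM : 0 < M) (z : ℝ) :
    ∫ x, g x ∂(μ₁ + ENNReal.ofReal (1 / M) • Measure.dirac z) = (∫ x, g x ∂μ₁) + 1 / M * g z := by
  rw [integral_add_measure hg, integral_smul_measure, integral_dirac, smul_eq_mul,
    ENNReal.toReal_ofReal (by positivity)]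
  exact (integrable_dirac (by simp)).smul_measure ENNReal.ofReal_ne_top

lemma inf_good {φ : Measure ℝ} (h : ShInf φ) : Good φ := by
  obtain ⟨K, a, b, hK, ha, hform⟩ := h
  have ha' : a ≠ 0 := ha.ne
  set s : ℝ := (Real.sqrt (-a))⁻¹ with hs
  have hsq : 0 < Real.sqrt (-a) := Real.sqrt_pos.mpr (by linarith)
  have hs0 : 0 < s := by positivity
  have hs2 : a * s ^ 2 = -1 := by
    rw [hs, inv_pow, Real.sq_sqrt (by linarith), inv_neg, mul_neg, mul_inv_cancel₀ ha']
  set t : ℝ := -b / (2 * a) with ht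
  have hat : 2 * a * t + b = 0 := by
    rw [ht]; field_simp; ring
  set k : ℝ := a * t ^ 2 + b * t with hk
  refine ⟨_, Or.inr (Or.inr (Or.inl rfl)), s, t, (K * s * Real.exp k)⁻¹, hs0.ne', by positivity,
    fun f => ?_⟩
  rw [hform f, integral_withDensity_eq_integral_toReal_smul (by fun_prop)
    (Eventually.of_forall fun x => ENNReal.ofReal_lt_top)]
  have h1 := cov (fun x => Real.exp (a * x ^ 2 + b * x) * f.eval x) (a := s) t
  have h2 : ∫ x, Real.exp (a * (s * x + t) ^ 2 + b * (s * x + t)) * f.eval (s * x + t)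
      = Real.exp k * ∫ x, (ENNReal.ofReal (Real.exp (-x ^ 2))).toReal • f.eval (s * x + t) := by
    rw [← integral_const_mul]
    refine integral_congr_ae (Eventually.of_forall fun x => ?_)
    change Real.exp (a * (s * x + t) ^ 2 + b * (s * x + t)) * f.eval (s * x + t)
      = Real.exp k * ((ENNReal.ofReal (Real.exp (-x ^ 2))).toReal • f.eval (s * x + t))
    rw [ENNReal.toReal_ofReal (Real.exp_pos _).le, smul_eq_mul, ← mul_assoc, ← Real.exp_add]
    congr 2
    have : a * (s * x + t) ^ 2 + b * (s * x + t)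
        = (a * s ^ 2) * x ^ 2 + (2 * a * t + b) * (s * x) + (a * t ^ 2 + b * t) := by ring
    rw [this, hs2, hat, hk]; ring
  rw [h2, abs_of_pos (by positivity)] at h1
  have hek := Real.exp_pos k
  have h3 : ∫ x, (ENNReal.ofReal (Real.exp (-x ^ 2))).toReal • f.eval (s * x + t)
      = (Real.exp k)⁻¹ * (s⁻¹ * ∫ x, Real.exp (a * x ^ 2 + b * x) * f.eval x) := by
    rw [← h1, ← mul_assoc, inv_mul_cancel₀ hek.ne', one_mul]
  rw [h3]
  field_simp

lemma semi_good {φ : Measure ℝ} (h : ShSemi φ) : Good φ := by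
  obtain ⟨c, K, p, l, m, hK, hp, hl, hm, hmp, hform⟩ := h
  set a : ℝ := -1 / l with ha
  have ha0 : 0 < a := by
    rw [ha]; exact div_pos_of_neg_of_neg (by norm_num) hl
  have hl' : l ≠ 0 := hl.ne
  have hla : l * a = -1 := by rw [ha]; field_simp
  have key : ∀ f : ℝ[X], ∫ y in Ioi (0:ℝ), y ^ p * Real.exp (-y) * f.eval (a * y + c)
      = (a ^ p * Real.exp (l * c) * a)⁻¹ * ∫ x in Ioi c, (x - c) ^ p * Real.exp (l * x) * f.eval x := by
    intro f
    have h1 := cov (fun x => (Ioi c).indicator (fun x => (x - c) ^ p * Real.exp (l * x)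
      * f.eval x) x) (a := a) c
    rw [integral_indicator measurableSet_Ioi, abs_of_pos (by positivity)] at h1
    have hap : 0 < a ^ p := Real.rpow_pos_of_pos ha0 _
    have h2 : ∫ y, (Ioi c).indicator (fun x => (x - c) ^ p * Real.exp (l * x)
      * f.eval x) (a * y + c) = a ^ p * Real.exp (l * c) *
        ∫ y in Ioi (0:ℝ), y ^ p * Real.exp (-y) * f.eval (a * y + c) := by
      rw [← integral_indicator measurableSet_Ioi, ← integral_const_mul]
      refine integral_congr_ae (Eventually.of_forall fun y => ?_)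
      change (Ioi c).indicator (fun x => (x - c) ^ p * Real.exp (l * x) * f.eval x) (a * y + c)
        = a ^ p * Real.exp (l * c) * (Ioi (0:ℝ)).indicator
          (fun y => y ^ p * Real.exp (-y) * f.eval (a * y + c)) y
      by_cases hy : 0 < y
      · have h3 : c < a * y + c := by have := mul_pos ha0 hy; linarith
        rw [indicator_of_mem (show a * y + c ∈ Ioi c from h3),
          indicator_of_mem (show y ∈ Ioi (0:ℝ) from hy)]
        have e1 : a * y + c - c = a * y := by ring
        have e2 : l * (a * y + c) = l * c + -y := by linear_combination y * hla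
        rw [e1, Real.mul_rpow ha0.le hy.le, e2, Real.exp_add]
        ring
      · have h3 : ¬ (c < a * y + c) := by
          have := mul_nonpos_of_nonneg_of_nonpos ha0.le (not_lt.mp hy); linarith
        rw [indicator_of_notMem (show a * y + c ∉ Ioi c from h3),
          indicator_of_notMem (show y ∉ Ioi (0:ℝ) from hy), mul_zero]
    rw [h2] at h1
    have hel := Real.exp_pos (l * c)
    have h3 : ∫ y in Ioi (0:ℝ), y ^ p * Real.exp (-y) * f.eval (a * y + c)
        = (a ^ p * Real.exp (l * c))⁻¹ * (a⁻¹ * ∫ x in Ioi c, (x - c) ^ p * Real.exp (l * x)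
          * f.eval x) := by
      rw [← h1, ← mul_assoc, inv_mul_cancel₀ (by positivity), one_mul]
    rw [h3, mul_inv (a ^ p * Real.exp (l * c)) a, mul_assoc]
  have hap : 0 < a ^ p := Real.rpow_pos_of_pos ha0 _
  by_cases hm0 : m = 0
  · refine ⟨_, Or.inr (Or.inl ⟨p, hp, rfl⟩), a, c, (K * (a ^ p * Real.exp (l * c) * a))⁻¹, ha0.ne',
      by positivity, fun f => ?_⟩
    rw [wd_ind measurableSet_Ioi (D := fun y => y ^ p * Real.exp (-y))
      (fun x hx => by have : (0:ℝ) < x := hx; positivity) (by fun_prop), hform f, hm0, zero_mul,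
      zero_add, key f]
    field_simp
  · have hp0 := hmp hm0
    have hmpos : 0 < m := lt_of_le_of_ne hm (Ne.symm hm0)
    subst hp0
    set κ : ℝ := (K * (Real.exp (l * c) * a))⁻¹ with hκ
    have hκ0 : 0 < κ := by positivity
    refine ⟨_, Or.inr (Or.inr (Or.inr (Or.inr (Or.inl ⟨(m * κ)⁻¹, by positivity, rfl⟩)))), a, c, κ,
      ha0.ne', hκ0.ne', fun f => ?_⟩
    have hg : Measurable (fun x => f.eval (a * x + c)) :=
      (f.continuous.comp (by fun_prop : Continuous fun x : ℝ => a * x + c)).measurable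
    have hint : IntegrableOn (fun y => Real.exp (-y) * f.eval (a * y + c)) (Ioi (0:ℝ)) := by
      obtain ⟨C, hC⟩ := poly_le_exp (f.comp (C a * X + C c)) (δ := 1 / 2) (by norm_num)
      have h0 : IntegrableOn (fun y : ℝ => Real.exp (-(1 / 2) * y)) (Ioi 0) :=
        exp_neg_integrableOn_Ioi 0 (by norm_num)
      refine (h0.const_mul C).mono' ((by fun_prop : Measurable (fun y : ℝ => Real.exp (-y))).mul
        hg).aestronglyMeasurable ?_
      refine (ae_restrict_iff' measurableSet_Ioi).mpr (Eventually.of_forall fun y hy => ?_)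
      have hy' : (0:ℝ) < y := hy
      have h1 := hC y
      simp only [eval_comp, eval_add, eval_mul, eval_C, eval_X] at h1
      rw [abs_of_pos hy'] at h1
      rw [norm_mul, Real.norm_eq_abs, Real.norm_eq_abs, abs_of_pos (Real.exp_pos _)]
      calc Real.exp (-y) * |f.eval (a * y + c)| ≤ Real.exp (-y) * (C * Real.exp (1 / 2 * y)) := by
            gcongr
        _ = C * (Real.exp (-y) * Real.exp (1 / 2 * y)) := by ring
        _ = _ := by
            rw [← Real.exp_add]; ring_nf
    rw [atom_int (wd_ind_int measurableSet_Ioi (D := fun y => Real.exp (-y))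
      (fun x _ => (Real.exp_pos _).le) (by fun_prop) hint) (by positivity),
      wd_ind measurableSet_Ioi (D := fun y => Real.exp (-y))
      (fun x _ => (Real.exp_pos _).le) (by fun_prop), hform f]
    have h1 := key f
    simp only [Real.rpow_zero, one_mul] at h1 ⊢
    rw [h1, mul_zero, zero_add, one_div, inv_inv, hκ]
    field_simp
    ring

lemma fin_key {c d p q : ℝ} (hcd : c < d) (f : ℝ → ℝ) {a b : ℝ} (ha : a = (d - c) / 2)
    (hb : b = (c + d) / 2) :
    ∫ y in Icc (-1:ℝ) 1, (1 - y) ^ q * (1 + y) ^ p * f (a * y + b)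
      = (a ^ p * a ^ q * a)⁻¹ * ∫ x in Ioo c d, (x - c) ^ p * (d - x) ^ q * f x := by
  have ha0 : 0 < a := by rw [ha]; linarith
  have h1 := cov (fun x => (Ioo c d).indicator (fun x => (x - c) ^ p * (d - x) ^ q * f x) x)
    (a := a) b
  rw [integral_indicator measurableSet_Ioo, abs_of_pos (by positivity)] at h1
  have hap : 0 < a ^ p := Real.rpow_pos_of_pos ha0 _
  have haq : 0 < a ^ q := Real.rpow_pos_of_pos ha0 _
  have e1 : ∀ y : ℝ, a * y + b - c = a * (1 + y) := fun y => by rw [ha, hb]; ring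
  have e2 : ∀ y : ℝ, d - (a * y + b) = a * (1 - y) := fun y => by rw [ha, hb]; ring
  have h2 : ∫ y, (Ioo c d).indicator (fun x => (x - c) ^ p * (d - x) ^ q * f x) (a * y + b)
      = a ^ p * a ^ q * ∫ y in Icc (-1:ℝ) 1, (1 - y) ^ q * (1 + y) ^ p * f (a * y + b) := by
    rw [integral_Icc_eq_integral_Ioc, integral_Ioc_eq_integral_Ioo,
      ← integral_indicator measurableSet_Ioo, ← integral_const_mul]
    refine integral_congr_ae (Eventually.of_forall fun y => ?_)
    change (Ioo c d).indicator (fun x => (x - c) ^ p * (d - x) ^ q * f x) (a * y + b)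
      = a ^ p * a ^ q * (Ioo (-1:ℝ) 1).indicator
        (fun y => (1 - y) ^ q * (1 + y) ^ p * f (a * y + b)) y
    have hiff : a * y + b ∈ Ioo c d ↔ y ∈ Ioo (-1:ℝ) 1 := by
      constructor
      · rintro ⟨h3, h4⟩
        have h5 : 0 < a * (1 + y) := by rw [← e1]; linarith
        have h6 : 0 < a * (1 - y) := by rw [← e2]; linarith
        exact ⟨by have := (mul_pos_iff_of_pos_left ha0).mp h5; linarith,
          by have := (mul_pos_iff_of_pos_left ha0).mp h6; linarith⟩
      · rintro ⟨h3, h4⟩
        have h5 : 0 < a * (1 + y) := mul_pos ha0 (by linarith)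
        have h6 : 0 < a * (1 - y) := mul_pos ha0 (by linarith)
        rw [← e1] at h5; rw [← e2] at h6
        exact ⟨by linarith, by linarith⟩
    by_cases hy : y ∈ Ioo (-1:ℝ) 1
    · rw [indicator_of_mem (hiff.mpr hy), indicator_of_mem hy, e1, e2,
        Real.mul_rpow ha0.le (by linarith [hy.1]), Real.mul_rpow ha0.le (by linarith [hy.2])]
      ring
    · rw [indicator_of_notMem (fun h => hy (hiff.mp h)), indicator_of_notMem hy, mul_zero]
  rw [h2] at h1
  have h3 : ∫ y in Icc (-1:ℝ) 1, (1 - y) ^ q * (1 + y) ^ p * f (a * y + b)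
      = (a ^ p * a ^ q)⁻¹ * (a⁻¹ * ∫ x in Ioo c d, (x - c) ^ p * (d - x) ^ q * f x) := by
    rw [← h1, ← mul_assoc, inv_mul_cancel₀ (by positivity), one_mul]
  rw [h3, mul_inv (a ^ p * a ^ q) a, mul_assoc]

/-- on `[0,1)`, orientation preserving -/
lemma fin_key2 {c d q : ℝ} (hcd : c < d) (f : ℝ → ℝ) :
    ∫ y in Ico (0:ℝ) 1, (1 - y) ^ q * f ((d - c) * y + c)
      = ((d - c) ^ q * (d - c))⁻¹ * ∫ x in Ioo c d, (d - x) ^ q * f x := by
  set a := d - c with ha
  have ha0 : 0 < a := by rw [ha]; linarith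
  have h1 := cov (fun x => (Ioo c d).indicator (fun x => (d - x) ^ q * f x) x)
    (a := a) c
  rw [integral_indicator measurableSet_Ioo, abs_of_pos (by positivity)] at h1
  have haq : 0 < a ^ q := Real.rpow_pos_of_pos ha0 _
  have e2 : ∀ y : ℝ, d - (a * y + c) = a * (1 - y) := fun y => by rw [ha]; ring
  have h2 : ∫ y, (Ioo c d).indicator (fun x => (d - x) ^ q * f x) (a * y + c)
      = a ^ q * ∫ y in Ico (0:ℝ) 1, (1 - y) ^ q * f (a * y + c) := by
    rw [integral_Ico_eq_integral_Ioo,
      ← integral_indicator measurableSet_Ioo, ← integral_const_mul]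
    refine integral_congr_ae (Eventually.of_forall fun y => ?_)
    change (Ioo c d).indicator (fun x => (d - x) ^ q * f x) (a * y + c)
      = a ^ q * (Ioo (0:ℝ) 1).indicator (fun y => (1 - y) ^ q * f (a * y + c)) y
    have hiff : a * y + c ∈ Ioo c d ↔ y ∈ Ioo (0:ℝ) 1 := by
      constructor
      · rintro ⟨h3, h4⟩
        have h5 : 0 < a * y := by linarith
        have h6 : 0 < a * (1 - y) := by rw [← e2]; linarith
        exact ⟨(mul_pos_iff_of_pos_left ha0).mp h5,
          by have := (mul_pos_iff_of_pos_left ha0).mp h6; linarith⟩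
      · rintro ⟨h3, h4⟩
        have h5 : 0 < a * y := mul_pos ha0 h3
        have h6 : 0 < a * (1 - y) := mul_pos ha0 (by linarith)
        rw [← e2] at h6
        exact ⟨by linarith, by linarith⟩
    by_cases hy : y ∈ Ioo (0:ℝ) 1
    · rw [indicator_of_mem (hiff.mpr hy), indicator_of_mem hy, e2,
        Real.mul_rpow ha0.le (by linarith [hy.2])]
      ring
    · rw [indicator_of_notMem (fun h => hy (hiff.mp h)), indicator_of_notMem hy, mul_zero]
  rw [h2] at h1
  have h3 : ∫ y in Ico (0:ℝ) 1, (1 - y) ^ q * f (a * y + c)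
      = (a ^ q)⁻¹ * (a⁻¹ * ∫ x in Ioo c d, (d - x) ^ q * f x) := by
    rw [← h1, ← mul_assoc, inv_mul_cancel₀ (by positivity), one_mul]
  rw [h3, mul_inv (a ^ q) a, mul_assoc]

/-- on `[0,1)`, orientation reversing -/
lemma fin_key3 {c d p : ℝ} (hcd : c < d) (f : ℝ → ℝ) :
    ∫ y in Ico (0:ℝ) 1, (1 - y) ^ p * f ((c - d) * y + d)
      = ((d - c) ^ p * (d - c))⁻¹ * ∫ x in Ioo c d, (x - c) ^ p * f x := by
  set a := d - c with ha
  have ha0 : 0 < a := by rw [ha]; linarith
  have hca : c - d = -a := by rw [ha]; ring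
  rw [hca]
  have h1 := cov (fun x => (Ioo c d).indicator (fun x => (x - c) ^ p * f x) x)
    (a := -a) d
  rw [integral_indicator measurableSet_Ioo, inv_neg, abs_neg, abs_of_pos (by positivity)] at h1
  have haq : 0 < a ^ p := Real.rpow_pos_of_pos ha0 _
  have e2 : ∀ y : ℝ, (-a * y + d) - c = a * (1 - y) := fun y => by rw [ha]; ring
  have h2 : ∫ y, (Ioo c d).indicator (fun x => (x - c) ^ p * f x) (-a * y + d)
      = a ^ p * ∫ y in Ico (0:ℝ) 1, (1 - y) ^ p * f (-a * y + d) := by
    rw [integral_Ico_eq_integral_Ioo,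
      ← integral_indicator measurableSet_Ioo, ← integral_const_mul]
    refine integral_congr_ae (Eventually.of_forall fun y => ?_)
    change (Ioo c d).indicator (fun x => (x - c) ^ p * f x) (-a * y + d)
      = a ^ p * (Ioo (0:ℝ) 1).indicator (fun y => (1 - y) ^ p * f (-a * y + d)) y
    have hiff : -a * y + d ∈ Ioo c d ↔ y ∈ Ioo (0:ℝ) 1 := by
      constructor
      · rintro ⟨h3, h4⟩
        have h5 : 0 < a * y := by linarith
        have h6 : 0 < a * (1 - y) := by rw [← e2]; linarith
        exact ⟨(mul_pos_iff_of_pos_left ha0).mp h5,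
          by have := (mul_pos_iff_of_pos_left ha0).mp h6; linarith⟩
      · rintro ⟨h3, h4⟩
        have h5 : 0 < a * y := mul_pos ha0 h3
        have h6 : 0 < a * (1 - y) := mul_pos ha0 (by linarith)
        rw [← e2] at h6
        exact ⟨by linarith, by linarith⟩
    by_cases hy : y ∈ Ioo (0:ℝ) 1
    · rw [indicator_of_mem (hiff.mpr hy), indicator_of_mem hy, e2,
        Real.mul_rpow ha0.le (by linarith [hy.2])]
      ring
    · rw [indicator_of_notMem (fun h => hy (hiff.mp h)), indicator_of_notMem hy, mul_zero]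
  rw [h2] at h1
  have h3 : ∫ y in Ico (0:ℝ) 1, (1 - y) ^ p * f (-a * y + d)
      = (a ^ p)⁻¹ * (a⁻¹ * ∫ x in Ioo c d, (x - c) ^ p * f x) := by
    rw [← h1, ← mul_assoc, inv_mul_cancel₀ (by positivity), one_mul]
  rw [h3, mul_inv (a ^ p) a, mul_assoc]

lemma ico_int {q : ℝ} (hq : -1 < q) {g : ℝ → ℝ} (hg : Continuous g) :
    IntegrableOn (fun y => (1 - y) ^ q * g y) (Ico (0:ℝ) 1) := by
  have h1 : IntervalIntegrable (fun x : ℝ => x ^ q) volume 1 0 :=
    intervalIntegral.intervalIntegrable_rpow' hq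
  have h2 := h1.comp_sub_left 1
  simp only [sub_self, sub_zero] at h2
  have h3 := h2.mul_continuousOn hg.continuousOn
  rw [intervalIntegrable_iff_integrableOn_Ico_of_le zero_le_one] at h3
  exact h3

lemma fin_good {φ : Measure ℝ} (h : ShFin φ) : Good φ := by
  obtain ⟨c, d, K, p, q, m, m', hcd, hK, hp, hq, hm, hm', hmp, hmq, hmm, hform⟩ := h
  have hdc : 0 < d - c := by linarith
  by_cases hm0 : m = 0
  · by_cases hm0' : m' = 0
    · -- Jacobi
      set a : ℝ := (d - c) / 2 with ha
      set b : ℝ := (c + d) / 2 with hb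
      have ha0 : 0 < a := by rw [ha]; linarith
      have hap : 0 < a ^ p := Real.rpow_pos_of_pos ha0 _
      have haq : 0 < a ^ q := Real.rpow_pos_of_pos ha0 _
      refine ⟨_, Or.inl ⟨q, p, hq, hp, rfl⟩, a, b, (K * (a ^ p * a ^ q * a))⁻¹, ha0.ne',
        by positivity, fun f => ?_⟩
      rw [wd_ind measurableSet_Icc (D := fun y => (1 - y) ^ q * (1 + y) ^ p)
        (fun x hx => mul_nonneg (Real.rpow_nonneg (by linarith [hx.2]) _)
          (Real.rpow_nonneg (by linarith [hx.1]) _)) (by fun_prop), hform f, hm0, hm0',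
        fin_key hcd (fun x => f.eval x) ha hb]
      simp only [zero_mul, zero_add]
      field_simp
    · -- Jacobi type, atom at `d`
      have hp0 := hmq hm0'
      have hmpos : 0 < m' := lt_of_le_of_ne hm' (Ne.symm hm0')
      subst hp0
      have hap : 0 < (d - c) ^ p := Real.rpow_pos_of_pos hdc _
      set κ : ℝ := (K * ((d - c) ^ p * (d - c)))⁻¹ with hκ
      have hκ0 : 0 < κ := by positivity
      refine ⟨_, Or.inr (Or.inr (Or.inr (Or.inr (Or.inr ⟨p, (m' * κ)⁻¹, hp, by positivity,
        rfl⟩)))), c - d, d, κ, by linarith |> fun (h : c - d < 0) => h.ne, hκ0.ne', fun f => ?_⟩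
      have hc : Continuous (fun x => f.eval ((c - d) * x + d)) :=
        f.continuous.comp (by fun_prop : Continuous fun x : ℝ => (c - d) * x + d)
      rw [atom_int (wd_ind_int measurableSet_Ico (D := fun y => (1 - y) ^ p)
        (fun x hx => Real.rpow_nonneg (by linarith [hx.2]) _) (by fun_prop) (ico_int hp hc))
          (by positivity),
        wd_ind measurableSet_Ico (D := fun y => (1 - y) ^ p)
        (fun x hx => Real.rpow_nonneg (by linarith [hx.2]) _) (by fun_prop), hform f, hm0,
        fin_key3 hcd (fun x => f.eval x)]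
      simp only [Real.rpow_zero, mul_one, zero_mul, zero_add, mul_zero, one_div, inv_inv]
      rw [hκ]
      field_simp
      ring
  · have hq0 := hmp hm0
    have hmpos : 0 < m := lt_of_le_of_ne hm (Ne.symm hm0)
    subst hq0
    by_cases hm0' : m' = 0
    · -- Jacobi type, atom at `c`
      have hap : 0 < (d - c) ^ q := Real.rpow_pos_of_pos hdc _
      set κ : ℝ := (K * ((d - c) ^ q * (d - c)))⁻¹ with hκ
      have hκ0 : 0 < κ := by positivity
      refine ⟨_, Or.inr (Or.inr (Or.inr (Or.inr (Or.inr ⟨q, (m * κ)⁻¹, hq, by positivity,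
        rfl⟩)))), d - c, c, κ, hdc.ne', hκ0.ne', fun f => ?_⟩
      have hc : Continuous (fun x => f.eval ((d - c) * x + c)) :=
        f.continuous.comp (by fun_prop : Continuous fun x : ℝ => (d - c) * x + c)
      rw [atom_int (wd_ind_int measurableSet_Ico (D := fun y => (1 - y) ^ q)
        (fun x hx => Real.rpow_nonneg (by linarith [hx.2]) _) (by fun_prop) (ico_int hq hc))
          (by positivity),
        wd_ind measurableSet_Ico (D := fun y => (1 - y) ^ q)
        (fun x hx => Real.rpow_nonneg (by linarith [hx.2]) _) (by fun_prop), hform f, hm0',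
        fin_key2 hcd (fun x => f.eval x)]
      simp only [Real.rpow_zero, one_mul, zero_mul, zero_add, add_zero, mul_zero, one_div, inv_inv]
      rw [hκ]
      field_simp
      ring
    · -- Legendre type
      have hp0 := hmq hm0'
      subst hp0
      have hmm' := hmm hm0 hm0'
      subst hmm'
      set a : ℝ := (d - c) / 2 with ha
      set b : ℝ := (c + d) / 2 with hb
      have ha0 : 0 < a := by rw [ha]; linarith
      set κ : ℝ := (K * a)⁻¹ with hκ
      have hκ0 : 0 < κ := by positivity
      refine ⟨_, Or.inr (Or.inr (Or.inr (Or.inl ⟨(m * κ)⁻¹, by positivity,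
        rfl⟩))), a, b, κ, ha0.ne', hκ0.ne', fun f => ?_⟩
      have hc : Continuous (fun x => f.eval (a * x + b)) :=
        f.continuous.comp (by fun_prop : Continuous fun x : ℝ => a * x + b)
      have hk := fin_key (p := 0) (q := 0) hcd (fun x => f.eval x) ha hb
      simp only [Real.rpow_zero, one_mul] at hk
      have hi1 : Integrable (fun x => f.eval (a * x + b)) (volume.restrict (Icc (-1:ℝ) 1)) :=
        hc.continuousOn.integrableOn_compact isCompact_Icc
      have hd1 : Integrable (fun x => f.eval (a * x + b)) (Measure.dirac (-1:ℝ)) :=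
        integrable_dirac (by simp)
      have hd2 : Integrable (fun x => f.eval (a * x + b)) (Measure.dirac (1:ℝ)) :=
        integrable_dirac (by simp)
      rw [integral_add_measure hi1 ((hd1.add_measure hd2).smul_measure ENNReal.ofReal_ne_top),
        integral_smul_measure, integral_add_measure hd1 hd2, integral_dirac, integral_dirac,
        smul_eq_mul, ENNReal.toReal_ofReal (by positivity), hk, hform f]
      simp only [Real.rpow_zero, one_mul, one_div, inv_inv]
      have e1 : a * -1 + b = c := by rw [ha, hb]; ring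
      have e2 : a * 1 + b = d := by rw [ha, hb]; ring
      rw [e1, e2, hκ]
      field_simp
      ring

theorem Sys.good {φ : Measure ℝ} {A B a₂ a₁ : ℝ[X]} (S : Sys φ A B a₂ a₁) : Good φ := by
  rcases S.classify with h | h | h | h
  · exact fin_good h
  · exact semi_good h
  · exact good_refl (semi_good h)
  · exact inf_good h

end Pool.Agent.X116.Kl
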