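import Pool.Agent.X116.KrC
import Pool.Agent.X116.KlM

/-!
# Polynomials orthogonal for an `L_2` and a second-order Sobolev product
solve a fourth order differential equation of Krall's type
-/

open Polynomial MeasureTheory Finset

namespace Pool.Agent.X116.Kl

theorem fourth (φ ψ η : Measure ℝ) (p : ℕ → ℝ[X])
    (hφ : ∀ k : ℕ, Integrable (fun x : ℝ => x ^ k) φ)
    (hψ : ∀ k : ℕ, Integrable (fun x : ℝ => x ^ k) ψ)
    (hη : ∀ k : ℕ, Integrable (fun x : ℝ => x ^ k) η)
    (hinf : ∀ s : Finset ℝ, φ ((↑s : Set ℝ)ᶜ) ≠ 0)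
    (hη0 : η ≠ 0)
    (hdeg : ∀ n : ℕ, (p n).degree = ((n : ℕ) : WithBot ℕ))
    (horth : ∀ n m : ℕ, n ≠ m → ∫ x, (p n).eval x * (p m).eval x ∂φ = 0)
    (hsob : ∀ n m : ℕ, n ≠ m →
      (∫ x, (p n).eval x * (p m).eval x ∂φ)
        + (∫ x, (derivative (p n)).eval x * (derivative (p m)).eval x ∂ψ)
        + (∫ x, (derivative (derivative (p n))).eval x
            * (derivative (derivative (p m))).eval x ∂η) = 0) :
    ∃ (a₁ a₂ a₃ a₄ : ℝ[X]) (lam : ℕ → ℝ),
      a₁.natDegree ≤ 1 ∧ a₂.natDegree ≤ 2 ∧ a₃.natDegree ≤ 3 ∧ a₄.natDegree ≤ 4 ∧ a₄ ≠ 0 ∧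
      (∀ n, a₄ * derivative^[4] (p n) + a₃ * derivative^[3] (p n) + a₂ * derivative^[2] (p n)
        + a₁ * derivative (p n) = C (lam n) * p n) ∧
      (∀ f : ℝ[X], ∫ x, f.eval x ∂η = ∫ x, a₄.eval x * f.eval x ∂φ) ∧
      (∀ f : ℝ[X], ∫ x, (2 * a₄.eval x * (derivative f).eval x + a₃.eval x * f.eval x) ∂φ = 0) ∧
      (∀ f : ℝ[X], ∫ x, (derivative f).eval x ∂ψ = ∫ x, a₁.eval x * f.eval x ∂φ) ∧
      (∀ f g : ℝ[X],
        ∫ x, (a₄ * derivative^[4] f + a₃ * derivative^[3] f + a₂ * derivative^[2] f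
          + a₁ * derivative f).eval x * g.eval x ∂φ
        = (∫ x, (derivative f).eval x * (derivative g).eval x ∂ψ)
          + ∫ x, (derivative (derivative f)).eval x * (derivative (derivative g)).eval x ∂η) := by
  have hsq : ∀ n, X116.Kr.Fn φ hφ (p n * p n) ≠ 0 := by
    intro n h
    have h1 := X116.Kr.Fn_nd φ hφ hinf (p n) h
    have h2 := hdeg n
    rw [h1, degree_zero] at h2
    exact absurd h2.symm (WithBot.natCast_ne_bot n)
  obtain ⟨L, lam, hLp, hLdeg, hLB⟩ := X116.Kr.exists_op (X116.Kr.Fn φ hφ) (X116.Kr.Fn ψ hψ)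
    (X116.Kr.Fn η hη) p hdeg hsq
    (fun n m h => by
      rw [X116.Kr.Fn_apply]
      simp only [eval_mul]
      exact horth n m h)
    (fun n m h => by
      rw [X116.Kr.Fn_apply, X116.Kr.Fn_apply]
      simp only [eval_mul]
      have h1 := hsob n m h
      rw [horth n m h, zero_add] at h1
      exact h1)
  obtain ⟨a₁, a₂, a₃, a₄, hop, hH, hP, hPsi⟩ := X116.Kr.chain (X116.Kr.Fn φ hφ) (X116.Kr.Fn ψ hψ)
    (X116.Kr.Fn η hη) (X116.Kr.Fn_nd φ hφ hinf) L hLB
  have c2 : (C (2 : ℝ) : ℝ[X]) = 2 := map_ofNat C 2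
  have c3 : (C (3 : ℝ) : ℝ[X]) = 3 := map_ofNat C 3
  have c4 : (C (4 : ℝ) : ℝ[X]) = 4 := map_ofNat C 4
  have c6 : (C (6 : ℝ) : ℝ[X]) = 6 := map_ofNat C 6
  have c12 : (C (12 : ℝ) : ℝ[X]) = 12 := map_ofNat C 12
  have c24 : (C (24 : ℝ) : ℝ[X]) = 24 := map_ofNat C 24
  have d1 : a₁.natDegree ≤ 1 := by
    have h := hLdeg 1 X natDegree_X_le
    rw [hop] at h
    simpa [Function.iterate_succ_apply] using h
  have d2 : a₂.natDegree ≤ 2 := by
    have h := hLdeg 2 (X ^ 2) (natDegree_X_pow_le 2)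
    rw [hop] at h
    have e : a₄ * derivative^[4] (X ^ 2) + a₃ * derivative^[3] (X ^ 2)
        + a₂ * derivative^[2] (X ^ 2) + a₁ * derivative (X ^ 2 : ℝ[X])
        = C 2 * a₂ + a₁ * (C 2 * X) := by
      simp [Function.iterate_succ_apply, derivative_mul]
      simp only [c2]
      ring
    rw [e] at h
    have h2 : (a₁ * (C 2 * X)).natDegree ≤ 2 :=
      natDegree_mul_le.trans (add_le_add d1 ((natDegree_C_mul_le _ _).trans natDegree_X_le))
    have h3 : C 2 * a₂ = (C 2 * a₂ + a₁ * (C 2 * X)) - a₁ * (C 2 * X) := by ring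
    have h4 : (C 2 * a₂).natDegree ≤ 2 := by
      rw [h3]
      exact (natDegree_sub_le _ _).trans (max_le h h2)
    rwa [natDegree_C_mul (by norm_num : (2 : ℝ) ≠ 0)] at h4
  have d3 : a₃.natDegree ≤ 3 := by
    have h := hLdeg 3 (X ^ 3) (natDegree_X_pow_le 3)
    rw [hop] at h
    have e : a₄ * derivative^[4] (X ^ 3) + a₃ * derivative^[3] (X ^ 3)
        + a₂ * derivative^[2] (X ^ 3) + a₁ * derivative (X ^ 3 : ℝ[X])
        = C 6 * a₃ + (a₂ * (C 6 * X) + a₁ * (C 3 * X ^ 2)) := by
      simp [Function.iterate_succ_apply, derivative_mul]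
      norm_num
      simp only [c2, c3, c4, c6, c12, c24]
      ring
    rw [e] at h
    have h2 : (a₂ * (C 6 * X) + a₁ * (C 3 * X ^ 2)).natDegree ≤ 3 := by
      refine natDegree_add_le_of_degree_le ?_ ?_
      · exact natDegree_mul_le.trans (add_le_add d2 ((natDegree_C_mul_le _ _).trans natDegree_X_le))
      · exact natDegree_mul_le.trans
          (add_le_add d1 ((natDegree_C_mul_le _ _).trans (natDegree_X_pow_le 2)))
    have h3 : C 6 * a₃ = (C 6 * a₃ + (a₂ * (C 6 * X) + a₁ * (C 3 * X ^ 2)))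
        - (a₂ * (C 6 * X) + a₁ * (C 3 * X ^ 2)) := by ring
    have h4 : (C 6 * a₃).natDegree ≤ 3 := by
      rw [h3]
      exact (natDegree_sub_le _ _).trans (max_le h h2)
    rwa [natDegree_C_mul (by norm_num : (6 : ℝ) ≠ 0)] at h4
  have d4 : a₄.natDegree ≤ 4 := by
    have h := hLdeg 4 (X ^ 4) (natDegree_X_pow_le 4)
    rw [hop] at h
    have e : a₄ * derivative^[4] (X ^ 4) + a₃ * derivative^[3] (X ^ 4)
        + a₂ * derivative^[2] (X ^ 4) + a₁ * derivative (X ^ 4 : ℝ[X])
        = C 24 * a₄ + (a₃ * (C 24 * X) + a₂ * (C 12 * X ^ 2) + a₁ * (C 4 * X ^ 3)) := by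
      simp [Function.iterate_succ_apply, derivative_mul]
      norm_num
      simp only [c2, c3, c4, c6, c12, c24]
      ring
    rw [e] at h
    have h2 : (a₃ * (C 24 * X) + a₂ * (C 12 * X ^ 2) + a₁ * (C 4 * X ^ 3)).natDegree ≤ 4 := by
      refine natDegree_add_le_of_degree_le (natDegree_add_le_of_degree_le ?_ ?_) ?_
      · exact natDegree_mul_le.trans (add_le_add d3 ((natDegree_C_mul_le _ _).trans natDegree_X_le))
      · exact natDegree_mul_le.trans
          (add_le_add d2 ((natDegree_C_mul_le _ _).trans (natDegree_X_pow_le 2)))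
      · exact natDegree_mul_le.trans
          (add_le_add d1 ((natDegree_C_mul_le _ _).trans (natDegree_X_pow_le 3)))
    have h3 : C 24 * a₄ = (C 24 * a₄ + (a₃ * (C 24 * X) + a₂ * (C 12 * X ^ 2) + a₁ * (C 4 * X ^ 3)))
        - (a₃ * (C 24 * X) + a₂ * (C 12 * X ^ 2) + a₁ * (C 4 * X ^ 3)) := by ring
    have h4 : (C 24 * a₄).natDegree ≤ 4 := by
      rw [h3]
      exact (natDegree_sub_le _ _).trans (max_le h h2)
    rwa [natDegree_C_mul (by norm_num : (24 : ℝ) ≠ 0)] at h4
  refine ⟨a₁, a₂, a₃, a₄, lam, d1, d2, d3, d4, ?_, fun n => ?_, fun f => ?_, fun f => ?_, fun f => ?_,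
    fun f g => ?_⟩
  · rintro rfl
    apply hη0
    have h1 := hH 1
    rw [zero_mul, map_zero, X116.Kr.Fn_apply] at h1
    simp only [eval_one, integral_const, smul_eq_mul, mul_one] at h1
    have hfin : IsFiniteMeasure η := by
      have := hη 0
      simp only [pow_zero] at this
      rwa [integrable_const_iff_isFiniteMeasure one_ne_zero] at this
    rw [← Measure.measure_univ_eq_zero]
    exact (measureReal_eq_zero_iff (measure_ne_top η _)).mp h1
  · rw [← hop, hLp]
  · have h1 := hH f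
    rw [X116.Kr.Fn_apply, X116.Kr.Fn_apply] at h1
    simpa only [eval_mul] using h1
  · have h1 := hP f
    rw [X116.Kr.Fn_apply] at h1
    simpa only [eval_mul, eval_add, eval_ofNat] using h1
  · have h1 := hPsi f
    rw [X116.Kr.Fn_apply, X116.Kr.Fn_apply] at h1
    simpa only [eval_mul] using h1
  · have h1 := hLB f g
    rw [hop, X116.Kr.Fn_apply, X116.Kr.Fn_apply, X116.Kr.Fn_apply] at h1
    simpa only [eval_mul] using h1



theorem good_of (φ ψ η : Measure ℝ) (p : ℕ → ℝ[X])
    (hφ : ∀ k : ℕ, Integrable (fun x : ℝ => x ^ k) φ)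
    (hψ : ∀ k : ℕ, Integrable (fun x : ℝ => x ^ k) ψ)
    (hη : ∀ k : ℕ, Integrable (fun x : ℝ => x ^ k) η)
    (hinf : ∀ s : Finset ℝ, φ ((↑s : Set ℝ)ᶜ) ≠ 0)
    (hη0 : η ≠ 0)
    (hdeg : ∀ n : ℕ, (p n).degree = ((n : ℕ) : WithBot ℕ))
    (horth : ∀ n m : ℕ, n ≠ m → ∫ x, (p n).eval x * (p m).eval x ∂φ = 0)
    (hsob : ∀ n m : ℕ, n ≠ m →
      (∫ x, (p n).eval x * (p m).eval x ∂φ)
        + (∫ x, (derivative (p n)).eval x * (derivative (p m)).eval x ∂ψ)
        + (∫ x, (derivative (derivative (p n))).eval x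
            * (derivative (derivative (p m))).eval x ∂η) = 0) : Good φ := by
  obtain ⟨a₁, a₂, a₃, a₄, lam, d1, d2, d3, d4, h4, -, -, hE1, -, hsym⟩ :=
    fourth φ ψ η p hφ hψ hη hinf hη0 hdeg horth hsob
  have pi : ∀ f : ℝ[X], Integrable (fun x => f.eval x) φ := fun f => Kr.poly_int hφ f
  have S : Sys φ a₄ (C (1 / 2) * a₃) a₂ a₁ :=
    { hm := hφ
      hinf := hinf
      A_ne := h4
      dA := d4
      dB := (natDegree_C_mul_le _ _).trans d3
      d2 := d2
      d1 := d1
      P1 := fun f => by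
        have h1 := hE1 f
        have e : ∀ x, (a₄ * derivative f + C (1 / 2) * a₃ * f).eval x
            = 1 / 2 * (2 * a₄.eval x * (derivative f).eval x + a₃.eval x * f.eval x) := by
          intro x; simp only [eval_add, eval_mul, eval_C]; ring
        simp_rw [e]
        rw [integral_const_mul, h1, mul_zero]
      P2 := fun f => by
        obtain ⟨h, hh⟩ := exists_prim f
        have h1 := hsym h 1
        simp only [eval_one, mul_one, derivative_one, eval_zero, mul_zero, derivative_zero,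
          integral_zero, add_zero] at h1
        have h2 := hE1 (derivative (derivative f))
        have e : ∀ x, (C (1 / 2) * a₃ * derivative (derivative f) + a₂ * derivative f
              + a₁ * f).eval x
            = (a₄ * derivative^[4] h + a₃ * derivative^[3] h + a₂ * derivative^[2] h
              + a₁ * derivative h).eval x
              - 1 / 2 * (2 * a₄ * derivative (derivative (derivative f))
                + a₃ * derivative (derivative f)).eval x := by
          intro x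
          simp only [Function.iterate_succ_apply, Function.iterate_zero_apply, hh, eval_add,
            eval_mul, eval_C, eval_ofNat]
          ring
        simp_rw [e]
        rw [integral_sub (pi _) ((pi _).const_mul _), h1, integral_const_mul]
        have e2 : ∀ x, (2 * a₄ * derivative (derivative (derivative f))
                + a₃ * derivative (derivative f)).eval x
            = 2 * a₄.eval x * (derivative (derivative (derivative f))).eval x
              + a₃.eval x * (derivative (derivative f)).eval x := by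
          intro x; simp only [eval_add, eval_mul, eval_ofNat]
        simp_rw [e2]
        rw [h2]; simp }
  exact S.good

end Pool.Agent.X116.Kl
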