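import Mathlib

open MeasureTheory ProbabilityTheory Filter Topology Set
open scoped ENNReal NNReal

namespace Pool.Agent.X116.Bc

/-- The fair coin on `Bool`. -/
noncomputable def coin : Measure Bool :=
  (2 : ℝ≥0∞)⁻¹ • (Measure.dirac false + Measure.dirac true)

instance : IsProbabilityMeasure coin := by
  constructor
  simp only [coin, Measure.smul_apply, Measure.add_apply, measure_univ, smul_eq_mul]
  rw [one_add_one_eq_two]
  exact ENNReal.inv_mul_cancel (by norm_num) (by norm_num)

/-- `∑ a_k β^{-(k+1)}`. -/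
noncomputable def val (β : ℝ) (a : ℕ → Bool) : ℝ :=
  ∑' k, (if a k then (1 : ℝ) else 0) * (β⁻¹) ^ (k + 1)

/-- The Bernoulli convolution. -/
noncomputable def nu (β : ℝ) : Measure ℝ :=
  (Measure.infinitePi (fun _ : ℕ => coin)).map (val β)

def cons (p : Bool × (ℕ → Bool)) : ℕ → Bool := fun k => Nat.casesOn k p.1 p.2

@[simp] lemma cons_zero (p : Bool × (ℕ → Bool)) : cons p 0 = p.1 := rfl
@[simp] lemma cons_succ (p : Bool × (ℕ → Bool)) (k : ℕ) : cons p (k + 1) = p.2 k := rfl

lemma measurable_cons : Measurable cons := by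
  refine measurable_pi_iff.2 fun k => ?_
  cases k with
  | zero => simpa using measurable_fst
  | succ k => exact (measurable_pi_apply k).comp measurable_snd

lemma cons_map :
    (coin.prod (Measure.infinitePi (fun _ : ℕ => coin))).map cons
      = Measure.infinitePi (fun _ : ℕ => coin) := by
  refine Measure.eq_infinitePi _ fun s t ht => ?_
  classical
  have hms : MeasurableSet (Set.pi (s : Set ℕ) t) := MeasurableSet.pi s.countable_toSet
    (fun i _ => ht i)
  rw [Measure.map_apply measurable_cons hms]
  set s' : Finset ℕ := s.preimage Nat.succ (Nat.succ_injective.injOn) with hs'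
  have hpre : cons ⁻¹' (Set.pi (s : Set ℕ) t)
      = (if 0 ∈ s then t 0 else univ) ×ˢ (Set.pi (s' : Set ℕ) (fun i => t (i + 1))) := by
    ext p
    simp only [Set.mem_preimage, Set.mem_pi, Finset.mem_coe, Set.mem_prod]
    constructor
    · intro h
      refine ⟨?_, fun i hi => ?_⟩
      · split_ifs with h0
        · exact h 0 h0
        · trivial
      · have : i + 1 ∈ s := by simpa [hs'] using hi
        exact h (i + 1) this
    · rintro ⟨h0, h1⟩ i hi
      cases i with
      | zero =>
        rw [if_pos hi] at h0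
        exact h0
      | succ i =>
        exact h1 i (by simpa [hs'] using hi)
  rw [hpre, Measure.prod_prod, Measure.infinitePi_pi _ (fun i _ => ht (i + 1))]
  have hs : s = (if 0 ∈ s then {0} else ∅) ∪ s'.map ⟨Nat.succ, Nat.succ_injective⟩ := by
    ext i
    cases i with
    | zero =>
      by_cases h0 : 0 ∈ s <;> simp [h0]
    | succ i =>
      by_cases h0 : 0 ∈ s <;> simp [h0, hs']
  have hd : Disjoint (if 0 ∈ s then ({0} : Finset ℕ) else ∅)
      (s'.map ⟨Nat.succ, Nat.succ_injective⟩) := by
    rw [Finset.disjoint_left]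
    intro i hi h2
    split_ifs at hi with h0
    · simp only [Finset.mem_singleton] at hi
      subst hi
      simp at h2
    · simp at hi
  conv_rhs => rw [hs, Finset.prod_union hd, Finset.prod_map]
  congr 1
  by_cases h0 : 0 ∈ s
  · simp [h0]
  · rw [if_neg h0, if_neg h0, measure_univ, Finset.prod_empty]

lemma summable_val {β : ℝ} (hβ : 1 < β) (a : ℕ → Bool) :
    Summable (fun k => (if a k then (1 : ℝ) else 0) * (β⁻¹) ^ (k + 1)) := by
  have hb0 : 0 ≤ β⁻¹ := by positivity
  have hb1 : β⁻¹ < 1 := inv_lt_one_of_one_lt₀ hβ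
  have hg : Summable (fun k : ℕ => (β⁻¹) ^ (k + 1)) :=
    (summable_nat_add_iff 1).2 (summable_geometric_of_lt_one hb0 hb1)
  refine Summable.of_nonneg_of_le (fun k => ?_) (fun k => ?_) hg
  · split_ifs <;> positivity
  · split_ifs
    · simp
    · simpa using pow_nonneg hb0 (k + 1)

lemma measurable_val {β : ℝ} (hβ : 1 < β) : Measurable (val β) := by
  have hm : ∀ n : ℕ, Measurable (fun a : ℕ → Bool =>
      ∑ k ∈ Finset.range n, (if a k then (1 : ℝ) else 0) * (β⁻¹) ^ (k + 1)) := by
    intro n
    refine Finset.measurable_sum _ fun k _ => ?_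
    refine Measurable.mul_const ?_ _
    exact (measurable_of_countable (fun b : Bool => if b then (1 : ℝ) else 0)).comp
      (measurable_pi_apply k)
  refine measurable_of_tendsto_metrizable hm ?_
  rw [tendsto_pi_nhds]
  intro a
  exact (summable_val hβ a).hasSum.tendsto_sum_nat

lemma val_cons {β : ℝ} (hβ : 1 < β) (p : Bool × (ℕ → Bool)) :
    val β (cons p) = ((if p.1 then (1 : ℝ) else 0) + val β p.2) / β := by
  have h := (summable_val hβ (cons p)).tsum_eq_zero_add
  unfold val
  rw [h]
  simp only [cons_zero, cons_succ, zero_add, pow_one]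
  rw [add_div, div_eq_mul_inv, div_eq_mul_inv, ← tsum_mul_right]
  congr 1
  refine tsum_congr fun k => ?_
  rw [pow_succ (β⁻¹) (k + 1), mul_assoc]
  congr

lemma val_nonneg {β : ℝ} (hβ : 1 < β) (a : ℕ → Bool) : 0 ≤ val β a := by
  refine tsum_nonneg fun k => ?_
  have hb0 : 0 ≤ β⁻¹ := by positivity
  split_ifs <;> positivity

lemma val_le {β : ℝ} (hβ : 1 < β) (a : ℕ → Bool) : val β a ≤ 1 / (β - 1) := by
  have hb0 : 0 ≤ β⁻¹ := by positivity
  have hb1 : β⁻¹ < 1 := inv_lt_one_of_one_lt₀ hβ
  have hg : Summable (fun k : ℕ => (β⁻¹) ^ (k + 1)) :=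
    (summable_nat_add_iff 1).2 (summable_geometric_of_lt_one hb0 hb1)
  have h1 : val β a ≤ ∑' k : ℕ, (β⁻¹) ^ (k + 1) := by
    refine (summable_val hβ a).tsum_le_tsum (fun k => ?_) hg
    split_ifs
    · simp
    · simpa using pow_nonneg hb0 (k + 1)
  refine h1.trans (le_of_eq ?_)
  have h2 : ∑' k : ℕ, (β⁻¹) ^ (k + 1) = β⁻¹ * ∑' k : ℕ, (β⁻¹) ^ k := by
    rw [← tsum_mul_left]
    exact tsum_congr fun k => by ring
  rw [h2, tsum_geometric_of_lt_one hb0 hb1]
  have : β - 1 ≠ 0 := by linarith
  have h3 : β ≠ 0 := by linarith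
  have h4 : 1 - β⁻¹ ≠ 0 := by linarith
  field_simp

instance nu_prob (β : ℝ) [h : Fact (1 < β)] : IsProbabilityMeasure (nu β) :=
  Measure.isProbabilityMeasure_map (measurable_val h.out).aemeasurable

lemma nu_isProb {β : ℝ} (hβ : 1 < β) : IsProbabilityMeasure (nu β) :=
  Measure.isProbabilityMeasure_map (measurable_val hβ).aemeasurable

/-- Self-similarity. -/
lemma nu_self {β : ℝ} (hβ : 1 < β) {A : Set ℝ} (hA : MeasurableSet A) :
    nu β A = (2 : ℝ≥0∞)⁻¹ * (nu β {y | y / β ∈ A} + nu β {y | (y + 1) / β ∈ A}) := by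
  have hv := measurable_val hβ
  have hA0 : MeasurableSet {y : ℝ | y / β ∈ A} := (measurable_id.div_const β) hA
  have hA1 : MeasurableSet {y : ℝ | (y + 1) / β ∈ A} :=
    ((measurable_id.add_const 1).div_const β) hA
  have h1 : nu β A = (coin.prod (Measure.infinitePi (fun _ : ℕ => coin)))
      {p | ((if p.1 then (1 : ℝ) else 0) + val β p.2) / β ∈ A} := by
    unfold nu
    conv_lhs => rw [← cons_map]
    rw [Measure.map_map hv measurable_cons, Measure.map_apply (hv.comp measurable_cons) hA]
    congr 1
    ext p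
    simp only [Set.mem_preimage, Function.comp_apply, Set.mem_ofPred_eq, val_cons hβ]
  have hms : MeasurableSet {p : Bool × (ℕ → Bool) |
      ((if p.1 then (1 : ℝ) else 0) + val β p.2) / β ∈ A} := by
    have : Measurable (fun p : Bool × (ℕ → Bool) =>
        ((if p.1 then (1 : ℝ) else 0) + val β p.2) / β) := by
      refine Measurable.div_const (Measurable.add ?_ (hv.comp measurable_snd)) _
      exact (measurable_of_countable (fun b : Bool => if b then (1 : ℝ) else 0)).comp
        measurable_fst
    exact this hA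
  rw [h1, Measure.prod_apply hms]
  unfold coin
  rw [lintegral_smul_measure, lintegral_add_measure, lintegral_dirac, lintegral_dirac]
  simp only [smul_eq_mul]
  congr 1
  congr 1
  · unfold nu
    rw [Measure.map_apply hv hA0]
    congr 1
    ext a
    simp [coin]
  · unfold nu
    rw [Measure.map_apply hv hA1]
    congr 1
    ext a
    simp [coin, add_comm]

/-- The approximating densities. -/
noncomputable def dens (β : ℝ) : ℕ → ℝ → ℝ
  | 0 => fun x => if 0 ≤ x ∧ x ≤ 1 / (β - 1) then β - 1 else 0
  | n + 1 => fun x => if 0 ≤ x ∧ x ≤ 1 / (β - 1) then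
      β / 2 * (dens β n (β * x) + dens β n (β * x - 1)) else 0

/-- radius -/
noncomputable def rad (β : ℝ) (n : ℕ) : ℝ := (β⁻¹) ^ n / (β - 1)

lemma dens_nonneg {β : ℝ} (hβ : 1 < β) : ∀ (n : ℕ) (x : ℝ), 0 ≤ dens β n x := by
  intro n
  induction n with
  | zero =>
    intro x
    unfold dens
    split_ifs <;> linarith
  | succ n ih =>
    intro x
    unfold dens
    split_ifs
    · have h1 := ih (β * x)
      have h2 := ih (β * x - 1)
      have : 0 < β := by linarith
      positivity
    · exact le_rfl

lemma nu_univ_Icc {β : ℝ} (hβ : 1 < β) {a b : ℝ} (ha : a ≤ 0) (hb : 1 / (β - 1) ≤ b) :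
    nu β (Icc a b) = 1 := by
  have hp := nu_isProb hβ
  unfold nu
  rw [Measure.map_apply (measurable_val hβ) measurableSet_Icc]
  have : val β ⁻¹' (Icc a b) = univ := by
    ext x
    simp only [Set.mem_preimage, Set.mem_Icc, Set.mem_univ, iff_true]
    exact ⟨ha.trans (val_nonneg hβ x), (val_le hβ x).trans hb⟩
  rw [this, measure_univ]

lemma dens_le {β : ℝ} (hβ : 1 < β) : ∀ (n : ℕ) (x : ℝ),
    dens β n x ≤ β ^ n * (β - 1) * (nu β (Metric.closedBall x (rad β n))).toReal := by
  have hp := nu_isProb hβ
  have hb0 : 0 < β := by linarith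
  have hb1 : 0 < β - 1 := by linarith
  intro n
  induction n with
  | zero =>
    intro x
    unfold dens
    split_ifs with h
    · have : nu β (Metric.closedBall x (rad β 0)) = 1 := by
        rw [Real.closedBall_eq_Icc]
        refine nu_univ_Icc hβ ?_ ?_
        · simp only [rad, pow_zero]; linarith [h.2]
        · simp only [rad, pow_zero]; linarith [h.1]
      rw [this]
      simp
    · positivity
  | succ n ih =>
    intro x
    unfold dens
    split_ifs with h
    · have h1 := ih (β * x)
      have h2 := ih (β * x - 1)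
      have hs := nu_self hβ (A := Metric.closedBall x (rad β (n + 1))) measurableSet_closedBall
      have e0 : {y : ℝ | y / β ∈ Metric.closedBall x (rad β (n + 1))}
          = Metric.closedBall (β * x) (rad β n) := by
        ext y
        simp only [Set.mem_ofPred_eq, Metric.mem_closedBall, Real.dist_eq]
        have : y / β - x = (y - β * x) / β := by field_simp
        rw [this, abs_div, abs_of_pos hb0, div_le_iff₀ hb0]
        have : rad β (n + 1) * β = rad β n := by
          unfold rad
          rw [pow_succ]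
          field_simp
        rw [this]
      have e1 : {y : ℝ | (y + 1) / β ∈ Metric.closedBall x (rad β (n + 1))}
          = Metric.closedBall (β * x - 1) (rad β n) := by
        ext y
        simp only [Set.mem_ofPred_eq, Metric.mem_closedBall, Real.dist_eq]
        have : (y + 1) / β - x = (y - (β * x - 1)) / β := by field_simp; ring
        rw [this, abs_div, abs_of_pos hb0, div_le_iff₀ hb0]
        have : rad β (n + 1) * β = rad β n := by
          unfold rad
          rw [pow_succ]
          field_simp
        rw [this]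
      rw [e0, e1] at hs
      have hs' : (nu β (Metric.closedBall x (rad β (n + 1)))).toReal
          = 2⁻¹ * ((nu β (Metric.closedBall (β * x) (rad β n))).toReal
            + (nu β (Metric.closedBall (β * x - 1) (rad β n))).toReal) := by
        rw [hs, ENNReal.toReal_mul, ENNReal.toReal_add (measure_ne_top _ _)
          (measure_ne_top _ _)]
        simp
      rw [hs']
      have h3 : β / 2 * (dens β n (β * x) + dens β n (β * x - 1))
          ≤ β / 2 * (β ^ n * (β - 1) * (nu β (Metric.closedBall (β * x) (rad β n))).toReal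
            + β ^ n * (β - 1) * (nu β (Metric.closedBall (β * x - 1) (rad β n))).toReal) := by
        have : 0 < β / 2 := by positivity
        exact mul_le_mul_of_nonneg_left (add_le_add h1 h2) this.le
      refine h3.trans (le_of_eq ?_)
      ring
    · positivity

lemma rad_pos {β : ℝ} (hβ : 1 < β) (n : ℕ) : 0 < rad β n := by
  have hb1 : 0 < β - 1 := by linarith
  have hb0 : 0 < β := by linarith
  unfold rad
  positivity

lemma tendsto_rad {β : ℝ} (hβ : 1 < β) : Tendsto (rad β) atTop (𝓝[>] 0) := by
  rw [tendsto_nhdsWithin_iff]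
  refine ⟨?_, Filter.Eventually.of_forall fun n => rad_pos hβ n⟩
  have hb0 : 0 ≤ β⁻¹ := by positivity
  have hb1 : β⁻¹ < 1 := inv_lt_one_of_one_lt₀ hβ
  have := (tendsto_pow_atTop_nhds_zero_of_lt_one hb0 hb1).div_const (β - 1)
  rw [zero_div] at this
  exact this

/-- Q1. -/
theorem singular_case {β : ℝ} (hβ : 1 < β) (hs : nu β ⟂ₘ volume) :
    ∀ᵐ x : ℝ, Tendsto (fun n => dens β n x) atTop (𝓝 0) := by
  have hp := nu_isProb hβ
  have hb0 : 0 < β := by linarith
  have hb1 : 0 < β - 1 := by linarith
  filter_upwards [Besicovitch.ae_tendsto_rnDeriv (nu β) (volume : Measure ℝ),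
    hs.rnDeriv_ae_eq_zero] with x h1 h2
  rw [h2] at h1
  have h3 := h1.comp (tendsto_rad hβ)
  have h4 : Tendsto (fun n => 2 * ((nu β (Metric.closedBall x (rad β n))
      / volume (Metric.closedBall x (rad β n))).toReal)) atTop (𝓝 0) := by
    have := (ENNReal.tendsto_toReal (a := 0) (by simp)).comp h3
    have h5 := this.const_mul 2
    simpa using h5
  refine squeeze_zero (fun n => dens_nonneg hβ n x) (fun n => ?_) h4
  refine (dens_le hβ n x).trans (le_of_eq ?_)
  rw [Real.volume_closedBall, ENNReal.toReal_div, ENNReal.toReal_ofReal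
    (by have := rad_pos hβ n; positivity)]
  have : β ^ n * (β - 1) = 1 / rad β n := by
    unfold rad
    rw [inv_pow]
    field_simp
  rw [this]
  have := (rad_pos hβ n).ne'
  field_simp

end Pool.Agent.X116.Bc
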