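import Mathlib

/-!
# Derivatives of `∑ m n (-x)^n / n!`
-/

open Finset Filter Topology

namespace Pool.Agent.X116.CMser

/-- the `k`-th derivative, up to sign -/
noncomputable def gk (m : ℕ → ℝ) (k : ℕ) (x : ℝ) : ℝ :=
  ∑' n : ℕ, m (n + k) / (n.factorial : ℝ) * (-x) ^ n

/-- growth condition -/
def Bd (m : ℕ → ℝ) : Prop := ∀ q : ℝ, 0 < q → ∀ k : ℕ, ∃ C : ℝ, 0 < C ∧
    ∀ n : ℕ, |m (n + k) / (n.factorial : ℝ)| ≤ C * q ^ n

lemma gk_deriv {m : ℕ → ℝ} (m_bound : Bd m) (k : ℕ) (x : ℝ) :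
    HasDerivAt (gk m k) (-gk m (k + 1) x) x := by
  set r : ℝ := |x| + 1 with hr
  have hr0 : 0 < r := by positivity
  obtain ⟨C, hC, h⟩ := m_bound (1 / (2 * r)) (by positivity) (k + 1)
  obtain ⟨C', hC', h'⟩ := m_bound (1 / (2 * r)) (by positivity) k
  have hxr : x ∈ Metric.ball (0 : ℝ) r := by
    rw [mem_ball_zero_iff, Real.norm_eq_abs]
    linarith
  have hterm : ∀ (n : ℕ) (y : ℝ), HasDerivAt (fun y : ℝ => m (n + k) / (n.factorial : ℝ) * (-y) ^ n)
      (m (n + k) / (n.factorial : ℝ) * (n * (-y) ^ (n - 1) * (-1))) y := by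
    intro n y
    exact ((hasDerivAt_id y).neg.pow n).const_mul (m (n + k) / (n.factorial : ℝ))
  have hsumm : Summable fun n : ℕ => 2 * r * (C * (1 / 2 : ℝ) ^ n) :=
    ((summable_geometric_of_lt_one (by norm_num) (by norm_num)).mul_left C).mul_left _
  have hshift : ∀ (n : ℕ) (y : ℝ), m (n + 1 + k) / ((n + 1).factorial : ℝ)
      * (((n + 1 : ℕ) : ℝ) * (-y) ^ (n + 1 - 1) * (-1))
      = -(m (n + (k + 1)) / (n.factorial : ℝ) * (-y) ^ n) := by
    intro n y
    have e : n + 1 + k = n + (k + 1) := by ring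
    rw [e, Nat.factorial_succ, Nat.add_sub_cancel]
    push_cast
    have : ((n : ℝ) + 1) ≠ 0 := by positivity
    field_simp
  have hbound : ∀ (n : ℕ) (y : ℝ), y ∈ Metric.ball (0 : ℝ) r →
      ‖m (n + k) / (n.factorial : ℝ) * (n * (-y) ^ (n - 1) * (-1))‖
        ≤ 2 * r * (C * (1 / 2 : ℝ) ^ n) := by
    intro n y hy
    rw [mem_ball_zero_iff, Real.norm_eq_abs] at hy
    rcases n with _ | n
    · simp only [Nat.cast_zero, zero_mul, mul_zero, norm_zero]
      positivity
    · rw [hshift n y, norm_neg, norm_mul, Real.norm_eq_abs, norm_pow, norm_neg, Real.norm_eq_abs]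
      have h1 := h n
      calc |m (n + (k + 1)) / (n.factorial : ℝ)| * |y| ^ n
          ≤ C * (1 / (2 * r)) ^ n * r ^ n := by gcongr
        _ = C * (1 / 2 : ℝ) ^ n := by
            rw [mul_assoc, ← mul_pow]
            congr 2
            field_simp
        _ ≤ 2 * r * (C * (1 / 2 : ℝ) ^ (n + 1)) := by
            rw [pow_succ]
            have h2 : 1 ≤ r := by rw [hr]; linarith [abs_nonneg x]
            have h3 : 0 < C * (1 / 2 : ℝ) ^ n := by positivity
            nlinarith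
  have h0 : Summable fun n : ℕ => m (n + k) / (n.factorial : ℝ) * (-(0 : ℝ)) ^ n := by
    apply summable_of_ne_finset_zero (s := {0})
    intro n hn
    have : n ≠ 0 := by simpa using hn
    rw [neg_zero, zero_pow this, mul_zero]
  have key := hasDerivAt_tsum_of_isPreconnected hsumm Metric.isOpen_ball
    (convex_ball (0 : ℝ) r).isPreconnected (fun n y _ => hterm n y) hbound
    (Metric.mem_ball_self hr0) h0 hxr
  refine key.congr_deriv ?_
  have hs : Summable fun n : ℕ => m (n + k) / (n.factorial : ℝ) * (n * (-x) ^ (n - 1) * (-1)) :=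
    Summable.of_norm_bounded hsumm fun n => hbound n x hxr
  rw [hs.tsum_eq_zero_add]
  simp only [Nat.cast_zero, zero_mul, mul_zero, zero_add]
  have e : ∀ n : ℕ, m (n + 1 + k) / ((n + 1).factorial : ℝ)
      * (((n + 1 : ℕ) : ℝ) * (-x) ^ (n + 1 - 1) * (-1))
      = -(m (n + (k + 1)) / (n.factorial : ℝ) * (-x) ^ n) := fun n => hshift n x
  simp only [e]
  rw [tsum_neg]
  rfl

lemma iter {m : ℕ → ℝ} (m_bound : Bd m) (k : ℕ) :
    iteratedDeriv k (gk m 0) = fun x => (-1) ^ k * gk m k x := by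
  induction k with
  | zero =>
    funext x
    simp
  | succ k ih =>
    rw [iteratedDeriv_succ, ih]
    funext x
    have h := (gk_deriv m_bound k x).const_mul ((-1 : ℝ) ^ k)
    rw [h.deriv, pow_succ]
    ring

lemma contDiff {m : ℕ → ℝ} (m_bound : Bd m) : ContDiff ℝ (⊤ : ℕ∞) (gk m 0) := by
  apply contDiff_of_differentiable_iteratedDeriv
  intro k _
  rw [iter m_bound]
  exact fun x => ((gk_deriv m_bound k x).const_mul ((-1 : ℝ) ^ k)).differentiableAt

end Pool.Agent.X116.CMser
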