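import Mathlib

open Finset

namespace Pool.Agent.X116.Cw

lemma cb_even (m : ℕ) : (m.centralBinom) ^ 2 * (2 * m + 1) ≤ 16 ^ m := by
  induction m with
  | zero => simp
  | succ m ih =>
    have h := Nat.succ_mul_centralBinom_succ m
    have h2 : ((m + 1) * (m + 1).centralBinom) ^ 2 * (2 * (m + 1) + 1)
        ≤ (m + 1) ^ 2 * 16 ^ (m + 1) := by
      rw [h]
      calc (2 * (2 * m + 1) * m.centralBinom) ^ 2 * (2 * (m + 1) + 1)
          = (m.centralBinom ^ 2 * (2 * m + 1)) * (4 * ((2 * m + 1) * (2 * m + 3))) := by ring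
        _ ≤ 16 ^ m * (4 * ((2 * m + 1) * (2 * m + 3))) := Nat.mul_le_mul_right _ ih
        _ ≤ 16 ^ m * (16 * (m + 1) ^ 2) := by
            apply Nat.mul_le_mul_left; nlinarith
        _ = (m + 1) ^ 2 * 16 ^ (m + 1) := by ring
    rw [mul_pow, mul_assoc] at h2
    exact Nat.le_of_mul_le_mul_left h2 (by positivity)

lemma cb (n : ℕ) : (n.choose (n / 2)) ^ 2 * (n + 1) ≤ 4 ^ n := by
  rcases Nat.even_or_odd' n with ⟨m, rfl | rfl⟩
  · have h := cb_even m
    have e : (2 * m) / 2 = m := by omega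
    rw [e, pow_mul]
    exact h
  · have h := cb_even (m + 1)
    have e : (2 * m + 1) / 2 = m := by omega
    rw [e]
    have h2 : (m + 1).centralBinom = 2 * (2 * m + 1).choose m := by
      rw [Nat.centralBinom, show 2 * (m + 1) = (2 * m + 1) + 1 by ring, Nat.choose_succ_succ,
        ← Nat.choose_symm_half m]; ring
    rw [h2] at h
    have h3 : 4 * (((2 * m + 1).choose m) ^ 2 * (2 * m + 1 + 1)) ≤ 4 * 4 ^ (2 * m + 1) := by
      calc 4 * (((2 * m + 1).choose m) ^ 2 * (2 * m + 1 + 1))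
          ≤ (2 * (2 * m + 1).choose m) ^ 2 * (2 * (m + 1) + 1) := by nlinarith [sq_nonneg ((2 * m + 1).choose m)]
        _ ≤ 16 ^ (m + 1) := h
        _ = 4 * 4 ^ (2 * m + 1) := by
            rw [show (16:ℕ) = 4 ^ 2 by norm_num, ← pow_mul]; ring
    omega

section LO
variable {ι : Type*} [DecidableEq ι]

/-- signed sum over `K` with plus signs on `S` -/
def X (L : ι → ℤ) (K S : Finset ι) : ℤ := ∑ j ∈ K, if j ∈ S then L j else - L j

lemma X_lt {L : ι → ℤ} (hL : ∀ j, 1 ≤ L j) {K S T : Finset ι} (hST : S ⊆ T)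
    {x : ι} (hxK : x ∈ K) (hxT : x ∈ T) (hxS : x ∉ S) : X L K S + 2 ≤ X L K T := by
  unfold X
  rw [← Finset.add_sum_erase K _ hxK, ← Finset.add_sum_erase K (fun j => if j ∈ T then L j else - L j) hxK]
  have h1 : ∑ j ∈ K.erase x, (if j ∈ S then L j else - L j)
      ≤ ∑ j ∈ K.erase x, (if j ∈ T then L j else - L j) := by
    apply Finset.sum_le_sum
    intro j _
    have := hL j
    by_cases hS : j ∈ S
    · rw [if_pos hS, if_pos (hST hS)]
    · rw [if_neg hS]; split_ifs <;> linarith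
  simp only [if_neg hxS, if_pos hxT]
  have := hL x
  linarith

/-- Littlewood-Offord bound on each fibre -/
lemma fibre {L : ι → ℤ} (hL : ∀ j, 1 ≤ L j) (K T : Finset ι) (R : ℕ)
    (𝒮 : Finset (Finset ι)) (h𝒮 : ∀ S ∈ 𝒮, |X L K S| ≤ R ∧ S \ K = T) :
    𝒮.card ≤ (R + 1) * (K.card).choose (K.card / 2) := by
  classical
  have hcov : 𝒮 ⊆ (Finset.range (R + 1)).biUnion
      (fun i => 𝒮.filter (fun S => - (R:ℤ) + 2 * i ≤ X L K S ∧ X L K S ≤ - (R:ℤ) + 2 * i + 1)) := by
    intro S hS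
    have h := (h𝒮 S hS).1
    rw [abs_le] at h
    rw [Finset.mem_biUnion]
    refine ⟨((X L K S + R) / 2).toNat, ?_, ?_⟩
    · rw [Finset.mem_range]; omega
    · rw [Finset.mem_filter]
      refine ⟨hS, ?_⟩
      have : (((X L K S + R) / 2).toNat : ℤ) = (X L K S + R) / 2 := Int.toNat_of_nonneg (by omega)
      rw [this]; omega
  refine (Finset.card_le_card hcov).trans (Finset.card_biUnion_le.trans ?_)
  have hb : ∀ i ∈ Finset.range (R + 1),
      (𝒮.filter (fun S => - (R:ℤ) + 2 * i ≤ X L K S ∧ X L K S ≤ - (R:ℤ) + 2 * i + 1)).card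
        ≤ (K.card).choose (K.card / 2) := by
    intro i _
    set 𝒯 := 𝒮.filter (fun S => - (R:ℤ) + 2 * i ≤ X L K S ∧ X L K S ≤ - (R:ℤ) + 2 * i + 1) with h𝒯
    set φ : Finset ι → Finset {x // x ∈ K} := fun S => S.subtype (· ∈ K) with hφ
    have hmem : ∀ S ∈ 𝒯, S \ K = T := fun S hS => (h𝒮 S (Finset.mem_filter.1 hS).1).2
    have hinj : Set.InjOn φ (𝒯 : Set (Finset ι)) := by
      intro S hS S' hS' h
      have e1 := hmem S hS
      have e2 := hmem S' hS'
      ext x
      by_cases hx : x ∈ K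
      · have := congrArg (fun A => (⟨x, hx⟩ : {x // x ∈ K}) ∈ A) h
        simpa [hφ, Finset.mem_subtype] using this
      · have h1 : x ∈ S \ K ↔ x ∈ S' \ K := by rw [e1, e2]
        simpa [Finset.mem_sdiff, hx] using h1
    have hcard : (𝒯.image φ).card = 𝒯.card := Finset.card_image_of_injOn hinj
    rw [← hcard]
    have hanti : IsAntichain (· ⊆ ·) ((𝒯.image φ : Finset (Finset {x // x ∈ K})) : Set (Finset {x // x ∈ K})) := by
      intro A hA A' hA' hne hsub
      rw [Finset.mem_coe, Finset.mem_image] at hA hA'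
      obtain ⟨S, hS, rfl⟩ := hA
      obtain ⟨S', hS', rfl⟩ := hA'
      have e1 := hmem S hS
      have e2 := hmem S' hS'
      have hSS : S ⊆ S' := by
        intro x hx
        by_cases hxK : x ∈ K
        · have : (⟨x, hxK⟩ : {x // x ∈ K}) ∈ φ S := by simp [hφ, Finset.mem_subtype, hx]
          have := hsub this
          simpa [hφ, Finset.mem_subtype] using this
        · have h1 : x ∈ S \ K := by simp [hx, hxK]
          rw [e1, ← e2] at h1
          exact (Finset.mem_sdiff.1 h1).1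
      have hnss : ¬ (φ S' ⊆ φ S) := fun h => hne (Finset.Subset.antisymm hsub h)
      rw [Finset.not_subset] at hnss
      obtain ⟨⟨x, hxK⟩, hx1, hx2⟩ := hnss
      have hxS' : x ∈ S' := by simpa [hφ, Finset.mem_subtype] using hx1
      have hxS : x ∉ S := by simpa [hφ, Finset.mem_subtype] using hx2
      have hlt := X_lt hL hSS hxK hxS' hxS
      have b1 := (Finset.mem_filter.1 hS).2
      have b2 := (Finset.mem_filter.1 hS').2
      omega
    have := hanti.sperner
    simpa using this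
  calc _ ≤ ∑ i ∈ Finset.range (R + 1), (K.card).choose (K.card / 2) := Finset.sum_le_sum hb
    _ = _ := by simp

lemma fib_step {L : ι → ℤ} (hL : ∀ j, 1 ≤ L j) {U K : Finset ι} (R : ℕ)
    (P : Finset ι → Prop) [DecidablePred P] :
    (U.powerset.filter (fun S => |X L K S| ≤ R ∧ P (S \ K))).card
      ≤ ((R + 1) * (K.card).choose (K.card / 2)) * ((U \ K).powerset.filter P).card := by
  classical
  set 𝒮 := U.powerset.filter (fun S => |X L K S| ≤ R ∧ P (S \ K)) with h𝒮
  have h1 := Finset.card_le_mul_card_image (f := fun S : Finset ι => S \ K) 𝒮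
    ((R + 1) * (K.card).choose (K.card / 2)) (by
      intro T _
      apply fibre hL K T R
      intro S hS
      rw [Finset.mem_filter] at hS
      exact ⟨(Finset.mem_filter.1 hS.1).2.1, hS.2⟩)
  refine h1.trans (Nat.mul_le_mul_left _ (Finset.card_le_card ?_))
  intro T hT
  rw [Finset.mem_image] at hT
  obtain ⟨S, hS, rfl⟩ := hT
  rw [h𝒮, Finset.mem_filter, Finset.mem_powerset] at hS
  rw [Finset.mem_filter, Finset.mem_powerset]
  exact ⟨Finset.sdiff_subset_sdiff hS.1 (le_refl K), hS.2.2⟩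

lemma X_sdiff {L : ι → ℤ} {K K' S : Finset ι} (h : Disjoint K K') : X L K (S \ K') = X L K S := by
  unfold X
  apply Finset.sum_congr rfl
  intro j hj
  have : j ∉ K' := Finset.disjoint_left.1 h hj
  simp [this]

lemma three {L : ι → ℤ} [Fintype ι] (hL : ∀ j, 1 ≤ L j) {K₁ K₂ K₃ : Finset ι} (R : ℕ)
    (h12 : Disjoint K₁ K₂) (h13 : Disjoint K₁ K₃) (h23 : Disjoint K₂ K₃) :
    (Finset.univ.filter (fun S : Finset ι => |X L K₁ S| ≤ R ∧ |X L K₂ S| ≤ R ∧ |X L K₃ S| ≤ R)).card
      * (2 ^ K₁.card * 2 ^ K₂.card * 2 ^ K₃.card)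
      ≤ ((R + 1) * (K₁.card).choose (K₁.card / 2)) * ((R + 1) * (K₂.card).choose (K₂.card / 2))
        * ((R + 1) * (K₃.card).choose (K₃.card / 2)) * 2 ^ (Fintype.card ι) := by
  classical
  have e1 : (Finset.univ.filter (fun S : Finset ι => |X L K₁ S| ≤ R ∧ |X L K₂ S| ≤ R ∧ |X L K₃ S| ≤ R))
      = (Finset.univ : Finset ι).powerset.filter (fun S => |X L K₁ S| ≤ R ∧
        (fun T => |X L K₂ T| ≤ R ∧ |X L K₃ T| ≤ R) (S \ K₁)) := by
    ext S
    simp [X_sdiff h12.symm, X_sdiff h13.symm]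
  have s1 := fib_step hL (U := Finset.univ) (K := K₁) R (fun T => |X L K₂ T| ≤ R ∧ |X L K₃ T| ≤ R)
  rw [← e1] at s1
  have e2 : ((Finset.univ \ K₁).powerset.filter (fun T => |X L K₂ T| ≤ R ∧ |X L K₃ T| ≤ R))
      = ((Finset.univ \ K₁).powerset.filter (fun S => |X L K₂ S| ≤ R ∧
        (fun T => |X L K₃ T| ≤ R) (S \ K₂))) := by
    ext S
    simp [X_sdiff h23.symm]
  have s2 := fib_step hL (U := Finset.univ \ K₁) (K := K₂) R (fun T => |X L K₃ T| ≤ R)
  rw [← e2] at s2
  have e3 : (((Finset.univ \ K₁) \ K₂).powerset.filter (fun T => |X L K₃ T| ≤ R))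
      = (((Finset.univ \ K₁) \ K₂).powerset.filter (fun S => |X L K₃ S| ≤ R ∧
        (fun _ => True) (S \ K₃))) := by
    ext S; simp
  have s3 := fib_step hL (U := (Finset.univ \ K₁) \ K₂) (K := K₃) R (fun _ => True)
  rw [← e3] at s3
  have e4 : ((((Finset.univ \ K₁) \ K₂) \ K₃).powerset.filter (fun _ => True)).card
      * (2 ^ K₁.card * 2 ^ K₂.card * 2 ^ K₃.card) = 2 ^ (Fintype.card ι) := by
    rw [Finset.filter_true_of_mem (by simp), Finset.card_powerset, ← pow_add, ← pow_add, ← pow_add]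
    congr 1
    have a1 : (K₁ ∪ K₂ ∪ K₃).card = K₁.card + K₂.card + K₃.card := by
      rw [Finset.card_union_of_disjoint (by
        rw [Finset.disjoint_union_left]; exact ⟨h13, h23⟩), Finset.card_union_of_disjoint h12]
    have a2 : ((Finset.univ \ K₁) \ K₂) \ K₃ = (K₁ ∪ K₂ ∪ K₃)ᶜ := by
      ext x; simp [and_assoc]
    rw [a2, ← a1, Finset.card_compl]
    have := Finset.card_le_univ (K₁ ∪ K₂ ∪ K₃)
    omega
  set a := (R + 1) * (K₁.card).choose (K₁.card / 2)
  set b := (R + 1) * (K₂.card).choose (K₂.card / 2)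
  set c := (R + 1) * (K₃.card).choose (K₃.card / 2)
  set W := (2 ^ K₁.card * 2 ^ K₂.card * 2 ^ K₃.card)
  have hh := (s1.trans (Nat.mul_le_mul_left a (s2.trans (Nat.mul_le_mul_left b s3))))
  calc _ ≤ (a * (b * (c * _))) * W := Nat.mul_le_mul_right W hh
    _ = a * b * c * (((((Finset.univ \ K₁) \ K₂) \ K₃).powerset.filter (fun _ => True)).card * W) := by ring
    _ = _ := by rw [e4]

end LO

end Pool.Agent.X116.Cw
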