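import Pool.Agent.X116.CwA

open Finset

namespace Pool.Agent.X116.Cw

section
variable {ι : Type*} [Fintype ι] [DecidableEq ι] {d : ℕ}

/-- coordinate `i` of the weighted sum of signed unit vectors -/
def Z (L : ι → ℤ) (w : ι → Fin d × Bool) (i : Fin d) : ℤ :=
  ∑ j, L j * (if (w j).1 = i then (if (w j).2 = true then 1 else -1) else 0)

/-- number of indices with direction `i` -/
def kk (c : ι → Fin d) (i : Fin d) : ℕ := (univ.filter (fun j => c j = i)).card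

lemma Z_eq (L : ι → ℤ) (c : ι → Fin d) (s : ι → Bool) (i : Fin d) :
    Z L (fun j => (c j, s j)) i
      = X L (univ.filter (fun j => c j = i)) (univ.filter (fun j => s j = true)) := by
  unfold Z X
  rw [sum_filter]
  apply sum_congr rfl
  intro j _
  simp only [mem_filter, mem_univ, true_and]
  split_ifs <;> simp

noncomputable def qq (R k : ℕ) : ℝ := (R + 1) * (k.choose (k / 2) : ℝ) / 2 ^ k

lemma qq_nonneg (R k : ℕ) : 0 ≤ qq R k := by unfold qq; positivity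

lemma qq_le (R k : ℕ) : qq R k ≤ (R + 1) / √((k : ℝ) + 1) := by
  unfold qq
  have h := cb k
  have h' : ((k.choose (k / 2) : ℝ)) ^ 2 * (k + 1) ≤ (2 ^ k) ^ 2 := by
    rw [← pow_mul, mul_comm k 2, pow_mul]; norm_num
    exact_mod_cast h
  have h2 : (k.choose (k / 2) : ℝ) * √((k : ℝ) + 1) ≤ 2 ^ k := by
    apply le_of_sq_le_sq _ (by positivity)
    rw [mul_pow, Real.sq_sqrt (by positivity)]
    exact h'
  rw [div_le_div_iff₀ (by positivity) (by positivity)]
  calc (R + 1) * (k.choose (k / 2) : ℝ) * √((k : ℝ) + 1)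
      = (R + 1) * ((k.choose (k / 2) : ℝ) * √((k : ℝ) + 1)) := by ring
    _ ≤ (R + 1) * 2 ^ k := by gcongr

lemma count_fixed {L : ι → ℤ} (hL : ∀ j, 1 ≤ L j) (R : ℕ) (c : ι → Fin d) {i₁ i₂ i₃ : Fin d}
    (h12 : i₁ ≠ i₂) (h13 : i₁ ≠ i₃) (h23 : i₂ ≠ i₃) :
    ((univ.filter (fun s : ι → Bool => |Z L (fun j => (c j, s j)) i₁| ≤ R ∧
      |Z L (fun j => (c j, s j)) i₂| ≤ R ∧ |Z L (fun j => (c j, s j)) i₃| ≤ R)).card : ℝ)
      ≤ 2 ^ (Fintype.card ι) * (qq R (kk c i₁) * qq R (kk c i₂) * qq R (kk c i₃)) := by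
  classical
  have hd : ∀ {a b : Fin d}, a ≠ b → Disjoint (univ.filter (fun j => c j = a))
      (univ.filter (fun j => c j = b)) := by
    intro a b hab
    rw [Finset.disjoint_left]
    intro x hx hx'
    simp only [mem_filter, mem_univ, true_and] at hx hx'
    exact hab (hx.symm.trans hx')
  have h3 := three hL (K₁ := univ.filter (fun j => c j = i₁)) (K₂ := univ.filter (fun j => c j = i₂))
    (K₃ := univ.filter (fun j => c j = i₃)) R (hd h12) (hd h13) (hd h23)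
  have hc : (univ.filter (fun s : ι → Bool => |Z L (fun j => (c j, s j)) i₁| ≤ R ∧
      |Z L (fun j => (c j, s j)) i₂| ≤ R ∧ |Z L (fun j => (c j, s j)) i₃| ≤ R)).card
      ≤ (univ.filter (fun S : Finset ι => |X L (univ.filter (fun j => c j = i₁)) S| ≤ R ∧
        |X L (univ.filter (fun j => c j = i₂)) S| ≤ R ∧ |X L (univ.filter (fun j => c j = i₃)) S| ≤ R)).card := by
    apply Finset.card_le_card_of_injOn (fun s => univ.filter (fun j => s j = true))
    · intro s hs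
      simp only [coe_filter, mem_univ, true_and, Set.mem_setOf_eq, Z_eq] at hs ⊢
      exact hs
    · intro s _ s' _ h
      funext j
      have := congrArg (fun A => j ∈ A) h
      simp only [mem_filter, mem_univ, true_and, eq_iff_iff] at this
      exact Bool.eq_iff_iff.2 this
  have h4 := (Nat.mul_le_mul_right (2 ^ (kk c i₁) * 2 ^ (kk c i₂) * 2 ^ (kk c i₃)) hc).trans h3
  have h5 : ((univ.filter (fun s : ι → Bool => |Z L (fun j => (c j, s j)) i₁| ≤ R ∧
      |Z L (fun j => (c j, s j)) i₂| ≤ R ∧ |Z L (fun j => (c j, s j)) i₃| ≤ R)).card : ℝ)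
      * (2 ^ (kk c i₁) * 2 ^ (kk c i₂) * 2 ^ (kk c i₃))
      ≤ ((R + 1) * ((kk c i₁).choose (kk c i₁ / 2))) * ((R + 1) * ((kk c i₂).choose (kk c i₂ / 2)))
        * ((R + 1) * ((kk c i₃).choose (kk c i₃ / 2))) * 2 ^ (Fintype.card ι) := by
    exact_mod_cast h4
  rw [← le_div_iff₀ (by positivity)] at h5
  refine h5.trans (le_of_eq ?_)
  unfold qq
  field_simp

lemma q_prod (R : ℕ) {N k₁ k₂ k₃ : ℕ} (hd : 1 ≤ d) :
    qq R k₁ * qq R k₂ * qq R k₃ ≤ (R + 1) ^ 3 * (1 / (√(((N : ℝ) + 1) / (4 * d))) ^ 3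
      + (Real.exp ((N : ℝ) / (4 * d)) * Real.exp (-(k₁ : ℝ)) + Real.exp ((N : ℝ) / (4 * d)) * Real.exp (-(k₂ : ℝ))
        + Real.exp ((N : ℝ) / (4 * d)) * Real.exp (-(k₃ : ℝ)))) := by
  have hd' : (1 : ℝ) ≤ d := by exact_mod_cast hd
  set a : ℝ := ((N : ℝ) + 1) / (4 * d) with ha
  have ha0 : 0 < a := by positivity
  have hq1 : ∀ k : ℕ, qq R k ≤ (R + 1) := by
    intro k
    refine (qq_le R k).trans ?_
    apply div_le_self (by positivity)
    rw [Real.one_le_sqrt]; linarith [(Nat.cast_nonneg k : (0:ℝ) ≤ k)]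
  have hexp : ∀ k : ℕ, (k : ℝ) + 1 < a → 1 ≤ Real.exp ((N : ℝ) / (4 * d)) * Real.exp (-(k : ℝ)) := by
    intro k hk
    rw [← Real.exp_add]
    apply Real.one_le_exp
    have : a ≤ (N : ℝ) / (4 * d) + 1 := by
      rw [ha, add_div]
      have : 1 / (4 * (d:ℝ)) ≤ 1 := by
        rw [div_le_one (by positivity)]; linarith
      linarith
    linarith
  have hall : qq R k₁ * qq R k₂ * qq R k₃ ≤ (R + 1) ^ 3 := by
    calc qq R k₁ * qq R k₂ * qq R k₃ ≤ (R + 1) * (R + 1) * (R + 1) := by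
          apply mul_le_mul (mul_le_mul (hq1 _) (hq1 _) (qq_nonneg _ _) (by positivity)) (hq1 _)
            (qq_nonneg _ _) (by positivity)
      _ = _ := by ring
  have hsm : ∀ x : ℝ, 1 ≤ x → qq R k₁ * qq R k₂ * qq R k₃ ≤ (R + 1) ^ 3 * x := by
    intro x hx
    refine hall.trans ?_
    nlinarith [show (0:ℝ) < ((R:ℝ) + 1) ^ 3 by positivity]
  by_cases h1 : (k₁ : ℝ) + 1 < a
  · apply hsm
    have := hexp k₁ h1
    have e0 : 0 ≤ 1 / (√a) ^ 3 := by positivity
    have e2 := Real.exp_pos (-(k₂ : ℝ))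
    have e3 := Real.exp_pos (-(k₃ : ℝ))
    have e4 := Real.exp_pos ((N : ℝ) / (4 * d))
    nlinarith [mul_pos e4 e2, mul_pos e4 e3]
  by_cases h2 : (k₂ : ℝ) + 1 < a
  · apply hsm
    have := hexp k₂ h2
    have e0 : 0 ≤ 1 / (√a) ^ 3 := by positivity
    have e2 := Real.exp_pos (-(k₁ : ℝ))
    have e3 := Real.exp_pos (-(k₃ : ℝ))
    have e4 := Real.exp_pos ((N : ℝ) / (4 * d))
    nlinarith [mul_pos e4 e2, mul_pos e4 e3]
  by_cases h3 : (k₃ : ℝ) + 1 < a
  · apply hsm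
    have := hexp k₃ h3
    have e0 : 0 ≤ 1 / (√a) ^ 3 := by positivity
    have e2 := Real.exp_pos (-(k₁ : ℝ))
    have e3 := Real.exp_pos (-(k₂ : ℝ))
    have e4 := Real.exp_pos ((N : ℝ) / (4 * d))
    nlinarith [mul_pos e4 e2, mul_pos e4 e3]
  push Not at h1 h2 h3
  have hb : ∀ k : ℕ, a ≤ (k : ℝ) + 1 → qq R k ≤ (R + 1) / √a := by
    intro k hk
    refine (qq_le R k).trans ?_
    apply div_le_div_of_nonneg_left (by positivity) (by positivity) (Real.sqrt_le_sqrt hk)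
  calc qq R k₁ * qq R k₂ * qq R k₃ ≤ ((R + 1) / √a) * ((R + 1) / √a) * ((R + 1) / √a) := by
        apply mul_le_mul (mul_le_mul (hb _ h1) (hb _ h2) (qq_nonneg _ _) (by positivity)) (hb _ h3)
            (qq_nonneg _ _) (by positivity)
    _ = (R + 1) ^ 3 * (1 / (√a) ^ 3) := by field_simp
    _ ≤ _ := by
        apply mul_le_mul_of_nonneg_left _ (by positivity)
        have : 0 ≤ (Real.exp ((N : ℝ) / (4 * d)) * Real.exp (-(k₁ : ℝ)) + Real.exp ((N : ℝ) / (4 * d)) * Real.exp (-(k₂ : ℝ))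
        + Real.exp ((N : ℝ) / (4 * d)) * Real.exp (-(k₃ : ℝ))) := by positivity
        linarith

lemma sum_exp (hd : 1 ≤ d) (i : Fin d) :
    ∑ c : ι → Fin d, Real.exp (-(kk c i : ℝ))
      ≤ (d : ℝ) ^ (Fintype.card ι) * Real.exp (-((Fintype.card ι : ℝ) / (2 * d))) := by
  have hd' : (1 : ℝ) ≤ d := by exact_mod_cast hd
  have h1 : ∀ c : ι → Fin d, Real.exp (-(kk c i : ℝ)) = ∏ j, (if c j = i then Real.exp (-1) else 1) := by
    intro c
    rw [prod_ite, prod_const, prod_const_one, mul_one, ← Real.exp_nat_mul]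
    simp only [kk]
    ring_nf
  simp_rw [h1]
  have h2 := Finset.prod_univ_sum (fun _ : ι => (univ : Finset (Fin d)))
    (fun _ a => if a = i then Real.exp (-1) else (1:ℝ))
  rw [Fintype.piFinset_univ] at h2
  rw [← h2]
  rw [prod_const, card_univ]
  have h3 : ∑ a : Fin d, (if a = i then Real.exp (-1) else (1:ℝ)) = (d : ℝ) - 1 + Real.exp (-1) := by
    rw [← Finset.add_sum_erase univ _ (mem_univ i)]
    have : ∑ x ∈ univ.erase i, (if x = i then Real.exp (-1) else (1:ℝ)) = ∑ x ∈ univ.erase i, (1:ℝ) := by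
      apply sum_congr rfl
      intro x hx
      rw [if_neg (ne_of_mem_erase hx)]
    rw [this]
    simp only [if_true, sum_const, card_erase_of_mem (mem_univ i), card_univ, Fintype.card_fin, nsmul_eq_mul, mul_one]
    rw [Nat.cast_sub hd]; push_cast; ring
  rw [h3]
  have h4 : (d : ℝ) - 1 + Real.exp (-1) ≤ d * Real.exp (-(1 / (2 * d))) := by
    have e1 := Real.add_one_le_exp (-(1 / (2 * (d:ℝ))))
    have e2 := Real.exp_neg_one_lt_d9
    have e3 : (d:ℝ) * (-(1 / (2 * (d:ℝ))) + 1) ≤ d * Real.exp (-(1 / (2 * d))) := by gcongr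
    have e4 : (d:ℝ) * (-(1 / (2 * (d:ℝ))) + 1) = d - 1/2 := by field_simp; ring
    rw [e4] at e3
    linarith
  have h5 : 0 ≤ (d : ℝ) - 1 + Real.exp (-1) := by
    have := Real.exp_pos (-1); linarith
  calc ((d : ℝ) - 1 + Real.exp (-1)) ^ (Fintype.card ι) ≤ (d * Real.exp (-(1 / (2 * d)))) ^ (Fintype.card ι) := by
        gcongr
    _ = _ := by
        rw [mul_pow, ← Real.exp_nat_mul]
        congr 2
        ring

/-- the bound `β` -/
noncomputable def bet (d R N : ℕ) : ℝ :=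
  (R + 1) ^ 3 * (1 / (√(((N : ℝ) + 1) / (4 * d))) ^ 3 + 3 * Real.exp (-((N : ℝ) / (4 * d))))

lemma count_all {L : ι → ℤ} (hL : ∀ j, 1 ≤ L j) (hd : 1 ≤ d) (R : ℕ) {i₁ i₂ i₃ : Fin d}
    (h12 : i₁ ≠ i₂) (h13 : i₁ ≠ i₃) (h23 : i₂ ≠ i₃) :
    ((univ.filter (fun w : ι → Fin d × Bool => |Z L w i₁| ≤ R ∧
      |Z L w i₂| ≤ R ∧ |Z L w i₃| ≤ R)).card : ℝ)
      ≤ (2 * d) ^ (Fintype.card ι) * bet d R (Fintype.card ι) := by
  classical
  set N := Fintype.card ι with hN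
  have hd' : (1 : ℝ) ≤ d := by exact_mod_cast hd
  have e1 : ((univ.filter (fun w : ι → Fin d × Bool => |Z L w i₁| ≤ R ∧
      |Z L w i₂| ≤ R ∧ |Z L w i₃| ≤ R)).card : ℝ)
      = ∑ c : ι → Fin d, ((univ.filter (fun s : ι → Bool => |Z L (fun j => (c j, s j)) i₁| ≤ R ∧
      |Z L (fun j => (c j, s j)) i₂| ≤ R ∧ |Z L (fun j => (c j, s j)) i₃| ≤ R)).card : ℝ) := by
    simp_rw [Finset.card_filter]
    push_cast
    rw [← (Equiv.arrowProdEquivProdArrow ι (fun _ => Fin d) (fun _ => Bool)).symm.sum_comp,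
      Fintype.sum_prod_type]
    rfl
  rw [e1]
  calc _ ≤ ∑ c : ι → Fin d, (2:ℝ) ^ N * (qq R (kk c i₁) * qq R (kk c i₂) * qq R (kk c i₃)) :=
        sum_le_sum fun c _ => count_fixed hL R c h12 h13 h23
    _ ≤ ∑ c : ι → Fin d, (2:ℝ) ^ N * ((R + 1) ^ 3 * (1 / (√(((N : ℝ) + 1) / (4 * d))) ^ 3
      + (Real.exp ((N : ℝ) / (4 * d)) * Real.exp (-(kk c i₁ : ℝ)) + Real.exp ((N : ℝ) / (4 * d)) * Real.exp (-(kk c i₂ : ℝ))
        + Real.exp ((N : ℝ) / (4 * d)) * Real.exp (-(kk c i₃ : ℝ))))) := by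
        apply sum_le_sum
        intro c _
        apply mul_le_mul_of_nonneg_left (q_prod R hd) (by positivity)
    _ = (2:ℝ) ^ N * ((R + 1) ^ 3 * ((d:ℝ) ^ N * (1 / (√(((N : ℝ) + 1) / (4 * d))) ^ 3)
      + (Real.exp ((N : ℝ) / (4 * d)) * ∑ c : ι → Fin d, Real.exp (-(kk c i₁ : ℝ))
        + Real.exp ((N : ℝ) / (4 * d)) * ∑ c : ι → Fin d, Real.exp (-(kk c i₂ : ℝ))
        + Real.exp ((N : ℝ) / (4 * d)) * ∑ c : ι → Fin d, Real.exp (-(kk c i₃ : ℝ))))) := by
        rw [← mul_sum, ← mul_sum, sum_add_distrib, sum_add_distrib, sum_add_distrib, ← mul_sum, ← mul_sum,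
          ← mul_sum]
        simp [hN]
    _ ≤ (2:ℝ) ^ N * ((R + 1) ^ 3 * ((d:ℝ) ^ N * (1 / (√(((N : ℝ) + 1) / (4 * d))) ^ 3)
      + (Real.exp ((N : ℝ) / (4 * d)) * ((d : ℝ) ^ N * Real.exp (-((N : ℝ) / (2 * d))))
        + Real.exp ((N : ℝ) / (4 * d)) * ((d : ℝ) ^ N * Real.exp (-((N : ℝ) / (2 * d))))
        + Real.exp ((N : ℝ) / (4 * d)) * ((d : ℝ) ^ N * Real.exp (-((N : ℝ) / (2 * d))))))) := by
        have s1 := sum_exp (ι := ι) hd i₁
        have s2 := sum_exp (ι := ι) hd i₂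
        have s3 := sum_exp (ι := ι) hd i₃
        rw [← hN] at s1 s2 s3
        gcongr
    _ = _ := by
        have e : Real.exp (-((N : ℝ) / (4 * d))) = Real.exp ((N : ℝ) / (4 * d)) * Real.exp (-((N : ℝ) / (2 * d))) := by
          rw [← Real.exp_add]; congr 1; field_simp; ring
        rw [bet, e, mul_pow]
        ring

lemma bet_summable (d R : ℕ) (hd : 1 ≤ d) : Summable (bet d R) := by
  have hd' : (0 : ℝ) < d := by exact_mod_cast hd
  unfold bet
  apply Summable.mul_left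
  apply Summable.add
  · have h := (summable_nat_add_iff 1).2 (Real.summable_one_div_nat_rpow.2 (show (1:ℝ) < 3/2 by norm_num))
    have h2 := h.mul_left ((4 * (d:ℝ)) ^ ((3:ℝ)/2))
    refine h2.congr ?_
    intro N
    have e : (√(((N : ℝ) + 1) / (4 * d))) ^ 3 = (((N : ℝ) + 1) / (4 * d)) ^ ((3:ℝ)/2) := by
      rw [Real.sqrt_eq_rpow, ← Real.rpow_natCast, ← Real.rpow_mul (by positivity)]
      norm_num
    rw [e, Real.div_rpow (by positivity) (by positivity)]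
    push_cast
    field_simp
  · apply Summable.mul_left
    have h := summable_geometric_of_lt_one (r := Real.exp (-(1 / (4 * (d:ℝ))))) (Real.exp_pos _).le
      (by rw [Real.exp_lt_one_iff]; simp; positivity)
    refine h.congr ?_
    intro N
    rw [← Real.exp_nat_mul]
    congr 1
    ring

end

end Pool.Agent.X116.Cw
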