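import Pool.Agent.X116.CwB

open Finset

namespace Pool.Agent.X116.Cw

/-- the signed unit vector coded by `a = (i, σ)` -/
def vec {d : ℕ} (a : Fin d × Bool) : Fin d → ℤ :=
  fun i => if a.1 = i then (if a.2 = true then 1 else -1) else 0

/-- the step process -/
def step {E : Type*} (b : ℕ → Bool) (u : ℕ → E) : ℕ → E
  | 0 => u 0
  | n + 1 => if b (n + 1) = true then u (n + 1) else step b u n

/-- the position after `n` steps -/
def pos {d : ℕ} (b : ℕ → Bool) (u : ℕ → Fin d × Bool) (n : ℕ) : Fin d → ℤ :=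
  fun i => ∑ k ∈ range n, vec (step b u k) i

/-- last resampling time -/
def r (b : ℕ → Bool) : ℕ → ℕ
  | 0 => 0
  | n + 1 => if b (n + 1) = true then n + 1 else r b n

lemma step_eq {E : Type*} (b : ℕ → Bool) (u : ℕ → E) (n : ℕ) : step b u n = u (r b n) := by
  induction n with
  | zero => rfl
  | succ n ih =>
    simp only [step, r]
    split_ifs <;> simp_all

lemma r_le (b : ℕ → Bool) (n : ℕ) : r b n ≤ n := by
  induction n with
  | zero => exact le_refl _
  | succ n ih =>
    simp only [r]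
    split_ifs <;> omega

lemma r_self (b : ℕ → Bool) {n : ℕ} (h : b n = true) : r b n = n := by
  cases n with
  | zero => rfl
  | succ n => simp [r, h]

lemma r_mono_step (b : ℕ → Bool) (n : ℕ) : r b n ≤ r b (n + 1) := by
  have := r_le b n
  simp only [r]
  split_ifs <;> omega

lemma r_mono (b : ℕ → Bool) : Monotone (r b) := monotone_nat_of_le_succ (r_mono_step b)

lemma r_good (b : ℕ → Bool) (n : ℕ) : r b n = 0 ∨ b (r b n) = true := by
  induction n with
  | zero => left; rfl
  | succ n ih =>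
    simp only [r]
    split_ifs with h
    · right; exact h
    · exact ih

lemma r_const (b : ℕ → Bool) {m n : ℕ} (h1 : r b n ≤ m) (h2 : m ≤ n) : r b m = r b n := by
  induction n with
  | zero => simp only [Nat.le_zero] at h2; rw [h2]
  | succ n ih =>
    rcases Nat.lt_or_ge m (n + 1) with h | h
    · by_cases hb : b (n + 1) = true
      · rw [r_self b hb] at h1; omega
      · have e : r b (n + 1) = r b n := by simp [r, hb]
        rw [e] at h1 ⊢
        exact ih h1 (by omega)
    · have : m = n + 1 := by omega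
      rw [this]

/-- set of resampling indices used before time `n` -/
def J (b : ℕ → Bool) (n : ℕ) : Finset ℕ := (range n).image (r b)

/-- weights -/
def Lw (b : ℕ → Bool) (n : ℕ) (j : J b n) : ℤ := (((range n).filter (fun k => r b k = (j : ℕ))).card : ℤ)

lemma Lw_pos (b : ℕ → Bool) (n : ℕ) (j : J b n) : 1 ≤ Lw b n j := by
  unfold Lw
  have h : (j : ℕ) ∈ (range n).image (r b) := j.2
  rw [mem_image] at h
  obtain ⟨k, hk, hk2⟩ := h
  have : 0 < ((range n).filter (fun k => r b k = (j : ℕ))).card :=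
    card_pos.2 ⟨k, by rw [mem_filter]; exact ⟨hk, hk2⟩⟩
  exact_mod_cast this

lemma pos_eq {d : ℕ} (b : ℕ → Bool) (u : ℕ → Fin d × Bool) (n : ℕ) (i : Fin d) :
    pos b u n i = Z (Lw b n) (fun j : J b n => u j) i := by
  unfold pos Z
  simp_rw [step_eq]
  rw [Finset.sum_comp (fun m => vec (u m) i) (r b)]
  rw [← Finset.sum_coe_sort ((range n).image (r b))]
  apply Fintype.sum_congr
  intro j
  simp [vec, Lw]

lemma J_card_lt (b : ℕ → Bool) {m n : ℕ} (hm : b m = true) (h : m < n) : (J b m).card < (J b n).card := by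
  apply card_lt_card
  have hsub : J b m ⊆ J b n := image_subset_image (by intro x; simp only [mem_range]; omega)
  rw [Finset.ssubset_iff_of_subset hsub]
  refine ⟨m, ?_, ?_⟩
  · exact mem_image.2 ⟨m, mem_range.2 h, r_self b hm⟩
  · intro hc
    obtain ⟨k, hk, hk2⟩ := mem_image.1 hc
    have := r_le b k
    rw [mem_range] at hk
    omega

/-- at the last resampling time all but one coordinates agree -/
lemma pos_last {d : ℕ} (b : ℕ → Bool) (u : ℕ → Fin d × Bool) (n : ℕ) {i : Fin d}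
    (hi : (u (r b n)).1 ≠ i) : pos b u (n + 1) i = pos b u (r b n) i := by
  unfold pos
  have hle := r_le b n
  rw [← Finset.sum_range_add_sum_Ico _ (show r b n ≤ n + 1 by omega)]
  have : ∑ k ∈ Ico (r b n) (n + 1), vec (step b u k) i = 0 := by
    apply sum_eq_zero
    intro k hk
    rw [mem_Ico] at hk
    rw [step_eq, r_const b hk.1 (by omega)]
    simp [vec, hi]
  omega

/-- the Euclidean norm of an integer vector -/
noncomputable def nrm {d : ℕ} (v : Fin d → ℤ) : ℝ := √(∑ i, (v i : ℝ) ^ 2)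

lemma abs_le_nrm {d : ℕ} (v : Fin d → ℤ) (i : Fin d) : |(v i : ℝ)| ≤ nrm v := by
  unfold nrm
  apply Real.abs_le_sqrt
  exact Finset.single_le_sum (f := fun i => ((v i : ℝ)) ^ 2) (fun i _ => sq_nonneg _) (mem_univ i)

/-- bad event at time `n` -/
def Bad {d : ℕ} (b : ℕ → Bool) (R n : ℕ) : Set (ℕ → Fin d × Bool) :=
  {u | ∃ i₁ i₂ i₃ : Fin d, i₁ ≠ i₂ ∧ i₁ ≠ i₃ ∧ i₂ ≠ i₃ ∧
    |pos b u n i₁| ≤ R ∧ |pos b u n i₂| ≤ R ∧ |pos b u n i₃| ≤ R}

lemma exists_three {d : ℕ} (hd : 4 ≤ d) (i : Fin d) : ∃ i₁ i₂ i₃ : Fin d, i₁ ≠ i₂ ∧ i₁ ≠ i₃ ∧ i₂ ≠ i₃ ∧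
    i ≠ i₁ ∧ i ≠ i₂ ∧ i ≠ i₃ := by
  have h : 3 ≤ (univ.erase i).card := by
    rw [card_erase_of_mem (mem_univ i), card_univ, Fintype.card_fin]; omega
  obtain ⟨t, ht, htc⟩ := Finset.exists_subset_card_eq h
  obtain ⟨x, y, z, hxy, hxz, hyz, rfl⟩ := Finset.card_eq_three.1 htc
  refine ⟨x, y, z, hxy, hxz, hyz, ?_, ?_, ?_⟩
  · exact (ne_of_mem_erase (ht (by simp))).symm
  · exact (ne_of_mem_erase (ht (by simp))).symm
  · exact (ne_of_mem_erase (ht (by simp))).symm

/-- if finitely many bad events happen and `b` is infinitely often true, the walk leaves each ball -/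
lemma tendsto_of_bad {d : ℕ} (hd : 4 ≤ d) (b : ℕ → Bool) (u : ℕ → Fin d × Bool)
    (hb : ∀ N, ∃ j ≥ N, b j = true)
    (hfin : ∀ R : ℕ, {j : {n // b n = true} | u ∈ Bad b R j}.Finite) :
    Filter.Tendsto (fun n => nrm (pos b u n)) Filter.atTop Filter.atTop := by
  rw [Filter.tendsto_atTop_atTop]
  intro A
  obtain ⟨R, hR⟩ := exists_nat_ge A
  have hf := (hfin R).image (fun j : {n // b n = true} => (j : ℕ))
  obtain ⟨M, hM⟩ := hf.bddAbove
  obtain ⟨j, hj, hjb⟩ := hb (M + 1)
  refine ⟨j + 1, fun n hn => ?_⟩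
  by_contra hlt
  push Not at hlt
  obtain ⟨n, rfl⟩ : ∃ m, n = m + 1 := ⟨n - 1, by omega⟩
  have h1 : j ≤ r b n := by
    have := r_mono b (show j ≤ n by omega)
    rwa [r_self b hjb] at this
  have h2 : b (r b n) = true := by
    rcases r_good b n with h | h
    · omega
    · exact h
  have h3 : u ∈ Bad b R (r b n) := by
    obtain ⟨i₁, i₂, i₃, h12, h13, h23, k1, k2, k3⟩ := exists_three hd (u (r b n)).1
    refine ⟨i₁, i₂, i₃, h12, h13, h23, ?_, ?_, ?_⟩
    · rw [← pos_last b u n k1]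
      have := (abs_le_nrm (pos b u (n + 1)) i₁).trans (hlt.le.trans hR)
      exact_mod_cast this
    · rw [← pos_last b u n k2]
      have := (abs_le_nrm (pos b u (n + 1)) i₂).trans (hlt.le.trans hR)
      exact_mod_cast this
    · rw [← pos_last b u n k3]
      have := (abs_le_nrm (pos b u (n + 1)) i₃).trans (hlt.le.trans hR)
      exact_mod_cast this
  have h4 : r b n ≤ M := hM ⟨⟨r b n, h2⟩, h3, rfl⟩
  omega

/-- eventually constant step: the walk escapes -/
lemma tendsto_of_const {d : ℕ} (b : ℕ → Bool) (u : ℕ → Fin d × Bool)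
    (hb : ∃ N, ∀ j ≥ N, b j = false) :
    Filter.Tendsto (fun n => nrm (pos b u n)) Filter.atTop Filter.atTop := by
  obtain ⟨N, hN⟩ := hb
  have hr : ∀ m, r b (N + m) = r b N := by
    intro m
    induction m with
    | zero => rfl
    | succ m ih => rw [← add_assoc, r, if_neg (by rw [hN _ (by omega)]; simp), ih]
  set a := u (r b N) with ha
  have hpos : ∀ m, pos b u (N + m) a.1 = pos b u N a.1 + m * vec a a.1 := by
    intro m
    induction m with
    | zero => simp
    | succ m ih =>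
      have : pos b u (N + (m + 1)) a.1 = pos b u (N + m) a.1 + vec (step b u (N + m)) a.1 := by
        unfold pos
        rw [← add_assoc, sum_range_succ]
      rw [this, ih, step_eq, hr]
      push_cast; ring
  have hv : |vec a a.1| = 1 := by
    unfold vec; simp; split_ifs <;> simp
  rw [Filter.tendsto_atTop_atTop]
  intro A
  obtain ⟨R, hR⟩ := exists_nat_ge (A + |(pos b u N a.1 : ℝ)|)
  refine ⟨N + R, fun n hn => ?_⟩
  obtain ⟨m, rfl⟩ : ∃ m, n = N + m := ⟨n - N, by omega⟩
  have hm : R ≤ m := by omega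
  have h1 := abs_le_nrm (pos b u (N + m)) a.1
  rw [hpos] at h1
  have h2 : (m : ℝ) - |(pos b u N a.1 : ℝ)| ≤ |((pos b u N a.1 + m * vec a a.1 : ℤ) : ℝ)| := by
    push_cast
    have h3 : |(m : ℝ) * (vec a a.1 : ℝ)| = m := by
      rw [abs_mul]
      have : |((vec a a.1 : ℤ) : ℝ)| = 1 := by exact_mod_cast hv
      rw [this]; simp
    have h4 := abs_sub_abs_le_abs_sub ((m : ℝ) * (vec a a.1 : ℝ)) (-(pos b u N a.1 : ℝ))
    rw [h3, abs_neg] at h4
    calc (m : ℝ) - |(pos b u N a.1 : ℝ)| ≤ _ := h4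
      _ = _ := by congr 1; ring
  have h5 : (R : ℝ) ≤ m := by exact_mod_cast hm
  linarith

end Pool.Agent.X116.Cw
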