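import Pool.Agent.X116.CwC

open Finset MeasureTheory

namespace Pool.Agent.X116.Cw

/-- uniform law on the `2 d` signed unit vectors -/
noncomputable def unif (d : ℕ) [NeZero d] : Measure (Fin d × Bool) :=
  (PMF.uniformOfFintype (Fin d × Bool)).toMeasure

instance (d : ℕ) [NeZero d] : IsProbabilityMeasure (unif d) := by unfold unif; infer_instance

lemma unif_singleton {d : ℕ} [NeZero d] (a : Fin d × Bool) : unif d {a} = ((2 * d : ℕ) : ENNReal)⁻¹ := by
  unfold unif
  rw [PMF.toMeasure_apply_singleton _ _ (measurableSet_singleton a), PMF.uniformOfFintype_apply]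
  congr 2
  simp [mul_comm]

/-- the law of a coin which is `true` with probability `q` -/
noncomputable def coin (q : Set.Icc (0:ℝ) 1) : Measure Bool :=
  ENNReal.ofReal q • Measure.dirac true + ENNReal.ofReal (1 - q) • Measure.dirac false

instance (q : Set.Icc (0:ℝ) 1) : IsProbabilityMeasure (coin q) := by
  constructor
  unfold coin
  simp only [Measure.coe_add, Measure.coe_smul, Pi.add_apply, Pi.smul_apply, measure_univ, smul_eq_mul, mul_one]
  rw [← ENNReal.ofReal_add q.2.1 (by linarith [q.2.2])]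
  simp

lemma pi_card {d : ℕ} [NeZero d] {ι : Type*} [Fintype ι] [DecidableEq ι] (A : Finset (ι → Fin d × Bool)) :
    Measure.pi (fun _ : ι => unif d) (A : Set (ι → Fin d × Bool))
      = A.card * (((2 * d : ℕ) : ENNReal)⁻¹) ^ (Fintype.card ι) := by
  rw [← sum_measure_singleton]
  simp_rw [Measure.pi_singleton, unif_singleton, prod_const, card_univ]
  rw [sum_const, nsmul_eq_mul]

lemma three_prob {d : ℕ} [NeZero d] (b : ℕ → Bool) (R n : ℕ) {i₁ i₂ i₃ : Fin d}
    (h12 : i₁ ≠ i₂) (h13 : i₁ ≠ i₃) (h23 : i₂ ≠ i₃) :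
    Measure.infinitePi (fun _ : ℕ => unif d) {u | |pos b u n i₁| ≤ R ∧ |pos b u n i₂| ≤ R ∧ |pos b u n i₃| ≤ R}
      ≤ ENNReal.ofReal (bet d R (J b n).card) := by
  classical
  set A : Finset (J b n → Fin d × Bool) := univ.filter (fun w => |Z (Lw b n) w i₁| ≤ R ∧
      |Z (Lw b n) w i₂| ≤ R ∧ |Z (Lw b n) w i₃| ≤ R) with hA
  have e1 : {u : ℕ → Fin d × Bool | |pos b u n i₁| ≤ R ∧ |pos b u n i₂| ≤ R ∧ |pos b u n i₃| ≤ R}
      = (J b n).restrict ⁻¹' (A : Set (J b n → Fin d × Bool)) := by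
    ext u
    simp only [pos_eq, hA, coe_filter, mem_univ, true_and, Set.mem_preimage]
    rfl
  rw [e1, ← Measure.map_apply (measurable_restrict _) (Set.toFinite _).measurableSet,
    Measure.infinitePi_map_restrict, pi_card]
  have hd : 1 ≤ d := NeZero.one_le
  have h := count_all (Lw_pos b n) hd R h12 h13 h23
  rw [← hA] at h
  have hcard : Fintype.card (J b n) = (J b n).card := Fintype.card_coe _
  rw [hcard] at h ⊢
  have hbet : (A.card : ℝ) * (((2 * d : ℕ) : ℝ)⁻¹) ^ (J b n).card ≤ bet d R (J b n).card := by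
    have hd' : (0:ℝ) < d := by exact_mod_cast hd
    rw [inv_pow, ← div_eq_mul_inv, div_le_iff₀ (by positivity)]
    push_cast
    linarith
  refine le_trans (le_of_eq ?_) (ENNReal.ofReal_le_ofReal hbet)
  have hd' : (0:ℝ) < ((2 * d : ℕ) : ℝ) := by
    have : (0:ℝ) < d := by exact_mod_cast hd
    push_cast; positivity
  rw [ENNReal.ofReal_mul (by positivity), ENNReal.ofReal_natCast, ENNReal.ofReal_pow (by positivity),
    ENNReal.ofReal_inv_of_pos hd', ENNReal.ofReal_natCast]

lemma bad_prob {d : ℕ} [NeZero d] (b : ℕ → Bool) (R n : ℕ) :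
    Measure.infinitePi (fun _ : ℕ => unif d) (Bad b R n)
      ≤ (d * (d * d) : ℕ) * ENNReal.ofReal (bet d R (J b n).card) := by
  classical
  have hsub : (Bad b R n : Set (ℕ → Fin d × Bool)) ⊆ ⋃ t : Fin d × Fin d × Fin d,
      {u | (t.1 ≠ t.2.1 ∧ t.1 ≠ t.2.2 ∧ t.2.1 ≠ t.2.2) ∧ |pos b u n t.1| ≤ R ∧ |pos b u n t.2.1| ≤ R ∧
        |pos b u n t.2.2| ≤ R} := by
    rintro u ⟨i₁, i₂, i₃, h12, h13, h23, h⟩
    rw [Set.mem_iUnion]
    exact ⟨(i₁, i₂, i₃), ⟨h12, h13, h23⟩, h⟩
  refine (measure_mono hsub).trans ((measure_iUnion_fintype_le _ _).trans ?_)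
  have hb : ∀ t ∈ (univ : Finset (Fin d × Fin d × Fin d)), Measure.infinitePi (fun _ : ℕ => unif d)
      {u | (t.1 ≠ t.2.1 ∧ t.1 ≠ t.2.2 ∧ t.2.1 ≠ t.2.2) ∧ |pos b u n t.1| ≤ R ∧ |pos b u n t.2.1| ≤ R ∧
        |pos b u n t.2.2| ≤ R} ≤ ENNReal.ofReal (bet d R (J b n).card) := by
    intro t _
    by_cases ht : t.1 ≠ t.2.1 ∧ t.1 ≠ t.2.2 ∧ t.2.1 ≠ t.2.2
    · refine (measure_mono ?_).trans (three_prob b R n ht.1 ht.2.1 ht.2.2)
      intro u hu
      exact hu.2
    · have : {u : ℕ → Fin d × Bool | (t.1 ≠ t.2.1 ∧ t.1 ≠ t.2.2 ∧ t.2.1 ≠ t.2.2) ∧ |pos b u n t.1| ≤ R ∧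
        |pos b u n t.2.1| ≤ R ∧ |pos b u n t.2.2| ≤ R} = ∅ := by
        ext u
        simp only [Set.mem_empty_iff_false, iff_false]
        intro hu
        exact ht hu.1
      rw [this]; simp
  refine (sum_le_sum hb).trans ?_
  rw [sum_const, nsmul_eq_mul]
  simp

lemma ae_fixed {d : ℕ} [NeZero d] (hd : 4 ≤ d) (b : ℕ → Bool) :
    ∀ᵐ u ∂(Measure.infinitePi (fun _ : ℕ => unif d)),
      Filter.Tendsto (fun n => nrm (pos b u n)) Filter.atTop Filter.atTop := by
  by_cases hb : ∀ N, ∃ j ≥ N, b j = true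
  · have h1 : ∀ R : ℕ, ∀ᵐ u ∂(Measure.infinitePi (fun _ : ℕ => unif d)),
        {j : {n // b n = true} | u ∈ Bad b R j}.Finite := by
      intro R
      apply ae_finite_setOfPred_mem
      have hs : ∑' N, ENNReal.ofReal (bet d R N) ≠ ⊤ :=
        (bet_summable d R (by omega)).tsum_ofReal_ne_top
      have hinj : Function.Injective (fun j : {n // b n = true} => (J b j).card) := by
        intro j k hjk
        by_contra hne
        have : (j : ℕ) ≠ k := fun h => hne (Subtype.ext h)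
        rcases lt_or_gt_of_ne this with h | h
        · exact absurd hjk (J_card_lt b j.2 h).ne
        · exact absurd hjk (J_card_lt b k.2 h).ne'
      have h2 : ∑' j : {n // b n = true}, Measure.infinitePi (fun _ : ℕ => unif d) (Bad b R j)
          ≤ ((d * (d * d) : ℕ) : ENNReal) * ∑' N, ENNReal.ofReal (bet d R N) := by
        calc _ ≤ ∑' j : {n // b n = true}, ((d * (d * d) : ℕ) : ENNReal) * ENNReal.ofReal (bet d R (J b j).card) :=
              ENNReal.tsum_le_tsum fun j => bad_prob b R j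
          _ = ((d * (d * d) : ℕ) : ENNReal) * ∑' j : {n // b n = true}, ENNReal.ofReal (bet d R (J b j).card) :=
              ENNReal.tsum_mul_left
          _ ≤ _ := by
              gcongr
              exact ENNReal.tsum_comp_le_tsum_of_injective hinj (fun N => ENNReal.ofReal (bet d R N))
      exact ne_top_of_le_ne_top (ENNReal.mul_ne_top (ENNReal.natCast_ne_top _) hs) h2
    filter_upwards [ae_all_iff.2 h1] with u hu
    exact tendsto_of_bad hd b u hb hu
  · push Not at hb
    obtain ⟨N, hN⟩ := hb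
    filter_upwards with u
    exact tendsto_of_const b u ⟨N, fun j hj => by simpa using hN j hj⟩

/-- joint law of the resampling coins and the fresh steps: the coin number `n` (for the step
`Y_{n+1}`) is `true` with probability `p_{n+1}` -/
noncomputable def law (d : ℕ) [NeZero d] (p : ℕ → Set.Icc (0:ℝ) 1) :
    Measure ((ℕ → Bool) × (ℕ → Fin d × Bool)) :=
  (Measure.infinitePi (fun n => coin (p (n + 1)))).prod (Measure.infinitePi (fun _ : ℕ => unif d))

/-- strong transience -/
def StronglyTransient (d : ℕ) [NeZero d] (p : ℕ → Set.Icc (0:ℝ) 1) : Prop :=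
  ∀ᵐ ω ∂(law d p), Filter.Tendsto (fun n => nrm (pos ω.1 ω.2 n)) Filter.atTop Filter.atTop

lemma meas_step (d : ℕ) (n : ℕ) :
    Measurable (fun ω : (ℕ → Bool) × (ℕ → Fin d × Bool) => step ω.1 ω.2 n) := by
  induction n with
  | zero => exact (measurable_pi_apply 0).comp measurable_snd
  | succ n ih =>
    simp only [step]
    refine Measurable.ite ?_ ((measurable_pi_apply (n + 1)).comp measurable_snd) ih
    have h : Measurable (fun ω : (ℕ → Bool) × (ℕ → Fin d × Bool) => ω.1 (n + 1)) :=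
      (measurable_pi_apply (n + 1)).comp measurable_fst
    exact h (measurableSet_singleton true)

lemma meas_pos (d : ℕ) (n : ℕ) (i : Fin d) :
    Measurable (fun ω : (ℕ → Bool) × (ℕ → Fin d × Bool) => pos ω.1 ω.2 n i) := by
  unfold pos
  apply Finset.measurable_fun_sum
  intro k _
  exact (measurable_of_finite (fun a : Fin d × Bool => vec a i)).comp (meas_step d k)

lemma meas_nrm (d : ℕ) (n : ℕ) :
    Measurable (fun ω : (ℕ → Bool) × (ℕ → Fin d × Bool) => nrm (pos ω.1 ω.2 n)) := by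
  unfold nrm
  apply Measurable.sqrt
  apply Finset.measurable_fun_sum
  intro i _
  exact ((measurable_from_top (f := fun z : ℤ => (z:ℝ))).comp (meas_pos d n i)).pow_const 2

lemma st_iff (d : ℕ) [NeZero d] (p : ℕ → Set.Icc (0:ℝ) 1) : StronglyTransient d p ↔
    ∀ᵐ b ∂(Measure.infinitePi (fun n => coin (p (n + 1)))),
      ∀ᵐ u ∂(Measure.infinitePi (fun _ : ℕ => unif d)),
      Filter.Tendsto (fun n => nrm (pos b u n)) Filter.atTop Filter.atTop := by
  unfold StronglyTransient law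
  exact Measure.ae_prod_iff_ae_ae (p := fun ω : (ℕ → Bool) × (ℕ → Fin d × Bool) =>
    Filter.Tendsto (fun n => nrm (pos ω.1 ω.2 n)) Filter.atTop Filter.atTop)
    (measurableSet_tendsto _ (fun n => meas_nrm d n))

theorem st_four (d : ℕ) [NeZero d] (hd : 4 ≤ d) (p : ℕ → Set.Icc (0:ℝ) 1) : StronglyTransient d p := by
  rw [st_iff]
  filter_upwards with b
  exact ae_fixed hd b

end Pool.Agent.X116.Cw
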