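import Pool.Agent.X116.CwD

open Finset MeasureTheory ProbabilityTheory Filter

namespace Pool.Agent.X116.Cw

lemma nrm_one (v : Fin 1 → ℤ) : nrm v = |(v 0 : ℝ)| := by
  unfold nrm
  simp [Real.sqrt_sq_eq_abs]

/-- drift to `+∞` -/
def Up (b : ℕ → Bool) : Set (ℕ → Fin 1 × Bool) :=
  {u | Tendsto (fun n => (pos b u n 0 : ℝ)) atTop atTop}

/-- drift to `-∞` -/
def Dn (b : ℕ → Bool) : Set (ℕ → Fin 1 × Bool) :=
  {u | Tendsto (fun n => (pos b u n 0 : ℝ)) atTop atBot}

lemma meas_posR (b : ℕ → Bool) (n : ℕ) :
    Measurable (fun u : ℕ → Fin 1 × Bool => (pos b u n 0 : ℝ)) :=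
  (measurable_from_top (f := fun z : ℤ => (z:ℝ))).comp
    ((meas_pos 1 n 0).comp (measurable_prodMk_left (x := b)))

lemma meas_Up (b : ℕ → Bool) : MeasurableSet (Up b) :=
  measurableSet_tendsto _ (fun n => meas_posR b n)

/-- the reflection -/
def fl (a : Fin 1 × Bool) : Fin 1 × Bool := (a.1, !a.2)

lemma fl_fl (a : Fin 1 × Bool) : fl (fl a) = a := by simp [fl]

lemma vec_fl (a : Fin 1 × Bool) (i : Fin 1) : vec (fl a) i = - vec a i := by
  unfold vec fl
  rcases a with ⟨j, s⟩
  cases s <;> simp <;> split_ifs <;> simp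

lemma pos_fl (b : ℕ → Bool) (u : ℕ → Fin 1 × Bool) (n : ℕ) (i : Fin 1) :
    pos b (fun m => fl (u m)) n i = - pos b u n i := by
  unfold pos
  simp_rw [step_eq, vec_fl, sum_neg_distrib]

lemma map_fl : (unif 1).map fl = unif 1 := by
  apply Measure.ext_of_singleton
  intro a
  rw [Measure.map_apply (measurable_of_finite _) (measurableSet_singleton a)]
  have : fl ⁻¹' {a} = {fl a} := by
    ext x
    simp only [Set.mem_preimage, Set.mem_singleton_iff]
    constructor
    · rintro rfl; exact (fl_fl x).symm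
    · rintro rfl; exact fl_fl a
  rw [this, unif_singleton, unif_singleton]

lemma mu_Dn (b : ℕ → Bool) :
    Measure.infinitePi (fun _ : ℕ => unif 1) (Dn b) = Measure.infinitePi (fun _ : ℕ => unif 1) (Up b) := by
  have h1 : (Measure.infinitePi (fun _ : ℕ => unif 1)).map (fun u => fun m => fl (u m))
      = Measure.infinitePi (fun _ : ℕ => unif 1) := by
    have h := Measure.infinitePi_map_pi (μ := fun _ : ℕ => unif 1) (f := fun _ : ℕ => fl)
      (fun _ => measurable_of_finite _)
    simp_rw [map_fl] at h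
    exact h
  have hm : Measurable (fun u : ℕ → Fin 1 × Bool => fun m => fl (u m)) :=
    measurable_pi_lambda _ fun m => (measurable_of_finite fl).comp (measurable_pi_apply m)
  conv_rhs => rw [← h1]
  rw [Measure.map_apply hm (meas_Up b)]
  congr 1
  ext u
  simp only [Dn, Up, Set.mem_preimage, Set.mem_ofPred_eq, pos_fl]
  push_cast
  rw [tendsto_neg_atTop_iff]

lemma Up_Dn (b : ℕ → Bool) (u : ℕ → Fin 1 × Bool)
    (h : Tendsto (fun n => nrm (pos b u n)) atTop atTop) : u ∈ Up b ∪ Dn b := by
  simp_rw [nrm_one] at h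
  have hs : ∀ n, pos b u (n + 1) 0 = pos b u n 0 + 1 ∨ pos b u (n + 1) 0 = pos b u n 0 - 1 := by
    intro n
    have : pos b u (n + 1) 0 = pos b u n 0 + vec (step b u n) 0 := by
      unfold pos
      rw [sum_range_succ]
    rw [this]
    have hv : vec (step b u n) 0 = 1 ∨ vec (step b u n) 0 = -1 := by
      unfold vec
      have : (step b u n).1 = 0 := Subsingleton.elim _ _
      rw [if_pos this]
      split_ifs
      · left; rfl
      · right; rfl
    rcases hv with hv | hv
    · left; rw [hv]
    · right; rw [hv]; ring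
  obtain ⟨K, hK⟩ := (h.eventually_ge_atTop 2).exists_forall_of_atTop
  have hK' : ∀ n ≥ K, 2 ≤ |pos b u n 0| := by
    intro n hn
    have := hK n hn
    exact_mod_cast this
  rcases le_total 0 (pos b u K 0) with h0 | h0
  · left
    have h2 : ∀ m, 0 ≤ pos b u (K + m) 0 := by
      intro m
      induction m with
      | zero => exact h0
      | succ m ih =>
        have a1 := hK' (K + m) (by omega)
        rw [abs_of_nonneg ih] at a1
        rcases hs (K + m) with h | h
        · rw [← add_assoc, h]; omega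
        · rw [← add_assoc, h]; omega
    refine h.congr' ?_
    filter_upwards [eventually_ge_atTop K] with n hn
    obtain ⟨m, rfl⟩ : ∃ m, n = K + m := ⟨n - K, by omega⟩
    rw [abs_of_nonneg]
    exact_mod_cast h2 m
  · right
    have h2 : ∀ m, pos b u (K + m) 0 ≤ 0 := by
      intro m
      induction m with
      | zero => exact h0
      | succ m ih =>
        have a1 := hK' (K + m) (by omega)
        rw [abs_of_nonpos ih] at a1
        rcases hs (K + m) with h | h
        · rw [← add_assoc, h]; omega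
        · rw [← add_assoc, h]; omega
    have h3 := tendsto_neg_atTop_atBot.comp h
    refine h3.congr' ?_
    filter_upwards [eventually_ge_atTop K] with n hn
    obtain ⟨m, rfl⟩ : ∃ m, n = K + m := ⟨n - K, by omega⟩
    simp only [Function.comp]
    rw [abs_of_nonpos, neg_neg]
    exact_mod_cast h2 m

/-- changing finitely many coordinates does not matter -/
lemma Up_congr (b : ℕ → Bool) (hb : ∀ N, ∃ j ≥ N, b j = true) (N : ℕ)
    (u v : ℕ → Fin 1 × Bool) (huv : ∀ n ≥ N, u n = v n) (hu : u ∈ Up b) : v ∈ Up b := by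
  obtain ⟨j, hj, hjb⟩ := hb N
  have h1 : ∀ m, pos b v (j + m) 0 = pos b u (j + m) 0 + (pos b v j 0 - pos b u j 0) := by
    intro m
    induction m with
    | zero => simp
    | succ m ih =>
      have e : ∀ w : ℕ → Fin 1 × Bool, pos b w (j + (m + 1)) 0 = pos b w (j + m) 0 + vec (step b w (j + m)) 0 := by
        intro w
        unfold pos
        rw [← add_assoc, sum_range_succ]
      have e2 : step b v (j + m) = step b u (j + m) := by
        rw [step_eq, step_eq]
        have := r_mono b (show j ≤ j + m by omega)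
        rw [r_self b hjb] at this
        rw [huv _ (by omega)]
      rw [e, e, e2, ih]
      ring
  have h2 : Tendsto (fun n => (pos b u n 0 : ℝ) + ((pos b v j 0 - pos b u j 0 : ℤ) : ℝ)) atTop atTop :=
    tendsto_atTop_add_const_right _ _ hu
  refine h2.congr' ?_
  filter_upwards [eventually_ge_atTop j] with n hn
  obtain ⟨m, rfl⟩ : ∃ m, n = j + m := ⟨n - j, by omega⟩
  rw [h1 m]
  push_cast
  ring

lemma Up_01 (b : ℕ → Bool) (hb : ∀ N, ∃ j ≥ N, b j = true) :
    Measure.infinitePi (fun _ : ℕ => unif 1) (Up b) = 0 ∨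
      Measure.infinitePi (fun _ : ℕ => unif 1) (Up b) = 1 := by
  have hind : iIndepFun (fun (i : ℕ) (u : ℕ → Fin 1 × Bool) => u i) (Measure.infinitePi (fun _ : ℕ => unif 1)) :=
    iIndepFun_infinitePi (P := fun _ : ℕ => unif 1) (X := fun _ ω => ω) (fun _ => measurable_id)
  apply measure_zero_or_one_of_measurableSet_limsup_atTop (s := fun n : ℕ =>
    MeasurableSpace.comap (fun u : ℕ → Fin 1 × Bool => u n) inferInstance)
  · intro n
    exact (measurable_pi_apply n).comap_le
  · exact hind
  · rw [Filter.limsup_eq_iInf_iSup_of_nat]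
    rw [MeasurableSpace.measurableSet_iInf]
    intro N
    have h1 : Up b = (fun u : ℕ → Fin 1 × Bool => fun n => if n < N then ((0 : Fin 1), true) else u n) ⁻¹' (Up b) := by
      ext u
      simp only [Set.mem_preimage]
      constructor
      · intro hu
        exact Up_congr b hb N _ _ (fun n hn => by rw [if_neg (by omega)]) hu
      · intro hu
        exact Up_congr b hb N _ _ (fun n hn => by rw [if_neg (by omega)]) hu
    rw [h1]
    have h2 : @Measurable _ _ (⨆ i, ⨆ (_ : i ≥ N), MeasurableSpace.comap (fun u : ℕ → Fin 1 × Bool => u i) inferInstance)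
        inferInstance (fun u : ℕ → Fin 1 × Bool => fun n => if n < N then ((0 : Fin 1), true) else u n) := by
      refine @measurable_pi_lambda _ _ _ (_) _ _ ?_
      intro n
      by_cases hn : n < N
      · simp only [hn, if_true]
        exact @measurable_const _ _ _ (_) _
      · simp only [hn, if_false]
        have h3 : MeasurableSpace.comap (fun u : ℕ → Fin 1 × Bool => u n) inferInstance ≤
            (⨆ i, ⨆ (_ : i ≥ N), MeasurableSpace.comap (fun u : ℕ → Fin 1 × Bool => u i) inferInstance) :=
          le_iSup₂_of_le n (by omega) le_rfl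
        exact (comap_measurable (fun u : ℕ → Fin 1 × Bool => u n)).mono h3 le_rfl
    exact h2 (meas_Up b)

lemma not_ae_one (b : ℕ → Bool) (hb : ∀ N, ∃ j ≥ N, b j = true) :
    ¬ ∀ᵐ u ∂(Measure.infinitePi (fun _ : ℕ => unif 1)), Tendsto (fun n => nrm (pos b u n)) atTop atTop := by
  intro h
  set μ := Measure.infinitePi (fun _ : ℕ => unif 1) with hμ
  have h1 : ∀ᵐ u ∂μ, u ∈ Up b ∪ Dn b := h.mono fun u hu => Up_Dn b u hu
  have h2 : μ (Up b ∪ Dn b) = 1 := by
    rw [← measure_univ (μ := μ)]
    apply measure_congr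
    rw [eventuallyEq_univ]
    exact h1
  have hD := mu_Dn b
  have hdisj : Disjoint (Up b) (Dn b) := by
    rw [Set.disjoint_left]
    intro u hu hu'
    exact Tendsto.not_tendsto hu disjoint_atTop_atBot hu'
  rw [measure_union' hdisj (meas_Up b), hD] at h2
  rcases Up_01 b hb with h | h
  · rw [h] at h2; simp at h2
  · rw [h] at h2; norm_num at h2

lemma coin_true (q : Set.Icc (0:ℝ) 1) : coin q {true} = ENNReal.ofReal q := by
  unfold coin
  simp

/-- the event that coin `n` is `true` -/
def Ev (n : ℕ) : Set (ℕ → Bool) := {b | b n = true}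

lemma meas_Ev (n : ℕ) : MeasurableSet (Ev n) := by
  have h : Measurable (fun b : ℕ → Bool => b n) := measurable_pi_apply n
  exact h (measurableSet_singleton true)

lemma mu_Ev (p : ℕ → Set.Icc (0:ℝ) 1) (n : ℕ) :
    Measure.infinitePi (fun n => coin (p (n + 1))) (Ev n) = ENNReal.ofReal (p (n + 1)) := by
  rw [← coin_true (p (n + 1)), ← Measure.infinitePi_map_eval (fun n => coin (p (n + 1))) n,
    Measure.map_apply (measurable_pi_apply n) (measurableSet_singleton true)]
  rfl

lemma indep_Ev (p : ℕ → Set.Icc (0:ℝ) 1) :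
    iIndepSet Ev (Measure.infinitePi (fun n => coin (p (n + 1)))) := by
  rw [iIndepSet_iff_meas_biInter meas_Ev]
  intro s
  have h := Measure.infinitePi_pi (μ := fun n => coin (p (n + 1))) (s := s) (t := fun _ => {true})
    (fun _ _ => measurableSet_singleton true)
  have e : (⋂ i ∈ s, Ev i) = Set.pi (s : Set ℕ) (fun _ => {true}) := by
    ext b
    simp [Ev, Set.mem_pi]
  rw [e, h]
  apply prod_congr rfl
  intro i _
  rw [mu_Ev, coin_true]

lemma often (p : ℕ → Set.Icc (0:ℝ) 1) (hp : ¬ Summable (fun n => (p n : ℝ))) :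
    ∀ᵐ b ∂(Measure.infinitePi (fun n => coin (p (n + 1)))), ∀ N, ∃ j ≥ N, b j = true := by
  have h1 : (∑' n, Measure.infinitePi (fun n => coin (p (n + 1))) (Ev n)) = ⊤ := by
    by_contra hne
    apply hp
    rw [← summable_nat_add_iff 1]
    have := ENNReal.summable_toReal hne
    refine this.congr fun n => ?_
    rw [mu_Ev, ENNReal.toReal_ofReal (p (n + 1)).2.1]
  have h2 := measure_limsup_eq_one meas_Ev (indep_Ev p) h1
  have h3 : ∀ᵐ b ∂(Measure.infinitePi (fun n => coin (p (n + 1)))), b ∈ limsup Ev atTop := by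
    rw [← prob_compl_eq_zero_iff (MeasurableSet.measurableSet_limsup meas_Ev)] at h2
    exact h2
  filter_upwards [h3] with b hb
  rw [mem_limsup_iff_frequently_mem, frequently_atTop] at hb
  exact hb

lemma st_of_summable (d : ℕ) [NeZero d] (p : ℕ → Set.Icc (0:ℝ) 1) (hp : Summable (fun n => (p n : ℝ))) :
    StronglyTransient d p := by
  rw [st_iff]
  have h1 : (∑' n, Measure.infinitePi (fun n => coin (p (n + 1))) (Ev n)) ≠ ⊤ := by
    simp_rw [mu_Ev]
    exact ((summable_nat_add_iff 1).2 hp).tsum_ofReal_ne_top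
  have h2 := ae_finite_setOfPred_mem h1
  filter_upwards [h2] with b hb
  filter_upwards with u
  apply tendsto_of_const
  obtain ⟨M, hM⟩ := hb.bddAbove
  refine ⟨M + 1, fun j hj => ?_⟩
  by_contra hne
  have : b j = true := by simpa using hne
  have := hM (show j ∈ {i | b ∈ Ev i} from this)
  omega

theorem st_one_iff (p : ℕ → Set.Icc (0:ℝ) 1) :
    StronglyTransient 1 p ↔ Summable (fun n => (p n : ℝ)) := by
  constructor
  · intro h
    by_contra hp
    rw [st_iff] at h
    obtain ⟨b, hb1, hb2⟩ := (h.and (often p hp)).exists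
    exact not_ae_one b hb2 hb1
  · exact st_of_summable 1 p

end Pool.Agent.X116.Cw
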