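import Mathlib

/-!
# Logarithmic energy of sums of circle measures
-/

set_option autoImplicit false

namespace Pool.Agent.X116.Fd

open MeasureTheory Filter Topology Set
open scoped Real ENNReal

/-- `μ` has finite logarithmic energy: `(z, w) ↦ log |z - w|` is finite almost everywhere and
integrable for `μ × μ`. -/
def FiniteEnergy (μ : Measure ℂ) : Prop :=
  (μ.prod μ) {p | p.1 = p.2} = 0 ∧
    Integrable (fun p : ℂ × ℂ => Real.log ‖p.1 - p.2‖) (μ.prod μ)

/-- The energy `I(μ) = ∬ log |z - w| dμ(w) dμ(z)`. -/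
noncomputable def energy (μ : Measure ℂ) : ℝ := ∫ p : ℂ × ℂ, Real.log ‖p.1 - p.2‖ ∂(μ.prod μ)

/-- Logarithmic capacity: the supremum of `exp (I(μ))` over the Borel probability measures `μ` on
`E` of finite energy (`0` if there are none). -/
noncomputable def cap (E : Set ℂ) : ℝ :=
  sSup {c | ∃ μ : Measure ℂ, IsProbabilityMeasure μ ∧ μ Eᶜ = 0 ∧ FiniteEnergy μ ∧
    c = Real.exp (energy μ)}

/-- The `n`-th diameter. -/
noncomputable def diam (n : ℕ) (E : Set ℂ) : ℝ :=
  sSup {d | ∃ w : Fin n → ℂ, (∀ j, w j ∈ E) ∧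
    d = ∏ j, ∏ k ∈ Finset.Ioi j, ‖w j - w k‖ ^ (2 / ((n : ℝ) * (n - 1)))}

/-- Normalised arc length on the circle of centre `c` and radius `ρ`. -/
noncomputable def circ (c : ℂ) (ρ : ℝ) : Measure ℂ :=
  ENNReal.ofReal ((2 * π)⁻¹) • (volume.restrict (Ioc 0 (2 * π))).map (circleMap c ρ)

theorem meas_circleMap (c : ℂ) (ρ : ℝ) : Measurable (circleMap c ρ) :=
  (continuous_circleMap c ρ).measurable

instance circ_prob (c : ℂ) (ρ : ℝ) : IsProbabilityMeasure (circ c ρ) := by
  constructor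
  unfold circ
  rw [Measure.smul_apply, Measure.map_apply (meas_circleMap c ρ) MeasurableSet.univ, preimage_univ,
    Measure.restrict_apply_univ, Real.volume_Ioc, smul_eq_mul, sub_zero,
    ← ENNReal.ofReal_mul (by positivity), inv_mul_cancel₀ (by positivity), ENNReal.ofReal_one]

theorem circ_integral (c : ℂ) (ρ : ℝ) {f : ℂ → ℝ} (hf : Measurable f) :
    ∫ z, f z ∂(circ c ρ) = Real.circleAverage f c ρ := by
  unfold circ
  rw [integral_smul_measure, integral_map (meas_circleMap c ρ).aemeasurable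
    hf.aestronglyMeasurable, ENNReal.toReal_ofReal (by positivity), Real.circleAverage_def,
    intervalIntegral.integral_of_le (by positivity)]

theorem circ_integrable (c : ℂ) (ρ : ℝ) {f : ℂ → ℝ} (hf : Measurable f)
    (hi : CircleIntegrable f c ρ) : Integrable f (circ c ρ) := by
  unfold circ
  refine Integrable.smul_measure ?_ ENNReal.ofReal_ne_top
  rw [integrable_map_measure hf.aestronglyMeasurable (meas_circleMap c ρ).aemeasurable]
  unfold CircleIntegrable at hi
  rwa [intervalIntegrable_iff_integrableOn_Ioc_of_le (by positivity)] at hi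

theorem circ_ae (c : ℂ) (ρ : ℝ) : ∀ᵐ z ∂(circ c ρ), ‖z - c‖ = |ρ| := by
  unfold circ
  refine Measure.ae_smul_measure ?_ _
  rw [ae_map_iff (meas_circleMap c ρ).aemeasurable]
  · refine Eventually.of_forall fun θ => ?_
    simp
  · exact measurableSet_eq_fun (by fun_prop) measurable_const

theorem circ_ne (c : ℂ) {ρ : ℝ} (hρ : ρ ≠ 0) (a : ℂ) : ∀ᵐ z ∂(circ c ρ), z ≠ a := by
  unfold circ
  refine Measure.ae_smul_measure ?_ _
  rw [ae_map_iff (meas_circleMap c ρ).aemeasurable]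
  · refine ae_restrict_of_ae ?_
    have h1 := (countable_singleton a).preimage_circleMap c hρ
    have h2 := h1.ae_notMem (volume : Measure ℝ)
    filter_upwards [h2] with θ hθ h
    exact hθ h
  · exact (measurableSet_singleton a).compl

theorem meas_log (a : ℂ) : Measurable (fun z : ℂ => Real.log ‖z - a‖) := by fun_prop

theorem circ_log_integrable (c : ℂ) (ρ : ℝ) (a : ℂ) :
    Integrable (fun z => Real.log ‖z - a‖) (circ c ρ) :=
  circ_integrable c ρ (meas_log a) (circleIntegrable_log_norm_sub_const ρ)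

theorem circ_log (c : ℂ) {ρ : ℝ} (hρ : ρ ≠ 0) (a : ℂ) :
    ∫ z, Real.log ‖z - a‖ ∂(circ c ρ) = Real.log ρ + Real.posLog (ρ⁻¹ * ‖c - a‖) := by
  rw [circ_integral c ρ (meas_log a)]
  exact circleAverage_log_norm_sub_const_eq_log_radius_add_posLog hρ

/-- lower bound for the potential of a circle -/
theorem circ_log_ge (c : ℂ) {ρ : ℝ} (hρ : 0 < ρ) {a : ℂ} (ha : c ≠ a) :
    Real.log ‖c - a‖ ≤ ∫ z, Real.log ‖z - a‖ ∂(circ c ρ) := by
  rw [circ_log c hρ.ne' a]
  have h1 : 0 < ‖c - a‖ := norm_pos_iff.2 (sub_ne_zero.2 ha)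
  have h2 : Real.log (ρ⁻¹ * ‖c - a‖) ≤ Real.posLog (ρ⁻¹ * ‖c - a‖) := le_max_right _ _
  rw [Real.log_mul (by positivity) h1.ne', Real.log_inv] at h2
  linarith

theorem circ_log_ge' (c : ℂ) {ρ : ℝ} (hρ : 0 < ρ) (a : ℂ) :
    Real.log ρ ≤ ∫ z, Real.log ‖z - a‖ ∂(circ c ρ) := by
  rw [circ_log c hρ.ne' a]
  have : 0 ≤ Real.posLog (ρ⁻¹ * ‖c - a‖) := Real.posLog_nonneg
  linarith

/-- bound for the integral of the absolute value -/
theorem circ_log_abs (c : ℂ) {ρ : ℝ} (hρ : 0 < ρ) (a : ℂ) :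
    ∫ z, ‖Real.log ‖z - a‖‖ ∂(circ c ρ) ≤ 2 * (‖c - a‖ + ρ) - Real.log ρ := by
  have h1 : ∀ᵐ z ∂(circ c ρ), ‖Real.log ‖z - a‖‖ ≤ 2 * (‖c - a‖ + ρ) - Real.log ‖z - a‖ := by
    filter_upwards [circ_ae c ρ] with z hz
    have h2 : ‖z - a‖ ≤ ‖c - a‖ + ρ := by
      have : z - a = (z - c) + (c - a) := by ring
      rw [this]
      refine (norm_add_le _ _).trans ?_
      rw [hz, abs_of_pos hρ]
      linarith
    have h3 : Real.log ‖z - a‖ ≤ ‖z - a‖ := Real.log_le_self (norm_nonneg _)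
    rw [Real.norm_eq_abs]
    rcases abs_cases (Real.log ‖z - a‖) with h | h
    · rw [h.1]
      linarith
    · rw [h.1]
      have : 0 ≤ ‖c - a‖ := norm_nonneg _
      linarith
  have h4 : ∫ z, ‖Real.log ‖z - a‖‖ ∂(circ c ρ) ≤
      ∫ z, (2 * (‖c - a‖ + ρ) - Real.log ‖z - a‖) ∂(circ c ρ) :=
    integral_mono_ae (circ_log_integrable c ρ a).norm
      ((integrable_const (2 * (‖c - a‖ + ρ))).sub (circ_log_integrable c ρ a)) h1
  refine h4.trans ?_
  rw [integral_sub (integrable_const _) (circ_log_integrable c ρ a), integral_const]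
  simp only [probReal_univ, smul_eq_mul, one_mul]
  have := circ_log_ge' c hρ a
  linarith

/-- the average of circle measures -/
noncomputable def avg {n : ℕ} (c : Fin n → ℂ) (ρ : ℝ) : Measure ℂ :=
  ((n : ℝ≥0∞)⁻¹) • ∑ j, circ (c j) ρ

theorem avg_prob {n : ℕ} (hn : n ≠ 0) (c : Fin n → ℂ) (ρ : ℝ) :
    IsProbabilityMeasure (avg c ρ) := by
  constructor
  unfold avg
  rw [Measure.smul_apply, Measure.finsetSum_apply]
  simp only [measure_univ, Finset.sum_const, Finset.card_univ, Fintype.card_fin, smul_eq_mul,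
    nsmul_eq_mul, mul_one]
  exact ENNReal.inv_mul_cancel (by exact_mod_cast hn) (ENNReal.natCast_ne_top n)

theorem avg_integral {n : ℕ} (c : Fin n → ℂ) (ρ : ℝ) {f : ℂ → ℝ}
    (hf : ∀ j, Integrable f (circ (c j) ρ)) :
    ∫ z, f z ∂(avg c ρ) = (n : ℝ)⁻¹ * ∑ j, ∫ z, f z ∂(circ (c j) ρ) := by
  unfold avg
  rw [integral_smul_measure, integral_finsetSum_measure fun j _ => hf j]
  simp

theorem avg_integrable {n : ℕ} (hn : n ≠ 0) (c : Fin n → ℂ) (ρ : ℝ) {f : ℂ → ℝ}
    (hf : ∀ j, Integrable f (circ (c j) ρ)) : Integrable f (avg c ρ) := by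
  unfold avg
  refine Integrable.smul_measure ?_ (ENNReal.inv_ne_top.2 (by exact_mod_cast hn))
  exact integrable_finsetSum_measure.2 fun j _ => hf j

theorem avg_ae {n : ℕ} (c : Fin n → ℂ) (ρ : ℝ) {P : ℂ → Prop}
    (h : ∀ j, ∀ᵐ z ∂(circ (c j) ρ), P z) : ∀ᵐ z ∂(avg c ρ), P z := by
  unfold avg
  refine Measure.ae_smul_measure ?_ _
  rw [ae_iff, Measure.finsetSum_apply]
  exact Finset.sum_eq_zero fun j _ => h j

theorem avg_finite {n : ℕ} (hn : n ≠ 0) (c : Fin n → ℂ) {ρ : ℝ} (hρ : 0 < ρ) :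
    FiniteEnergy (avg c ρ) := by
  have hp := avg_prob hn c ρ
  have hmeas : Measurable (fun p : ℂ × ℂ => Real.log ‖p.1 - p.2‖) := by fun_prop
  have hfib : ∀ z : ℂ, ∀ j, Integrable (fun w => Real.log ‖z - w‖) (circ (c j) ρ) := by
    intro z j
    refine (circ_log_integrable (c j) ρ z).congr (Eventually.of_forall fun w => ?_)
    simp only
    rw [norm_sub_rev]
  constructor
  · rw [Measure.measure_prod_null (measurableSet_eq_fun measurable_fst measurable_snd)]
    refine Eventually.of_forall fun z => ?_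
    have h1 : Prod.mk z ⁻¹' {p : ℂ × ℂ | p.1 = p.2} = {w | ¬ (w ≠ z)} := by
      ext w
      simp [eq_comm]
    show (avg c ρ) (Prod.mk z ⁻¹' {p : ℂ × ℂ | p.1 = p.2}) = 0
    rw [h1]
    exact avg_ae c ρ fun j => circ_ne (c j) hρ.ne' z
  · rw [integrable_prod_iff hmeas.aestronglyMeasurable]
    refine ⟨Eventually.of_forall fun z => avg_integrable hn c ρ (hfib z), ?_⟩
    have hsm : AEStronglyMeasurable (fun z => ∫ w, ‖Real.log ‖z - w‖‖ ∂(avg c ρ)) (avg c ρ) :=
      (hmeas.norm.stronglyMeasurable.integral_prod_right'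
        (f := fun p : ℂ × ℂ => ‖Real.log ‖p.1 - p.2‖‖)).aestronglyMeasurable
    have hb : ∀ z : ℂ, ∀ j, ‖∫ w, ‖Real.log ‖z - w‖‖ ∂(avg c ρ)‖ ≤
        (n : ℝ)⁻¹ * ∑ k, (2 * ((‖c k - c j‖ + ‖z - c j‖) + ρ) - Real.log ρ) := by
      intro z j
      rw [Real.norm_of_nonneg (integral_nonneg fun _ => norm_nonneg _),
        avg_integral c ρ fun k => (hfib z k).norm]
      refine mul_le_mul_of_nonneg_left (Finset.sum_le_sum fun k _ => ?_) (by positivity)
      have h2 := circ_log_abs (c k) hρ z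
      have h3 : ∫ w, ‖Real.log ‖z - w‖‖ ∂(circ (c k) ρ) =
          ∫ w, ‖Real.log ‖w - z‖‖ ∂(circ (c k) ρ) := by
        congr 1
        ext w
        rw [norm_sub_rev]
      rw [h3]
      refine h2.trans ?_
      have h4 : ‖c k - z‖ ≤ ‖c k - c j‖ + ‖z - c j‖ := by
        have : c k - z = (c k - c j) - (z - c j) := by ring
        rw [this]
        exact norm_sub_le _ _
      linarith
    refine avg_integrable hn c ρ fun j => ?_
    have hsmj : AEStronglyMeasurable (fun z => ∫ w, ‖Real.log ‖z - w‖‖ ∂(avg c ρ)) (circ (c j) ρ) :=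
      (hmeas.norm.stronglyMeasurable.integral_prod_right'
        (f := fun p : ℂ × ℂ => ‖Real.log ‖p.1 - p.2‖‖)).aestronglyMeasurable
    refine Integrable.of_bound hsmj
      ((n : ℝ)⁻¹ * ∑ k, (2 * ((‖c k - c j‖ + ρ) + ρ) - Real.log ρ)) ?_
    filter_upwards [circ_ae (c j) ρ] with z hz
    have := hb z j
    rw [hz, abs_of_pos hρ] at this
    exact this

/-- lower bound for the energy of an average of circle measures -/
theorem avg_energy {n : ℕ} (hn : n ≠ 0) (c : Fin n → ℂ) (hc : Function.Injective c) {ρ : ℝ}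
    (hρ : 0 < ρ) :
    (n : ℝ)⁻¹ * ((n : ℝ)⁻¹ * ∑ j, ∑ k, (if j = k then Real.log ρ else Real.log ‖c j - c k‖)) ≤
      energy (avg c ρ) := by
  have hp := avg_prob hn c ρ
  have hfin := avg_finite hn c hρ
  have hfib : ∀ z : ℂ, ∀ j, Integrable (fun w => Real.log ‖z - w‖) (circ (c j) ρ) := by
    intro z j
    refine (circ_log_integrable (c j) ρ z).congr (Eventually.of_forall fun w => ?_)
    simp only
    rw [norm_sub_rev]
  -- potential of the `k`-th circle
  set u : Fin n → ℂ → ℝ := fun k z => Real.log ρ + Real.posLog (ρ⁻¹ * ‖c k - z‖) with hu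
  have hpot : ∀ k z, ∫ w, Real.log ‖z - w‖ ∂(circ (c k) ρ) = u k z := by
    intro k z
    have h1 : ∫ w, Real.log ‖w - z‖ ∂(circ (c k) ρ) = u k z := circ_log (c k) hρ.ne' z
    rw [← h1]
    congr 1
    ext w
    rw [norm_sub_rev]
  have hui : ∀ k j, Integrable (u k) (circ (c j) ρ) := by
    intro k j
    refine circ_integrable _ _ (by fun_prop) ?_
    refine ContinuousOn.circleIntegrable' ?_
    have : Continuous (u k) := by fun_prop
    exact this.continuousOn
  have h1 : energy (avg c ρ) = ∫ z, (n : ℝ)⁻¹ * ∑ k, u k z ∂(avg c ρ) := by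
    unfold energy
    rw [integral_prod _ hfin.2]
    congr 1
    ext z
    rw [avg_integral c ρ (hfib z)]
    congr 1
    exact Finset.sum_congr rfl fun k _ => hpot k z
  rw [h1, integral_const_mul]
  refine mul_le_mul_of_nonneg_left ?_ (by positivity)
  rw [avg_integral c ρ fun j => integrable_finsetSum _ fun k _ => hui k j]
  refine mul_le_mul_of_nonneg_left (Finset.sum_le_sum fun j _ => ?_) (by positivity)
  rw [integral_finsetSum _ fun k _ => hui k j]
  refine Finset.sum_le_sum fun k _ => ?_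
  split_ifs with hjk
  · have h2 : ∀ z, Real.log ρ ≤ u k z := by
      intro z
      have : 0 ≤ Real.posLog (ρ⁻¹ * ‖c k - z‖) := Real.posLog_nonneg
      rw [hu]
      simp only
      linarith
    calc Real.log ρ = ∫ _, Real.log ρ ∂(circ (c j) ρ) := by simp
      _ ≤ _ := integral_mono (integrable_const _) (hui k j) h2
  · have hne : c j ≠ c k := fun h => hjk (hc h)
    refine (circ_log_ge (c j) hρ hne).trans ?_
    refine integral_mono_ae (circ_log_integrable (c j) ρ (c k)) (hui k j) ?_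
    filter_upwards [circ_ne (c j) hρ.ne' (c k)] with z hz
    have h3 : 0 < ‖c k - z‖ := norm_pos_iff.2 (sub_ne_zero.2 hz.symm)
    have h4 : Real.log (ρ⁻¹ * ‖c k - z‖) ≤ Real.posLog (ρ⁻¹ * ‖c k - z‖) := le_max_right _ _
    rw [Real.log_mul (by positivity) h3.ne', Real.log_inv] at h4
    rw [hu]
    simp only
    rw [norm_sub_rev z]
    linarith

end Pool.Agent.X116.Fd
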