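import Pool.Agent.X116.FdA

/-!
# Capacity and `n`-th diameter of neighbourhoods
-/

set_option autoImplicit false

namespace Pool.Agent.X116.Fd

open MeasureTheory Filter Topology Set
open scoped Real ENNReal

theorem pair_sum {n : ℕ} (a : ℝ) (f : Fin n → Fin n → ℝ) (hf : ∀ j k, f j k = f k j) :
    ∑ j, ∑ k, (if j = k then a else f j k) = n * a + 2 * ∑ j, ∑ k ∈ Finset.Ioi j, f j k := by
  have h1 : ∀ j : Fin n, ∑ k, (if j = k then a else f j k) =
      a + ∑ k ∈ Finset.Ioi j, f j k + ∑ k ∈ Finset.Iio j, f j k := by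
    intro j
    have h2 : ∀ k : Fin n, (if j = k then a else f j k) =
        (if j = k then a else 0) + (if j < k then f j k else 0) + (if k < j then f j k else 0) := by
      intro k
      rcases lt_trichotomy j k with h | h | h
      · simp [h, h.ne, h.le, not_lt.2 h.le]
      · simp [h]
      · simp [h, h.ne', h.le, not_lt.2 h.le]
    simp only [h2, Finset.sum_add_distrib]
    congr 1
    · congr 1
      · simp
      · rw [← Finset.sum_filter]
        congr 1
        ext k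
        simp
    · rw [← Finset.sum_filter]
      congr 1
      ext k
      simp
  simp only [h1, Finset.sum_add_distrib]
  have h3 : ∑ j, ∑ k ∈ Finset.Iio j, f j k = ∑ j, ∑ k ∈ Finset.Ioi j, f j k := by
    rw [Finset.sum_comm' (s' := fun k => Finset.Ioi k) (t' := Finset.univ)]
    · refine Finset.sum_congr rfl fun j _ => Finset.sum_congr rfl fun k _ => hf _ _
    · intro x y
      simp
  rw [h3]
  simp
  ring

theorem pair_count (n : ℕ) : ∑ j : Fin n, ∑ _k ∈ Finset.Ioi j, (1 : ℝ) = n * (n - 1) / 2 := by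
  have h := pair_sum (n := n) 1 (fun _ _ => 1) (fun _ _ => rfl)
  simp only [ite_self] at h
  simp only [Finset.sum_const, Finset.card_univ, Fintype.card_fin, nsmul_eq_mul, mul_one] at h ⊢
  linarith

theorem prod_eq_exp {n : ℕ} (w : Fin n → ℂ) (hw : Function.Injective w) (e : ℝ) :
    ∏ j, ∏ k ∈ Finset.Ioi j, ‖w j - w k‖ ^ e =
      Real.exp (e * ∑ j, ∑ k ∈ Finset.Ioi j, Real.log ‖w j - w k‖) := by
  rw [Finset.mul_sum, Real.exp_sum]
  refine Finset.prod_congr rfl fun j _ => ?_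
  rw [Finset.mul_sum, Real.exp_sum]
  refine Finset.prod_congr rfl fun k hk => ?_
  have h1 : j ≠ k := (Finset.mem_Ioi.1 hk).ne
  have h2 : 0 < ‖w j - w k‖ := norm_pos_iff.2 (sub_ne_zero.2 fun h => h1 (hw h))
  rw [Real.rpow_def_of_pos h2, mul_comm]

theorem energy_le {E : Set ℂ} {D : ℝ} (hD : ∀ z ∈ E, ∀ w ∈ E, ‖z - w‖ ≤ D) {μ : Measure ℂ}
    (hp : IsProbabilityMeasure μ) (hE : μ Eᶜ = 0) (hf : FiniteEnergy μ) : energy μ ≤ D := by
  have h1 : ∀ᵐ z ∂μ, z ∈ E := by
    rw [ae_iff]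
    exact hE
  have h2 : ∀ᵐ p ∂(μ.prod μ), p.1 ∈ E ∧ p.2 ∈ E := by
    have h3 : ∀ᵐ p ∂(μ.prod μ), p.1 ∈ E :=
      Measure.quasiMeasurePreserving_fst.ae h1
    have h4 : ∀ᵐ p ∂(μ.prod μ), p.2 ∈ E :=
      Measure.quasiMeasurePreserving_snd.ae h1
    filter_upwards [h3, h4] with p h5 h6
    exact ⟨h5, h6⟩
  unfold energy
  calc ∫ p : ℂ × ℂ, Real.log ‖p.1 - p.2‖ ∂(μ.prod μ) ≤ ∫ _, D ∂(μ.prod μ) := by
        refine integral_mono_ae hf.2 (integrable_const _) ?_
        filter_upwards [h2] with p hp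
        exact (Real.log_le_self (norm_nonneg _)).trans (hD _ hp.1 _ hp.2)
    _ = D := by simp

theorem le_cap {E : Set ℂ} {D : ℝ} (hD : ∀ z ∈ E, ∀ w ∈ E, ‖z - w‖ ≤ D) {μ : Measure ℂ}
    (hp : IsProbabilityMeasure μ) (hE : μ Eᶜ = 0) (hf : FiniteEnergy μ) :
    Real.exp (energy μ) ≤ cap E := by
  refine le_csSup ⟨Real.exp D, ?_⟩ ⟨μ, hp, hE, hf, rfl⟩
  rintro c ⟨ν, h1, h2, h3, rfl⟩
  exact Real.exp_le_exp.2 (energy_le hD h1 h2 h3)

theorem diam_bdd {n : ℕ} (hn : 2 ≤ n) {E : Set ℂ} {D : ℝ} (hD : ∀ z ∈ E, ∀ w ∈ E, ‖z - w‖ ≤ D) :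
    BddAbove {d | ∃ w : Fin n → ℂ, (∀ j, w j ∈ E) ∧
      d = ∏ j, ∏ k ∈ Finset.Ioi j, ‖w j - w k‖ ^ (2 / ((n : ℝ) * (n - 1)))} := by
  have hn' : (2 : ℝ) ≤ n := by exact_mod_cast hn
  have he : 0 ≤ 2 / ((n : ℝ) * (n - 1)) := div_nonneg (by norm_num) (by nlinarith)
  refine ⟨∏ j : Fin n, ∏ _k ∈ Finset.Ioi j, D ^ (2 / ((n : ℝ) * (n - 1))), ?_⟩
  rintro d ⟨w, hw, rfl⟩
  refine Finset.prod_le_prod (fun j _ => Finset.prod_nonneg fun k _ => by positivity) fun j _ => ?_
  refine Finset.prod_le_prod (fun k _ => by positivity) fun k _ => ?_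
  exact Real.rpow_le_rpow (norm_nonneg _) (hD _ (hw j) _ (hw k)) he

theorem map_pair {n : ℕ} (μ : Measure ℂ) [IsProbabilityMeasure μ] {j k : Fin n} (hjk : j ≠ k) :
    MeasurePreserving (fun w : Fin n → ℂ => (w j, w k)) (Measure.pi fun _ => μ) (μ.prod μ) := by
  refine ⟨by fun_prop, ?_⟩
  have h1 : ProbabilityTheory.iIndepFun (fun (i : Fin n) (w : Fin n → ℂ) => w i)
      (Measure.pi fun _ => μ) :=
    ProbabilityTheory.iIndepFun_pi (X := fun _ => id) (fun _ => aemeasurable_id)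
  have h2 := h1.indepFun hjk
  rw [ProbabilityTheory.indepFun_iff_map_prod_eq_prod_map_map (measurable_pi_apply j).aemeasurable
    (measurable_pi_apply k).aemeasurable] at h2
  rw [h2, (measurePreserving_eval (fun _ : Fin n => μ) j).map_eq,
    (measurePreserving_eval (fun _ : Fin n => μ) k).map_eq]

/-- the capacity is at most the `n`-th diameter -/
theorem cap_le_diam {n : ℕ} (hn : 2 ≤ n) {E : Set ℂ} {D : ℝ}
    (hD : ∀ z ∈ E, ∀ w ∈ E, ‖z - w‖ ≤ D) {μ : Measure ℂ}
    (hp : IsProbabilityMeasure μ) (hE : μ Eᶜ = 0) (hf : FiniteEnergy μ) :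
    Real.exp (energy μ) ≤ diam n E := by
  have hn' : (2 : ℝ) ≤ n := by exact_mod_cast hn
  set P : Measure (Fin n → ℂ) := Measure.pi fun _ => μ with hP
  have h1 : ∀ᵐ z ∂μ, z ∈ E := by
    rw [ae_iff]
    exact hE
  have hmem : ∀ᵐ w ∂P, ∀ j, w j ∈ E := by
    rw [ae_all_iff]
    intro j
    exact (measurePreserving_eval (fun _ : Fin n => μ) j).quasiMeasurePreserving.ae h1
  have hinj : ∀ᵐ w ∂P, Function.Injective w := by
    have h2 : ∀ᵐ w ∂P, ∀ j k, j ≠ k → w j ≠ w k := by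
      rw [ae_all_iff]
      intro j
      rw [ae_all_iff]
      intro k
      by_cases hjk : j = k
      · exact Eventually.of_forall fun w h => absurd hjk h
      · have h3 : ∀ᵐ p ∂(μ.prod μ), p.1 ≠ p.2 := by
          rw [ae_iff]
          simpa using hf.1
        filter_upwards [(map_pair μ hjk).quasiMeasurePreserving.ae h3] with w hw _
        exact hw
    filter_upwards [h2] with w hw j k hjk
    by_contra hne
    exact hw j k hne hjk
  have hint : ∀ j k : Fin n, j ≠ k → Integrable (fun w => Real.log ‖w j - w k‖) P ∧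
      ∫ w, Real.log ‖w j - w k‖ ∂P = energy μ := by
    intro j k hjk
    have hmp := map_pair (n := n) μ hjk
    have hm : AEStronglyMeasurable (fun p : ℂ × ℂ => Real.log ‖p.1 - p.2‖) (μ.prod μ) := hf.2.1
    constructor
    · exact (hmp.integrable_comp hm).2 hf.2
    · unfold energy
      rw [← hmp.map_eq, integral_map hmp.measurable.aemeasurable (by rw [hmp.map_eq]; exact hm)]
  set e : ℝ := 2 / ((n : ℝ) * (n - 1)) with he
  have he0 : 0 < e := div_pos (by norm_num) (by nlinarith)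
  set S : (Fin n → ℂ) → ℝ := fun w => ∑ j, ∑ k ∈ Finset.Ioi j, Real.log ‖w j - w k‖ with hS
  have hSint : Integrable S P := by
    refine integrable_finsetSum _ fun j _ => integrable_finsetSum _ fun k hk => ?_
    exact (hint j k (Finset.mem_Ioi.1 hk).ne).1
  have hSI : ∫ w, S w ∂P = (n * (n - 1) / 2) * energy μ := by
    rw [hS]
    rw [integral_finsetSum _ fun j _ => integrable_finsetSum _ fun k hk =>
      (hint j k (Finset.mem_Ioi.1 hk).ne).1]
    have h4 : ∀ j : Fin n, ∫ w, ∑ k ∈ Finset.Ioi j, Real.log ‖w j - w k‖ ∂P =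
        ∑ _k ∈ Finset.Ioi j, 1 * energy μ := by
      intro j
      rw [integral_finsetSum _ fun k hk => (hint j k (Finset.mem_Ioi.1 hk).ne).1]
      refine Finset.sum_congr rfl fun k hk => ?_
      rw [(hint j k (Finset.mem_Ioi.1 hk).ne).2, one_mul]
    rw [Finset.sum_congr rfl fun j _ => h4 j]
    simp only [← Finset.sum_mul]
    rw [pair_count]
  have hbd : ∀ w : Fin n → ℂ, (∀ j, w j ∈ E) → Function.Injective w →
      Real.exp (e * S w) ≤ diam n E := by
    intro w hw hwi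
    rw [hS]
    simp only
    rw [← prod_eq_exp w hwi e]
    exact le_csSup (diam_bdd hn hD) ⟨w, hw, rfl⟩
  have hpos : 0 < diam n E := by
    obtain ⟨w, hw1, hw2⟩ := (hmem.and hinj).exists
    exact (Real.exp_pos _).trans_le (hbd w hw1 hw2)
  have h5 : ∫ w, S w ∂P ≤ ∫ _, (Real.log (diam n E) / e) ∂P := by
    refine integral_mono_ae hSint (integrable_const _) ?_
    filter_upwards [hmem, hinj] with w hw1 hw2
    rw [le_div_iff₀ he0, mul_comm, Real.le_log_iff_exp_le hpos]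
    exact hbd w hw1 hw2
  rw [hSI] at h5
  simp only [integral_const, probReal_univ, smul_eq_mul, one_mul] at h5
  rw [le_div_iff₀ he0] at h5
  have h6 : (n * (n - 1) / 2) * energy μ * e = energy μ := by
    rw [he]
    have hn1 : (n : ℝ) - 1 ≠ 0 := by
      have : 0 < (n : ℝ) - 1 := by linarith
      exact this.ne'
    have hnz : (n : ℝ) ≠ 0 := by linarith
    field_simp
  rw [h6] at h5
  exact (Real.le_log_iff_exp_le hpos).1 h5

/-- the nearest point map is monotone, hence the points can be contracted towards `K` -/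
theorem contract {w1 w2 k1 k2 : ℂ} (h1 : ‖w1 - k1‖ ≤ ‖w1 - k2‖) (h2 : ‖w2 - k2‖ ≤ ‖w2 - k1‖) {s : ℝ}
    (hs0 : 0 < s) (hs1 : s < 1) :
    s * ‖w1 - w2‖ ≤ ‖(k1 + s * (w1 - k1)) - (k2 + s * (w2 - k2))‖ := by
  have e1 : ‖w1 - k1‖ ^ 2 ≤ ‖w1 - k2‖ ^ 2 := pow_le_pow_left₀ (norm_nonneg _) h1 2
  have e2 : ‖w2 - k2‖ ^ 2 ≤ ‖w2 - k1‖ ^ 2 := pow_le_pow_left₀ (norm_nonneg _) h2 2
  rw [Complex.sq_norm, Complex.sq_norm, Complex.normSq_apply, Complex.normSq_apply] at e1 e2
  simp only [Complex.sub_re, Complex.sub_im] at e1 e2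
  have e3 : 0 ≤ (w1.re - w2.re) * (k1.re - k2.re) + (w1.im - w2.im) * (k1.im - k2.im) := by
    nlinarith
  refine le_of_sq_le_sq ?_ (norm_nonneg _)
  rw [mul_pow, Complex.sq_norm, Complex.sq_norm, Complex.normSq_apply, Complex.normSq_apply]
  simp only [Complex.sub_re, Complex.sub_im, Complex.add_re, Complex.add_im, Complex.mul_re,
    Complex.mul_im, Complex.ofReal_re, Complex.ofReal_im, zero_mul, sub_zero, add_zero]
  set x := w1.re - w2.re
  set y := w1.im - w2.im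
  set u := k1.re - k2.re
  set v := k1.im - k2.im
  have e4 : k1.re + s * (w1.re - k1.re) - (k2.re + s * (w2.re - k2.re)) = s * x + (1 - s) * u := by
    simp only [x, u]
    ring
  have e5 : k1.im + s * (w1.im - k1.im) - (k2.im + s * (w2.im - k2.im)) = s * y + (1 - s) * v := by
    simp only [y, v]
    ring
  rw [e4, e5]
  have e6 : 0 ≤ s * (1 - s) * (x * u + y * v) := by
    have : 0 ≤ s * (1 - s) := by nlinarith
    exact mul_nonneg this e3
  nlinarith [sq_nonneg ((1 - s) * u), sq_nonneg ((1 - s) * v)]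

/-- the main upper bound -/
theorem diam_le {K : Set ℂ} (hK : IsCompact K) (hKn : K.Nonempty) {ε : ℝ} (hε : 0 < ε) {n : ℕ}
    (hn : 2 ≤ n) {s : ℝ} (hs0 : 0 < s) (hs1 : s < 1) {D : ℝ}
    (hD : ∀ z ∈ Metric.cthickening ε K, ∀ w ∈ Metric.cthickening ε K, ‖z - w‖ ≤ D)
    (hcap : 0 < cap (Metric.cthickening ε K)) :
    diam n (Metric.cthickening ε K) ≤
      Real.exp ((n / (n - 1)) * Real.log (cap (Metric.cthickening ε K)) -
        Real.log ((1 - s) * ε) / (n - 1) - Real.log s) := by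
  have hn' : (2 : ℝ) ≤ n := by exact_mod_cast hn
  have hn0 : n ≠ 0 := by omega
  have hmemK : ∀ z : ℂ, z ∈ Metric.cthickening ε K ↔ ∃ x ∈ K, ‖z - x‖ ≤ ε := by
    intro z
    rw [hK.cthickening_eq_biUnion_closedBall hε.le]
    simp [dist_eq_norm]
  set E := Metric.cthickening ε K with hE
  obtain ⟨x0, hx0⟩ := hKn
  have hx0E : x0 ∈ E := (hmemK x0).2 ⟨x0, hx0, by simpa using hε.le⟩
  refine csSup_le ⟨_, fun _ => x0, fun _ => hx0E, rfl⟩ ?_
  rintro d ⟨w, hw, rfl⟩
  by_cases hinj : Function.Injective w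
  swap
  · -- a repeated point
    have h1 : ∃ j k, j < k ∧ w j = w k := by
      simp only [Function.Injective] at hinj
      push Not at hinj
      obtain ⟨a, b, hab, hne⟩ := hinj
      rcases lt_or_gt_of_ne hne with h | h
      · exact ⟨a, b, h, hab⟩
      · exact ⟨b, a, h, hab.symm⟩
    obtain ⟨j, k, hjk, hwjk⟩ := h1
    have h2 : ∏ j, ∏ k ∈ Finset.Ioi j, ‖w j - w k‖ ^ (2 / ((n : ℝ) * (n - 1))) = 0 := by
      refine Finset.prod_eq_zero (Finset.mem_univ j) ?_
      refine Finset.prod_eq_zero (Finset.mem_Ioi.2 hjk) ?_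
      rw [hwjk, sub_self, norm_zero, Real.zero_rpow]
      have : 0 < 2 / ((n : ℝ) * (n - 1)) := div_pos (by norm_num) (by nlinarith)
      exact this.ne'
    rw [h2]
    exact (Real.exp_pos _).le
  rw [prod_eq_exp w hinj, Real.exp_le_exp]
  -- nearest points
  have hnear : ∀ j, ∃ k ∈ K, ‖w j - k‖ ≤ ε ∧ ∀ x ∈ K, ‖w j - k‖ ≤ ‖w j - x‖ := by
    intro j
    obtain ⟨k, hk, hk2⟩ := hK.exists_infDist_eq_dist ⟨x0, hx0⟩ (w j)
    obtain ⟨x, hx, hx2⟩ := (hmemK (w j)).1 (hw j)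
    have h3 : ∀ x ∈ K, ‖w j - k‖ ≤ ‖w j - x‖ := by
      intro x hx
      rw [← dist_eq_norm, ← dist_eq_norm, ← hk2]
      exact Metric.infDist_le_dist_of_mem hx
    exact ⟨k, hk, (h3 x hx).trans hx2, h3⟩
  choose k hkK hkε hkmin using hnear
  set c : Fin n → ℂ := fun j => k j + s * (w j - k j) with hc
  set ρ : ℝ := (1 - s) * ε with hρ
  have hρ0 : 0 < ρ := mul_pos (by linarith) hε
  have hcc : ∀ i j, s * ‖w i - w j‖ ≤ ‖c i - c j‖ := by
    intro i j
    exact contract (hkmin i _ (hkK j)) (hkmin j _ (hkK i)) hs0 hs1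
  have hcinj : Function.Injective c := by
    intro i j hij
    have h4 := hcc i j
    rw [hij, sub_self, norm_zero] at h4
    have h5 : ‖w i - w j‖ ≤ 0 := by
      by_contra hcon
      push Not at hcon
      nlinarith
    exact hinj (sub_eq_zero.1 (norm_le_zero_iff.1 h5))
  have hprob := avg_prob hn0 c ρ
  have hsupp : (avg c ρ) Eᶜ = 0 := by
    have h6 : ∀ᵐ z ∂(avg c ρ), z ∈ E := by
      refine avg_ae c ρ fun j => ?_
      filter_upwards [circ_ae (c j) ρ] with z hz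
      rw [hmemK]
      refine ⟨k j, hkK j, ?_⟩
      have h7 : z - k j = (z - c j) + s * (w j - k j) := by
        rw [hc]
        ring
      rw [h7]
      refine (norm_add_le _ _).trans ?_
      rw [hz, abs_of_pos hρ0, norm_mul, Complex.norm_real, Real.norm_of_nonneg hs0.le, hρ]
      have := hkε j
      nlinarith
    exact h6
  have h8 := le_cap hD hprob hsupp (avg_finite hn0 c hρ0)
  have h9 := avg_energy hn0 c hcinj hρ0
  rw [← Real.le_log_iff_exp_le hcap] at h8
  have h10 := pair_sum (n := n) (Real.log ρ) (fun i j => Real.log ‖c i - c j‖)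
    (fun i j => by rw [norm_sub_rev])
  rw [h10] at h9
  set S : ℝ := ∑ j, ∑ k ∈ Finset.Ioi j, Real.log ‖w j - w k‖ with hS
  have h11 : S + (n * (n - 1) / 2) * Real.log s ≤
      ∑ j, ∑ k ∈ Finset.Ioi j, Real.log ‖c j - c k‖ := by
    rw [hS, ← pair_count, Finset.sum_mul, ← Finset.sum_add_distrib]
    refine Finset.sum_le_sum fun i _ => ?_
    rw [Finset.sum_mul, ← Finset.sum_add_distrib]
    refine Finset.sum_le_sum fun j hj => ?_
    have h12 : i ≠ j := (Finset.mem_Ioi.1 hj).ne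
    have h13 : 0 < ‖w i - w j‖ := norm_pos_iff.2 (sub_ne_zero.2 fun h => h12 (hinj h))
    have h14 := Real.log_le_log (by positivity) (hcc i j)
    rw [Real.log_mul hs0.ne' h13.ne'] at h14
    linarith
  have hnn : 0 < (n : ℝ) := by linarith
  have hn1 : 0 < (n : ℝ) - 1 := by linarith
  have h15 : (n : ℝ)⁻¹ * ((n : ℝ)⁻¹ * (n * Real.log ρ + 2 * (S + (n * (n - 1) / 2) * Real.log s))) ≤
      Real.log (cap E) := by
    refine le_trans ?_ (h9.trans h8)
    refine mul_le_mul_of_nonneg_left (mul_le_mul_of_nonneg_left ?_ (by positivity)) (by positivity)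
    linarith
  have h16 : 2 / ((n : ℝ) * (n - 1)) * S =
      (n / (n - 1)) * ((n : ℝ)⁻¹ * ((n : ℝ)⁻¹ *
        (n * Real.log ρ + 2 * (S + (n * (n - 1) / 2) * Real.log s)))) -
        Real.log ρ / (n - 1) - Real.log s := by
    field_simp
    ring
  rw [h16]
  have h17 : (n / ((n : ℝ) - 1)) * ((n : ℝ)⁻¹ * ((n : ℝ)⁻¹ *
        (n * Real.log ρ + 2 * (S + (n * (n - 1) / 2) * Real.log s)))) ≤
      (n / ((n : ℝ) - 1)) * Real.log (cap E) := mul_le_mul_of_nonneg_left h15 (by positivity)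
  linarith

end Pool.Agent.X116.Fd
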