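import Pool.Agent.X116.FdB

/-!
# The ratio of the `n`-th diameter and the capacity of the `1/n`-neighbourhood tends to one
-/

set_option autoImplicit false

namespace Pool.Agent.X116.Fd

open MeasureTheory Filter Topology Set
open scoped Real ENNReal

theorem mem_thick {K : Set ℂ} (hK : IsCompact K) {ε : ℝ} (hε : 0 ≤ ε) (z : ℂ) :
    z ∈ Metric.cthickening ε K ↔ ∃ x ∈ K, ‖z - x‖ ≤ ε := by
  rw [hK.cthickening_eq_biUnion_closedBall hε]
  simp [dist_eq_norm]

theorem exists_energy {K : Set ℂ} (hK : IsCompact K) (hKn : K.Nonempty) {ε : ℝ} (hε : 0 < ε) :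
    ∃ μ : Measure ℂ, IsProbabilityMeasure μ ∧ μ (Metric.cthickening ε K)ᶜ = 0 ∧
      FiniteEnergy μ := by
  obtain ⟨x0, hx0⟩ := hKn
  refine ⟨avg (fun _ : Fin 1 => x0) ε, avg_prob one_ne_zero _ _, ?_, avg_finite one_ne_zero _ hε⟩
  have h6 : ∀ᵐ z ∂(avg (fun _ : Fin 1 => x0) ε), z ∈ Metric.cthickening ε K := by
    refine avg_ae _ ε fun j => ?_
    filter_upwards [circ_ae x0 ε] with z hz
    rw [mem_thick hK hε.le]
    refine ⟨x0, hx0, ?_⟩
    rw [hz, abs_of_pos hε]
  exact h6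

theorem cap_pos {K : Set ℂ} (hK : IsCompact K) (hKn : K.Nonempty) {ε : ℝ} (hε : 0 < ε) {D : ℝ}
    (hD : ∀ z ∈ Metric.cthickening ε K, ∀ w ∈ Metric.cthickening ε K, ‖z - w‖ ≤ D) :
    0 < cap (Metric.cthickening ε K) := by
  obtain ⟨μ, h1, h2, h3⟩ := exists_energy hK hKn hε
  exact (Real.exp_pos _).trans_le (le_cap hD h1 h2 h3)

theorem cap_le_exp {K : Set ℂ} (hK : IsCompact K) (hKn : K.Nonempty) {ε : ℝ} (hε : 0 < ε) {D : ℝ}
    (hD : ∀ z ∈ Metric.cthickening ε K, ∀ w ∈ Metric.cthickening ε K, ‖z - w‖ ≤ D) :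
    cap (Metric.cthickening ε K) ≤ Real.exp D := by
  obtain ⟨μ, h1, h2, h3⟩ := exists_energy hK hKn hε
  refine csSup_le ⟨_, μ, h1, h2, h3, rfl⟩ ?_
  rintro c ⟨ν, h4, h5, h6, rfl⟩
  exact Real.exp_le_exp.2 (energy_le hD h4 h5 h6)

theorem cap_le_diam' {K : Set ℂ} (hK : IsCompact K) (hKn : K.Nonempty) {ε : ℝ} (hε : 0 < ε) {D : ℝ}
    (hD : ∀ z ∈ Metric.cthickening ε K, ∀ w ∈ Metric.cthickening ε K, ‖z - w‖ ≤ D) {n : ℕ}
    (hn : 2 ≤ n) :
    cap (Metric.cthickening ε K) ≤ diam n (Metric.cthickening ε K) := by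
  obtain ⟨μ, h1, h2, h3⟩ := exists_energy hK hKn hε
  refine csSup_le ⟨_, μ, h1, h2, h3, rfl⟩ ?_
  rintro c ⟨ν, h4, h5, h6, rfl⟩
  exact cap_le_diam hn hD h4 h5 h6

theorem limit_aux (C s : ℝ) (hs : 0 < s) :
    Tendsto (fun n : ℕ => Real.exp ((C + Real.log n) / ((n : ℝ) - 1) - Real.log s)) atTop
      (𝓝 s⁻¹) := by
  have h1 : Tendsto (fun x : ℝ => Real.log x ^ 1 / (1 * x + (-1))) atTop (𝓝 0) :=
    Real.tendsto_pow_log_div_mul_add_atTop 1 (-1) 1 one_ne_zero
  have h2 : Tendsto (fun x : ℝ => Real.log x ^ 0 / (1 * x + (-1))) atTop (𝓝 0) :=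
    Real.tendsto_pow_log_div_mul_add_atTop 1 (-1) 0 one_ne_zero
  have h3 : Tendsto (fun x : ℝ => (C + Real.log x) / (x - 1) - Real.log s) atTop
      (𝓝 (0 - Real.log s)) := by
    refine Tendsto.sub_const ?_ _
    have h4 := (h2.const_mul C).add h1
    rw [mul_zero, add_zero] at h4
    refine h4.congr fun x => ?_
    rw [pow_one, pow_zero, one_mul, ← sub_eq_add_neg, add_div]
    ring
  have h5 := (Real.continuous_exp.tendsto _).comp (h3.comp tendsto_natCast_atTop_atTop)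
  rw [zero_sub, Real.exp_neg, Real.exp_log hs] at h5
  exact h5

theorem main (K : Set ℂ) (hK : IsCompact K) (hKn : K.Nonempty) :
    Tendsto (fun n : ℕ => diam n (Metric.cthickening (1 / n) K) /
      cap (Metric.cthickening (1 / n) K)) atTop (𝓝 1) := by
  set D : ℝ := Metric.diam (Metric.cthickening 1 K) with hDdef
  have hbdd : Bornology.IsBounded (Metric.cthickening 1 K) := hK.isBounded.cthickening
  have hD : ∀ n : ℕ, 2 ≤ n → ∀ z ∈ Metric.cthickening (1 / (n : ℝ)) K,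
      ∀ w ∈ Metric.cthickening (1 / (n : ℝ)) K, ‖z - w‖ ≤ D := by
    intro n hn z hz w hw
    have hn' : (2 : ℝ) ≤ n := by exact_mod_cast hn
    have h1 : 1 / (n : ℝ) ≤ 1 := by
      rw [div_le_one (by linarith)]
      linarith
    have h2 := Metric.cthickening_mono h1 K
    rw [← dist_eq_norm]
    exact Metric.dist_le_diam_of_mem hbdd (h2 hz) (h2 hw)
  have hcp : ∀ n : ℕ, 2 ≤ n → 0 < cap (Metric.cthickening (1 / (n : ℝ)) K) := by
    intro n hn
    have hn' : (2 : ℝ) ≤ n := by exact_mod_cast hn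
    exact cap_pos hK hKn (by positivity) (hD n hn)
  rw [tendsto_order]
  constructor
  · intro a ha
    filter_upwards [eventually_ge_atTop 2] with n hn
    have hn' : (2 : ℝ) ≤ n := by exact_mod_cast hn
    have h1 := cap_le_diam' hK hKn (ε := 1 / (n : ℝ)) (by positivity) (hD n hn) hn
    refine ha.trans_le ?_
    rw [le_div_iff₀ (hcp n hn), one_mul]
    exact h1
  · intro b hb
    set s : ℝ := (1 + b⁻¹) / 2 with hs
    have hb0 : 0 < b := by linarith
    have hbi : b⁻¹ < 1 := inv_lt_one_of_one_lt₀ hb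
    have hbi0 : 0 < b⁻¹ := by positivity
    have hs0 : 0 < s := by positivity
    have hs1 : s < 1 := by
      rw [hs]
      linarith
    have hsb : s⁻¹ < b := by
      rw [inv_lt_comm₀ hs0 hb0, hs]
      linarith
    have hlim := limit_aux (D - Real.log (1 - s)) s hs0
    have hev := hlim.eventually (gt_mem_nhds hsb)
    filter_upwards [eventually_ge_atTop 2, hev] with n hn hlt
    have hn' : (2 : ℝ) ≤ n := by exact_mod_cast hn
    have hε : (0 : ℝ) < 1 / (n : ℝ) := by positivity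
    refine lt_of_le_of_lt ?_ hlt
    have h1 := diam_le hK hKn hε hn hs0 hs1 (hD n hn) (hcp n hn)
    have h2 := cap_le_exp hK hKn hε (hD n hn)
    have h3 : Real.log (cap (Metric.cthickening (1 / (n : ℝ)) K)) ≤ D := by
      rw [Real.log_le_iff_le_exp (hcp n hn)]
      exact h2
    set L := Real.log (cap (Metric.cthickening (1 / (n : ℝ)) K)) with hL
    have h4 : cap (Metric.cthickening (1 / (n : ℝ)) K) = Real.exp L := by
      rw [hL, Real.exp_log (hcp n hn)]
    rw [div_le_iff₀ (hcp n hn), h4, ← Real.exp_add]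
    refine h1.trans (Real.exp_le_exp.2 ?_)
    have hn1 : 0 < (n : ℝ) - 1 := by linarith
    have h5 : Real.log ((1 - s) * (1 / (n : ℝ))) = Real.log (1 - s) - Real.log n := by
      rw [Real.log_mul (by linarith) hε.ne', one_div, Real.log_inv]
      ring
    rw [h5]
    have h6 : n / ((n : ℝ) - 1) * L - (Real.log (1 - s) - Real.log n) / (n - 1) - Real.log s =
        (L - Real.log (1 - s) + Real.log n) / (n - 1) - Real.log s + L := by
      field_simp
      ring
    rw [h6]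
    have h7 : (L - Real.log (1 - s) + Real.log n) / ((n : ℝ) - 1) ≤
        (D - Real.log (1 - s) + Real.log n) / (n - 1) :=
      div_le_div_of_nonneg_right (by linarith) hn1.le
    linarith

end Pool.Agent.X116.Fd
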