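import Mathlib
import Pool.Agent.W184.Sub

/-!
# Weighted moduli of entire functions on `ℂⁿ`: local maxima in `L^p`

Several lemmas follow the starting file `Pool/Agent/Results/MP_09e892_an/LipschitzFock.lean`.
-/

set_option autoImplicit false

open MeasureTheory Metric Filter Topology Set
open scoped ENNReal

namespace Pool.Agent.X116.Fk

variable {n : ℕ}

/-- `z ū = z₁ ū₁ + ⋯ + zₙ ūₙ`. -/
noncomputable def dot (z u : Fin n → ℂ) : ℂ := ∑ i, z i * (starRingEnd ℂ) (u i)

/-- `|z|² = |z₁|² + ⋯ + |zₙ|²`. -/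
noncomputable def sq (z : Fin n → ℂ) : ℝ := ∑ i, ‖z i‖ ^ 2

lemma sq_nonneg' (z : Fin n → ℂ) : 0 ≤ sq z := Finset.sum_nonneg fun _ _ => by positivity

lemma continuous_sq : Continuous (sq : (Fin n → ℂ) → ℝ) := by
  unfold sq; fun_prop

lemma dot_self_re (z : Fin n → ℂ) : (dot z z).re = sq z := by
  unfold dot sq
  rw [Complex.re_sum]
  refine Finset.sum_congr rfl fun i _ => ?_
  rw [Complex.mul_conj, Complex.ofReal_re, Complex.normSq_eq_norm_sq]

lemma sq_add (z v : Fin n → ℂ) : sq (z + v) = sq z + sq v + 2 * (dot v z).re := by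
  unfold dot sq
  rw [Complex.re_sum, Finset.mul_sum, ← Finset.sum_add_distrib, ← Finset.sum_add_distrib]
  refine Finset.sum_congr rfl fun i _ => ?_
  rw [Pi.add_apply, ← Complex.normSq_eq_norm_sq, ← Complex.normSq_eq_norm_sq,
    ← Complex.normSq_eq_norm_sq, Complex.normSq_add, Complex.mul_re, Complex.mul_re,
    Complex.conj_re, Complex.conj_im, Complex.conj_re, Complex.conj_im]
  ring

lemma sq_le (v : Fin n → ℂ) : sq v ≤ n * ‖v‖ ^ 2 := by
  unfold sq
  calc ∑ i, ‖v i‖ ^ 2 ≤ ∑ _i : Fin n, ‖v‖ ^ 2 :=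
        Finset.sum_le_sum fun i _ => pow_le_pow_left₀ (norm_nonneg _) (norm_le_pi_norm v i) 2
    _ = _ := by simp

lemma le_sq (v : Fin n → ℂ) : ‖v‖ ^ 2 ≤ sq v := by
  have h : ‖v‖ ≤ Real.sqrt (sq v) := by
    rw [pi_norm_le_iff_of_nonneg (Real.sqrt_nonneg _)]
    intro i
    apply Real.le_sqrt_of_sq_le
    unfold sq
    exact Finset.single_le_sum (f := fun i => ‖v i‖ ^ 2) (fun _ _ => by positivity)
      (Finset.mem_univ i)
  calc ‖v‖ ^ 2 ≤ Real.sqrt (sq v) ^ 2 := pow_le_pow_left₀ (norm_nonneg _) h 2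
    _ = sq v := Real.sq_sqrt (sq_nonneg' v)

lemma sq_smul (c : ℂ) (v : Fin n → ℂ) : sq (c • v) = ‖c‖ ^ 2 * sq v := by
  unfold sq
  rw [Finset.mul_sum]
  refine Finset.sum_congr rfl fun i _ => ?_
  rw [Pi.smul_apply, smul_eq_mul, norm_mul, mul_pow]

/-- `|z+v|² ≤ 2|z|² + 2|v|²` -/
lemma sq_add_le (z v : Fin n → ℂ) : sq (z + v) ≤ 2 * sq z + 2 * sq v := by
  unfold sq
  rw [Finset.mul_sum, Finset.mul_sum, ← Finset.sum_add_distrib]
  refine Finset.sum_le_sum fun i _ => ?_
  have h1 := norm_add_le (z i) (v i)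
  rw [Pi.add_apply]
  nlinarith [norm_nonneg (z i), norm_nonneg (v i), norm_nonneg (z i + v i),
    sq_nonneg (‖z i‖ - ‖v i‖)]

/-- rotations preserve the measure -/
lemma measurePreserving_rot {c : ℂ} (hc : ‖c‖ = 1) :
    MeasurePreserving (fun v : Fin n → ℂ => c • v) volume volume := by
  have h1 : ∀ _ : Fin n, MeasurePreserving (fun x : ℂ => c * x) volume volume := by
    intro _
    have h2 := (rotation ⟨c, by simpa [Submonoid.unitSphere] using hc⟩).measurePreserving
    exact h2
  exact volume_preserving_pi h1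

lemma continuous_rot_norm {f : (Fin n → ℂ) → ℂ} (hf : Continuous f) (r : ℝ) (hr : 0 < r) :
    Continuous (fun v => ‖f v‖ ^ r) :=
  hf.norm.rpow_const fun _ => Or.inr hr.le

/-- rotations and integrals over balls -/
lemma integral_rot {c : ℂ} (hc : ‖c‖ = 1) (F : (Fin n → ℂ) → ℝ) (R : ℝ) :
    ∫ v in closedBall (0 : Fin n → ℂ) R, F (c • v) = ∫ v in closedBall (0 : Fin n → ℂ) R, F v := by
  have hc0 : c ≠ 0 := by intro h; rw [h, norm_zero] at hc; exact zero_ne_one hc
  have h1 : MeasurableEmbedding (fun v : Fin n → ℂ => c • v) :=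
    (Homeomorph.smulOfNeZero c hc0).measurableEmbedding
  have h2 := (measurePreserving_rot (n := n) hc).setIntegral_preimage_emb h1 F (closedBall 0 R)
  have h3 : (fun v : Fin n → ℂ => c • v) ⁻¹' closedBall 0 R = closedBall 0 R := by
    ext v
    simp [norm_smul, hc]
  rw [h3] at h2
  exact h2

/-- sub-mean value property over balls -/
lemma submean {Φ : (Fin n → ℂ) → ℂ} (hΦ : Differentiable ℂ Φ) {r : ℝ} (hr : 0 < r) :
    ‖Φ 0‖ ^ r * (volume : Measure (Fin n → ℂ)).real (closedBall 0 1) ≤
      ∫ v in closedBall (0 : Fin n → ℂ) 1, ‖Φ v‖ ^ r := by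
  have hcΦ : Continuous Φ := hΦ.continuous
  have h1 : ∀ v : Fin n → ℂ, ‖Φ 0‖ ^ r ≤
      (2 * Real.pi)⁻¹ * ∫ θ in Ioc (0 : ℝ) (2 * Real.pi),
        ‖Φ (Complex.exp (θ * Complex.I) • v)‖ ^ r := by
    intro v
    have hd : Differentiable ℂ (fun t : ℂ => Φ (t • v)) :=
      hΦ.comp (differentiable_id.smul_const v)
    have h2 := W184.rpow_le_circleAverage (f := fun t : ℂ => Φ (t • v)) (c := 0) (R := 1) one_pos hr
      (fun t _ => hd.analyticAt t)
    rw [zero_smul, Real.circleAverage_def,
      intervalIntegral.integral_of_le (by positivity), smul_eq_mul] at h2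
    simpa [circleMap] using h2
  have hfin : volume (closedBall (0 : Fin n → ℂ) 1) ≠ ⊤ := measure_closedBall_lt_top.ne
  have hcont : Continuous (fun p : (Fin n → ℂ) × ℝ =>
      ‖Φ (Complex.exp (p.2 * Complex.I) • p.1)‖ ^ r) := by
    apply Continuous.rpow_const _ fun _ => Or.inr hr.le
    apply Continuous.norm
    apply hcΦ.comp
    exact (Complex.continuous_exp.comp ((Complex.continuous_ofReal.comp continuous_snd).mul
      continuous_const)).smul continuous_fst
  have hint : Integrable (fun p : (Fin n → ℂ) × ℝ => ‖Φ (Complex.exp (p.2 * Complex.I) • p.1)‖ ^ r)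
      ((volume.restrict (closedBall (0 : Fin n → ℂ) 1)).prod
        (volume.restrict (Ioc (0 : ℝ) (2 * Real.pi)))) := by
    rw [Measure.prod_restrict]
    have h3 : IntegrableOn (fun p : (Fin n → ℂ) × ℝ =>
        ‖Φ (Complex.exp (p.2 * Complex.I) • p.1)‖ ^ r)
        (closedBall (0 : Fin n → ℂ) 1 ×ˢ Icc (0 : ℝ) (2 * Real.pi))
        ((volume : Measure (Fin n → ℂ)).prod volume) :=
      hcont.continuousOn.integrableOn_compact ((isCompact_closedBall _ _).prod isCompact_Icc)
    exact h3.mono_set (prod_mono le_rfl Ioc_subset_Icc_self)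
  have hint2 : IntegrableOn (fun v : Fin n → ℂ => ∫ θ in Ioc (0 : ℝ) (2 * Real.pi),
      ‖Φ (Complex.exp (θ * Complex.I) • v)‖ ^ r) (closedBall (0 : Fin n → ℂ) 1) :=
    hint.integral_prod_left
  have h4 : ∫ _ in closedBall (0 : Fin n → ℂ) 1, ‖Φ 0‖ ^ r ≤
      ∫ v in closedBall (0 : Fin n → ℂ) 1, (2 * Real.pi)⁻¹ *
        ∫ θ in Ioc (0 : ℝ) (2 * Real.pi), ‖Φ (Complex.exp (θ * Complex.I) • v)‖ ^ r :=
    setIntegral_mono_on (integrableOn_const hfin) (hint2.const_mul _) measurableSet_closedBall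
      fun v _ => h1 v
  rw [setIntegral_const, smul_eq_mul, integral_const_mul, integral_integral_swap hint] at h4
  have h5 : ∀ θ : ℝ, ∫ v in closedBall (0 : Fin n → ℂ) 1,
      ‖Φ (Complex.exp (θ * Complex.I) • v)‖ ^ r =
      ∫ v in closedBall (0 : Fin n → ℂ) 1, ‖Φ v‖ ^ r := fun θ =>
    integral_rot (Complex.norm_exp_ofReal_mul_I θ) (fun v => ‖Φ v‖ ^ r) 1
  simp only [h5] at h4
  rw [setIntegral_const, smul_eq_mul, Real.volume_real_Ioc_of_le (by positivity)] at h4
  have h6 : (2 * Real.pi)⁻¹ * ((2 * Real.pi - 0) *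
      ∫ v in closedBall (0 : Fin n → ℂ) 1, ‖Φ v‖ ^ r) =
      ∫ v in closedBall (0 : Fin n → ℂ) 1, ‖Φ v‖ ^ r := by
    rw [sub_zero, ← mul_assoc, inv_mul_cancel₀ (by positivity), one_mul]
  rw [h6] at h4
  linarith

lemma vol_pos {r : ℝ} (hr : 0 < r) : 0 < (volume : Measure (Fin n → ℂ)).real (closedBall 0 r) :=
  ENNReal.toReal_pos (measure_closedBall_pos volume 0 hr).ne' measure_closedBall_lt_top.ne

/-- the weighted modulus `|f(z)| e^(-α|z|²/2) (1+|z|²)^(-k)` -/
noncomputable def mm (α : ℝ) (k : ℕ) (f : (Fin n → ℂ) → ℂ) (z : Fin n → ℂ) : ℝ :=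
  ‖f z‖ * Real.exp (-(α / 2) * sq z) / (1 + sq z) ^ k

lemma one_add_sq_pos (z : Fin n → ℂ) : 0 < 1 + sq z := by linarith [sq_nonneg' z]

lemma mm_nonneg (α : ℝ) (k : ℕ) (f : (Fin n → ℂ) → ℂ) (z : Fin n → ℂ) : 0 ≤ mm α k f z := by
  unfold mm
  have := one_add_sq_pos z
  positivity

lemma continuous_mm {α : ℝ} {k : ℕ} {f : (Fin n → ℂ) → ℂ} (hf : Continuous f) :
    Continuous (mm α k f) := by
  unfold mm
  have h3 := continuous_sq (n := n)
  refine (hf.norm.mul (Real.continuous_exp.comp (continuous_const.mul h3))).div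
    ((continuous_const.add h3).pow k) fun z => ?_
  exact (pow_pos (one_add_sq_pos z) k).ne'

/-- `f` in terms of the weighted modulus -/
lemma norm_f_eq (α : ℝ) (k : ℕ) (f : (Fin n → ℂ) → ℂ) (z : Fin n → ℂ) :
    ‖f z‖ = mm α k f z * ((1 + sq z) ^ k * Real.exp (α / 2 * sq z)) := by
  unfold mm
  have h1 := (pow_pos (one_add_sq_pos z) k).ne'
  have h2 : Real.exp (-(α / 2) * sq z) * Real.exp (α / 2 * sq z) = 1 := by
    rw [← Real.exp_add]
    have : -(α / 2) * sq z + α / 2 * sq z = 0 := by ring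
    rw [this, Real.exp_zero]
  rw [div_mul_eq_mul_div, mul_assoc, mul_left_comm (Real.exp _), h2, mul_one,
    mul_div_assoc, div_self h1, mul_one]

/-- the auxiliary entire function -/
noncomputable def Phi (α : ℝ) (f : (Fin n → ℂ) → ℂ) (z v : Fin n → ℂ) : ℂ :=
  f (z + v) * Complex.exp (-(α * dot v z) - (α / 2 * sq z : ℝ))

lemma differentiable_Phi {α : ℝ} {f : (Fin n → ℂ) → ℂ} (hf : Differentiable ℂ f) (z : Fin n → ℂ) :
    Differentiable ℂ (Phi α f z) := by
  have h1 : Differentiable ℂ (fun v : Fin n → ℂ => dot v z) := by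
    unfold dot
    fun_prop
  unfold Phi
  exact (hf.comp (differentiable_id.const_add z)).mul
    (((h1.const_mul _).neg.sub_const _).cexp)

lemma norm_Phi {α : ℝ} {f : (Fin n → ℂ) → ℂ} (z v : Fin n → ℂ) :
    ‖Phi α f z v‖ = mm α 0 f (z + v) * Real.exp (α / 2 * sq v) := by
  unfold Phi mm
  rw [norm_mul, Complex.norm_exp, pow_zero, div_one, mul_assoc, ← Real.exp_add]
  congr 2
  rw [sq_add, Complex.sub_re, Complex.neg_re, Complex.re_ofReal_mul, Complex.ofReal_re]
  ring

/-- the sub-mean value property of the weighted modulus, `k = 0` -/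
lemma mm_submean0 {α : ℝ} (hα : 0 < α) {f : (Fin n → ℂ) → ℂ} (hf : Differentiable ℂ f) {r : ℝ}
    (hr : 0 < r) (z : Fin n → ℂ) : mm α 0 f z ^ r ≤
    Real.exp (α / 2 * n * r) / (volume : Measure (Fin n → ℂ)).real (closedBall 0 1) *
      ∫ u in closedBall z 1, mm α 0 f u ^ r := by
  have hV := vol_pos (n := n) one_pos
  have h1 := submean (differentiable_Phi (α := α) hf z) hr
  have h0 : ‖Phi α f z 0‖ = mm α 0 f z := by
    rw [norm_Phi]; simp [sq]
  rw [h0] at h1
  have hcm : Continuous (fun u => mm α 0 f u ^ r) :=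
    (continuous_mm hf.continuous).rpow_const fun _ => Or.inr hr.le
  have h2 : ∫ v in closedBall (0 : Fin n → ℂ) 1, ‖Phi α f z v‖ ^ r ≤
      ∫ v in closedBall (0 : Fin n → ℂ) 1, Real.exp (α / 2 * n * r) * mm α 0 f (z + v) ^ r := by
    apply setIntegral_mono_on
    · exact (continuous_rot_norm (differentiable_Phi hf z).continuous r hr).continuousOn.integrableOn_compact
        (isCompact_closedBall _ _)
    · exact ((continuous_const.mul (hcm.comp (continuous_const.add continuous_id))).continuousOn).integrableOn_compact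
        (isCompact_closedBall _ _)
    · exact measurableSet_closedBall
    · intro v hv
      have hv1 : ‖v‖ ≤ 1 := by simpa using hv
      rw [norm_Phi, Real.mul_rpow (mm_nonneg _ _ _ _) (Real.exp_pos _).le, mul_comm]
      apply mul_le_mul_of_nonneg_right _ (Real.rpow_nonneg (mm_nonneg _ _ _ _) _)
      rw [← Real.exp_mul]
      apply Real.exp_le_exp.2
      have h3 : sq v ≤ n := by
        have := sq_le v
        have h4 : ‖v‖ ^ 2 ≤ 1 := pow_le_one₀ (norm_nonneg _) hv1
        nlinarith [(Nat.cast_nonneg n : (0:ℝ) ≤ n)]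
      have h4 : α / 2 * sq v ≤ α / 2 * n := mul_le_mul_of_nonneg_left h3 (by positivity)
      exact mul_le_mul_of_nonneg_right h4 hr.le
  have h3 : ∫ v in closedBall (0 : Fin n → ℂ) 1, Real.exp (α / 2 * n * r) * mm α 0 f (z + v) ^ r =
      Real.exp (α / 2 * n * r) * ∫ u in closedBall z 1, mm α 0 f u ^ r := by
    rw [integral_const_mul]
    congr 1
    have h4 := (measurePreserving_add_left (volume : Measure (Fin n → ℂ)) z).setIntegral_preimage_emb
      (measurableEmbedding_addLeft z) (fun u => mm α 0 f u ^ r) (closedBall z 1)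
    have h5 : (fun x => z + x) ⁻¹' closedBall z 1 = closedBall (0 : Fin n → ℂ) 1 := by
      ext v; simp
    rw [h5] at h4
    exact h4
  rw [h3] at h2
  rw [div_mul_eq_mul_div, le_div_iff₀ hV]
  linarith

/-- comparison of the weights on unit balls -/
lemma weight_cmp {z u : Fin n → ℂ} (hu : u ∈ closedBall z 1) :
    1 + sq u ≤ (2 * (n + 1)) * (1 + sq z) := by
  have h1 : u = z + (u - z) := by abel
  have h2 : sq (u - z) ≤ n := by
    have h3 := sq_le (u - z)
    have h4 : ‖u - z‖ ≤ 1 := by rwa [mem_closedBall, dist_eq_norm] at hu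
    have h5 : ‖u - z‖ ^ 2 ≤ 1 := pow_le_one₀ (norm_nonneg _) h4
    nlinarith [(Nat.cast_nonneg n : (0:ℝ) ≤ n)]
  rw [h1]
  have h6 := sq_add_le z (u - z)
  have h7 := sq_nonneg' z
  nlinarith [(Nat.cast_nonneg n : (0:ℝ) ≤ n), mul_nonneg (Nat.cast_nonneg n : (0:ℝ) ≤ n) h7]

/-- the sub-mean value property of the weighted modulus -/
lemma mm_submean {α : ℝ} (hα : 0 < α) (k : ℕ) {r : ℝ} (hr : 0 < r) :
    ∃ C : ℝ, 0 < C ∧ ∀ f : (Fin n → ℂ) → ℂ, Differentiable ℂ f → ∀ z : Fin n → ℂ,
      mm α k f z ^ r ≤ C * ∫ u in closedBall z 1, mm α k f u ^ r := by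
  set c : ℝ := (2 * ((n : ℝ) + 1)) with hc
  have hc0 : 0 < c := by positivity
  have hV := vol_pos (n := n) one_pos
  refine ⟨Real.exp (α / 2 * n * r) / (volume : Measure (Fin n → ℂ)).real (closedBall 0 1) *
    (c ^ k) ^ r, by positivity, fun f hf z => ?_⟩
  have h1 := mm_submean0 hα hf hr z
  have hmk : ∀ u : Fin n → ℂ, mm α 0 f u = mm α k f u * (1 + sq u) ^ k := by
    intro u
    unfold mm
    rw [pow_zero, div_one, div_mul_cancel₀ _ (pow_pos (one_add_sq_pos u) k).ne']
  have hcm : Continuous (fun u => mm α k f u ^ r) :=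
    (continuous_mm hf.continuous).rpow_const fun _ => Or.inr hr.le
  have hcm0 : Continuous (fun u => mm α 0 f u ^ r) :=
    (continuous_mm hf.continuous).rpow_const fun _ => Or.inr hr.le
  set W : ℝ := ((1 + sq z) ^ k) ^ r with hW
  have hz1 := pow_pos (one_add_sq_pos z) k
  have hW0 : 0 < W := Real.rpow_pos_of_pos hz1 _
  have h2 : ∫ u in closedBall z 1, mm α 0 f u ^ r ≤
      ∫ u in closedBall z 1, ((c ^ k) ^ r * W) * mm α k f u ^ r := by
    apply setIntegral_mono_on
    · exact hcm0.continuousOn.integrableOn_compact (isCompact_closedBall _ _)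
    · exact (continuous_const.mul hcm).continuousOn.integrableOn_compact (isCompact_closedBall _ _)
    · exact measurableSet_closedBall
    · intro u hu
      rw [hmk u, Real.mul_rpow (mm_nonneg _ _ _ _) (pow_pos (one_add_sq_pos u) k).le, mul_comm]
      refine mul_le_mul_of_nonneg_right ?_ (Real.rpow_nonneg (mm_nonneg _ _ _ _) _)
      rw [hW, ← Real.mul_rpow (by positivity) hz1.le, ← mul_pow]
      exact Real.rpow_le_rpow (pow_pos (one_add_sq_pos u) k).le
        (pow_le_pow_left₀ (one_add_sq_pos u).le (weight_cmp hu) k) hr.le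
  rw [integral_const_mul] at h2
  rw [hmk z, Real.mul_rpow (mm_nonneg _ _ _ _) hz1.le, ← hW] at h1
  have h3 : mm α k f z ^ r * W ≤
      (Real.exp (α / 2 * n * r) / (volume : Measure (Fin n → ℂ)).real (closedBall 0 1) *
        (c ^ k) ^ r * ∫ u in closedBall z 1, mm α k f u ^ r) * W := by
    calc _ ≤ _ := h1
      _ ≤ Real.exp (α / 2 * n * r) / (volume : Measure (Fin n → ℂ)).real (closedBall 0 1) *
        ((c ^ k) ^ r * W * ∫ u in closedBall z 1, mm α k f u ^ r) :=
          mul_le_mul_of_nonneg_left h2 (by positivity)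
      _ = _ := by ring
  exact le_of_mul_le_mul_right h3 hW0

/-- a continuous majorant of the local maxima in `L^p`, and a uniform bound -/
lemma exists_G {α : ℝ} (hα : 0 < α) {p : ℝ≥0∞} (hp : p ≠ 0) (k : ℕ) {f : (Fin n → ℂ) → ℂ}
    (hd : Differentiable ℂ f) (hm : MemLp (mm α k f) p volume) :
    ∃ G : (Fin n → ℂ) → ℝ, Continuous G ∧ (∀ z, 0 ≤ G z) ∧ MemLp G p volume ∧
      (∀ z v : Fin n → ℂ, ‖v‖ ≤ 2 → mm α k f (z + v) ≤ G z) ∧ ∃ M : ℝ, ∀ z, mm α k f z ≤ M := by
  have hcm := continuous_mm (α := α) (k := k) hd.continuous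
  have hnorm : ∀ z, ‖mm α k f z‖ = mm α k f z := fun z => Real.norm_of_nonneg (mm_nonneg _ _ _ _)
  by_cases htop : p = ⊤
  · subst htop
    have h1 : eLpNormEssSup (mm α k f) volume < ⊤ := by
      have := hm.2
      rwa [eLpNorm_exponent_top] at this
    set C : ℝ := (eLpNormEssSup (mm α k f) volume).toReal with hC
    have h2 : ∀ᵐ z ∂(volume : Measure (Fin n → ℂ)), mm α k f z ≤ C := by
      filter_upwards [ae_le_eLpNormEssSup (f := mm α k f) (μ := volume)] with z hz
      have h3 := ENNReal.toReal_mono h1.ne hz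
      rw [toReal_enorm, hnorm] at h3
      exact h3
    have h3 : ∀ z, mm α k f z ≤ C := by
      have h4 := Measure.dense_of_ae h2
      have h5 : IsClosed {z | mm α k f z ≤ C} := isClosed_le hcm continuous_const
      have h6 : {z | mm α k f z ≤ C} = univ := by
        rw [← h5.closure_eq]; exact h4.closure_eq
      intro z
      have : z ∈ {z | mm α k f z ≤ C} := by rw [h6]; trivial
      exact this
    exact ⟨fun _ => C, continuous_const, fun _ => ENNReal.toReal_nonneg, memLp_top_const _,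
      fun z v _ => h3 _, C, h3⟩
  · set r : ℝ := p.toReal with hr
    have hr0 : 0 < r := ENNReal.toReal_pos hp htop
    obtain ⟨C, hC0, hCm⟩ := mm_submean (n := n) hα k hr0
    have hcr : Continuous (fun u => mm α k f u ^ r) := hcm.rpow_const fun _ => Or.inr hr0.le
    have hint : Integrable (fun u => mm α k f u ^ r) := by
      have h1 := hm.integrable_norm_rpow hp htop
      simp only [hnorm] at h1
      exact h1
    set I : (Fin n → ℂ) → ℝ := fun z => ∫ u in closedBall z 3, mm α k f u ^ r with hI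
    have hI0 : ∀ z, 0 ≤ I z := fun z =>
      setIntegral_nonneg measurableSet_closedBall fun u _ => Real.rpow_nonneg (mm_nonneg _ _ _ _) _
    have hIeq : ∀ z, I z = ∫ v in closedBall (0 : Fin n → ℂ) 3, mm α k f (z + v) ^ r := by
      intro z
      have h4 := (measurePreserving_add_left (volume : Measure (Fin n → ℂ)) z).setIntegral_preimage_emb
        (measurableEmbedding_addLeft z) (fun u => mm α k f u ^ r) (closedBall z 3)
      have h5 : (fun x => z + x) ⁻¹' closedBall z 3 = closedBall (0 : Fin n → ℂ) 3 := by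
        ext v; simp
      rw [h5] at h4
      exact h4.symm
    have hIc : Continuous I := by
      have h1 : I = fun z => ∫ v in closedBall (0 : Fin n → ℂ) 3, mm α k f (z + v) ^ r := by
        funext z; exact hIeq z
      rw [h1]
      apply continuous_parametric_integral_of_continuous (f := fun z v => mm α k f (z + v) ^ r)
      · exact hcr.comp (continuous_fst.add continuous_snd)
      · exact isCompact_closedBall _ _
    have hIint : Integrable I := by
      set κ : (Fin n → ℂ) → ℝ := (closedBall (0 : Fin n → ℂ) 3).indicator fun _ => 1 with hk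
      have hk1 : Integrable κ := by
        have h0 : IntegrableOn (fun _ : Fin n → ℂ => (1 : ℝ)) (closedBall (0 : Fin n → ℂ) 3) :=
          integrableOn_const measure_closedBall_lt_top.ne
        exact h0.integrable_indicator measurableSet_closedBall
      have h1 := hint.integrable_convolution (ContinuousLinearMap.mul ℝ ℝ) hk1
      refine h1.congr (Eventually.of_forall fun z => ?_)
      show ∫ t, mm α k f t ^ r * κ (z - t) = I z
      rw [hI]
      simp only
      rw [← integral_indicator measurableSet_closedBall]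
      congr 1
      funext t
      rw [hk]
      by_cases ht : t ∈ closedBall z 3
      · have ht' : z - t ∈ closedBall (0 : Fin n → ℂ) 3 := by
          rw [mem_closedBall, dist_eq_norm] at ht
          rw [mem_closedBall, dist_eq_norm, sub_zero, norm_sub_rev]; exact ht
        rw [indicator_of_mem ht', indicator_of_mem ht, mul_one]
      · have ht' : z - t ∉ closedBall (0 : Fin n → ℂ) 3 := by
          intro h; apply ht
          rw [mem_closedBall, dist_eq_norm, sub_zero, norm_sub_rev] at h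
          rw [mem_closedBall, dist_eq_norm]; exact h
        rw [indicator_of_notMem ht', indicator_of_notMem ht, mul_zero]
    set G : (Fin n → ℂ) → ℝ := fun z => (C * I z) ^ (1 / r) with hG
    have hG0 : ∀ z, 0 ≤ G z := fun z => Real.rpow_nonneg (mul_nonneg hC0.le (hI0 z)) _
    have hGc : Continuous G :=
      (continuous_const.mul hIc).rpow_const fun _ => Or.inr (by positivity)
    have hGr : ∀ z, ‖G z‖ ^ r = C * I z := by
      intro z
      rw [Real.norm_of_nonneg (hG0 z), hG]
      simp only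
      rw [← Real.rpow_mul (mul_nonneg hC0.le (hI0 z)), one_div, inv_mul_cancel₀ hr0.ne',
        Real.rpow_one]
    have hroot : ∀ z, mm α k f z = (mm α k f z ^ r) ^ (1 / r) := by
      intro z
      rw [← Real.rpow_mul (mm_nonneg _ _ _ _), one_div, mul_inv_cancel₀ hr0.ne', Real.rpow_one]
    refine ⟨G, hGc, hG0, ?_, ?_, (C * ∫ u, mm α k f u ^ r) ^ (1 / r), ?_⟩
    · rw [← integrable_norm_rpow_iff hGc.aestronglyMeasurable hp htop, ← hr]
      simp only [hGr]
      exact hIint.const_mul C
    · intro z v hv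
      have h1 := hCm f hd (z + v)
      have h2 : ∫ u in closedBall (z + v) 1, mm α k f u ^ r ≤ I z := by
        apply setIntegral_mono_set hint.integrableOn
        · exact Eventually.of_forall fun u => Real.rpow_nonneg (mm_nonneg _ _ _ _) _
        · apply Eventually.of_forall
          intro u hu
          have hu' : dist u (z + v) ≤ 1 := hu
          have hz' : dist (z + v) z ≤ 2 := by
            rw [dist_eq_norm]; simpa using hv
          show dist u z ≤ 3
          linarith [dist_triangle u (z + v) z]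
      have h3 : mm α k f (z + v) ^ r ≤ C * I z :=
        h1.trans (mul_le_mul_of_nonneg_left h2 hC0.le)
      rw [hroot]
      exact Real.rpow_le_rpow (Real.rpow_nonneg (mm_nonneg _ _ _ _) _) h3 (by positivity)
    · intro z
      have h1 := hCm f hd z
      have h2 : ∫ u in closedBall z 1, mm α k f u ^ r ≤ ∫ u, mm α k f u ^ r :=
        setIntegral_le_integral hint
          (Eventually.of_forall fun u => Real.rpow_nonneg (mm_nonneg _ _ _ _) _)
      rw [hroot z]
      exact Real.rpow_le_rpow (Real.rpow_nonneg (mm_nonneg _ _ _ _) _)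
        (h1.trans (mul_le_mul_of_nonneg_left h2 hC0.le)) (by positivity)

end Pool.Agent.X116.Fk
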