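import Pool.Agent.X116.FkA
import Pool.Agent.Helper417.Mer.HartogsExt

/-!
# The radial derivative and Fock spaces
-/

set_option autoImplicit false

open MeasureTheory Metric Filter Topology Set
open scoped ENNReal

namespace Pool.Agent.X116.Fk

variable {n : ℕ}

/-- The radial derivative `Rf(z) = ∑ z_i ∂f/∂z_i (z)`. -/
noncomputable def Rad (f : (Fin n → ℂ) → ℂ) (z : Fin n → ℂ) : ℂ :=
  ∑ i, z i * fderiv ℂ f z (Pi.single i 1)

lemma Rad_eq (f : (Fin n → ℂ) → ℂ) (z : Fin n → ℂ) : Rad f z = fderiv ℂ f z z := by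
  have h1 := LinearMap.pi_apply_eq_sum_univ (fderiv ℂ f z).toLinearMap z
  have h2 : fderiv ℂ f z z = (fderiv ℂ f z).toLinearMap z := rfl
  rw [h2, h1]
  unfold Rad
  refine Finset.sum_congr rfl fun i _ => ?_
  rw [smul_eq_mul]
  congr 1
  show fderiv ℂ f z _ = fderiv ℂ f z _
  congr 1
  funext j
  simp [Pi.single_apply, eq_comm]

lemma Rad_diff {f : (Fin n → ℂ) → ℂ} (hf : Differentiable ℂ f) : Differentiable ℂ (Rad f) := by
  have h1 : ∀ v : Fin n → ℂ, Differentiable ℂ (fun z => fderiv ℂ f z v) := by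
    intro v
    rw [← differentiableOn_univ]
    exact Helper417.Mer.Hartogs673.differentiableOn_fderiv_apply isOpen_univ
      hf.differentiableOn v
  unfold Rad
  refine Differentiable.fun_sum fun i _ => ?_
  exact (differentiable_apply i).mul (h1 _)

lemma Rad_iter_diff {f : (Fin n → ℂ) → ℂ} (hf : Differentiable ℂ f) (N : ℕ) :
    Differentiable ℂ (Rad^[N] f) := by
  induction N with
  | zero => exact hf
  | succ N ih =>
    rw [Function.iterate_succ_apply']
    exact Rad_diff ih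

/-- the estimate of the radial derivative -/
lemma fwd {α : ℝ} (hα : 0 < α) {p : ℝ≥0∞} (hp : p ≠ 0) (k : ℕ) {f : (Fin n → ℂ) → ℂ}
    (hd : Differentiable ℂ f) (hm : MemLp (mm α k f) p volume) :
    MemLp (mm α (k + 1) (Rad f)) p volume := by
  obtain ⟨G, hGc, hG0, hGm, hG, -⟩ := exists_G hα hp k hd hm
  refine hGm.of_le_mul (c := 4 ^ k * Real.exp (3 * α / 2))
    (continuous_mm (Rad_diff hd).continuous).aestronglyMeasurable (Eventually.of_forall fun z => ?_)
  rw [Real.norm_of_nonneg (mm_nonneg _ _ _ _), Real.norm_of_nonneg (hG0 z)]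
  set s := sq z with hs
  have hs0 : 0 ≤ s := sq_nonneg' z
  set ρ : ℝ := 1 / (1 + s) with hρ
  have hρ0 : 0 < ρ := by positivity
  have hρ1 : ρ ≤ 1 := by
    rw [hρ, div_le_one (by positivity)]
    linarith
  have hρs : ρ * s ≤ 1 := by
    rw [hρ, div_mul_eq_mul_div, one_mul, div_le_one (by positivity)]
    linarith
  set B : ℝ := G z * ((4 * (1 + s)) ^ k * Real.exp (α / 2 * (s + 3))) with hB
  have hline : Differentiable ℂ (fun t : ℂ => f (z + t • z)) :=
    hd.comp ((differentiable_id.smul_const z).const_add z)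
  have hder : deriv (fun t : ℂ => f (z + t • z)) 0 = Rad f z := by
    have h1 : HasDerivAt (fun t : ℂ => z + t • z) ((1 : ℂ) • z) 0 :=
      ((hasDerivAt_id (0 : ℂ)).smul_const z).const_add z
    have h2 : HasFDerivAt f (fderiv ℂ f (z + (0 : ℂ) • z)) (z + (0 : ℂ) • z) :=
      (hd _).hasFDerivAt
    have h3 := h2.comp_hasDerivAt (0 : ℂ) h1
    have h4 := h3.deriv
    rw [Rad_eq]
    rw [zero_smul, add_zero, one_smul] at h4
    exact h4
  have hcauchy : ‖Rad f z‖ ≤ B / ρ := by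
    rw [← hder]
    refine Complex.norm_deriv_le_of_forall_mem_sphere_norm_le hρ0 hline.diffContOnCl ?_
    intro t ht
    rw [mem_sphere_zero_iff_norm] at ht
    have hz1 : ‖t • z‖ ≤ 2 := by
      rw [norm_smul, ht]
      have h5 : ‖z‖ ≤ 1 + s := by
        have := le_sq z
        nlinarith [norm_nonneg z, sq_nonneg (‖z‖ - 1)]
      have h6 : ρ * ‖z‖ ≤ ρ * (1 + s) := mul_le_mul_of_nonneg_left h5 hρ0.le
      rw [hρ, one_div, inv_mul_cancel₀ (by positivity)] at h6
      rw [hρ, one_div]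
      linarith
    have hsq : sq (z + t • z) ≤ s + 3 := by
      have h7 : z + t • z = (1 + t) • z := by rw [add_smul, one_smul]
      rw [h7, sq_smul, ← hs]
      have h8 : ‖1 + t‖ ≤ 1 + ρ := by
        refine (norm_add_le _ _).trans ?_
        rw [norm_one, ht]
      have h9 : ‖1 + t‖ ^ 2 ≤ (1 + ρ) ^ 2 := pow_le_pow_left₀ (norm_nonneg _) h8 2
      have h10 : (1 + ρ) ^ 2 * s ≤ s + 3 := by nlinarith
      exact (mul_le_mul_of_nonneg_right h9 hs0).trans h10
    show ‖f (z + t • z)‖ ≤ B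
    rw [norm_f_eq α k f (z + t • z), hB]
    have hsq0 := sq_nonneg' (z + t • z)
    refine mul_le_mul (hG z _ hz1) ?_ (by positivity) (hG0 z)
    refine mul_le_mul ?_ ?_ (by positivity) (by positivity)
    · exact pow_le_pow_left₀ (by positivity) (by linarith) k
    · exact Real.exp_le_exp.2 (mul_le_mul_of_nonneg_left hsq (by positivity))
  unfold mm
  rw [← hs]
  have h11 : B / ρ * Real.exp (-(α / 2) * s) / (1 + s) ^ (k + 1) =
      4 ^ k * Real.exp (3 * α / 2) * G z := by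
    rw [hB, hρ, mul_pow, pow_succ]
    have h12 : Real.exp (α / 2 * (s + 3)) * Real.exp (-(α / 2) * s) = Real.exp (3 * α / 2) := by
      rw [← Real.exp_add]
      congr 1
      ring
    rw [← h12]
    have h13 : (1 + s) ≠ 0 := by positivity
    field_simp
  rw [← h11]
  refine div_le_div_of_nonneg_right ?_ (by positivity)
  exact mul_le_mul_of_nonneg_right hcauchy (Real.exp_pos _).le

/-- a negative power of `1 + ‖z‖` is in `L^p` -/
lemma exists_H {p : ℝ≥0∞} (hp : p ≠ 0) :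
    ∃ q : ℕ, MemLp (fun z : Fin n → ℂ => ((1 + ‖z‖) ^ q)⁻¹) p volume := by
  have hc : ∀ q : ℕ, Continuous (fun z : Fin n → ℂ => ((1 + ‖z‖) ^ q)⁻¹) := by
    intro q
    refine Continuous.inv₀ (by fun_prop) fun z => ?_
    positivity
  by_cases htop : p = ⊤
  · subst htop
    refine ⟨0, ?_⟩
    simp only [pow_zero, inv_one]
    exact memLp_top_const _
  · set r : ℝ := p.toReal with hr
    have hr0 : 0 < r := ENNReal.toReal_pos hp htop
    obtain ⟨q, hq⟩ := exists_nat_gt ((Module.finrank ℝ (Fin n → ℂ) : ℝ) / r)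
    rw [div_lt_iff₀ hr0] at hq
    refine ⟨q, ?_⟩
    rw [← integrable_norm_rpow_iff (hc q).aestronglyMeasurable hp htop, ← hr]
    have h1 := integrable_one_add_norm (E := Fin n → ℂ) (μ := volume) hq
    refine h1.congr (Eventually.of_forall fun z => ?_)
    have h2 : (0 : ℝ) < 1 + ‖z‖ := by positivity
    simp only
    rw [Real.norm_of_nonneg (by positivity), Real.rpow_neg h2.le, Real.rpow_mul h2.le,
      Real.rpow_natCast, Real.inv_rpow (by positivity)]

/-- growth of `f` from growth of `Rf` -/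
lemma crude {α : ℝ} (hα : 0 < α) (k : ℕ) {f : (Fin n → ℂ) → ℂ} (hd : Differentiable ℂ f) {M N0 : ℝ}
    (hM0 : 0 ≤ M) (hM : ∀ z, mm α k (Rad f) z ≤ M) (hN : ∀ z : Fin n → ℂ, ‖z‖ ≤ 1 → ‖f z‖ ≤ N0)
    (w : Fin n → ℂ) :
    ‖f w‖ ≤ N0 + M * ‖w‖ * ((1 + sq w) ^ k * Real.exp (α / 2 * sq w)) := by
  have hw0 := sq_nonneg' w
  rcases le_or_gt ‖w‖ 1 with h1 | h1
  · have := hN w h1
    have h2 : 0 ≤ M * ‖w‖ * ((1 + sq w) ^ k * Real.exp (α / 2 * sq w)) := by positivity
    linarith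
  have hwp : 0 < ‖w‖ := by linarith
  set a : ℝ := ‖w‖⁻¹ with ha
  have ha0 : 0 < a := by positivity
  have ha1 : a < 1 := inv_lt_one_of_one_lt₀ h1
  set φ : ℝ → ℂ := fun t => f ((t : ℂ) • w) with hφ
  have hφd : ∀ t : ℝ, HasDerivAt φ (fderiv ℂ f ((t : ℂ) • w) w) t := by
    intro t
    have e1 : HasDerivAt (fun u : ℂ => u • w) ((1 : ℂ) • w) (t : ℂ) :=
      (hasDerivAt_id (t : ℂ)).smul_const w
    have e2 : HasFDerivAt f (fderiv ℂ f ((t : ℂ) • w)) ((t : ℂ) • w) := (hd _).hasFDerivAt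
    have e3 := (e2.comp_hasDerivAt (t : ℂ) e1).comp_ofReal
    rw [one_smul] at e3
    exact e3
  set K : ℝ := M * ‖w‖ * ((1 + sq w) ^ k * Real.exp (α / 2 * sq w)) with hK
  have hK0 : 0 ≤ K := by positivity
  have hbound : ∀ t ∈ Ico a 1, ‖fderiv ℂ f ((t : ℂ) • w) w‖ ≤ K := by
    intro t ht
    have ht0 : 0 < t := ha0.trans_le ht.1
    have h2 : (t : ℂ) * fderiv ℂ f ((t : ℂ) • w) w = Rad f ((t : ℂ) • w) := by
      rw [Rad_eq, ContinuousLinearMap.map_smul, smul_eq_mul]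
    have h3 : t * ‖fderiv ℂ f ((t : ℂ) • w) w‖ = ‖Rad f ((t : ℂ) • w)‖ := by
      rw [← h2, norm_mul, Complex.norm_real, Real.norm_of_nonneg ht0.le]
    have h4 : sq ((t : ℂ) • w) ≤ sq w := by
      rw [sq_smul, Complex.norm_real, Real.norm_of_nonneg ht0.le]
      have : t ^ 2 ≤ 1 := pow_le_one₀ ht0.le ht.2.le
      nlinarith
    have h40 := sq_nonneg' ((t : ℂ) • w)
    have h5 : ‖Rad f ((t : ℂ) • w)‖ ≤ M * ((1 + sq w) ^ k * Real.exp (α / 2 * sq w)) := by
      rw [norm_f_eq α k (Rad f)]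
      refine mul_le_mul (hM _) ?_ (by positivity) hM0
      refine mul_le_mul ?_ ?_ (by positivity) (by positivity)
      · exact pow_le_pow_left₀ (by positivity) (by linarith) k
      · exact Real.exp_le_exp.2 (mul_le_mul_of_nonneg_left h4 (by positivity))
    have h6 : ‖fderiv ℂ f ((t : ℂ) • w) w‖ = ‖Rad f ((t : ℂ) • w)‖ / t := by
      rw [← h3, mul_div_cancel_left₀ _ ht0.ne']
    have h7 : 1 / t ≤ ‖w‖ := by
      rw [div_le_iff₀ ht0]
      have := ht.1
      rw [ha] at this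
      calc (1 : ℝ) = ‖w‖ * ‖w‖⁻¹ := by rw [mul_inv_cancel₀ hwp.ne']
        _ ≤ ‖w‖ * t := mul_le_mul_of_nonneg_left this hwp.le
    rw [h6, div_eq_mul_one_div, hK]
    calc _ ≤ (M * ((1 + sq w) ^ k * Real.exp (α / 2 * sq w))) * ‖w‖ :=
          mul_le_mul h5 h7 (by positivity) (by positivity)
      _ = _ := by ring
  have h8 := norm_image_sub_le_of_norm_deriv_le_segment' (f := φ)
    (f' := fun t => fderiv ℂ f ((t : ℂ) • w) w) (a := a) (b := 1) (C := K)
    (fun t _ => (hφd t).hasDerivWithinAt) hbound 1 ⟨ha1.le, le_refl _⟩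
  have h9 : ‖φ a‖ ≤ N0 := by
    refine hN _ ?_
    rw [norm_smul, Complex.norm_real, Real.norm_of_nonneg ha0.le, ha, inv_mul_cancel₀ hwp.ne']
  have h10 : φ 1 = f w := by
    rw [hφ]
    simp
  rw [h10] at h8
  have h11 := norm_le_norm_add_norm_sub' (f w) (φ a)
  have h12 : K * (1 - a) ≤ K := by nlinarith
  linarith

end Pool.Agent.X116.Fk
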