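import Pool.Agent.X116.FkB

/-!
# The radial derivative and Fock spaces: the converse estimate
-/

set_option autoImplicit false

open MeasureTheory Metric Filter Topology Set
open scoped ENNReal

namespace Pool.Agent.X116.Fk

variable {n : ℕ}

/-- polynomials against exponentials -/
lemma poly_exp (m : ℕ) {c : ℝ} (hc : 0 < c) :
    ∃ C : ℝ, 0 < C ∧ ∀ r : ℝ, 0 ≤ r → (1 + r) ^ m * Real.exp (-(c * r)) ≤ C := by
  refine ⟨m.factorial * (1 / c) ^ m * Real.exp c, by positivity, fun r hr => ?_⟩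
  have h1 := Real.pow_div_factorial_le_exp (c * (1 + r)) (by positivity) m
  rw [div_le_iff₀ (by positivity), mul_pow] at h1
  have h2 : (1 + r) ^ m ≤ Real.exp (c * (1 + r)) * m.factorial * (1 / c) ^ m := by
    have h3 : (1 + r) ^ m = (c ^ m * (1 + r) ^ m) * (1 / c) ^ m := by
      rw [one_div, inv_pow]
      field_simp
    rw [h3]
    exact mul_le_mul_of_nonneg_right h1 (by positivity)
  calc _ ≤ (Real.exp (c * (1 + r)) * m.factorial * (1 / c) ^ m) * Real.exp (-(c * r)) :=
        mul_le_mul_of_nonneg_right h2 (Real.exp_pos _).le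
    _ = (m.factorial * (1 / c) ^ m) * (Real.exp (c * (1 + r)) * Real.exp (-(c * r))) := by ring
    _ = _ := by
      rw [← Real.exp_add]
      congr 2
      ring

/-- the estimate near a point with `‖z‖ ≥ 2` -/
lemma near {α : ℝ} (hα : 0 < α) (k : ℕ) {f : (Fin n → ℂ) → ℂ} (hd : Differentiable ℂ f)
    {g : ℝ} (hg0 : 0 ≤ g) (z : Fin n → ℂ) (hz : 2 ≤ ‖z‖)
    (hg : ∀ v : Fin n → ℂ, ‖v‖ ≤ 2 → mm α (k + 1) (Rad f) (z + v) ≤ g) :
    ‖f z‖ ≤ ‖f (((1 - ‖z‖⁻¹ : ℝ) : ℂ) • z)‖ +
      g * (5 / α) * ((1 + sq z) ^ k * Real.exp (α / 2 * sq z)) := by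
  set s := sq z with hs
  have hzp : 0 < ‖z‖ := by linarith
  have hs4 : 4 ≤ s := by
    have := le_sq z
    nlinarith
  set a : ℝ := 1 - ‖z‖⁻¹ with ha
  have hinv : ‖z‖⁻¹ ≤ 1 / 2 := by
    rw [inv_le_comm₀ hzp (by norm_num)]
    simpa using hz
  have hinv0 : 0 < ‖z‖⁻¹ := by positivity
  have ha0 : 1 / 2 ≤ a := by linarith
  have ha1 : a < 1 := by linarith
  set φ : ℝ → ℂ := fun t => f ((t : ℂ) • z) with hφ
  have hφd : ∀ t : ℝ, HasDerivAt φ (fderiv ℂ f ((t : ℂ) • z) z) t := by
    intro t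
    have e1 : HasDerivAt (fun u : ℂ => u • z) ((1 : ℂ) • z) (t : ℂ) :=
      (hasDerivAt_id (t : ℂ)).smul_const z
    have e2 : HasFDerivAt f (fderiv ℂ f ((t : ℂ) • z)) ((t : ℂ) • z) := (hd _).hasFDerivAt
    have e3 := (e2.comp_hasDerivAt (t : ℂ) e1).comp_ofReal
    rw [one_smul] at e3
    exact e3
  set K : ℝ := 2 * (g * (1 + s) ^ (k + 1)) with hK
  have hK0 : 0 ≤ K := by positivity
  have hαs : 0 < α * s := by positivity
  set Bf : ℝ → ℝ := fun t => ‖φ a‖ + K * (2 / (α * s)) *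
    (Real.exp (α / 2 * s * t) - Real.exp (α / 2 * s * a)) with hBf
  have hB' : ∀ t, HasDerivAt Bf (K * Real.exp (α / 2 * s * t)) t := by
    intro t
    have e1 : HasDerivAt (fun t : ℝ => α / 2 * s * t) (α / 2 * s * 1) t :=
      (hasDerivAt_id t).const_mul _
    have e2 := ((e1.exp.sub_const (Real.exp (α / 2 * s * a))).const_mul
      (K * (2 / (α * s)))).const_add ‖φ a‖
    refine e2.congr_deriv ?_
    field_simp
  have hbound : ∀ t ∈ Ico a 1, ‖fderiv ℂ f ((t : ℂ) • z) z‖ ≤ K * Real.exp (α / 2 * s * t) := by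
    intro t ht
    have ht0 : 1 / 2 ≤ t := ha0.trans ht.1
    have ht1 : t < 1 := ht.2
    have h2 : (t : ℂ) * fderiv ℂ f ((t : ℂ) • z) z = Rad f ((t : ℂ) • z) := by
      rw [Rad_eq, ContinuousLinearMap.map_smul, smul_eq_mul]
    have h3 : t * ‖fderiv ℂ f ((t : ℂ) • z) z‖ = ‖Rad f ((t : ℂ) • z)‖ := by
      rw [← h2, norm_mul, Complex.norm_real, Real.norm_of_nonneg (by linarith)]
    have h4 : sq ((t : ℂ) • z) ≤ t * s := by
      rw [sq_smul, Complex.norm_real, Real.norm_of_nonneg (by linarith)]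
      have : t ^ 2 ≤ t := by nlinarith
      nlinarith
    have h4' : sq ((t : ℂ) • z) ≤ s := h4.trans (by nlinarith)
    have h40 := sq_nonneg' ((t : ℂ) • z)
    have h50 : mm α (k + 1) (Rad f) ((t : ℂ) • z) ≤ g := by
      have h51 : (t : ℂ) • z = z + (((t - 1 : ℝ) : ℂ) • z) := by
        push_cast
        rw [sub_smul, one_smul]
        abel
      rw [h51]
      refine hg _ ?_
      rw [norm_smul, Complex.norm_real, Real.norm_eq_abs, abs_of_nonpos (by linarith)]
      have h52 : -(t - 1) ≤ ‖z‖⁻¹ := by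
        have := ht.1
        linarith
      have h53 : -(t - 1) * ‖z‖ ≤ ‖z‖⁻¹ * ‖z‖ := mul_le_mul_of_nonneg_right h52 hzp.le
      rw [inv_mul_cancel₀ hzp.ne'] at h53
      linarith
    have h5 : ‖Rad f ((t : ℂ) • z)‖ ≤ g * ((1 + s) ^ (k + 1) * Real.exp (α / 2 * s * t)) := by
      rw [norm_f_eq α (k + 1) (Rad f)]
      refine mul_le_mul h50 ?_ (by positivity) hg0
      refine mul_le_mul ?_ ?_ (by positivity) (by positivity)
      · exact pow_le_pow_left₀ (by positivity) (by linarith) (k + 1)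
      · refine Real.exp_le_exp.2 ?_
        have := mul_le_mul_of_nonneg_left h4 (by positivity : (0 : ℝ) ≤ α / 2)
        linarith
    have h6 : ‖fderiv ℂ f ((t : ℂ) • z) z‖ ≤ 2 * ‖Rad f ((t : ℂ) • z)‖ := by
      rw [← h3]
      nlinarith [norm_nonneg (fderiv ℂ f ((t : ℂ) • z) z)]
    rw [hK]
    calc _ ≤ _ := h6
      _ ≤ 2 * (g * ((1 + s) ^ (k + 1) * Real.exp (α / 2 * s * t))) := by linarith
      _ = _ := by ring
  have hcont : ContinuousOn φ (Icc a 1) := fun t _ => (hφd t).continuousAt.continuousWithinAt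
  have h8 := image_norm_le_of_norm_deriv_right_le_deriv_boundary (f := φ)
    (f' := fun t => fderiv ℂ f ((t : ℂ) • z) z) (a := a) (b := 1) hcont
    (fun t _ => (hφd t).hasDerivWithinAt) (B := Bf) (B' := fun t => K * Real.exp (α / 2 * s * t))
    (by rw [hBf]; simp) hB' hbound (x := 1) ⟨ha1.le, le_refl _⟩
  have h10 : φ 1 = f z := by
    rw [hφ]
    simp
  rw [h10, hBf] at h8
  simp only [mul_one] at h8
  have h11 : K * (2 / (α * s)) * (Real.exp (α / 2 * s) - Real.exp (α / 2 * s * a)) ≤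
      K * (2 / (α * s)) * Real.exp (α / 2 * s) := by
    refine mul_le_mul_of_nonneg_left ?_ (by positivity)
    linarith [Real.exp_pos (α / 2 * s * a)]
  have h12 : K * (2 / (α * s)) * Real.exp (α / 2 * s) ≤
      g * (5 / α) * ((1 + s) ^ k * Real.exp (α / 2 * s)) := by
    have h13 : K * (2 / (α * s)) * Real.exp (α / 2 * s) =
        g * (4 / α) * ((1 + s) / s) * ((1 + s) ^ k * Real.exp (α / 2 * s)) := by
      rw [hK, pow_succ]
      field_simp
      ring
    rw [h13]
    refine mul_le_mul_of_nonneg_right ?_ (by positivity)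
    have h14 : (1 + s) / s ≤ 5 / 4 := by
      rw [div_le_div_iff₀ (by linarith) (by norm_num)]
      linarith
    calc g * (4 / α) * ((1 + s) / s) ≤ g * (4 / α) * (5 / 4) :=
          mul_le_mul_of_nonneg_left h14 (by positivity)
      _ = _ := by ring
  have h15 : φ a = f ((a : ℂ) • z) := rfl
  rw [h15] at h8
  linarith

/-- the converse estimate -/
lemma bwd {α : ℝ} (hα : 0 < α) {p : ℝ≥0∞} (hp : p ≠ 0) (k : ℕ) {f : (Fin n → ℂ) → ℂ}
    (hd : Differentiable ℂ f) (hm : MemLp (mm α (k + 1) (Rad f)) p volume) :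
    MemLp (mm α k f) p volume := by
  obtain ⟨G, hGc, hG0, hGm, hG, M, hM⟩ := exists_G hα hp (k + 1) (Rad_diff hd) hm
  have hM0 : 0 ≤ M := (mm_nonneg _ _ _ _).trans (hM 0)
  obtain ⟨q, hq⟩ := exists_H (n := n) hp
  obtain ⟨N0, hN0⟩ := (isCompact_closedBall (0 : Fin n → ℂ) 2).exists_bound_of_continuousOn
    hd.continuous.continuousOn
  have hN0' : ∀ z : Fin n → ℂ, ‖z‖ ≤ 2 → ‖f z‖ ≤ N0 := fun z hz => hN0 z (by simpa using hz)
  have hN00 : 0 ≤ N0 := (norm_nonneg _).trans (hN0' 0 (by simp))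
  obtain ⟨C, hC0, hC⟩ := poly_exp (q + 3) (c := α / 2) (by positivity)
  set D : ℝ := (N0 + M * (1 + n)) * C + N0 * 3 ^ q with hD
  have hD0 : 0 ≤ D := by positivity
  have hbound : ∀ z, mm α k f z ≤ (5 / α) * G z + D * ((1 + ‖z‖) ^ q)⁻¹ := by
    intro z
    set s := sq z with hs
    have hs0 : 0 ≤ s := sq_nonneg' z
    have hG0z := hG0 z
    have hr0 : 0 ≤ ‖z‖ := norm_nonneg z
    rcases le_or_gt ‖z‖ 2 with hz | hz
    · -- small z
      have h1 : mm α k f z ≤ N0 := by
        unfold mm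
        rw [← hs]
        have h2 : Real.exp (-(α / 2) * s) ≤ 1 := by
          rw [Real.exp_le_one_iff]
          have : 0 ≤ α / 2 * s := by positivity
          linarith
        have h3 : (1 : ℝ) ≤ (1 + s) ^ k := one_le_pow₀ (by linarith)
        rw [div_le_iff₀ (by positivity)]
        have h4 := hN0' z hz
        calc ‖f z‖ * Real.exp (-(α / 2) * s) ≤ N0 * 1 :=
              mul_le_mul h4 h2 (Real.exp_pos _).le hN00
          _ ≤ N0 * (1 + s) ^ k := mul_le_mul_of_nonneg_left h3 hN00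
      have h5 : N0 ≤ N0 * 3 ^ q * ((1 + ‖z‖) ^ q)⁻¹ := by
        rw [← div_eq_mul_inv, le_div_iff₀ (by positivity)]
        exact mul_le_mul_of_nonneg_left (pow_le_pow_left₀ (by positivity) (by linarith) q) hN00
      have h6 : N0 * 3 ^ q * ((1 + ‖z‖) ^ q)⁻¹ ≤ D * ((1 + ‖z‖) ^ q)⁻¹ := by
        refine mul_le_mul_of_nonneg_right ?_ (by positivity)
        rw [hD]
        have : 0 ≤ (N0 + M * (1 + n)) * C := by positivity
        linarith
      have h7 : 0 ≤ (5 / α) * G z := by positivity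
      linarith
    · -- large z
      have hzp : 0 < ‖z‖ := by linarith
      have h1 := near hα k hd hG0z z hz.le (hG z)
      set a : ℝ := 1 - ‖z‖⁻¹ with ha
      have hinv0 : 0 < ‖z‖⁻¹ := by positivity
      have hinv1 : ‖z‖⁻¹ ≤ 1 := inv_le_one_of_one_le₀ (by linarith)
      have ha0 : 0 ≤ a := by linarith
      have h2 := crude hα (k + 1) hd hM0 hM (fun w hw => hN0' w (by linarith)) ((a : ℂ) • z)
      have h3 : ‖(a : ℂ) • z‖ ≤ ‖z‖ := by
        rw [norm_smul, Complex.norm_real, Real.norm_of_nonneg ha0]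
        nlinarith
      have h4 : sq ((a : ℂ) • z) ≤ s - ‖z‖ := by
        rw [sq_smul, Complex.norm_real, Real.norm_of_nonneg ha0, ← hs]
        have h5 : a ^ 2 ≤ 1 - ‖z‖⁻¹ := by
          rw [ha]
          nlinarith
        have h6 : ‖z‖ ≤ ‖z‖⁻¹ * s := by
          have h7 := mul_le_mul_of_nonneg_left (le_sq z) hinv0.le
          have h8 : ‖z‖⁻¹ * ‖z‖ ^ 2 = ‖z‖ := by
            rw [pow_two, ← mul_assoc, inv_mul_cancel₀ hzp.ne', one_mul]
          rw [h8] at h7
          exact h7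
        have h9 : a ^ 2 * s ≤ (1 - ‖z‖⁻¹) * s := mul_le_mul_of_nonneg_right h5 hs0
        linarith
      have h40 := sq_nonneg' ((a : ℂ) • z)
      have h10 : ‖f ((a : ℂ) • z)‖ ≤ N0 + M * ‖z‖ *
          ((1 + s) ^ (k + 1) * Real.exp (α / 2 * (s - ‖z‖))) := by
        refine h2.trans ?_
        refine add_le_add le_rfl ?_
        refine mul_le_mul (mul_le_mul_of_nonneg_left h3 hM0) ?_ (by positivity) (by positivity)
        refine mul_le_mul ?_ ?_ (by positivity) (by positivity)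
        · exact pow_le_pow_left₀ (by positivity) (by linarith) (k + 1)
        · exact Real.exp_le_exp.2 (mul_le_mul_of_nonneg_left h4 (by positivity))
      -- the weighted modulus
      have hE : 0 < Real.exp (-(α / 2) * s) := Real.exp_pos _
      have hP : 0 < (1 + s) ^ k := by positivity
      have hP1 : 1 ≤ (1 + s) ^ k := one_le_pow₀ (by linarith)
      have hEE : Real.exp (α / 2 * s) * Real.exp (-(α / 2) * s) = 1 := by
        rw [← Real.exp_add]
        have : α / 2 * s + -(α / 2) * s = 0 := by ring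
        rw [this, Real.exp_zero]
      have hEr : Real.exp (-(α / 2) * s) ≤ Real.exp (-(α / 2 * ‖z‖)) := by
        refine Real.exp_le_exp.2 ?_
        have h7 : ‖z‖ ≤ s := by
          have := le_sq z
          nlinarith
        nlinarith
      have hEs : Real.exp (α / 2 * (s - ‖z‖)) * Real.exp (-(α / 2) * s) =
          Real.exp (-(α / 2 * ‖z‖)) := by
        rw [← Real.exp_add]
        congr 1
        ring
      have h11 : mm α k f z ≤ (5 / α) * G z +
          (N0 + M * ‖z‖ * (1 + s)) * Real.exp (-(α / 2 * ‖z‖)) := by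
        unfold mm
        rw [← hs, div_le_iff₀ hP]
        have h12 := h1.trans (add_le_add h10 le_rfl)
        have h13 := mul_le_mul_of_nonneg_right h12 hE.le
        refine h13.trans ?_
        have e1 : (N0 + M * ‖z‖ * ((1 + s) ^ (k + 1) * Real.exp (α / 2 * (s - ‖z‖))) +
            G z * (5 / α) * ((1 + s) ^ k * Real.exp (α / 2 * s))) * Real.exp (-(α / 2) * s) =
            N0 * Real.exp (-(α / 2) * s) + M * ‖z‖ * (1 + s) * (1 + s) ^ k *
              (Real.exp (α / 2 * (s - ‖z‖)) * Real.exp (-(α / 2) * s)) +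
            G z * (5 / α) * (1 + s) ^ k * (Real.exp (α / 2 * s) * Real.exp (-(α / 2) * s)) := by
          rw [pow_succ]
          ring
        rw [e1, hEE, hEs]
        have e2 : N0 * Real.exp (-(α / 2) * s) ≤
            N0 * Real.exp (-(α / 2 * ‖z‖)) * (1 + s) ^ k := by
          calc _ ≤ N0 * Real.exp (-(α / 2 * ‖z‖)) := mul_le_mul_of_nonneg_left hEr hN00
            _ = N0 * Real.exp (-(α / 2 * ‖z‖)) * 1 := by ring
            _ ≤ _ := mul_le_mul_of_nonneg_left hP1 (by positivity)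
        calc _ ≤ N0 * Real.exp (-(α / 2 * ‖z‖)) * (1 + s) ^ k +
              M * ‖z‖ * (1 + s) * (1 + s) ^ k * Real.exp (-(α / 2 * ‖z‖)) +
              G z * (5 / α) * (1 + s) ^ k * 1 := by linarith
          _ = _ := by ring
      refine h11.trans (add_le_add le_rfl ?_)
      have h14 : N0 + M * ‖z‖ * (1 + s) ≤ (N0 + M * (1 + n)) * (1 + ‖z‖) ^ 3 := by
        have h15 := sq_le z
        rw [← hs] at h15
        have h16 : 1 + s ≤ (1 + n) * (1 + ‖z‖) ^ 2 := by
          have hn0 : (0 : ℝ) ≤ n := Nat.cast_nonneg n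
          nlinarith [mul_nonneg hn0 hr0]
        have h17 : M * ‖z‖ * (1 + s) ≤ M * (1 + ‖z‖) * ((1 + n) * (1 + ‖z‖) ^ 2) := by
          refine mul_le_mul (mul_le_mul_of_nonneg_left (by linarith) hM0) h16 (by positivity)
            (by positivity)
        have h18 : (1 : ℝ) ≤ (1 + ‖z‖) ^ 3 := one_le_pow₀ (by linarith)
        calc N0 + M * ‖z‖ * (1 + s) ≤ N0 * (1 + ‖z‖) ^ 3 +
              M * (1 + ‖z‖) * ((1 + n) * (1 + ‖z‖) ^ 2) := by
              have := mul_le_mul_of_nonneg_left h18 hN00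
              linarith
          _ = _ := by ring
      have h19 := hC ‖z‖ hr0
      have h20 : (N0 + M * ‖z‖ * (1 + s)) * Real.exp (-(α / 2 * ‖z‖)) ≤
          (N0 + M * (1 + n)) * C * ((1 + ‖z‖) ^ q)⁻¹ := by
        rw [← div_eq_mul_inv, le_div_iff₀ (by positivity)]
        calc _ ≤ ((N0 + M * (1 + n)) * (1 + ‖z‖) ^ 3) * Real.exp (-(α / 2 * ‖z‖)) *
              (1 + ‖z‖) ^ q := by
              refine mul_le_mul_of_nonneg_right ?_ (by positivity)
              exact mul_le_mul_of_nonneg_right h14 (Real.exp_pos _).le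
          _ = (N0 + M * (1 + n)) * ((1 + ‖z‖) ^ (q + 3) * Real.exp (-(α / 2 * ‖z‖))) := by
              rw [pow_add]
              ring
          _ ≤ _ := mul_le_mul_of_nonneg_left h19 (by positivity)
      refine h20.trans (mul_le_mul_of_nonneg_right ?_ (by positivity))
      rw [hD]
      have : 0 ≤ N0 * 3 ^ q := by positivity
      linarith
  have hsum : MemLp (fun z => (5 / α) * G z + D * ((1 + ‖z‖) ^ q)⁻¹) p volume :=
    (hGm.const_mul _).add (hq.const_mul _)
  refine hsum.mono (continuous_mm hd.continuous).aestronglyMeasurable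
    (Eventually.of_forall fun z => ?_)
  rw [Real.norm_of_nonneg (mm_nonneg _ _ _ _)]
  exact (hbound z).trans (le_abs_self _)

theorem iter {α : ℝ} (hα : 0 < α) {p : ℝ≥0∞} (hp : p ≠ 0) {f : (Fin n → ℂ) → ℂ}
    (hd : Differentiable ℂ f) (N : ℕ) :
    MemLp (mm α 0 f) p volume ↔ MemLp (mm α N (Rad^[N] f)) p volume := by
  induction N with
  | zero => rfl
  | succ N ih =>
    rw [ih, Function.iterate_succ_apply']
    exact ⟨fun h => fwd hα hp N (Rad_iter_diff hd N) h,
      fun h => bwd hα hp N (Rad_iter_diff hd N) h⟩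

/-- `f e^{-α|z|²/2} ∈ L^p(ℂⁿ)` -/
def InLpAlpha (p : ℝ≥0∞) (α : ℝ) (f : (Fin n → ℂ) → ℂ) : Prop :=
  MemLp (fun z => f z * Real.exp (-(α / 2) * sq z)) p volume

theorem main {α : ℝ} (hα : 0 < α) {p : ℝ≥0∞} (hp : p ≠ 0) {f : (Fin n → ℂ) → ℂ}
    (hd : Differentiable ℂ f) (N : ℕ) :
    InLpAlpha p α f ↔ InLpAlpha p α (fun z => Rad^[N] f z / (1 + sq z : ℝ) ^ N) := by
  have hsqc := continuous_sq (n := n)
  have hexp : Continuous (fun z : Fin n → ℂ => ((Real.exp (-(α / 2) * sq z) : ℝ) : ℂ)) := by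
    fun_prop
  have h1 : InLpAlpha p α f ↔ MemLp (mm α 0 f) p volume := by
    refine memLp_congr_norm (hd.continuous.mul hexp).aestronglyMeasurable
      (continuous_mm hd.continuous).aestronglyMeasurable (Eventually.of_forall fun z => ?_)
    rw [Real.norm_of_nonneg (mm_nonneg _ _ _ _), norm_mul, Complex.norm_real,
      Real.norm_of_nonneg (Real.exp_pos _).le]
    unfold mm
    rw [pow_zero, div_one]
  have hdN := Rad_iter_diff hd N
  have h2 : InLpAlpha p α (fun z => Rad^[N] f z / (1 + sq z : ℝ) ^ N) ↔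
      MemLp (mm α N (Rad^[N] f)) p volume := by
    have hc : Continuous (fun z : Fin n → ℂ => (((1 + sq z : ℝ) : ℂ)) ^ N) := by fun_prop
    refine memLp_congr_norm ((hdN.continuous.div hc fun z => ?_).mul hexp).aestronglyMeasurable
      (continuous_mm hdN.continuous).aestronglyMeasurable (Eventually.of_forall fun z => ?_)
    · have := (one_add_sq_pos z).ne'
      exact pow_ne_zero _ (by exact_mod_cast this)
    · rw [Real.norm_of_nonneg (mm_nonneg _ _ _ _), norm_mul, Complex.norm_real,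
        Real.norm_of_nonneg (Real.exp_pos _).le, norm_div, norm_pow, Complex.norm_real,
        Real.norm_of_nonneg (one_add_sq_pos z).le]
      unfold mm
      ring
  rw [h1, h2]
  exact iter hα hp hd N

end Pool.Agent.X116.Fk
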