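import Mathlib

/-!
# Euler's transformation for the terminating series `∑ C(n,m) (a)_{n-m} (b+n-m)_m (-u)^m`
-/

open Finset PowerSeries

namespace Pool.Agent.X116.Hg

/-- the Pochhammer symbol -/
noncomputable def poch (w : ℂ) (k : ℕ) : ℂ := ∏ i ∈ range k, (w + i)

lemma poch_zero (w : ℂ) : poch w 0 = 1 := by simp [poch]

lemma poch_succ (w : ℂ) (k : ℕ) : poch w (k + 1) = poch w k * (w + k) := by
  unfold poch
  rw [Finset.prod_range_succ]

lemma poch_succ' (w : ℂ) (k : ℕ) : poch w (k + 1) = w * poch (w + 1) k := by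
  unfold poch
  rw [Finset.prod_range_succ', mul_comm]
  congr 1
  · simp
  · refine Finset.prod_congr rfl fun i _ => ?_
    push_cast
    ring

lemma poch_add (w : ℂ) (k l : ℕ) : poch w (k + l) = poch w k * poch (w + k) l := by
  unfold poch
  rw [Finset.prod_range_add]
  congr 1
  refine Finset.prod_congr rfl fun i _ => ?_
  push_cast
  ring

lemma poch_one (k : ℕ) : poch 1 k = (k.factorial : ℂ) := by
  induction k with
  | zero => simp [poch_zero]
  | succ k ih =>
    rw [poch_succ, ih, Nat.factorial_succ]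
    push_cast
    ring

lemma poch_ne_zero {w : ℂ} (hw : ∀ m : ℕ, w ≠ -m) (k : ℕ) : poch w k ≠ 0 := by
  unfold poch
  refine Finset.prod_ne_zero_iff.mpr fun i _ h => hw i ?_
  linear_combination h

/-- binomial series -/
noncomputable def ee (w : ℂ) : PowerSeries ℂ := PowerSeries.mk fun l => poch w l / (l.factorial : ℂ)

lemma ee_rec (w : ℂ) : (1 - X) * ee (w + 1) = ee w := by
  ext l
  rw [sub_mul, one_mul, map_sub]
  rcases l with _ | l
  · simp [ee, poch_zero]
  · rw [coeff_succ_X_mul]
    simp only [ee, coeff_mk]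
    rw [poch_succ' w l, poch_succ (w + 1) l, Nat.factorial_succ]
    have h1 : (l.factorial : ℂ) ≠ 0 := by exact_mod_cast Nat.factorial_ne_zero l
    have h2 : ((l : ℂ) + 1) ≠ 0 := by exact_mod_cast Nat.succ_ne_zero l
    push_cast
    field_simp
    ring

lemma ee_deriv (w : ℂ) : derivative ℂ (ee w) = C w * ee (w + 1) := by
  ext l
  rw [coeff_derivative, coeff_C_mul]
  simp only [ee, coeff_mk]
  rw [poch_succ' w l, Nat.factorial_succ]
  have h1 : (l.factorial : ℂ) ≠ 0 := by exact_mod_cast Nat.factorial_ne_zero l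
  have h2 : ((l : ℂ) + 1) ≠ 0 := by exact_mod_cast Nat.succ_ne_zero l
  push_cast
  field_simp

/-- the coefficients of the polynomial -/
noncomputable def gam (a b : ℂ) (n m : ℕ) : ℂ :=
  (n.choose m : ℂ) * poch a (n - m) * poch (b + ((n - m : ℕ) : ℂ)) m

/-- the polynomial as a power series -/
noncomputable def gs (a b : ℂ) (n : ℕ) : PowerSeries ℂ :=
  PowerSeries.mk fun m => (-1) ^ m * gam a b n m

lemma gam_rec_zero (a b : ℂ) (n : ℕ) : gam a b (n + 1) 0 = (a + n) * gam a b n 0 := by
  simp only [gam, Nat.choose_zero_right, Nat.sub_zero, poch_zero, mul_one, Nat.cast_one, one_mul]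
  rw [poch_succ]
  ring

lemma gam_rec (a b : ℂ) (n m : ℕ) : gam a b (n + 1) (m + 1)
    = (a + n - (m + 1)) * gam a b n (m + 1) + (b + 2 * n - m) * gam a b n m := by
  unfold gam
  rcases Nat.lt_or_ge n m with h | h
  · -- `n < m`
    rw [Nat.choose_eq_zero_of_lt h, Nat.choose_eq_zero_of_lt (by omega : n + 1 < m + 1),
      Nat.choose_eq_zero_of_lt (by omega : n < m + 1)]
    simp
  · have hc : ((m : ℂ) + 1) * (n.choose (m + 1) : ℂ) = ((n : ℂ) - m) * (n.choose m : ℂ) := by
      have := Nat.choose_succ_right_eq n m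
      have h2 : ((n - m : ℕ) : ℂ) = (n : ℂ) - m := by rw [Nat.cast_sub h]
      rw [← h2]
      have h3 : (n.choose (m + 1) : ℂ) * ((m : ℂ) + 1) = (n.choose m : ℂ) * ((n - m : ℕ) : ℂ) := by
        exact_mod_cast this
      linear_combination h3
    have hp : ((n + 1).choose (m + 1) : ℂ) = (n.choose m : ℂ) + (n.choose (m + 1) : ℂ) := by
      rw [Nat.choose_succ_succ]; push_cast; ring
    have e1 : n + 1 - (m + 1) = n - m := by omega
    rw [e1, hp]
    have h2 : ((n - m : ℕ) : ℂ) = (n : ℂ) - m := by rw [Nat.cast_sub h]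
    rcases Nat.lt_or_ge m n with h' | h'
    · -- `m < n`
      obtain ⟨d, hd⟩ := Nat.exists_eq_add_of_lt h'
      subst hd
      have e2 : m + d + 1 - m = d + 1 := by omega
      have e3 : m + d + 1 - (m + 1) = d := by omega
      rw [e2, e3, poch_succ a d, poch_succ' (b + (d : ℂ)) m, poch_succ (b + ((d + 1 : ℕ) : ℂ)) m]
      have e4 : b + ((d + 1 : ℕ) : ℂ) = b + (d : ℂ) + 1 := by push_cast; ring
      rw [e4]
      push_cast at hc ⊢
      linear_combination (poch a d * (a + d) * poch (b + d + 1) m) * hc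
    · have : m = n := by omega
      subst this
      rw [Nat.choose_eq_zero_of_lt (by omega : m < m + 1), Nat.sub_self]
      simp only [Nat.choose_self, Nat.cast_one, poch_zero, Nat.cast_zero, add_zero, mul_one,
        one_mul, mul_zero, zero_mul, zero_add]
      rw [poch_succ]
      ring

lemma gs_rec (a b : ℂ) (n : ℕ) : gs a b (n + 1)
    = (1 - X) * (C (a + n) * gs a b n - X * derivative ℂ (gs a b n))
      - C ((n : ℂ) + (b - a)) * X * gs a b n := by
  ext m
  have e : (1 - X) * (C (a + n) * gs a b n - X * derivative ℂ (gs a b n))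
      - C ((n : ℂ) + (b - a)) * X * gs a b n = C (a + n) * gs a b n
      - X * derivative ℂ (gs a b n) - X * (C (a + n) * gs a b n - X * derivative ℂ (gs a b n)
        + C ((n : ℂ) + (b - a)) * gs a b n) := by ring
  rw [e]
  rcases m with _ | m
  · simp only [map_sub, coeff_zero_X_mul, coeff_C_mul, sub_zero]
    simp only [gs, coeff_mk, pow_zero, one_mul]
    exact gam_rec_zero a b n
  · rw [LinearMap.map_sub, LinearMap.map_sub, coeff_succ_X_mul, coeff_succ_X_mul,
      LinearMap.map_add, LinearMap.map_sub, coeff_C_mul, coeff_C_mul, coeff_C_mul, coeff_derivative]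
    have hX : coeff m (X * derivative ℂ (gs a b n)) = m * ((-1) ^ m * gam a b n m) := by
      rcases m with _ | m
      · simp
      · rw [coeff_succ_X_mul, coeff_derivative]
        simp only [gs, coeff_mk]
        push_cast
        ring
    rw [hX]
    simp only [gs, coeff_mk]
    rw [gam_rec, pow_succ]
    ring

/-- the product -/
noncomputable def tt (a b : ℂ) (n : ℕ) : PowerSeries ℂ := gs a b n * ee ((n : ℂ) + (b - a))

lemma tt_rec (a b : ℂ) (n : ℕ) : tt a b (n + 1)
    = C (a + n) * tt a b n - X * derivative ℂ (tt a b n) := by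
  unfold tt
  have e1 : ((n + 1 : ℕ) : ℂ) + (b - a) = (n : ℂ) + (b - a) + 1 := by push_cast; ring
  rw [e1, Derivation.leibniz, ee_deriv, ← ee_rec ((n : ℂ) + (b - a)), gs_rec]
  simp only [smul_eq_mul]
  ring

lemma tt_coeff (a b : ℂ) (n i : ℕ) : coeff i (tt a b n)
    = poch (b - a) i / (i.factorial : ℂ) * poch (a - i) n := by
  induction n with
  | zero =>
    have h1 : gs a b 0 = 1 := by
      ext m
      simp only [gs, coeff_mk, gam]
      rcases m with _ | m
      · simp [poch_zero]
      · simp [coeff_one]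
    unfold tt
    rw [h1, one_mul, poch_zero, mul_one]
    simp [ee]
  | succ n ih =>
    rw [tt_rec, map_sub, coeff_C_mul, ih]
    have hX : coeff i (X * derivative ℂ (tt a b n)) = i * coeff i (tt a b n) := by
      rcases i with _ | i
      · simp
      · rw [coeff_succ_X_mul, coeff_derivative]
        push_cast
        ring
    rw [hX, ih, poch_succ (a - i) n]
    ring

end Pool.Agent.X116.Hg
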