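import Pool.Agent.X116.HgA

/-!
# Zero-free discs for the ratio factor
-/

open Finset

namespace Pool.Agent.X116.Hg

/-- the polynomial with the coefficients `C(n,k) al k` has no zeros of modulus `< R` -/
def NZ (n : ℕ) (al : ℕ → ℂ) (R : ℝ) : Prop :=
  ∀ u : ℂ, ‖u‖ < R → ∑ k ∈ range (n + 1), (n.choose k : ℂ) * al k * u ^ k ≠ 0

lemma lower_lin {a : ℂ} (ha : ∀ m : ℕ, a ≠ -m) :
    ∃ c : ℝ, 0 < c ∧ c ≤ 1 ∧ ∀ l : ℕ, c * (l + 1) ≤ ‖a + l‖ := by
  obtain ⟨N, hN⟩ := exists_nat_ge (2 * ‖a‖ + 1)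
  have hpos : ∀ l : ℕ, 0 < ‖a + l‖ := by
    intro l
    rw [norm_pos_iff]
    intro h
    exact ha l (by linear_combination h)
  obtain ⟨l0, hl0, hmin⟩ := Finset.exists_min_image (range (N + 1))
    (fun l : ℕ => ‖a + l‖ / (l + 1)) ⟨0, by simp⟩
  have hm0 : 0 < ‖a + l0‖ / ((l0 : ℝ) + 1) := div_pos (hpos l0) (by positivity)
  refine ⟨min (1 / 2) (‖a + l0‖ / ((l0 : ℝ) + 1)), by positivity,
    (min_le_left _ _).trans (by norm_num), fun l => ?_⟩
  rcases Nat.lt_or_ge l (N + 1) with h | h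
  · have h1 := hmin l (Finset.mem_range.mpr h)
    have hl : (0 : ℝ) < (l : ℝ) + 1 := by positivity
    rw [le_div_iff₀ hl] at h1
    refine le_trans ?_ h1
    gcongr
    exact min_le_right _ _
  · have hl : (N : ℝ) + 1 ≤ l := by exact_mod_cast h
    have h2 : (l : ℝ) - ‖a‖ ≤ ‖a + l‖ := by
      have := norm_sub_le (a + l) a
      rw [add_sub_cancel_left, Complex.norm_natCast] at this
      linarith
    have h3 : min (1 / 2) (‖a + l0‖ / ((l0 : ℝ) + 1)) * ((l : ℝ) + 1) ≤ 1 / 2 * ((l : ℝ) + 1) := by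
      gcongr
      exact min_le_left _ _
    linarith

lemma prod_shift_le (W k : ℕ) : ∏ i ∈ range k, ((W : ℝ) + i + 1) ≤ 2 ^ (W + k) * (k.factorial : ℝ) := by
  have h1 : (W.factorial : ℝ) * ∏ i ∈ range k, ((W : ℝ) + i + 1) = ((W + k).factorial : ℝ) := by
    induction k with
    | zero => simp
    | succ k ih =>
      rw [Finset.prod_range_succ, ← mul_assoc, ih, ← add_assoc, Nat.factorial_succ]
      push_cast
      ring
  have h2 : (W + k).choose k * k.factorial * W.factorial = (W + k).factorial := by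
    have := Nat.choose_mul_factorial_mul_factorial (Nat.le_add_left k W)
    rwa [Nat.add_sub_cancel] at this
  have h3 : ((W + k).choose k : ℝ) ≤ 2 ^ (W + k) := by
    exact_mod_cast Nat.choose_le_two_pow (W + k) k
  have h4 : (W.factorial : ℝ) * ∏ i ∈ range k, ((W : ℝ) + i + 1)
      = (W.factorial : ℝ) * (((W + k).choose k : ℝ) * (k.factorial : ℝ)) := by
    rw [h1, ← h2]
    push_cast
    ring
  have h5 : (W.factorial : ℝ) ≠ 0 := by positivity
  rw [mul_left_cancel₀ h5 h4]
  gcongr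

lemma poch_bound {w : ℂ} {W : ℕ} (hw : ‖w‖ ≤ W) (k : ℕ) :
    ‖poch w k‖ ≤ 2 ^ (W + k) * (k.factorial : ℝ) := by
  refine le_trans ?_ (prod_shift_le W k)
  unfold poch
  rw [norm_prod]
  refine Finset.prod_le_prod (fun i _ => norm_nonneg _) fun i _ => ?_
  have := norm_add_le w (i : ℂ)
  rw [Complex.norm_natCast] at this
  linarith

lemma poch_ratio {a : ℂ} {A : ℕ} (hA : ‖a‖ ≤ A) {c : ℝ} (hc0 : 0 < c) (hc1 : c ≤ 1)
    (hc : ∀ l : ℕ, c * (l + 1) ≤ ‖a + l‖) (n i : ℕ) :
    ‖poch (a - i) n‖ ≤ 2 ^ (A + i) * (1 / c) ^ i * ‖poch a n‖ := by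
  rcases Nat.lt_or_ge n i with h | h
  · -- `n < i`
    have h1 : ‖poch (a - i) n‖ ≤ 2 ^ (A + i) * (n.factorial : ℝ) := by
      have e : ∏ l ∈ range n, ((A : ℝ) + i - l) = (((A + i).choose n : ℕ) : ℝ) * (n.factorial : ℝ) := by
        have h2 : (A + i).descFactorial n = n.factorial * (A + i).choose n :=
          Nat.descFactorial_eq_factorial_mul_choose _ _
        have h3 : (((A + i).descFactorial n : ℕ) : ℝ) = ∏ l ∈ range n, ((A : ℝ) + i - l) := by
          rw [Nat.descFactorial_eq_prod_range]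
          push_cast
          refine Finset.prod_congr rfl fun l hl => ?_
          have := Finset.mem_range.mp hl
          rw [Nat.cast_sub (by omega)]
          push_cast
          ring
        rw [← h3, h2]
        push_cast
        ring
      have h4 : ‖poch (a - i) n‖ ≤ ∏ l ∈ range n, ((A : ℝ) + i - l) := by
        unfold poch
        rw [norm_prod]
        refine Finset.prod_le_prod (fun l _ => norm_nonneg _) fun l hl => ?_
        have hl' : l < i := (Finset.mem_range.mp hl).trans h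
        have e2 : a - i + l = a - ((i - l : ℕ) : ℂ) := by
          rw [Nat.cast_sub hl'.le]
          ring
        have h5 := norm_sub_le a ((i - l : ℕ) : ℂ)
        have e3 : ((i - l : ℕ) : ℝ) = (i : ℝ) - l := Nat.cast_sub hl'.le
        rw [Complex.norm_natCast, e3] at h5
        rw [e2]
        linarith
      refine h4.trans ?_
      rw [e]
      gcongr
      exact_mod_cast Nat.choose_le_two_pow (A + i) n
    have h2 : c ^ n * (n.factorial : ℝ) ≤ ‖poch a n‖ := by
      unfold poch
      rw [norm_prod]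
      have e : c ^ n * (n.factorial : ℝ) = ∏ l ∈ range n, (c * ((l : ℝ) + 1)) := by
        rw [Finset.prod_mul_distrib, Finset.prod_const, Finset.card_range,
          ← Finset.prod_range_add_one_eq_factorial]
        push_cast
        rfl
      rw [e]
      exact Finset.prod_le_prod (fun l _ => by positivity) fun l _ => hc l
    calc ‖poch (a - i) n‖ ≤ 2 ^ (A + i) * (n.factorial : ℝ) := h1
      _ = 2 ^ (A + i) * (1 / c) ^ n * (c ^ n * (n.factorial : ℝ)) := by
          rw [one_div, inv_pow]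
          field_simp
      _ ≤ 2 ^ (A + i) * (1 / c) ^ i * ‖poch a n‖ := by
          have h3 : (1 / c) ^ n ≤ (1 / c) ^ i :=
            pow_le_pow_right₀ (by rw [le_div_iff₀ hc0]; linarith) h.le
          gcongr
  · -- `i ≤ n`
    have hid : poch (a - i) n * poch (a - i + n) i = poch (a - i) i * poch a n := by
      rw [← poch_add, add_comm n i, poch_add]
      congr 2
      ring
    have h1 : ‖poch (a - i) i‖ ≤ 2 ^ (A + i) * (i.factorial : ℝ) := by
      refine le_trans ?_ (prod_shift_le A i)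
      unfold poch
      rw [norm_prod, ← Finset.prod_range_reflect]
      refine Finset.prod_le_prod (fun l _ => norm_nonneg _) fun l hl => ?_
      have hl' := Finset.mem_range.mp hl
      have e2 : a - i + ((i - 1 - l : ℕ) : ℂ) = a - ((l + 1 : ℕ) : ℂ) := by
        have : ((i - 1 - l : ℕ) : ℂ) = (i : ℂ) - 1 - l := by
          rw [Nat.sub_sub, Nat.cast_sub (by omega)]
          push_cast
          ring
        rw [this]
        push_cast
        ring
      have := norm_sub_le a ((l + 1 : ℕ) : ℂ)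
      rw [Complex.norm_natCast] at this
      rw [e2]
      push_cast at this ⊢
      linarith
    have h2 : c ^ i * (i.factorial : ℝ) ≤ ‖poch (a - i + n) i‖ := by
      unfold poch
      rw [norm_prod]
      have e : c ^ i * (i.factorial : ℝ) = ∏ l ∈ range i, (c * ((l : ℝ) + 1)) := by
        rw [Finset.prod_mul_distrib, Finset.prod_const, Finset.card_range,
          ← Finset.prod_range_add_one_eq_factorial]
        push_cast
        rfl
      rw [e]
      refine Finset.prod_le_prod (fun l _ => by positivity) fun l _ => ?_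
      have h3 := hc (n - i + l)
      have e2 : a - i + n + l = a + ((n - i + l : ℕ) : ℂ) := by
        push_cast [Nat.cast_sub h]
        ring
      rw [e2]
      refine le_trans ?_ h3
      push_cast
      gcongr
      linarith [Nat.cast_nonneg (α := ℝ) (n - i)]
    have h3 : ‖poch (a - i) n‖ * (c ^ i * (i.factorial : ℝ))
        ≤ (2 ^ (A + i) * (i.factorial : ℝ)) * ‖poch a n‖ := by
      calc ‖poch (a - i) n‖ * (c ^ i * (i.factorial : ℝ))
          ≤ ‖poch (a - i) n‖ * ‖poch (a - i + n) i‖ := by gcongr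
        _ = ‖poch (a - i) i‖ * ‖poch a n‖ := by rw [← norm_mul, hid, norm_mul]
        _ ≤ _ := by gcongr
    have hfi : (0 : ℝ) < (i.factorial : ℝ) := by positivity
    have hci : 0 < c ^ i := by positivity
    have h4 : ‖poch (a - i) n‖ * c ^ i ≤ 2 ^ (A + i) * ‖poch a n‖ := by
      have : (‖poch (a - i) n‖ * c ^ i) * (i.factorial : ℝ)
          ≤ (2 ^ (A + i) * ‖poch a n‖) * (i.factorial : ℝ) := by linarith
      exact le_of_mul_le_mul_right this hfi
    calc ‖poch (a - i) n‖ = (‖poch (a - i) n‖ * c ^ i) * (1 / c) ^ i := by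
          rw [one_div, inv_pow]
          field_simp
      _ ≤ (2 ^ (A + i) * ‖poch a n‖) * (1 / c) ^ i := by gcongr
      _ = _ := by ring

theorem nz_ratio {a b : ℂ} (ha : ∀ m : ℕ, a ≠ -m) (hb : ∀ m : ℕ, b ≠ -m) :
    ∃ δ : ℝ, 0 < δ ∧ ∀ n : ℕ, NZ n (fun k => poch a (n - k) / poch b (n - k)) δ := by
  obtain ⟨c, hc0, hc1, hc⟩ := lower_lin ha
  obtain ⟨A, hA⟩ := exists_nat_ge ‖a‖
  obtain ⟨B, hB⟩ := exists_nat_ge ‖b - a‖
  set ε : ℝ := 1 / 2 ^ (A + B + 2) with hε
  have hε0 : 0 < ε := by positivity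
  have hε1 : ε ≤ 1 / 4 := by
    rw [hε]
    apply one_div_le_one_div_of_le (by norm_num)
    have : (2 : ℝ) ^ (A + B + 2) = 2 ^ (A + B) * 4 := by rw [pow_add]; norm_num
    rw [this]
    have : (1 : ℝ) ≤ 2 ^ (A + B) := one_le_pow₀ (by norm_num)
    linarith
  refine ⟨c * ε / 4, by positivity, fun n u hu h0 => ?_⟩
  set v : ℂ := -u with hv
  have hvn : ‖v‖ < c * ε / 4 := by rw [hv, norm_neg]; exact hu
  set ρ : ℝ := 4 * ‖v‖ / c with hρ
  have hρ0 : 0 ≤ ρ := by positivity
  have hρε : ρ < ε := by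
    rw [hρ, div_lt_iff₀ hc0]
    linarith
  have hρ1 : ρ < 1 := by linarith
  have hv1 : ‖v‖ < 1 / 16 := by nlinarith
  have hpa : 0 < ‖poch a n‖ := norm_pos_iff.mpr (poch_ne_zero ha n)
  -- the series
  set t : ℕ → ℂ := fun i => poch (b - a) i / (i.factorial : ℂ) * poch (a - i) n * v ^ i with ht
  have htb : ∀ i, ‖t i‖ ≤ ‖poch a n‖ * 2 ^ (A + B) * ρ ^ i := by
    intro i
    have hfi : (0 : ℝ) < (i.factorial : ℝ) := by positivity
    have h1 := poch_bound hB i
    have h2 := poch_ratio hA hc0 hc1 hc n i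
    rw [ht]
    simp only
    rw [norm_mul, norm_mul, norm_div, norm_pow, Complex.norm_natCast]
    have h3 : ‖poch (b - a) i‖ / (i.factorial : ℝ) ≤ 2 ^ (B + i) := by
      rw [div_le_iff₀ hfi]; exact h1
    calc ‖poch (b - a) i‖ / (i.factorial : ℝ) * ‖poch (a - i) n‖ * ‖v‖ ^ i
        ≤ 2 ^ (B + i) * (2 ^ (A + i) * (1 / c) ^ i * ‖poch a n‖) * ‖v‖ ^ i := by gcongr
      _ = ‖poch a n‖ * 2 ^ (A + B) * ρ ^ i := by
          have : ρ ^ i = 2 ^ i * 2 ^ i * (1 / c) ^ i * ‖v‖ ^ i := by
            rw [← mul_pow, ← mul_pow, ← mul_pow, hρ]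
            congr 1
            ring
          rw [this, pow_add, pow_add, pow_add]
          ring
  have hgeo : HasSum (fun i : ℕ => ‖poch a n‖ * 2 ^ (A + B) * ρ ^ i)
      (‖poch a n‖ * 2 ^ (A + B) * (1 - ρ)⁻¹) := (hasSum_geometric_of_lt_one hρ0 hρ1).mul_left _
  have hts : Summable t := Summable.of_norm_bounded hgeo.summable htb
  have ht0 : t 0 = poch a n := by simp [ht, poch_zero]
  -- the sum is not zero
  have hne : ∑' i, t i ≠ 0 := by
    intro hz
    rw [hts.tsum_eq_zero_add, ht0] at hz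
    have h1 : ‖∑' i, t (i + 1)‖ ≤ ‖poch a n‖ * 2 ^ (A + B) * ρ * (1 - ρ)⁻¹ := by
      refine tsum_of_norm_bounded ((hasSum_geometric_of_lt_one hρ0 hρ1).mul_left
        (‖poch a n‖ * 2 ^ (A + B) * ρ)) fun i => ?_
      refine (htb (i + 1)).trans (le_of_eq ?_)
      rw [pow_succ]
      ring
    have h2 : ‖poch a n‖ = ‖∑' i, t (i + 1)‖ := by
      have : poch a n = -∑' i, t (i + 1) := by linear_combination hz
      rw [this, norm_neg]
    have h3 : 2 ^ (A + B) * ρ * (1 - ρ)⁻¹ < 1 := by
      have h4 : 0 < 1 - ρ := by linarith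
      rw [← div_eq_mul_inv, div_lt_one h4]
      have h5 : (2 : ℝ) ^ (A + B) * ρ < 1 / 4 := by
        calc (2 : ℝ) ^ (A + B) * ρ < 2 ^ (A + B) * ε := by gcongr
          _ = 1 / 4 := by
              rw [hε, pow_add _ (A + B) 2]
              field_simp
              norm_num
      linarith
    rw [← h2] at h1
    nlinarith
  -- the Cauchy product
  obtain ⟨W, hW⟩ := exists_nat_ge ‖(n : ℂ) + (b - a)‖
  set f : ℕ → ℂ := fun m => (-1) ^ m * gam a b n m * v ^ m with hf
  set g : ℕ → ℂ := fun l => poch ((n : ℂ) + (b - a)) l / (l.factorial : ℂ) * v ^ l with hg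
  have hf0 : ∀ m ∉ range (n + 1), f m = 0 := by
    intro m hm
    have : n < m := by
      rw [Finset.mem_range] at hm
      omega
    simp [hf, gam, Nat.choose_eq_zero_of_lt this]
  have hfs : Summable fun m => ‖f m‖ := by
    apply summable_of_ne_finset_zero (s := range (n + 1))
    intro m hm
    rw [hf0 m hm, norm_zero]
  have hgs : Summable fun l => ‖g l‖ := by
    refine Summable.of_nonneg_of_le (fun _ => norm_nonneg _) (fun l => ?_)
      ((summable_geometric_of_lt_one (r := 2 * ‖v‖) (by positivity) (by linarith)).mul_left (2 ^ W))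
    have hfi : (0 : ℝ) < (l.factorial : ℝ) := by positivity
    rw [hg]
    simp only
    rw [norm_mul, norm_div, norm_pow, Complex.norm_natCast]
    have h3 : ‖poch ((n : ℂ) + (b - a)) l‖ / (l.factorial : ℝ) ≤ 2 ^ (W + l) := by
      rw [div_le_iff₀ hfi]; exact poch_bound hW l
    calc ‖poch ((n : ℂ) + (b - a)) l‖ / (l.factorial : ℝ) * ‖v‖ ^ l
        ≤ 2 ^ (W + l) * ‖v‖ ^ l := by gcongr
      _ = 2 ^ W * (2 * ‖v‖) ^ l := by rw [pow_add, mul_pow]; ring
  have hprod := tsum_mul_tsum_eq_tsum_sum_antidiagonal_of_summable_norm hfs hgs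
  have hcoef : ∀ i, ∑ p ∈ antidiagonal i, f p.1 * g p.2 = t i := by
    intro i
    have h1 := tt_coeff a b n i
    unfold tt at h1
    rw [PowerSeries.coeff_mul] at h1
    rw [ht]
    simp only
    rw [← h1, Finset.sum_mul]
    refine Finset.sum_congr rfl fun p hp => ?_
    have hp' : p.1 + p.2 = i := by simpa using hp
    simp only [hf, hg, gs, ee, PowerSeries.coeff_mk]
    rw [← hp', pow_add]
    ring
  have hfsum : ∑' m, f m = 0 := by
    rw [tsum_eq_sum (s := range (n + 1)) hf0]
    have h1 : ∑ m ∈ range (n + 1), f m = poch b n * ∑ k ∈ range (n + 1),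
        (n.choose k : ℂ) * (poch a (n - k) / poch b (n - k)) * u ^ k := by
      rw [Finset.mul_sum]
      refine Finset.sum_congr rfl fun k hk => ?_
      have hk' : k ≤ n := Nat.lt_succ_iff.mp (Finset.mem_range.mp hk)
      have h2 : poch b n = poch b (n - k) * poch (b + ((n - k : ℕ) : ℂ)) k := by
        rw [← poch_add, Nat.sub_add_cancel hk']
      have h3 := poch_ne_zero hb (n - k)
      have h4 : (-1 : ℂ) ^ k * v ^ k = u ^ k := by
        rw [← mul_pow, hv]
        congr 1
        ring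
      simp only [hf, gam]
      rw [h2]
      field_simp
      linear_combination ((n.choose k : ℂ) * poch a (n - k) * poch (b + ((n - k : ℕ) : ℂ)) k) * h4
    rw [h1, h0, mul_zero]
  rw [hfsum, zero_mul] at hprod
  apply hne
  rw [← tsum_congr hcoef, ← hprod]

end Pool.Agent.X116.Hg
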