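import Pool.Agent.X116.HgB
import Pool.Agent.H32R3.PV.Lag

/-!
# Szegő's composition, the factorial factor and the base factor
-/

open Finset Polynomial

namespace Pool.Agent.X116.Hg

open Pool.Agent.H32R3.PV

/-- the polynomial `∏ (1 - a X)` -/
noncomputable def lp (as : List ℂ) : ℂ[X] := (as.map fun a => 1 - C a * X).prod

lemma lp_cons (a : ℂ) (as : List ℂ) : lp (a :: as) = (1 - C a * X) * lp as := by
  simp [lp]

lemma lp_natDegree (as : List ℂ) : (lp as).natDegree ≤ as.length := by
  induction as with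
  | nil => simp [lp]
  | cons a as ih =>
    rw [lp_cons]
    refine natDegree_mul_le.trans ?_
    have : (1 - C a * X : ℂ[X]).natDegree ≤ 1 := by
      refine (natDegree_sub_le _ _).trans ?_
      simp only [natDegree_one, zero_le, sup_of_le_right]
      exact (natDegree_C_mul_le _ _).trans natDegree_X_le
    rw [List.length_cons]
    omega

lemma act_eq (as : List ℂ) : ∀ l : ℕ → ℂ,
    act as l 0 = ∑ k ∈ range (as.length + 1), (lp as).coeff k * l k := by
  induction as with
  | nil => intro l; simp [act, lp]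
  | cons a as ih =>
    intro l
    have h1 : act (a :: as) l 0 = act as (fun i => l i - a * l (i + 1)) 0 := rfl
    rw [h1, ih, lp_cons, List.length_cons]
    have hc : ∀ k, ((1 - C a * X) * lp as).coeff (k + 1) = (lp as).coeff (k + 1) - a * (lp as).coeff k := by
      intro k
      rw [sub_mul, one_mul, coeff_sub, mul_assoc, coeff_C_mul, coeff_X_mul]
    have hc0 : ((1 - C a * X) * lp as).coeff 0 = (lp as).coeff 0 := by
      rw [sub_mul, one_mul, coeff_sub, mul_assoc, coeff_C_mul]
      simp
    rw [Finset.sum_range_succ' _ (as.length + 1)]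
    simp only [hc, hc0]
    have hz : (lp as).coeff (as.length + 1) = 0 :=
      coeff_eq_zero_of_natDegree_lt (by have := lp_natDegree as; omega)
    have e1 : ∑ k ∈ range (as.length + 1), (lp as).coeff k * (l k - a * l (k + 1))
        = ∑ k ∈ range (as.length + 1), (lp as).coeff k * l k
          - ∑ k ∈ range (as.length + 1), a * (lp as).coeff k * l (k + 1) := by
      rw [← Finset.sum_sub_distrib]
      exact Finset.sum_congr rfl fun k _ => by ring
    have e2 : ∑ k ∈ range (as.length + 1), ((lp as).coeff (k + 1) - a * (lp as).coeff k) * l (k + 1)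
        = ∑ k ∈ range (as.length + 1), (lp as).coeff (k + 1) * l (k + 1)
          - ∑ k ∈ range (as.length + 1), a * (lp as).coeff k * l (k + 1) := by
      rw [← Finset.sum_sub_distrib]
      exact Finset.sum_congr rfl fun k _ => by ring
    have e3 : ∑ k ∈ range (as.length + 1), (lp as).coeff (k + 1) * l (k + 1) + (lp as).coeff 0 * l 0
        = ∑ k ∈ range (as.length + 1), (lp as).coeff k * l k := by
      rw [← Finset.sum_range_succ' (fun k => (lp as).coeff k * l k) (as.length + 1),
        Finset.sum_range_succ _ (as.length + 1), hz, zero_mul, add_zero]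
    rw [e1, e2, ← e3]
    ring

/-- factorisation of a polynomial without zeros in a disc -/
lemma exists_list {Q : ℂ[X]} {n : ℕ} (hdeg : Q.natDegree ≤ n) {R : ℝ} (hR : 0 < R)
    (h : ∀ v : ℂ, ‖v‖ < R → Q.eval v ≠ 0) :
    ∃ as : List ℂ, as.length = n ∧ (∀ a ∈ as, ‖a‖ ≤ 1 / R) ∧ Q = C (Q.eval 0) * lp as := by
  have h0 : Q.eval 0 ≠ 0 := h 0 (by simpa using hR)
  have hQ : Q ≠ 0 := by
    rintro rfl
    simp at h0
  have hsplit := IsAlgClosed.splits Q
  have hroots := hsplit.eq_prod_roots
  have hcard := hsplit.natDegree_eq_card_roots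
  -- the list of the inverses of the roots
  set L : List ℂ := Q.roots.toList with hL
  have hLmem : ∀ r ∈ L, R ≤ ‖r‖ := by
    intro r hr
    by_contra hcon
    push Not at hcon
    rw [hL, Multiset.mem_toList, mem_roots hQ] at hr
    exact h r hcon hr
  have hprod : (Q.roots.map fun a => X - C a).prod = (L.map fun a => X - C a).prod := by
    rw [hL, ← Multiset.prod_coe, ← Multiset.map_coe, Multiset.coe_toList]
  have key : ∀ L : List ℂ, (∀ r ∈ L, R ≤ ‖r‖) →
      (L.map fun a => (X - C a : ℂ[X])).prod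
        = C ((L.map fun a => (X - C a : ℂ[X])).prod.eval 0) * lp (L.map fun r => r⁻¹) := by
    intro L
    induction L with
    | nil => intro _; simp [lp]
    | cons r L ih =>
      intro hL
      have hr : r ≠ 0 := by
        have := hL r (by simp)
        intro h
        rw [h, norm_zero] at this
        linarith
      have ih' := ih fun s hs => hL s (List.mem_cons_of_mem _ hs)
      simp only [List.map_cons, List.prod_cons, lp_cons, eval_mul, eval_sub, eval_X, eval_C,
        zero_sub]
      rw [ih']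
      simp only [eval_mul, eval_C]
      have e1 : (lp (List.map (fun r => r⁻¹) L)).eval 0 = 1 := by
        clear ih' ih hL
        induction L with
        | nil => simp [lp]
        | cons s L ih2 => simp [lp_cons, ih2]
      rw [e1, mul_one]
      have e2 : (X - C r : ℂ[X]) = C (-r) * (1 - C r⁻¹ * X) := by
        rw [mul_sub, mul_one, ← mul_assoc, ← C_mul, neg_mul, mul_inv_cancel₀ hr]
        simp only [map_neg, map_one, neg_mul, one_mul]
        ring
      rw [e2, C_mul]
      ring
  have hk := key L hLmem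
  have hQL : Q = C Q.leadingCoeff * (L.map fun a => (X - C a : ℂ[X])).prod := by
    rw [← hprod]
    exact hroots
  have hzero : ∀ m : ℕ, lp (List.replicate m (0 : ℂ)) = 1 := by
    intro m
    induction m with
    | zero => simp [lp]
    | succ m ih => rw [List.replicate_succ, lp_cons, ih]; simp
  have happ : ∀ l1 l2 : List ℂ, lp (l1 ++ l2) = lp l1 * lp l2 := by
    intro l1 l2
    simp [lp]
  refine ⟨L.map (fun r => r⁻¹) ++ List.replicate (n - L.length) 0, ?_, ?_, ?_⟩
  · have hlen : L.length ≤ n := by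
      rw [hL, Multiset.length_toList, ← hcard]
      exact hdeg
    simp [hlen]
  · intro a ha
    rw [List.mem_append] at ha
    rcases ha with ha | ha
    · rw [List.mem_map] at ha
      obtain ⟨r, hr, rfl⟩ := ha
      rw [norm_inv, ← one_div]
      exact one_div_le_one_div_of_le hR (hLmem r hr)
    · rw [List.mem_replicate] at ha
      rw [ha.2, norm_zero]
      positivity
  · rw [happ, hzero, mul_one]
    have e3 : Q.eval 0 = Q.leadingCoeff * ((L.map fun a => (X - C a : ℂ[X])).prod.eval 0) := by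
      conv_lhs => rw [hQL]
      rw [eval_mul, eval_C]
    rw [e3, C_mul, mul_assoc, ← hk]
    exact hQL

theorem NZ.comp {n : ℕ} {al be : ℕ → ℂ} {R1 R2 : ℝ} (h1 : NZ n al R1) (h2 : NZ n be R2)
    (hR1 : 0 < R1) (hR2 : 0 < R2) : NZ n (fun k => al k * be k) (R1 * R2) := by
  intro u hu
  -- the second polynomial
  set Q : ℂ[X] := ∑ k ∈ range (n + 1), C ((n.choose k : ℂ) * be k) * X ^ k with hQ
  have hQdeg : Q.natDegree ≤ n := by
    refine natDegree_sum_le_of_forall_le _ _ fun k hk => ?_
    exact (natDegree_C_mul_X_pow_le _ _).trans (Nat.lt_succ_iff.mp (Finset.mem_range.mp hk))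
  have hQev : ∀ v, Q.eval v = ∑ k ∈ range (n + 1), (n.choose k : ℂ) * be k * v ^ k := by
    intro v
    rw [hQ, eval_finsetSum]
    simp
  have hQnz : ∀ v : ℂ, ‖v‖ < R2 → Q.eval v ≠ 0 := by
    intro v hv
    rw [hQev]
    exact h2 v hv
  obtain ⟨as, hlen, hnorm, hfac⟩ := exists_list hQdeg hR2 hQnz
  set q0 := Q.eval 0 with hq0
  have hq0ne : q0 ≠ 0 := hQnz 0 (by simpa using hR2)
  have hcoef : ∀ k ∈ range (n + 1), q0 * (lp as).coeff k = (n.choose k : ℂ) * be k := by
    intro k hk
    have h3 : Q.coeff k = q0 * (lp as).coeff k := by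
      conv_lhs => rw [hfac]
      rw [coeff_C_mul]
    rw [← h3, hQ, finsetSum_coeff]
    simp only [coeff_C_mul, coeff_X_pow, mul_ite, mul_one, mul_zero]
    rw [Finset.sum_ite_eq (range (n + 1)) k]
    simp [Finset.mem_range.mp hk]
  rcases eq_or_ne u 0 with rfl | hu0
  · have a0 := h1 0 (by simpa using hR1)
    have b0 := h2 0 (by simpa using hR2)
    rw [Finset.sum_range_succ'] at a0 b0 ⊢
    simp at a0 b0 ⊢
    exact ⟨a0, b0⟩
  · have hun : 0 < ‖u‖ := norm_pos_iff.mpr hu0
    have hR : 0 < R1 / ‖u‖ := by positivity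
    have hPhi : ∀ z : ℂ, ‖z‖ < R1 / ‖u‖ → Phi as.length (fun k => q0 * al k * u ^ k) z ≠ 0 := by
      intro z hz
      have h3 := h1 (-z * u) (by
        rw [norm_mul, norm_neg]
        rwa [lt_div_iff₀ hun] at hz)
      unfold Phi
      rw [hlen]
      have e : ∑ i ∈ range (n + 1), (n.choose i : ℂ) * (-z) ^ i * (q0 * al i * u ^ i)
          = q0 * ∑ k ∈ range (n + 1), (n.choose k : ℂ) * al k * (-z * u) ^ k := by
        rw [Finset.mul_sum]
        refine Finset.sum_congr rfl fun k _ => ?_
        rw [mul_pow]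
        ring
      rw [e]
      exact mul_ne_zero hq0ne h3
    have hact := act_ne_zero hR as _ hPhi (fun a ha => by
      refine (hnorm a ha).trans_lt ?_
      rw [div_lt_div_iff₀ hR2 hun]
      linarith)
    rw [act_eq, hlen] at hact
    intro h0
    apply hact
    rw [← h0]
    refine Finset.sum_congr rfl fun k hk => ?_
    have := hcoef k hk
    linear_combination (al k * u ^ k) * this

/-- the factorial factor -/
theorem nz_fact {n : ℕ} (hn : 1 ≤ n) : NZ n (fun k => (((n - k).factorial : ℕ) : ℂ)) ((n : ℝ) / 6) := by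
  intro u hu
  have e : ∑ k ∈ range (n + 1), (n.choose k : ℂ) * (((n - k).factorial : ℕ) : ℂ) * u ^ k
      = (n.factorial : ℂ) * ∑ k ∈ range (n + 1), u ^ k / (k.factorial : ℂ) := by
    rw [Finset.mul_sum]
    refine Finset.sum_congr rfl fun k hk => ?_
    have hk' : k ≤ n := Nat.lt_succ_iff.mp (Finset.mem_range.mp hk)
    have h1 : (n.choose k : ℂ) * (k.factorial : ℂ) * (((n - k).factorial : ℕ) : ℂ) = (n.factorial : ℂ) := by
      exact_mod_cast Nat.choose_mul_factorial_mul_factorial hk'
    have h2 : (k.factorial : ℂ) ≠ 0 := by exact_mod_cast Nat.factorial_ne_zero k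
    rw [← h1]
    field_simp
  rw [e]
  apply mul_ne_zero (by exact_mod_cast Nat.factorial_ne_zero n)
  intro h0
  have hexp : HasSum (fun k : ℕ => u ^ k / (k.factorial : ℂ)) (Complex.exp u) := by
    rw [Complex.exp_eq_exp_ℂ]
    exact NormedSpace.expSeries_div_hasSum_exp u
  have htail := (hasSum_nat_add_iff' (n + 1)).mpr hexp
  rw [h0, sub_zero] at htail
  set r : ℝ := ‖u‖ with hr
  have hr0 : 0 ≤ r := norm_nonneg u
  have hexp2 : HasSum (fun k : ℕ => (2 * r) ^ k / (k.factorial : ℝ)) (Real.exp (2 * r)) := by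
    rw [Real.exp_eq_exp_ℝ]
    exact NormedSpace.expSeries_div_hasSum_exp (2 * r)
  have htail2 := ((hasSum_nat_add_iff' (n + 1)).mpr hexp2).mul_left (1 / 2 ^ (n + 1))
  have hle : ‖Complex.exp u‖ ≤ 1 / 2 ^ (n + 1) * (Real.exp (2 * r)
      - ∑ k ∈ range (n + 1), (2 * r) ^ k / (k.factorial : ℝ)) := by
    rw [← htail.tsum_eq]
    refine tsum_of_norm_bounded htail2 fun k => ?_
    rw [norm_div, norm_pow, Complex.norm_natCast, ← hr]
    have hf : (0 : ℝ) < (((k + (n + 1)).factorial : ℕ) : ℝ) := by positivity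
    have e2 : 1 / 2 ^ (n + 1) * ((2 * r) ^ (k + (n + 1)) / (((k + (n + 1)).factorial : ℕ) : ℝ))
        = 2 ^ k * (r ^ (k + (n + 1)) / (((k + (n + 1)).factorial : ℕ) : ℝ)) := by
      rw [mul_pow, pow_add 2 k (n + 1)]
      field_simp
    rw [e2]
    have : (1 : ℝ) ≤ 2 ^ k := one_le_pow₀ (by norm_num)
    have h3 : 0 ≤ r ^ (k + (n + 1)) / (((k + (n + 1)).factorial : ℕ) : ℝ) := by positivity
    nlinarith
  have hsum0 : 0 ≤ ∑ k ∈ range (n + 1), (2 * r) ^ k / (k.factorial : ℝ) :=
    Finset.sum_nonneg fun k _ => by positivity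
  have hlow : Real.exp (-r) ≤ ‖Complex.exp u‖ := by
    rw [Complex.norm_exp]
    apply Real.exp_le_exp.mpr
    have := Complex.abs_re_le_norm u
    have := neg_abs_le u.re
    linarith
  have hn0 : (0 : ℝ) < n := by exact_mod_cast hn
  have h5 : Real.exp (-r) ≤ 1 / 2 ^ (n + 1) * Real.exp (2 * r) := by
    refine hlow.trans (hle.trans ?_)
    have : (0 : ℝ) < 1 / 2 ^ (n + 1) := by positivity
    nlinarith
  have h6 : (2 : ℝ) ^ (n + 1) ≤ Real.exp (3 * r) := by
    have e3 : Real.exp (3 * r) = Real.exp (2 * r) * Real.exp r := by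
      rw [← Real.exp_add]; ring_nf
    have e4 : Real.exp (-r) * Real.exp r = 1 := by rw [← Real.exp_add]; simp
    rw [e3]
    have hp : (0 : ℝ) < 2 ^ (n + 1) := by positivity
    have hpr := Real.exp_pos r
    have h7 : 1 ≤ 1 / 2 ^ (n + 1) * Real.exp (2 * r) * Real.exp r :=
      calc (1 : ℝ) = Real.exp (-r) * Real.exp r := e4.symm
        _ ≤ 1 / 2 ^ (n + 1) * Real.exp (2 * r) * Real.exp r :=
          mul_le_mul_of_nonneg_right h5 hpr.le
    have h8 : (2 : ℝ) ^ (n + 1) * 1 ≤ 2 ^ (n + 1) * (1 / 2 ^ (n + 1) * Real.exp (2 * r) * Real.exp r) := by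
      gcongr
    rw [mul_one] at h8
    refine h8.trans (le_of_eq ?_)
    field_simp
  have h7 : Real.exp (3 * r) < 2 ^ n := by
    have h8 : 3 * r < n * (1 / 2) := by linarith
    have h9 : Real.exp (3 * r) < Real.exp (n * (1 / 2)) := Real.exp_lt_exp.mpr h8
    rw [Real.exp_nat_mul] at h9
    have h10 : Real.exp (1 / 2) < 2 := by
      have h11 : Real.exp (1 / 2) ^ 2 < 2 ^ 2 := by
        rw [← Real.exp_nat_mul]
        have := Real.exp_one_lt_d9
        norm_num
        linarith
      exact lt_of_pow_lt_pow_left₀ 2 (by norm_num) h11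
    refine h9.trans_le ?_
    exact pow_le_pow_left₀ (Real.exp_pos _).le h10.le n
  have h8 : (2 : ℝ) ^ n ≤ 2 ^ (n + 1) := pow_le_pow_right₀ (by norm_num) (by omega)
  linarith

end Pool.Agent.X116.Hg
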