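import Pool.Agent.X116.HgC

/-!
# The base factor: zeros of the generalised Bessel polynomials
-/

open Finset Polynomial

namespace Pool.Agent.X116.Hg

lemma half_le {w z : ℂ} (hz : z ≠ w) (h : ‖z‖ ≤ ‖w‖) : 1 / 2 ≤ (w / (w - z)).re := by
  have hne : w - z ≠ 0 := sub_ne_zero.mpr (Ne.symm hz)
  have hpos : 0 < Complex.normSq (w - z) := Complex.normSq_pos.mpr hne
  have h2 : Complex.normSq z ≤ Complex.normSq w := by
    rw [Complex.normSq_eq_norm_sq, Complex.normSq_eq_norm_sq]
    exact pow_le_pow_left₀ (norm_nonneg _) h 2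
  rw [Complex.div_re, ← add_div, le_div_iff₀ hpos]
  rw [Complex.normSq_apply] at h2 ⊢
  rw [Complex.normSq_apply] at h2
  simp only [Complex.sub_re, Complex.sub_im]
  nlinarith

lemma logder_re {w : ℂ} (S : Multiset ℂ) (h : ∀ z ∈ S, z ≠ w ∧ ‖z‖ ≤ ‖w‖) :
    (S.map fun z => (X - C z : ℂ[X])).prod.eval w ≠ 0 ∧
      (Multiset.card S : ℝ) / 2 ≤ (w * (derivative (S.map fun z => (X - C z : ℂ[X])).prod).eval w
        / (S.map fun z => (X - C z : ℂ[X])).prod.eval w).re := by
  induction S using Multiset.induction_on with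
  | empty => simp
  | cons z S ih =>
    obtain ⟨h1, h2⟩ := ih fun x hx => h x (Multiset.mem_cons_of_mem hx)
    obtain ⟨hz, hzn⟩ := h z (Multiset.mem_cons_self z S)
    have hne : w - z ≠ 0 := sub_ne_zero.mpr (Ne.symm hz)
    rw [Multiset.map_cons, Multiset.prod_cons]
    set g := (S.map fun z => (X - C z : ℂ[X])).prod with hg
    have he : ((X - C z) * g).eval w = (w - z) * g.eval w := by simp
    have hd : (derivative ((X - C z) * g)).eval w = g.eval w + (w - z) * (derivative g).eval w := by
      simp [derivative_mul]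
    refine ⟨by rw [he]; exact mul_ne_zero hne h1, ?_⟩
    rw [he, hd, Multiset.card_cons]
    have e : w * (g.eval w + (w - z) * (derivative g).eval w) / ((w - z) * g.eval w)
        = w / (w - z) + w * (derivative g).eval w / g.eval w := by
      field_simp
    rw [e, Complex.add_re]
    have := half_le hz hzn
    push_cast
    linarith

/-- the base polynomial -/
noncomputable def yy (n : ℕ) (lam : ℂ) : ℂ[X] :=
  ∑ j ∈ range (n + 1), C ((n.choose j : ℂ) * ((-1) ^ j * poch (n + lam) j)) * X ^ j

lemma yy_coeff (n : ℕ) (lam : ℂ) (j : ℕ) :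
    (yy n lam).coeff j = (n.choose j : ℂ) * ((-1) ^ j * poch (n + lam) j) := by
  unfold yy
  rw [finsetSum_coeff]
  simp only [coeff_C_mul, coeff_X_pow, mul_ite, mul_one, mul_zero]
  rw [Finset.sum_ite_eq (range (n + 1)) j]
  split_ifs with h
  · rfl
  · have : n < j := by
      rw [Finset.mem_range] at h
      omega
    simp [Nat.choose_eq_zero_of_lt this]

lemma yy_eval (n : ℕ) (lam z : ℂ) : (yy n lam).eval z
    = ∑ j ∈ range (n + 1), (n.choose j : ℂ) * ((-1) ^ j * poch (n + lam) j) * z ^ j := by
  unfold yy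
  rw [eval_finsetSum]
  simp

lemma yy_ode (n : ℕ) (lam : ℂ) :
    X ^ 2 * derivative (derivative (yy n lam)) + C (1 + lam) * (X * derivative (yy n lam))
      - C ((n : ℂ) * (n + lam)) * yy n lam = derivative (yy n lam) := by
  ext j
  rw [coeff_sub, coeff_add, coeff_C_mul, coeff_C_mul, coeff_derivative]
  have hc : ((j : ℂ) + 1) * (yy n lam).coeff (j + 1)
      = ((j : ℂ) - n) * (n + lam + j) * (yy n lam).coeff j := by
    rw [yy_coeff, yy_coeff, poch_succ, pow_succ]
    have h1 : (n.choose (j + 1) : ℂ) * (j + 1) = (n.choose j : ℂ) * (n - j) := by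
      rcases Nat.lt_or_ge n j with h | h
      · simp [Nat.choose_eq_zero_of_lt h, Nat.choose_eq_zero_of_lt (h.trans (Nat.lt_succ_self j))]
      · have := Nat.choose_succ_right_eq n j
        have h2 : ((n - j : ℕ) : ℂ) = (n : ℂ) - j := Nat.cast_sub h
        rw [← h2]
        exact_mod_cast this
    linear_combination (-((-1) ^ j * poch (n + lam) j * (n + lam + j))) * h1
  rcases j with _ | _ | j
  · have e1 : (X ^ 2 * derivative (derivative (yy n lam))).coeff 0 = 0 := by
      simp [mul_coeff_zero]
    have e2 : (X * derivative (yy n lam)).coeff 0 = 0 := by simp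
    rw [e1, e2]
    simp only [Nat.cast_zero] at hc ⊢
    linear_combination -hc
  · have e1 : (X ^ 2 * derivative (derivative (yy n lam))).coeff (0 + 1) = 0 := by
      rw [pow_two, mul_assoc, coeff_X_mul, mul_coeff_zero, coeff_X_zero, zero_mul]
    have e2 : (X * derivative (yy n lam)).coeff (0 + 1) = (yy n lam).coeff 1 := by
      rw [coeff_X_mul, coeff_derivative]
      simp
    rw [e1, e2]
    simp only [zero_add, Nat.cast_one] at hc ⊢
    linear_combination -hc
  · have e1 : (X ^ 2 * derivative (derivative (yy n lam))).coeff (j + 1 + 1)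
        = (yy n lam).coeff (j + 1 + 1) * ((j : ℂ) + 1 + 1) * (j + 1) := by
      rw [pow_two, mul_assoc, coeff_X_mul, coeff_X_mul, coeff_derivative, coeff_derivative]
      push_cast
      ring
    have e2 : (X * derivative (yy n lam)).coeff (j + 1 + 1)
        = (yy n lam).coeff (j + 1 + 1) * ((j : ℂ) + 1 + 1) := by
      rw [coeff_X_mul, coeff_derivative]
      push_cast
      ring
    rw [e1, e2]
    push_cast at hc ⊢
    linear_combination -hc

lemma yy_eval_zero (n : ℕ) (lam : ℂ) : (yy n lam).eval 0 = 1 := by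
  rw [← coeff_zero_eq_eval_zero, yy_coeff]
  simp [poch_zero]

theorem yy_root_bound {n : ℕ} (hn : 1 ≤ n) {lam : ℂ} (hl : 2 * ‖lam‖ ≤ n) {z : ℂ}
    (hz : (yy n lam).eval z = 0) : ‖z‖ * n ≤ 2 := by
  have hn0 : (0 : ℝ) < n := by exact_mod_cast hn
  set y := yy n lam with hy
  have hy0 : y ≠ 0 := by
    intro h
    have := yy_eval_zero n lam
    rw [← hy, h] at this
    simp at this
  -- the degree
  have hlead : y.coeff n ≠ 0 := by
    rw [hy, yy_coeff, Nat.choose_self]
    have : poch (n + lam) n ≠ 0 := by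
      refine poch_ne_zero (fun m h => ?_) n
      have h1 : lam = -((m : ℂ) + n) := by linear_combination h
      have h2 : ‖lam‖ = (m : ℝ) + n := by
        rw [h1, norm_neg]
        have : ((m : ℂ) + n) = (((m + n : ℕ)) : ℂ) := by push_cast; rfl
        rw [this, Complex.norm_natCast]
        push_cast
        rfl
      have : (0 : ℝ) ≤ m := Nat.cast_nonneg m
      linarith
    simp [this]
  have hdegle : y.natDegree ≤ n := by
    rw [hy]
    unfold yy
    refine natDegree_sum_le_of_forall_le _ _ fun k hk => ?_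
    exact (natDegree_C_mul_X_pow_le _ _).trans (Nat.lt_succ_iff.mp (Finset.mem_range.mp hk))
  have hdeg : y.natDegree = n := le_antisymm hdegle (le_natDegree_of_ne_zero hlead)
  -- the largest root
  have hzr : z ∈ y.roots := by rw [mem_roots hy0]; exact hz
  obtain ⟨w, hw, hmax⟩ := Finset.exists_max_image y.roots.toFinset (fun x => ‖x‖)
    ⟨z, Multiset.mem_toFinset.mpr hzr⟩
  have hwr : w ∈ y.roots := Multiset.mem_toFinset.mp hw
  have hwroot : y.eval w = 0 := by
    have := (mem_roots hy0).mp hwr
    exact this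
  have hw0 : w ≠ 0 := by
    rintro rfl
    rw [hy, yy_eval_zero] at hwroot
    exact one_ne_zero hwroot
  -- `w` is a simple root
  have hode := yy_ode n lam
  rw [← hy] at hode
  have hsimple : y.rootMultiplicity w = 1 := by
    have hpos : 0 < y.rootMultiplicity w := (rootMultiplicity_pos hy0).mpr hwroot
    by_contra hne
    obtain ⟨k, hk⟩ : ∃ k, y.rootMultiplicity w = k + 2 := ⟨y.rootMultiplicity w - 2, by omega⟩
    obtain ⟨g, hg, hgd⟩ := exists_eq_pow_rootMultiplicity_mul_and_not_dvd y hy0 w
    rw [hk] at hg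
    have hgw : g.eval w ≠ 0 := by
      intro h
      exact hgd (dvd_iff_isRoot.mpr h)
    set T : ℂ[X] := X - C w with hT
    have hTd : derivative T = 1 := by simp [hT]
    have hp1 : derivative (T ^ (k + 1)) = (C (k : ℂ) + 1) * T ^ k := by
      rw [derivative_pow, hTd, Nat.add_sub_cancel, mul_one]
      simp
    have hp2 : derivative (T ^ (k + 2)) = (C (k : ℂ) + 2) * (T ^ k * T) := by
      rw [derivative_pow, hTd, mul_one, show k + 2 - 1 = k + 1 from rfl, pow_succ]
      congr 1
      rw [Nat.cast_add, C_add]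
      rfl
    have hd1' : derivative y = (C (k : ℂ) + 2) * T ^ (k + 1) * g + T ^ (k + 2) * derivative g := by
      rw [hg, derivative_mul, hp2, pow_succ T k]
    have hd1 : derivative y = T ^ k * (C ((k : ℂ) + 2) * T * g + T ^ 2 * derivative g) := by
      rw [hd1', C_add, C_ofNat, pow_succ, pow_add]
      ring
    have h2d : derivative (C (k : ℂ) + 2) = 0 := by simp
    have hd2 : derivative (derivative y) = T ^ k * (C (((k : ℂ) + 2) * (k + 1)) * g
        + T * (C (2 * ((k : ℂ) + 2)) * derivative g + T * derivative (derivative g))) := by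
      rw [hd1', derivative_add, derivative_mul, derivative_mul (f := C (k : ℂ) + 2),
        derivative_mul (f := T ^ (k + 2)), hp1, hp2, h2d]
      simp only [C_mul, C_add, C_1, C_ofNat, pow_succ, pow_zero]
      ring
    have hTne : T ^ k ≠ 0 := pow_ne_zero _ (X_sub_C_ne_zero w)
    have hfin : X ^ 2 * (C (((k : ℂ) + 2) * (k + 1)) * g
        + T * (C (2 * ((k : ℂ) + 2)) * derivative g + T * derivative (derivative g)))
        + C (1 + lam) * (X * (C ((k : ℂ) + 2) * T * g + T ^ 2 * derivative g))
        - C ((n : ℂ) * (n + lam)) * (T ^ 2 * g)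
        = C ((k : ℂ) + 2) * T * g + T ^ 2 * derivative g := by
      apply mul_left_cancel₀ hTne
      rw [hd2, hd1, hg] at hode
      rw [← hode, pow_add T k 2]
      ring
    have hev := congrArg (Polynomial.eval w) hfin
    have hTw : T.eval w = 0 := by simp [hT]
    simp only [eval_add, eval_sub, eval_mul, eval_pow, eval_X, eval_C, hTw] at hev
    have h3 : w ^ 2 * (((k : ℂ) + 2) * (k + 1) * g.eval w) = 0 := by
      linear_combination hev
    have h4 : ((k : ℂ) + 2) ≠ 0 := by exact_mod_cast Nat.succ_ne_zero (k + 1)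
    have h5 : ((k : ℂ) + 1) ≠ 0 := by exact_mod_cast Nat.succ_ne_zero k
    exact (mul_ne_zero (pow_ne_zero 2 hw0) (mul_ne_zero (mul_ne_zero h4 h5) hgw)) h3
  -- the other roots
  set S := y.roots.erase w with hS
  have hrS : y.roots = w ::ₘ S := (Multiset.cons_erase hwr).symm
  have hwS : w ∉ S := by
    intro h
    have h1 : y.roots.count w = 1 := by rw [count_roots]; exact hsimple
    rw [hrS, Multiset.count_cons_self] at h1
    have h2 := Multiset.count_pos.mpr h
    omega
  have hSprop : ∀ x ∈ S, x ≠ w ∧ ‖x‖ ≤ ‖w‖ := by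
    intro x hx
    refine ⟨fun h => hwS (h ▸ hx), hmax x (Multiset.mem_toFinset.mpr ?_)⟩
    rw [hrS]
    exact Multiset.mem_cons_of_mem hx
  obtain ⟨hne, hre⟩ := logder_re S hSprop
  have hcard : Multiset.card S + 1 = n := by
    have h1 := (IsAlgClosed.splits y).natDegree_eq_card_roots
    rw [hdeg, hrS, Multiset.card_cons] at h1
    exact h1.symm
  have hfac : y = C y.leadingCoeff * ((X - C w) * (S.map fun z => (X - C z : ℂ[X])).prod) := by
    have h1 := (IsAlgClosed.splits y).eq_prod_roots
    rw [hrS, Multiset.map_cons, Multiset.prod_cons] at h1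
    exact h1
  set g := (S.map fun z => (X - C z : ℂ[X])).prod with hg
  set lc := y.leadingCoeff with hlc
  have hlc0 : lc ≠ 0 := leadingCoeff_ne_zero.mpr hy0
  have hd1 : (derivative y).eval w = lc * g.eval w := by
    rw [hfac]
    simp [derivative_mul]
  have hd2 : (derivative (derivative y)).eval w = lc * (2 * (derivative g).eval w) := by
    rw [hfac]
    simp only [derivative_mul, derivative_C, derivative_sub, derivative_X, eval_add, eval_mul, eval_C,
      eval_sub, eval_X, derivative_add, derivative_one, derivative_zero, eval_one, eval_zero]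
    ring
  have hev := congrArg (Polynomial.eval w) hode
  simp only [eval_add, eval_sub, eval_mul, eval_pow, eval_X, eval_C, hwroot, hd1, hd2] at hev
  have hkey : 1 / w = 2 * (w * (derivative g).eval w / g.eval w) + (1 + lam) := by
    field_simp
    apply mul_left_cancel₀ hlc0
    linear_combination -hev
  have hre2 : (n : ℝ) / 2 ≤ (1 / w).re := by
    have h1 : (1 / w).re = 2 * (w * (derivative g).eval w / g.eval w).re + (1 + lam.re) := by
      rw [hkey]
      simp
    have h2 := Complex.abs_re_le_norm lam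
    have h3 := neg_abs_le lam.re
    have h4 : (Multiset.card S : ℝ) = (n : ℝ) - 1 := by
      have : ((Multiset.card S + 1 : ℕ) : ℝ) = n := by rw [hcard]
      push_cast at this
      linarith
    rw [h4] at hre
    rw [h1]
    linarith
  have hwn : 0 < ‖w‖ := norm_pos_iff.mpr hw0
  have h6 : (n : ℝ) / 2 ≤ 1 / ‖w‖ := by
    refine hre2.trans ((Complex.re_le_norm _).trans ?_)
    rw [norm_div, norm_one]
  have h7 := hmax z (Multiset.mem_toFinset.mpr hzr)
  have h8 : ‖w‖ * n ≤ 2 := by
    rw [le_div_iff₀ hwn] at h6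
    linarith
  nlinarith

/-- the base factor -/
theorem nz_base {n : ℕ} (hn : 1 ≤ n) {lam : ℂ} (hl : 2 * ‖lam‖ ≤ n) :
    NZ n (fun k => (-1) ^ (n - k) * poch (n + lam) (n - k)) ((n : ℝ) / 2) := by
  intro u hu h0
  have hn0 : (0 : ℝ) < n := by exact_mod_cast hn
  rcases eq_or_ne u 0 with rfl | hu0
  · rw [Finset.sum_range_succ'] at h0
    simp at h0
    refine poch_ne_zero (fun m h => ?_) n h0
    have h1 : lam = -((m : ℂ) + n) := by linear_combination h
    have h2 : ‖lam‖ = (m : ℝ) + n := by
      rw [h1, norm_neg]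
      have : ((m : ℂ) + n) = (((m + n : ℕ)) : ℂ) := by push_cast; rfl
      rw [this, Complex.norm_natCast]
      push_cast
      rfl
    have : (0 : ℝ) ≤ m := Nat.cast_nonneg m
    linarith
  · have hroot : (yy n lam).eval u⁻¹ = 0 := by
      rw [yy_eval]
      apply (mul_eq_zero.mp _).resolve_left (pow_ne_zero n hu0)
      rw [← h0, Finset.mul_sum, ← Finset.sum_range_reflect]
      refine Finset.sum_congr rfl fun k hk => ?_
      have hk' : k ≤ n := Nat.lt_succ_iff.mp (Finset.mem_range.mp hk)
      rw [show n + 1 - 1 - k = n - k by omega, Nat.choose_symm hk']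
      have e : u ^ n = u ^ k * u ^ (n - k) := by rw [← pow_add]; congr 1; omega
      have e2 : u ^ (n - k) * u⁻¹ ^ (n - k) = 1 := by
        rw [← mul_pow, mul_inv_cancel₀ hu0, one_pow]
      rw [e]
      linear_combination (u ^ k * (n.choose k : ℂ) * ((-1) ^ (n - k) * poch (n + lam) (n - k))) * e2
    have hb := yy_root_bound hn hl hroot
    have hun : 0 < ‖u‖ := norm_pos_iff.mpr hu0
    rw [norm_inv] at hb
    have : (n : ℝ) ≤ 2 * ‖u‖ := by
      have h1 : ‖u‖⁻¹ * n * ‖u‖ ≤ 2 * ‖u‖ := by gcongr
      have h2 : ‖u‖⁻¹ * n * ‖u‖ = n := by field_simp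
      linarith
    linarith

end Pool.Agent.X116.Hg
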