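import Pool.Agent.X116.HgD

/-!
# Assembly
-/

open Finset Polynomial

namespace Pool.Agent.X116.Hg

lemma NZ.prod {n : ℕ} {ι : Type*} (s : Finset ι) (f : ι → ℕ → ℂ) (R : ι → ℝ) (hR : ∀ i, 0 < R i)
    (h : ∀ i, NZ n (f i) (R i)) {g : ℕ → ℂ} {R0 : ℝ} (hg : NZ n g R0) (hR0 : 0 < R0) :
    NZ n (fun k => g k * ∏ i ∈ s, f i k) (R0 * ∏ i ∈ s, R i) := by
  classical
  induction s using Finset.induction_on with
  | empty => simpa using hg
  | insert i s hi ih =>
    have h1 := NZ.comp ih (h i) (mul_pos hR0 (Finset.prod_pos fun i _ => hR i)) (hR i)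
    rw [Finset.prod_insert hi]
    have e1 : (fun k => g k * ∏ j ∈ insert i s, f j k) = fun k => (g k * ∏ j ∈ s, f j k) * f i k := by
      funext k
      rw [Finset.prod_insert hi]
      ring
    rw [e1, show R0 * (R i * ∏ j ∈ s, R j) = R0 * (∏ j ∈ s, R j) * R i by ring]
    exact h1

/-- the coefficients -/
noncomputable def coe' {p q : ℕ} (lam : ℂ) (a : Fin p → ℂ) (b : Fin q → ℂ) (n j : ℕ) : ℂ :=
  poch (-(n : ℂ)) j * poch (n + lam) j * (∏ k, poch (a k) j) / ((∏ k, poch (b k) j) * (j.factorial : ℂ))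

lemma poch_neg (n j : ℕ) : poch (-(n : ℂ)) j = (-1) ^ j * (n.choose j : ℂ) * (j.factorial : ℂ) := by
  induction j with
  | zero => simp [poch_zero]
  | succ j ih =>
    have h1 : (n.choose (j + 1) : ℂ) * (j + 1) = (n.choose j : ℂ) * (n - j) := by
      rcases Nat.lt_or_ge n j with h | h
      · simp [Nat.choose_eq_zero_of_lt h, Nat.choose_eq_zero_of_lt (h.trans (Nat.lt_succ_self j))]
      · have := Nat.choose_succ_right_eq n j
        have h2 : ((n - j : ℕ) : ℂ) = (n : ℂ) - j := Nat.cast_sub h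
        rw [← h2]
        exact_mod_cast this
    rw [poch_succ, ih, Nat.factorial_succ, pow_succ]
    push_cast
    linear_combination (-1) ^ j * (j.factorial : ℂ) * h1

lemma coe_eq {q r : ℕ} (lam : ℂ) (a : Fin (q + r) → ℂ) (b : Fin q → ℂ)
    (hb : ∀ k, ∀ m : ℕ, b k ≠ -m) (n j : ℕ) :
    coe' lam a b n j = (n.choose j : ℂ) * (((-1) ^ j * poch (n + lam) j *
      ∏ k, poch (a k) j / poch ((Fin.append b fun _ : Fin r => (1 : ℂ)) k) j) *
      ∏ _i ∈ range r, (j.factorial : ℂ)) := by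
  unfold coe'
  rw [poch_neg, Finset.prod_div_distrib, Fin.prod_univ_add (fun k => poch ((Fin.append b fun _ : Fin r => (1 : ℂ)) k) j)]
  simp only [Fin.append_left, Fin.append_right, poch_one, Finset.prod_const, Finset.card_range,
    Finset.card_univ, Fintype.card_fin]
  have h1 : (∏ k, poch (b k) j) ≠ 0 := Finset.prod_ne_zero_iff.mpr fun k _ => poch_ne_zero (hb k) j
  have h2 : (j.factorial : ℂ) ≠ 0 := by exact_mod_cast Nat.factorial_ne_zero j
  field_simp

theorem main {q r : ℕ} (lam : ℂ) (a : Fin (q + r) → ℂ) (b : Fin q → ℂ)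
    (ha : ∀ k, ∀ m : ℕ, a k ≠ -m) (hb : ∀ k, ∀ m : ℕ, b k ≠ -m) :
    ∃ c : ℝ, 0 < c ∧ ∀ n : ℕ, 1 ≤ n → 2 * ‖lam‖ ≤ n → ∀ z : ℂ,
      ∑ j ∈ range (n + 1), coe' lam a b n j * z ^ j = 0 → ‖z‖ * (c * (n : ℝ) ^ (r + 1)) ≤ 1 := by
  set b' : Fin (q + r) → ℂ := Fin.append b fun _ : Fin r => (1 : ℂ) with hb'
  have hb'' : ∀ k, ∀ m : ℕ, b' k ≠ -m := by
    intro k
    rw [hb']
    induction k using Fin.addCases with
    | left k => rw [Fin.append_left]; exact hb k
    | right k =>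
      rw [Fin.append_right]
      intro m h
      have : ((m + 1 : ℕ) : ℂ) = 0 := by push_cast; linear_combination h
      exact absurd this (by exact_mod_cast Nat.succ_ne_zero m)
  choose δ hδ0 hδ using fun k => nz_ratio (ha k) (hb'' k)
  refine ⟨(1 / 2) * (∏ k, δ k) * (1 / 6) ^ r, ?_, ?_⟩
  · have : 0 < ∏ k, δ k := Finset.prod_pos fun k _ => hδ0 k
    positivity
  intro n hn hl z hz
  have hn0 : (0 : ℝ) < n := by exact_mod_cast hn
  have h1 := nz_base hn hl
  have h2 := NZ.prod (n := n) Finset.univ (fun k j => poch (a k) (n - j) / poch (b' k) (n - j)) δ hδ0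
    (fun k => hδ k n) h1 (by positivity)
  have h3 := NZ.prod (n := n) (range r) (fun _ k => (((n - k).factorial : ℕ) : ℂ)) (fun _ => (n : ℝ) / 6)
    (fun _ => by positivity) (fun _ => nz_fact hn) h2
    (mul_pos (by positivity) (Finset.prod_pos fun k _ => hδ0 k))
  rw [Finset.prod_const, Finset.card_range] at h3
  rcases eq_or_ne z 0 with rfl | hz0
  · rw [norm_zero, zero_mul]; norm_num
  have hzn : 0 < ‖z‖ := norm_pos_iff.mpr hz0
  by_contra hcon
  push Not at hcon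
  have hu : ‖z⁻¹‖ < (n : ℝ) / 2 * (∏ k, δ k) * ((n : ℝ) / 6) ^ r := by
    rw [norm_inv, inv_lt_iff_one_lt_mul₀ hzn]
    refine hcon.trans_le (le_of_eq ?_)
    rw [pow_succ (n : ℝ) r, show (n : ℝ) / 6 = n * (1 / 6) by ring, mul_pow]
    ring
  apply h3 z⁻¹ hu
  have e0 : z ^ n ≠ 0 := pow_ne_zero n hz0
  apply mul_left_cancel₀ e0
  rw [mul_zero, ← hz, Finset.mul_sum, ← Finset.sum_range_reflect]
  refine Finset.sum_congr rfl fun k hk => ?_
  have hk' : k ≤ n := Nat.lt_succ_iff.mp (Finset.mem_range.mp hk)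
  rw [show n + 1 - 1 - k = n - k by omega, Nat.choose_symm hk', coe_eq lam a b hb n k]
  simp only [Nat.sub_sub_self hk']
  have e : z ^ n = z ^ k * z ^ (n - k) := by rw [← pow_add]; congr 1; omega
  have e2 : z ^ (n - k) * z⁻¹ ^ (n - k) = 1 := by
    rw [← mul_pow, mul_inv_cancel₀ hz0, one_pow]
  rw [e]
  linear_combination (z ^ k * (n.choose k : ℂ) * (((-1) ^ k * poch (n + lam) k *
      ∏ i, poch (a i) k / poch (b' i) k) * ∏ _i ∈ range r, (k.factorial : ℂ))) * e2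

end Pool.Agent.X116.Hg
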