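import Pool.Agent.X116.KrC

/-!
# Krall classification: the basic system and its algebra
-/

open Polynomial MeasureTheory Finset

namespace Pool.Agent.X116.Kl

/-- the two functional equations satisfied by the measure `φ` -/
structure Sys (φ : Measure ℝ) (A B a₂ a₁ : ℝ[X]) : Prop where
  hm : ∀ k : ℕ, Integrable (fun x : ℝ => x ^ k) φ
  hinf : ∀ s : Finset ℝ, φ ((↑s : Set ℝ)ᶜ) ≠ 0
  A_ne : A ≠ 0
  dA : A.natDegree ≤ 4
  dB : B.natDegree ≤ 3
  d2 : a₂.natDegree ≤ 2
  d1 : a₁.natDegree ≤ 1
  P1 : ∀ f : ℝ[X], ∫ x, (A * derivative f + B * f).eval x ∂φ = 0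
  P2 : ∀ f : ℝ[X], ∫ x, (B * derivative (derivative f) + a₂ * derivative f + a₁ * f).eval x ∂φ = 0

namespace Sys

variable {φ : Measure ℝ} {A B a₂ a₁ : ℝ[X]}

lemma pi (S : Sys φ A B a₂ a₁) (f : ℝ[X]) : Integrable (fun x => f.eval x) φ :=
  Kr.poly_int S.hm f

/-- the polynomial identity behind the two equations -/
lemma Q_eq (S : Sys φ A B a₂ a₁) :
    B ^ 3 - 3 * derivative A * B ^ 2 + 2 * derivative A ^ 2 * B - A * derivative (derivative A) * B
      - 2 * A * derivative A * derivative B + 3 * A * B * derivative B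
      + A ^ 2 * derivative (derivative B) + a₂ * A * derivative A - a₂ * A * B
      - derivative a₂ * A ^ 2 + a₁ * A ^ 2 = 0 := by
  set Q := B ^ 3 - 3 * derivative A * B ^ 2 + 2 * derivative A ^ 2 * B
      - A * derivative (derivative A) * B
      - 2 * A * derivative A * derivative B + 3 * A * B * derivative B
      + A ^ 2 * derivative (derivative B) + a₂ * A * derivative A - a₂ * A * B
      - derivative a₂ * A ^ 2 + a₁ * A ^ 2 with hQ
  have hnd := Kr.Fn_nd φ S.hm S.hinf
  apply hnd
  set F := Kr.Fn φ S.hm with hF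
  have p1 : ∀ f, F (A * derivative f + B * f) = 0 := fun f => by
    rw [hF, Kr.Fn_apply]; exact S.P1 f
  have p2 : ∀ f, F (B * derivative (derivative f) + a₂ * derivative f + a₁ * f) = 0 := fun f => by
    rw [hF, Kr.Fn_apply]; exact S.P2 f
  have key : ∀ f, F (Q * f) = 0 := by
    intro f
    have e1 := p2 (A ^ 2 * f)
    have e2 := p1 (B * A * derivative f)
    have e3 := p1 ((3 * derivative A * B - A * derivative B + a₂ * A - B ^ 2) * f)
    have : Q * f = (B * derivative (derivative (A ^ 2 * f)) + a₂ * derivative (A ^ 2 * f)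
        + a₁ * (A ^ 2 * f))
        - (A * derivative (B * A * derivative f) + B * (B * A * derivative f))
        - (A * derivative ((3 * derivative A * B - A * derivative B + a₂ * A - B ^ 2) * f)
          + B * ((3 * derivative A * B - A * derivative B + a₂ * A - B ^ 2) * f)) := by
      have c3 : derivative (3 : ℝ[X]) = 0 := by
        have : (3 : ℝ[X]) = C 3 := (map_ofNat C 3).symm
        rw [this, derivative_C]
      rw [hQ]
      simp only [pow_two, derivative_mul, derivative_add, derivative_sub, c3]
      ring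
    rw [this, map_sub, map_sub, e1, e2, e3]
    simp
  exact key Q

/-- if `deg B ≥ deg A` then `2 deg B ≤ 2 + deg A` -/
lemma deg_bound (S : Sys φ A B a₂ a₁) (h : A.natDegree ≤ B.natDegree) (hB : B ≠ 0) :
    2 * B.natDegree ≤ 2 + A.natDegree := by
  by_contra hcon
  push Not at hcon
  set σ := B.natDegree with hσ
  set r := A.natDegree with hr
  have hA' : (derivative A).natDegree ≤ r - 1 := natDegree_derivative_le A
  have hA'' : (derivative (derivative A)).natDegree ≤ r - 2 :=
    (natDegree_derivative_le _).trans (by omega)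
  have hB' : (derivative B).natDegree ≤ σ - 1 := natDegree_derivative_le B
  have hB'' : (derivative (derivative B)).natDegree ≤ σ - 2 :=
    (natDegree_derivative_le _).trans (by omega)
  have ha2' : (derivative a₂).natDegree ≤ 1 := (natDegree_derivative_le a₂).trans (by
    have := S.d2; omega)
  have hσ2 : 2 ≤ σ := by omega
  have h3 : B ^ 3 = 3 * derivative A * B ^ 2 - 2 * derivative A ^ 2 * B
      + A * derivative (derivative A) * B
      + 2 * A * derivative A * derivative B - 3 * A * B * derivative B
      - A ^ 2 * derivative (derivative B) - a₂ * A * derivative A + a₂ * A * B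
      + derivative a₂ * A ^ 2 - a₁ * A ^ 2 := by
    have := S.Q_eq
    linear_combination this
  have hdeg : (B ^ 3).natDegree = 3 * σ := by rw [natDegree_pow]
  have n2 : (2 : ℝ[X]).natDegree ≤ 0 := by
    have : (2 : ℝ[X]) = C 2 := (map_ofNat C 2).symm
    rw [this]; exact (natDegree_C _).le
  have n3 : (3 : ℝ[X]).natDegree ≤ 0 := by
    have : (3 : ℝ[X]) = C 3 := (map_ofNat C 3).symm
    rw [this]; exact (natDegree_C _).le
  have mul_le : ∀ {p q : ℝ[X]} {m n k : ℕ}, p.natDegree ≤ m → q.natDegree ≤ n → m + n ≤ k →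
      (p * q).natDegree ≤ k := fun hp hq hk => (natDegree_mul_le_of_le hp hq).trans hk
  have pow2 : ∀ {p : ℝ[X]} {m : ℕ}, p.natDegree ≤ m → (p ^ 2).natDegree ≤ 2 * m :=
    fun hp => natDegree_pow_le_of_le 2 hp
  have hle : (B ^ 3).natDegree ≤ 3 * σ - 1 := by
    rw [h3]
    have dA1 : A.natDegree ≤ r := le_rfl
    have dB1 : B.natDegree ≤ σ := le_rfl
    have t1 : (3 * derivative A * B ^ 2).natDegree ≤ 3 * σ - 1 :=
      mul_le (mul_le n3 hA' le_rfl) (pow2 dB1) (by omega)
    have t2 : (2 * derivative A ^ 2 * B).natDegree ≤ 3 * σ - 1 :=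
      mul_le (mul_le n2 (pow2 hA') le_rfl) dB1 (by omega)
    have t3 : (A * derivative (derivative A) * B).natDegree ≤ 3 * σ - 1 :=
      mul_le (mul_le dA1 hA'' le_rfl) dB1 (by omega)
    have t4 : (2 * A * derivative A * derivative B).natDegree ≤ 3 * σ - 1 :=
      mul_le (mul_le (mul_le n2 dA1 le_rfl) hA' le_rfl) hB' (by omega)
    have t5 : (3 * A * B * derivative B).natDegree ≤ 3 * σ - 1 :=
      mul_le (mul_le (mul_le n3 dA1 le_rfl) dB1 le_rfl) hB' (by omega)
    have t6 : (A ^ 2 * derivative (derivative B)).natDegree ≤ 3 * σ - 1 :=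
      mul_le (pow2 dA1) hB'' (by omega)
    have t7 : (a₂ * A * derivative A).natDegree ≤ 3 * σ - 1 :=
      mul_le (mul_le S.d2 dA1 le_rfl) hA' (by omega)
    have t8 : (a₂ * A * B).natDegree ≤ 3 * σ - 1 :=
      mul_le (mul_le S.d2 dA1 le_rfl) dB1 (by omega)
    have t9 : (derivative a₂ * A ^ 2).natDegree ≤ 3 * σ - 1 :=
      mul_le ha2' (pow2 dA1) (by omega)
    have t10 : (a₁ * A ^ 2).natDegree ≤ 3 * σ - 1 :=
      mul_le S.d1 (pow2 dA1) (by omega)
    have sub_le : ∀ {p q : ℝ[X]} {k : ℕ}, p.natDegree ≤ k → q.natDegree ≤ k →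
        (p - q).natDegree ≤ k := fun hp hq => (natDegree_sub_le _ _).trans (max_le hp hq)
    exact sub_le (natDegree_add_le_of_degree_le (natDegree_add_le_of_degree_le
      (sub_le (sub_le (sub_le (natDegree_add_le_of_degree_le (natDegree_add_le_of_degree_le
        (sub_le t1 t2) t3) t4) t5) t6) t7) t8) t9) t10
  omega

/-- changing all signs -/
lemma neg (S : Sys φ A B a₂ a₁) : Sys φ (-A) (-B) (-a₂) (-a₁) where
  hm := S.hm
  hinf := S.hinf
  A_ne := neg_ne_zero.mpr S.A_ne
  dA := by rw [natDegree_neg]; exact S.dA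
  dB := by rw [natDegree_neg]; exact S.dB
  d2 := by rw [natDegree_neg]; exact S.d2
  d1 := by rw [natDegree_neg]; exact S.d1
  P1 := fun f => by
    have h := S.P1 f
    have : ∀ x, (-A * derivative f + -B * f).eval x = - (A * derivative f + B * f).eval x := by
      intro x; simp; ring
    simp_rw [this]
    rw [integral_neg, h, neg_zero]
  P2 := fun f => by
    have h := S.P2 f
    have : ∀ x, (-B * derivative (derivative f) + -a₂ * derivative f + -a₁ * f).eval x
        = - (B * derivative (derivative f) + a₂ * derivative f + a₁ * f).eval x := by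
      intro x; simp; ring
    simp_rw [this]
    rw [integral_neg, h, neg_zero]

lemma int_neg_map (φ : Measure ℝ) (g : ℝ → ℝ) : ∫ x, g x ∂(φ.map (fun x => -x))
    = ∫ x, g (-x) ∂φ :=
  (MeasurableEquiv.neg ℝ).measurableEmbedding.integral_map g

lemma natDegree_refl (p : ℝ[X]) : (p.comp (-X)).natDegree = p.natDegree := by
  rw [natDegree_comp, natDegree_neg, natDegree_X, mul_one]

/-- reflection -/
lemma refl (S : Sys φ A B a₂ a₁) :
    Sys (φ.map (fun x => -x)) (A.comp (-X)) (-B.comp (-X)) (a₂.comp (-X)) (-a₁.comp (-X)) where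
  hm := fun k => by
    have h1 := S.hm k
    have h2 : Integrable ((fun x : ℝ => x ^ k) ∘ (fun x => -x)) φ := by
      have : ((fun x : ℝ => x ^ k) ∘ (fun x => -x)) = fun x => (-1) ^ k * x ^ k := by
        ext x; simp only [Function.comp]; rw [neg_pow]
      rw [this]
      exact h1.const_mul _
    exact ((MeasurableEquiv.neg ℝ).measurableEmbedding.integrable_map_iff).mpr h2
  hinf := fun s => by
    intro h
    have h0 : (φ.map (MeasurableEquiv.neg ℝ)) (↑s : Set ℝ)ᶜ = 0 := h
    rw [(MeasurableEquiv.neg ℝ).measurableEmbedding.map_apply] at h0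
    apply S.hinf (s.image (fun x => -x))
    refine measure_mono_null ?_ h0
    intro x hx
    simp only [Set.mem_preimage, Set.mem_compl_iff, Finset.mem_coe]
    intro hx2
    apply hx
    simp only [Finset.coe_image, Set.mem_image, Finset.mem_coe]
    exact ⟨_, hx2, by simp⟩
  A_ne := by
    intro h
    have h1 : (A.comp (-X)).comp (-X) = A := by
      rw [comp_assoc]; simp
    rw [h, zero_comp] at h1
    exact S.A_ne h1.symm
  dA := by rw [natDegree_refl]; exact S.dA
  dB := by rw [natDegree_neg, natDegree_refl]; exact S.dB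
  d2 := by rw [natDegree_refl]; exact S.d2
  d1 := by rw [natDegree_neg, natDegree_refl]; exact S.d1
  P1 := fun f => by
    rw [int_neg_map]
    have h := S.P1 (f.comp (-X))
    have : ∀ x, (A.comp (-X) * derivative f + -B.comp (-X) * f).eval (-x)
        = - (A * derivative (f.comp (-X)) + B * f.comp (-X)).eval x := by
      intro x
      simp only [eval_add, eval_mul, eval_comp, eval_neg, eval_X, derivative_comp, derivative_neg,
        derivative_X, neg_neg, eval_one]
      ring
    simp_rw [this]
    rw [integral_neg, h, neg_zero]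
  P2 := fun f => by
    rw [int_neg_map]
    have h := S.P2 (f.comp (-X))
    have : ∀ x, (-B.comp (-X) * derivative (derivative f) + a₂.comp (-X) * derivative f
          + -a₁.comp (-X) * f).eval (-x)
        = - (B * derivative (derivative (f.comp (-X))) + a₂ * derivative (f.comp (-X))
          + a₁ * f.comp (-X)).eval x := by
      intro x
      simp only [eval_add, eval_mul, eval_comp, eval_neg, eval_X, derivative_comp, derivative_neg,
        derivative_X, neg_neg, eval_one, derivative_mul, derivative_one, neg_zero, zero_mul,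
        zero_add]
      ring
    simp_rw [this]
    rw [integral_neg, h, neg_zero]

end Sys

end Pool.Agent.X116.Kl
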