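import Pool.Agent.X116.KlA

/-!
# Krall classification: exponential moments
-/

open Polynomial MeasureTheory Finset

namespace Pool.Agent.X116.Kl

lemma rec_bound (m : ℕ → ℝ) (N k₀ : ℕ) (hN : 1 ≤ N) (c₀ H : ℝ) (hc : 0 < c₀) (hH : 0 ≤ H)
    (h : ∀ k : ℕ, k₀ ≤ k → c₀ * |m (k + N)| ≤ ((k : ℝ) + 1) * H * ∑ j ∈ range N, |m (k + j)|) :
    ∃ M C : ℝ, 0 ≤ M ∧ 1 ≤ C ∧ ∀ n : ℕ, |m n| ≤ M * C ^ n * (n.factorial : ℝ) := by
  set C : ℝ := 1 + H * N / c₀ with hC
  set M : ℝ := ∑ i ∈ range (k₀ + N), |m i| with hM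
  have hC1 : 1 ≤ C := by
    have : 0 ≤ H * N / c₀ := by positivity
    linarith
  have hM0 : 0 ≤ M := sum_nonneg fun i _ => abs_nonneg _
  refine ⟨M, C, hM0, hC1, ?_⟩
  intro n
  induction n using Nat.strong_induction_on with
  | _ n ih =>
    rcases lt_or_ge n (k₀ + N) with hn | hn
    · have h1 : |m n| ≤ M := single_le_sum (f := fun i => |m i|) (fun i _ => abs_nonneg _)
        (mem_range.mpr hn)
      have h2 : 1 ≤ C ^ n := one_le_pow₀ hC1
      have h3 : (1 : ℝ) ≤ (n.factorial : ℝ) := by exact_mod_cast n.factorial_pos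
      calc |m n| ≤ M := h1
        _ = M * 1 * 1 := by ring
        _ ≤ M * C ^ n * (n.factorial : ℝ) := by gcongr
    · obtain ⟨k, rfl⟩ : ∃ k, n = k + N := ⟨n - N, by omega⟩
      have hk : k₀ ≤ k := by omega
      have h1 := h k hk
      have h2 : ∀ j ∈ range N, |m (k + j)| ≤ M * C ^ (k + N - 1) * ((k + N - 1).factorial : ℝ) := by
        intro j hj
        have hj' := mem_range.mp hj
        refine (ih (k + j) (by omega)).trans ?_
        have : C ^ (k + j) ≤ C ^ (k + N - 1) := pow_le_pow_right₀ hC1 (by omega)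
        have : ((k + j).factorial : ℝ) ≤ ((k + N - 1).factorial : ℝ) := by
          exact_mod_cast Nat.factorial_le (by omega)
        gcongr
      have h3 := sum_le_sum h2
      rw [sum_const, card_range, nsmul_eq_mul] at h3
      obtain ⟨N', rfl⟩ : ∃ N', N = N' + 1 := ⟨N - 1, by omega⟩
      have e1 : k + (N' + 1) - 1 = k + N' := by omega
      rw [e1] at h3
      have e2 : ((k + (N' + 1)).factorial : ℝ) = ((k : ℝ) + N' + 1) * ((k + N').factorial : ℝ) := by
        rw [← add_assoc, Nat.factorial_succ]; push_cast; ring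
      rw [e2, ← add_assoc, pow_succ]
      have hF : (0 : ℝ) < ((k + N').factorial : ℝ) := by exact_mod_cast Nat.factorial_pos _
      have hCp : 0 < C ^ (k + N') := by positivity
      have h4 : c₀ * |m (k + (N' + 1))| ≤ ((k : ℝ) + 1) * H * (((N' + 1 : ℕ) : ℝ) *
          (M * C ^ (k + N') * ((k + N').factorial : ℝ))) :=
        h1.trans (mul_le_mul_of_nonneg_left h3 (by positivity))
      have h5 : ((k : ℝ) + 1) * H * (((N' + 1 : ℕ) : ℝ) *
          (M * C ^ (k + N') * ((k + N').factorial : ℝ))) ≤ c₀ * (M * (C ^ (k + N') * C) *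
            (((k : ℝ) + N' + 1) * ((k + N').factorial : ℝ))) := by
        have e3 : H * ((N' + 1 : ℕ) : ℝ) ≤ c₀ * C := by
          rw [hC, mul_add, mul_one, mul_div_cancel₀ _ hc.ne']
          linarith
        have e4 : ((k : ℝ) + 1) ≤ (k : ℝ) + N' + 1 := by
          have : (0 : ℝ) ≤ N' := Nat.cast_nonneg _
          linarith
        calc ((k : ℝ) + 1) * H * (((N' + 1 : ℕ) : ℝ) *
            (M * C ^ (k + N') * ((k + N').factorial : ℝ)))
            = ((k : ℝ) + 1) * (H * ((N' + 1 : ℕ) : ℝ)) * (M * C ^ (k + N') *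
              ((k + N').factorial : ℝ)) := by ring
          _ ≤ ((k : ℝ) + N' + 1) * (c₀ * C) * (M * C ^ (k + N') *
              ((k + N').factorial : ℝ)) := by gcongr
          _ = _ := by ring
      have h6 := h4.trans h5
      have e5 : k + (N' + 1) = k + N' + 1 := by ring
      rw [e5] at h6
      exact le_of_mul_le_mul_left h6 hc

namespace Sys

variable {φ : Measure ℝ} {A B a₂ a₁ : ℝ[X]}

lemma moment_rec (S : Sys φ A B a₂ a₁) (N : ℕ) (hA : A.natDegree ≤ N) (hB : (X * B).natDegree ≤ N)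
    (k : ℕ) : ∑ j ∈ range (N + 1), (((k : ℝ) + 1) * A.coeff j + (X * B).coeff j)
      * ∫ x, x ^ (k + j) ∂φ = 0 := by
  have h := S.P1 (X ^ (k + 1))
  have e : ∀ x, (A * derivative (X ^ (k + 1)) + B * X ^ (k + 1) : ℝ[X]).eval x
      = ∑ j ∈ range (N + 1), (((k : ℝ) + 1) * A.coeff j + (X * B).coeff j) * x ^ (k + j) := by
    intro x
    have h1 := eval_eq_sum_range' (p := A) (Nat.lt_succ_of_le hA) x
    have h2 := eval_eq_sum_range' (p := X * B) (Nat.lt_succ_of_le hB) x
    have h3 : (A * derivative (X ^ (k + 1)) + B * X ^ (k + 1) : ℝ[X]).eval x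
        = ((k : ℝ) + 1) * x ^ k * A.eval x + x ^ k * (X * B).eval x := by
      simp only [eval_add, eval_mul, derivative_X_pow, eval_pow, eval_X, Nat.add_sub_cancel,
        eval_C]
      push_cast
      ring
    rw [h3, h1, h2, mul_sum, mul_sum, ← sum_add_distrib]
    refine sum_congr rfl fun j _ => ?_
    rw [pow_add]; ring
  simp_rw [e] at h
  rw [integral_finsetSum _ (fun j _ => (S.hm _).const_mul _)] at h
  simp_rw [integral_const_mul] at h
  exact h

lemma m0_pos (S : Sys φ A B a₂ a₁) : ∫ x, x ^ 0 ∂φ ≠ 0 := by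
  intro h
  have := Kr.Fn_nd φ S.hm S.hinf 1 (by
    rw [Kr.Fn_apply]
    simpa using h)
  exact one_ne_zero this

lemma moment_bound (S : Sys φ A B a₂ a₁) :
    ∃ M C : ℝ, 0 ≤ M ∧ 1 ≤ C ∧ ∀ n : ℕ, |∫ x, x ^ n ∂φ| ≤ M * C ^ n * (n.factorial : ℝ) := by
  set N := max A.natDegree (X * B).natDegree with hN
  have hA : A.natDegree ≤ N := le_max_left _ _
  have hB : (X * B).natDegree ≤ N := le_max_right _ _
  have hrec := S.moment_rec N hA hB
  -- the top coefficients do not both vanish
  have hN1 : 1 ≤ N := by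
    by_contra hcon
    have hN0 : N = 0 := by omega
    have hA0 : A.natDegree = 0 := by omega
    have hB0 : (X * B).natDegree = 0 := by omega
    have hBz : B = 0 := by
      by_contra hb
      rw [natDegree_X_mul hb] at hB0
      omega
    have h := hrec 0
    rw [hN0] at h
    simp only [zero_add, range_one, sum_singleton, Nat.cast_zero, one_mul, hBz, mul_zero,
      coeff_zero, add_zero] at h
    rcases mul_eq_zero.mp h with h1 | h1
    · apply S.A_ne
      rw [eq_C_of_natDegree_eq_zero hA0, h1, C_0]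
    · exact S.m0_pos h1
  have htop : A.coeff N ≠ 0 ∨ (X * B).coeff N ≠ 0 := by
    rcases le_total A.natDegree (X * B).natDegree with h | h
    · right
      have : N = (X * B).natDegree := max_eq_right h
      rw [this]
      apply leadingCoeff_ne_zero.mpr
      intro h0
      rw [h0, natDegree_zero] at this
      omega
    · left
      have : N = A.natDegree := max_eq_left h
      rw [this]
      exact leadingCoeff_ne_zero.mpr S.A_ne
  obtain ⟨c₀, k₀, hc₀, hlow⟩ : ∃ (c₀ : ℝ) (k₀ : ℕ), 0 < c₀ ∧ ∀ k : ℕ, k₀ ≤ k →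
      c₀ ≤ |((k : ℝ) + 1) * A.coeff N + (X * B).coeff N| := by
    by_cases ha : A.coeff N = 0
    · refine ⟨|(X * B).coeff N|, 0, abs_pos.mpr (htop.resolve_left (fun h => h ha)), ?_⟩
      intro k _
      rw [ha]; simp
    · obtain ⟨k₀, hk₀⟩ := exists_nat_gt ((|(X * B).coeff N| + 1) / |A.coeff N|)
      refine ⟨1, k₀, one_pos, ?_⟩
      intro k hk
      have hpos := abs_pos.mpr ha
      have h1 : |(X * B).coeff N| + 1 ≤ ((k : ℝ) + 1) * |A.coeff N| := by
        rw [div_lt_iff₀ hpos] at hk₀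
        have : (k₀ : ℝ) ≤ k := by exact_mod_cast hk
        nlinarith
      have h2 : |((k : ℝ) + 1) * A.coeff N| - |(X * B).coeff N|
          ≤ |((k : ℝ) + 1) * A.coeff N + (X * B).coeff N| := by
        have := abs_sub_abs_le_abs_sub (((k : ℝ) + 1) * A.coeff N) (-(X * B).coeff N)
        rwa [abs_neg, sub_neg_eq_add] at this
      rw [abs_mul, abs_of_nonneg (by positivity : (0 : ℝ) ≤ (k : ℝ) + 1)] at h2
      linarith
  set H : ℝ := ∑ j ∈ range (N + 1), (|A.coeff j| + |(X * B).coeff j|) with hH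
  have hHj : ∀ j ∈ range (N + 1), |A.coeff j| + |(X * B).coeff j| ≤ H := fun j hj =>
    single_le_sum (f := fun j => |A.coeff j| + |(X * B).coeff j|)
      (fun i _ => add_nonneg (abs_nonneg _) (abs_nonneg _)) hj
  have hH0 : 0 ≤ H := sum_nonneg fun i _ => add_nonneg (abs_nonneg _) (abs_nonneg _)
  refine rec_bound (fun n => ∫ x, x ^ n ∂φ) N k₀ hN1 c₀ H hc₀ hH0 ?_
  intro k hk
  have h := hrec k
  rw [sum_range_succ] at h
  have h1 : |(((k : ℝ) + 1) * A.coeff N + (X * B).coeff N) * ∫ x, x ^ (k + N) ∂φ|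
      = |∑ j ∈ range N, (((k : ℝ) + 1) * A.coeff j + (X * B).coeff j) * ∫ x, x ^ (k + j) ∂φ| := by
    rw [← abs_neg]
    congr 1
    linarith
  rw [abs_mul] at h1
  calc c₀ * |∫ x, x ^ (k + N) ∂φ|
      ≤ |((k : ℝ) + 1) * A.coeff N + (X * B).coeff N| * |∫ x, x ^ (k + N) ∂φ| := by
        have := hlow k hk
        gcongr
    _ = _ := h1
    _ ≤ ∑ j ∈ range N, |(((k : ℝ) + 1) * A.coeff j + (X * B).coeff j) * ∫ x, x ^ (k + j) ∂φ| :=
        abs_sum_le_sum_abs _ _
    _ ≤ ∑ j ∈ range N, ((k : ℝ) + 1) * H * |∫ x, x ^ (k + j) ∂φ| := by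
        refine sum_le_sum fun j hj => ?_
        rw [abs_mul]
        refine mul_le_mul_of_nonneg_right ?_ (abs_nonneg _)
        have hj2 : j ∈ range (N + 1) := mem_range.mpr (by have := mem_range.mp hj; omega)
        have h3 := hHj j hj2
        have hk0 : (0 : ℝ) ≤ k := Nat.cast_nonneg _
        calc |((k : ℝ) + 1) * A.coeff j + (X * B).coeff j|
            ≤ |((k : ℝ) + 1) * A.coeff j| + |(X * B).coeff j| := abs_add_le _ _
          _ = ((k : ℝ) + 1) * |A.coeff j| + |(X * B).coeff j| := by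
              rw [abs_mul, abs_of_nonneg (by positivity : (0 : ℝ) ≤ (k : ℝ) + 1)]
          _ ≤ ((k : ℝ) + 1) * (|A.coeff j| + |(X * B).coeff j|) := by
              have := abs_nonneg ((X * B).coeff j)
              nlinarith
          _ ≤ ((k : ℝ) + 1) * H := by gcongr
    _ = _ := by rw [← mul_sum]

/-- exponential moments -/
lemma exp_int (S : Sys φ A B a₂ a₁) :
    ∃ ε : ℝ, 0 < ε ∧ Integrable (fun x => Real.exp (ε * |x|)) φ := by
  obtain ⟨M, C, hM, hC, hb⟩ := S.moment_bound
  have hC0 : 0 < C := by linarith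
  refine ⟨1 / (2 * C), by positivity, ?_⟩
  set ε := 1 / (2 * C) with hε
  have hε0 : 0 < ε := by positivity
  set F : ℕ → ℝ → ℝ := fun n x => (ε * x) ^ (2 * n) / ((2 * n).factorial : ℝ) with hF
  have hFint : ∀ n, Integrable (F n) φ := by
    intro n
    have := (S.hm (2 * n)).const_mul (ε ^ (2 * n) / ((2 * n).factorial : ℝ))
    refine this.congr (Filter.Eventually.of_forall fun x => ?_)
    simp only [hF, mul_pow]; ring
  have hFnn : ∀ n x, 0 ≤ F n x := fun n x => by
    simp only [hF]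
    exact div_nonneg (Even.pow_nonneg (even_two_mul n) _) (by positivity)
  have hFi : ∀ n, ∫ x, F n x ∂φ ≤ M * (1 / 4) ^ n := by
    intro n
    have e1 : ∫ x, F n x ∂φ = ε ^ (2 * n) / ((2 * n).factorial : ℝ) * ∫ x, x ^ (2 * n) ∂φ := by
      rw [← integral_const_mul]
      refine integral_congr_ae (Filter.Eventually.of_forall fun x => ?_)
      simp only [hF, mul_pow]; ring
    have e2 := (le_abs_self _).trans (hb (2 * n))
    rw [e1]
    calc ε ^ (2 * n) / ((2 * n).factorial : ℝ) * ∫ x, x ^ (2 * n) ∂φ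
        ≤ ε ^ (2 * n) / ((2 * n).factorial : ℝ) * (M * C ^ (2 * n) * ((2 * n).factorial : ℝ)) := by
          gcongr
      _ = M * (ε * C) ^ (2 * n) := by
          have : ((2 * n).factorial : ℝ) ≠ 0 := by positivity
          field_simp
          rw [mul_pow]; ring
      _ = M * (1 / 4) ^ n := by
          have : ε * C = 1 / 2 := by rw [hε]; field_simp
          rw [this, pow_mul]; norm_num
  have hcosh : Integrable (fun x => Real.cosh (ε * x)) φ := by
    have hmeas : Measurable (fun x : ℝ => Real.cosh (ε * x)) := by fun_prop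
    refine ⟨hmeas.aestronglyMeasurable, ?_⟩
    rw [hasFiniteIntegral_iff_ofReal (Filter.Eventually.of_forall fun x => (Real.cosh_pos _).le)]
    have e1 : ∀ x, ENNReal.ofReal (Real.cosh (ε * x)) = ∑' n, ENNReal.ofReal (F n x) := by
      intro x
      have hs := Real.hasSum_cosh (ε * x)
      rw [← hs.tsum_eq, ENNReal.ofReal_tsum_of_nonneg (fun n => hFnn n x) hs.summable]
    simp_rw [e1]
    rw [lintegral_tsum (fun n => (hFint n).aestronglyMeasurable.aemeasurable.ennreal_ofReal)]
    have e2 : ∀ n, ∫⁻ x, ENNReal.ofReal (F n x) ∂φ ≤ ENNReal.ofReal (M * (1 / 4) ^ n) := by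
      intro n
      rw [← ofReal_integral_eq_lintegral_ofReal (hFint n)
        (Filter.Eventually.of_forall fun x => hFnn n x)]
      exact ENNReal.ofReal_le_ofReal (hFi n)
    have hsum : Summable (fun n : ℕ => M * (1 / 4 : ℝ) ^ n) :=
      (summable_geometric_of_lt_one (by norm_num) (by norm_num)).mul_left _
    calc ∑' n, ∫⁻ x, ENNReal.ofReal (F n x) ∂φ ≤ ∑' n, ENNReal.ofReal (M * (1 / 4) ^ n) :=
          ENNReal.tsum_le_tsum e2
      _ = ENNReal.ofReal (∑' n, M * (1 / 4) ^ n) :=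
          (ENNReal.ofReal_tsum_of_nonneg (fun n => by positivity) hsum).symm
      _ < ⊤ := ENNReal.ofReal_lt_top
  refine (hcosh.const_mul 2).mono' ?_ (Filter.Eventually.of_forall fun x => ?_)
  · exact (by fun_prop : Measurable (fun x : ℝ => Real.exp (ε * |x|))).aestronglyMeasurable
  · rw [Real.norm_eq_abs, abs_of_pos (Real.exp_pos _), Real.cosh_eq]
    have h1 := Real.exp_pos (ε * x)
    have h2 := Real.exp_pos (-(ε * x))
    rcases abs_cases x with ⟨h, _⟩ | ⟨h, _⟩
    · rw [h]; linarith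
    · rw [h, mul_neg]; linarith

end Sys

end Pool.Agent.X116.Kl
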