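import Mathlib

/-!
# Moment determinacy for (signed) measures with exponential moments
-/

open MeasureTheory ProbabilityTheory Set Filter Topology Complex

namespace Pool.Agent.X116.Kl

lemma mem_interior_expSet {μ : Measure ℝ} {ε : ℝ} 
    (hμ : Integrable (fun x => Real.exp (ε * |x|)) μ) {t : ℝ} (ht : |t| < ε) :
    t ∈ interior (integrableExpSet id μ) := by
  rw [mem_interior]
  refine ⟨Set.Ioo (-ε) ε, ?_, isOpen_Ioo, abs_lt.mp ht⟩
  intro s hs
  have hs' : |s| < ε := abs_lt.mpr hs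
  change Integrable (fun x => Real.exp (s * id x)) μ
  refine hμ.mono' (by fun_prop : Measurable (fun x : ℝ => Real.exp (s * id x))).aestronglyMeasurable
    (Eventually.of_forall fun x => ?_)
  rw [Real.norm_eq_abs, abs_of_pos (Real.exp_pos _), Real.exp_le_exp, id]
  calc s * x ≤ |s * x| := le_abs_self _
    _ = |s| * |x| := abs_mul _ _
    _ ≤ ε * |x| := by gcongr

/-- measures on `ℝ` with exponential moments are determined by their moments -/
theorem md {μ ν : Measure ℝ} [IsFiniteMeasure μ] [IsFiniteMeasure ν] {ε : ℝ} (hε : 0 < ε)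
    (hμ : Integrable (fun x => Real.exp (ε * |x|)) μ)
    (hν : Integrable (fun x => Real.exp (ε * |x|)) ν)
    (h : ∀ n : ℕ, ∫ x, x ^ n ∂μ = ∫ x, x ^ n ∂ν) : μ = ν := by
  set U : Set ℂ := {z | z.re ∈ Set.Ioo (-ε) ε} with hU
  have hUpre : IsPreconnected U := ((convex_Ioo (-ε) ε).linear_preimage reLm).isPreconnected
  have hsub : ∀ {κ : Measure ℝ}, Integrable (fun x => Real.exp (ε * |x|)) κ →
      U ⊆ {z | z.re ∈ interior (integrableExpSet id κ)} := fun hκ z hz =>
    mem_interior_expSet hκ (abs_lt.mpr hz)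
  have h1 : AnalyticOnNhd ℂ (complexMGF id μ) U := analyticOnNhd_complexMGF.mono (hsub hμ)
  have h2 : AnalyticOnNhd ℂ (complexMGF id ν) U := analyticOnNhd_complexMGF.mono (hsub hν)
  have h0 : (0 : ℂ) ∈ U := by simp [hU, hε]
  have hser : ∀ n, iteratedDeriv n (complexMGF id μ) 0 = iteratedDeriv n (complexMGF id ν) 0 := by
    intro n
    rw [iteratedDeriv_complexMGF (hsub hμ h0), iteratedDeriv_complexMGF (hsub hν h0)]
    simp only [id_eq, zero_mul, Complex.exp_zero, mul_one]
    have e : ∀ κ : Measure ℝ, ∫ x, ((x : ℂ)) ^ n ∂κ = ((∫ x, x ^ n ∂κ : ℝ) : ℂ) := by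
      intro κ
      rw [← integral_complex_ofReal]
      push_cast
      rfl
    rw [e, e, h n]
  have heq : complexMGF id μ =ᶠ[𝓝 0] complexMGF id ν := by
    have a1 := (h1 0 h0).hasFPowerSeriesAt
    have a2 := (h2 0 h0).hasFPowerSeriesAt
    simp_rw [hser] at a1
    have a3 := a1.sub a2
    rw [sub_self] at a3
    have a4 := a3.eventually_eq_zero
    filter_upwards [a4] with z hz
    have : complexMGF id μ z - complexMGF id ν z = 0 := hz
    exact sub_eq_zero.mp this
  have hEq := h1.eqOn_of_preconnected_of_eventuallyEq h2 hUpre h0 heq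
  apply Measure.ext_of_charFun
  ext t
  rw [← complexMGF_id_mul_I, ← complexMGF_id_mul_I]
  apply hEq
  simp [hU, hε]

lemma pow_le_exp {ε : ℝ} (hε : 0 < ε) (n : ℕ) (x : ℝ) :
    |x ^ n| ≤ (n.factorial / ε ^ n) * Real.exp (ε * |x|) := by
  have h := Real.pow_div_factorial_le_exp (ε * |x|) (by positivity) n
  rw [abs_pow, div_mul_eq_mul_div, le_div_iff₀ (by positivity)]
  rw [div_le_iff₀ (by positivity), mul_pow] at h
  linarith

lemma wd_int {μ : Measure ℝ} {k : ℝ → ℝ} (hk : AEMeasurable k μ) (g : ℝ → ℝ) :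
    ∫ x, g x ∂(μ.withDensity (fun x => ENNReal.ofReal (k x))) = ∫ x, max (k x) 0 * g x ∂μ := by
  rw [integral_withDensity_eq_integral_toReal_smul₀ hk.ennreal_ofReal
    (Eventually.of_forall fun x => ENNReal.ofReal_lt_top)]
  simp only [ENNReal.toReal_ofReal', smul_eq_mul]

lemma wd_integrable {μ : Measure ℝ} {k : ℝ → ℝ} (hk : AEMeasurable k μ) (g : ℝ → ℝ)
    (h : Integrable (fun x => g x * k x) μ) (hg : AEStronglyMeasurable g μ) :
    Integrable g (μ.withDensity (fun x => ENNReal.ofReal (k x)))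
      ∧ Integrable (fun x => max (k x) 0 * g x) μ := by
  have h2 : Integrable (fun x => max (k x) 0 * g x) μ := by
    refine h.mono ?_ (Eventually.of_forall fun x => ?_)
    · exact (hk.max aemeasurable_const).aestronglyMeasurable.mul hg
    · rw [norm_mul, norm_mul, mul_comm]
      refine mul_le_mul_of_nonneg_left ?_ (norm_nonneg _)
      rw [Real.norm_eq_abs, Real.norm_eq_abs, abs_of_nonneg (le_max_right _ _)]
      exact max_le (le_abs_self _) (abs_nonneg _)
  refine ⟨?_, h2⟩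
  rw [integrable_withDensity_iff_integrable_smul₀' hk.ennreal_ofReal
    (Eventually.of_forall fun x => ENNReal.ofReal_lt_top)]
  simpa only [ENNReal.toReal_ofReal', smul_eq_mul] using h2

/-- signed version -/
theorem md_signed {μ₁ μ₂ : Measure ℝ} {k₁ k₂ : ℝ → ℝ} {ε : ℝ} (hε : 0 < ε)
    (h₁ : Integrable (fun x => Real.exp (ε * |x|) * k₁ x) μ₁)
    (h₂ : Integrable (fun x => Real.exp (ε * |x|) * k₂ x) μ₂)
    (h : ∀ n : ℕ, ∫ x, x ^ n * k₁ x ∂μ₁ = ∫ x, x ^ n * k₂ x ∂μ₂)
    (g : ℝ → ℝ) (hg : Measurable g) (C : ℝ) (hC : ∀ x, |g x| ≤ C) :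
    ∫ x, g x * k₁ x ∂μ₁ = ∫ x, g x * k₂ x ∂μ₂ := by
  have hm : ∀ {μ : Measure ℝ} {k : ℝ → ℝ}, Integrable (fun x => Real.exp (ε * |x|) * k x) μ →
      AEMeasurable k μ := by
    intro μ k hk
    have e : k = fun x => Real.exp (-(ε * |x|)) * (Real.exp (ε * |x|) * k x) := by
      ext x
      rw [← mul_assoc, ← Real.exp_add]; simp
    rw [e]
    exact ((by fun_prop : Measurable (fun x : ℝ => Real.exp (-(ε * |x|)))).aemeasurable).mul
      hk.aestronglyMeasurable.aemeasurable
  have hm₁ := hm h₁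
  have hm₂ := hm h₂
  have hm₁' : AEMeasurable (fun x => -k₁ x) μ₁ := hm₁.neg
  have hm₂' : AEMeasurable (fun x => -k₂ x) μ₂ := hm₂.neg
  -- admissible functions
  have adm : ∀ {μ : Measure ℝ} {k : ℝ → ℝ}, Integrable (fun x => Real.exp (ε * |x|) * k x) μ →
      ∀ (f : ℝ → ℝ), Measurable f → ∀ D : ℝ, (∀ x, |f x| ≤ D * Real.exp (ε * |x|)) →
      Integrable (fun x => f x * k x) μ := by
    intro μ k hk f hf D hD
    refine (hk.norm.const_mul D).mono' (hf.aestronglyMeasurable.mul (hm hk).aestronglyMeasurable)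
      (Eventually.of_forall fun x => ?_)
    rw [norm_mul, norm_mul, Real.norm_eq_abs, Real.norm_eq_abs (Real.exp _),
      abs_of_pos (Real.exp_pos _), ← mul_assoc]
    exact mul_le_mul_of_nonneg_right (hD x) (norm_nonneg _)
  set N₁ := μ₁.withDensity (fun x => ENNReal.ofReal (k₁ x))
    + μ₂.withDensity (fun x => ENNReal.ofReal (-k₂ x)) with hN₁
  set N₂ := μ₁.withDensity (fun x => ENNReal.ofReal (-k₁ x))
    + μ₂.withDensity (fun x => ENNReal.ofReal (k₂ x)) with hN₂
  have h₁' : Integrable (fun x => Real.exp (ε * |x|) * (-k₁ x)) μ₁ := by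
    simp only [mul_neg]; exact h₁.neg
  have h₂' : Integrable (fun x => Real.exp (ε * |x|) * (-k₂ x)) μ₂ := by
    simp only [mul_neg]; exact h₂.neg
  have key : ∀ (f : ℝ → ℝ), Measurable f → ∀ D : ℝ, (∀ x, |f x| ≤ D * Real.exp (ε * |x|)) →
      Integrable f N₁ ∧ Integrable f N₂ ∧
      ∫ x, f x ∂N₁ - ∫ x, f x ∂N₂ = ∫ x, f x * k₁ x ∂μ₁ - ∫ x, f x * k₂ x ∂μ₂ := by
    intro f hf D hD
    have a1 := wd_integrable hm₁ f (adm h₁ f hf D hD) hf.aestronglyMeasurable
    have a2 := wd_integrable hm₂' f (adm h₂' f hf D hD) hf.aestronglyMeasurable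
    have a3 := wd_integrable hm₁' f (adm h₁' f hf D hD) hf.aestronglyMeasurable
    have a4 := wd_integrable hm₂ f (adm h₂ f hf D hD) hf.aestronglyMeasurable
    have b1 := wd_int hm₁ f
    have b2 := wd_int hm₂' f
    have b3 := wd_int hm₁' f
    have b4 := wd_int hm₂ f
    refine ⟨a1.1.add_measure a2.1, a3.1.add_measure a4.1, ?_⟩
    have c1 : ∫ x, f x ∂N₁ = (∫ x, max (k₁ x) 0 * f x ∂μ₁) + ∫ x, max (-k₂ x) 0 * f x ∂μ₂ := by
      rw [hN₁, integral_add_measure a1.1 a2.1]
      exact congrArg₂ _ b1 b2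
    have c2 : ∫ x, f x ∂N₂ = (∫ x, max (-k₁ x) 0 * f x ∂μ₁) + ∫ x, max (k₂ x) 0 * f x ∂μ₂ := by
      rw [hN₂, integral_add_measure a3.1 a4.1]
      exact congrArg₂ _ b3 b4
    have c3 : ∫ x, f x * k₁ x ∂μ₁ = (∫ x, max (k₁ x) 0 * f x ∂μ₁)
        - ∫ x, max (-k₁ x) 0 * f x ∂μ₁ := by
      rw [← integral_sub a1.2 a3.2]
      refine integral_congr_ae (Eventually.of_forall fun x => ?_)
      change f x * k₁ x = max (k₁ x) 0 * f x - max (-k₁ x) 0 * f x
      rcases le_total (k₁ x) 0 with hx | hx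
      · rw [max_eq_right hx, max_eq_left (by linarith)]; ring
      · rw [max_eq_left hx, max_eq_right (by linarith)]; ring
    have c4 : ∫ x, f x * k₂ x ∂μ₂ = (∫ x, max (k₂ x) 0 * f x ∂μ₂)
        - ∫ x, max (-k₂ x) 0 * f x ∂μ₂ := by
      rw [← integral_sub a4.2 a2.2]
      refine integral_congr_ae (Eventually.of_forall fun x => ?_)
      change f x * k₂ x = max (k₂ x) 0 * f x - max (-k₂ x) 0 * f x
      rcases le_total (k₂ x) 0 with hx | hx
      · rw [max_eq_right hx, max_eq_left (by linarith)]; ring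
      · rw [max_eq_left hx, max_eq_right (by linarith)]; ring
    rw [c1, c2, c3, c4]; ring
  have kone := key (fun _ => (1 : ℝ)) measurable_const 1 (fun x => by
    rw [abs_one, one_mul]; exact Real.one_le_exp (by positivity))
  have kexp := key (fun x => Real.exp (ε * |x|)) (by fun_prop) 1 (fun x => by
    rw [one_mul, abs_of_pos (Real.exp_pos _)])
  have fin1 : IsFiniteMeasure N₁ := by
    have := kone.1
    rwa [integrable_const_iff_isFiniteMeasure one_ne_zero] at this
  have fin2 : IsFiniteMeasure N₂ := by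
    have := kone.2.1
    rwa [integrable_const_iff_isFiniteMeasure one_ne_zero] at this
  have hNN : N₁ = N₂ := by
    apply md hε kexp.1 kexp.2.1
    intro n
    have := (key (fun x => x ^ n) (by fun_prop) _ (pow_le_exp hε n)).2.2
    have h3 := h n
    linarith
  have hfin := (key g hg (max C 0) (fun x => by
    have h1 := hC x
    have h2 : (1 : ℝ) ≤ Real.exp (ε * |x|) := Real.one_le_exp (by positivity)
    have h3 : C ≤ max C 0 := le_max_left _ _
    have h4 : 0 ≤ max C 0 := le_max_right _ _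
    nlinarith)).2.2
  rw [hNN, sub_self] at hfin
  linarith

end Pool.Agent.X116.Kl
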