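import Mathlib

/-!
# Primitives of measures and integration by parts against polynomials
-/

open MeasureTheory Set Filter Topology Polynomial

namespace Pool.Agent.X116.Kl

/-- the kernel `1_{x<y} - 1_{x<0}` -/
noncomputable def th (x y : ℝ) : ℝ := (if x < y then 1 else 0) - (if x < 0 then 1 else 0)

lemma th_meas : Measurable (fun p : ℝ × ℝ => th p.2 p.1) := by
  unfold th
  refine Measurable.sub (Measurable.ite (measurableSet_lt measurable_snd measurable_fst)
    measurable_const measurable_const) (Measurable.ite (measurableSet_lt measurable_snd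
      measurable_const) measurable_const measurable_const)

lemma th_abs (x y : ℝ) : |th x y| ≤ (Icc (-|y|) |y|).indicator (fun _ => (1 : ℝ)) x := by
  unfold th
  by_cases h1 : x < y <;> by_cases h2 : x < 0
  · simp [h1, h2, indicator_apply]; positivity
  · have : x ∈ Icc (-|y|) |y| := by
      constructor
      · have := abs_nonneg y; linarith [not_lt.mp h2]
      · exact (h1.le).trans (le_abs_self y)
    simp [h1, h2, indicator_of_mem this]
  · have : x ∈ Icc (-|y|) |y| := by
      constructor
      · have := neg_abs_le y; linarith [not_lt.mp h1]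
      · have := abs_nonneg y; linarith
    simp [h1, h2, indicator_of_mem this]
  · simp [h1, h2, indicator_apply]; positivity

lemma th_eq (x y : ℝ) : th x y = (Ico 0 y).indicator (fun _ => (1 : ℝ)) x
    - (Ico y 0).indicator (fun _ => (1 : ℝ)) x := by
  unfold th
  simp only [indicator_apply, mem_Ico]
  by_cases h1 : x < y <;> by_cases h2 : x < 0
  · have h3 : ¬ (0 ≤ x) := not_le.mpr h2
    have h4 : ¬ (y ≤ x) := not_le.mpr h1
    simp [h1, h2, h3, h4]
  · have h3 : (0 ≤ x) := not_lt.mp h2
    have h4 : ¬ (y ≤ x) := not_le.mpr h1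
    simp [h1, h2, h3, h4]
  · have h3 : ¬ (0 ≤ x) := not_le.mpr h2
    have h4 : (y ≤ x) := not_lt.mp h1
    simp [h1, h2, h3, h4]
  · have h3 : (0 ≤ x) := not_lt.mp h2
    have h4 : (y ≤ x) := not_lt.mp h1
    simp [h1, h2, h3, h4]

lemma th_int (g : ℝ → ℝ) (hg : Continuous g) (y : ℝ) : ∫ x, g x * th x y = ∫ x in (0:ℝ)..y, g x := by
  have h1 : ∀ x, g x * th x y = (Ico 0 y).indicator g x - (Ico y 0).indicator g x := by
    intro x
    rw [th_eq]
    simp only [indicator_apply]
    split_ifs <;> ring
  simp_rw [h1]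
  have i1 : ∀ a b : ℝ, Integrable ((Ico a b).indicator g) := fun a b =>
    (integrable_indicator_iff measurableSet_Ico).mpr
      ((hg.integrableOn_Icc).mono_set Ico_subset_Icc_self)
  rw [integral_sub (i1 _ _) (i1 _ _), integral_indicator measurableSet_Ico,
    integral_indicator measurableSet_Ico, integral_Ico_eq_integral_Ioo,
    integral_Ico_eq_integral_Ioo, ← integral_Ioc_eq_integral_Ioo, ← integral_Ioc_eq_integral_Ioo]
  rfl

/-- product integrability -/
lemma fub {μ : Measure ℝ} [SFinite μ] {k : ℝ → ℝ} {ε δ : ℝ} (hδ : 0 < δ) (hδε : δ < ε)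
    (hk : Integrable (fun y => Real.exp (ε * |y|) * k y) μ) :
    Integrable (fun p : ℝ × ℝ => Real.exp (δ * |p.2|) * th p.2 p.1 * k p.1) (μ.prod volume) := by
  have hkm : AEStronglyMeasurable k μ := by
    have e : k = fun x => Real.exp (-(ε * |x|)) * (Real.exp (ε * |x|) * k x) := by
      ext x
      rw [← mul_assoc, ← Real.exp_add]; simp
    rw [e]
    exact ((by fun_prop : Measurable (fun x : ℝ => Real.exp (-(ε * |x|)))).aestronglyMeasurable).mul
      hk.aestronglyMeasurable
  have hm1 : Measurable (fun p : ℝ × ℝ => Real.exp (δ * |p.2|) * th p.2 p.1) :=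
    (by fun_prop : Measurable (fun p : ℝ × ℝ => Real.exp (δ * |p.2|))).mul th_meas
  have hmeas : AEStronglyMeasurable (fun p : ℝ × ℝ => Real.exp (δ * |p.2|) * th p.2 p.1 * k p.1)
      (μ.prod volume) := hm1.aestronglyMeasurable.mul hkm.comp_fst
  rw [integrable_prod_iff hmeas]
  have hbd : ∀ y x : ℝ, ‖Real.exp (δ * |x|) * th x y * k y‖
      ≤ (Icc (-|y|) |y|).indicator (fun _ => Real.exp (δ * |y|) * |k y|) x := by
    intro y x
    rw [norm_mul, norm_mul, Real.norm_eq_abs, Real.norm_eq_abs, Real.norm_eq_abs,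
      abs_of_pos (Real.exp_pos _)]
    have h := th_abs x y
    by_cases hx : x ∈ Icc (-|y|) |y|
    · rw [indicator_of_mem hx] at h ⊢
      have hx2 : |x| ≤ |y| := abs_le.mpr hx
      have : Real.exp (δ * |x|) ≤ Real.exp (δ * |y|) := Real.exp_le_exp.mpr (by gcongr)
      calc Real.exp (δ * |x|) * |th x y| * |k y| ≤ Real.exp (δ * |y|) * 1 * |k y| := by gcongr
        _ = _ := by ring
    · rw [indicator_of_notMem hx] at h ⊢
      have : |th x y| = 0 := le_antisymm h (abs_nonneg _)
      rw [this]; simp
  have hbi : ∀ y : ℝ, Integrable ((Icc (-|y|) |y|).indicator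
      (fun _ : ℝ => Real.exp (δ * |y|) * |k y|)) := fun y =>
    (integrable_indicator_iff measurableSet_Icc).mpr
      (integrableOn_const (by simp) ENNReal.coe_ne_top)
  constructor
  · refine Eventually.of_forall fun y => ?_
    refine (hbi y).mono' ?_ (Eventually.of_forall (hbd y))
    exact ((hm1.comp (measurable_const.prodMk measurable_id)).mul_const (k y)).aestronglyMeasurable
  · have hI : ∀ y : ℝ, ∫ x, ‖Real.exp (δ * |x|) * th x y * k y‖
        ≤ 2 / (ε - δ) * (Real.exp (ε * |y|) * |k y|) := by
      intro y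
      have h1 : ∫ x, ‖Real.exp (δ * |x|) * th x y * k y‖
          ≤ ∫ x, (Icc (-|y|) |y|).indicator (fun _ : ℝ => Real.exp (δ * |y|) * |k y|) x :=
        integral_mono_of_nonneg (Eventually.of_forall fun _ => norm_nonneg _) (hbi y)
          (Eventually.of_forall (hbd y))
      refine h1.trans ?_
      rw [integral_indicator measurableSet_Icc, integral_const]
      simp only [MeasurableSet.univ, measureReal_restrict_apply, univ_inter, smul_eq_mul,
        Real.volume_real_Icc, sub_neg_eq_add]
      rw [max_eq_left (by positivity)]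
      have hd : 0 < ε - δ := by linarith
      have h2 : (ε - δ) * |y| ≤ Real.exp ((ε - δ) * |y|) :=
        (by linarith : (ε - δ) * |y| ≤ (ε - δ) * |y| + 1).trans (Real.add_one_le_exp _)
      have h3 : |y| ≤ Real.exp ((ε - δ) * |y|) / (ε - δ) := by
        rw [le_div_iff₀ hd]; linarith
      calc (|y| + |y|) * (Real.exp (δ * |y|) * |k y|)
          = 2 * |y| * Real.exp (δ * |y|) * |k y| := by ring
        _ ≤ 2 * (Real.exp ((ε - δ) * |y|) / (ε - δ)) * Real.exp (δ * |y|) * |k y| := by gcongr
        _ = 2 / (ε - δ) * ((Real.exp ((ε - δ) * |y|) * Real.exp (δ * |y|)) * |k y|) := by ring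
        _ = _ := by rw [← Real.exp_add]; ring_nf
    refine (hk.norm.const_mul (2 / (ε - δ))).mono' hmeas.norm.integral_prod_right'
      (Eventually.of_forall fun y => ?_)
    rw [Real.norm_eq_abs, abs_of_nonneg (integral_nonneg fun _ => norm_nonneg _), norm_mul,
      Real.norm_eq_abs, abs_of_pos (Real.exp_pos _), Real.norm_eq_abs]
    exact hI y

/-- the primitive of `k dμ` -/
noncomputable def pr (μ : Measure ℝ) (k : ℝ → ℝ) (x : ℝ) : ℝ := ∫ y in Iic x, k y ∂μ

lemma th_pr {μ : Measure ℝ} {k : ℝ → ℝ} (hk : Integrable k μ) (x : ℝ) :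
    ∫ y, th x y * k y ∂μ = (if x < 0 then 0 else ∫ y, k y ∂μ) - pr μ k x := by
  have h1 : ∀ y, th x y * k y = (Ioi x).indicator k y - (if x < 0 then 1 else 0) * k y := by
    intro y
    unfold th
    simp only [indicator_apply, mem_Ioi]
    split_ifs <;> ring
  simp_rw [h1]
  rw [integral_sub (hk.indicator measurableSet_Ioi) (hk.const_mul _), integral_const_mul,
    integral_indicator measurableSet_Ioi]
  have h2 := integral_add_compl (measurableSet_Iic (a := x)) hk
  rw [compl_Iic] at h2
  unfold pr
  split_ifs <;> linarith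

lemma poly_le_exp (f : ℝ[X]) {δ : ℝ} (hδ : 0 < δ) : ∃ C : ℝ, ∀ x, |f.eval x| ≤ C * Real.exp (δ * |x|) := by
  refine ⟨∑ i ∈ f.support, |f.coeff i| * (i.factorial / δ ^ i), fun x => ?_⟩
  rw [eval_eq_sum, Polynomial.sum, Finset.sum_mul]
  refine (Finset.abs_sum_le_sum_abs _ _).trans (Finset.sum_le_sum fun i _ => ?_)
  rw [abs_mul, mul_assoc]
  refine mul_le_mul_of_nonneg_left ?_ (abs_nonneg _)
  have h := Real.pow_div_factorial_le_exp (δ * |x|) (by positivity) i
  rw [abs_pow, div_mul_eq_mul_div, le_div_iff₀ (by positivity)]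
  rw [div_le_iff₀ (by positivity), mul_pow] at h
  linarith

lemma exp_mono_int {μ : Measure ℝ} {k : ℝ → ℝ} {ε δ : ℝ} (hδε : δ ≤ ε)
    (hk : Integrable (fun y => Real.exp (ε * |y|) * k y) μ) :
    Integrable (fun y => Real.exp (δ * |y|) * k y) μ := by
  have e : (fun y => Real.exp (δ * |y|) * k y)
      = fun x => Real.exp (-((ε - δ) * |x|)) * (Real.exp (ε * |x|) * k x) := by
    ext x
    rw [← mul_assoc, ← Real.exp_add]; ring_nf
  rw [e]
  refine hk.bdd_mul (c := 1) ?_ (Eventually.of_forall fun x => ?_)
  · exact (by fun_prop : Measurable (fun x : ℝ => Real.exp (-((ε - δ) * |x|)))).aestronglyMeasurable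
  · rw [Real.norm_eq_abs, abs_of_pos (Real.exp_pos _)]
    rw [Real.exp_le_one_iff]
    have : 0 ≤ (ε - δ) * |x| := mul_nonneg (by linarith) (abs_nonneg _)
    linarith

lemma poly_mul_int {μ : Measure ℝ} {k : ℝ → ℝ} {ε : ℝ} (hε : 0 < ε)
    (hk : Integrable (fun y => Real.exp (ε * |y|) * k y) μ) (f : ℝ[X]) :
    Integrable (fun y => f.eval y * k y) μ := by
  obtain ⟨C, hC⟩ := poly_le_exp f hε
  have e : (fun y => f.eval y * k y)
      = fun x => (f.eval x * Real.exp (-(ε * |x|))) * (Real.exp (ε * |x|) * k x) := by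
    ext x
    have : Real.exp (-(ε * |x|)) * Real.exp (ε * |x|) = 1 := by rw [← Real.exp_add]; simp
    calc f.eval x * k x = f.eval x * (Real.exp (-(ε * |x|)) * Real.exp (ε * |x|)) * k x := by
          rw [this, mul_one]
      _ = _ := by ring
  rw [e]
  refine hk.bdd_mul (c := C) ?_ (Eventually.of_forall fun x => ?_)
  · exact (by fun_prop : Measurable (fun x : ℝ => f.eval x * Real.exp (-(ε * |x|)))).aestronglyMeasurable
  · rw [norm_mul, Real.norm_eq_abs, Real.norm_eq_abs, abs_of_pos (Real.exp_pos _)]
    calc |f.eval x| * Real.exp (-(ε * |x|)) ≤ C * Real.exp (ε * |x|) * Real.exp (-(ε * |x|)) := by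
          gcongr; exact hC x
      _ = C := by rw [mul_assoc, ← Real.exp_add]; simp

lemma self_int {μ : Measure ℝ} {k : ℝ → ℝ} {ε : ℝ} (hε : 0 < ε)
    (hk : Integrable (fun y => Real.exp (ε * |y|) * k y) μ) : Integrable k μ := by
  have := poly_mul_int hε hk 1
  simpa using this

/-- the primitive inherits exponential decay, and integration by parts holds -/
theorem ibp {μ : Measure ℝ} [SFinite μ] {k : ℝ → ℝ} {ε δ : ℝ} (hδ : 0 < δ) (hδε : δ < ε)
    (hk : Integrable (fun y => Real.exp (ε * |y|) * k y) μ) :
    Integrable (fun x => Real.exp (δ * |x|) * ((if x < 0 then 0 else ∫ y, k y ∂μ) - pr μ k x)) ∧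
    ∀ f : ℝ[X], ∫ x, (derivative f).eval x * ((if x < 0 then 0 else ∫ y, k y ∂μ) - pr μ k x)
      = ∫ y, (f.eval y - f.eval 0) * k y ∂μ := by
  have hki : Integrable k μ := self_int (hδ.trans hδε) hk
  have hF := fub hδ hδε hk
  constructor
  · have h1 := hF.integral_prod_right
    refine h1.congr (Eventually.of_forall fun x => ?_)
    change ∫ y, Real.exp (δ * |x|) * th x y * k y ∂μ
      = Real.exp (δ * |x|) * ((if x < 0 then 0 else ∫ y, k y ∂μ) - pr μ k x)
    rw [← th_pr hki x, ← integral_const_mul]
    refine integral_congr_ae (Eventually.of_forall fun y => ?_)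
    change Real.exp (δ * |x|) * th x y * k y = Real.exp (δ * |x|) * (th x y * k y)
    ring
  · intro f
    obtain ⟨C, hC⟩ := poly_le_exp (derivative f) hδ
    have hH : Integrable (fun p : ℝ × ℝ => (derivative f).eval p.2 * th p.2 p.1 * k p.1)
        (μ.prod volume) := by
      have e : (fun p : ℝ × ℝ => (derivative f).eval p.2 * th p.2 p.1 * k p.1)
          = fun p => ((derivative f).eval p.2 * Real.exp (-(δ * |p.2|)))
            * (Real.exp (δ * |p.2|) * th p.2 p.1 * k p.1) := by
        ext p
        have : Real.exp (-(δ * |p.2|)) * Real.exp (δ * |p.2|) = 1 := by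
          rw [← Real.exp_add]; simp
        calc (derivative f).eval p.2 * th p.2 p.1 * k p.1
            = (derivative f).eval p.2 * (Real.exp (-(δ * |p.2|)) * Real.exp (δ * |p.2|))
              * th p.2 p.1 * k p.1 := by rw [this, mul_one]
          _ = _ := by ring
      rw [e]
      refine hF.bdd_mul (c := C) ?_ (Eventually.of_forall fun p => ?_)
      · exact (by fun_prop : Measurable (fun p : ℝ × ℝ => (derivative f).eval p.2
          * Real.exp (-(δ * |p.2|)))).aestronglyMeasurable
      · rw [norm_mul, Real.norm_eq_abs, Real.norm_eq_abs, abs_of_pos (Real.exp_pos _)]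
        calc |(derivative f).eval p.2| * Real.exp (-(δ * |p.2|))
            ≤ C * Real.exp (δ * |p.2|) * Real.exp (-(δ * |p.2|)) := by
              gcongr; exact hC _
          _ = C := by rw [mul_assoc, ← Real.exp_add]; simp
    have hsw := integral_integral_swap (f := fun y x => (derivative f).eval x * th x y * k y) hH
    have l1 : ∀ x, ∫ y, (derivative f).eval x * th x y * k y ∂μ
        = (derivative f).eval x * ((if x < 0 then 0 else ∫ y, k y ∂μ) - pr μ k x) := by
      intro x
      rw [← th_pr hki x, ← integral_const_mul]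
      refine integral_congr_ae (Eventually.of_forall fun y => ?_)
      change (derivative f).eval x * th x y * k y = (derivative f).eval x * (th x y * k y)
      ring
    have l2 : ∀ y, ∫ x, (derivative f).eval x * th x y * k y
        = (f.eval y - f.eval 0) * k y := by
      intro y
      rw [integral_mul_const, th_int _ (derivative f).continuous]
      congr 1
      exact intervalIntegral.integral_eq_sub_of_hasDerivAt (fun x _ => f.hasDerivAt x)
        ((derivative f).continuous.intervalIntegrable _ _)
    simp_rw [l1, l2] at hsw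
    exact hsw.symm

end Pool.Agent.X116.Kl
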