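import Pool.Agent.X116.KlB
import Pool.Agent.X116.KlC
import Pool.Agent.X116.KlD

/-!
# Krall classification: `A φ = W dx`, `B φ = V dx`
-/

open MeasureTheory Set Filter Topology Polynomial

namespace Pool.Agent.X116.Kl

noncomputable def fU (φ : Measure ℝ) (a₁ : ℝ[X]) (x : ℝ) : ℝ := pr φ (fun y => a₁.eval y) x

noncomputable def fV (φ : Measure ℝ) (a₂ a₁ : ℝ[X]) (x : ℝ) : ℝ :=
  pr φ (fun y => a₂.eval y) x - pr volume (fU φ a₁) x

noncomputable def fW (φ : Measure ℝ) (B : ℝ[X]) (x : ℝ) : ℝ := pr φ (fun y => B.eval y) x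

lemma exists_prim (f : ℝ[X]) : ∃ h : ℝ[X], derivative h = f := by
  refine ⟨∑ i ∈ f.support, C (f.coeff i / (i + 1)) * X ^ (i + 1), ?_⟩
  rw [derivative_sum]
  conv_rhs => rw [f.as_sum_support_C_mul_X_pow]
  refine Finset.sum_congr rfl fun i _ => ?_
  rw [derivative_C_mul_X_pow]
  congr 2
  have : (i : ℝ) + 1 ≠ 0 := by positivity
  push_cast
  field_simp

namespace Sys

variable {φ : Measure ℝ} {A B a₂ a₁ : ℝ[X]}

lemma fin (S : Sys φ A B a₂ a₁) : IsFiniteMeasure φ := by
  have := S.hm 0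
  simp only [pow_zero] at this
  rwa [integrable_const_iff_isFiniteMeasure one_ne_zero] at this

lemma exp_poly (S : Sys φ A B a₂ a₁) :
    ∃ ε : ℝ, 0 < ε ∧ ∀ P : ℝ[X], Integrable (fun x => Real.exp (ε * |x|) * P.eval x) φ := by
  obtain ⟨ε, hε, h⟩ := S.exp_int
  refine ⟨ε / 2, by positivity, fun P => ?_⟩
  have h2 : Integrable (fun y => Real.exp ((ε / 2) * |y|) * Real.exp ((ε / 2) * |y|)) φ := by
    refine h.congr (Eventually.of_forall fun x => ?_)
    change Real.exp (ε * |x|) = Real.exp (ε / 2 * |x|) * Real.exp (ε / 2 * |x|)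
    rw [← Real.exp_add]; ring_nf
  have := poly_mul_int (by positivity) h2 P
  refine this.congr (Eventually.of_forall fun x => ?_)
  change P.eval x * Real.exp (ε / 2 * |x|) = _
  ring

lemma intB (S : Sys φ A B a₂ a₁) : ∫ x, B.eval x ∂φ = 0 := by
  have := S.P1 1
  simpa using this

lemma inta1 (S : Sys φ A B a₂ a₁) : ∫ x, a₁.eval x ∂φ = 0 := by
  have := S.P2 1
  simpa using this

lemma P1' (S : Sys φ A B a₂ a₁) (f : ℝ[X]) :
    (∫ x, (derivative f).eval x * A.eval x ∂φ) + ∫ x, f.eval x * B.eval x ∂φ = 0 := by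
  have h := S.P1 f
  have e : ∀ x, (A * derivative f + B * f).eval x
      = (derivative f * A).eval x + (f * B).eval x := by
    intro x; simp; ring
  simp_rw [e] at h
  rw [integral_add (S.pi _) (S.pi _)] at h
  simpa only [eval_mul] using h

lemma P2' (S : Sys φ A B a₂ a₁) (f : ℝ[X]) :
    (∫ x, (derivative (derivative f)).eval x * B.eval x ∂φ)
      + (∫ x, (derivative f).eval x * a₂.eval x ∂φ) + ∫ x, f.eval x * a₁.eval x ∂φ = 0 := by
  have h := S.P2 f
  have e : ∀ x, (B * derivative (derivative f) + a₂ * derivative f + a₁ * f).eval x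
      = (derivative (derivative f) * B + derivative f * a₂).eval x
        + (f * a₁).eval x := by
    intro x; simp; ring
  simp_rw [e] at h
  rw [integral_add (S.pi _) (S.pi _)] at h
  simp_rw [eval_add] at h
  rw [integral_add (S.pi _) (S.pi _)] at h
  simpa only [eval_mul] using h

theorem fns (S : Sys φ A B a₂ a₁) : ∃ δ : ℝ, 0 < δ ∧
    Integrable (fun x => Real.exp (δ * |x|) * fU φ a₁ x) ∧
    Integrable (fun x => Real.exp (δ * |x|) * fV φ a₂ a₁ x) ∧
    Integrable (fun x => Real.exp (δ * |x|) * fW φ B x) ∧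
    (∀ (g : ℝ → ℝ), Measurable g → ∀ (C : ℝ), (∀ x, |g x| ≤ C) →
      ∫ x, g x * A.eval x ∂φ = ∫ x, g x * fW φ B x) ∧
    (∀ (g : ℝ → ℝ), Measurable g → ∀ (C : ℝ), (∀ x, |g x| ≤ C) →
      ∫ x, g x * B.eval x ∂φ = ∫ x, g x * fV φ a₂ a₁ x) := by
  have hfin := S.fin
  obtain ⟨ε, hε, hP⟩ := S.exp_poly
  have hd1 : 0 < ε / 2 := by positivity
  have hd2 : 0 < ε / 4 := by positivity
  have hd1' : ε / 2 < ε := by linarith
  have hd2' : ε / 4 < ε / 2 := by linarith
  -- the function `W`
  obtain ⟨w1, w2⟩ := ibp hd1 hd1' (hP B)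
  rw [S.intB] at w1 w2
  simp only [ite_self, zero_sub] at w1 w2
  -- the function `U`
  obtain ⟨u1, u2⟩ := ibp hd1 hd1' (hP a₁)
  rw [S.inta1] at u1 u2
  simp only [ite_self, zero_sub] at u1 u2
  have hU1 : Integrable (fun x => Real.exp (ε / 2 * |x|) * fU φ a₁ x) := by
    refine u1.neg.congr (Eventually.of_forall fun x => ?_)
    change -(Real.exp (ε / 2 * |x|) * -pr φ (fun y => a₁.eval y) x) = _
    rw [mul_neg, neg_neg]; rfl
  have hW1 : Integrable (fun x => Real.exp (ε / 2 * |x|) * fW φ B x) := by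
    refine w1.neg.congr (Eventually.of_forall fun x => ?_)
    change -(Real.exp (ε / 2 * |x|) * -pr φ (fun y => B.eval y) x) = _
    rw [mul_neg, neg_neg]; rfl
  have sub0 : ∀ (P f : ℝ[X]), ∫ x, P.eval x ∂φ = 0 →
      ∫ y, (f.eval y - f.eval 0) * P.eval y ∂φ = ∫ y, f.eval y * P.eval y ∂φ := by
    intro P f h0
    have e : ∀ y, (f.eval y - f.eval 0) * P.eval y = (f * P).eval y - f.eval 0 * P.eval y := by
      intro y; rw [eval_mul]; ring
    simp_rw [e]
    rw [integral_sub (S.pi _) ((S.pi _).const_mul _), integral_const_mul, h0, mul_zero, sub_zero]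
    simp only [eval_mul]
  have hU2 : ∀ f : ℝ[X], ∫ x, (derivative f).eval x * fU φ a₁ x
      = - ∫ y, f.eval y * a₁.eval y ∂φ := by
    intro f
    have h := u2 f
    rw [sub0 _ _ S.inta1] at h
    rw [← h, ← integral_neg]
    refine integral_congr_ae (Eventually.of_forall fun x => ?_)
    change _ = -((derivative f).eval x * -pr φ (fun y => a₁.eval y) x)
    rw [mul_neg, neg_neg]; rfl
  have hW2 : ∀ f : ℝ[X], ∫ x, (derivative f).eval x * fW φ B x
      = - ∫ y, f.eval y * B.eval y ∂φ := by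
    intro f
    have h := w2 f
    rw [sub0 _ _ S.intB] at h
    rw [← h, ← integral_neg]
    refine integral_congr_ae (Eventually.of_forall fun x => ?_)
    change _ = -((derivative f).eval x * -pr φ (fun y => B.eval y) x)
    rw [mul_neg, neg_neg]; rfl
  -- the function `V`
  obtain ⟨p1, p2⟩ := ibp hd1 hd1' (hP a₂)
  obtain ⟨q1, q2⟩ := ibp hd2 hd2' hU1
  have hK : ∫ x, a₂.eval x ∂φ = ∫ x, fU φ a₁ x := by
    have h1 := hU2 X
    have h2 := S.P2' X
    simp only [derivative_X, derivative_one, eval_zero, zero_mul, integral_zero, eval_one,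
      one_mul, eval_X, zero_add] at h1 h2
    rw [h1]; linarith
  have hVneg : ∀ x, ((if x < 0 then 0 else ∫ y, a₂.eval y ∂φ) - pr φ (fun y => a₂.eval y) x)
      - ((if x < 0 then 0 else ∫ y, fU φ a₁ y) - pr volume (fU φ a₁) x) = - fV φ a₂ a₁ x := by
    intro x
    rw [hK]; unfold fV; ring
  have p1' := exp_mono_int (δ := ε / 4) (by linarith) p1
  have hV1 : Integrable (fun x => Real.exp (ε / 4 * |x|) * fV φ a₂ a₁ x) := by
    refine (p1'.sub q1).neg.congr (Eventually.of_forall fun x => ?_)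
    change -(Real.exp (ε / 4 * |x|) * ((if x < 0 then 0 else ∫ y, a₂.eval y ∂φ)
      - pr φ (fun y => a₂.eval y) x)
      - Real.exp (ε / 4 * |x|) * ((if x < 0 then 0 else ∫ y, fU φ a₁ y) - pr volume (fU φ a₁) x))
      = Real.exp (ε / 4 * |x|) * fV φ a₂ a₁ x
    rw [← mul_sub, hVneg, mul_neg, neg_neg]
  have hV2 : ∀ f : ℝ[X], ∫ x, (derivative f).eval x * fV φ a₂ a₁ x
      = ∫ y, (derivative f).eval y * B.eval y ∂φ := by
    intro f
    have h1 := p2 f
    have h2 := q2 f
    have i1 := poly_mul_int hd1 p1 (derivative f)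
    have i2 := poly_mul_int hd2 q1 (derivative f)
    have h3 : ∫ x, (derivative f).eval x * fV φ a₂ a₁ x
        = - ((∫ x, (derivative f).eval x * ((if x < 0 then 0 else ∫ y, a₂.eval y ∂φ)
            - pr φ (fun y => a₂.eval y) x))
          - ∫ x, (derivative f).eval x * ((if x < 0 then 0 else ∫ y, fU φ a₁ y)
            - pr volume (fU φ a₁) x)) := by
      rw [← integral_sub i1 i2, ← integral_neg]
      refine integral_congr_ae (Eventually.of_forall fun x => ?_)
      change (derivative f).eval x * fV φ a₂ a₁ x = -((derivative f).eval x *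
        ((if x < 0 then 0 else ∫ y, a₂.eval y ∂φ) - pr φ (fun y => a₂.eval y) x)
        - (derivative f).eval x * ((if x < 0 then 0 else ∫ y, fU φ a₁ y)
            - pr volume (fU φ a₁) x))
      rw [← mul_sub, hVneg]; ring
    rw [h3, h1, h2]
    have h4 : ∫ y, (f.eval y - f.eval 0) * a₂.eval y ∂φ
        = (∫ y, f.eval y * a₂.eval y ∂φ) - f.eval 0 * ∫ y, a₂.eval y ∂φ := by
      have e : ∀ y, (f.eval y - f.eval 0) * a₂.eval y = (f * a₂).eval y - f.eval 0 * a₂.eval y := by
        intro y; rw [eval_mul]; ring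
      simp_rw [e]
      rw [integral_sub (S.pi _) ((S.pi _).const_mul _), integral_const_mul]
      simp only [eval_mul]
    have j1 := poly_mul_int hd1 hU1 f
    have j2 := self_int hd1 hU1
    have h5 : ∫ y, (f.eval y - f.eval 0) * fU φ a₁ y
        = (∫ y, f.eval y * fU φ a₁ y) - f.eval 0 * ∫ y, fU φ a₁ y := by
      have e : ∀ y, (f.eval y - f.eval 0) * fU φ a₁ y
          = f.eval y * fU φ a₁ y - f.eval 0 * fU φ a₁ y := by
        intro y; ring
      simp_rw [e]
      rw [integral_sub j1 (j2.const_mul _), integral_const_mul]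
    obtain ⟨h, rfl⟩ := exists_prim f
    have h6 := hU2 h
    have h7 := S.P2' h
    rw [h4, h5, hK, h6]
    linarith
  have mono : ∀ n : ℕ, ∃ f : ℝ[X], derivative f = X ^ n := fun n => exists_prim _
  refine ⟨ε / 4, hd2, exp_mono_int (by linarith) hU1, hV1, exp_mono_int (by linarith) hW1, ?_, ?_⟩
  · intro g hg C hC
    refine md_signed hd2 (exp_mono_int (by linarith) (hP A)) (exp_mono_int (by linarith) hW1) ?_
      g hg C hC
    intro n
    obtain ⟨f, hf⟩ := mono n
    have h1 := hW2 f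
    have h2 := S.P1' f
    rw [hf] at h1 h2
    simp only [eval_pow, eval_X] at h1 h2
    rw [h1]; linarith
  · intro g hg C hC
    refine md_signed hd2 (exp_mono_int (by linarith) (hP B)) hV1 ?_ g hg C hC
    intro n
    obtain ⟨f, hf⟩ := mono n
    have h1 := hV2 f
    rw [hf] at h1
    simp only [eval_pow, eval_X] at h1
    exact h1.symm

end Sys

end Pool.Agent.X116.Kl
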