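import Pool.Agent.X116.KlE

/-!
# Krall classification: the differential system
-/

open MeasureTheory Set Filter Topology Polynomial

namespace Pool.Agent.X116.Kl

/-- Volterra inequality -/
lemma volterra {f : ℝ → ℝ} {c d K : ℝ} (hf : ContinuousOn f (Icc c d))
    (h : ∀ y ∈ Icc c d, |f y| ≤ K * ∫ t in c..y, |f t|) : ∀ y ∈ Icc c d, f y = 0 := by
  intro y hy
  have hcd : c ≤ d := hy.1.trans hy.2
  have hfa : ContinuousOn (fun t => |f t|) (Icc c d) := hf.abs
  have hint : ∀ x ∈ Icc c d, IntervalIntegrable (fun t => |f t|) volume c x := fun x hx =>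
    (hfa.mono (Icc_subset_Icc le_rfl hx.2)).intervalIntegrable_of_Icc hx.1
  set F : ℝ → ℝ := fun x => ∫ t in c..x, |f t| with hF
  have hFc : ContinuousOn F (Icc c d) :=
    intervalIntegral.continuousOn_primitive_interval' (hint d (right_mem_Icc.mpr hcd))
      (by rw [uIcc_of_le hcd]; exact left_mem_Icc.mpr hcd) |>.mono (by rw [uIcc_of_le hcd])
  have hFd : ∀ x ∈ Ico c d, HasDerivWithinAt F (|f x|) (Ici x) x := by
    intro x hx
    have hx' : x ∈ Icc c d := Ico_subset_Icc_self hx
    refine intervalIntegral.integral_hasDerivWithinAt_right (hint x hx') (t := Ioi x) ?_ ?_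
    · refine ⟨Ioc x d, Ioc_mem_nhdsGT hx.2, ?_⟩
      exact ((hfa.mono (fun z hz => ⟨hx.1.trans hz.1.le, hz.2⟩)).aestronglyMeasurable
        measurableSet_Ioc)
    · exact ((hfa x hx').mono_of_mem_nhdsWithin (by
        refine mem_of_superset (Icc_mem_nhdsGE hx.2) (Icc_subset_Icc hx.1 le_rfl))).mono
          Ioi_subset_Ici_self
  have hF0 : F c = 0 := by simp [hF]
  have hb := norm_le_gronwallBound_of_norm_deriv_right_le (f := F) (f' := fun x => |f x|)
    (δ := 0) (K := K) (ε := 0) (a := c) (b := d) hFc hFd (by rw [hF0, norm_zero]) (by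
      intro x hx
      have h1 := h x (Ico_subset_Icc_self hx)
      have h2 : 0 ≤ F x := intervalIntegral.integral_nonneg hx.1 (fun _ _ => abs_nonneg _)
      rw [Real.norm_eq_abs, Real.norm_eq_abs, abs_abs, abs_of_nonneg h2, add_zero]
      exact h1) y hy
  rw [gronwallBound_ε0_δ0, Real.norm_eq_abs] at hb
  have hFy : F y = 0 := abs_eq_zero.mp (le_antisymm hb (abs_nonneg _))
  have := h y hy
  change |f y| ≤ K * F y at this
  rw [hFy, mul_zero] at this
  exact abs_eq_zero.mp (le_antisymm this (abs_nonneg _))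

/-- right continuity of primitives -/
lemma pr_right {μ : Measure ℝ} {k : ℝ → ℝ} (hk : Integrable k μ) (c : ℝ) :
    Tendsto (pr μ k) (𝓝[>] c) (𝓝 (pr μ k c)) := by
  have e : ∀ x, pr μ k x = ∫ y, (Iic x).indicator k y ∂μ := fun x =>
    (integral_indicator measurableSet_Iic).symm
  have e2 : pr μ k = fun x => ∫ y, (Iic x).indicator k y ∂μ := funext e
  rw [e c, e2]
  refine tendsto_integral_filter_of_dominated_convergence (fun y => ‖k y‖)
    (Eventually.of_forall fun x => hk.aestronglyMeasurable.indicator measurableSet_Iic)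
    (Eventually.of_forall fun x => Eventually.of_forall fun y => norm_indicator_le_norm_self _ _)
    hk.norm (Eventually.of_forall fun y => ?_)
  by_cases hy : y ≤ c
  · refine tendsto_nhds_of_eventually_eq ?_
    filter_upwards [self_mem_nhdsWithin] with x hx
    rw [indicator_of_mem (show y ∈ Iic c from hy), indicator_of_mem (show y ∈ Iic x from
      hy.trans (le_of_lt hx))]
  · refine tendsto_nhds_of_eventually_eq ?_
    filter_upwards [Ioo_mem_nhdsGT (not_le.mp hy)] with x hx
    rw [indicator_of_notMem (show y ∉ Iic c from hy), indicator_of_notMem (show y ∉ Iic x from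
      not_le.mpr hx.2)]

/-- left limits of primitives -/
lemma pr_left {μ : Measure ℝ} {k : ℝ → ℝ} (hk : Integrable k μ) (c : ℝ) :
    Tendsto (pr μ k) (𝓝[<] c) (𝓝 (pr μ k c - μ.real {c} * k c)) := by
  have e : ∀ x, pr μ k x = ∫ y, (Iic x).indicator k y ∂μ := fun x =>
    (integral_indicator measurableSet_Iic).symm
  have e2 : pr μ k = fun x => ∫ y, (Iic x).indicator k y ∂μ := funext e
  have e3 : pr μ k c - μ.real {c} * k c = ∫ y, (Iio c).indicator k y ∂μ := by
    rw [integral_indicator measurableSet_Iio]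
    have h1 : Iic c = Iio c ∪ {c} := by
      ext z; simp [le_iff_lt_or_eq]
    have h2 : ∫ y in Iic c, k y ∂μ = (∫ y in Iio c, k y ∂μ) + ∫ y in {c}, k y ∂μ := by
      rw [h1]
      exact setIntegral_union (by simp) (measurableSet_singleton c) hk.integrableOn hk.integrableOn
    unfold pr
    rw [h2, integral_singleton, smul_eq_mul]
    ring
  rw [e3, e2]
  refine tendsto_integral_filter_of_dominated_convergence (fun y => ‖k y‖)
    (Eventually.of_forall fun x => hk.aestronglyMeasurable.indicator measurableSet_Iic)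
    (Eventually.of_forall fun x => Eventually.of_forall fun y => norm_indicator_le_norm_self _ _)
    hk.norm (Eventually.of_forall fun y => ?_)
  by_cases hy : y < c
  · refine tendsto_nhds_of_eventually_eq ?_
    filter_upwards [Ioo_mem_nhdsLT hy] with x hx
    rw [indicator_of_mem (show y ∈ Iio c from hy), indicator_of_mem (show y ∈ Iic x from hx.1.le)]
  · refine tendsto_nhds_of_eventually_eq ?_
    filter_upwards [self_mem_nhdsWithin] with x hx
    rw [indicator_of_notMem (show y ∉ Iio c from hy), indicator_of_notMem (show y ∉ Iic x from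
      not_le.mpr (lt_of_lt_of_le hx (not_lt.mp hy)))]

lemma pr_sub {μ : Measure ℝ} {k : ℝ → ℝ} (hk : Integrable k μ) {x y : ℝ} (hxy : x ≤ y) :
    pr μ k y - pr μ k x = ∫ t in Ioc x y, k t ∂μ := by
  unfold pr
  have h1 : Iic y = Iic x ∪ Ioc x y := (Iic_union_Ioc_eq_Iic hxy).symm
  rw [h1, setIntegral_union (by
    rw [Set.disjoint_left]; intro z hz hz2; exact absurd hz (not_le.mpr hz2.1)) measurableSet_Ioc
    hk.integrableOn hk.integrableOn]
  ring

namespace Sys

variable {φ : Measure ℝ} {A B a₂ a₁ : ℝ[X]}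

lemma intU (S : Sys φ A B a₂ a₁) : Integrable (fU φ a₁) := by
  obtain ⟨δ, hδ, h, -⟩ := S.fns
  exact self_int hδ h

lemma intV (S : Sys φ A B a₂ a₁) : Integrable (fV φ a₂ a₁) := by
  obtain ⟨δ, hδ, -, h, -⟩ := S.fns
  exact self_int hδ h

lemma expW (S : Sys φ A B a₂ a₁) : ∃ δ : ℝ, 0 < δ ∧
    Integrable (fun x => Real.exp (δ * |x|) * fW φ B x) := by
  obtain ⟨δ, hδ, -, -, h, -⟩ := S.fns
  exact ⟨δ, hδ, h⟩

lemma intW (S : Sys φ A B a₂ a₁) : Integrable (fW φ B) := by
  obtain ⟨δ, hδ, h⟩ := S.expW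
  exact self_int hδ h

lemma D1 (S : Sys φ A B a₂ a₁) (g : ℝ → ℝ) (hg : Measurable g) (C : ℝ) (hC : ∀ x, |g x| ≤ C) :
    ∫ x, g x * A.eval x ∂φ = ∫ x, g x * fW φ B x := by
  obtain ⟨δ, hδ, -, -, -, h, -⟩ := S.fns
  exact h g hg C hC

lemma D2 (S : Sys φ A B a₂ a₁) (g : ℝ → ℝ) (hg : Measurable g) (C : ℝ) (hC : ∀ x, |g x| ≤ C) :
    ∫ x, g x * B.eval x ∂φ = ∫ x, g x * fV φ a₂ a₁ x := by
  obtain ⟨δ, hδ, -, -, -, -, h⟩ := S.fns
  exact h g hg C hC

/-- the transfer principle with `A` -/
lemma trA (S : Sys φ A B a₂ a₁) (P : ℝ[X]) {x y : ℝ} (r : ℝ → ℝ)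
    (hr : ContinuousOn r (Icc x y)) (hP : ∀ t ∈ Ioc x y, P.eval t = r t * A.eval t) :
    ∫ t in Ioc x y, P.eval t ∂φ = ∫ t in Ioc x y, r t * fW φ B t := by
  obtain ⟨C, hC⟩ := isCompact_Icc.exists_bound_of_continuousOn hr
  have hm : Measurable ((Ioc x y).indicator r) := by
    rw [← piecewise_eq_indicator]
    exact (hr.mono Ioc_subset_Icc_self).measurable_piecewise continuousOn_const measurableSet_Ioc
  have h := S.D1 ((Ioc x y).indicator r) hm (max C 0) (fun z => by
    by_cases hz : z ∈ Ioc x y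
    · rw [indicator_of_mem hz]
      exact (hC z (Ioc_subset_Icc_self hz)).trans (le_max_left _ _)
    · rw [indicator_of_notMem hz, abs_zero]; exact le_max_right _ _)
  have e1 : ∀ z, (Ioc x y).indicator r z * A.eval z = (Ioc x y).indicator (fun t => P.eval t) z := by
    intro z
    by_cases hz : z ∈ Ioc x y
    · rw [indicator_of_mem hz, indicator_of_mem hz, hP z hz]
    · rw [indicator_of_notMem hz, indicator_of_notMem hz, zero_mul]
  have e2 : ∀ z, (Ioc x y).indicator r z * fW φ B z
      = (Ioc x y).indicator (fun t => r t * fW φ B t) z := by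
    intro z
    by_cases hz : z ∈ Ioc x y
    · rw [indicator_of_mem hz, indicator_of_mem hz]
    · rw [indicator_of_notMem hz, indicator_of_notMem hz, zero_mul]
  simp_rw [e1, e2] at h
  rwa [integral_indicator measurableSet_Ioc, integral_indicator measurableSet_Ioc] at h

/-- the transfer principle with `B` -/
lemma trB (S : Sys φ A B a₂ a₁) (P : ℝ[X]) {x y : ℝ} (r : ℝ → ℝ)
    (hr : ContinuousOn r (Icc x y)) (hP : ∀ t ∈ Ioc x y, P.eval t = r t * B.eval t) :
    ∫ t in Ioc x y, P.eval t ∂φ = ∫ t in Ioc x y, r t * fV φ a₂ a₁ t := by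
  obtain ⟨C, hC⟩ := isCompact_Icc.exists_bound_of_continuousOn hr
  have hm : Measurable ((Ioc x y).indicator r) := by
    rw [← piecewise_eq_indicator]
    exact (hr.mono Ioc_subset_Icc_self).measurable_piecewise continuousOn_const measurableSet_Ioc
  have h := S.D2 ((Ioc x y).indicator r) hm (max C 0) (fun z => by
    by_cases hz : z ∈ Ioc x y
    · rw [indicator_of_mem hz]
      exact (hC z (Ioc_subset_Icc_self hz)).trans (le_max_left _ _)
    · rw [indicator_of_notMem hz, abs_zero]; exact le_max_right _ _)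
  have e1 : ∀ z, (Ioc x y).indicator r z * B.eval z = (Ioc x y).indicator (fun t => P.eval t) z := by
    intro z
    by_cases hz : z ∈ Ioc x y
    · rw [indicator_of_mem hz, indicator_of_mem hz, hP z hz]
    · rw [indicator_of_notMem hz, indicator_of_notMem hz, zero_mul]
  have e2 : ∀ z, (Ioc x y).indicator r z * fV φ a₂ a₁ z
      = (Ioc x y).indicator (fun t => r t * fV φ a₂ a₁ t) z := by
    intro z
    by_cases hz : z ∈ Ioc x y
    · rw [indicator_of_mem hz, indicator_of_mem hz]
    · rw [indicator_of_notMem hz, indicator_of_notMem hz, zero_mul]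
  simp_rw [e1, e2] at h
  rwa [integral_indicator measurableSet_Ioc, integral_indicator measurableSet_Ioc] at h

end Sys

end Pool.Agent.X116.Kl
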