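import Pool.Agent.X116.KlF

/-!
# Krall classification: derivatives and the left end of the support
-/

open MeasureTheory Set Filter Topology Polynomial

namespace Pool.Agent.X116.Kl

lemma hd_local {F f : ℝ → ℝ} {x α β : ℝ} (hx : x ∈ Ioo α β) (hf : ContinuousOn f (Ioo α β))
    (h : ∀ s t, s ∈ Ioo α β → t ∈ Ioo α β → s ≤ t → F t - F s = ∫ z in s..t, f z) :
    HasDerivAt F (f x) x := by
  have hnb : Ioo α β ∈ 𝓝 x := Ioo_mem_nhds hx.1 hx.2
  have hc : ContinuousAt f x := hf.continuousAt hnb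
  have h1 : HasDerivAt (fun t => F x + ∫ z in x..t, f z) (f x) x := by
    have := intervalIntegral.integral_hasDerivAt_right (f := f) (a := x) (b := x) (by simp)
      ⟨Ioo α β, hnb, hf.aestronglyMeasurable measurableSet_Ioo⟩ hc
    simpa using this.const_add (F x)
  refine h1.congr_of_eventuallyEq ?_
  filter_upwards [hnb] with t ht
  rcases le_total x t with hxt | hxt
  · have := h x t hx ht hxt
    linarith
  · have := h t x ht hx hxt
    rw [intervalIntegral.integral_symm]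
    linarith

lemma nb_ne {P : ℝ[X]} {x : ℝ} (h : P.eval x ≠ 0) :
    ∃ α β, x ∈ Ioo α β ∧ ∀ t ∈ Ioo α β, P.eval t ≠ 0 := by
  have h1 : ∀ᶠ t in 𝓝 x, P.eval t ≠ 0 := P.continuous.continuousAt.eventually_ne h
  obtain ⟨α, β, hx, hs⟩ := mem_nhds_iff_exists_Ioo_subset.mp h1
  exact ⟨α, β, hx, fun t ht => hs ht⟩

namespace Sys

variable {φ : Measure ℝ} {A B a₂ a₁ : ℝ[X]}

lemma W_sub (S : Sys φ A B a₂ a₁) {x y : ℝ} (hxy : x ≤ y) :
    fW φ B y - fW φ B x = ∫ t in x..y, fV φ a₂ a₁ t := by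
  unfold fW
  rw [pr_sub (S.pi B) hxy, S.trB B (fun _ => 1) continuousOn_const (fun t _ => by ring),
    intervalIntegral.integral_of_le hxy]
  simp

lemma U_sub (S : Sys φ A B a₂ a₁) {x y : ℝ} (hxy : x ≤ y) :
    fU φ a₁ y - fU φ a₁ x = ∫ t in Ioc x y, a₁.eval t ∂φ := by
  unfold fU
  exact pr_sub (S.pi a₁) hxy

lemma V_sub (S : Sys φ A B a₂ a₁) {x y : ℝ} (hxy : x ≤ y) :
    fV φ a₂ a₁ y - fV φ a₂ a₁ x = (∫ t in Ioc x y, a₂.eval t ∂φ) - ∫ t in x..y, fU φ a₁ t := by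
  unfold fV
  rw [intervalIntegral.integral_of_le hxy, ← pr_sub (S.pi a₂) hxy, ← pr_sub S.intU hxy]
  ring

lemma W_cont (S : Sys φ A B a₂ a₁) : Continuous (fW φ B) := by
  have h : fW φ B = fun x => fW φ B 0 + ∫ t in (0:ℝ)..x, fV φ a₂ a₁ t := by
    ext x
    rcases le_total 0 x with hx | hx
    · have := S.W_sub hx; linarith
    · have := S.W_sub hx
      rw [intervalIntegral.integral_symm]; linarith
  rw [h]
  exact continuous_const.add (intervalIntegral.continuous_primitive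
    (fun a b => S.intV.intervalIntegrable) 0)

lemma trA' (S : Sys φ A B a₂ a₁) (P : ℝ[X]) {x y : ℝ} (hxy : x ≤ y)
    (hA : ∀ t ∈ Icc x y, A.eval t ≠ 0) :
    ∫ t in Ioc x y, P.eval t ∂φ = ∫ t in x..y, P.eval t / A.eval t * fW φ B t := by
  rw [intervalIntegral.integral_of_le hxy]
  refine S.trA P (fun t => P.eval t / A.eval t) (P.continuousOn.div A.continuousOn hA)
    (fun t ht => ?_)
  rw [div_mul_cancel₀ _ (hA t (Ioc_subset_Icc_self ht))]

lemma trB' (S : Sys φ A B a₂ a₁) (P : ℝ[X]) {x y : ℝ} (hxy : x ≤ y)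
    (hB : ∀ t ∈ Icc x y, B.eval t ≠ 0) :
    ∫ t in Ioc x y, P.eval t ∂φ = ∫ t in x..y, P.eval t / B.eval t * fV φ a₂ a₁ t := by
  rw [intervalIntegral.integral_of_le hxy]
  refine S.trB P (fun t => P.eval t / B.eval t) (P.continuousOn.div B.continuousOn hB)
    (fun t ht => ?_)
  rw [div_mul_cancel₀ _ (hB t (Ioc_subset_Icc_self ht))]

lemma dW (S : Sys φ A B a₂ a₁) {x : ℝ} (hA : A.eval x ≠ 0) :
    HasDerivAt (fW φ B) (B.eval x / A.eval x * fW φ B x) x := by
  obtain ⟨α, β, hx, hs⟩ := nb_ne hA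
  refine hd_local (f := fun t => B.eval t / A.eval t * fW φ B t) hx
    ((B.continuousOn.div A.continuousOn hs).mul S.W_cont.continuousOn) ?_
  intro s t hs' ht' hst
  have hI : ∀ z ∈ Icc s t, A.eval z ≠ 0 := fun z hz =>
    hs z ⟨lt_of_lt_of_le hs'.1 hz.1, lt_of_le_of_lt hz.2 ht'.2⟩
  rw [← S.trA' B hst hI]
  unfold fW
  exact pr_sub (S.pi B) hst

lemma dU (S : Sys φ A B a₂ a₁) {x : ℝ} (hA : A.eval x ≠ 0) :
    HasDerivAt (fU φ a₁) (a₁.eval x / A.eval x * fW φ B x) x := by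
  obtain ⟨α, β, hx, hs⟩ := nb_ne hA
  refine hd_local (f := fun t => a₁.eval t / A.eval t * fW φ B t) hx
    ((a₁.continuousOn.div A.continuousOn hs).mul S.W_cont.continuousOn) ?_
  intro s t hs' ht' hst
  have hI : ∀ z ∈ Icc s t, A.eval z ≠ 0 := fun z hz =>
    hs z ⟨lt_of_lt_of_le hs'.1 hz.1, lt_of_le_of_lt hz.2 ht'.2⟩
  rw [← S.trA' a₁ hst hI, S.U_sub hst]

lemma dV (S : Sys φ A B a₂ a₁) {x : ℝ} (hA : A.eval x ≠ 0) :
    HasDerivAt (fV φ a₂ a₁) (a₂.eval x / A.eval x * fW φ B x - fU φ a₁ x) x := by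
  obtain ⟨α, β, hx, hs⟩ := nb_ne hA
  have hUc : ContinuousOn (fU φ a₁) (Ioo α β) := fun z hz =>
    (S.dU (hs z hz)).continuousAt.continuousWithinAt
  have hcont : ContinuousOn (fun t => a₂.eval t / A.eval t * fW φ B t) (Ioo α β) :=
    (a₂.continuousOn.div A.continuousOn hs).mul S.W_cont.continuousOn
  refine hd_local (f := fun t => a₂.eval t / A.eval t * fW φ B t - fU φ a₁ t) hx
    (hcont.sub hUc) ?_
  intro s t hs' ht' hst
  have hI : ∀ z ∈ Icc s t, A.eval z ≠ 0 := fun z hz =>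
    hs z ⟨lt_of_lt_of_le hs'.1 hz.1, lt_of_le_of_lt hz.2 ht'.2⟩
  have hsub : Icc s t ⊆ Ioo α β := fun z hz => ⟨lt_of_lt_of_le hs'.1 hz.1, lt_of_le_of_lt hz.2 ht'.2⟩
  rw [intervalIntegral.integral_sub ((hcont.mono hsub).intervalIntegrable_of_Icc hst)
    ((hUc.mono hsub).intervalIntegrable_of_Icc hst), ← S.trA' a₂ hst hI, S.V_sub hst]

lemma dW' (S : Sys φ A B a₂ a₁) {x : ℝ} (hA : A.eval x ≠ 0) :
    HasDerivAt (fW φ B) (fV φ a₂ a₁ x) x := by
  obtain ⟨α, β, hx, hs⟩ := nb_ne hA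
  refine hd_local (f := fV φ a₂ a₁) hx (fun z hz =>
    (S.dV (hs z hz)).continuousAt.continuousWithinAt) ?_
  intro s t _ _ hst
  exact S.W_sub hst

lemma V_eq (S : Sys φ A B a₂ a₁) {x : ℝ} (hA : A.eval x ≠ 0) :
    fV φ a₂ a₁ x = B.eval x / A.eval x * fW φ B x := (S.dW' hA).unique (S.dW hA)

/-- `U A² = W (a₂ A - B' A + B A' - B²)` -/
lemma U_eq (S : Sys φ A B a₂ a₁) {x : ℝ} (hA : A.eval x ≠ 0) :
    fU φ a₁ x * (A.eval x) ^ 2 = fW φ B x * (a₂ * A - derivative B * A + B * derivative A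
      - B ^ 2).eval x := by
  have h1 : HasDerivAt (fun t => B.eval t / A.eval t * fW φ B t)
      (((derivative B).eval x * A.eval x - B.eval x * (derivative A).eval x) / (A.eval x) ^ 2
        * fW φ B x + B.eval x / A.eval x * (B.eval x / A.eval x * fW φ B x)) x :=
    ((B.hasDerivAt x).div (A.hasDerivAt x) hA).mul (S.dW hA)
  have h2 : fV φ a₂ a₁ =ᶠ[𝓝 x] fun t => B.eval t / A.eval t * fW φ B t := by
    obtain ⟨α, β, hx, hs⟩ := nb_ne hA
    filter_upwards [Ioo_mem_nhds hx.1 hx.2] with t ht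
    exact S.V_eq (hs t ht)
  have h3 := (h1.congr_of_eventuallyEq h2).unique (S.dV hA)
  simp only [eval_sub, eval_add, eval_mul, eval_pow]
  field_simp at h3
  linarith

/-- Case `B c ≠ 0` -/
lemma Z1 (S : Sys φ A B a₂ a₁) {c : ℝ} (hu : fU φ a₁ c = 0) (hv : fV φ a₂ a₁ c = 0)
    (hw : fW φ B c = 0) (hB : B.eval c ≠ 0) : ∃ d, c < d ∧ ∀ y ∈ Icc c d, fW φ B y = 0 := by
  obtain ⟨α, β, hx, hs⟩ := nb_ne hB
  obtain ⟨d, hd1, hd2⟩ := exists_between hx.2
  have hI : ∀ z ∈ Icc c d, B.eval z ≠ 0 := fun z hz =>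
    hs z ⟨lt_of_lt_of_le hx.1 hz.1, lt_of_le_of_lt hz.2 hd2⟩
  have hc1 : ContinuousOn (fun t => a₁.eval t / B.eval t) (Icc c d) :=
    a₁.continuousOn.div B.continuousOn hI
  have hc2 : ContinuousOn (fun t => a₂.eval t / B.eval t) (Icc c d) :=
    a₂.continuousOn.div B.continuousOn hI
  obtain ⟨K1, hK1⟩ := isCompact_Icc.exists_bound_of_continuousOn hc1
  obtain ⟨K2, hK2⟩ := isCompact_Icc.exists_bound_of_continuousOn hc2
  have iV : ∀ a b, IntervalIntegrable (fV φ a₂ a₁) volume a b := fun a b =>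
    S.intV.intervalIntegrable
  have iU : ∀ a b, IntervalIntegrable (fU φ a₁) volume a b := fun a b =>
    S.intU.intervalIntegrable
  have i1 : ∀ y ∈ Icc c d, IntervalIntegrable (fun t => a₁.eval t / B.eval t * fV φ a₂ a₁ t)
      volume c y := fun y hy => (iV c y).continuousOn_mul (by
        rw [uIcc_of_le hy.1]; exact hc1.mono (Icc_subset_Icc le_rfl hy.2))
  have i2 : ∀ y ∈ Icc c d, IntervalIntegrable (fun t => a₂.eval t / B.eval t * fV φ a₂ a₁ t)
      volume c y := fun y hy => (iV c y).continuousOn_mul (by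
        rw [uIcc_of_le hy.1]; exact hc2.mono (Icc_subset_Icc le_rfl hy.2))
  have e1 : ∀ y ∈ Icc c d, fU φ a₁ y = ∫ t in c..y, a₁.eval t / B.eval t * fV φ a₂ a₁ t := by
    intro y hy
    rw [← S.trB' a₁ hy.1 (fun z hz => hI z ⟨hz.1, hz.2.trans hy.2⟩), ← S.U_sub hy.1, hu, sub_zero]
  have e2 : ∀ y ∈ Icc c d, fV φ a₂ a₁ y = (∫ t in c..y, a₂.eval t / B.eval t * fV φ a₂ a₁ t)
      - ∫ t in c..y, fU φ a₁ t := by
    intro y hy
    rw [← S.trB' a₂ hy.1 (fun z hz => hI z ⟨hz.1, hz.2.trans hy.2⟩), ← S.V_sub hy.1, hv, sub_zero]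
  have hd : d ∈ Icc c d := right_mem_Icc.mpr hd1.le
  have prim : ∀ g : ℝ → ℝ, IntervalIntegrable g volume c d →
      ContinuousOn (fun y => ∫ t in c..y, g t) (Icc c d) := fun g hg => by
    have := intervalIntegral.continuousOn_primitive_interval' hg
      (by rw [uIcc_of_le hd1.le]; exact left_mem_Icc.mpr hd1.le)
    rwa [uIcc_of_le hd1.le] at this
  have cU : ContinuousOn (fU φ a₁) (Icc c d) := (prim _ (i1 d hd)).congr e1
  have cV : ContinuousOn (fV φ a₂ a₁) (Icc c d) :=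
    ((prim _ (i2 d hd)).sub (prim _ (iU c d))).congr e2
  set f : ℝ → ℝ := fun t => |fU φ a₁ t| + |fV φ a₂ a₁ t| with hf
  have cf : ContinuousOn f (Icc c d) := cU.abs.add cV.abs
  have hvol := volterra (f := f) (K := |K1| + |K2| + 1) cf (by
    intro y hy
    have hi : IntervalIntegrable (fun t => |f t|) volume c y :=
      ((cf.mono (Icc_subset_Icc le_rfl hy.2)).abs).intervalIntegrable_of_Icc hy.1
    have hfn : ∀ t, |f t| = |fU φ a₁ t| + |fV φ a₂ a₁ t| := fun t =>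
      abs_of_nonneg (add_nonneg (abs_nonneg _) (abs_nonneg _))
    have b1 : |fU φ a₁ y| ≤ |K1| * ∫ t in c..y, |f t| := by
      rw [e1 y hy, ← intervalIntegral.integral_const_mul]
      refine (intervalIntegral.abs_integral_le_integral_abs hy.1).trans ?_
      refine intervalIntegral.integral_mono_on hy.1 (i1 y hy).abs (hi.const_mul _) (fun t ht => ?_)
      rw [abs_mul, hfn]
      have h1 := hK1 t ⟨ht.1, ht.2.trans hy.2⟩
      rw [Real.norm_eq_abs] at h1
      have h2 : |a₁.eval t / B.eval t| ≤ |K1| := h1.trans (le_abs_self _)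
      have h3 := abs_nonneg (fU φ a₁ t)
      calc _ ≤ |K1| * |fV φ a₂ a₁ t| := by gcongr
        _ ≤ _ := by gcongr; linarith
    have b2 : |∫ t in c..y, a₂.eval t / B.eval t * fV φ a₂ a₁ t| ≤ |K2| * ∫ t in c..y, |f t| := by
      rw [← intervalIntegral.integral_const_mul]
      refine (intervalIntegral.abs_integral_le_integral_abs hy.1).trans ?_
      refine intervalIntegral.integral_mono_on hy.1 (i2 y hy).abs (hi.const_mul _) (fun t ht => ?_)
      rw [abs_mul, hfn]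
      have h1 := hK2 t ⟨ht.1, ht.2.trans hy.2⟩
      rw [Real.norm_eq_abs] at h1
      have h2 : |a₂.eval t / B.eval t| ≤ |K2| := h1.trans (le_abs_self _)
      have h3 := abs_nonneg (fU φ a₁ t)
      calc _ ≤ |K2| * |fV φ a₂ a₁ t| := by gcongr
        _ ≤ _ := by gcongr; linarith
    have b3 : |∫ t in c..y, fU φ a₁ t| ≤ ∫ t in c..y, |f t| := by
      refine (intervalIntegral.abs_integral_le_integral_abs hy.1).trans ?_
      refine intervalIntegral.integral_mono_on hy.1 (iU c y).abs hi (fun t ht => ?_)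
      rw [hfn]
      have h3 := abs_nonneg (fV φ a₂ a₁ t)
      linarith
    have b4 : |fV φ a₂ a₁ y| ≤ |K2| * (∫ t in c..y, |f t|) + ∫ t in c..y, |f t| := by
      rw [e2 y hy]
      exact (abs_sub _ _).trans (add_le_add b2 b3)
    rw [hfn]
    linarith)
  have hV0 : ∀ y ∈ Icc c d, fV φ a₂ a₁ y = 0 := by
    intro y hy
    have h1 := hvol y hy
    have h2 := abs_nonneg (fU φ a₁ y)
    have h3 := abs_nonneg (fV φ a₂ a₁ y)
    exact abs_eq_zero.mp (by simp only [hf] at h1; linarith)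
  refine ⟨d, hd1, fun y hy => ?_⟩
  have h1 := S.W_sub hy.1
  rw [hw, sub_zero] at h1
  rw [h1]
  refine intervalIntegral.integral_zero_ae (Eventually.of_forall fun t ht => ?_)
  rw [uIoc_of_le hy.1] at ht
  exact hV0 t ⟨ht.1.le, ht.2.trans hy.2⟩

/-- Case `B = r A` with `r` continuous -/
lemma Z2 (S : Sys φ A B a₂ a₁) {c d : ℝ} (hcd : c < d) (hw : fW φ B c = 0) (r : ℝ → ℝ)
    (hr : ContinuousOn r (Icc c d)) (hB : ∀ t ∈ Ioc c d, B.eval t = r t * A.eval t) :
    ∀ y ∈ Icc c d, fW φ B y = 0 := by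
  obtain ⟨K, hK⟩ := isCompact_Icc.exists_bound_of_continuousOn hr
  have e1 : ∀ y ∈ Icc c d, fW φ B y = ∫ t in c..y, r t * fW φ B t := by
    intro y hy
    have h1 : fW φ B y - fW φ B c = ∫ t in Ioc c y, B.eval t ∂φ := by
      unfold fW; exact pr_sub (S.pi B) hy.1
    rw [hw, sub_zero, S.trA B r (hr.mono (Icc_subset_Icc le_rfl hy.2))
      (fun t ht => hB t ⟨ht.1, ht.2.trans hy.2⟩)] at h1
    rw [h1, intervalIntegral.integral_of_le hy.1]
  refine volterra (K := |K|) S.W_cont.continuousOn (fun y hy => ?_)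
  have hsub := Icc_subset_Icc (le_refl c) hy.2
  have i1 : IntervalIntegrable (fun t => r t * fW φ B t) volume c y :=
    ((hr.mono hsub).mul S.W_cont.continuousOn).intervalIntegrable_of_Icc hy.1
  have i2 : IntervalIntegrable (fun t => |fW φ B t|) volume c y :=
    (S.W_cont.abs).intervalIntegrable _ _
  conv_lhs => rw [e1 y hy]
  rw [← intervalIntegral.integral_const_mul]
  refine (intervalIntegral.abs_integral_le_integral_abs hy.1).trans ?_
  refine intervalIntegral.integral_mono_on hy.1 i1.abs (i2.const_mul _) (fun t ht => ?_)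
  rw [abs_mul]
  have h1 := hK t ⟨ht.1, ht.2.trans hy.2⟩
  rw [Real.norm_eq_abs] at h1
  have h2 : |r t| ≤ |K| := h1.trans (le_abs_self _)
  gcongr

end Sys

end Pool.Agent.X116.Kl
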