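import Pool.Agent.X116.KlG

/-!
# Krall classification: ends of the support
-/

open MeasureTheory Set Filter Topology Polynomial

namespace Pool.Agent.X116.Kl

namespace Sys

variable {φ : Measure ℝ} {A B a₂ a₁ : ℝ[X]}

lemma root_nb (P : ℝ[X]) (hP : P ≠ 0) (c : ℝ) : ∃ d, c < d ∧ ∀ t ∈ Ioc c d, P.eval t ≠ 0 := by
  by_cases hne : (P.roots.toFinset.filter (fun t => c < t)).Nonempty
  · set m := (P.roots.toFinset.filter (fun t => c < t)).min' hne with hm
    have hmm := Finset.min'_mem _ hne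
    rw [Finset.mem_filter] at hmm
    obtain ⟨d, hd1, hd2⟩ := exists_between hmm.2
    refine ⟨d, hd1, fun t ht h0 => ?_⟩
    have : m ≤ t := Finset.min'_le _ _ (by
      rw [Finset.mem_filter, Multiset.mem_toFinset, mem_roots hP]
      exact ⟨h0, ht.1⟩)
    exact absurd (lt_of_le_of_lt ht.2 hd2) (not_lt.mpr this)
  · refine ⟨c + 1, by linarith, fun t ht h0 => hne ⟨t, ?_⟩⟩
    rw [Finset.mem_filter, Multiset.mem_toFinset, mem_roots hP]
    exact ⟨h0, ht.1⟩

lemma B_atom (S : Sys φ A B a₂ a₁) (c : ℝ) : φ.real {c} * B.eval c = 0 := by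
  have h := S.D2 (({c} : Set ℝ).indicator (fun _ => 1))
    (measurable_const.indicator (measurableSet_singleton c)) 1 (fun x => by
      by_cases hx : x ∈ ({c} : Set ℝ)
      · rw [indicator_of_mem hx]; simp
      · rw [indicator_of_notMem hx]; simp)
  have e1 : ∀ x, ({c} : Set ℝ).indicator (fun _ => (1:ℝ)) x * B.eval x
      = ({c} : Set ℝ).indicator (fun x => B.eval x) x := by
    intro x
    by_cases hx : x ∈ ({c} : Set ℝ)
    · rw [indicator_of_mem hx, indicator_of_mem hx, one_mul]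
    · rw [indicator_of_notMem hx, indicator_of_notMem hx, zero_mul]
  have e2 : ∀ x, ({c} : Set ℝ).indicator (fun _ => (1:ℝ)) x * fV φ a₂ a₁ x
      = ({c} : Set ℝ).indicator (fun x => fV φ a₂ a₁ x) x := by
    intro x
    by_cases hx : x ∈ ({c} : Set ℝ)
    · rw [indicator_of_mem hx, indicator_of_mem hx, one_mul]
    · rw [indicator_of_notMem hx, indicator_of_notMem hx, zero_mul]
  simp_rw [e1, e2] at h
  rw [integral_indicator (measurableSet_singleton c), integral_indicator (measurableSet_singleton c),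
    integral_singleton, integral_singleton] at h
  have h4 : (volume : Measure ℝ).real {c} = 0 := by simp [measureReal_def]
  rw [h4] at h
  simpa only [smul_eq_mul, zero_mul] using h

lemma V_right (S : Sys φ A B a₂ a₁) (c : ℝ) :
    Tendsto (fV φ a₂ a₁) (𝓝[>] c) (𝓝 (fV φ a₂ a₁ c)) := by
  unfold fV
  exact (pr_right (S.pi a₂) c).sub (pr_right S.intU c)

lemma U_right (S : Sys φ A B a₂ a₁) (c : ℝ) :
    Tendsto (fU φ a₁) (𝓝[>] c) (𝓝 (fU φ a₁ c)) := pr_right (S.pi a₁) c

/-- to the left of the support everything vanishes -/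
lemma left_zero (S : Sys φ A B a₂ a₁) {c : ℝ} (hw : ∀ x < c, fW φ B x = 0) :
    ∀ x < c, fU φ a₁ x = 0 ∧ fV φ a₂ a₁ x = 0 := by
  have key : ∀ x < c, A.eval x ≠ 0 → fU φ a₁ x = 0 ∧ fV φ a₂ a₁ x = 0 := by
    intro x hx hA
    have hV : ∀ z < c, A.eval z ≠ 0 → fV φ a₂ a₁ z = 0 := by
      intro z hz hz'
      rw [S.V_eq hz', hw z hz, mul_zero]
    refine ⟨?_, hV x hx hA⟩
    have h1 := S.dV hA
    have h2 : fV φ a₂ a₁ =ᶠ[𝓝 x] fun _ => 0 := by
      obtain ⟨α, β, hx', hs⟩ := nb_ne hA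
      filter_upwards [Ioo_mem_nhds hx'.1 hx'.2, Iio_mem_nhds hx] with t ht ht2
      exact hV t ht2 (hs t ht)
    have h3 := h1.unique ((hasDerivAt_const x (0:ℝ)).congr_of_eventuallyEq h2)
    rw [hw x hx, mul_zero, zero_sub] at h3
    linarith
  intro x hx
  obtain ⟨d, hd, hne⟩ := root_nb A S.A_ne x
  have hev : ∀ᶠ t in 𝓝[>] x, fU φ a₁ t = 0 ∧ fV φ a₂ a₁ t = 0 := by
    filter_upwards [Ioo_mem_nhdsGT (lt_min hd hx)] with t ht
    exact key t (ht.2.trans_le (min_le_right _ _)) (hne t ⟨ht.1, (ht.2.trans_le (min_le_left _ _)).le⟩)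
  constructor
  · refine tendsto_nhds_unique (S.U_right x) (tendsto_nhds_of_eventually_eq ?_)
    exact hev.mono fun t ht => ht.1
  · refine tendsto_nhds_unique (S.V_right x) (tendsto_nhds_of_eventually_eq ?_)
    exact hev.mono fun t ht => ht.2

lemma left_vals (S : Sys φ A B a₂ a₁) {c : ℝ} (hw : ∀ x < c, fW φ B x = 0) :
    fU φ a₁ c = φ.real {c} * a₁.eval c ∧ fV φ a₂ a₁ c = φ.real {c} * a₂.eval c := by
  have hz := S.left_zero hw
  constructor
  · have h1 := pr_left (S.pi a₁) c
    have h2 : Tendsto (pr φ (fun y => a₁.eval y)) (𝓝[<] c) (𝓝 0) := by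
      refine tendsto_nhds_of_eventually_eq ?_
      filter_upwards [self_mem_nhdsWithin] with t ht
      exact (hz t ht).1
    have h3 := tendsto_nhds_unique h1 h2
    unfold fU
    linarith
  · have h1 := (pr_left (S.pi a₂) c).sub (pr_left S.intU c)
    have h2 : Tendsto (fun x => pr φ (fun y => a₂.eval y) x - pr volume (fU φ a₁) x)
        (𝓝[<] c) (𝓝 0) := by
      refine tendsto_nhds_of_eventually_eq ?_
      filter_upwards [self_mem_nhdsWithin] with t ht
      exact (hz t ht).2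
    have h3 := tendsto_nhds_unique h1 h2
    have h4 : (volume : Measure ℝ).real {c} = 0 := by simp [measureReal_def]
    rw [h4, zero_mul, sub_zero] at h3
    unfold fV
    linarith

/-- the left end theorem -/
theorem left_end (S : Sys φ A B a₂ a₁) {c : ℝ} (hw : ∀ x < c, fW φ B x = 0)
    (hne : ∀ d, c < d → ∃ x ∈ Ioo c d, fW φ B x ≠ 0) :
    fW φ B c = 0 ∧ B.eval c = 0 ∧ A.eval c = 0 ∧ (derivative A).eval c = 0 := by
  have hwc : fW φ B c = 0 := by
    have h1 : Tendsto (fW φ B) (𝓝[<] c) (𝓝 (fW φ B c)) :=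
      (S.W_cont.tendsto c).mono_left nhdsWithin_le_nhds
    refine tendsto_nhds_unique h1 (tendsto_nhds_of_eventually_eq ?_)
    filter_upwards [self_mem_nhdsWithin] with t ht
    exact hw t ht
  obtain ⟨hu, hv⟩ := S.left_vals hw
  have hat := S.B_atom c
  have hB : B.eval c = 0 := by
    by_contra hB
    have hm : φ.real {c} = 0 := (mul_eq_zero.mp hat).resolve_right hB
    rw [hm, zero_mul] at hu hv
    obtain ⟨d, hd, hz⟩ := S.Z1 hu hv hwc hB
    obtain ⟨x, hx, hx2⟩ := hne d hd
    exact hx2 (hz x (Ioo_subset_Icc_self hx))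
  have hA : A.eval c = 0 := by
    by_contra hA
    obtain ⟨α, β, hx, hs⟩ := nb_ne hA
    obtain ⟨d, hd1, hd2⟩ := exists_between hx.2
    have hI : ∀ z ∈ Icc c d, A.eval z ≠ 0 := fun z hz =>
      hs z ⟨lt_of_lt_of_le hx.1 hz.1, lt_of_le_of_lt hz.2 hd2⟩
    have hz := S.Z2 hd1 hwc (fun t => B.eval t / A.eval t) (B.continuousOn.div A.continuousOn hI)
      (fun t ht => (div_mul_cancel₀ _ (hI t (Ioc_subset_Icc_self ht))).symm)
    obtain ⟨x, hx, hx2⟩ := hne d hd1
    exact hx2 (hz x (Ioo_subset_Icc_self hx))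
  refine ⟨hwc, hB, hA, ?_⟩
  by_contra hA'
  obtain ⟨A₁, hA₁⟩ := dvd_iff_isRoot.mpr hA
  obtain ⟨B₁, hB₁⟩ := dvd_iff_isRoot.mpr hB
  have hA1c : A₁.eval c ≠ 0 := by
    intro h
    apply hA'
    rw [hA₁]
    simp [h]
  obtain ⟨α, β, hx, hs⟩ := nb_ne hA1c
  obtain ⟨d, hd1, hd2⟩ := exists_between hx.2
  have hI : ∀ z ∈ Icc c d, A₁.eval z ≠ 0 := fun z hz =>
    hs z ⟨lt_of_lt_of_le hx.1 hz.1, lt_of_le_of_lt hz.2 hd2⟩
  have hz := S.Z2 hd1 hwc (fun t => B₁.eval t / A₁.eval t) (B₁.continuousOn.div A₁.continuousOn hI)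
    (fun t ht => by
      rw [hA₁, hB₁]
      simp only [eval_mul]
      have := hI t (Ioc_subset_Icc_self ht)
      field_simp)
  obtain ⟨x, hx, hx2⟩ := hne d hd1
  exact hx2 (hz x (Ioo_subset_Icc_self hx))

/-- linear first order equations: zero somewhere implies zero everywhere -/
lemma W_zero_of (S : Sys φ A B a₂ a₁) {x y : ℝ} (hxy : x ≤ y) (hA : ∀ t ∈ Icc x y, A.eval t ≠ 0)
    (hw : fW φ B x = 0) : fW φ B y = 0 := by
  rcases hxy.eq_or_lt with h | h
  · rw [← h]; exact hw
  · exact S.Z2 h hw (fun t => B.eval t / A.eval t) (B.continuousOn.div A.continuousOn hA)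
      (fun t ht => (div_mul_cancel₀ _ (hA t (Ioc_subset_Icc_self ht))).symm) y
      (right_mem_Icc.mpr hxy)

/-- growth at `+∞` -/
theorem growth (S : Sys φ A B a₂ a₁) (hne : ∀ x₀ : ℝ, ∃ x, x₀ < x ∧ fW φ B x ≠ 0) :
    A.degree ≤ B.degree ∧ B.leadingCoeff / A.leadingCoeff < 0 := by
  -- eventually `A` does not vanish and `W` does not vanish
  obtain ⟨X₀, hX₀⟩ : ∃ X₀ : ℝ, ∀ x, X₀ ≤ x → A.eval x ≠ 0 := by
    have h1 : ∀ᶠ x in atTop, A.eval x ≠ 0 := eventually_atTop_not_isRoot A S.A_ne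
    exact eventually_atTop.mp h1
  have hwne : ∀ x, X₀ ≤ x → fW φ B x ≠ 0 := by
    intro x hx h0
    obtain ⟨y, hy, hy2⟩ := hne x
    exact hy2 (S.W_zero_of hy.le (fun t ht => hX₀ t (hx.trans ht.1)) h0)
  by_contra hcon
  -- there is `K` with `B / A ≥ - K / x` eventually
  obtain ⟨K, hK⟩ : ∃ K : ℕ, ∀ᶠ x in atTop, -(K : ℝ) / x ≤ B.eval x / A.eval x := by
    by_cases hd : A.degree ≤ B.degree
    · have hB0 : B ≠ 0 := by
        rintro rfl
        rw [degree_zero, le_bot_iff, degree_eq_bot] at hd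
        exact S.A_ne hd
      have hl : 0 < B.leadingCoeff / A.leadingCoeff := by
        have h1 : ¬ (B.leadingCoeff / A.leadingCoeff < 0) := fun h => hcon ⟨hd, h⟩
        exact lt_of_le_of_ne (not_lt.mp h1) (div_ne_zero (leadingCoeff_ne_zero.mpr hB0)
          (leadingCoeff_ne_zero.mpr S.A_ne)).symm
      refine ⟨0, ?_⟩
      have hpos : ∀ᶠ x in atTop, 0 ≤ B.eval x / A.eval x := by
        rcases hd.eq_or_lt with h | h
        · have := div_tendsto_atTop_leadingCoeff_div_of_degree_eq B A h.symm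
          exact (this.eventually (lt_mem_nhds hl)).mono fun x hx => le_of_lt hx
        · have := div_tendsto_atTop_of_degree_gt B A h S.A_ne hl.le
          exact (this.eventually_ge_atTop 0)
      filter_upwards [hpos] with x hx
      simpa using hx
    · have hd' : (X * B).degree ≤ A.degree := by
        rw [degree_mul, degree_X]
        have h1 : B.degree < A.degree := not_le.mp hd
        rcases eq_or_ne B 0 with rfl | hB
        · simp
        · rw [degree_eq_natDegree hB, degree_eq_natDegree S.A_ne] at *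
          have : B.natDegree < A.natDegree := by exact_mod_cast h1
          exact_mod_cast (by omega : 1 + B.natDegree ≤ A.natDegree)
      have hO := isBigO_atTop_of_degree_le (X * B) A hd'
      obtain ⟨C, hC⟩ := hO.bound
      obtain ⟨K, hK⟩ := exists_nat_ge C
      refine ⟨K, ?_⟩
      filter_upwards [hC, eventually_gt_atTop (max X₀ 0)] with x hx hx0
      have hx1 : 0 < x := (le_max_right _ _).trans_lt hx0
      have hAx := hX₀ x ((le_max_left _ _).trans hx0.le)
      rw [eval_mul, eval_X, norm_mul, Real.norm_eq_abs, Real.norm_eq_abs, Real.norm_eq_abs,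
        abs_of_pos hx1] at hx
      have h2 : |B.eval x / A.eval x| ≤ K / x := by
        rw [abs_div, div_le_div_iff₀ (abs_pos.mpr hAx) hx1]
        calc |B.eval x| * x = x * |B.eval x| := by ring
          _ ≤ C * |A.eval x| := hx
          _ ≤ K * |A.eval x| := by gcongr
      have := (abs_le.mp h2).1
      rw [neg_div]; exact this
  obtain ⟨X₁, hX₁⟩ := eventually_atTop.mp hK
  obtain ⟨δ, hδ, hint⟩ := S.expW
  -- the monotone function
  set X₂ : ℝ := max (max X₀ X₁) 1 with hX₂
  set h : ℝ → ℝ := fun x => (fW φ B x) ^ 2 * x ^ (2 * K) with hh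
  have hder : ∀ x, X₂ ≤ x → HasDerivAt h (2 * (fW φ B x) ^ 2 * x ^ (2 * K)
      * (B.eval x / A.eval x + K / x)) x := by
    intro x hx
    have hx0 : X₀ ≤ x := (le_max_left _ _).trans ((le_max_left _ _).trans hx)
    have hx1 : 0 < x := lt_of_lt_of_le one_pos ((le_max_right _ _).trans hx)
    have h1 := ((S.dW (hX₀ x hx0)).pow 2).mul (hasDerivAt_pow (2 * K) x)
    refine h1.congr_deriv ?_
    simp only [Pi.pow_apply]
    rcases Nat.eq_zero_or_pos K with hK0 | hK0
    · subst hK0
      simp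
      ring
    · have e : x ^ (2 * K) = x ^ (2 * K - 1) * x := by
        rw [← pow_succ]; congr 1; omega
      rw [e]
      push_cast
      field_simp
  have hmono : MonotoneOn h (Ici X₂) := by
    refine monotoneOn_of_deriv_nonneg (convex_Ici _)
      (fun x hx => (hder x hx).continuousAt.continuousWithinAt)
      (fun x hx => (hder x (interior_subset hx)).differentiableAt.differentiableWithinAt)
      (fun x hx => ?_)
    have hx' : X₂ ≤ x := interior_subset hx
    rw [(hder x hx').deriv]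
    have hx1 : X₁ ≤ x := (le_max_right _ _).trans ((le_max_left _ _).trans hx')
    have hx2 : 0 < x := lt_of_lt_of_le one_pos ((le_max_right _ _).trans hx')
    have h1 := hX₁ x hx1
    rw [neg_div] at h1
    have h2 : 0 ≤ B.eval x / A.eval x + K / x := by linarith
    positivity
  have hc : 0 < h X₂ := by
    have h1 := hwne X₂ ((le_max_left _ _).trans (le_max_left _ _))
    have h2 : 0 < X₂ := lt_of_lt_of_le one_pos (le_max_right _ _)
    simp only [hh]
    positivity
  -- lower bound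
  have hlow : ∀ᶠ x in atTop, 1 ≤ |Real.exp (δ * |x|) * fW φ B x| := by
    have ht : Tendsto (fun x : ℝ => x ^ (2 * K) * Real.exp (-(2 * δ) * x)) atTop (𝓝 0) := by
      have h0 : Tendsto (fun x : ℝ => (2 * δ) * x) atTop atTop :=
        tendsto_id.const_mul_atTop (by positivity)
      have h1 := ((Real.tendsto_pow_mul_exp_neg_atTop_nhds_zero (2 * K)).comp h0).const_mul
        (((2 * δ) ^ (2 * K))⁻¹)
      rw [mul_zero] at h1
      refine h1.congr (fun x => ?_)
      simp only [Function.comp]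
      rw [mul_pow (2 * δ) x, ← mul_assoc, ← mul_assoc, inv_mul_cancel₀ (by positivity), one_mul,
        neg_mul]
    have h1 := ht.eventually (gt_mem_nhds hc)
    filter_upwards [h1, eventually_ge_atTop X₂] with x hx hx2
    have hx3 : 0 < x := lt_of_lt_of_le one_pos ((le_max_right _ _).trans hx2)
    have h2 : h X₂ ≤ h x := hmono (mem_Ici.mpr le_rfl) (mem_Ici.mpr hx2) hx2
    have h3 : x ^ (2 * K) * Real.exp (-(2 * δ) * x) < (fW φ B x) ^ 2 * x ^ (2 * K) :=
      hx.trans_le h2
    have h4 : Real.exp (-(2 * δ) * x) < (fW φ B x) ^ 2 := by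
      have hp : 0 < x ^ (2 * K) := by positivity
      nlinarith
    have h5 : 1 < (Real.exp (δ * |x|) * fW φ B x) ^ 2 := by
      rw [mul_pow, ← Real.exp_nat_mul, abs_of_pos hx3]
      have e : Real.exp (-(2 * δ) * x) * Real.exp (((2 : ℕ) : ℝ) * (δ * x)) = 1 := by
        rw [← Real.exp_add]
        have : -(2 * δ) * x + ((2 : ℕ) : ℝ) * (δ * x) = 0 := by push_cast; ring
        rw [this, Real.exp_zero]
      have hp := Real.exp_pos (((2 : ℕ) : ℝ) * (δ * x))
      nlinarith
    exact (one_lt_sq_iff_one_lt_abs _).mp h5 |>.le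
  obtain ⟨X₃, hX₃⟩ := eventually_atTop.mp hlow
  have hbad : IntegrableOn (fun _ : ℝ => (1 : ℝ)) (Ioi X₃) := by
    refine Integrable.mono (hint.integrableOn (s := Ioi X₃)) aestronglyMeasurable_const ?_
    refine (ae_restrict_iff' measurableSet_Ioi).mpr (Eventually.of_forall fun x hx => ?_)
    rw [norm_one, Real.norm_eq_abs]
    exact hX₃ x (le_of_lt hx)
  rw [integrableOn_const_iff] at hbad
  simp at hbad

end Sys

end Pool.Agent.X116.Kl
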