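import Pool.Agent.X116.KlH

/-!
# Krall classification: reflection, densities, atoms
-/

open MeasureTheory Set Filter Topology Polynomial

namespace Pool.Agent.X116.Kl

/-- exponents of integrable power type singularities -/
lemma exponent {D G : ℝ → ℝ} {c d p G₀ : ℝ} (hcd : c < d) (hD : IntegrableOn D (Ioo c d))
    (hDG : ∀ x ∈ Ioo c d, D x = (x - c) ^ p * G x) (hG : Tendsto G (𝓝[>] c) (𝓝 G₀))
    (hG0 : G₀ ≠ 0) : -1 < p := by
  have h1 : ∀ᶠ x in 𝓝[>] c, |G₀| / 2 < |G x| := by
    have := hG.abs
    exact this.eventually (lt_mem_nhds (by have := abs_pos.mpr hG0; linarith))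
  obtain ⟨e, he, hsub⟩ := mem_nhdsGT_iff_exists_Ioo_subset.mp
    (Filter.inter_mem h1 (Ioo_mem_nhdsGT hcd))
  have he' : c < e := he
  have h2 : IntegrableOn (fun x => (x - c) ^ p) (Ioo c e) := by
    have h3 : IntegrableOn (fun x => 2 / |G₀| * D x) (Ioo c e) :=
      (hD.mono_set (fun x hx => (hsub hx).2)).const_mul _
    refine Integrable.mono h3 ?_ ?_
    · exact (by fun_prop : Measurable (fun x : ℝ => (x - c) ^ p)).aestronglyMeasurable
    · refine (ae_restrict_iff' measurableSet_Ioo).mpr (Eventually.of_forall fun x hx => ?_)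
      have h4 := (hsub hx).1
      have h5 := (hsub hx).2
      have h6 : |G₀| / 2 < |G x| := h4
      rw [hDG x h5, norm_mul, norm_mul, Real.norm_eq_abs, Real.norm_eq_abs, Real.norm_eq_abs,
        abs_div, abs_abs]
      have hg := abs_pos.mpr hG0
      have h7 : 1 ≤ |(2:ℝ)| / |G₀| * |G x| := by
        rw [abs_of_pos (by norm_num : (0:ℝ) < 2), div_mul_eq_mul_div, le_div_iff₀ hg]
        linarith
      calc |(x - c) ^ p| = |(x - c) ^ p| * 1 := (mul_one _).symm
        _ ≤ |(x - c) ^ p| * (|(2:ℝ)| / |G₀| * |G x|) := by gcongr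
        _ = _ := by ring
  have h3 : IntervalIntegrable (fun x => (x - c) ^ p) volume c e :=
    (intervalIntegrable_iff_integrableOn_Ioo_of_le he'.le).mpr h2
  have h4 := h3.comp_add_right c
  simp only [add_sub_cancel_right, sub_self] at h4
  rw [intervalIntegrable_iff_integrableOn_Ioo_of_le (by linarith)] at h4
  exact (intervalIntegral.integrableOn_Ioo_rpow_iff (by linarith)).mp h4

namespace Sys

variable {φ : Measure ℝ} {A B a₂ a₁ : ℝ[X]}

lemma W_refl (S : Sys φ A B a₂ a₁) (x : ℝ) :
    fW (φ.map (fun x => -x)) (-B.comp (-X)) x = fW φ B (-x) := by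
  unfold fW pr
  rw [← integral_indicator measurableSet_Iic, int_neg_map]
  have e1 : ∀ y, (Iic x).indicator (fun y => (-B.comp (-X)).eval y) (-y)
      = - (Ici (-x)).indicator (fun y => B.eval y) y := by
    intro y
    by_cases hy : -x ≤ y
    · rw [indicator_of_mem (show -y ∈ Iic x by simp only [mem_Iic]; linarith),
        indicator_of_mem (show y ∈ Ici (-x) from hy)]
      simp
    · rw [indicator_of_notMem (show -y ∉ Iic x by simp only [mem_Iic]; intro h; apply hy; linarith),
        indicator_of_notMem (show y ∉ Ici (-x) from hy), neg_zero]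
  simp_rw [e1]
  rw [integral_neg, integral_indicator measurableSet_Ici]
  have h2 := integral_add_compl (measurableSet_Iio (a := -x)) (S.pi B)
  rw [compl_Iio, S.intB] at h2
  have h1 : Iic (-x) = Iio (-x) ∪ {-x} := by
    ext z; simp [le_iff_lt_or_eq]
  rw [h1, setIntegral_union (by simp) (measurableSet_singleton _) (S.pi B).integrableOn
    (S.pi B).integrableOn, integral_singleton, smul_eq_mul, S.B_atom]
  linarith

lemma W_ne (S : Sys φ A B a₂ a₁) : ∃ x, fW φ B x ≠ 0 := by
  by_contra hcon
  push Not at hcon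
  have hm : Measurable (fun x => if 0 ≤ A.eval x then (1:ℝ) else -1) :=
    Measurable.ite (measurableSet_le measurable_const A.continuous.measurable)
      measurable_const measurable_const
  have h := S.D1 (fun x => if 0 ≤ A.eval x then 1 else -1) hm 1 (fun x => by
    split_ifs <;> simp)
  simp only [hcon, mul_zero, integral_zero] at h
  have e1 : ∀ x, (if 0 ≤ A.eval x then (1:ℝ) else -1) * A.eval x = |A.eval x| := by
    intro x
    split_ifs with hx
    · rw [abs_of_nonneg hx, one_mul]
    · rw [abs_of_neg (not_le.mp hx)]; ring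
  simp_rw [e1] at h
  rw [integral_eq_zero_iff_of_nonneg (fun x => abs_nonneg _) (S.pi A).abs] at h
  apply S.hinf A.roots.toFinset
  refine measure_mono_null ?_ (ae_iff.mp h)
  intro x hx
  simp only [mem_compl_iff, Finset.mem_coe, Multiset.mem_toFinset] at hx
  simp only [mem_ofPred_eq, Pi.zero_apply]
  intro h0
  exact hx ((mem_roots S.A_ne).mpr (abs_eq_zero.mp h0))

lemma W_nonneg (S : Sys φ A B a₂ a₁) (hA : ∀ x, 0 ≤ A.eval x) (x : ℝ) : 0 ≤ fW φ B x := by
  by_contra hcon
  push Not at hcon
  have h1 : ∀ᶠ t in 𝓝 x, fW φ B t < fW φ B x / 2 :=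
    S.W_cont.continuousAt.eventually (gt_mem_nhds (by linarith))
  obtain ⟨α, β, hx, hs⟩ := mem_nhds_iff_exists_Ioo_subset.mp h1
  have h := S.D1 ((Ioo α β).indicator (fun _ => 1)) (measurable_const.indicator measurableSet_Ioo) 1
    (fun z => by
      by_cases hz : z ∈ Ioo α β
      · rw [indicator_of_mem hz]; simp
      · rw [indicator_of_notMem hz]; simp)
  have h2 : 0 ≤ ∫ z, (Ioo α β).indicator (fun _ => (1:ℝ)) z * A.eval z ∂φ := by
    refine integral_nonneg fun z => mul_nonneg ?_ (hA z)
    exact indicator_nonneg (fun _ _ => zero_le_one) z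
  have h3 : ∫ z, (Ioo α β).indicator (fun _ => (1:ℝ)) z * fW φ B z
      ≤ ∫ z, (Ioo α β).indicator (fun _ => fW φ B x / 2) z := by
    refine integral_mono ?_ ?_ (fun z => ?_)
    · refine S.intW.bdd_mul (c := 1) (measurable_const.indicator
        measurableSet_Ioo).aestronglyMeasurable (Eventually.of_forall fun z => ?_)
      by_cases hz : z ∈ Ioo α β
      · rw [indicator_of_mem hz]; simp
      · rw [indicator_of_notMem hz]; simp
    · exact (integrable_indicator_iff measurableSet_Ioo).mpr (integrableOn_const (by simp) (by simp))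
    · change (Ioo α β).indicator (fun _ => (1:ℝ)) z * fW φ B z
        ≤ (Ioo α β).indicator (fun _ => fW φ B x / 2) z
      by_cases hz : z ∈ Ioo α β
      · rw [indicator_of_mem hz, indicator_of_mem hz, one_mul]
        exact le_of_lt (hs hz)
      · rw [indicator_of_notMem hz, indicator_of_notMem hz, zero_mul]
  rw [integral_indicator measurableSet_Ioo, setIntegral_const, smul_eq_mul] at h3
  have h4 : 0 < (volume : Measure ℝ).real (Ioo α β) := by
    rw [Real.volume_real_Ioo_of_le (hx.1.trans hx.2).le]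
    linarith [hx.1, hx.2]
  nlinarith

lemma meas_eq (S : Sys φ A B a₂ a₁) (hA : ∀ x, 0 ≤ A.eval x) :
    φ.withDensity (fun x => ENNReal.ofReal (A.eval x))
      = volume.withDensity (fun x => ENNReal.ofReal (fW φ B x)) := by
  ext E hE
  rw [withDensity_apply _ hE, withDensity_apply _ hE,
    ← ofReal_integral_eq_lintegral_ofReal (S.pi A).integrableOn
      (Eventually.of_forall fun x => hA x),
    ← ofReal_integral_eq_lintegral_ofReal S.intW.integrableOn
      (Eventually.of_forall fun x => S.W_nonneg hA x)]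
  congr 1
  have h := S.D1 (E.indicator (fun _ => 1)) (measurable_const.indicator hE) 1
    (fun z => by
      by_cases hz : z ∈ E
      · rw [indicator_of_mem hz]; simp
      · rw [indicator_of_notMem hz]; simp)
  have e : ∀ (f : ℝ → ℝ) z, E.indicator (fun _ => (1:ℝ)) z * f z = E.indicator f z := by
    intro f z
    by_cases hz : z ∈ E
    · rw [indicator_of_mem hz, indicator_of_mem hz, one_mul]
    · rw [indicator_of_notMem hz, indicator_of_notMem hz, zero_mul]
  have e1 : ∀ z, E.indicator (fun _ => (1:ℝ)) z * A.eval z = E.indicator (fun x => A.eval x) z :=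
    e _
  have e2 : ∀ z, E.indicator (fun _ => (1:ℝ)) z * fW φ B z = E.indicator (fun x => fW φ B x) z :=
    e _
  simp_rw [e1, e2] at h
  rwa [integral_indicator hE, integral_indicator hE] at h

lemma restr_eq (S : Sys φ A B a₂ a₁) (hA : ∀ x, 0 ≤ A.eval x) :
    φ.restrict {x | A.eval x ≠ 0} = (volume.restrict {x | A.eval x ≠ 0}).withDensity
      (fun x => ENNReal.ofReal (fW φ B x / A.eval x)) := by
  have hmA : Measurable (fun x => A.eval x) := A.continuous.measurable
  have hmW : Measurable (fun x => fW φ B x) := S.W_cont.measurable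
  have hZ : MeasurableSet {x | A.eval x ≠ 0} := (hmA (measurableSet_singleton 0)).compl
  ext E hE
  rw [Measure.restrict_apply hE, withDensity_apply _ hE, Measure.restrict_restrict hE]
  have hEZ : MeasurableSet (E ∩ {x | A.eval x ≠ 0}) := hE.inter hZ
  have h1 : φ (E ∩ {x | A.eval x ≠ 0}) = ∫⁻ x in E ∩ {x | A.eval x ≠ 0},
      ENNReal.ofReal (A.eval x) * ENNReal.ofReal (1 / A.eval x) ∂φ := by
    rw [← setLIntegral_one]
    refine setLIntegral_congr_fun hEZ (fun x hx => ?_)
    have hx2 : A.eval x ≠ 0 := hx.2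
    rw [← ENNReal.ofReal_mul (hA x), mul_one_div_cancel hx2, ENNReal.ofReal_one]
  rw [h1]
  have h2 := setLIntegral_withDensity_eq_setLIntegral_mul φ hmA.ennreal_ofReal
    (g := fun x => ENNReal.ofReal (1 / A.eval x)) (by fun_prop) hEZ
  have h3 := setLIntegral_withDensity_eq_setLIntegral_mul volume hmW.ennreal_ofReal
    (g := fun x => ENNReal.ofReal (1 / A.eval x)) (by fun_prop) hEZ
  rw [S.meas_eq hA] at h2
  have h4 := h2.symm.trans h3
  refine h4.trans (setLIntegral_congr_fun hEZ (fun x _ => ?_))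
  change ENNReal.ofReal (fW φ B x) * ENNReal.ofReal (1 / A.eval x) = _
  rw [← ENNReal.ofReal_mul (S.W_nonneg hA x), mul_one_div]

/-- the integral formula -/
lemma int_formula (S : Sys φ A B a₂ a₁) (hA : ∀ x, 0 ≤ A.eval x) (h : ℝ[X]) :
    IntegrableOn (fun x => fW φ B x / A.eval x * h.eval x) {x | A.eval x ≠ 0} ∧
    ∫ x, h.eval x ∂φ = (∫ x in {x | A.eval x = 0}, h.eval x ∂φ)
      + ∫ x in {x | A.eval x ≠ 0}, fW φ B x / A.eval x * h.eval x := by
  have hmA : Measurable (fun x => A.eval x) := A.continuous.measurable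
  have hmW : Measurable (fun x => fW φ B x) := S.W_cont.measurable
  have hZ : MeasurableSet {x | A.eval x = 0} := (hmA (measurableSet_singleton 0))
  have hc : {x | A.eval x ≠ 0} = {x | A.eval x = 0}ᶜ := rfl
  have hm : Measurable (fun x => ENNReal.ofReal (fW φ B x / A.eval x)) :=
    (hmW.div hmA).ennreal_ofReal
  have hpos : ∀ x, 0 ≤ fW φ B x / A.eval x := fun x => div_nonneg (S.W_nonneg hA x) (hA x)
  constructor
  · have h1 : Integrable (fun x => h.eval x) (φ.restrict {x | A.eval x ≠ 0}) :=
      (S.pi h).integrableOn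
    rw [S.restr_eq hA, integrable_withDensity_iff_integrable_smul' hm
      (Eventually.of_forall fun x => ENNReal.ofReal_lt_top)] at h1
    refine h1.congr (Eventually.of_forall fun x => ?_)
    change (ENNReal.ofReal (fW φ B x / A.eval x)).toReal • h.eval x = _
    rw [ENNReal.toReal_ofReal (hpos x), smul_eq_mul]
  · have h1 := integral_add_compl hZ (S.pi h)
    rw [← h1]
    congr 1
    rw [← hc, S.restr_eq hA, integral_withDensity_eq_integral_toReal_smul hm
      (Eventually.of_forall fun x => ENNReal.ofReal_lt_top)]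
    refine integral_congr_ae (Eventually.of_forall fun x => ?_)
    change (ENNReal.ofReal (fW φ B x / A.eval x)).toReal • h.eval x = _
    rw [ENNReal.toReal_ofReal (hpos x), smul_eq_mul]

/-- explicit solutions -/
lemma W_const (S : Sys φ A B a₂ a₁) {I : Set ℝ} (hI : IsOpen I) (hI' : IsPreconnected I)
    (hA : ∀ x ∈ I, A.eval x ≠ 0) (g : ℝ → ℝ) (hg : ∀ x ∈ I, 0 < g x)
    (hgd : ∀ x ∈ I, HasDerivAt g (B.eval x / A.eval x * g x) x) :
    ∃ C₀ : ℝ, ∀ x ∈ I, fW φ B x = C₀ * g x := by
  rcases I.eq_empty_or_nonempty with rfl | ⟨x₀, hx₀⟩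
  · exact ⟨0, by simp⟩
  have hd : ∀ x ∈ I, HasDerivAt (fun x => fW φ B x / g x) 0 x := by
    intro x hx
    refine ((S.dW (hA x hx)).div (hgd x hx) (hg x hx).ne').congr_deriv ?_
    ring
  have hconst : ∀ x ∈ I, fW φ B x / g x = fW φ B x₀ / g x₀ := by
    intro x hx
    exact hI.is_const_of_deriv_eq_zero hI'
      (fun z hz => (hd z hz).differentiableAt.differentiableWithinAt)
      (fun z hz => (hd z hz).deriv) hx hx₀
  refine ⟨fW φ B x₀ / g x₀, fun x hx => ?_⟩
  rw [← hconst x hx, div_mul_cancel₀ _ (hg x hx).ne']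

end Sys

end Pool.Agent.X116.Kl
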