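import Pool.Agent.X116.KlI

/-!
# Krall classification: atoms at the end of the support
-/

open MeasureTheory Set Filter Topology Polynomial

namespace Pool.Agent.X116.Kl

namespace Sys

variable {φ : Measure ℝ} {A B a₂ a₁ : ℝ[X]}

lemma W_null {c : ℝ} (hs : φ (Iio c) = 0) (x : ℝ) (hx : x < c) : fW φ B x = 0 := by
  unfold fW pr
  have : φ (Iic x) = 0 := measure_mono_null (fun z hz => lt_of_le_of_lt hz hx) hs
  exact setIntegral_measure_zero _ this

lemma a1_zero (S : Sys φ A B a₂ a₁) {c : ℝ} (hs : φ (Iio c) = 0) (h1 : a₁.eval c = 0) :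
    a₁ = 0 := by
  obtain ⟨q, hq⟩ := dvd_iff_isRoot.mpr h1
  by_contra hne
  have hq0 : q ≠ 0 := by
    rintro rfl
    rw [mul_zero] at hq
    exact hne hq
  have hqd : q.natDegree = 0 := by
    have h2 := S.d1
    rw [hq, natDegree_mul (X_sub_C_ne_zero c) hq0, natDegree_X_sub_C] at h2
    omega
  obtain ⟨κ, hκ⟩ : ∃ κ : ℝ, q = C κ := ⟨_, eq_C_of_natDegree_eq_zero hqd⟩
  have hκ0 : κ ≠ 0 := by
    rintro rfl
    rw [C_0] at hκ
    exact hq0 hκ
  have h2 := S.inta1
  have e : ∀ x, a₁.eval x = κ * (X - C c : ℝ[X]).eval x := by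
    intro x
    rw [hq, hκ]; simp [mul_comm]
  simp_rw [e] at h2
  rw [integral_const_mul] at h2
  have h3 := (mul_eq_zero.mp h2).resolve_left hκ0
  have hae : ∀ᵐ x ∂φ, 0 ≤ (X - C c : ℝ[X]).eval x := by
    rw [ae_iff]
    refine measure_mono_null (fun x hx => ?_) hs
    simp only [mem_ofPred_eq, eval_sub, eval_X, eval_C, not_le] at hx
    exact (by linarith : x < c)
  rw [integral_eq_zero_iff_of_nonneg_ae hae (S.pi _)] at h3
  apply S.hinf {c}
  refine measure_mono_null (fun x hx => ?_) (ae_iff.mp h3)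
  simp only [Finset.coe_singleton, mem_compl_iff, mem_singleton_iff] at hx
  simp only [mem_ofPred_eq, Pi.zero_apply, eval_sub, eval_X, eval_C]
  intro h0
  exact hx (by linarith)

/-- an atom at the left end forces the exponent -/
theorem atom (S : Sys φ A B a₂ a₁) {c d : ℝ} (hcd : c < d) (hs : φ (Iio c) = 0)
    (hm : 0 < φ.real {c}) (A₂ B₁ : ℝ[X]) (hA : A = (X - C c) ^ 2 * A₂) (hA2 : A₂.eval c ≠ 0)
    (hB : B = (X - C c) * B₁) (hAne : ∀ x ∈ Ioo c d, A.eval x ≠ 0) (E : ℝ → ℝ) (E₀ : ℝ)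
    (hE : Tendsto E (𝓝[>] c) (𝓝 E₀)) (hE0 : E₀ ≠ 0) (P : ℝ)
    (hP : P * A₂.eval c = B₁.eval c) (hP1 : 1 < P)
    (hW : ∀ x ∈ Ioo c d, fW φ B x = (x - c) ^ P * E x) :
    P = 2 ∧ a₂.eval c = 0 ∧ a₁.eval c ≠ 0 := by
  obtain ⟨hu, hv⟩ := S.left_vals (c := c) (fun x hx => W_null hs x hx)
  have hpow : ∀ {s : ℝ}, 0 < s → Tendsto (fun x : ℝ => (x - c) ^ s) (𝓝[>] c) (𝓝 0) := by
    intro s hs'
    have h1 : Tendsto (fun x : ℝ => x - c) (𝓝[>] c) (𝓝 0) := by
      have : Tendsto (fun x : ℝ => x - c) (𝓝 c) (𝓝 (c - c)) := (continuous_sub_right c).tendsto c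
      rw [sub_self] at this
      exact this.mono_left nhdsWithin_le_nhds
    have h2 := h1.rpow_const (p := s) (Or.inr hs'.le)
    rwa [Real.zero_rpow hs'.ne'] at h2
  have poly_t : ∀ p : ℝ[X], Tendsto (fun x => p.eval x) (𝓝[>] c) (𝓝 (p.eval c)) := fun p =>
    (p.continuous.tendsto c).mono_left nhdsWithin_le_nhds
  have hA2ne : ∀ x ∈ Ioo c d, A₂.eval x ≠ 0 := by
    intro x hx h0
    apply hAne x hx
    rw [hA, eval_mul, h0, mul_zero]
  have hnb : Ioo c d ∈ 𝓝[>] c := Ioo_mem_nhdsGT hcd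
  -- V
  have hV0 : fV φ a₂ a₁ c = 0 := by
    refine tendsto_nhds_unique (S.V_right c) ?_
    have h1 : Tendsto (fun x => (x - c) ^ (P - 1) * (B₁.eval x * E x / A₂.eval x)) (𝓝[>] c)
        (𝓝 (0 * (B₁.eval c * E₀ / A₂.eval c))) :=
      (hpow (by linarith)).mul (((poly_t B₁).mul hE).div (poly_t A₂) hA2)
    rw [zero_mul] at h1
    refine h1.congr' ?_
    filter_upwards [hnb] with x hx
    rw [S.V_eq (hAne x hx), hW x hx, hA, hB]
    have hx0 : 0 < x - c := by linarith [hx.1]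
    have e1 : (x - c) ^ P = (x - c) ^ (P - 1) * (x - c) := by
      rw [← Real.rpow_add_one hx0.ne']; ring_nf
    have := hA2ne x hx
    simp only [eval_mul, eval_pow, eval_sub, eval_X, eval_C]
    rw [e1]
    field_simp
  have ha2 : a₂.eval c = 0 := by
    rw [hV0] at hv
    exact (mul_eq_zero.mp hv.symm).resolve_left hm.ne'
  obtain ⟨b, hb⟩ := dvd_iff_isRoot.mpr ha2
  -- U
  set N₂ : ℝ[X] := (X - C c) * b * A₂ + B₁ * A₂ - (X - C c) * derivative B₁ * A₂
    + (X - C c) * B₁ * derivative A₂ - B₁ ^ 2 with hN₂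
  set G : ℝ → ℝ := fun x => E x * N₂.eval x / (A₂.eval x) ^ 2 with hG
  have hN : a₂ * A - derivative B * A + B * derivative A - B ^ 2 = (X - C c) ^ 2 * N₂ := by
    rw [hA, hB, hb, hN₂]
    simp only [pow_two, derivative_mul, derivative_sub, derivative_X, derivative_C]
    ring
  have hN₂c : N₂.eval c = (A₂.eval c) ^ 2 * (P * (1 - P)) := by
    rw [hN₂]
    simp only [eval_mul, eval_pow, eval_sub, eval_add, eval_X, eval_C, ← hP]
    ring
  have hGt : Tendsto G (𝓝[>] c) (𝓝 (E₀ * (P * (1 - P)))) := by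
    have h1 : Tendsto G (𝓝[>] c) (𝓝 (E₀ * N₂.eval c / (A₂.eval c) ^ 2)) :=
      (hE.mul (poly_t N₂)).div ((poly_t A₂).pow 2) (pow_ne_zero 2 hA2)
    rw [hN₂c] at h1
    have e : E₀ * (eval c A₂ ^ 2 * (P * (1 - P))) / eval c A₂ ^ 2 = E₀ * (P * (1 - P)) := by
      field_simp
    rwa [e] at h1
  have hG0 : E₀ * (P * (1 - P)) ≠ 0 :=
    mul_ne_zero hE0 (mul_ne_zero (by linarith) (by linarith))
  have hU : ∀ x ∈ Ioo c d, fU φ a₁ x = (x - c) ^ (P - 2) * G x := by
    intro x hx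
    have h1 := S.U_eq (hAne x hx)
    rw [hN, hW x hx] at h1
    have hx0 : 0 < x - c := by linarith [hx.1]
    have e1 : (x - c) ^ P = (x - c) ^ (P - 2) * (x - c) ^ 2 := by
      rw [← Real.rpow_natCast (x - c) 2, ← Real.rpow_add hx0]; norm_num
    have hA2x := hA2ne x hx
    have hAx : A.eval x = (x - c) ^ 2 * A₂.eval x := by rw [hA]; simp
    rw [hAx, e1] at h1
    simp only [eval_mul, eval_pow, eval_sub, eval_X, eval_C] at h1
    have hne : (x - c) ^ 4 * (A₂.eval x) ^ 2 ≠ 0 := by positivity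
    have h2 : fU φ a₁ x * ((x - c) ^ 4 * (A₂.eval x) ^ 2)
        = ((x - c) ^ (P - 2) * G x) * ((x - c) ^ 4 * (A₂.eval x) ^ 2) := by
      simp only [hG]
      have e2 : (x - c) ^ (P - 2) * (E x * eval x N₂ / eval x A₂ ^ 2) * ((x - c) ^ 4 * eval x A₂ ^ 2)
          = (x - c) ^ (P - 2) * (E x * eval x N₂) * (x - c) ^ 4 := by field_simp
      rw [e2]
      linear_combination h1
    exact mul_right_cancel₀ hne h2
  have hUt := S.U_right c
  have hP2 : P = 2 := by
    rcases lt_trichotomy P 2 with hlt | heq | hgt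
    · exfalso
      have h1 : Tendsto (fun x => fU φ a₁ x * (x - c) ^ (2 - P)) (𝓝[>] c)
          (𝓝 (fU φ a₁ c * 0)) := hUt.mul (hpow (by linarith))
      rw [mul_zero] at h1
      have h2 : Tendsto G (𝓝[>] c) (𝓝 0) := by
        refine h1.congr' ?_
        filter_upwards [hnb] with x hx
        have hx0 : 0 < x - c := by linarith [hx.1]
        rw [hU x hx]
        have : (x - c) ^ (P - 2) * (x - c) ^ (2 - P) = 1 := by
          rw [← Real.rpow_add hx0]
          have : P - 2 + (2 - P) = 0 := by ring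
          rw [this, Real.rpow_zero]
        calc (x - c) ^ (P - 2) * G x * (x - c) ^ (2 - P)
            = ((x - c) ^ (P - 2) * (x - c) ^ (2 - P)) * G x := by ring
          _ = G x := by rw [this, one_mul]
      exact hG0 (tendsto_nhds_unique hGt h2)
    · exact heq
    · exfalso
      have h1 : Tendsto (fun x => (x - c) ^ (P - 2) * G x) (𝓝[>] c)
          (𝓝 (0 * (E₀ * (P * (1 - P))))) := (hpow (by linarith)).mul hGt
      rw [zero_mul] at h1
      have h2 : fU φ a₁ c = 0 := by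
        refine tendsto_nhds_unique hUt (h1.congr' ?_)
        filter_upwards [hnb] with x hx
        exact (hU x hx).symm
      rw [h2] at hu
      have h3 : a₁.eval c = 0 := (mul_eq_zero.mp hu.symm).resolve_left hm.ne'
      have h4 := S.a1_zero hs h3
      have h5 : Tendsto G (𝓝[>] c) (𝓝 0) := by
        refine tendsto_nhds_of_eventually_eq ?_
        filter_upwards [hnb] with x hx
        have h6 := hU x hx
        have h7 : fU φ a₁ x = 0 := by
          unfold fU pr
          rw [h4]; simp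
        rw [h7] at h6
        have hx0 : 0 < x - c := by linarith [hx.1]
        exact (mul_eq_zero.mp h6.symm).resolve_left (Real.rpow_pos_of_pos hx0 _).ne'
      exact hG0 (tendsto_nhds_unique hGt h5)
  refine ⟨hP2, ha2, fun h0 => ?_⟩
  rw [h0, mul_zero] at hu
  rw [hu] at hUt
  have h1 : Tendsto G (𝓝[>] c) (𝓝 0) := by
    refine hUt.congr' ?_
    filter_upwards [hnb] with x hx
    rw [hU x hx, hP2]
    simp
  exact hG0 (tendsto_nhds_unique hGt h1)

end Sys

end Pool.Agent.X116.Kl
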