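import Pool.Agent.X116.KlJ

/-!
# Krall classification: bounded support
-/

open MeasureTheory Set Filter Topology Polynomial

namespace Pool.Agent.X116.Kl

/-- shape of the measures with bounded support -/
def ShFin (φ : Measure ℝ) : Prop := ∃ c d K p q m m' : ℝ, c < d ∧ 0 < K ∧ -1 < p ∧ -1 < q ∧
  0 ≤ m ∧ 0 ≤ m' ∧ (m ≠ 0 → p = 0) ∧ (m' ≠ 0 → q = 0) ∧ (m ≠ 0 → m' ≠ 0 → m = m') ∧
  ∀ h : ℝ[X], ∫ x, h.eval x ∂φ = m * h.eval c + m' * h.eval d
    + K * ∫ x in Ioo c d, (x - c) ^ p * (d - x) ^ q * h.eval x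

/-- shape of the measures with support bounded from one side -/
def ShSemi (φ : Measure ℝ) : Prop := ∃ c K p l m : ℝ, 0 < K ∧ -1 < p ∧ l < 0 ∧
  0 ≤ m ∧ (m ≠ 0 → p = 0) ∧
  ∀ h : ℝ[X], ∫ x, h.eval x ∂φ = m * h.eval c
    + K * ∫ x in Ioi c, (x - c) ^ p * Real.exp (l * x) * h.eval x

/-- shape of the measures with unbounded support -/
def ShInf (φ : Measure ℝ) : Prop := ∃ K a b : ℝ, 0 < K ∧ a < 0 ∧
  ∀ h : ℝ[X], ∫ x, h.eval x ∂φ = K * ∫ x, Real.exp (a * x ^ 2 + b * x) * h.eval x

lemma factor_two {A : ℝ[X]} {c : ℝ} (h1 : A.eval c = 0) (h2 : (derivative A).eval c = 0) :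
    ∃ A₂ : ℝ[X], A = (X - C c) ^ 2 * A₂ := by
  obtain ⟨A₁, hA₁⟩ := dvd_iff_isRoot.mpr h1
  have h3 : A₁.eval c = 0 := by
    rw [hA₁] at h2
    simpa using h2
  obtain ⟨A₂, hA₂⟩ := dvd_iff_isRoot.mpr h3
  exact ⟨A₂, by rw [hA₁, hA₂]; ring⟩

lemma linear_interp {p : ℝ[X]} (hp : p.natDegree ≤ 1) {c d : ℝ} (hcd : c ≠ d) (x : ℝ) :
    p.eval x = p.eval c / (c - d) * (x - d) + p.eval d / (d - c) * (x - c) := by
  obtain ⟨a, b, rfl⟩ := exists_eq_X_add_C_of_natDegree_le_one hp
  have h1 : c - d ≠ 0 := sub_ne_zero.mpr hcd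
  have h2 : d - c ≠ 0 := sub_ne_zero.mpr hcd.symm
  simp only [eval_add, eval_mul, eval_C, eval_X]
  field_simp
  ring

namespace Sys

variable {φ : Measure ℝ} {A B a₂ a₁ : ℝ[X]}

lemma null_of (S : Sys φ A B a₂ a₁) (hA : ∀ x, 0 ≤ A.eval x) {E : Set ℝ} (hE : MeasurableSet E)
    (h1 : ∀ x ∈ E, A.eval x ≠ 0) (h2 : ∀ x ∈ E, fW φ B x = 0) : φ E = 0 := by
  have h3 : (φ.restrict {x | A.eval x ≠ 0}) E = ((volume.restrict {x | A.eval x ≠ 0}).withDensity
      (fun x => ENNReal.ofReal (fW φ B x / A.eval x))) E := by rw [S.restr_eq hA]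
  rw [Measure.restrict_apply hE, withDensity_apply _ hE, Measure.restrict_restrict hE] at h3
  have e : E ∩ {x | A.eval x ≠ 0} = E := by
    ext x; constructor
    · exact fun h => h.1
    · exact fun h => ⟨h, h1 x h⟩
  rw [e] at h3
  rw [h3]
  have : ∫⁻ x in E, ENNReal.ofReal (fW φ B x / A.eval x) = ∫⁻ x in E, 0 := by
    refine setLIntegral_congr_fun hE (fun x hx => ?_)
    change ENNReal.ofReal (fW φ B x / A.eval x) = 0
    rw [h2 x hx]; simp
  rw [this, lintegral_zero]

theorem caseFin (S : Sys φ A B a₂ a₁) (hpos : 0 < A.leadingCoeff) {c d : ℝ} (hcd : c < d)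
    (hc : ∀ x < c, fW φ B x = 0) (hc' : ∀ e, c < e → ∃ x ∈ Ioo c e, fW φ B x ≠ 0)
    (hd : ∀ x, d < x → fW φ B x = 0) (hd' : ∀ e, e < d → ∃ x ∈ Ioo e d, fW φ B x ≠ 0) :
    ShFin φ := by
  obtain ⟨wc, Bc, Ac, A'c⟩ := S.left_end hc hc'
  obtain ⟨wd, Bd, Ad, A'd⟩ := S.refl.left_end (c := -d)
    (fun x hx => by rw [S.W_refl]; exact hd _ (by linarith))
    (fun e he => by
      obtain ⟨x, hx, hx2⟩ := hd' (-e) (by linarith)
      refine ⟨-x, ⟨by linarith [hx.2], by linarith [hx.1]⟩, ?_⟩
      rw [S.W_refl, neg_neg]; exact hx2)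
  rw [S.W_refl, neg_neg] at wd
  simp only [eval_neg, eval_comp, eval_X, neg_neg] at Bd Ad
  have A'd2 : (derivative A).eval d = 0 := by
    rw [derivative_comp] at A'd
    simpa using A'd
  have Bd2 : B.eval d = 0 := by linarith
  -- factorisations
  obtain ⟨A₂, hA₂⟩ := factor_two Ac A'c
  have hdc : d - c ≠ 0 := sub_ne_zero.mpr hcd.ne'
  have hcd' : c - d ≠ 0 := sub_ne_zero.mpr hcd.ne
  have hA₂d : A₂.eval d = 0 := by
    rw [hA₂] at Ad
    simp only [eval_mul, eval_pow, eval_sub, eval_X, eval_C] at Ad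
    exact (mul_eq_zero.mp Ad).resolve_left (pow_ne_zero 2 hdc)
  have hA₂d' : (derivative A₂).eval d = 0 := by
    rw [hA₂] at A'd2
    simp only [pow_two, derivative_mul, derivative_sub, derivative_X, derivative_C, eval_add,
      eval_mul, eval_sub, eval_X, eval_C, hA₂d, mul_zero, zero_add] at A'd2
    exact (mul_eq_zero.mp A'd2).resolve_left (mul_ne_zero hdc hdc)
  obtain ⟨A₄, hA₄⟩ := factor_two hA₂d hA₂d'
  have hA₄0 : A₄ ≠ 0 := by
    rintro rfl
    apply S.A_ne
    rw [hA₂, hA₄]; simp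
  have hA₄d : A₄.natDegree = 0 := by
    have h1 := S.dA
    rw [hA₂, hA₄, natDegree_mul (pow_ne_zero 2 (X_sub_C_ne_zero c))
      (mul_ne_zero (pow_ne_zero 2 (X_sub_C_ne_zero d)) hA₄0),
      natDegree_mul (pow_ne_zero 2 (X_sub_C_ne_zero d)) hA₄0, natDegree_pow, natDegree_pow,
      natDegree_X_sub_C, natDegree_X_sub_C] at h1
    omega
  obtain ⟨α, hα⟩ : ∃ α : ℝ, A₄ = C α := ⟨_, eq_C_of_natDegree_eq_zero hA₄d⟩
  have hAα : A = (X - C c) ^ 2 * ((X - C d) ^ 2 * C α) := by rw [hA₂, hA₄, hα]
  have hαpos : 0 < α := by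
    rw [hAα, leadingCoeff_mul, leadingCoeff_mul, leadingCoeff_pow, leadingCoeff_pow,
      leadingCoeff_X_sub_C, leadingCoeff_X_sub_C, leadingCoeff_C] at hpos
    simpa using hpos
  have hAe : ∀ x, A.eval x = α * (x - c) ^ 2 * (x - d) ^ 2 := by
    intro x; rw [hAα]; simp; ring
  obtain ⟨B₁, hB₁⟩ := dvd_iff_isRoot.mpr Bc
  have hB₁d : B₁.eval d = 0 := by
    rw [hB₁] at Bd2
    simp only [eval_mul, eval_sub, eval_X, eval_C] at Bd2
    exact (mul_eq_zero.mp Bd2).resolve_left hdc
  obtain ⟨B₂, hB₂⟩ := dvd_iff_isRoot.mpr hB₁d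
  have hB₂d : B₂.natDegree ≤ 1 := by
    rcases eq_or_ne B₂ 0 with h0 | h0
    · rw [h0]; simp
    · have h1 := S.dB
      rw [hB₁, hB₂, natDegree_mul (X_sub_C_ne_zero c) (mul_ne_zero (X_sub_C_ne_zero d) h0),
        natDegree_mul (X_sub_C_ne_zero d) h0, natDegree_X_sub_C, natDegree_X_sub_C] at h1
      omega
  have hBe : ∀ x, B.eval x = (x - c) * ((x - d) * B₂.eval x) := by
    intro x; rw [hB₁, hB₂]; simp
  set P : ℝ := B₂.eval c / (α * (c - d)) with hP
  set Q : ℝ := B₂.eval d / (α * (d - c)) with hQ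
  have hB₂e : ∀ x, B₂.eval x = α * (P * (x - d) + Q * (x - c)) := by
    intro x
    rw [linear_interp hB₂d hcd.ne x, hP, hQ]
    field_simp
  have hAnn : ∀ x, 0 ≤ A.eval x := fun x => by rw [hAe]; positivity
  have hAne : ∀ x ∈ Ioo c d, A.eval x ≠ 0 := by
    intro x hx
    rw [hAe]
    have h1 : x - c ≠ 0 := by linarith [hx.1] |> fun (h : 0 < x - c) => h.ne'
    have h2 : x - d ≠ 0 := by
      have : x - d < 0 := by linarith [hx.2]
      exact this.ne
    positivity
  set g : ℝ → ℝ := fun x => (x - c) ^ P * (d - x) ^ Q with hg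
  have hgpos : ∀ x ∈ Ioo c d, 0 < g x := fun x hx =>
    mul_pos (Real.rpow_pos_of_pos (by linarith [hx.1]) _) (Real.rpow_pos_of_pos (by linarith [hx.2]) _)
  have hgd : ∀ x ∈ Ioo c d, HasDerivAt g (B.eval x / A.eval x * g x) x := by
    intro x hx
    have h1 : 0 < x - c := by linarith [hx.1]
    have h2 : 0 < d - x := by linarith [hx.2]
    have e1 : HasDerivAt (fun x => (x - c) ^ P) (1 * P * (x - c) ^ (P - 1)) x :=
      ((hasDerivAt_id x).sub_const c).rpow_const (Or.inl h1.ne')
    have e2 : HasDerivAt (fun x => (d - x) ^ Q) (-1 * Q * (d - x) ^ (Q - 1)) x :=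
      ((hasDerivAt_id x).const_sub d).rpow_const (Or.inl h2.ne')
    refine (e1.mul e2).congr_deriv ?_
    rw [hBe, hAe, hB₂e, Real.rpow_sub_one h1.ne', Real.rpow_sub_one h2.ne']
    simp only [hg]
    have h3 : x - d = -(d - x) := by ring
    rw [h3]
    field_simp
    ring
  obtain ⟨C₀, hC₀⟩ := S.W_const isOpen_Ioo isPreconnected_Ioo hAne g hgpos hgd
  have hC₀pos : 0 < C₀ := by
    obtain ⟨x, hx, hx2⟩ := hc' d hcd
    have h1 := S.W_nonneg hAnn x
    rw [hC₀ x hx] at h1 hx2
    have h2 := hgpos x hx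
    rcases lt_trichotomy C₀ 0 with h | h | h
    · nlinarith
    · rw [h, zero_mul] at hx2; exact absurd rfl hx2
    · exact h
  -- the integral formula
  have hdens : ∀ x ∈ Ioo c d, fW φ B x / A.eval x
      = C₀ / α * ((x - c) ^ (P - 2) * (d - x) ^ (Q - 2)) := by
    intro x hx
    have h1 : 0 < x - c := by linarith [hx.1]
    have h2 : 0 < d - x := by linarith [hx.2]
    have e1 : (x - c) ^ P = (x - c) ^ (P - 2) * (x - c) ^ 2 := by
      rw [← Real.rpow_natCast (x - c) 2, ← Real.rpow_add h1]; norm_num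
    have e2 : (d - x) ^ Q = (d - x) ^ (Q - 2) * (d - x) ^ 2 := by
      rw [← Real.rpow_natCast (d - x) 2, ← Real.rpow_add h2]; norm_num
    rw [hC₀ x hx, hAe]
    simp only [hg]
    rw [e1, e2]
    have h3 : (x - d) ^ 2 = (d - x) ^ 2 := by ring
    rw [h3]
    field_simp
  have hZ : {x | A.eval x = 0} = {c, d} := by
    ext x
    simp only [mem_ofPred_eq, mem_insert_iff, mem_singleton_iff, hAe]
    constructor
    · intro h
      rcases mul_eq_zero.mp h with h | h
      · rcases mul_eq_zero.mp h with h | h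
        · exact absurd h hαpos.ne'
        · left; have := pow_eq_zero_iff (two_ne_zero) |>.mp h; linarith
      · right; have := pow_eq_zero_iff (two_ne_zero) |>.mp h; linarith
    · rintro (rfl | rfl) <;> simp
  have hform : ∀ h : ℝ[X], ∫ x, h.eval x ∂φ = φ.real {c} * h.eval c + φ.real {d} * h.eval d
      + C₀ / α * ∫ x in Ioo c d, (x - c) ^ (P - 2) * (d - x) ^ (Q - 2) * h.eval x := by
    intro h
    rw [(S.int_formula hAnn h).2, hZ]
    congr 1
    · have e : ({c, d} : Set ℝ) = {c} ∪ {d} := rfl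
      rw [e, setIntegral_union (by simp [hcd.ne]) (measurableSet_singleton _)
        (S.pi h).integrableOn (S.pi h).integrableOn, integral_singleton, integral_singleton,
        smul_eq_mul, smul_eq_mul]
    · rw [← integral_const_mul]
      have hsub : Ioo c d ⊆ {x | A.eval x ≠ 0} := fun x hx => hAne x hx
      have hZm : MeasurableSet {x | A.eval x ≠ 0} :=
        (A.continuous.measurable (measurableSet_singleton 0)).compl
      rw [setIntegral_eq_of_subset_of_forall_sdiff_eq_zero hZm hsub (fun x hx => ?_)]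
      · refine setIntegral_congr_fun measurableSet_Ioo (fun x hx => ?_)
        change fW φ B x / A.eval x * h.eval x = _
        rw [hdens x hx]; ring
      · have : fW φ B x = 0 := by
          rcases lt_trichotomy x c with h1 | h1 | h1
          · exact hc x h1
          · rw [h1]; exact wc
          · rcases lt_trichotomy x d with h2 | h2 | h2
            · exact absurd ⟨h1, h2⟩ hx.2
            · rw [h2]; exact wd
            · exact hd x h2
        rw [this]; simp
  -- exponents
  have hI : IntegrableOn (fun x => fW φ B x / A.eval x) (Ioo c d) := by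
    have h1 := (S.int_formula hAnn 1).1
    simp only [eval_one, mul_one] at h1
    exact h1.mono_set (fun x hx => hAne x hx)
  have hp : -1 < P - 2 := by
    refine exponent hcd hI (G := fun x => C₀ / α * (d - x) ^ (Q - 2))
      (G₀ := C₀ / α * (d - c) ^ (Q - 2)) (fun x hx => by rw [hdens x hx]; ring) ?_ ?_
    · have : ContinuousAt (fun x => C₀ / α * (d - x) ^ (Q - 2)) c := by
        refine continuousAt_const.mul (ContinuousAt.rpow_const (by fun_prop) (Or.inl hdc))
      exact this.tendsto.mono_left nhdsWithin_le_nhds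
    · have : 0 < (d - c) ^ (Q - 2) := Real.rpow_pos_of_pos (by linarith) _
      positivity
  have hq : -1 < Q - 2 := by
    have h1 : IntervalIntegrable (fun x => fW φ B x / A.eval x) volume d c :=
      ((intervalIntegrable_iff_integrableOn_Ioo_of_le hcd.le).mpr hI).symm
    have h2 := (IntervalIntegrable.iff_comp_neg (f := fun x => fW φ B x / A.eval x)).mp h1
    rw [intervalIntegrable_iff_integrableOn_Ioo_of_le (by linarith)] at h2
    refine exponent (c := -d) (d := -c) (by linarith) h2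
      (G := fun x => C₀ / α * (-x - c) ^ (P - 2))
      (G₀ := C₀ / α * (-(-d) - c) ^ (P - 2)) (fun x hx => ?_) ?_ ?_
    · have hx' : -x ∈ Ioo c d := ⟨by linarith [hx.2], by linarith [hx.1]⟩
      change fW φ B (-x) / A.eval (-x) = _
      rw [hdens (-x) hx']
      have e : d - -x = x - -d := by ring
      rw [e]; ring
    · have : ContinuousAt (fun x => C₀ / α * (-x - c) ^ (P - 2)) (-d) := by
        refine continuousAt_const.mul (ContinuousAt.rpow_const (by fun_prop) (Or.inl ?_))
        simpa using hdc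
      exact this.tendsto.mono_left nhdsWithin_le_nhds
    · have : 0 < (-(-d) - c) ^ (P - 2) := Real.rpow_pos_of_pos (by linarith) _
      positivity
  -- atoms
  have hleft : φ (Iio c) = 0 := S.null_of hAnn measurableSet_Iio (fun x hx => by
    have hx' : x < c := hx
    rw [hAe]
    have h1 : x - c ≠ 0 := (by linarith : x - c < 0).ne
    have h2 : x - d ≠ 0 := (by linarith : x - d < 0).ne
    positivity) (fun x hx => hc x hx)
  have hright : φ (Ioi d) = 0 := S.null_of hAnn measurableSet_Ioi (fun x hx => by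
    have hx' : d < x := hx
    rw [hAe]
    have h1 : x - c ≠ 0 := (by linarith : 0 < x - c).ne'
    have h2 : x - d ≠ 0 := (by linarith : 0 < x - d).ne'
    positivity) (fun x hx => hd x hx)
  have hatc : φ.real {c} ≠ 0 → P = 2 ∧ a₂.eval c = 0 ∧ a₁.eval c ≠ 0 := by
    intro hm
    have hm' : 0 < φ.real {c} := lt_of_le_of_ne measureReal_nonneg (Ne.symm hm)
    refine S.atom hcd hleft hm' ((X - C d) ^ 2 * C α) ((X - C d) * B₂) hAα ?_ (by rw [hB₁, hB₂])
      hAne (fun x => C₀ * (d - x) ^ Q) (C₀ * (d - c) ^ Q) ?_ ?_ P ?_ (by linarith) ?_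
    · simp only [eval_mul, eval_pow, eval_sub, eval_X, eval_C]
      positivity
    · have : ContinuousAt (fun x => C₀ * (d - x) ^ Q) c := by
        refine continuousAt_const.mul (ContinuousAt.rpow_const (by fun_prop) (Or.inl hdc))
      exact this.tendsto.mono_left nhdsWithin_le_nhds
    · have : 0 < (d - c) ^ Q := Real.rpow_pos_of_pos (by linarith) _
      positivity
    · simp only [eval_mul, eval_pow, eval_sub, eval_X, eval_C]
      rw [hP]
      field_simp
    · intro x hx
      rw [hC₀ x hx]; simp only [hg]; ring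
  have hatd : φ.real {d} ≠ 0 → Q = 2 ∧ a₂.eval d = 0 ∧ a₁.eval d ≠ 0 := by
    intro hm
    have hm' : 0 < φ.real {d} := lt_of_le_of_ne measureReal_nonneg (Ne.symm hm)
    have hmap : ∀ E : Set ℝ, (φ.map (fun x => -x)) E = φ ((fun x => -x) ⁻¹' E) := fun E =>
      (MeasurableEquiv.neg ℝ).measurableEmbedding.map_apply φ E
    have h1 := S.refl.atom (c := -d) (d := -c) (by linarith) (by
        rw [hmap]
        have : (fun x : ℝ => -x) ⁻¹' (Iio (-d)) = Ioi d := by ext x; simp
        rw [this]; exact hright) (by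
        rw [measureReal_def, hmap]
        have : (fun x : ℝ => -x) ⁻¹' {-d} = {d} := by ext x; simp
        rw [this]; exact hm')
      ((X - C (-c)) ^ 2 * C α) (-(X - C (-c)) * B₂.comp (-X)) (by
        rw [hAα]
        simp only [mul_comp, pow_comp, sub_comp, X_comp, C_comp, map_neg]
        ring) (by
        simp only [eval_mul, eval_pow, eval_sub, eval_X, eval_C]
        have : -d - -c ≠ 0 := by intro h; apply hdc; linarith
        positivity) (by
        rw [hB₁, hB₂]
        simp only [mul_comp, sub_comp, X_comp, C_comp, map_neg]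
        ring) (fun x hx => by
        simp only [eval_comp, eval_neg, eval_X]
        exact hAne (-x) ⟨by linarith [hx.2], by linarith [hx.1]⟩)
      (fun x => C₀ * (-x - c) ^ P) (C₀ * (-(-d) - c) ^ P) (by
        have : ContinuousAt (fun x => C₀ * (-x - c) ^ P) (-d) := by
          refine continuousAt_const.mul (ContinuousAt.rpow_const (by fun_prop) (Or.inl ?_))
          simpa using hdc
        exact this.tendsto.mono_left nhdsWithin_le_nhds) (by
        have : 0 < (-(-d) - c) ^ P := Real.rpow_pos_of_pos (by linarith) _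
        positivity) Q (by
        simp only [eval_mul, eval_pow, eval_sub, eval_X, eval_C, eval_neg, eval_comp, neg_neg]
        rw [hQ]
        field_simp
        ring) (by linarith) (by
        intro x hx
        rw [S.W_refl, hC₀ (-x) ⟨by linarith [hx.2], by linarith [hx.1]⟩]
        simp only [hg]
        have e : d - -x = x - -d := by ring
        rw [e]; ring)
    refine ⟨h1.1, ?_, ?_⟩
    · simpa using h1.2.1
    · have := h1.2.2
      simpa using this
  refine ⟨c, d, C₀ / α, P - 2, Q - 2, φ.real {c}, φ.real {d}, hcd, by positivity, hp, hq,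
    measureReal_nonneg, measureReal_nonneg, fun h => by rw [(hatc h).1]; norm_num,
    fun h => by rw [(hatd h).1]; norm_num, ?_, hform⟩
  intro hm hm'
  obtain ⟨P2, a2c, a1c⟩ := hatc hm
  obtain ⟨Q2, a2d, a1d⟩ := hatd hm'
  -- `B = A'`
  have hBA : B = derivative A := by
    apply Polynomial.funext
    intro x
    rw [hBe, hB₂e, P2, Q2, hAα]
    simp only [pow_two, derivative_mul, derivative_sub, derivative_X, derivative_C, eval_add,
      eval_mul, eval_sub, eval_X, eval_C, eval_one, eval_zero]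
    ring
  have hQe := S.Q_eq
  rw [hBA] at hQe
  have h1 : A ^ 2 * (derivative (derivative (derivative A)) - derivative a₂ + a₁) = 0 := by
    linear_combination hQe
  have h2 := (mul_eq_zero.mp h1).resolve_left (pow_ne_zero 2 S.A_ne)
  obtain ⟨b₁, hb₁⟩ := dvd_iff_isRoot.mpr a2c
  have hb₁d : b₁.eval d = 0 := by
    rw [hb₁] at a2d
    simp only [eval_mul, eval_sub, eval_X, eval_C] at a2d
    exact (mul_eq_zero.mp a2d).resolve_left hdc
  obtain ⟨b₂, hb₂⟩ := dvd_iff_isRoot.mpr hb₁d
  have hb₂d : b₂.natDegree = 0 := by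
    rcases eq_or_ne b₂ 0 with h0 | h0
    · rw [h0]; simp
    · have h1 := S.d2
      rw [hb₁, hb₂, natDegree_mul (X_sub_C_ne_zero c) (mul_ne_zero (X_sub_C_ne_zero d) h0),
        natDegree_mul (X_sub_C_ne_zero d) h0, natDegree_X_sub_C, natDegree_X_sub_C] at h1
      omega
  obtain ⟨γ, hγ⟩ : ∃ γ : ℝ, b₂ = C γ := ⟨_, eq_C_of_natDegree_eq_zero hb₂d⟩
  have ha1 : ∀ x, a₁.eval x = (γ - 12 * α) * (2 * x - c - d) := by
    intro x
    have h3 : a₁ = derivative a₂ - derivative (derivative (derivative A)) := by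
      linear_combination h2
    rw [h3, hb₁, hb₂, hγ, hAα]
    simp only [pow_two, derivative_mul, derivative_sub, derivative_add, derivative_X, derivative_C,
      derivative_one, derivative_zero, eval_add,
      eval_mul, eval_sub, eval_X, eval_C, eval_one, eval_zero]
    ring
  have hκ : γ - 12 * α ≠ 0 := by
    intro h
    apply a1c
    rw [ha1, h, zero_mul]
  have h3 := hform a₁
  rw [S.inta1, P2, Q2] at h3
  simp only [sub_self, Real.rpow_zero, one_mul] at h3
  have h4 : ∫ x in Ioo c d, a₁.eval x = 0 := by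
    simp_rw [ha1]
    rw [← integral_Ioc_eq_integral_Ioo, ← intervalIntegral.integral_of_le hcd.le,
      intervalIntegral.integral_const_mul]
    have : ∫ x in c..d, (2 * x - c - d) = 0 := by
      have hder : ∀ x ∈ uIcc c d, HasDerivAt (fun x => x ^ 2 - c * x - d * x) (2 * x - c - d) x := by
        intro x _
        have := (((hasDerivAt_pow 2 x).sub ((hasDerivAt_id x).const_mul c)).sub
          ((hasDerivAt_id x).const_mul d))
        refine this.congr_deriv ?_
        simp
      rw [intervalIntegral.integral_eq_sub_of_hasDerivAt hder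
        (Continuous.intervalIntegrable (by fun_prop) _ _)]
      ring
    rw [this, mul_zero]
  rw [h4, mul_zero, add_zero, ha1, ha1] at h3
  have h5 : (γ - 12 * α) * (c - d) * (φ.real {c} - φ.real {d}) = 0 := by linear_combination -h3
  have h6 := (mul_eq_zero.mp h5).resolve_left (mul_ne_zero hκ hcd')
  linarith

end Sys

end Pool.Agent.X116.Kl
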