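import Pool.Agent.X116.KlK

/-!
# Krall classification: unbounded support and the classification theorem
-/

open MeasureTheory Set Filter Topology Polynomial

namespace Pool.Agent.X116.Kl

lemma fW_neg (φ : Measure ℝ) (B : ℝ[X]) (x : ℝ) : fW φ (-B) x = - fW φ B x := by
  unfold fW pr
  simp only [eval_neg]
  exact integral_neg _

namespace Sys

variable {φ : Measure ℝ} {A B a₂ a₁ : ℝ[X]}

lemma lc_pos_or (S : Sys φ A B a₂ a₁) : 0 < A.leadingCoeff ∨ 0 < (-A).leadingCoeff := by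
  rw [leadingCoeff_neg]
  have := leadingCoeff_ne_zero.mpr S.A_ne
  rcases lt_or_gt_of_ne this with h | h
  · right; linarith
  · left; exact h

theorem caseFin' (S : Sys φ A B a₂ a₁) {c d : ℝ} (hcd : c < d)
    (hc : ∀ x < c, fW φ B x = 0) (hc' : ∀ e, c < e → ∃ x ∈ Ioo c e, fW φ B x ≠ 0)
    (hd : ∀ x, d < x → fW φ B x = 0) (hd' : ∀ e, e < d → ∃ x ∈ Ioo e d, fW φ B x ≠ 0) :
    ShFin φ := by
  rcases S.lc_pos_or with h | h
  · exact S.caseFin h hcd hc hc' hd hd'
  · refine S.neg.caseFin h hcd (fun x hx => by rw [fW_neg, hc x hx, neg_zero]) (fun e he => ?_)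
      (fun x hx => by rw [fW_neg, hd x hx, neg_zero]) (fun e he => ?_)
    · obtain ⟨x, hx, hx2⟩ := hc' e he
      exact ⟨x, hx, by rw [fW_neg]; exact neg_ne_zero.mpr hx2⟩
    · obtain ⟨x, hx, hx2⟩ := hd' e he
      exact ⟨x, hx, by rw [fW_neg]; exact neg_ne_zero.mpr hx2⟩

theorem caseSemi (S : Sys φ A B a₂ a₁) (hpos : 0 < A.leadingCoeff) {c : ℝ}
    (hc : ∀ x < c, fW φ B x = 0) (hc' : ∀ e, c < e → ∃ x ∈ Ioo c e, fW φ B x ≠ 0)
    (hun : ∀ x₀ : ℝ, ∃ x, x₀ < x ∧ fW φ B x ≠ 0) : ShSemi φ := by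
  obtain ⟨wc, Bc, Ac, A'c⟩ := S.left_end hc hc'
  obtain ⟨hdeg, hlc⟩ := S.growth hun
  have hB0 : B ≠ 0 := by
    rintro rfl
    rw [degree_zero, le_bot_iff, degree_eq_bot] at hdeg
    exact S.A_ne hdeg
  have hnd : A.natDegree ≤ B.natDegree := natDegree_le_natDegree hdeg
  have hdb := S.deg_bound hnd hB0
  obtain ⟨A₂, hA₂⟩ := factor_two Ac A'c
  have hA₂0 : A₂ ≠ 0 := by
    rintro rfl
    apply S.A_ne
    rw [hA₂]; simp
  have hAd : A.natDegree = 2 + A₂.natDegree := by
    rw [hA₂, natDegree_mul (pow_ne_zero 2 (X_sub_C_ne_zero c)) hA₂0, natDegree_pow,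
      natDegree_X_sub_C]
  have hA₂d : A₂.natDegree = 0 := by omega
  have hBd : B.natDegree = 2 := by omega
  obtain ⟨α, hα⟩ : ∃ α : ℝ, A₂ = C α := ⟨_, eq_C_of_natDegree_eq_zero hA₂d⟩
  have hAα : A = (X - C c) ^ 2 * C α := by rw [hA₂, hα]
  have hlA : A.leadingCoeff = α := by
    rw [hAα, leadingCoeff_mul, leadingCoeff_pow, leadingCoeff_X_sub_C, leadingCoeff_C]; simp
  have hαpos : 0 < α := by rw [← hlA]; exact hpos
  have hAe : ∀ x, A.eval x = α * (x - c) ^ 2 := by
    intro x; rw [hAα]; simp; ring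
  obtain ⟨B₁, hB₁⟩ := dvd_iff_isRoot.mpr Bc
  have hB₁0 : B₁ ≠ 0 := by
    rintro rfl
    rw [mul_zero] at hB₁
    exact hB0 hB₁
  have hB₁d : B₁.natDegree = 1 := by
    rw [hB₁, natDegree_mul (X_sub_C_ne_zero c) hB₁0, natDegree_X_sub_C] at hBd
    omega
  obtain ⟨β, γ, hβγ⟩ := exists_eq_X_add_C_of_natDegree_le_one hB₁d.le
  have hlB : B.leadingCoeff = β := by
    rw [hB₁, leadingCoeff_mul, leadingCoeff_X_sub_C, one_mul, leadingCoeff, hB₁d, hβγ]
    simp
  rw [hlA, hlB] at hlc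
  have hBe : ∀ x, B.eval x = (x - c) * B₁.eval x := by
    intro x; rw [hB₁]; simp
  set P : ℝ := B₁.eval c / α with hP
  set l : ℝ := β / α with hl
  have hB₁e : ∀ x, B₁.eval x = α * (P + l * (x - c)) := by
    intro x
    rw [hP, hl, hβγ]
    simp only [eval_add, eval_mul, eval_C, eval_X]
    field_simp
    ring
  have hAnn : ∀ x, 0 ≤ A.eval x := fun x => by rw [hAe]; positivity
  have hAne : ∀ x ∈ Ioi c, A.eval x ≠ 0 := by
    intro x hx
    rw [hAe]
    have hx' : c < x := hx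
    have h1 : x - c ≠ 0 := (by linarith : 0 < x - c).ne'
    positivity
  set g : ℝ → ℝ := fun x => (x - c) ^ P * Real.exp (l * x) with hg
  have hgpos : ∀ x ∈ Ioi c, 0 < g x := fun x hx =>
    mul_pos (Real.rpow_pos_of_pos (by have : c < x := hx; linarith) _) (Real.exp_pos _)
  have hgd : ∀ x ∈ Ioi c, HasDerivAt g (B.eval x / A.eval x * g x) x := by
    intro x hx
    have hx' : c < x := hx
    have h1 : 0 < x - c := by linarith
    have e1 : HasDerivAt (fun x => (x - c) ^ P) (1 * P * (x - c) ^ (P - 1)) x :=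
      ((hasDerivAt_id x).sub_const c).rpow_const (Or.inl h1.ne')
    have e2 : HasDerivAt (fun x => Real.exp (l * x)) (Real.exp (l * x) * (l * 1)) x :=
      ((hasDerivAt_id x).const_mul l).exp
    refine (e1.mul e2).congr_deriv ?_
    rw [hBe, hAe, hB₁e, Real.rpow_sub_one h1.ne']
    simp only [hg]
    field_simp
  obtain ⟨C₀, hC₀⟩ := S.W_const isOpen_Ioi isPreconnected_Ioi hAne g hgpos hgd
  have hC₀pos : 0 < C₀ := by
    obtain ⟨x, hx, hx2⟩ := hun c
    have h1 := S.W_nonneg hAnn x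
    rw [hC₀ x hx] at h1 hx2
    have h2 := hgpos x hx
    rcases lt_trichotomy C₀ 0 with h | h | h
    · nlinarith
    · rw [h, zero_mul] at hx2; exact absurd rfl hx2
    · exact h
  have hdens : ∀ x ∈ Ioi c, fW φ B x / A.eval x
      = C₀ / α * ((x - c) ^ (P - 2) * Real.exp (l * x)) := by
    intro x hx
    have hx' : c < x := hx
    have h1 : 0 < x - c := by linarith
    have e1 : (x - c) ^ P = (x - c) ^ (P - 2) * (x - c) ^ 2 := by
      rw [← Real.rpow_natCast (x - c) 2, ← Real.rpow_add h1]; norm_num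
    rw [hC₀ x hx, hAe]
    simp only [hg]
    rw [e1]
    field_simp
  have hZ : {x | A.eval x = 0} = {c} := by
    ext x
    simp only [mem_ofPred_eq, mem_singleton_iff, hAe]
    constructor
    · intro h
      rcases mul_eq_zero.mp h with h | h
      · exact absurd h hαpos.ne'
      · have := pow_eq_zero_iff (two_ne_zero) |>.mp h; linarith
    · rintro rfl; simp
  have hform : ∀ h : ℝ[X], ∫ x, h.eval x ∂φ = φ.real {c} * h.eval c
      + C₀ / α * ∫ x in Ioi c, (x - c) ^ (P - 2) * Real.exp (l * x) * h.eval x := by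
    intro h
    rw [(S.int_formula hAnn h).2, hZ]
    congr 1
    · rw [integral_singleton, smul_eq_mul]
    · rw [← integral_const_mul]
      have hsub : Ioi c ⊆ {x | A.eval x ≠ 0} := fun x hx => hAne x hx
      have hZm : MeasurableSet {x | A.eval x ≠ 0} :=
        (A.continuous.measurable (measurableSet_singleton 0)).compl
      rw [setIntegral_eq_of_subset_of_forall_sdiff_eq_zero hZm hsub (fun x hx => ?_)]
      · refine setIntegral_congr_fun measurableSet_Ioi (fun x hx => ?_)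
        rw [hdens x hx]; ring
      · have : fW φ B x = 0 := by
          rcases lt_trichotomy x c with h1 | h1 | h1
          · exact hc x h1
          · rw [h1]; exact wc
          · exact absurd h1 hx.2
        rw [this]; simp
  have hI : IntegrableOn (fun x => fW φ B x / A.eval x) (Ioo c (c + 1)) := by
    have h1 := (S.int_formula hAnn 1).1
    simp only [eval_one, mul_one] at h1
    exact h1.mono_set (fun x hx => hAne x hx.1)
  have hp : -1 < P - 2 := by
    refine exponent (by linarith) hI (G := fun x => C₀ / α * Real.exp (l * x))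
      (G₀ := C₀ / α * Real.exp (l * c)) (fun x hx => by rw [hdens x hx.1]; ring) ?_ ?_
    · have : ContinuousAt (fun x => C₀ / α * Real.exp (l * x)) c := by fun_prop
      exact this.tendsto.mono_left nhdsWithin_le_nhds
    · positivity
  have hleft : φ (Iio c) = 0 := S.null_of hAnn measurableSet_Iio (fun x hx => by
    have hx' : x < c := hx
    rw [hAe]
    have h1 : x - c ≠ 0 := (by linarith : x - c < 0).ne
    positivity) (fun x hx => hc x hx)
  refine ⟨c, C₀ / α, P - 2, l, φ.real {c}, by positivity, hp, hlc, measureReal_nonneg, ?_, hform⟩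
  intro hm
  have hm' : 0 < φ.real {c} := lt_of_le_of_ne measureReal_nonneg (Ne.symm hm)
  have h1 := S.atom (c := c) (d := c + 1) (by linarith) hleft hm' (C α) B₁ hAα (by simp [hαpos.ne'])
    hB₁ (fun x hx => hAne x hx.1) (fun x => C₀ * Real.exp (l * x)) (C₀ * Real.exp (l * c)) (by
      have : ContinuousAt (fun x => C₀ * Real.exp (l * x)) c := by fun_prop
      exact this.tendsto.mono_left nhdsWithin_le_nhds) (by positivity) P (by
      rw [eval_C, hP]; field_simp) (by linarith) (by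
      intro x hx
      rw [hC₀ x hx.1]; simp only [hg]; ring)
  rw [h1.1]; norm_num

theorem caseSemi' (S : Sys φ A B a₂ a₁) {c : ℝ}
    (hc : ∀ x < c, fW φ B x = 0) (hc' : ∀ e, c < e → ∃ x ∈ Ioo c e, fW φ B x ≠ 0)
    (hun : ∀ x₀ : ℝ, ∃ x, x₀ < x ∧ fW φ B x ≠ 0) : ShSemi φ := by
  rcases S.lc_pos_or with h | h
  · exact S.caseSemi h hc hc' hun
  · refine S.neg.caseSemi h (fun x hx => by rw [fW_neg, hc x hx, neg_zero]) (fun e he => ?_)
      (fun x₀ => ?_)
    · obtain ⟨x, hx, hx2⟩ := hc' e he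
      exact ⟨x, hx, by rw [fW_neg]; exact neg_ne_zero.mpr hx2⟩
    · obtain ⟨x, hx, hx2⟩ := hun x₀
      exact ⟨x, hx, by rw [fW_neg]; exact neg_ne_zero.mpr hx2⟩

theorem caseInf (S : Sys φ A B a₂ a₁) (hpos : 0 < A.leadingCoeff)
    (hun : ∀ x₀ : ℝ, ∃ x, x₀ < x ∧ fW φ B x ≠ 0)
    (hun' : ∀ x₀ : ℝ, ∃ x, x < x₀ ∧ fW φ B x ≠ 0) : ShInf φ := by
  obtain ⟨hdeg, hlc⟩ := S.growth hun
  obtain ⟨-, hlc'⟩ := S.refl.growth (fun x₀ => by
    obtain ⟨x, hx, hx2⟩ := hun' (-x₀)
    exact ⟨-x, by linarith, by rw [S.W_refl, neg_neg]; exact hx2⟩)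
  have hB0 : B ≠ 0 := by
    rintro rfl
    rw [degree_zero, le_bot_iff, degree_eq_bot] at hdeg
    exact S.A_ne hdeg
  have hnd : A.natDegree ≤ B.natDegree := natDegree_le_natDegree hdeg
  have hdb := S.deg_bound hnd hB0
  have hX : (-X : ℝ[X]).natDegree ≠ 0 := by rw [natDegree_neg, natDegree_X]; exact one_ne_zero
  rw [leadingCoeff_neg, leadingCoeff_comp hX, leadingCoeff_comp hX, leadingCoeff_neg,
    leadingCoeff_X] at hlc'
  have hne : A.natDegree ≠ B.natDegree := by
    intro h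
    rw [h] at hlc'
    have h1 : ((-1 : ℝ) ^ B.natDegree) ≠ 0 := pow_ne_zero _ (by norm_num)
    have h2 : -(B.leadingCoeff * (-1) ^ B.natDegree) / (A.leadingCoeff * (-1) ^ B.natDegree)
        = -(B.leadingCoeff / A.leadingCoeff) := by
      have := hpos.ne'
      field_simp
    rw [h2] at hlc'
    linarith
  have hAd : A.natDegree = 0 := by omega
  have hBd : B.natDegree = 1 := by omega
  obtain ⟨α, hα⟩ : ∃ α : ℝ, A = C α := ⟨_, eq_C_of_natDegree_eq_zero hAd⟩
  have hαpos : 0 < α := by rw [hα, leadingCoeff_C] at hpos; exact hpos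
  obtain ⟨β, γ, hβγ⟩ := exists_eq_X_add_C_of_natDegree_le_one hBd.le
  have hlB : B.leadingCoeff = β := by
    rw [leadingCoeff, hBd, hβγ]; simp
  rw [hlB, hα, leadingCoeff_C] at hlc
  have hAe : ∀ x, A.eval x = α := by intro x; rw [hα]; simp
  have hBe : ∀ x, B.eval x = β * x + γ := by intro x; rw [hβγ]; simp
  have hAnn : ∀ x, 0 ≤ A.eval x := fun x => by rw [hAe]; exact hαpos.le
  have hAne : ∀ x ∈ (univ : Set ℝ), A.eval x ≠ 0 := fun x _ => by rw [hAe]; exact hαpos.ne'
  set g : ℝ → ℝ := fun x => Real.exp (β / (2 * α) * x ^ 2 + γ / α * x) with hg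
  have hgd : ∀ x ∈ (univ : Set ℝ), HasDerivAt g (B.eval x / A.eval x * g x) x := by
    intro x _
    have e1 : HasDerivAt (fun x : ℝ => β / (2 * α) * x ^ 2 + γ / α * x)
        (β / (2 * α) * (((2 : ℕ) : ℝ) * x ^ (2 - 1)) + γ / α * 1) x :=
      ((hasDerivAt_pow 2 x).const_mul _).add ((hasDerivAt_id x).const_mul _)
    refine e1.exp.congr_deriv ?_
    rw [hAe, hBe]
    simp only [hg]
    field_simp
    norm_num
    ring
  obtain ⟨C₀, hC₀⟩ := S.W_const isOpen_univ isPreconnected_univ hAne g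
    (fun x _ => Real.exp_pos _) hgd
  have hC₀pos : 0 < C₀ := by
    obtain ⟨x, -, hx2⟩ := hun 0
    have h1 := S.W_nonneg hAnn x
    rw [hC₀ x (mem_univ x)] at h1 hx2
    have h2 : 0 < g x := Real.exp_pos _
    rcases lt_trichotomy C₀ 0 with h | h | h
    · nlinarith
    · rw [h, zero_mul] at hx2; exact absurd rfl hx2
    · exact h
  refine ⟨C₀ / α, β / (2 * α), γ / α, by positivity, ?_, ?_⟩
  · have : β / (2 * α) = (β / α) / 2 := by field_simp
    rw [this]; linarith
  · intro h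
    rw [(S.int_formula hAnn h).2]
    have h1 : {x | A.eval x = 0} = ∅ := by
      ext x; simp [hAe, hαpos.ne']
    have h2 : {x | A.eval x ≠ 0} = univ := by
      ext x; simp [hAe, hαpos.ne']
    rw [h1, h2, Measure.restrict_empty, integral_zero_measure, zero_add, Measure.restrict_univ,
      ← integral_const_mul]
    refine integral_congr_ae (Eventually.of_forall fun x => ?_)
    change fW φ B x / A.eval x * h.eval x = _
    rw [hC₀ x (mem_univ x), hAe]
    simp only [hg]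
    ring

theorem caseInf' (S : Sys φ A B a₂ a₁)
    (hun : ∀ x₀ : ℝ, ∃ x, x₀ < x ∧ fW φ B x ≠ 0)
    (hun' : ∀ x₀ : ℝ, ∃ x, x < x₀ ∧ fW φ B x ≠ 0) : ShInf φ := by
  rcases S.lc_pos_or with h | h
  · exact S.caseInf h hun hun'
  · refine S.neg.caseInf h (fun x₀ => ?_) (fun x₀ => ?_)
    · obtain ⟨x, hx, hx2⟩ := hun x₀
      exact ⟨x, hx, by rw [fW_neg]; exact neg_ne_zero.mpr hx2⟩
    · obtain ⟨x, hx, hx2⟩ := hun' x₀
      exact ⟨x, hx, by rw [fW_neg]; exact neg_ne_zero.mpr hx2⟩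

lemma inf_facts (S : Sys φ A B a₂ a₁) (hb : BddBelow {x | fW φ B x ≠ 0}) :
    (∀ x < sInf {x | fW φ B x ≠ 0}, fW φ B x = 0) ∧
    ∀ e, sInf {x | fW φ B x ≠ 0} < e → ∃ x ∈ Ioo (sInf {x | fW φ B x ≠ 0}) e, fW φ B x ≠ 0 := by
  set N := {x | fW φ B x ≠ 0} with hN
  have hne : N.Nonempty := S.W_ne
  have h1 : ∀ x < sInf N, fW φ B x = 0 := by
    intro x hx
    by_contra h
    exact absurd (csInf_le hb (show x ∈ N from h)) (not_le.mpr hx)
  refine ⟨h1, fun e he => ?_⟩
  have hwc : fW φ B (sInf N) = 0 := by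
    have h2 : Tendsto (fW φ B) (𝓝[<] (sInf N)) (𝓝 (fW φ B (sInf N))) :=
      (S.W_cont.tendsto _).mono_left nhdsWithin_le_nhds
    refine tendsto_nhds_unique h2 (tendsto_nhds_of_eventually_eq ?_)
    filter_upwards [self_mem_nhdsWithin] with t ht
    exact h1 t ht
  obtain ⟨x, hx, hxe⟩ := exists_lt_of_csInf_lt hne he
  refine ⟨x, ⟨lt_of_le_of_ne (csInf_le hb hx) ?_, hxe⟩, hx⟩
  intro h
  rw [← h] at hx
  exact hx hwc

/-- the classification theorem -/
theorem classify (S : Sys φ A B a₂ a₁) :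
    ShFin φ ∨ ShSemi φ ∨ ShSemi (φ.map (fun x => -x)) ∨ ShInf φ := by
  set N := {x | fW φ B x ≠ 0} with hN
  set N' := {x | fW (φ.map (fun x => -x)) (-B.comp (-X)) x ≠ 0} with hN'
  have hNN' : ∀ x, x ∈ N' ↔ -x ∈ N := by
    intro x
    simp only [hN, hN', mem_ofPred_eq, S.W_refl]
  have unb : ¬ BddAbove N → ∀ x₀ : ℝ, ∃ x, x₀ < x ∧ fW φ B x ≠ 0 := by
    intro h x₀
    rw [not_bddAbove_iff] at h
    obtain ⟨x, hx, hx2⟩ := h x₀
    exact ⟨x, hx2, hx⟩
  by_cases hb : BddBelow N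
  · obtain ⟨f1, f2⟩ := S.inf_facts hb
    by_cases ha : BddAbove N
    · left
      have hb' : BddBelow N' := by
        obtain ⟨M, hM⟩ := ha
        refine ⟨-M, fun x hx => ?_⟩
        have := hM ((hNN' x).mp hx)
        linarith
      obtain ⟨g1, g2⟩ := S.refl.inf_facts hb'
      set d := -sInf N' with hd
      have hd1 : ∀ x, d < x → fW φ B x = 0 := by
        intro x hx
        have := g1 (-x) (by linarith)
        rwa [S.W_refl, neg_neg] at this
      have hd2 : ∀ e, e < d → ∃ x ∈ Ioo e d, fW φ B x ≠ 0 := by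
        intro e he
        obtain ⟨x, hx, hx2⟩ := g2 (-e) (by change sInf N' < -e; linarith)
        refine ⟨-x, ⟨by linarith [hx.2], by have := hx.1; change sInf N' < x at this; linarith⟩, ?_⟩
        rwa [S.W_refl] at hx2
      have hcd : sInf N < d := by
        obtain ⟨x, hx, hx2⟩ := f2 (sInf N + 1) (by change sInf N < sInf N + 1; linarith)
        by_contra hcon
        exact hx2 (hd1 x (lt_of_le_of_lt (not_lt.mp hcon) hx.1))
      exact S.caseFin' hcd f1 f2 hd1 hd2
    · right; left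
      exact S.caseSemi' f1 f2 (unb ha)
  · right; right
    have unb' : ∀ x₀ : ℝ, ∃ x, x < x₀ ∧ fW φ B x ≠ 0 := by
      intro x₀
      rw [not_bddBelow_iff] at hb
      obtain ⟨x, hx, hx2⟩ := hb x₀
      exact ⟨x, hx2, hx⟩
    by_cases ha : BddAbove N
    · left
      have hb' : BddBelow N' := by
        obtain ⟨M, hM⟩ := ha
        refine ⟨-M, fun x hx => ?_⟩
        have := hM ((hNN' x).mp hx)
        linarith
      obtain ⟨g1, g2⟩ := S.refl.inf_facts hb'
      refine S.refl.caseSemi' g1 g2 (fun x₀ => ?_)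
      obtain ⟨x, hx, hx2⟩ := unb' (-x₀)
      exact ⟨-x, by linarith, by rw [S.W_refl, neg_neg]; exact hx2⟩
    · right
      exact S.caseInf' (unb ha) unb'

end Sys

end Pool.Agent.X116.Kl
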