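import Mathlib

/-!
# Sobolev products of order two and fourth order differential equations
-/

open Polynomial MeasureTheory

namespace Pool.Agent.X116.Kr

/-- commutator with the multiplication by `X` -/
noncomputable def ad (T : ℝ[X] →ₗ[ℝ] ℝ[X]) : ℝ[X] →ₗ[ℝ] ℝ[X] :=
  T ∘ₗ (LinearMap.mulLeft ℝ (X : ℝ[X])) - (LinearMap.mulLeft ℝ (X : ℝ[X])) ∘ₗ T

lemma ad_apply (T : ℝ[X] →ₗ[ℝ] ℝ[X]) (f : ℝ[X]) : ad T f = T (X * f) - X * T f := by
  simp [ad]

/-- an operator commuting with `X` is a multiplication -/
lemma eq_mul_of_ad_zero {T : ℝ[X] →ₗ[ℝ] ℝ[X]} (h : ∀ f, ad T f = 0) (f : ℝ[X]) :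
    T f = T 1 * f := by
  have hX : ∀ f, T (X * f) = X * T f := fun f => by
    have := h f
    rw [ad_apply] at this
    exact sub_eq_zero.mp this
  induction f using Polynomial.induction_on' with
  | add p q hp hq => rw [map_add, hp, hq, mul_add]
  | monomial n a =>
    have h1 : ∀ n : ℕ, T (X ^ n) = T 1 * X ^ n := by
      intro n
      induction n with
      | zero => simp
      | succ n ih => rw [pow_succ', hX, ih]; ring
    rw [← C_mul_X_pow_eq_monomial, ← smul_eq_C_mul, map_smul, h1, smul_eq_C_mul, smul_eq_C_mul]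
    ring

lemma der_comm (k : ℕ) (f : ℝ[X]) :
    derivative^[k + 1] (X * f) = X * derivative^[k + 1] f + ((k : ℝ[X]) + 1) * derivative^[k] f := by
  induction k with
  | zero => simp [derivative_mul]; ring
  | succ k ih =>
    rw [Function.iterate_succ_apply', ih, derivative_add, derivative_mul, derivative_mul]
    simp only [derivative_X, one_mul, derivative_add, derivative_natCast, derivative_one, add_zero,
      zero_mul, zero_add, ← Function.iterate_succ_apply' derivative]
    push_cast
    ring

end Pool.Agent.X116.Kr
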