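import Pool.Agent.X116.KrA

/-!
# The commutator chain
-/

open Polynomial MeasureTheory Finset

namespace Pool.Agent.X116.Kr

/-- an operator whose commutator with `X` is a differential operator is a differential operator -/
lemma step (T : ℝ[X] →ₗ[ℝ] ℝ[X]) (m : ℕ) (b : ℕ → ℝ[X])
    (h : ∀ f, ad T f = ∑ k ∈ range m, b k * derivative^[k] f) (f : ℝ[X]) :
    T f = T 1 * f + ∑ k ∈ range m, C (1 / ((k : ℝ) + 1)) * b k * derivative^[k + 1] f := by
  -- the difference
  let S : ℝ[X] →ₗ[ℝ] ℝ[X] := T - ∑ k ∈ range m,
    (LinearMap.mulLeft ℝ (C (1 / ((k : ℝ) + 1)) * b k)) ∘ₗ (derivative ^ (k + 1) : ℝ[X] →ₗ[ℝ] ℝ[X])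
  have hS : ∀ f, S f = T f - ∑ k ∈ range m, C (1 / ((k : ℝ) + 1)) * b k * derivative^[k + 1] f := by
    intro f
    simp [S, Module.End.pow_apply, mul_assoc]
  have hS0 : ∀ f, ad S f = 0 := by
    intro f
    have h1 := h f
    rw [ad_apply] at h1 ⊢
    rw [hS, hS]
    have h2 : ∀ k ∈ range m, C (1 / ((k : ℝ) + 1)) * b k * derivative^[k + 1] (X * f)
        = X * (C (1 / ((k : ℝ) + 1)) * b k * derivative^[k + 1] f) + b k * derivative^[k] f := by
      intro k _
      rw [der_comm]
      have h3 : (C (1 / ((k : ℝ) + 1)) : ℝ[X]) * ((k : ℝ[X]) + 1) = 1 := by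
        have h4 : ((k : ℝ[X]) + 1) = C ((k : ℝ) + 1) := by simp
        rw [h4, ← C_mul]
        have h5 : (k : ℝ) + 1 ≠ 0 := by positivity
        rw [one_div, inv_mul_cancel₀ h5, C_1]
      linear_combination (b k * derivative^[k] f) * h3
    rw [Finset.sum_congr rfl h2, Finset.sum_add_distrib, ← Finset.mul_sum]
    linear_combination h1
  have h1 := eq_mul_of_ad_zero hS0 f
  have h2 : S 1 = T 1 := by
    rw [hS]
    have : ∀ k ∈ range m, C (1 / ((k : ℝ) + 1)) * b k * derivative^[k + 1] (1 : ℝ[X]) = 0 := by
      intro k _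
      rw [Function.iterate_succ_apply, derivative_one]
      simp
    rw [Finset.sum_eq_zero this, sub_zero]
  rw [hS, h2] at h1
  linear_combination h1

/-- the structure theorem in terms of moment functionals -/
theorem chain (Φ Ψ H : ℝ[X] →ₗ[ℝ] ℝ) (hnd : ∀ q : ℝ[X], Φ (q * q) = 0 → q = 0)
    (L : ℝ[X] →ₗ[ℝ] ℝ[X])
    (hL : ∀ f g : ℝ[X], Φ (L f * g) = Ψ (derivative f * derivative g)
      + H (derivative (derivative f) * derivative (derivative g))) :
    ∃ a₁ a₂ a₃ a₄ : ℝ[X],
      (∀ f, L f = a₄ * derivative^[4] f + a₃ * derivative^[3] f + a₂ * derivative^[2] f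
        + a₁ * derivative f) ∧
      (∀ f, H f = Φ (a₄ * f)) ∧ (∀ f, Φ (2 * a₄ * derivative f + a₃ * f) = 0) ∧
      (∀ f, Ψ (derivative f) = Φ (a₁ * f)) := by
  set C1 := ad L with hC1
  set C2 := ad C1 with hC2
  set C3 := ad C2 with hC3
  set C4 := ad C3 with hC4
  have e1 : ∀ f g, Φ (C1 f * g) = Ψ (f * derivative g - derivative f * g)
      + 2 * H (derivative f * derivative (derivative g) - derivative (derivative f) * derivative g) := by
    intro f g
    rw [hC1, ad_apply, sub_mul, map_sub, hL, show X * L f * g = L f * (X * g) by ring, hL,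
      show (2 : ℝ) * H (derivative f * derivative (derivative g)
        - derivative (derivative f) * derivative g) = H (2 * (derivative f * derivative (derivative g)
        - derivative (derivative f) * derivative g)) by rw [two_mul, two_mul, map_add]]
    rw [show ∀ a b c d : ℝ, a + b - (c + d) = (a - c) + (b - d) from fun a b c d => by ring,
      ← map_sub, ← map_sub]
    congr 2
    · simp only [derivative_mul, derivative_X]; ring
    · simp only [derivative_mul, derivative_X, derivative_add, derivative_one]; ring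
  have e2 : ∀ f g, Φ (C2 f * g) = Ψ (-(2 * (f * g)))
      + 2 * H (f * derivative (derivative g) + derivative (derivative f) * g
        - 4 * (derivative f * derivative g)) := by
    intro f g
    rw [hC2, ad_apply, sub_mul, map_sub, e1, show X * C1 f * g = C1 f * (X * g) by ring, e1]
    rw [show ∀ a b c d : ℝ, a + 2 * b - (c + 2 * d) = (a - c) + 2 * (b - d) from
      fun a b c d => by ring, ← map_sub, ← map_sub]
    congr 3
    · simp only [derivative_mul, derivative_X]; ring
    · simp only [derivative_mul, derivative_X, derivative_add, derivative_one]; ring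
  have e3 : ∀ f g, Φ (C3 f * g) = 12 * H (derivative f * g - f * derivative g) := by
    intro f g
    rw [hC3, ad_apply, sub_mul, map_sub, e2, show X * C2 f * g = C2 f * (X * g) by ring, e2]
    rw [show ∀ a b c d : ℝ, a + 2 * b - (c + 2 * d) = (a - c) + 2 * (b - d) from
      fun a b c d => by ring, ← map_sub, ← map_sub]
    have h1 : -(2 * (X * f * g)) - -(2 * (f * (X * g))) = 0 := by ring
    have h2 : (X * f * derivative (derivative g) + derivative (derivative (X * f)) * g
        - 4 * (derivative (X * f) * derivative g)) - (f * derivative (derivative (X * g))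
        + derivative (derivative f) * (X * g) - 4 * (derivative f * derivative (X * g)))
        = (6 : ℝ) • (derivative f * g - f * derivative g) := by
      rw [smul_eq_C_mul, C_ofNat]
      simp only [derivative_mul, derivative_X, derivative_add, derivative_one]; ring
    rw [h1, h2, map_zero, map_smul, smul_eq_mul]
    ring
  have e4 : ∀ f g, Φ (C4 f * g) = 24 * H (f * g) := by
    intro f g
    rw [hC4, ad_apply, sub_mul, map_sub, e3, show X * C3 f * g = C3 f * (X * g) by ring, e3]
    rw [show ∀ a b : ℝ, 12 * a - 12 * b = 12 * (a - b) from fun a b => by ring, ← map_sub]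
    have h2 : (derivative (X * f) * g - X * f * derivative g)
        - (derivative f * (X * g) - f * derivative (X * g)) = (2 : ℝ) • (f * g) := by
      rw [smul_eq_C_mul, C_ofNat]
      simp only [derivative_mul, derivative_X]; ring
    rw [h2, map_smul, smul_eq_mul]
    ring
  have e5 : ∀ f, ad C4 f = 0 := by
    intro f
    apply hnd
    rw [ad_apply, sub_mul, map_sub, e4, show X * C4 f * (C4 (X * f) - X * C4 f)
      = C4 f * (X * (C4 (X * f) - X * C4 f)) by ring, e4]
    rw [show X * f * (C4 (X * f) - X * C4 f) = f * (X * (C4 (X * f) - X * C4 f)) by ring, sub_self]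
  have g4 : ∀ f, C4 f = C4 1 * f := eq_mul_of_ad_zero e5
  have g3 := step C3 1 (fun _ => C4 1) (fun f => by
    rw [← hC4, g4 f]; simp)
  have g2 := step C2 2 (fun k => if k = 0 then C3 1 else C4 1) (fun f => by
    rw [← hC3, g3 f]; simp [Finset.sum_range_succ])
  have g1 := step C1 3 (fun k => if k = 0 then C2 1 else if k = 1 then C3 1
      else C (1 / 2) * C4 1) (fun f => by
    rw [← hC2, g2 f]; simp [Finset.sum_range_succ]; norm_num; ring)
  have g0 := step L 4 (fun k => if k = 0 then C1 1 else if k = 1 then C2 1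
      else if k = 2 then C (1 / 2) * C3 1 else C (1 / 6) * C4 1) (fun f => by
    rw [← hC1, g1 f]; simp [Finset.sum_range_succ]; norm_num
    rw [← mul_assoc (C _) (C _), ← C_mul]; norm_num; ring)
  have hL1 : L 1 = 0 := by
    apply hnd
    rw [hL]
    simp
  refine ⟨C1 1, C (1 / 2) * C2 1, C (1 / 6) * C3 1, C (1 / 24) * C4 1, fun f => ?_, fun f => ?_,
    fun f => ?_, fun f => ?_⟩
  · rw [g0 f, hL1]
    simp [Finset.sum_range_succ]
    norm_num
    rw [← mul_assoc (C _) (C _), ← C_mul, ← mul_assoc (C _) (C _), ← C_mul]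
    norm_num
    ring
  · have h1 := e4 1 f
    rw [one_mul] at h1
    rw [mul_assoc, ← smul_eq_C_mul, map_smul, h1, smul_eq_mul]
    ring
  · have h1 := e4 1 (derivative f)
    have h2 := e3 1 f
    rw [one_mul] at h1
    simp only [derivative_one, zero_mul, one_mul, zero_sub, map_neg] at h2
    rw [map_add, show 2 * (C (1 / 24) * C4 1) * derivative f = (1 / 12 : ℝ) • (C4 1 * derivative f) by
      rw [smul_eq_C_mul, show (1 / 12 : ℝ) = 2 * (1 / 24) by norm_num, C_mul, C_ofNat]; ring,
      map_smul, h1, mul_assoc, ← smul_eq_C_mul, map_smul, h2, smul_eq_mul, smul_eq_mul]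
    ring
  · have h1 := e1 1 f
    simp only [derivative_one, zero_mul, one_mul, sub_zero, map_zero, mul_zero, add_zero,
      sub_self] at h1
    exact h1.symm

end Pool.Agent.X116.Kr
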