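import Pool.Agent.X116.KrB

/-!
# From orthogonal sequences to the operator
-/

open Polynomial MeasureTheory Finset

namespace Pool.Agent.X116.Kr

theorem exists_op (Φ Ψ H : ℝ[X] →ₗ[ℝ] ℝ) (p : ℕ → ℝ[X]) (hdeg : ∀ n, (p n).degree = (n : WithBot ℕ))
    (h0 : ∀ n, Φ (p n * p n) ≠ 0) (h1 : ∀ n m, n ≠ m → Φ (p n * p m) = 0)
    (h2 : ∀ n m, n ≠ m → Ψ (derivative (p n) * derivative (p m))
      + H (derivative (derivative (p n)) * derivative (derivative (p m))) = 0) :
    ∃ (L : ℝ[X] →ₗ[ℝ] ℝ[X]) (lam : ℕ → ℝ), (∀ n, L (p n) = C (lam n) * p n) ∧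
      (∀ n, ∀ f : ℝ[X], f.natDegree ≤ n → (L f).natDegree ≤ n) ∧
      ∀ f g : ℝ[X], Φ (L f * g) = Ψ (derivative f * derivative g)
        + H (derivative (derivative f) * derivative (derivative g)) := by
  let S : Polynomial.Sequence ℝ := ⟨p, hdeg⟩
  have hS : ∀ n, S n = p n := fun n => rfl
  have hlc : ∀ i, IsUnit (S i).leadingCoeff := by
    intro i
    rw [isUnit_iff_ne_zero, leadingCoeff_ne_zero, hS]
    intro h
    have := hdeg i
    rw [h, degree_zero] at this
    exact absurd this.symm (WithBot.natCast_ne_bot i)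
  let bb := S.basis hlc
  have hbb : ∀ n, bb n = p n := fun n => by
    simp only [bb, Polynomial.Sequence.basis_eq_self]
    rfl
  set lam : ℕ → ℝ := fun n => (Ψ (derivative (p n) * derivative (p n))
      + H (derivative (derivative (p n)) * derivative (derivative (p n)))) / Φ (p n * p n) with hlam
  let L : ℝ[X] →ₗ[ℝ] ℝ[X] := bb.constr ℝ fun n => C (lam n) * p n
  have hLp : ∀ n, L (p n) = C (lam n) * p n := by
    intro n
    have := bb.constr_basis ℝ (fun n => C (lam n) * p n) n
    rw [hbb] at this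
    exact this
  refine ⟨L, lam, hLp, ?_, ?_⟩
  · intro n
    induction n with
    | zero =>
      intro f hf
      have hp0 : (p 0).natDegree = 0 := natDegree_eq_of_degree_eq_some (hdeg 0)
      obtain ⟨c, hc⟩ : ∃ c, p 0 = C c := ⟨_, eq_C_of_natDegree_eq_zero hp0⟩
      obtain ⟨d, hd⟩ : ∃ d, f = C d := ⟨_, eq_C_of_natDegree_le_zero hf⟩
      have hc0 : c ≠ 0 := by
        rintro rfl
        have := hdeg 0
        rw [hc, C_0, degree_zero] at this
        exact absurd this.symm (WithBot.natCast_ne_bot 0)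
      have hf' : f = (d / c) • p 0 := by
        rw [hd, hc, smul_C, smul_eq_mul, div_mul_cancel₀ d hc0]
      rw [hf', map_smul, hLp, hc]
      rw [← C_mul, smul_C, natDegree_C]
    | succ n ih =>
      intro f hf
      have hpn : (p (n + 1)).natDegree = n + 1 := natDegree_eq_of_degree_eq_some (hdeg (n + 1))
      have hlcn : (p (n + 1)).coeff (n + 1) ≠ 0 := by
        have := hlc (n + 1)
        rw [isUnit_iff_ne_zero, hS, leadingCoeff, hpn] at this
        exact this
      set c : ℝ := f.coeff (n + 1) / (p (n + 1)).coeff (n + 1) with hc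
      have hg : (f - c • p (n + 1)).natDegree ≤ n := by
        rw [natDegree_le_iff_coeff_eq_zero]
        intro N hN
        rcases Nat.lt_or_ge (n + 1) N with h | h
        · rw [coeff_sub, coeff_smul, coeff_eq_zero_of_natDegree_lt (lt_of_le_of_lt hf h),
            coeff_eq_zero_of_natDegree_lt (by rw [hpn]; exact h)]
          simp
        · have : N = n + 1 := by omega
          rw [this, coeff_sub, coeff_smul, smul_eq_mul, hc, div_mul_cancel₀ _ hlcn, sub_self]
      have hf' : L f = L (f - c • p (n + 1)) + c • (C (lam (n + 1)) * p (n + 1)) := by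
        rw [map_sub, map_smul, hLp, sub_add_cancel]
      rw [hf']
      refine natDegree_add_le_of_degree_le ((ih _ hg).trans (Nat.le_succ n)) ?_
      refine (natDegree_smul_le _ _).trans ?_
      exact (natDegree_C_mul_le _ _).trans hpn.le
  · -- the bilinear identity
    let A1 : ℝ[X] →ₗ[ℝ] ℝ[X] →ₗ[ℝ] ℝ :=
      ((LinearMap.mul ℝ ℝ[X]).compl₁₂ L LinearMap.id).compr₂ Φ
    let A2 : ℝ[X] →ₗ[ℝ] ℝ[X] →ₗ[ℝ] ℝ :=
      ((LinearMap.mul ℝ ℝ[X]).compl₁₂ (derivative : ℝ[X] →ₗ[ℝ] ℝ[X]) derivative).compr₂ Ψ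
      + ((LinearMap.mul ℝ ℝ[X]).compl₁₂ ((derivative : ℝ[X] →ₗ[ℝ] ℝ[X]) ∘ₗ derivative)
          ((derivative : ℝ[X] →ₗ[ℝ] ℝ[X]) ∘ₗ derivative)).compr₂ H
    have hA : A1 = A2 := by
      refine bb.ext fun n => bb.ext fun m => ?_
      rw [hbb, hbb]
      simp only [A1, A2, LinearMap.compr₂_apply, LinearMap.compl₁₂_apply, LinearMap.mul_apply',
        LinearMap.id_apply, LinearMap.add_apply, LinearMap.comp_apply]
      rw [hLp, mul_assoc, ← smul_eq_C_mul, map_smul, smul_eq_mul]
      rcases eq_or_ne n m with rfl | hnm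
      · rw [hlam]
        simp only
        rw [div_mul_cancel₀ _ (h0 n)]
      · rw [h1 n m hnm, mul_zero, h2 n m hnm]
    intro f g
    have := congrArg (fun T : ℝ[X] →ₗ[ℝ] ℝ[X] →ₗ[ℝ] ℝ => T f g) hA
    simpa only [A1, A2, LinearMap.compr₂_apply, LinearMap.compl₁₂_apply, LinearMap.mul_apply',
        LinearMap.id_apply, LinearMap.add_apply, LinearMap.comp_apply] using this

lemma poly_int {μ : Measure ℝ} (h : ∀ k : ℕ, Integrable (fun x : ℝ => x ^ k) μ) (f : ℝ[X]) :
    Integrable (fun x => f.eval x) μ := by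
  induction f using Polynomial.induction_on' with
  | add p q hp hq => simp only [eval_add]; exact hp.add hq
  | monomial n a => simp only [eval_monomial]; exact (h n).const_mul a

/-- the moment functional -/
noncomputable def Fn (μ : Measure ℝ) (h : ∀ k : ℕ, Integrable (fun x : ℝ => x ^ k) μ) :
    ℝ[X] →ₗ[ℝ] ℝ where
  toFun f := ∫ x, f.eval x ∂μ
  map_add' f g := by
    simp only [eval_add]
    exact integral_add (poly_int h f) (poly_int h g)
  map_smul' c f := by
    simp only [eval_smul, smul_eq_mul, RingHom.id_apply]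
    exact integral_const_mul c _

lemma Fn_apply (μ : Measure ℝ) (h : ∀ k : ℕ, Integrable (fun x : ℝ => x ^ k) μ) (f : ℝ[X]) :
    Fn μ h f = ∫ x, f.eval x ∂μ := rfl

lemma Fn_nd (μ : Measure ℝ) (h : ∀ k : ℕ, Integrable (fun x : ℝ => x ^ k) μ)
    (hs : ∀ s : Finset ℝ, μ ((↑s : Set ℝ)ᶜ) ≠ 0) (q : ℝ[X]) (hq : Fn μ h (q * q) = 0) : q = 0 := by
  by_contra hne
  rw [Fn_apply] at hq
  have hnn : 0 ≤ fun x => (q * q).eval x := fun x => by
    simp only [Pi.zero_apply, eval_mul]
    exact mul_self_nonneg _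
  rw [integral_eq_zero_iff_of_nonneg hnn (poly_int h _)] at hq
  apply hs q.roots.toFinset
  rw [Filter.EventuallyEq, ae_iff] at hq
  refine measure_mono_null (fun x hx => ?_) hq
  rw [Set.mem_compl_iff, Finset.mem_coe, Multiset.mem_toFinset, mem_roots hne] at hx
  simp only [Set.mem_ofPred_eq, eval_mul, Pi.zero_apply, mul_self_eq_zero]
  exact hx

end Pool.Agent.X116.Kr
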