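import Pool.Agent.X297.LO.Stm

set_option autoImplicit false

namespace Pool.Agent.X116.LoLift

open Pool.Agent.X297.LO

lemma cnt_split (N : ℤ) {m₀ L : ℕ} (s : Fin m₀ → ℤ) (a b c k : ℤ) :
    cnt (fun p : Fin m₀ × Fin L => s p.1 + N * ((p.2 : ℕ) : ℤ)) a b c k
      = ∑ q : Fin m₀ × Fin m₀ × Fin m₀, Nat.card {r : Fin L × Fin L × Fin L //
          N * (a * ((r.1 : ℕ) : ℤ) + b * ((r.2.1 : ℕ) : ℤ) + c * ((r.2.2 : ℕ) : ℤ))
            = k - (a * s q.1 + b * s q.2.1 + c * s q.2.2)} := by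
  unfold cnt
  rw [← Nat.card_sigma]
  refine Nat.card_congr
    { toFun := fun p => ⟨(p.1.1.1, p.1.2.1.1, p.1.2.2.1), ⟨(p.1.1.2, p.1.2.1.2, p.1.2.2.2), ?_⟩⟩
      invFun := fun p => ⟨((p.1.1, p.2.1.1), (p.1.2.1, p.2.1.2.1), (p.1.2.2, p.2.1.2.2)), ?_⟩
      left_inv := fun p => rfl
      right_inv := fun p => rfl }
  · have h := p.2
    simp only [smul_eq_mul] at h
    simp only
    linarith
  · have h := p.2.2
    simp only [smul_eq_mul]
    linarith

lemma sum_ind {α : Type} [Fintype α] (P : α → Prop) (C : ℕ) (f : α → ℕ) (h0 : ∀ q, ¬ P q → f q = 0)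
    (h1 : ∀ q, P q → f q ≤ C) : ∑ q, f q ≤ Nat.card {q // P q} * C := by
  classical
  rw [Nat.card_eq_fintype_card, Fintype.card_subtype]
  calc ∑ q, f q = ∑ q ∈ Finset.univ.filter P, f q := by
        rw [Finset.sum_filter]
        apply Finset.sum_congr rfl
        intro q _
        split_ifs with h
        · rfl
        · exact h0 q h
    _ ≤ ∑ q ∈ Finset.univ.filter P, C := Finset.sum_le_sum fun q hq => h1 q (Finset.mem_filter.1 hq).2
    _ = _ := by rw [Finset.sum_const, smul_eq_mul]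

lemma sum_ind_ge {α : Type} [Fintype α] (P : α → Prop) (C : ℤ) (f : α → ℕ)
    (h1 : ∀ q, P q → C ≤ (f q : ℤ)) : (Nat.card {q // P q} : ℤ) * C ≤ ((∑ q, f q : ℕ) : ℤ) := by
  classical
  rw [Nat.card_eq_fintype_card, Fintype.card_subtype]
  calc ((Finset.univ.filter P).card : ℤ) * C = ∑ q ∈ Finset.univ.filter P, C := by
        rw [Finset.sum_const, nsmul_eq_mul]
    _ ≤ ∑ q ∈ Finset.univ.filter P, (f q : ℤ) := Finset.sum_le_sum fun q hq => h1 q (Finset.mem_filter.1 hq).2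
    _ ≤ ∑ q, (f q : ℤ) := Finset.sum_le_sum_of_subset_of_nonneg (Finset.subset_univ _)
        (fun _ _ _ => Int.natCast_nonneg _)
    _ = _ := by push_cast; rfl

theorem t_LIFT : S_LIFT := by
  classical
  intro hup hlo N A M hN hAM hG
  obtain ⟨m₀, s, h1, x, h2⟩ := hG
  have hNz : (N : ℤ) ≠ 0 := by exact_mod_cast hN.ne'
  have hA : 0 < A := by omega
  set E : ℕ := ∑ q : Fin m₀ × Fin m₀ × Fin m₀, (x - (s q.1 - s q.2.1 + 2 * s q.2.2)).natAbs with hE
  set m : ℕ := 4 * A * (E + 2) + 1 with hm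
  have hm₀ : Nonempty (Fin m₀) := by
    have : 0 < Nat.card {p : Fin m₀ × Fin m₀ × Fin m₀ // (N : ℤ) ∣ s p.1 - s p.2.1 + 2 * s p.2.2 - x} := by omega
    obtain ⟨⟨p, _⟩⟩ := (Nat.card_pos_iff.1 this).1
    exact ⟨p.1⟩
  have hmm : Nonempty (Fin (2 * m)) := ⟨⟨0, by omega⟩⟩
  refine ⟨Fin m₀ × Fin (2 * m), inferInstance, inferInstance,
    fun p => s p.1 + (N : ℤ) * ((p.2 : ℕ) : ℤ), x + N * (2 * m), ?_⟩
  intro k
  have u1 : cnt (fun p : Fin m₀ × Fin (2 * m) => s p.1 + (N : ℤ) * ((p.2 : ℕ) : ℤ)) 1 (-1) 1 k ≤ M * (3 * m ^ 2) := by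
    rw [cnt_split]
    refine (sum_ind (fun q : Fin m₀ × Fin m₀ × Fin m₀ => (N : ℤ) ∣ s q.1 - s q.2.1 + s q.2.2 - k) (3 * m ^ 2) _ ?_ ?_).trans
      (Nat.mul_le_mul_right _ (h1 k))
    · intro q hq
      rw [Nat.card_eq_zero]
      left
      constructor
      rintro ⟨r, hr⟩
      apply hq
      refine ⟨-(1 * ((r.1 : ℕ) : ℤ) + (-1) * ((r.2.1 : ℕ) : ℤ) + 1 * ((r.2.2 : ℕ) : ℤ)), ?_⟩
      rw [mul_neg, hr]; ring
    · rintro q ⟨e, he⟩
      refine le_trans (le_of_eq ?_) (hup m (-e))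
      apply Nat.card_congr
      apply Equiv.subtypeEquivRight
      intro r
      constructor
      · intro h
        apply mul_left_cancel₀ hNz
        linarith
      · intro h
        have : (1 * ((r.1 : ℕ) : ℤ) + -1 * ((r.2.1 : ℕ) : ℤ) + 1 * ((r.2.2 : ℕ) : ℤ)) = -e := by linarith
        rw [this]
        linarith
  have u2 : (A : ℤ) * (2 * (m : ℤ) ^ 2 - 4 * m * (E + 2)) ≤
      (cnt (fun p : Fin m₀ × Fin (2 * m) => s p.1 + (N : ℤ) * ((p.2 : ℕ) : ℤ)) 1 (-1) 2 (x + N * (2 * m)) : ℤ) := by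
    rw [cnt_split]
    refine le_trans ?_ (sum_ind_ge (fun q : Fin m₀ × Fin m₀ × Fin m₀ => (N : ℤ) ∣ s q.1 - s q.2.1 + 2 * s q.2.2 - x)
      (2 * (m : ℤ) ^ 2 - 4 * m * (E + 2)) _ ?_)
    · apply mul_le_mul_of_nonneg_right
      · exact_mod_cast h2
      · have : (4 : ℤ) * (E + 2) ≤ m := by
          have : 4 * (E + 2) ≤ m := by
            rw [hm]; nlinarith
          exact_mod_cast this
        nlinarith
    · rintro q ⟨e, he⟩
      have hb : |-e| ≤ (E : ℤ) := by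
        have k1 : (x - (s q.1 - s q.2.1 + 2 * s q.2.2)).natAbs ≤ E :=
          Finset.single_le_sum (f := fun q : Fin m₀ × Fin m₀ × Fin m₀ => (x - (s q.1 - s q.2.1 + 2 * s q.2.2)).natAbs)
            (fun _ _ => Nat.zero_le _) (Finset.mem_univ q)
        have k2 : x - (s q.1 - s q.2.1 + 2 * s q.2.2) = N * (-e) := by linarith
        rw [k2, Int.natAbs_mul] at k1
        have k3 : (-e).natAbs ≤ E := by
          simp only [Int.natAbs_natCast] at k1
          nlinarith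
        rw [Int.abs_eq_natAbs]
        exact_mod_cast k3
      refine le_trans (hlo m E (-e) hb) (le_of_eq ?_)
      congr 1
      apply Nat.card_congr
      apply Equiv.subtypeEquivRight
      intro r
      constructor
      · intro h
        have : (1 * ((r.1 : ℕ) : ℤ) + -1 * ((r.2.1 : ℕ) : ℤ) + 2 * ((r.2.2 : ℕ) : ℤ)) = 2 * m + -e := by linarith
        rw [this]
        linarith
      · intro h
        apply mul_left_cancel₀ hNz
        linarith
  have u3 : (M : ℤ) * (3 * (m : ℤ) ^ 2) < (A : ℤ) * (2 * (m : ℤ) ^ 2 - 4 * m * (E + 2)) := by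
    have k1 : (3 : ℤ) * M + 1 ≤ 2 * A := by exact_mod_cast hAM
    have k2 : (m : ℤ) = 4 * A * (E + 2) + 1 := by rw [hm]; push_cast; ring
    have k3 : (0 : ℤ) < m := by rw [k2]; positivity
    nlinarith [mul_le_mul_of_nonneg_right k1 (sq_nonneg (m : ℤ))]
  have u1' : (cnt (fun p : Fin m₀ × Fin (2 * m) => s p.1 + (N : ℤ) * ((p.2 : ℕ) : ℤ)) 1 (-1) 1 k : ℤ) ≤ M * (3 * m ^ 2) := by
    exact_mod_cast u1
  have := (u1'.trans_lt u3).trans_le u2
  exact_mod_cast this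

end Pool.Agent.X116.LoLift
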