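import Pool.Agent.X297.LO.Stm

set_option autoImplicit false

namespace Pool.Agent.X116.LoZ

open Pool.Agent.X297.LO

lemma cntT (L : ℕ) (t : ℤ) : Nat.card {a : Fin L // 0 ≤ ((a:ℕ):ℤ) + t ∧ ((a:ℕ):ℤ) + t < L}
    = ((L:ℤ) - |t|).toNat := by
  classical
  rw [Nat.card_eq_fintype_card, Fintype.card_subtype, Finset.card_filter,
    Fin.sum_univ_eq_sum_range (fun a : ℕ => if 0 ≤ (a:ℤ) + t ∧ (a:ℤ) + t < L then 1 else 0) L,
    ← Finset.card_filter]
  have : (Finset.range L).filter (fun a : ℕ => 0 ≤ (a:ℤ) + t ∧ (a:ℤ) + t < L)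
      = Finset.Ico (max 0 (-t)).toNat (min (L:ℤ) (L - t)).toNat := by
    ext a
    simp only [Finset.mem_filter, Finset.mem_range, Finset.mem_Ico]
    omega
  rw [this, Nat.card_Ico]
  rcases abs_cases t with ⟨h, h'⟩ | ⟨h, h'⟩ <;> rw [h] <;> omega

lemma card_eq (L : ℕ) (w k : ℤ) :
    Nat.card {p : Fin L × Fin L × Fin L //
      ((p.1 : ℕ) : ℤ) - ((p.2.1 : ℕ) : ℤ) + w * ((p.2.2 : ℕ) : ℤ) = k}
      = ∑ c ∈ Finset.range L, ((L:ℤ) - |w * c - k|).toNat := by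
  rw [← Fin.sum_univ_eq_sum_range (fun c : ℕ => ((L:ℤ) - |w * c - k|).toNat) L]
  simp_rw [← cntT]
  rw [← Nat.card_sigma]
  refine Nat.card_congr
    { toFun := fun p => ⟨p.1.2.2, ⟨p.1.1, ?_⟩⟩
      invFun := fun q => ⟨(q.2.1, ⟨(((q.2.1 : ℕ) : ℤ) + (w * ((q.1 : ℕ) : ℤ) - k)).toNat, ?_⟩, q.1), ?_⟩
      left_inv := ?_
      right_inv := fun q => rfl }
  · have h := p.2
    have h2 := p.1.2.1.2
    constructor
    · omega
    · omega
  · have h := q.2.2
    omega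
  · have h := q.2.2
    simp only
    omega
  · rintro ⟨⟨a, b, c⟩, h⟩
    simp only at h
    apply Subtype.ext
    simp only [Prod.mk.injEq, true_and, and_true]
    apply Fin.ext
    simp only
    omega

theorem t_ZUP : S_ZUP := by
  intro m k
  have h := card_eq (2 * m) 1 k
  simp only [one_mul] at h
  rw [h, two_mul, Finset.sum_range_add]
  rw [← Finset.sum_range_reflect (fun c : ℕ => (((m + m : ℕ) : ℤ) - |((m + c : ℕ) : ℤ) - k|).toNat) m,
    ← Finset.sum_add_distrib]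
  have hb : ∀ c ∈ Finset.range m, (((m + m : ℕ) : ℤ) - |((c : ℕ) : ℤ) - k|).toNat
      + (((m + m : ℕ) : ℤ) - |((m + (m - 1 - c) : ℕ) : ℤ) - k|).toNat ≤ 2 * m + 1 + 2 * c := by
    intro c hc
    rw [Finset.mem_range] at hc
    rcases abs_cases (((c : ℕ) : ℤ) - k) with ⟨h1, h1'⟩ | ⟨h1, h1'⟩ <;>
      rcases abs_cases (((m + (m - 1 - c) : ℕ) : ℤ) - k) with ⟨h2, h2'⟩ | ⟨h2, h2'⟩ <;>
      rw [h1, h2] <;> omega
  refine (Finset.sum_le_sum hb).trans (le_of_eq ?_)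
  clear h hb
  induction m with
  | zero => simp
  | succ m ih =>
    rw [Finset.sum_range_succ]
    have : ∑ x ∈ Finset.range m, (2 * (m + 1) + 1 + 2 * x) = ∑ x ∈ Finset.range m, (2 * m + 1 + 2 * x) + 2 * m := by
      rw [show 2 * m = ∑ x ∈ Finset.range m, 2 by simp [mul_comm], ← Finset.sum_add_distrib]
      apply Finset.sum_congr rfl
      intro x _
      simp [Finset.sum_const]; ring
    rw [this, ih]; ring

theorem t_ZLO : S_ZLO := by
  intro m E e he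
  have h := card_eq (2 * m) 2 (2 * m + e)
  rw [h, two_mul m, Finset.sum_range_add, ← Finset.sum_add_distrib]
  push_cast
  have hb : ∀ c ∈ Finset.range m, 2 * (m : ℤ) - 2 * E ≤
      max ((m : ℤ) + m - |2 * (c : ℤ) - (2 * m + e)|) 0 + max ((m : ℤ) + m - |2 * ((m : ℤ) + c) - (2 * m + e)|) 0 := by
    intro c hc
    rw [Finset.mem_range] at hc
    have hc' : (c : ℤ) < m := by exact_mod_cast hc
    rw [abs_le] at he
    rcases abs_cases (2 * (c : ℤ) - (2 * m + e)) with ⟨h1, h1'⟩ | ⟨h1, h1'⟩ <;>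
      rcases abs_cases (2 * ((m : ℤ) + c) - (2 * m + e)) with ⟨h2, h2'⟩ | ⟨h2, h2'⟩ <;>
      rw [h1, h2] <;> omega
  have h2 := Finset.sum_le_sum hb
  rw [Finset.sum_const, Finset.card_range, nsmul_eq_mul] at h2
  refine le_trans ?_ (h2.trans (le_of_eq ?_))
  · have : (0 : ℤ) ≤ m * E := by positivity
    nlinarith
  · apply Finset.sum_congr rfl
    intro c _
    simp
    try ring_nf

end Pool.Agent.X116.LoZ
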