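import Pool.Agent.X116.MSeq

/-!
# The base case: products of two Faddeeva functions
-/

open Finset Filter Topology

namespace Pool.Agent.X116.MS

/-- `1 / Γ(m/2)` -/
noncomputable def G (m : ℕ) : ℝ := 1 / Real.Gamma ((m : ℝ) / 2)

/-- `1 / Γ(1 + j/2)` -/
noncomputable def gg (j : ℕ) : ℝ := G (j + 2)

lemma G_zero : G 0 = 0 := by simp [G, Real.Gamma_zero]

lemma G_one : G 1 = 1 / √Real.pi := by
  unfold G
  rw [Nat.cast_one, Real.Gamma_one_half_eq]

lemma G_two : G 2 = 1 := by
  unfold G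
  norm_num

lemma G_rec (m : ℕ) : (m : ℝ) / 2 * G (m + 2) = G m := by
  rcases Nat.eq_zero_or_pos m with rfl | hm
  · simp [G_zero]
  · unfold G
    have h0 : (0 : ℝ) < (m : ℝ) / 2 := by positivity
    have e : ((m + 2 : ℕ) : ℝ) / 2 = (m : ℝ) / 2 + 1 := by push_cast; ring
    rw [e, Real.Gamma_add_one h0.ne']
    have := Real.Gamma_pos_of_pos h0
    field_simp

lemma G_pos {m : ℕ} (hm : 0 < m) : 0 < G m := by
  unfold G
  have : 0 < Real.Gamma ((m : ℝ) / 2) := Real.Gamma_pos_of_pos (by positivity)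
  positivity

lemma gg_pos (j : ℕ) : 0 < gg j := G_pos (by omega)

/-- the recursion of the base sequence -/
lemma T_base_rec (a b : ℝ) (N : ℕ) : T (sc a gg) (sc b gg) (N + 1)
    = (a ^ 2 + b ^ 2) * T (sc a gg) (sc b gg) N
      - (N.factorial : ℝ) * G 1 * G (2 * N + 3) * (a * b ^ (2 * N + 1) + a ^ (2 * N + 1) * b) := by
  -- the summands
  set F : ℕ → ℝ := fun k => (-1) ^ k * (a ^ (2 * N + 2 - k) * G (2 * N + 2 - k + 2)) * (b ^ k * G (k + 2))
    with hF
  set F1 : ℕ → ℝ := fun k => (-1) ^ k * (a ^ (2 * N + 2 - k) * G (2 * N + 2 - k)) * (b ^ k * G (k + 2))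
    with hF1
  set F2 : ℕ → ℝ := fun k => (-1) ^ k * (a ^ (2 * N + 2 - k) * G (2 * N + 2 - k + 2)) * (b ^ k * G k)
    with hF2
  have hsum : ∀ k ∈ range (2 * N + 3), ((N : ℝ) + 1) * F k = F1 k + F2 k := by
    intro k hk
    have hk' : k ≤ 2 * N + 2 := Nat.lt_succ_iff.mp (Finset.mem_range.mp hk)
    have r1 := G_rec (2 * N + 2 - k)
    have r2 := G_rec k
    simp only [hF, hF1, hF2]
    rw [← r1, ← r2, Nat.cast_sub hk']
    push_cast
    ring
  have hT : T (sc a gg) (sc b gg) (N + 1) = (N.factorial : ℝ) * ∑ k ∈ range (2 * N + 3), (F1 k + F2 k) := by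
    unfold T
    rw [← Finset.sum_congr rfl hsum, ← Finset.mul_sum, Nat.factorial_succ]
    push_cast
    rw [← mul_assoc, mul_comm ((N : ℝ) + 1)]
    congr 1
  have h1 : ∑ k ∈ range (2 * N + 3), F1 k = a ^ 2 * ∑ k ∈ range (2 * N + 1),
      (-1) ^ k * sc a gg (2 * N - k) * sc b gg k - G 1 * G (2 * N + 3) * (a * b ^ (2 * N + 1)) := by
    rw [Finset.sum_range_succ, Finset.sum_range_succ, Finset.mul_sum]
    have e1 : F1 (2 * N + 2) = 0 := by
      simp [hF1, G_zero]
    have e2 : F1 (2 * N + 1) = - (G 1 * G (2 * N + 3) * (a * b ^ (2 * N + 1))) := by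
      simp only [hF1]
      have : 2 * N + 2 - (2 * N + 1) = 1 := by omega
      rw [this, pow_succ (-1 : ℝ), pow_mul]
      norm_num
      ring
    rw [e1, e2, add_zero, ← sub_eq_add_neg]
    congr 1
    refine Finset.sum_congr rfl fun k hk => ?_
    have hk' : k ≤ 2 * N := Nat.lt_succ_iff.mp (Finset.mem_range.mp hk)
    have e3 : 2 * N + 2 - k = 2 * N - k + 2 := by omega
    simp only [hF1, sc, gg]
    rw [e3, pow_add]
    ring
  have h2 : ∑ k ∈ range (2 * N + 3), F2 k = b ^ 2 * ∑ k ∈ range (2 * N + 1),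
      (-1) ^ k * sc a gg (2 * N - k) * sc b gg k - G 1 * G (2 * N + 3) * (a ^ (2 * N + 1) * b) := by
    rw [Finset.sum_range_succ', Finset.sum_range_succ', Finset.mul_sum]
    have e1 : F2 0 = 0 := by
      simp [hF2, G_zero]
    have e2 : F2 (0 + 1) = - (G 1 * G (2 * N + 3) * (a ^ (2 * N + 1) * b)) := by
      simp only [hF2]
      have : 2 * N + 2 - (0 + 1) = 2 * N + 1 := by omega
      rw [this]
      norm_num
      ring
    rw [e1, e2, add_zero, ← sub_eq_add_neg]
    congr 1
    refine Finset.sum_congr rfl fun k hk => ?_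
    have hk' : k ≤ 2 * N := Nat.lt_succ_iff.mp (Finset.mem_range.mp hk)
    have e3 : 2 * N + 2 - (k + 1 + 1) = 2 * N - k := by omega
    simp only [hF2, sc, gg]
    rw [e3, pow_add, pow_add]
    ring
  rw [hT, Finset.sum_add_distrib, h1, h2]
  unfold T
  ring

/-- `∫_0^a (a² - p²)^N dp` -/
lemma J_eq (a : ℝ) (N : ℕ) : ∫ p in (0 : ℝ)..a, (a ^ 2 - p ^ 2) ^ N
    = a ^ (2 * N + 1) * ((N.factorial : ℝ) * (√Real.pi / 2) * G (2 * N + 3)) := by
  induction N with
  | zero =>
    have h3 : G 3 = 2 / √Real.pi := by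
      have := G_rec 1
      rw [G_one] at this
      have h : G (1 + 2) = G 3 := rfl
      rw [h] at this
      push_cast at this
      have hpi : 0 < √Real.pi := by positivity
      field_simp at this ⊢
      linarith
    have hpi : 0 < √Real.pi := by positivity
    simp only [mul_zero, zero_add, h3, pow_zero, pow_one, Nat.factorial_zero, Nat.cast_one, one_mul]
    rw [intervalIntegral.integral_const]
    simp only [sub_zero, smul_eq_mul, mul_one]
    field_simp
  | succ N ih =>
    have hd : ∀ p : ℝ, HasDerivAt (fun p : ℝ => p * (a ^ 2 - p ^ 2) ^ (N + 1))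
        ((2 * (N : ℝ) + 3) * (a ^ 2 - p ^ 2) ^ (N + 1) - 2 * (N + 1) * a ^ 2 * (a ^ 2 - p ^ 2) ^ N) p := by
      intro p
      have h1 : HasDerivAt (fun p : ℝ => a ^ 2 - p ^ 2) (-(2 * p)) p := by
        simpa using (hasDerivAt_pow 2 p).const_sub (a ^ 2)
      have h2 := (hasDerivAt_id p).mul (h1.pow (N + 1))
      refine h2.congr_deriv ?_
      simp only [id, Nat.add_sub_cancel, Pi.pow_apply]
      push_cast
      ring
    have hint := intervalIntegral.integral_eq_sub_of_hasDerivAt (a := 0) (b := a)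
      (fun p _ => hd p) (Continuous.intervalIntegrable (by fun_prop) _ _)
    rw [intervalIntegral.integral_sub (Continuous.intervalIntegrable (by fun_prop) _ _)
      (Continuous.intervalIntegrable (by fun_prop) _ _), intervalIntegral.integral_const_mul,
      intervalIntegral.integral_const_mul, ih] at hint
    have hz : a * (a ^ 2 - a ^ 2) ^ (N + 1) - 0 * (a ^ 2 - 0 ^ 2) ^ (N + 1) = 0 := by
      rw [sub_self, zero_pow (by omega)]; ring
    rw [hz] at hint
    have r := G_rec (2 * N + 3)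
    have e : 2 * (N + 1) + 3 = 2 * N + 3 + 2 := by ring
    rw [e]
    push_cast at r
    have hne : (2 * (N : ℝ) + 3) ≠ 0 := by positivity
    rw [← r] at hint
    have h5 : (2 * (N : ℝ) + 3) * ∫ p in (0 : ℝ)..a, (a ^ 2 - p ^ 2) ^ (N + 1)
        = (2 * (N : ℝ) + 3) * (a ^ (2 * (N + 1) + 1) * (((N + 1).factorial : ℝ) * (√Real.pi / 2)
          * G (2 * N + 3 + 2))) := by
      rw [Nat.factorial_succ]
      push_cast
      linear_combination hint
    exact mul_left_cancel₀ hne h5

/-- the kernel integral -/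
noncomputable def I (a b : ℝ) (N : ℕ) : ℝ :=
  ∫ p in (0 : ℝ)..a, (a ^ 2 - p ^ 2) ^ N * (b / (b ^ 2 + p ^ 2))

lemma I_cont {b : ℝ} (hb : 0 < b) : Continuous fun p : ℝ => b / (b ^ 2 + p ^ 2) := by
  refine Continuous.div (by fun_prop) (by fun_prop) fun p => ?_
  positivity

lemma I_rec (a : ℝ) {b : ℝ} (hb : 0 < b) (N : ℕ) : I a b (N + 1) = (a ^ 2 + b ^ 2) * I a b N
    - b * (a ^ (2 * N + 1) * ((N.factorial : ℝ) * (√Real.pi / 2) * G (2 * N + 3))) := by
  rw [← J_eq]
  unfold I
  have hc := I_cont hb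
  rw [← intervalIntegral.integral_const_mul, ← intervalIntegral.integral_const_mul,
    ← intervalIntegral.integral_sub]
  · refine intervalIntegral.integral_congr fun p _ => ?_
    have : b ^ 2 + p ^ 2 ≠ 0 := by positivity
    field_simp
    ring
  · exact Continuous.intervalIntegrable (continuous_const.mul ((by fun_prop :
      Continuous fun p : ℝ => (a ^ 2 - p ^ 2) ^ N).mul hc)) _ _
  · exact Continuous.intervalIntegrable (by fun_prop) _ _

lemma I_zero (a : ℝ) {b : ℝ} (hb : 0 < b) : I a b 0 = Real.arctan (a / b) := by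
  unfold I
  have hd : ∀ p : ℝ, HasDerivAt (fun p : ℝ => Real.arctan (p / b)) (b / (b ^ 2 + p ^ 2)) p := by
    intro p
    have h := (Real.hasDerivAt_arctan (p / b)).comp p ((hasDerivAt_id p).div_const b)
    refine h.congr_deriv ?_
    have : b ^ 2 + p ^ 2 ≠ 0 := by positivity
    field_simp
  simp only [pow_zero, one_mul]
  rw [intervalIntegral.integral_eq_sub_of_hasDerivAt (fun p _ => hd p)
    ((I_cont hb).intervalIntegrable _ _)]
  simp

lemma T_base (a b : ℝ) (ha : 0 < a) (hb : 0 < b) (N : ℕ) :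
    T (sc a gg) (sc b gg) N = 2 / Real.pi * (I a b N + I b a N) := by
  have hpi := Real.pi_pos
  induction N with
  | zero =>
    rw [I_zero a hb, I_zero b ha]
    have h1 : Real.arctan (a / b) = Real.pi / 2 - Real.arctan (b / a) := by
      rw [← Real.arctan_inv_of_pos (by positivity), inv_div]
    rw [h1]
    unfold T sc gg
    simp [G_two]
  | succ N ih =>
    rw [T_base_rec, ih, I_rec a hb, I_rec b ha, G_one]
    have hs : 0 < √Real.pi := by positivity
    have hs2 : √Real.pi ^ 2 = Real.pi := Real.sq_sqrt hpi.le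
    have e : (1 : ℝ) / √Real.pi = 2 / Real.pi * (√Real.pi / 2) := by
      rw [div_mul_div_comm, div_eq_div_iff hs.ne' (by positivity)]
      nlinarith
    rw [e]
    ring

/-- generating functions of moment sequences are nonnegative -/
lemma gen_nonneg {A : ℝ} (hA : 0 ≤ A) {φ ω : ℝ → ℝ} (hφ : Continuous φ) (hω : Continuous ω)
    (hω0 : ∀ p ∈ Set.Icc 0 A, 0 ≤ ω p) (hφ0 : ∀ p ∈ Set.Icc 0 A, 0 ≤ φ p) (n : ℕ) (t : ℝ) :
    ∃ L : ℝ, 0 ≤ L ∧ HasSum (fun N : ℕ => (∫ p in (0 : ℝ)..A, φ p ^ (N + n) * ω p)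
      / (N.factorial : ℝ) * (-t) ^ N) L := by
  obtain ⟨B, hB⟩ := (isCompact_Icc (a := (0 : ℝ)) (b := A)).exists_bound_of_continuousOn
    hφ.continuousOn
  obtain ⟨W, hW⟩ := (isCompact_Icc (a := (0 : ℝ)) (b := A)).exists_bound_of_continuousOn
    hω.continuousOn
  have h0A : (0 : ℝ) ∈ Set.Icc (0 : ℝ) A := ⟨le_rfl, hA⟩
  have hB0 : 0 ≤ B := (norm_nonneg _).trans (hB 0 h0A)
  have hW0 : 0 ≤ W := (norm_nonneg _).trans (hW 0 h0A)
  refine ⟨∫ p in (0 : ℝ)..A, φ p ^ n * Real.exp (-(t * φ p)) * ω p, ?_, ?_⟩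
  · apply intervalIntegral.integral_nonneg hA
    intro p hp
    have h1 := hω0 p hp
    have h2 := hφ0 p hp
    positivity
  · have key : HasSum (fun N : ℕ => ∫ p in (0 : ℝ)..A,
        (φ p ^ n * ω p) * ((-(t * φ p)) ^ N / (N.factorial : ℝ)))
        (∫ p in (0 : ℝ)..A, φ p ^ n * Real.exp (-(t * φ p)) * ω p) := by
      refine intervalIntegral.hasSum_integral_of_dominated_convergence
        (fun N _ => B ^ n * W * ((|t| * B) ^ N / (N.factorial : ℝ))) (fun N => ?_) (fun N => ?_)
        ?_ ?_ ?_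
      · apply Continuous.aestronglyMeasurable
        fun_prop
      · refine Eventually.of_forall fun p hp => ?_
        rw [Set.uIoc_of_le hA] at hp
        have hp' : p ∈ Set.Icc (0 : ℝ) A := ⟨hp.1.le, hp.2⟩
        rw [norm_mul, norm_mul, norm_pow, norm_div, norm_pow, norm_neg, norm_mul,
          Real.norm_natCast]
        have b1 := hB p hp'
        have b2 := hW p hp'
        rw [Real.norm_eq_abs t]
        gcongr
      · exact Eventually.of_forall fun _ _ => (Real.summable_pow_div_factorial _).mul_left _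
      · exact intervalIntegrable_const
      · refine Eventually.of_forall fun p _ => ?_
        have h1 : HasSum (fun N : ℕ => (-(t * φ p)) ^ N / (N.factorial : ℝ))
            (Real.exp (-(t * φ p))) := by
          rw [Real.exp_eq_exp_ℝ]
          exact NormedSpace.expSeries_div_hasSum_exp (-(t * φ p))
        have h2 := h1.mul_left (φ p ^ n * ω p)
        have e : φ p ^ n * Real.exp (-(t * φ p)) * ω p = φ p ^ n * ω p * Real.exp (-(t * φ p)) := by
          ring
        rw [e]
        exact h2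
    refine key.congr_fun fun N => ?_
    have e : ∀ p : ℝ, (φ p ^ n * ω p) * ((-(t * φ p)) ^ N / (N.factorial : ℝ))
        = ((-t) ^ N / (N.factorial : ℝ)) * (φ p ^ (N + n) * ω p) := by
      intro p
      have : (-(t * φ p)) ^ N = (-t) ^ N * φ p ^ N := by rw [← mul_pow]; ring
      rw [this, pow_add]
      ring
    simp only [e]
    rw [intervalIntegral.integral_const_mul]
    ring

lemma pos_base : Pos gg gg := by
  intro a b ha hb n t _
  have hpi := Real.pi_pos
  obtain ⟨L1, hL1, h1⟩ := gen_nonneg ha.le (φ := fun p => a ^ 2 - p ^ 2)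
    (ω := fun p => b / (b ^ 2 + p ^ 2)) (by fun_prop) (I_cont hb)
    (fun p _ => by positivity) (fun p hp => by nlinarith [hp.1, hp.2]) n t
  obtain ⟨L2, hL2, h2⟩ := gen_nonneg hb.le (φ := fun p => b ^ 2 - p ^ 2)
    (ω := fun p => a / (a ^ 2 + p ^ 2)) (by fun_prop) (I_cont ha)
    (fun p _ => by positivity) (fun p hp => by nlinarith [hp.1, hp.2]) n t
  have h3 := (h1.add h2).mul_left (2 / Real.pi)
  have e : S (sc a gg) (sc b gg) n t = 2 / Real.pi * (L1 + L2) := by
    unfold S
    rw [← h3.tsum_eq]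
    refine tsum_congr fun N => ?_
    rw [T_base a b ha hb]
    unfold I
    ring
  rw [e]
  positivity

end Pool.Agent.X116.MS
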