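import Pool.Agent.X116.MBase
import Pool.Agent.X116.CMser

/-!
# The limit of the products
-/

open Finset Filter Topology

namespace Pool.Agent.X116.MS

lemma gammaSeq_mono {x : ℝ} (hx : 1 ≤ x) {K : ℕ} (hK : 1 ≤ K) :
    Real.GammaSeq x K ≤ Real.GammaSeq x (K + 1) := by
  have hK0 : (0 : ℝ) < K := by exact_mod_cast hK
  unfold Real.GammaSeq
  rw [Finset.prod_range_succ _ (K + 1), Nat.factorial_succ]
  have hP : 0 < ∏ j ∈ range (K + 1), (x + j) := Finset.prod_pos fun j _ => by positivity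
  have hb := one_add_mul_self_le_rpow_one_add (s := 1 / (K : ℝ)) (by
    have : (0 : ℝ) < 1 / K := by positivity
    linarith) hx
  have h1 : ((K + 1 : ℕ) : ℝ) ^ x = (K : ℝ) ^ x * (1 + 1 / (K : ℝ)) ^ x := by
    rw [← Real.mul_rpow hK0.le (by positivity)]
    congr 1
    push_cast
    field_simp
  rw [div_le_div_iff₀ hP (by positivity), h1]
  push_cast
  have h2 : x + (K + 1) ≤ (1 + 1 / (K : ℝ)) ^ x * ((K : ℝ) + 1) := by
    have : x + (K + 1) ≤ (1 + x * (1 / (K : ℝ))) * ((K : ℝ) + 1) := by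
      have e : (1 + x * (1 / (K : ℝ))) * ((K : ℝ) + 1) = x + (K + 1) + x / K := by
        field_simp
        ring
      rw [e]
      have : 0 ≤ x / K := by positivity
      linarith
    refine this.trans ?_
    gcongr
  have hKx : 0 < (K : ℝ) ^ x := by positivity
  calc (K : ℝ) ^ x * (K.factorial : ℝ) * ((∏ j ∈ range (K + 1), (x + j)) * (x + (K + 1)))
      = ((K : ℝ) ^ x * (K.factorial : ℝ) * (∏ j ∈ range (K + 1), (x + j))) * (x + (K + 1)) := by
        ring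
    _ ≤ ((K : ℝ) ^ x * (K.factorial : ℝ) * (∏ j ∈ range (K + 1), (x + j)))
          * ((1 + 1 / (K : ℝ)) ^ x * ((K : ℝ) + 1)) := by gcongr
    _ = _ := by ring

lemma gammaSeq_mono' {x : ℝ} (hx : 1 ≤ x) {K₀ K : ℕ} (hK : 1 ≤ K₀) (h : K₀ ≤ K) :
    Real.GammaSeq x K₀ ≤ Real.GammaSeq x K := by
  obtain ⟨d, rfl⟩ := Nat.exists_eq_add_of_le h
  induction d with
  | zero => exact le_rfl
  | succ d ih => exact (ih (by omega)).trans (gammaSeq_mono hx (by omega))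

lemma gammaSeq_pos {x : ℝ} (hx : 0 < x) {K : ℕ} (hK : 1 ≤ K) : 0 < Real.GammaSeq x K := by
  have hK0 : (0 : ℝ) < K := by exact_mod_cast hK
  unfold Real.GammaSeq
  have hP : 0 < ∏ j ∈ range (K + 1), (x + j) := Finset.prod_pos fun j _ => by positivity
  positivity

lemma gammaSeq_le {x : ℝ} (hx : 1 ≤ x) {K : ℕ} (hK : 1 ≤ K) : Real.GammaSeq x K ≤ Real.Gamma x := by
  refine ge_of_tendsto (Real.GammaSeq_tendsto_Gamma x) ?_
  filter_upwards [eventually_ge_atTop K] with L hL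
  exact gammaSeq_mono' hx hK hL

/-- uniform lower bound of `Γ(1 + α j)` and its approximations -/
lemma gammaSeq_lower {α q : ℝ} (hα : 0 < α) (hq : 0 < q) : ∃ (C : ℝ) (K₁ : ℕ), 0 < C ∧ 1 ≤ K₁ ∧
    ∀ K ≥ K₁, ∀ j : ℕ, 1 / Real.GammaSeq (1 + α * j) K ≤ C * q ^ j := by
  obtain ⟨K₀, hK₀⟩ := exists_nat_gt (max 1 ((2 / q) ^ (1 / α)))
  have hK₀1 : (1 : ℝ) < K₀ := (le_max_left _ _).trans_lt hK₀
  have hK₀q : (2 / q) ^ (1 / α) < K₀ := (le_max_right _ _).trans_lt hK₀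
  have hK₀n : 1 ≤ K₀ := by
    have : (1 : ℝ) ≤ K₀ := hK₀1.le
    exact_mod_cast this
  have hpow : 2 / q ≤ (K₀ : ℝ) ^ α := by
    have h1 : ((2 / q) ^ (1 / α)) ^ α ≤ (K₀ : ℝ) ^ α :=
      Real.rpow_le_rpow (by positivity) hK₀q.le hα.le
    rwa [← Real.rpow_mul (by positivity), one_div_mul_cancel hα.ne', Real.rpow_one] at h1
  set p : ℕ := K₀ + 1 with hp
  have hr : |(1 / 2 : ℝ)| < 1 := by rw [abs_of_pos] <;> norm_num
  have hlim := tendsto_pow_const_mul_const_pow_of_abs_lt_one p hr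
  obtain ⟨B, hB⟩ := hlim.bddAbove_range
  have hB' : ∀ n : ℕ, (n : ℝ) ^ p * (1 / 2 : ℝ) ^ n ≤ B := fun n => hB ⟨n, rfl⟩
  set M : ℝ := (K₀ : ℝ) + 1 + α with hM
  have hB0 : 0 ≤ B := by
    have := hB' 0
    have h0 : (0 : ℝ) ≤ ((0 : ℕ) : ℝ) ^ p * (1 / 2 : ℝ) ^ 0 := by positivity
    exact h0.trans this
  refine ⟨2 * M ^ p * B + 1, K₀, by positivity, hK₀n, fun K hK j => ?_⟩
  have hj : (0 : ℝ) ≤ j := Nat.cast_nonneg j
  have hx1 : 1 ≤ 1 + α * (j : ℝ) := by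
    have : 0 ≤ α * (j : ℝ) := by positivity
    linarith
  have h1 := gammaSeq_mono' hx1 hK₀n hK
  have h2 : ((2 / q) ^ j) / (1 + α * j + K₀) ^ p ≤ Real.GammaSeq (1 + α * j) K₀ := by
    unfold Real.GammaSeq
    have hP : 0 < ∏ i ∈ range (K₀ + 1), (1 + α * (j : ℝ) + i) :=
      Finset.prod_pos fun i _ => by positivity
    have hle : ∏ i ∈ range (K₀ + 1), (1 + α * (j : ℝ) + i) ≤ (1 + α * j + K₀) ^ p := by
      calc ∏ i ∈ range (K₀ + 1), (1 + α * (j : ℝ) + i)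
          ≤ ∏ _i ∈ range (K₀ + 1), (1 + α * (j : ℝ) + K₀) := by
            refine Finset.prod_le_prod (fun i _ => by positivity) fun i hi => ?_
            have : (i : ℝ) ≤ K₀ := by
              have := Nat.lt_succ_iff.mp (Finset.mem_range.mp hi)
              exact_mod_cast this
            linarith
        _ = (1 + α * j + K₀) ^ p := by simp [hp]
    have hf : (1 : ℝ) ≤ (K₀.factorial : ℝ) := by exact_mod_cast Nat.factorial_pos K₀
    have h3 : (2 / q) ^ j ≤ (K₀ : ℝ) ^ (1 + α * (j : ℝ)) := by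
      calc (2 / q) ^ j ≤ ((K₀ : ℝ) ^ α) ^ j := by gcongr
        _ = (K₀ : ℝ) ^ (α * (j : ℝ)) := by rw [← Real.rpow_natCast, ← Real.rpow_mul (by positivity)]
        _ ≤ (K₀ : ℝ) ^ (1 + α * (j : ℝ)) :=
          Real.rpow_le_rpow_of_exponent_le hK₀1.le (by linarith)
    have hKx : 0 < (K₀ : ℝ) ^ (1 + α * (j : ℝ)) := by positivity
    calc ((2 / q) ^ j) / (1 + α * j + K₀) ^ p
        ≤ (K₀ : ℝ) ^ (1 + α * (j : ℝ)) / ∏ i ∈ range (K₀ + 1), (1 + α * (j : ℝ) + i) := by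
          gcongr
      _ ≤ (K₀ : ℝ) ^ (1 + α * (j : ℝ)) * (K₀.factorial : ℝ)
            / ∏ i ∈ range (K₀ + 1), (1 + α * (j : ℝ) + i) := by
          gcongr
          exact le_mul_of_one_le_right hKx.le hf
  have h4 : 0 < ((2 / q) ^ j) / (1 + α * j + K₀) ^ p := by positivity
  calc 1 / Real.GammaSeq (1 + α * j) K ≤ 1 / (((2 / q) ^ j) / (1 + α * j + K₀) ^ p) :=
        one_div_le_one_div_of_le h4 (h2.trans h1)
    _ = (1 + α * j + K₀) ^ p * ((1 / 2) ^ j * q ^ j) := by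
        have e : ((2 / q) ^ j)⁻¹ = (1 / 2) ^ j * q ^ j := by
          rw [← mul_pow, ← inv_pow]
          congr 1
          field_simp
        rw [one_div_div, div_eq_mul_inv, e]
    _ ≤ (M * ((j + 1 : ℕ) : ℝ)) ^ p * ((1 / 2) ^ j * q ^ j) := by
        have : 1 + α * j + K₀ ≤ M * ((j + 1 : ℕ) : ℝ) := by
          rw [hM]
          push_cast
          have : 0 ≤ (K₀ : ℝ) * j := by positivity
          nlinarith
        gcongr
    _ = 2 * M ^ p * (((j + 1 : ℕ) : ℝ) ^ p * (1 / 2) ^ (j + 1)) * q ^ j := by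
        rw [mul_pow, pow_succ (1 / 2 : ℝ)]
        ring
    _ ≤ 2 * M ^ p * B * q ^ j := by
        have := hB' (j + 1)
        gcongr
    _ ≤ (2 * M ^ p * B + 1) * q ^ j := by
        gcongr
        linarith

lemma small_of_gamma {α : ℝ} (hα : 0 < α) : Small fun j : ℕ => 1 / Real.Gamma (1 + α * j) := by
  intro q hq
  obtain ⟨C, K₁, hC, hK₁, h⟩ := gammaSeq_lower hα hq
  refine ⟨C, hC, fun j => ?_⟩
  have hx1 : 1 ≤ 1 + α * (j : ℝ) := by
    have : 0 ≤ α * (j : ℝ) := by positivity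
    linarith
  have hp : 0 < Real.Gamma (1 + α * j) := Real.Gamma_pos_of_pos (by linarith)
  rw [abs_of_pos (by positivity)]
  refine le_trans ?_ (h K₁ le_rfl j)
  exact one_div_le_one_div_of_le (gammaSeq_pos (by linarith) hK₁) (gammaSeq_le hx1 hK₁)

lemma gg_eq (j : ℕ) : gg j = 1 / Real.Gamma (1 + 1 / 2 * j) := by
  unfold gg G
  congr 2
  push_cast
  ring

lemma small_gg : Small gg := by
  have h := small_of_gamma (α := 1 / 2) (by norm_num)
  have e : gg = fun j : ℕ => 1 / Real.Gamma (1 + 1 / 2 * j) := funext gg_eq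
  rw [e]
  exact h

/-- the partial products -/
noncomputable def RU (lam : ℝ) (L : ℕ) : ℕ → ℝ :=
  fun j => (∏ i ∈ range L, (lam + 2 * ((i : ℝ) + 1) * (1 - lam) / (2 * (i + 1) + j))) * gg j

lemma RU_zero (lam : ℝ) : RU lam 0 = gg := by
  funext j
  simp [RU]

lemma RU_succ (lam : ℝ) (L : ℕ) : RU lam (L + 1) = rr lam L (RU lam L) := by
  funext j
  simp only [RU, rr, Finset.prod_range_succ]
  ring

lemma small_RU {lam : ℝ} (h0 : 0 ≤ lam) (h1 : lam ≤ 1) (L : ℕ) : Small (RU lam L) := by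
  induction L with
  | zero => rw [RU_zero]; exact small_gg
  | succ L ih => rw [RU_succ]; exact ih.rr h0 h1 L

lemma pos_RU {lam : ℝ} (h0 : 0 ≤ lam) (h1 : lam ≤ 1) (L L' : ℕ) : Pos (RU lam L) (RU lam L') := by
  have hone : ∀ L, Pos (RU lam L) gg := by
    intro L
    induction L with
    | zero => rw [RU_zero]; exact pos_base
    | succ L ih => rw [RU_succ]; exact pos_step (small_RU h0 h1 L) small_gg ih h0 h1 L
  induction L' with
  | zero => rw [RU_zero]; exact hone L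
  | succ L' ih =>
    rw [RU_succ]
    exact (pos_step (small_RU h0 h1 L') (small_RU h0 h1 L) ih.symm h0 h1 L').symm

/-- the approximations of `1 / Γ(1 + α j)` -/
noncomputable def UK (α : ℝ) (K j : ℕ) : ℝ :=
  Real.GammaSeq (1 + 1 / 2 * j) K / Real.GammaSeq (1 + α * j) K * gg j

lemma UK_eq {α : ℝ} (hα : 0 < α) {K : ℕ} (hK : 1 ≤ K) :
    UK α K = sc ((K : ℝ) ^ (1 / 2 - α)) (RU (2 * α) (K + 1)) := by
  have hK0 : (0 : ℝ) < K := by exact_mod_cast hK
  funext j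
  have hj : (0 : ℝ) ≤ j := Nat.cast_nonneg j
  unfold UK sc RU Real.GammaSeq
  have h1 : ∏ i ∈ range (K + 1), (2 * α + 2 * ((i : ℝ) + 1) * (1 - 2 * α) / (2 * (i + 1) + j))
      = (∏ i ∈ range (K + 1), (1 + α * (j : ℝ) + i)) / ∏ i ∈ range (K + 1), (1 + 1 / 2 * (j : ℝ) + i) := by
    rw [← Finset.prod_div_distrib]
    refine Finset.prod_congr rfl fun i _ => ?_
    have e1 : 2 * ((i : ℝ) + 1) + j ≠ 0 := by positivity
    have e2 : 1 + 1 / 2 * (j : ℝ) + i ≠ 0 := by positivity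
    rw [eq_div_iff e2]
    field_simp
    ring
  rw [h1]
  have p1 : (∏ i ∈ range (K + 1), (1 + α * (j : ℝ) + i)) ≠ 0 :=
    (Finset.prod_pos fun i _ => by positivity).ne'
  have p2 : (∏ i ∈ range (K + 1), (1 + 1 / 2 * (j : ℝ) + i)) ≠ 0 :=
    (Finset.prod_pos fun i _ => by positivity).ne'
  have h2 : (K : ℝ) ^ (1 + 1 / 2 * (j : ℝ)) = ((K : ℝ) ^ (1 / 2 - α)) ^ j * (K : ℝ) ^ (1 + α * (j : ℝ)) := by
    rw [← Real.rpow_natCast, ← Real.rpow_mul hK0.le, ← Real.rpow_add hK0]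
    congr 1
    ring
  rw [h2]
  have p3 : (K : ℝ) ^ (1 + α * (j : ℝ)) ≠ 0 := by positivity
  have p4 : (K.factorial : ℝ) ≠ 0 := by positivity
  generalize (∏ i ∈ range (K + 1), (1 + α * (j : ℝ) + i)) = Q1 at p1 ⊢
  generalize (∏ i ∈ range (K + 1), (1 + 1 / 2 * (j : ℝ) + i)) = Q2 at p2 ⊢
  generalize (K : ℝ) ^ (1 + α * (j : ℝ)) = Q3 at p3 ⊢
  field_simp

lemma UK_tendsto {α : ℝ} (hα : 0 < α) (j : ℕ) :
    Tendsto (fun K => UK α K j) atTop (𝓝 (1 / Real.Gamma (1 + α * j))) := by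
  have h1 : 0 < Real.Gamma (1 + α * j) := Real.Gamma_pos_of_pos (by positivity)
  have h2 : 0 < Real.Gamma (1 + 1 / 2 * (j : ℝ)) := Real.Gamma_pos_of_pos (by positivity)
  have h := ((Real.GammaSeq_tendsto_Gamma (1 + 1 / 2 * (j : ℝ))).div
    (Real.GammaSeq_tendsto_Gamma (1 + α * (j : ℝ))) h1.ne').mul_const (gg j)
  have e : Real.Gamma (1 + 1 / 2 * (j : ℝ)) / Real.Gamma (1 + α * j) * gg j
      = 1 / Real.Gamma (1 + α * j) := by
    rw [gg_eq]
    field_simp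
  rw [e] at h
  exact h

lemma UK_bound {α q : ℝ} (hα : 0 < α) (hq : 0 < q) : ∃ (C : ℝ) (K₁ : ℕ), 0 < C ∧ 1 ≤ K₁ ∧
    ∀ K ≥ K₁, ∀ j : ℕ, |UK α K j| ≤ C * q ^ j := by
  obtain ⟨C, K₁, hC, hK₁, h⟩ := gammaSeq_lower hα hq
  refine ⟨C, K₁, hC, hK₁, fun K hK j => ?_⟩
  have hK' : 1 ≤ K := hK₁.trans hK
  have hx1 : 1 ≤ 1 + 1 / 2 * (j : ℝ) := by
    have : 0 ≤ 1 / 2 * (j : ℝ) := by positivity
    linarith
  have g1 : 0 < Real.GammaSeq (1 + 1 / 2 * (j : ℝ)) K := gammaSeq_pos (by linarith) hK'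
  have g2 : 0 < Real.GammaSeq (1 + α * (j : ℝ)) K := gammaSeq_pos (by positivity) hK'
  have g3 : 0 < Real.Gamma (1 + 1 / 2 * (j : ℝ)) := Real.Gamma_pos_of_pos (by linarith)
  have g4 := gammaSeq_le hx1 hK'
  have hgg := gg_pos j
  unfold UK
  rw [abs_of_pos (by positivity)]
  refine le_trans ?_ (h K hK j)
  rw [gg_eq, div_mul_eq_mul_div, mul_one_div]
  apply div_le_div_of_nonneg_right _ g2.le
  rw [div_le_one g3]
  exact g4

/-- the limit sequence -/
noncomputable def Ui (α : ℝ) : ℕ → ℝ := fun j => 1 / Real.Gamma (1 + α * j)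

lemma S_nonneg {α : ℝ} (hα : 0 < α) (hα2 : α ≤ 1 / 2) (n : ℕ) {t : ℝ} (ht : 0 ≤ t) :
    0 ≤ S (Ui α) (Ui α) n t := by
  set q : ℝ := √(1 / (12 * (|t| + 1))) with hqd
  have hq : 0 < q := by positivity
  have hq2 : q ^ 2 = 1 / (12 * (|t| + 1)) := Real.sq_sqrt (by positivity)
  obtain ⟨C, K₁, hC, hK₁, h⟩ := UK_bound hα hq
  have hTt : ∀ M, Tendsto (fun K => T (UK α K) (UK α K) M) atTop (𝓝 (T (Ui α) (Ui α) M)) := by
    intro M
    unfold T
    refine Tendsto.const_mul _ (tendsto_finsetSum _ fun k _ => ?_)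
    exact ((UK_tendsto hα _).const_mul _).mul (UK_tendsto hα _)
  set Kc : ℝ := (n.factorial : ℝ) * (C * C) * (6 * q ^ 2) ^ n with hKc
  have hlim : Tendsto (fun K => S (UK α K) (UK α K) n t) atTop (𝓝 (S (Ui α) (Ui α) n t)) := by
    unfold S
    refine tendsto_tsum_of_dominated_convergence (bound := fun N : ℕ => Kc * (1 / 2 : ℝ) ^ N) ?_ ?_ ?_
    · exact (summable_geometric_of_lt_one (by norm_num) (by norm_num)).mul_left Kc
    · exact fun N => ((hTt (N + n)).div_const _).mul_const _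
    · filter_upwards [eventually_ge_atTop K₁] with K hK N
      rw [norm_mul, Real.norm_eq_abs, norm_pow, norm_neg, Real.norm_eq_abs]
      calc |T (UK α K) (UK α K) (N + n) / (N.factorial : ℝ)| * |t| ^ N
          ≤ (Kc * (6 * q ^ 2) ^ N) * (|t| + 1) ^ N := by
            gcongr
            · exact T_bound hC.le hC.le hq.le (h K hK) (h K hK) N n
            · linarith
        _ = Kc * (1 / 2) ^ N := by
            rw [mul_assoc, ← mul_pow, hq2]
            congr 2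
            field_simp
            norm_num
  refine ge_of_tendsto hlim ?_
  filter_upwards [eventually_ge_atTop 1] with K hK
  have hK0 : (0 : ℝ) < K := by exact_mod_cast hK
  rw [UK_eq hα hK]
  exact pos_RU (by positivity) (by linarith) (K + 1) (K + 1) _ _ (by positivity) (by positivity) n t ht

end Pool.Agent.X116.MS
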