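import Mathlib

/-!
# Bilinear moment sequences `T U V N = N! ∑_{k ≤ 2N} (-1)^k U_{2N-k} V_k`
-/

open Finset Filter Topology

namespace Pool.Agent.X116.MS

/-- the bilinear sequence -/
noncomputable def T (U V : ℕ → ℝ) (N : ℕ) : ℝ :=
  (N.factorial : ℝ) * ∑ k ∈ range (2 * N + 1), (-1) ^ k * U (2 * N - k) * V k

/-- the generating function of the shifted sequence -/
noncomputable def S (U V : ℕ → ℝ) (n : ℕ) (t : ℝ) : ℝ :=
  ∑' N : ℕ, T U V (N + n) / (N.factorial : ℝ) * (-t) ^ N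

/-- growth -/
def Small (U : ℕ → ℝ) : Prop := ∀ q : ℝ, 0 < q → ∃ C : ℝ, 0 < C ∧ ∀ j, |U j| ≤ C * q ^ j

/-- scaling -/
def sc (a : ℝ) (U : ℕ → ℝ) : ℕ → ℝ := fun j => a ^ j * U j

lemma Small.scale {U : ℕ → ℝ} (h : Small U) (a : ℝ) : Small (sc a U) := by
  intro q hq
  obtain ⟨C, hC, hU⟩ := h (q / (|a| + 1)) (by positivity)
  refine ⟨C, hC, fun j => ?_⟩
  unfold sc
  rw [abs_mul, abs_pow]
  calc |a| ^ j * |U j| ≤ (|a| + 1) ^ j * (C * (q / (|a| + 1)) ^ j) := by
        gcongr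
        · linarith
        · exact hU j
    _ = C * q ^ j := by
        rw [div_pow]
        field_simp

lemma T_symm (U V : ℕ → ℝ) (N : ℕ) : T U V N = T V U N := by
  unfold T
  congr 1
  rw [← Finset.sum_range_reflect]
  refine Finset.sum_congr rfl fun k hk => ?_
  have hk' : k ≤ 2 * N := Nat.lt_succ_iff.mp (Finset.mem_range.mp hk)
  have e1 : 2 * N + 1 - 1 - k = 2 * N - k := by omega
  have e2 : 2 * N - (2 * N - k) = k := by omega
  rw [e1, e2]
  have e3 : (-1 : ℝ) ^ (2 * N - k) = (-1) ^ k := by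
    have : (-1 : ℝ) ^ (2 * N - k) * (-1) ^ k = 1 := by
      rw [← pow_add, Nat.sub_add_cancel hk', pow_mul]
      norm_num
    have h2 : ((-1 : ℝ) ^ k) * (-1) ^ k = 1 := by rw [← mul_pow]; norm_num
    have h3 : (-1 : ℝ) ^ k ≠ 0 := pow_ne_zero _ (by norm_num)
    exact mul_right_cancel₀ h3 (this.trans h2.symm)
  rw [e3]
  ring

lemma S_symm (U V : ℕ → ℝ) (n : ℕ) (t : ℝ) : S U V n t = S V U n t := by
  unfold S
  simp only [T_symm U V]

lemma fact_le (n k : ℕ) : ((n + k).factorial : ℝ) ≤ (k.factorial : ℝ) * 2 ^ (n + k) * (n.factorial : ℝ) := by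
  have h1 : (n + k).choose n * n.factorial * k.factorial = (n + k).factorial := by
    have := Nat.choose_mul_factorial_mul_factorial (Nat.le_add_right n k)
    rwa [Nat.add_sub_cancel_left] at this
  have h2 : (n + k).choose n ≤ 2 ^ (n + k) := Nat.choose_le_two_pow _ _
  have h3 : (n + k).factorial ≤ k.factorial * 2 ^ (n + k) * n.factorial := by
    rw [← h1]
    calc (n + k).choose n * n.factorial * k.factorial
        ≤ 2 ^ (n + k) * n.factorial * k.factorial := by gcongr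
      _ = _ := by ring
  exact_mod_cast h3

lemma two_mul_le (M : ℕ) : (((2 * M + 1 : ℕ)) : ℝ) ≤ 3 ^ M := by
  have : 2 * M + 1 ≤ 3 ^ M := by
    induction M with
    | zero => simp
    | succ M ih => rw [pow_succ]; omega
  exact_mod_cast this

lemma T_abs {U V : ℕ → ℝ} {C D q : ℝ} (hC : 0 ≤ C) (hD : 0 ≤ D) (hq : 0 ≤ q)
    (hU : ∀ j, |U j| ≤ C * q ^ j) (hV : ∀ j, |V j| ≤ D * q ^ j) (M : ℕ) :
    |T U V M| ≤ (M.factorial : ℝ) * (C * D) * (3 * q ^ 2) ^ M := by
  unfold T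
  rw [abs_mul, Nat.abs_cast, mul_assoc]
  refine mul_le_mul_of_nonneg_left ?_ (by positivity)
  calc |∑ k ∈ range (2 * M + 1), (-1) ^ k * U (2 * M - k) * V k|
      ≤ ∑ k ∈ range (2 * M + 1), |(-1) ^ k * U (2 * M - k) * V k| := Finset.abs_sum_le_sum_abs _ _
    _ ≤ ∑ _k ∈ range (2 * M + 1), C * D * q ^ (2 * M) := by
        refine Finset.sum_le_sum fun k hk => ?_
        have hk' : k ≤ 2 * M := Nat.lt_succ_iff.mp (Finset.mem_range.mp hk)
        rw [abs_mul, abs_mul, abs_pow, abs_neg, abs_one, one_pow, one_mul]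
        calc |U (2 * M - k)| * |V k| ≤ (C * q ^ (2 * M - k)) * (D * q ^ k) := by
              gcongr
              · exact hU _
              · exact hV _
          _ = C * D * (q ^ (2 * M - k) * q ^ k) := by ring
          _ = C * D * q ^ (2 * M) := by rw [← pow_add, Nat.sub_add_cancel hk']
    _ = ((2 * M + 1 : ℕ) : ℝ) * (C * D * q ^ (2 * M)) := by simp
    _ ≤ 3 ^ M * (C * D * q ^ (2 * M)) := by
        gcongr
        exact two_mul_le M
    _ = C * D * (3 * q ^ 2) ^ M := by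
        rw [mul_pow, pow_mul]
        ring

lemma T_bound {U V : ℕ → ℝ} {C D q : ℝ} (hC : 0 ≤ C) (hD : 0 ≤ D) (hq : 0 ≤ q)
    (hU : ∀ j, |U j| ≤ C * q ^ j) (hV : ∀ j, |V j| ≤ D * q ^ j) (N n : ℕ) :
    |T U V (N + n) / (N.factorial : ℝ)| ≤ (n.factorial : ℝ) * (C * D) * (6 * q ^ 2) ^ n
      * (6 * q ^ 2) ^ N := by
  have h1 := T_abs hC hD hq hU hV (N + n)
  have h2 := fact_le N n
  have hN : (0 : ℝ) < (N.factorial : ℝ) := by positivity
  rw [abs_div, abs_of_pos hN, div_le_iff₀ hN]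
  calc |T U V (N + n)| ≤ ((N + n).factorial : ℝ) * (C * D) * (3 * q ^ 2) ^ (N + n) := h1
    _ ≤ ((n.factorial : ℝ) * 2 ^ (N + n) * (N.factorial : ℝ)) * (C * D) * (3 * q ^ 2) ^ (N + n) := by
        gcongr
    _ = _ := by
        have : (6 * q ^ 2) ^ n * (6 * q ^ 2) ^ N = 2 ^ (N + n) * (3 * q ^ 2) ^ (N + n) := by
          rw [← pow_add, ← mul_pow, add_comm n N]
          congr 1
          ring
        rw [mul_assoc ((n.factorial : ℝ) * (C * D)), this]
        ring

lemma T_summable {U V : ℕ → ℝ} (hU : Small U) (hV : Small V) (n : ℕ) (t : ℝ) :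
    Summable fun N : ℕ => |T U V (N + n) / (N.factorial : ℝ) * (-t) ^ N| := by
  -- choose q
  set q : ℝ := √(1 / (12 * (|t| + 1))) with hqd
  have hq : 0 < q := by positivity
  have hq2 : q ^ 2 = 1 / (12 * (|t| + 1)) := Real.sq_sqrt (by positivity)
  obtain ⟨C, hC, hUC⟩ := hU q hq
  obtain ⟨D, hD, hVD⟩ := hV q hq
  refine Summable.of_nonneg_of_le (fun _ => abs_nonneg _) (fun N => ?_)
    ((summable_geometric_of_lt_one (r := (1 / 2 : ℝ)) (by norm_num) (by norm_num)).mul_left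
      ((n.factorial : ℝ) * (C * D) * (6 * q ^ 2) ^ n))
  rw [abs_mul, abs_pow, abs_neg]
  calc |T U V (N + n) / (N.factorial : ℝ)| * |t| ^ N
      ≤ ((n.factorial : ℝ) * (C * D) * (6 * q ^ 2) ^ n * (6 * q ^ 2) ^ N) * (|t| + 1) ^ N := by
        gcongr
        · exact T_bound hC.le hD.le hq.le hUC hVD N n
        · linarith
    _ = (n.factorial : ℝ) * (C * D) * (6 * q ^ 2) ^ n * (1 / 2) ^ N := by
        rw [mul_assoc, ← mul_pow, hq2]
        congr 2
        field_simp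
        norm_num

lemma S_hasSum {U V : ℕ → ℝ} (hU : Small U) (hV : Small V) (n : ℕ) (t : ℝ) :
    HasSum (fun N : ℕ => T U V (N + n) / (N.factorial : ℝ) * (-t) ^ N) (S U V n t) :=
  (summable_abs_iff.mp (T_summable hU hV n t)).hasSum

/-- positivity for all scalings -/
def Pos (U V : ℕ → ℝ) : Prop := ∀ (a b : ℝ), 0 < a → 0 < b → ∀ (n : ℕ) (t : ℝ), 0 ≤ t →
    0 ≤ S (sc a U) (sc b V) n t

lemma Pos.symm {U V : ℕ → ℝ} (h : Pos U V) : Pos V U := by
  intro a b ha hb n t ht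
  rw [S_symm]
  exact h b a hb ha n t ht

/-- the multipliers -/
noncomputable def rr (lam : ℝ) (i : ℕ) (U : ℕ → ℝ) : ℕ → ℝ :=
  fun j => (lam + 2 * (i + 1) * (1 - lam) / (2 * (i + 1) + j)) * U j

lemma rr_le {lam : ℝ} (h0 : 0 ≤ lam) (h1 : lam ≤ 1) (i j : ℕ) :
    |lam + 2 * ((i : ℝ) + 1) * (1 - lam) / (2 * (i + 1) + j)| ≤ 1 := by
  have hi : (0 : ℝ) ≤ i := Nat.cast_nonneg i
  have hj : (0 : ℝ) ≤ j := Nat.cast_nonneg j
  have h2 : 0 ≤ 1 - lam := by linarith
  rw [abs_of_nonneg (by positivity)]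
  have : 2 * ((i : ℝ) + 1) * (1 - lam) / (2 * (i + 1) + j) ≤ 1 - lam := by
    rw [div_le_iff₀ (by positivity)]
    nlinarith
  linarith

lemma Small.rr {U : ℕ → ℝ} (h : Small U) {lam : ℝ} (h0 : 0 ≤ lam) (h1 : lam ≤ 1) (i : ℕ) :
    Small (rr lam i U) := by
  intro q hq
  obtain ⟨C, hC, hU⟩ := h q hq
  refine ⟨C, hC, fun j => ?_⟩
  unfold MS.rr
  rw [abs_mul]
  calc |lam + 2 * ((i : ℝ) + 1) * (1 - lam) / (2 * (i + 1) + j)| * |U j| ≤ 1 * |U j| := by
        gcongr
        exact rr_le h0 h1 i j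
    _ ≤ C * q ^ j := by rw [one_mul]; exact hU j

lemma T_rr (lam : ℝ) (i : ℕ) (U V : ℕ → ℝ) (a : ℝ) (N : ℕ) :
    T (sc a (rr lam i U)) V N = lam * T (sc a U) V N
      + 2 * (i + 1) * (1 - lam) * ∫ y in (0 : ℝ)..1, y ^ (2 * i + 1) * T (sc (a * y) U) V N := by
  have hint : ∫ y in (0 : ℝ)..1, y ^ (2 * i + 1) * T (sc (a * y) U) V N
      = (N.factorial : ℝ) * ∑ k ∈ range (2 * N + 1), (-1) ^ k
        * (1 / (2 * ((i : ℝ) + 1) + ((2 * N - k : ℕ) : ℝ)) * sc a U (2 * N - k)) * V k := by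
    unfold T
    have e : ∀ y : ℝ, y ^ (2 * i + 1) * ((N.factorial : ℝ) * ∑ k ∈ range (2 * N + 1),
        (-1) ^ k * sc (a * y) U (2 * N - k) * V k)
        = ∑ k ∈ range (2 * N + 1), ((N.factorial : ℝ) * ((-1) ^ k * sc a U (2 * N - k) * V k))
          * y ^ (2 * i + 1 + (2 * N - k)) := by
      intro y
      rw [← mul_assoc, Finset.mul_sum]
      refine Finset.sum_congr rfl fun k _ => ?_
      unfold sc
      rw [mul_pow, pow_add]
      ring
    simp only [e]
    rw [intervalIntegral.integral_finsetSum]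
    · rw [Finset.mul_sum]
      refine Finset.sum_congr rfl fun k _ => ?_
      rw [intervalIntegral.integral_const_mul, integral_pow]
      have hp : (0 : ℝ) < 2 * ((i : ℝ) + 1) + ((2 * N - k : ℕ) : ℝ) := by positivity
      have e3 : (((2 * i + 1 + (2 * N - k) : ℕ) : ℝ)) + 1 = 2 * ((i : ℝ) + 1) + ((2 * N - k : ℕ) : ℝ) := by
        push_cast
        ring
      rw [one_pow, zero_pow (by omega), sub_zero, e3]
      field_simp
    · intro k _
      exact Continuous.intervalIntegrable (by fun_prop) _ _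
  rw [hint]
  unfold T
  simp only [Finset.mul_sum, ← Finset.sum_add_distrib]
  refine Finset.sum_congr rfl fun k _ => ?_
  unfold sc rr
  ring

lemma pos_step {U V : ℕ → ℝ} (hU : Small U) (hV : Small V) (h : Pos U V) {lam : ℝ} (h0 : 0 ≤ lam)
    (h1 : lam ≤ 1) (i : ℕ) : Pos (rr lam i U) V := by
  intro a b ha hb n t ht
  have hlam : 0 ≤ 1 - lam := by linarith
  set V' := sc b V with hV'
  have hV's : Small V' := hV.scale b
  -- a uniform bound
  set q : ℝ := √(1 / (12 * (|t| + 1))) with hqd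
  have hq : 0 < q := by positivity
  have hq2 : q ^ 2 = 1 / (12 * (|t| + 1)) := Real.sq_sqrt (by positivity)
  obtain ⟨C, hC, hUC⟩ := (hU.scale a) q hq
  obtain ⟨D, hD, hVD⟩ := hV's q hq
  have hub : ∀ y : ℝ, 0 ≤ y → y ≤ 1 → ∀ j, |sc (a * y) U j| ≤ C * q ^ j := by
    intro y hy0 hy1 j
    have : sc (a * y) U j = y ^ j * sc a U j := by
      unfold sc
      rw [mul_pow]
      ring
    rw [this, abs_mul, abs_of_nonneg (pow_nonneg hy0 j)]
    calc y ^ j * |sc a U j| ≤ 1 * |sc a U j| := by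
          gcongr
          exact pow_le_one₀ hy0 hy1
      _ ≤ _ := by rw [one_mul]; exact hUC j
  set K : ℝ := (n.factorial : ℝ) * (C * D) * (6 * q ^ 2) ^ n with hK
  have hterm : ∀ y : ℝ, 0 ≤ y → y ≤ 1 → ∀ N : ℕ,
      ‖y ^ (2 * i + 1) * (T (sc (a * y) U) V' (N + n) / (N.factorial : ℝ) * (-t) ^ N)‖
        ≤ K * (1 / 2) ^ N := by
    intro y hy0 hy1 N
    rw [norm_mul, norm_mul, norm_pow, norm_pow, norm_neg]
    simp only [Real.norm_eq_abs]
    rw [abs_of_nonneg hy0]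
    calc y ^ (2 * i + 1) * (|T (sc (a * y) U) V' (N + n) / (N.factorial : ℝ)| * |t| ^ N)
        ≤ 1 * ((K * (6 * q ^ 2) ^ N) * (|t| + 1) ^ N) := by
          gcongr
          · exact pow_le_one₀ hy0 hy1
          · exact T_bound hC.le hD.le hq.le (hub y hy0 hy1) hVD N n
          · linarith
      _ = K * (1 / 2) ^ N := by
          rw [one_mul, mul_assoc, ← mul_pow, hq2]
          congr 2
          field_simp
          norm_num
  have hgeo : Summable fun N : ℕ => K * (1 / 2 : ℝ) ^ N :=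
    (summable_geometric_of_lt_one (by norm_num) (by norm_num)).mul_left K
  have key : HasSum (fun N : ℕ => ∫ y in (0 : ℝ)..1,
      y ^ (2 * i + 1) * (T (sc (a * y) U) V' (N + n) / (N.factorial : ℝ) * (-t) ^ N))
      (∫ y in (0 : ℝ)..1, y ^ (2 * i + 1) * S (sc (a * y) U) V' n t) := by
    refine intervalIntegral.hasSum_integral_of_dominated_convergence
      (fun N _ => K * (1 / 2 : ℝ) ^ N) (fun N => ?_) (fun N => ?_) ?_ ?_ ?_
    · apply Continuous.aestronglyMeasurable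
      unfold T sc
      fun_prop
    · refine Eventually.of_forall fun y hy => ?_
      rw [Set.uIoc_of_le zero_le_one] at hy
      exact hterm y hy.1.le hy.2 N
    · exact Eventually.of_forall fun _ _ => hgeo
    · exact intervalIntegrable_const
    · refine Eventually.of_forall fun y hy => ?_
      exact (S_hasSum (hU.scale (a * y)) hV's n t).mul_left _
  have hT : ∀ N : ℕ, T (sc a (rr lam i U)) V' (N + n) / (N.factorial : ℝ) * (-t) ^ N
      = lam * (T (sc a U) V' (N + n) / (N.factorial : ℝ) * (-t) ^ N)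
        + 2 * (i + 1) * (1 - lam) * ∫ y in (0 : ℝ)..1,
          y ^ (2 * i + 1) * (T (sc (a * y) U) V' (N + n) / (N.factorial : ℝ) * (-t) ^ N) := by
    intro N
    rw [T_rr]
    have e : ∀ y : ℝ, y ^ (2 * i + 1) * (T (sc (a * y) U) V' (N + n) / (N.factorial : ℝ) * (-t) ^ N)
        = (y ^ (2 * i + 1) * T (sc (a * y) U) V' (N + n)) * ((-t) ^ N / (N.factorial : ℝ)) := by
      intro y; ring
    simp only [e]
    rw [intervalIntegral.integral_mul_const]
    ring
  have hs1 := S_hasSum (hU.scale a) hV's n t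
  have hfin := (hs1.mul_left lam).add (key.mul_left (2 * ((i : ℝ) + 1) * (1 - lam)))
  have hS : S (sc a (rr lam i U)) V' n t = lam * S (sc a U) V' n t
      + 2 * (i + 1) * (1 - lam) * ∫ y in (0 : ℝ)..1, y ^ (2 * i + 1) * S (sc (a * y) U) V' n t := by
    rw [S, tsum_congr hT]
    exact hfin.tsum_eq
  rw [hS]
  have p1 := h a b ha hb n t ht
  have p2 : 0 ≤ ∫ y in (0 : ℝ)..1, y ^ (2 * i + 1) * S (sc (a * y) U) V' n t := by
    rw [intervalIntegral.integral_of_le zero_le_one]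
    refine MeasureTheory.setIntegral_nonneg measurableSet_Ioc fun y hy => ?_
    exact mul_nonneg (pow_nonneg hy.1.le _) (h (a * y) b (mul_pos ha hy.1) hb n t ht)
  positivity

end Pool.Agent.X116.MS
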