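import Mathlib

set_option autoImplicit false

open MeasureTheory Set Filter Topology Polynomial
open scoped ENNReal

namespace Pool.Agent.X116.PA

lemma inner_int {s : ℝ} (hs : 0 < s) (c : ℝ) :
    ∫⁻ r in Ioi (0:ℝ), ENNReal.ofReal (c - s * r) ≤ ENNReal.ofReal ((max c 0) ^ 2 / (2 * s)) := by
  rcases le_or_gt c 0 with hc | hc
  · have h0 : ∫⁻ r in Ioi (0:ℝ), ENNReal.ofReal (c - s * r) = 0 := by
      rw [setLIntegral_congr_fun (g := fun _ => 0) measurableSet_Ioi]
      · simp
      · intro r hr
        have hr' : 0 < r := hr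
        have : c - s * r ≤ 0 := by nlinarith
        exact ENNReal.ofReal_of_nonpos this
    rw [h0]; exact zero_le
  · rw [max_eq_left hc.le]
    have hcs : 0 < c / s := div_pos hc hs
    have hsplit : Ioi (0:ℝ) = Ioc 0 (c / s) ∪ Ioi (c / s) := (Ioc_union_Ioi_eq_Ioi hcs.le).symm
    rw [hsplit]
    refine (lintegral_union_le _ _ _).trans ?_
    have h2 : ∫⁻ r in Ioi (c / s), ENNReal.ofReal (c - s * r) = 0 := by
      rw [setLIntegral_congr_fun (g := fun _ => 0) measurableSet_Ioi]
      · simp
      · intro r hr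
        have hr' : c / s < r := hr
        rw [div_lt_iff₀ hs] at hr'
        have : c - s * r ≤ 0 := by nlinarith
        exact ENNReal.ofReal_of_nonpos this
    rw [h2, add_zero]
    have h3 : ∫⁻ r in Ioc (0:ℝ) (c / s), ENNReal.ofReal (c - s * r)
        = ENNReal.ofReal (∫ r in Ioc (0:ℝ) (c / s), (c - s * r)) := by
      rw [ofReal_integral_eq_lintegral_ofReal]
      · exact ((continuous_const.sub (continuous_const.mul continuous_id)).integrableOn_Icc).mono_set
          Ioc_subset_Icc_self
      · refine (ae_restrict_iff' measurableSet_Ioc).2 (Eventually.of_forall fun r hr => ?_)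
        have := hr.2
        rw [le_div_iff₀ hs] at this
        show 0 ≤ c - s * r
        nlinarith
    rw [h3]
    apply ENNReal.ofReal_le_ofReal
    rw [← intervalIntegral.integral_of_le hcs.le]
    have h4 : ∫ r in (0:ℝ)..(c / s), (c - s * r) = c * (c / s) - s * ((c / s) ^ 2 / 2) := by
      rw [intervalIntegral.integral_sub (by simp) (by
        exact (continuous_const.mul continuous_id).intervalIntegrable _ _)]
      rw [intervalIntegral.integral_const, intervalIntegral.integral_const_mul, integral_id]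
      simp only [smul_eq_mul]
      ring
    rw [h4]
    apply le_of_eq
    field_simp
    ring

lemma re_inv {r C S : ℝ} (hr : r ≠ 0) (h : S ^ 2 + C ^ 2 = 1) :
    (1 / ((r : ℂ) * ((C : ℂ) + (S : ℂ) * Complex.I))).re = C / r := by
  have hne : (r : ℂ) ≠ 0 := by exact_mod_cast hr
  have hcs : ((C : ℂ) + (S : ℂ) * Complex.I) * ((C : ℂ) - (S : ℂ) * Complex.I) = 1 := by
    have h3 : ((S : ℂ)) ^ 2 + ((C : ℂ)) ^ 2 = 1 := by exact_mod_cast h
    linear_combination h3 - (S : ℂ) ^ 2 * Complex.I_sq
  have hne2 : ((C : ℂ) + (S : ℂ) * Complex.I) ≠ 0 := left_ne_zero_of_mul_eq_one hcs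
  have h2 : (1 / ((r : ℂ) * ((C : ℂ) + (S : ℂ) * Complex.I)))
      = ((1 / r : ℝ) : ℂ) * ((C : ℂ) - (S : ℂ) * Complex.I) := by
    push_cast
    rw [div_eq_iff (mul_ne_zero hne hne2)]
    field_simp
    rw [mul_comm]
    exact hcs.symm
  rw [h2, Complex.re_ofReal_mul]
  simp
  ring

lemma kernel {s : ℝ} (hs : 0 < s) :
    ∫⁻ w : ℂ, ENNReal.ofReal ((1 / w).re - s) ≤ ENNReal.ofReal (Real.pi / (4 * s)) := by
  rw [← Complex.lintegral_comp_polarCoord_symm]
  have e1 : ∫⁻ p in polarCoord.target, ENNReal.ofReal p.1 •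
      ENNReal.ofReal ((1 / Complex.polarCoord.symm p).re - s)
      = ∫⁻ p in (Ioi (0:ℝ)) ×ˢ (Ioo (-Real.pi) Real.pi), ENNReal.ofReal (Real.cos p.2 - s * p.1) := by
    rw [polarCoord_target]
    refine setLIntegral_congr_fun (measurableSet_Ioi.prod measurableSet_Ioo) fun p hp => ?_
    have hp1 : 0 < p.1 := hp.1
    show ENNReal.ofReal p.1 • _ = _
    rw [smul_eq_mul, ← ENNReal.ofReal_mul hp1.le, Complex.polarCoord_symm_apply]
    congr 1
    have hne : (p.1 : ℂ) ≠ 0 := by exact_mod_cast hp1.ne'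
    have h1 : (1 / ((p.1 : ℂ) * ((Real.cos p.2 : ℂ) + (Real.sin p.2 : ℂ) * Complex.I))).re
        = Real.cos p.2 / p.1 := re_inv hp1.ne' (Real.sin_sq_add_cos_sq p.2)
    rw [h1]
    field_simp
  rw [e1, Measure.volume_eq_prod, ← Measure.prod_restrict]
  rw [lintegral_prod_symm _ (by fun_prop)]
  have e2 : ∫⁻ y in Ioo (-Real.pi) Real.pi, ∫⁻ x in Ioi (0:ℝ), ENNReal.ofReal (Real.cos y - s * x)
      ≤ ∫⁻ y in Ioo (-Real.pi) Real.pi,
        (Icc (-(Real.pi / 2)) (Real.pi / 2)).indicator
          (fun y => ENNReal.ofReal (Real.cos y ^ 2 / (2 * s))) y := by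
    refine setLIntegral_mono' measurableSet_Ioo fun y hy => ?_
    refine (inner_int hs (Real.cos y)).trans ?_
    by_cases hy2 : y ∈ Icc (-(Real.pi / 2)) (Real.pi / 2)
    · rw [indicator_of_mem hy2, max_eq_left (Real.cos_nonneg_of_mem_Icc hy2)]
    · rw [indicator_of_notMem hy2]
      have hcos : Real.cos y ≤ 0 := by
        rw [mem_Icc, not_and_or, not_le, not_le] at hy2
        rcases hy2 with h | h
        · rw [← Real.cos_neg]
          exact Real.cos_nonpos_of_pi_div_two_le_of_le (by linarith) (by linarith [hy.1, Real.pi_pos])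
        · exact Real.cos_nonpos_of_pi_div_two_le_of_le h.le (by linarith [hy.2, Real.pi_pos])
      rw [max_eq_right hcos]
      simp
  refine e2.trans ?_
  refine (lintegral_mono' Measure.restrict_le_self le_rfl).trans ?_
  rw [lintegral_indicator measurableSet_Icc]
  have h5 : ∫⁻ y in Icc (-(Real.pi / 2)) (Real.pi / 2), ENNReal.ofReal (Real.cos y ^ 2 / (2 * s))
      = ENNReal.ofReal (∫ y in Icc (-(Real.pi / 2)) (Real.pi / 2), (Real.cos y ^ 2 / (2 * s))) := by
    rw [ofReal_integral_eq_lintegral_ofReal]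
    · exact (Continuous.integrableOn_Icc (by fun_prop))
    · exact Eventually.of_forall fun r => by positivity
  rw [h5]
  apply ENNReal.ofReal_le_ofReal
  rw [integral_Icc_eq_integral_Ioc, ← intervalIntegral.integral_of_le (by linarith [Real.pi_pos])]
  rw [intervalIntegral.integral_div, integral_cos_sq]
  simp only [Real.cos_neg, Real.cos_pi_div_two, zero_mul, sub_self, zero_add]
  apply le_of_eq
  field_simp
  ring

/-- the Ahlfors-Beurling inequality -/
theorem ahlfors_beurling {K : Set ℂ} (hb : volume K < ⊤) (z : ℂ) :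
    ‖∫ w in K, 1 / (z - w)‖ ≤ Real.sqrt (Real.pi * (volume K).toReal) := by
  by_cases hint : IntegrableOn (fun w : ℂ => 1 / (z - w)) K
  swap
  · rw [integral_undef hint, norm_zero]; positivity
  rcases eq_or_ne (volume K) 0 with h0 | h0
  · rw [Measure.restrict_eq_zero.2 h0, integral_zero_measure, norm_zero]; positivity
  set A := (volume K).toReal with hA
  have hA0 : 0 < A := ENNReal.toReal_pos h0 hb.ne
  set I := ∫ w in K, 1 / (z - w) with hI
  by_cases hI0 : I = 0
  · rw [hI0, norm_zero]; positivity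
  have hIn : 0 < ‖I‖ := norm_pos_iff.2 hI0
  set u : ℂ := (starRingEnd ℂ) I / ‖I‖ with hu
  have hun : ‖u‖ = 1 := by
    rw [hu, norm_div, RCLike.norm_conj, Complex.norm_real, norm_norm, div_self hIn.ne']
  have huI : u * I = (‖I‖ : ℂ) := by
    have hne : (‖I‖ : ℂ) ≠ 0 := by exact_mod_cast hIn.ne'
    rw [hu, div_mul_eq_mul_div, div_eq_iff hne, mul_comm, Complex.mul_conj, Complex.normSq_eq_norm_sq]
    push_cast
    ring
  have hgint : IntegrableOn (fun w : ℂ => u * (1 / (z - w))) K := hint.const_mul u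
  have h1 : ‖I‖ = ∫ w in K, (u * (1 / (z - w))).re := by
    have h2 : ∫ w in K, (u * (1 / (z - w))).re = (∫ w in K, u * (1 / (z - w))).re :=
      integral_re hgint
    rw [h2, integral_const_mul, ← hI, huI, Complex.ofReal_re]
  have hre : IntegrableOn (fun w : ℂ => (u * (1 / (z - w))).re) K := hgint.re
  have hfin : IsFiniteMeasure (volume.restrict K) := ⟨by simpa using hb⟩
  set s : ℝ := Real.sqrt Real.pi / (2 * Real.sqrt A) with hs
  have hs0 : 0 < s := by
    rw [hs]
    have := Real.sqrt_pos.2 Real.pi_pos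
    have := Real.sqrt_pos.2 hA0
    positivity
  have h3 : ∫ w in K, ((u * (1 / (z - w))).re - s) ≤ Real.pi / (4 * s) := by
    have h12 := integral_eq_lintegral_pos_part_sub_lintegral_neg_part
      (μ := volume.restrict K) (f := fun w : ℂ => (u * (1 / (z - w))).re - s)
      (hre.sub (integrable_const s))
    rw [h12]
    have h4 : ∫⁻ w in K, ENNReal.ofReal ((u * (1 / (z - w))).re - s)
        ≤ ENNReal.ofReal (Real.pi / (4 * s)) := by
      refine (lintegral_mono' Measure.restrict_le_self le_rfl).trans ?_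
      have h5 : ∫⁻ w : ℂ, ENNReal.ofReal ((u * (1 / (z - w))).re - s)
          = ∫⁻ v : ℂ, ENNReal.ofReal ((u * (1 / v)).re - s) :=
        lintegral_sub_left_eq_self (fun v : ℂ => ENNReal.ofReal ((u * (1 / v)).re - s)) z
      rw [h5]
      have hcirc : u ∈ Submonoid.unitSphere ℂ := by
        rw [Submonoid.unitSphere]
        show u ∈ Metric.sphere (0:ℂ) 1
        rw [mem_sphere_zero_iff_norm]; exact hun
      set c : Circle := ⟨u, hcirc⟩ with hc
      have h6 : ∫⁻ v : ℂ, ENNReal.ofReal ((u * (1 / v)).re - s)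
          = ∫⁻ v : ℂ, ENNReal.ofReal ((u * (1 / (rotation c v))).re - s) :=
        ((rotation c).measurePreserving.lintegral_comp (f := fun v : ℂ =>
          ENNReal.ofReal ((u * (1 / v)).re - s)) (by fun_prop)).symm
      rw [h6]
      refine le_trans (le_of_eq (lintegral_congr fun v => ?_)) (kernel hs0)
      congr 3
      have hu0 : u ≠ 0 := by
        intro h; rw [h, norm_zero] at hun; exact zero_ne_one hun
      have : rotation c v = u * v := rfl
      rw [this]
      rcases eq_or_ne v 0 with hv | hv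
      · rw [hv]; simp
      · field_simp
    have h7 : (∫⁻ w in K, ENNReal.ofReal ((u * (1 / (z - w))).re - s)).toReal ≤ Real.pi / (4 * s) := by
      refine ENNReal.toReal_le_of_le_ofReal ?_ h4
      have := Real.pi_pos
      positivity
    have h8 : 0 ≤ (∫⁻ w in K, ENNReal.ofReal (-((u * (1 / (z - w))).re - s))).toReal :=
      ENNReal.toReal_nonneg
    linarith
  have h3' : ∫ w in K, ((u * (1 / (z - w))).re - s) = ‖I‖ - A * s := by
    have h11 := integral_sub (μ := volume.restrict K) (f := fun w : ℂ => (u * (1 / (z - w))).re)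
      (g := fun _ => s) hre (integrable_const s)
    rw [h11, ← h1, integral_const, measureReal_restrict_apply_univ, smul_eq_mul]
    rfl
  rw [h3'] at h3
  have h10 : A * s + Real.pi / (4 * s) = Real.sqrt (Real.pi * A) := by
    rw [hs, Real.sqrt_mul Real.pi_pos.le]
    have hp := Real.sqrt_pos.2 Real.pi_pos
    have ha := Real.sqrt_pos.2 hA0
    have e1 : Real.sqrt Real.pi ^ 2 = Real.pi := Real.sq_sqrt Real.pi_pos.le
    have e2 : Real.sqrt A ^ 2 = A := Real.sq_sqrt hA0.le
    field_simp
    rw [e1, e2]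
    ring
  linarith

end Pool.Agent.X116.PA
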