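import Pool.Agent.X116.PolyaArea

set_option autoImplicit false

open MeasureTheory Set Filter Topology Polynomial
open scoped ENNReal

namespace Pool.Agent.X116.PA

lemma den_lower {K : Set ℂ} (hK : IsCompact K) (w0 ζ1 : ℂ)
    (hne : ∀ w ∈ K, 1 - ζ1 * (w - w0) ≠ 0) :
    ∃ δ B : ℝ, 0 < δ ∧ 0 < B ∧ (∀ w ∈ K, ‖w - w0‖ ≤ B) ∧
      ∀ w ∈ K, ∀ ζ : ℂ, ‖ζ - ζ1‖ ≤ δ / B → δ ≤ ‖1 - ζ * (w - w0)‖ := by
  obtain ⟨δ2, hδ2, h1⟩ : ∃ δ2 : ℝ, 0 < δ2 ∧ ∀ w ∈ K, δ2 ≤ ‖1 - ζ1 * (w - w0)‖ := by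
    rcases K.eq_empty_or_nonempty with h | h
    · exact ⟨1, one_pos, fun w hw => by rw [h] at hw; exact absurd hw (notMem_empty w)⟩
    · obtain ⟨w1, hw1, hmin⟩ := hK.exists_isMinOn h
        (f := fun w => ‖1 - ζ1 * (w - w0)‖) (by fun_prop)
      exact ⟨_, norm_pos_iff.2 (hne w1 hw1), fun w hw => hmin hw⟩
  obtain ⟨B0, hB0⟩ := (hK.image (f := fun w : ℂ => w - w0) (by fun_prop)).isBounded.exists_norm_le
  refine ⟨δ2 / 2, max B0 1, by linarith, lt_of_lt_of_le one_pos (le_max_right _ _),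
    fun w hw => (hB0 _ (mem_image_of_mem _ hw)).trans (le_max_left _ _), fun w hw ζ hζ => ?_⟩
  have hB : 0 < max B0 1 := lt_of_lt_of_le one_pos (le_max_right _ _)
  have h2 : ‖w - w0‖ ≤ max B0 1 := (hB0 _ (mem_image_of_mem _ hw)).trans (le_max_left _ _)
  have h3 : ‖(ζ - ζ1) * (w - w0)‖ ≤ δ2 / 2 := by
    rw [norm_mul]
    calc ‖ζ - ζ1‖ * ‖w - w0‖ ≤ (δ2 / 2 / max B0 1) * max B0 1 := by gcongr
      _ = δ2 / 2 := by field_simp
  have h4 : 1 - ζ1 * (w - w0) = (1 - ζ * (w - w0)) + (ζ - ζ1) * (w - w0) := by ring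
  have h5 := h1 w hw
  rw [h4] at h5
  have h6 := norm_add_le (1 - ζ * (w - w0)) ((ζ - ζ1) * (w - w0))
  linarith

lemma F_diff {K : Set ℂ} (hK : IsCompact K) (w0 ζ1 : ℂ)
    (hne : ∀ w ∈ K, 1 - ζ1 * (w - w0) ≠ 0) :
    DifferentiableAt ℂ (fun ζ : ℂ => ∫ w in K, 1 / (1 - ζ * (w - w0))) ζ1 := by
  obtain ⟨δ, B, hδ, hB, hwB, hlow⟩ := den_lower hK w0 ζ1 hne
  have hfin : IsFiniteMeasure (volume.restrict K) := ⟨by simpa using hK.measure_lt_top⟩
  have hmem : Metric.ball ζ1 (δ / B) ∈ 𝓝 ζ1 := Metric.ball_mem_nhds _ (div_pos hδ hB)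
  have key := hasDerivAt_integral_of_dominated_loc_of_deriv_le (μ := volume.restrict K)
    (F := fun (ζ w : ℂ) => 1 / (1 - ζ * (w - w0)))
    (F' := fun (ζ w : ℂ) => (w - w0) / (1 - ζ * (w - w0)) ^ 2)
    (x₀ := ζ1) (s := Metric.ball ζ1 (δ / B)) (bound := fun _ => B / δ ^ 2) hmem
    (Eventually.of_forall fun ζ => (Measurable.aestronglyMeasurable (by fun_prop)))
    (by
      refine Integrable.of_bound (Measurable.aestronglyMeasurable (by fun_prop)) (1 / δ) ?_
      refine (ae_restrict_iff' hK.measurableSet).2 (Eventually.of_forall fun w hw => ?_)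
      rw [norm_div, norm_one]
      have := hlow w hw ζ1 (by simp; positivity)
      gcongr)
    (Measurable.aestronglyMeasurable (by fun_prop))
    (by
      refine (ae_restrict_iff' hK.measurableSet).2 (Eventually.of_forall fun w hw ζ hζ => ?_)
      rw [norm_div, norm_pow]
      have h1 := hlow w hw ζ (by
        rw [Metric.mem_ball, dist_eq_norm] at hζ
        exact hζ.le)
      have h2 := hwB w hw
      gcongr)
    (integrable_const _)
    (by
      refine (ae_restrict_iff' hK.measurableSet).2 (Eventually.of_forall fun w hw ζ hζ => ?_)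
      have h1 := hlow w hw ζ (by
        rw [Metric.mem_ball, dist_eq_norm] at hζ
        exact hζ.le)
      have hne : 1 - ζ * (w - w0) ≠ 0 := by
        intro h; rw [h, norm_zero] at h1; linarith
      have h2 : HasDerivAt (fun ζ : ℂ => 1 - ζ * (w - w0)) (-(w - w0)) ζ := by
        have := ((hasDerivAt_id ζ).mul_const (w - w0)).const_sub 1
        simpa using this
      have h3 := h2.inv hne
      have h4 : (fun ζ : ℂ => 1 / (1 - ζ * (w - w0))) = fun ζ : ℂ => (1 - ζ * (w - w0))⁻¹ := by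
        funext ζ; rw [one_div]
      show HasDerivAt (fun ζ : ℂ => 1 / (1 - ζ * (w - w0))) _ ζ
      rw [h4]
      have h5 : - -(w - w0) / (1 - ζ * (w - w0)) ^ 2 = (w - w0) / (1 - ζ * (w - w0)) ^ 2 := by
        rw [neg_neg]
      rw [h5] at h3
      exact h3)
  exact key.2.differentiableAt

/-- **Pólya's inequality** for the area of lemniscates. -/
theorem polya {P : ℂ[X]} (hP : P.Monic) (hd : 1 ≤ P.natDegree) {R : ℝ} (hR : 0 < R) :
    volume {z : ℂ | ‖P.eval z‖ ≤ R} ≤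
      ENNReal.ofReal (Real.pi * R ^ (2 / (P.natDegree : ℝ))) := by
  set n := P.natDegree with hn
  set K : Set ℂ := {z : ℂ | ‖P.eval z‖ ≤ R} with hKdef
  have hdeg : P.degree ≠ 0 := by
    intro h
    rw [Polynomial.degree_eq_natDegree hP.ne_zero] at h
    have : P.natDegree = 0 := by exact_mod_cast h
    omega
  have hdpos : 0 < P.degree := by
    rw [Polynomial.degree_eq_natDegree hP.ne_zero]
    exact_mod_cast hd
  have hcont : Continuous fun z : ℂ => ‖P.eval z‖ := P.continuous.norm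
  have hKclosed : IsClosed K := isClosed_le hcont continuous_const
  have hKbdd : Bornology.IsBounded K := by
    have ht : Tendsto (fun z : ℂ => ‖P.eval z‖) (cocompact ℂ) atTop :=
      P.tendsto_norm_atTop hdpos tendsto_norm_cocompact_atTop
    have h1 := ht.eventually_gt_atTop R
    rw [Filter.Eventually, Filter.mem_cocompact] at h1
    obtain ⟨t, ht1, ht2⟩ := h1
    refine ht1.isBounded.subset fun z hz => ?_
    by_contra hcon
    have := ht2 hcon
    simp only [mem_ofPred_eq] at this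
    exact absurd hz (not_le.2 this)
  have hKc : IsCompact K := Metric.isCompact_of_isClosed_isBounded hKclosed hKbdd
  have hKfin : volume K < ⊤ := hKc.measure_lt_top
  set A := (volume K).toReal with hA
  have hA0 : 0 ≤ A := ENNReal.toReal_nonneg
  obtain ⟨w0, hw0⟩ := IsAlgClosed.exists_root P hdeg
  set Pt : ℂ[X] := P.comp (X + C w0) with hPt
  have hPtd : Pt.natDegree = n := by
    rw [hPt, natDegree_comp, natDegree_X_add_C, mul_one]
  have hPtm : Pt.Monic := hP.comp_X_add_C w0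
  set Q : ℂ[X] := Pt.reverse with hQ
  have hQ0 : Q.eval 0 = 1 := by
    rw [← coeff_zero_eq_eval_zero, hQ, coeff_zero_reverse]
    exact hPtm
  have hQev : ∀ ζ : ℂ, ζ ≠ 0 → Q.eval ζ = ζ ^ n * P.eval (w0 + 1 / ζ) := by
    intro ζ hζ
    have hinv : Invertible (1 / ζ) := invertibleOfNonzero (one_div_ne_zero hζ)
    have h1 := eval₂_reverse_mul_pow (RingHom.id ℂ) (1 / ζ) Pt
    rw [hPtd] at h1
    have h2 : ⅟(1 / ζ) = ζ := by
      rw [invOf_eq_inv, one_div, inv_inv]
    rw [h2] at h1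
    simp only [eval₂_id] at h1
    have h3 : Pt.eval (1 / ζ) = P.eval (w0 + 1 / ζ) := by
      rw [hPt, eval_comp]
      congr 1
      simp
      ring
    rw [h3] at h1
    rw [← h1, ← hQ, one_div, inv_pow, mul_comm, mul_assoc, inv_mul_cancel₀ (pow_ne_zero n hζ),
      mul_one]
  -- main inequality for every larger level
  have main : ∀ R' : ℝ, R < R' → A ^ n ≤ Real.sqrt (Real.pi * A) ^ n * R' := by
    intro R' hR'
    have hR'0 : 0 < R' := hR.trans hR'
    set U : Set ℂ := {ζ : ℂ | R' * ‖ζ‖ ^ n < ‖Q.eval ζ‖} with hU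
    have hc1 : Continuous fun ζ : ℂ => R' * ‖ζ‖ ^ n := by fun_prop
    have hc2 : Continuous fun ζ : ℂ => ‖Q.eval ζ‖ := Q.continuous.norm
    have hcl : ∀ ζ ∈ closure U, R' * ‖ζ‖ ^ n ≤ ‖Q.eval ζ‖ := fun ζ hζ =>
      closure_lt_subset_le hc1 hc2 hζ
    have hfr : ∀ ζ ∈ frontier U, R' * ‖ζ‖ ^ n = ‖Q.eval ζ‖ := fun ζ hζ =>
      frontier_lt_subset_eq hc1 hc2 hζ
    have h0U : (0 : ℂ) ∈ U := by
      show R' * ‖(0:ℂ)‖ ^ n < ‖Q.eval 0‖
      rw [hQ0, norm_zero, zero_pow (by omega), mul_zero, norm_one]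
      exact one_pos
    have hUb : Bornology.IsBounded U := by
      have hcP : ContinuousAt (fun v : ℂ => ‖P.eval (w0 + v)‖) 0 :=
        (P.continuous.comp (continuous_const.add continuous_id)).norm.continuousAt
      have h1 : ∀ᶠ v in 𝓝 (0 : ℂ), ‖P.eval (w0 + v)‖ < R' := by
        refine hcP.eventually_lt continuousAt_const ?_
        have : P.eval w0 = 0 := hw0
        simp [this, hR'0]
      obtain ⟨δ, hδ, h2⟩ := Metric.eventually_nhds_iff.1 h1
      refine (Metric.isBounded_closedBall (x := (0:ℂ)) (r := 1 / δ)).subset fun ζ hζ => ?_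
      rw [mem_closedBall_zero_iff]
      by_contra hcon
      rw [not_le] at hcon
      have hζ0 : 0 < ‖ζ‖ := (by positivity : 0 < 1 / δ).trans hcon
      have hζne : ζ ≠ 0 := norm_pos_iff.1 hζ0
      have h3 : ‖P.eval (w0 + 1 / ζ)‖ < R' := by
        apply h2
        rw [dist_zero_right, norm_div, norm_one, div_lt_iff₀ hζ0]
        rw [div_lt_iff₀ hδ] at hcon
        linarith
      have h4 : R' * ‖ζ‖ ^ n < ‖Q.eval ζ‖ := hζ
      rw [hQev ζ hζne, norm_mul, norm_pow] at h4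
      have : 0 < ‖ζ‖ ^ n := by positivity
      nlinarith
    set F : ℂ → ℂ := fun ζ : ℂ => ∫ w in K, 1 / (1 - ζ * (w - w0)) with hF
    have hne : ∀ ζ ∈ closure U, ∀ w ∈ K, 1 - ζ * (w - w0) ≠ 0 := by
      intro ζ hζ w hw h
      have hζ0 : ζ ≠ 0 := by rintro rfl; simp at h
      have h1 : w = w0 + 1 / ζ := by
        field_simp
        linear_combination -h
      have h2 := hcl ζ hζ
      rw [hQev ζ hζ0, ← h1, norm_mul, norm_pow] at h2
      have h3 : ‖P.eval w‖ ≤ R := hw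
      have h4 : 0 < ‖ζ‖ ^ n := pow_pos (norm_pos_iff.2 hζ0) n
      nlinarith
    have hFd : DifferentiableOn ℂ (fun ζ => F ζ ^ n * Q.eval ζ) (closure U) := by
      intro ζ hζ
      exact (((F_diff hKc w0 ζ (hne ζ hζ)).pow n).mul Q.differentiableAt).differentiableWithinAt
    have hbound : ∀ ζ ∈ frontier U, ‖F ζ ^ n * Q.eval ζ‖ ≤ Real.sqrt (Real.pi * A) ^ n * R' := by
      intro ζ hζ
      have h1 := hfr ζ hζ
      have hζ0 : ζ ≠ 0 := by
        rintro rfl
        rw [hQ0, norm_zero, zero_pow (by omega), mul_zero, norm_one] at h1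
        exact zero_ne_one h1
      have hζn : 0 < ‖ζ‖ := norm_pos_iff.2 hζ0
      have h2 : F ζ = (1 / ζ) * ∫ w in K, 1 / ((w0 + 1 / ζ) - w) := by
        rw [hF, ← integral_const_mul]
        refine integral_congr_ae (Eventually.of_forall fun w => ?_)
        show 1 / (1 - ζ * (w - w0)) = 1 / ζ * (1 / (w0 + 1 / ζ - w))
        rw [div_mul_div_comm, one_mul]
        congr 1
        field_simp
        ring
      have h3 : ‖F ζ‖ ≤ Real.sqrt (Real.pi * A) / ‖ζ‖ := by
        rw [h2, norm_mul, norm_div, norm_one]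
        have := ahlfors_beurling hKfin (w0 + 1 / ζ)
        rw [div_mul_eq_mul_div, one_mul]
        gcongr
      rw [norm_mul, norm_pow, ← h1]
      calc ‖F ζ‖ ^ n * (R' * ‖ζ‖ ^ n) ≤ (Real.sqrt (Real.pi * A) / ‖ζ‖) ^ n * (R' * ‖ζ‖ ^ n) := by
            gcongr
        _ = Real.sqrt (Real.pi * A) ^ n * R' := by
            rw [div_pow]; field_simp
    have h5 := Complex.norm_le_of_forall_mem_frontier_norm_le hUb hFd.diffContOnCl hbound
      (subset_closure h0U)
    have h6 : F 0 = (A : ℂ) := by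
      rw [hF]
      simp only [zero_mul, sub_zero, div_one]
      rw [integral_const]
      simp [Measure.real, hA]
    rw [h6, hQ0, mul_one, norm_pow, Complex.norm_real, Real.norm_of_nonneg hA0] at h5
    exact h5
  have hlim : A ^ n ≤ Real.sqrt (Real.pi * A) ^ n * R := by
    have h1 : Tendsto (fun R' : ℝ => Real.sqrt (Real.pi * A) ^ n * R') (𝓝[>] R)
        (𝓝 (Real.sqrt (Real.pi * A) ^ n * R)) :=
      (tendsto_const_nhds.mul tendsto_id).mono_left nhdsWithin_le_nhds
    refine ge_of_tendsto h1 ?_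
    filter_upwards [self_mem_nhdsWithin] with R' hR'
    exact main R' hR'
  rw [← ENNReal.ofReal_toReal hKfin.ne]
  apply ENNReal.ofReal_le_ofReal
  rw [← hA]
  rcases eq_or_lt_of_le hA0 with h | hApos
  · rw [← h]; positivity
  have hsA : 0 < Real.sqrt A := Real.sqrt_pos.2 hApos
  have h7 : Real.sqrt A ^ n ≤ Real.sqrt Real.pi ^ n * R := by
    have e1 : A ^ n = Real.sqrt A ^ n * Real.sqrt A ^ n := by
      rw [← mul_pow, Real.mul_self_sqrt hA0]
    rw [e1, Real.sqrt_mul Real.pi_pos.le, mul_pow] at hlim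
    have h8 : 0 < Real.sqrt A ^ n := by positivity
    nlinarith
  have hn0 : (0 : ℝ) < n := by exact_mod_cast hd
  have h9 : Real.sqrt A ≤ Real.sqrt Real.pi * R ^ (1 / (n : ℝ)) := by
    have e2 : (Real.sqrt Real.pi * R ^ (1 / (n : ℝ))) ^ n = Real.sqrt Real.pi ^ n * R := by
      rw [mul_pow, ← Real.rpow_natCast (R ^ (1 / (n : ℝ))), ← Real.rpow_mul hR.le,
        one_div_mul_cancel hn0.ne', Real.rpow_one]
    rw [← e2] at h7
    exact le_of_pow_le_pow_left₀ (by omega) (by positivity) h7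
  calc A = Real.sqrt A ^ 2 := (Real.sq_sqrt hA0).symm
    _ ≤ (Real.sqrt Real.pi * R ^ (1 / (n : ℝ))) ^ 2 := by gcongr
    _ = Real.pi * R ^ (2 / (n : ℝ)) := by
        rw [mul_pow, Real.sq_sqrt Real.pi_pos.le, ← Real.rpow_natCast (R ^ (1 / (n : ℝ))),
          ← Real.rpow_mul hR.le]
        congr 2
        push_cast
        ring

end Pool.Agent.X116.PA
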