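import Mathlib

open MeasureTheory Set Filter Topology

namespace Pool.Agent.X116.Ra

/-- `p` and `q` are not both divisible by `2`, by `3` or by `5`. -/
def cop (p q : ℤ) : Prop :=
  ¬ ((2:ℤ) ∣ p ∧ (2:ℤ) ∣ q) ∧ ¬ ((3:ℤ) ∣ p ∧ (3:ℤ) ∣ q) ∧ ¬ ((5:ℤ) ∣ p ∧ (5:ℤ) ∣ q)

instance (p q : ℤ) : Decidable (cop p q) := by unfold cop; infer_instance

noncomputable def F (η : ℝ) (q : ℕ) (v : ℝ) : ℝ :=
  if Int.fract v < η ∧ cop ⌊v⌋ q then 1 else 0

lemma F_nonneg (η : ℝ) (q : ℕ) (v : ℝ) : 0 ≤ F η q v := by unfold F; split_ifs <;> norm_num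
lemma F_le_one (η : ℝ) (q : ℕ) (v : ℝ) : F η q v ≤ 1 := by unfold F; split_ifs <;> norm_num

lemma F_abs (η : ℝ) (q : ℕ) (v : ℝ) : |F η q v| ≤ 1 := by
  rw [abs_of_nonneg (F_nonneg _ _ _)]; exact F_le_one _ _ _

lemma F_meas (η : ℝ) (q : ℕ) : Measurable (F η q) := by
  unfold F
  apply Measurable.ite _ measurable_const measurable_const
  apply MeasurableSet.inter
  · exact measurableSet_lt measurable_fract measurable_const
  · exact (Int.measurable_floor (MeasurableSet.of_discrete (s := {p : ℤ | cop p q})))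

lemma cop_add30 (p q : ℤ) : cop (p + 30) q ↔ cop p q := by
  unfold cop; omega

lemma cop_addq (p q : ℤ) : cop (p + q) q ↔ cop p q := by
  unfold cop; omega

lemma F_per30 (η : ℝ) (q : ℕ) : Function.Periodic (F η q) 30 := by
  intro v
  have h1 : Int.fract (v + 30) = Int.fract v := by
    have := Int.fract_add_natCast v 30; simpa using this
  have h2 : ⌊v + 30⌋ = ⌊v⌋ + 30 := by
    have := Int.floor_add_natCast v 30; simpa using this
  unfold F
  rw [h1, h2]
  simp only [cop_add30]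

lemma F_perq (η : ℝ) (q : ℕ) : Function.Periodic (F η q) (q : ℝ) := by
  intro v
  have h1 : Int.fract (v + q) = Int.fract v := Int.fract_add_natCast v q
  have h2 : ⌊v + (q:ℝ)⌋ = ⌊v⌋ + q := Int.floor_add_natCast v q
  unfold F
  rw [h1, h2]
  simp only [cop_addq]

lemma bddint {f : ℝ → ℝ} (hf : Measurable f) {C : ℝ} (hb : ∀ x, |f x| ≤ C) (a b : ℝ) :
    IntervalIntegrable f volume a b := by
  apply (intervalIntegrable_const (c := C) (μ := volume) (a := a) (b := b)).mono_fun
    hf.aestronglyMeasurable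
  refine Filter.Eventually.of_forall fun x => ?_
  show ‖f x‖ ≤ ‖C‖
  rw [Real.norm_eq_abs, Real.norm_eq_abs]
  exact (hb x).trans (le_abs_self C)

noncomputable def cnt (q : ℕ) : ℕ := ((Finset.range 30).filter (fun p : ℕ => cop p q)).card

noncomputable def rho (q : ℕ) : ℝ := (cnt q : ℝ) / 30

lemma rho_nonneg (q : ℕ) : 0 ≤ rho q := by unfold rho; positivity

lemma rho_le_one (q : ℕ) : rho q ≤ 1 := by
  unfold rho
  have : cnt q ≤ 30 := by
    unfold cnt
    exact (Finset.card_filter_le _ _).trans (by simp)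
  have h : (cnt q : ℝ) ≤ 30 := by exact_mod_cast this
  linarith

lemma cell_int {η : ℝ} (h0 : 0 ≤ η) (h1 : η ≤ 1) (q : ℕ) (p : ℤ) :
    ∫ v in (p:ℝ)..(p + 1), F η q v = if cop p q then η else 0 := by
  rw [intervalIntegral.integral_of_le (by linarith), integral_Ioc_eq_integral_Ioo]
  have hcong : ∀ v ∈ Ioo (p:ℝ) (p+1), F η q v
      = (Iio ((p:ℝ) + η)).indicator (fun _ => if cop p q then (1:ℝ) else 0) v := by
    intro v hv
    have hfl : ⌊v⌋ = p := by
      rw [Int.floor_eq_iff]; exact ⟨hv.1.le, hv.2⟩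
    have hfr : Int.fract v = v - p := by rw [Int.fract, hfl]
    unfold F
    rw [hfl, hfr]
    by_cases hv2 : v < p + η
    · rw [Set.indicator_of_mem (by simpa using hv2)]
      have : v - p < η := by linarith
      simp [this]
    · rw [Set.indicator_of_notMem (by simpa using hv2)]
      have : ¬ (v - p < η) := by intro h; apply hv2; linarith
      simp [this]
  rw [setIntegral_congr_fun measurableSet_Ioo hcong, setIntegral_indicator measurableSet_Iio]
  have hset : Ioo (p:ℝ) (p+1) ∩ Iio ((p:ℝ)+η) = Ioo (p:ℝ) (p+η) := by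
    ext x; simp only [mem_inter_iff, mem_Ioo, mem_Iio]
    constructor
    · rintro ⟨⟨h, _⟩, h'⟩; exact ⟨h, h'⟩
    · rintro ⟨h, h'⟩; exact ⟨⟨h, by linarith⟩, h'⟩
  rw [hset, setIntegral_const]
  simp only [measureReal_def, Real.volume_Ioo, add_sub_cancel_left, ENNReal.toReal_ofReal h0,
    smul_eq_mul]
  split_ifs <;> simp

lemma int30 {η : ℝ} (h0 : 0 ≤ η) (h1 : η ≤ 1) (q : ℕ) :
    ∫ v in (0:ℝ)..30, F η q v = η * cnt q := by
  have hs := intervalIntegral.sum_integral_adjacent_intervals (f := F η q) (μ := volume)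
    (a := fun k : ℕ => (k:ℝ)) (n := 30)
    (fun k _ => bddint (F_meas η q) (F_abs η q) _ _)
  simp only [Nat.cast_zero, Nat.cast_ofNat] at hs
  rw [← hs]
  have : ∀ k ∈ Finset.range 30, ∫ x in ((k:ℕ):ℝ)..(((k+1:ℕ)):ℝ), F η q x
      = if cop (k:ℤ) q then η else 0 := by
    intro k _
    have := cell_int h0 h1 q (k:ℤ)
    push_cast at this ⊢
    exact this
  rw [Finset.sum_congr rfl this, ← Finset.sum_filter, Finset.sum_const, nsmul_eq_mul, mul_comm]
  rfl

lemma intq {η : ℝ} (h0 : 0 ≤ η) (h1 : η ≤ 1) (q : ℕ) (s : ℝ) :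
    ∫ v in s..(s + q), F η q v = q * (η * rho q) := by
  have hint := bddint (F_meas η q) (F_abs η q)
  have e0 : ∫ v in s..(s + q), F η q v = ∫ v in (0:ℝ)..(0 + q), F η q v :=
    (F_perq η q).intervalIntegral_add_eq s 0
  have e1 := (F_perq η q).intervalIntegral_add_zsmul_eq 30 0 hint
  have e2 := (F_per30 η q).intervalIntegral_add_zsmul_eq (q:ℤ) 0 hint
  have e3 : (0:ℝ) + (30:ℤ) • (q:ℝ) = 0 + (q:ℤ) • (30:ℝ) := by
    simp [zsmul_eq_mul, mul_comm]
  rw [e3, e2] at e1
  simp only [zero_add, zsmul_eq_mul, Int.cast_natCast, Int.cast_ofNat] at e1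
  rw [int30 h0 h1] at e1
  rw [e0]
  simp only [zero_add]
  unfold rho
  linarith

/-- mean value of `x ↦ F η q (q x + s)` -/
lemma int_F {η : ℝ} (h0 : 0 ≤ η) (h1 : η ≤ 1) {q : ℕ} (hq : 1 ≤ q) (s : ℝ) :
    ∫ x in (0:ℝ)..1, F η q (q * x + s) = η * rho q := by
  have hq' : (q:ℝ) ≠ 0 := by positivity
  rw [intervalIntegral.integral_comp_mul_add _ hq' s]
  have : (q:ℝ) * 0 + s = s := by ring
  rw [this, show (q:ℝ) * 1 + s = s + q by ring, intq h0 h1 q s, smul_eq_mul]
  field_simp

lemma cnt_per (q : ℕ) : cnt (q + 30) = cnt q := by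
  unfold cnt
  congr 1
  apply Finset.filter_congr
  intro p _
  unfold cop
  push_cast
  omega

lemma rho_per (q : ℕ) : rho (q + 30) = rho q := by unfold rho; rw [cnt_per]

lemma base_count : ∑ i ∈ Finset.range 30, cnt (i + 1) = 576 := by
  unfold cnt
  decide +kernel

lemma block (m : ℕ) : ∑ i ∈ Finset.range 30, rho (m + i + 1) = 96 / 5 := by
  induction m with
  | zero =>
    have h := base_count
    have h' : (∑ i ∈ Finset.range 30, (cnt (i+1) : ℝ)) = 576 := by exact_mod_cast h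
    unfold rho
    rw [← Finset.sum_div]
    simp only [zero_add]
    rw [h']; norm_num
  | succ m ih =>
    have e1 := Finset.sum_range_succ (fun i => rho (m + i + 1)) 30
    have e2 := Finset.sum_range_succ' (fun i => rho (m + i + 1)) 30
    have e3 : rho (m + 30 + 1) = rho (m + 0 + 1) := by
      have := rho_per (m+1)
      rw [show m + 30 + 1 = m + 1 + 30 by ring, this]
    have e4 : ∑ i ∈ Finset.range 30, rho (m + 1 + i + 1) = ∑ i ∈ Finset.range 30, rho (m + (i+1) + 1) := by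
      apply Finset.sum_congr rfl; intro i _; congr 1; ring
    rw [e4]
    rw [e1] at e2
    linarith

noncomputable def S (n : ℕ) : ℝ := ∑ q ∈ Finset.range n, rho (q + 1)

lemma S_nonneg (n : ℕ) : 0 ≤ S n := Finset.sum_nonneg fun _ _ => rho_nonneg _

lemma S_le (n : ℕ) : S n ≤ 16 / 25 * n + 11 := by
  induction n using Nat.strong_induction_on with
  | _ n ih =>
    by_cases hn : n < 30
    · have h1 : S n ≤ n := by
        unfold S
        calc _ ≤ ∑ q ∈ Finset.range n, (1:ℝ) := Finset.sum_le_sum fun _ _ => rho_le_one _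
          _ = n := by simp
      have h2 : (n:ℝ) ≤ 29 := by exact_mod_cast (by omega : n ≤ 29)
      linarith
    · obtain ⟨m, rfl⟩ : ∃ m, n = m + 30 := ⟨n - 30, by omega⟩
      have h1 : S (m + 30) = S m + 96/5 := by
        unfold S
        rw [Finset.sum_range_add, block]
      have h2 := ih m (by omega)
      rw [h1]; push_cast; linarith

lemma S_mono {m n : ℕ} (h : m ≤ n) : S m ≤ S n := by
  unfold S
  exact Finset.sum_le_sum_of_subset_of_nonneg (Finset.range_subset_range.2 h)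
    (fun _ _ _ => rho_nonneg _)

end Pool.Agent.X116.Ra
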