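import Pool.Agent.X116.RaA

open MeasureTheory Set Filter Topology

namespace Pool.Agent.X116.Ra

lemma swap {f : ℝ → ℝ → ℝ} (hf : Measurable (Function.uncurry f)) {C : ℝ}
    (hb : ∀ x y, |f x y| ≤ C) {a b c d : ℝ} (hab : a ≤ b) (hcd : c ≤ d) :
    ∫ x in a..b, ∫ y in c..d, f x y = ∫ y in c..d, ∫ x in a..b, f x y := by
  simp only [intervalIntegral.integral_of_le hab, intervalIntegral.integral_of_le hcd]
  apply integral_integral_swap
  exact Integrable.of_bound hf.aestronglyMeasurable C (Filter.Eventually.of_forall fun z => by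
      simpa [Function.uncurry, Real.norm_eq_abs] using hb z.1 z.2)

lemma meas_param {f : ℝ → ℝ → ℝ} (hf : Measurable (Function.uncurry f)) {c d : ℝ} (hcd : c ≤ d) :
    Measurable (fun x => ∫ y in c..d, f x y) := by
  simp only [intervalIntegral.integral_of_le hcd]
  exact (hf.stronglyMeasurable.integral_prod_right).measurable

lemma bd_param {f : ℝ → ℝ → ℝ} {C : ℝ} (hb : ∀ x y, |f x y| ≤ C) {c d : ℝ} (x : ℝ) :
    |∫ y in c..d, f x y| ≤ C * |d - c| := by
  have := intervalIntegral.norm_integral_le_of_norm_le_const (a := c) (b := d) (C := C)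
    (f := f x) (fun y _ => by simpa [Real.norm_eq_abs] using hb x y)
  simpa [Real.norm_eq_abs] using this

lemma per_bound {f : ℝ → ℝ} (h0 : ∀ x, 0 ≤ f x) {P : ℝ} (hP : 0 < P)
    (hf : Function.Periodic f P) (hint : ∀ a b, IntervalIntegrable f volume a b)
    (s : ℝ) {l : ℝ} (hl : 0 ≤ l) :
    ∫ x in s..(s + l), f x ≤ (l / P + 1) * ∫ x in (0:ℝ)..P, f x := by
  set N : ℕ := ⌈l / P⌉₊ with hN
  have h1 : l ≤ N * P := by
    have := Nat.le_ceil (l / P)
    rw [div_le_iff₀ hP] at this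
    exact this
  have h2 : (N:ℝ) ≤ l / P + 1 := (Nat.ceil_lt_add_one (by positivity)).le
  have h3 : ∫ x in s..(s + l), f x ≤ ∫ x in s..(s + (N:ℤ) • P), f x := by
    apply intervalIntegral.integral_mono_interval le_rfl (by linarith)
    · simp only [zsmul_eq_mul, Int.cast_natCast]; linarith
    · exact Filter.Eventually.of_forall h0
    · exact hint _ _
  have h4 := hf.intervalIntegral_add_zsmul_eq (N:ℤ) s hint
  have h5 : ∫ x in s..(s + P), f x = ∫ x in (0:ℝ)..(0 + P), f x := hf.intervalIntegral_add_eq s 0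
  have h6 : 0 ≤ ∫ x in (0:ℝ)..P, f x := intervalIntegral.integral_nonneg hP.le fun x _ => h0 x
  rw [h4, h5] at h3
  simp only [zero_add, zsmul_eq_mul, Int.cast_natCast] at h3
  exact h3.trans (mul_le_mul_of_nonneg_right h2 h6)

section pair

variable (η : ℝ) (q q' : ℕ) (u' : ℝ)

noncomputable def RR (w : ℝ) : ℝ := ∫ y in (0:ℝ)..1, F η q (q * (w - y)) * F η q' (q' * (u' - y))

lemma RR_meas2 : Measurable (Function.uncurry fun (w y : ℝ) =>
    F η q (q * (w - y)) * F η q' (q' * (u' - y))) := by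
  apply Measurable.mul
  · exact (F_meas η q).comp (measurable_const.mul (measurable_fst.sub measurable_snd))
  · exact (F_meas η q').comp (measurable_const.mul (measurable_const.sub measurable_snd))

lemma RR_b (w y : ℝ) : |F η q (q * (w - y)) * F η q' (q' * (u' - y))| ≤ 1 := by
  rw [abs_mul]
  calc _ ≤ (1:ℝ) * 1 := mul_le_mul (F_abs _ _ _) (F_abs _ _ _) (abs_nonneg _) zero_le_one
    _ = 1 := one_mul 1

lemma RR_meas : Measurable (RR η q q' u') := meas_param (RR_meas2 η q q' u') zero_le_one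

lemma RR_abs (w : ℝ) : |RR η q q' u' w| ≤ 1 := by
  have := bd_param (c := 0) (d := 1) (RR_b η q q' u') w
  unfold RR
  simpa using this

lemma RR_nonneg (w : ℝ) : 0 ≤ RR η q q' u' w :=
  intervalIntegral.integral_nonneg zero_le_one fun _ _ => mul_nonneg (F_nonneg _ _ _) (F_nonneg _ _ _)

variable {q q'}

lemma RR_per1 : Function.Periodic (RR η q q' u') 1 := by
  intro w
  unfold RR
  congr 1; ext y
  congr 1
  have := F_perq η q (q * (w - y))
  rw [← this]; congr 1; ring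

lemma RR_perq (hq : 1 ≤ q) : Function.Periodic (RR η q q' u') (30 / q) := by
  intro w
  have hq' : (q:ℝ) ≠ 0 := by positivity
  unfold RR
  congr 1; ext y
  congr 1
  have := F_per30 η q (q * (w - y))
  rw [← this]; congr 1; field_simp; ring

lemma RR_perq' (hq : 1 ≤ q') : Function.Periodic (RR η q q' u') (30 / q') := by
  intro w
  have hq' : (q':ℝ) ≠ 0 := by positivity
  set G : ℝ → ℝ := fun y => F η q (q * (w - y)) * F η q' (q' * (u' - y)) with hG
  have hGp : Function.Periodic G 1 := by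
    intro y
    simp only [hG]
    have e1 := F_perq η q (q * (w - (y+1)))
    have e2 := F_perq η q' (q' * (u' - (y+1)))
    rw [← e1, ← e2]; congr 2 <;> ring
  have e1 : RR η q q' u' (w + 30 / q') = ∫ y in (0:ℝ)..1, G (y - 30 / q') := by
    unfold RR
    congr 1; ext y
    simp only [hG]
    have e2 := F_per30 η q' (q' * (u' - y))
    congr 1
    · congr 1; ring
    · rw [← e2]; congr 1; field_simp; ring
  rw [e1, intervalIntegral.integral_comp_sub_right]
  have e3 := hGp.intervalIntegral_add_eq (0 - 30 / (q':ℝ)) 0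
  have e4 : (0:ℝ) - 30 / q' + 1 = 1 - 30 / q' := by ring
  rw [e4, zero_add] at e3
  rw [e3]
  rfl

lemma RR_perL (hq : 1 ≤ q) (hq' : 1 ≤ q') :
    Function.Periodic (RR η q q' u') (30 / (Nat.lcm q q' : ℝ)) := by
  have h1 := (RR_perq' η (q := q) u' hq').int_mul (Nat.gcdA q q')
  have h2 := (RR_perq η (q' := q') u' hq).int_mul (Nat.gcdB q q')
  have h3 := h1.add_period h2
  have hb : ((Nat.gcd q q' : ℕ) : ℝ) = q * (Nat.gcdA q q' : ℤ) + q' * (Nat.gcdB q q' : ℤ) := by
    exact_mod_cast Nat.gcd_eq_gcd_ab q q'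
  have hL : ((Nat.gcd q q' : ℕ) : ℝ) * (Nat.lcm q q' : ℝ) = q * q' := by
    exact_mod_cast Nat.gcd_mul_lcm q q'
  have hq0 : (q:ℝ) ≠ 0 := by positivity
  have hq0' : (q':ℝ) ≠ 0 := by positivity
  have hL0 : (Nat.lcm q q' : ℝ) ≠ 0 := by
    intro h; rw [h, mul_zero] at hL; exact (mul_ne_zero hq0 hq0') hL.symm
  have e : (30:ℝ) / (Nat.lcm q q' : ℝ)
      = (Nat.gcdA q q' : ℤ) * (30 / (q':ℝ)) + (Nat.gcdB q q' : ℤ) * (30 / (q:ℝ)) := by
    rw [div_eq_iff hL0]
    have : (((Nat.gcdA q q' : ℤ):ℝ) * (30 / (q':ℝ)) + ((Nat.gcdB q q' : ℤ):ℝ) * (30 / (q:ℝ)))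
        = 30 * ((Nat.gcd q q' : ℕ) : ℝ) / (q * q') := by
      rw [hb]; field_simp
    rw [this, ← hL]
    have hg0 : ((Nat.gcd q q' : ℕ) : ℝ) ≠ 0 := by
      intro h; rw [h, zero_mul] at hL; exact (mul_ne_zero hq0 hq0') hL.symm
    field_simp
  rw [e]
  exact h3

lemma F_shift_int {η : ℝ} (h0 : 0 ≤ η) (h1 : η ≤ 1) {q : ℕ} (hq : 1 ≤ q) (u : ℝ) :
    ∫ y in (0:ℝ)..1, F η q (q * (u - y)) = η * rho q := by
  have hper : Function.Periodic (fun x => F η q (q * x)) 1 := by
    intro x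
    show F η q (q * (x + 1)) = F η q (q * x)
    rw [← F_perq η q (q * x)]; congr 1; ring
  have e1 := intervalIntegral.integral_comp_sub_left (a := 0) (b := 1)
    (fun x => F η q (q * x)) u
  have e2 := hper.intervalIntegral_add_eq (u - 1) 0
  rw [e1]
  have e3 : u - 1 + 1 = u - 0 := by ring
  rw [e3, zero_add] at e2
  rw [e2]
  have := int_F h0 h1 hq 0
  simpa using this

lemma F_shift_int' {η : ℝ} (h0 : 0 ≤ η) (h1 : η ≤ 1) {q : ℕ} (hq : 1 ≤ q) (y : ℝ) :
    ∫ u in (0:ℝ)..1, F η q (q * (u - y)) = η * rho q := by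
  have := int_F h0 h1 hq (-(q * y))
  rw [← this]
  congr 1; ext x; congr 1; ring

lemma RR_mean {η : ℝ} (h0 : 0 ≤ η) (h1 : η ≤ 1) (hq : 1 ≤ q) (hq' : 1 ≤ q') (u' : ℝ) :
    ∫ w in (0:ℝ)..1, RR η q q' u' w = (η * rho q) * (η * rho q') := by
  unfold RR
  rw [swap (RR_meas2 η q q' u') (RR_b η q q' u') zero_le_one zero_le_one]
  have : ∀ y : ℝ, ∫ w in (0:ℝ)..1, F η q (q * (w - y)) * F η q' (q' * (u' - y))
      = (η * rho q) * F η q' (q' * (u' - y)) := by
    intro y
    rw [intervalIntegral.integral_mul_const, F_shift_int' h0 h1 hq]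
  simp only [this]
  rw [intervalIntegral.integral_const_mul, F_shift_int h0 h1 hq']

lemma pair_bound {η : ℝ} (h0 : 0 ≤ η) (h1 : η ≤ 1) (hq : 1 ≤ q) (hq' : 1 ≤ q') (u' s : ℝ)
    {l : ℝ} (hl : 0 ≤ l) :
    ∫ w in s..(s + l), RR η q q' u' w
      ≤ (l + 30 / (Nat.lcm q q' : ℝ)) * ((η * rho q) * (η * rho q')) := by
  have hLn : 0 < Nat.lcm q q' := Nat.lcm_pos hq hq'
  have hL : (0:ℝ) < (Nat.lcm q q' : ℝ) := by exact_mod_cast hLn
  have hP : (0:ℝ) < 30 / (Nat.lcm q q' : ℝ) := by positivity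
  have hint := bddint (RR_meas η q q' u') (RR_abs η q q' u')
  have hper := RR_perL η u' hq hq'
  have hb := per_bound (RR_nonneg η q q' u') hP hper hint s hl
  have e1 := hper.intervalIntegral_add_zsmul_eq (Nat.lcm q q' : ℤ) 0 hint
  have e2 := (RR_per1 η (q := q) (q' := q') u').intervalIntegral_add_zsmul_eq (30:ℤ) 0 hint
  have e3 : (0:ℝ) + ((Nat.lcm q q' : ℕ) : ℤ) • (30 / (Nat.lcm q q' : ℝ)) = 0 + (30:ℤ) • (1:ℝ) := by
    simp only [zsmul_eq_mul, Int.cast_natCast, Int.cast_ofNat]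
    field_simp
  rw [e3, e2] at e1
  simp only [zero_add, zsmul_eq_mul, Int.cast_natCast, Int.cast_ofNat] at e1
  rw [RR_mean h0 h1 hq hq'] at e1
  set m := (η * rho q) * (η * rho q') with hm
  set X := ∫ x in (0:ℝ)..(30 / (Nat.lcm q q' : ℝ)), RR η q q' u' x with hX
  have e4 : X = 30 * m / (Nat.lcm q q' : ℝ) := by
    rw [eq_div_iff hL.ne']; linarith
  rw [e4] at hb
  calc _ ≤ _ := hb
    _ = (l + 30 / (Nat.lcm q q' : ℝ)) * m := by field_simp

end pair

end Pool.Agent.X116.Ra
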