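import Pool.Agent.X116.RaB

open MeasureTheory Set Filter Topology

namespace Pool.Agent.X116.Ra

lemma sum_int {ι : Type*} (t : Finset ι) {f : ι → ℝ → ℝ} {a b : ℝ}
    (hf : ∀ i ∈ t, IntervalIntegrable (f i) volume a b) :
    IntervalIntegrable (fun x => ∑ i ∈ t, f i x) volume a b :=
  (IntervalIntegrable.sum t hf).congr (fun x _ => Finset.sum_apply x t f)

/-- the counting majorant of the second hitting event -/
noncomputable def hh (η : ℝ) (n : ℕ) (x : ℝ) : ℝ :=
  ∑ q ∈ Finset.range n, F η (q + 1) (((q + 1 : ℕ) : ℝ) * x)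

lemma hh_nonneg (η : ℝ) (n : ℕ) (x : ℝ) : 0 ≤ hh η n x :=
  Finset.sum_nonneg fun _ _ => F_nonneg _ _ _

lemma hh_le (η : ℝ) (n : ℕ) (x : ℝ) : hh η n x ≤ n := by
  unfold hh
  calc _ ≤ ∑ q ∈ Finset.range n, (1:ℝ) := Finset.sum_le_sum fun _ _ => F_le_one _ _ _
    _ = n := by simp

lemma hh_abs (η : ℝ) (n : ℕ) (x : ℝ) : |hh η n x| ≤ n := by
  rw [abs_of_nonneg (hh_nonneg _ _ _)]; exact hh_le _ _ _

lemma hh_meas (η : ℝ) (n : ℕ) : Measurable (hh η n) := by
  unfold hh
  apply Finset.measurable_sum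
  intro q _
  exact (F_meas η (q+1)).comp (measurable_const.mul measurable_id)

lemma hh_per (η : ℝ) (n : ℕ) : Function.Periodic (hh η n) 1 := by
  intro x
  unfold hh
  apply Finset.sum_congr rfl
  intro q _
  rw [← F_perq η (q+1) (((q + 1 : ℕ) : ℝ) * x)]; congr 1; ring

lemma hh_int {η : ℝ} (h0 : 0 ≤ η) (h1 : η ≤ 1) (n : ℕ) (u : ℝ) :
    ∫ y in (0:ℝ)..1, hh η n (u - y) = η * S n := by
  unfold hh
  rw [intervalIntegral.integral_finsetSum]
  · unfold S
    rw [Finset.mul_sum]
    apply Finset.sum_congr rfl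
    intro q _
    exact F_shift_int h0 h1 (by omega) u
  · intro q _
    exact bddint ((F_meas η (q+1)).comp (measurable_const.mul (measurable_const.sub measurable_id)))
      (fun x => F_abs _ _ _) _ _

noncomputable def ZZ (η : ℝ) (n : ℕ) (s l y : ℝ) : ℝ := ∫ u in s..(s + l), hh η n (u - y)

noncomputable def Lam (n : ℕ) : ℝ :=
  ∑ q ∈ Finset.range n, ∑ q' ∈ Finset.range n, 1 / (Nat.lcm (q+1) (q'+1) : ℝ)

lemma Lam_nonneg (n : ℕ) : 0 ≤ Lam n :=
  Finset.sum_nonneg fun _ _ => Finset.sum_nonneg fun _ _ => by positivity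

section
variable {η : ℝ} (h0 : 0 ≤ η) (h1 : η ≤ 1) (n : ℕ) (s : ℝ) {l : ℝ} (hl : 0 ≤ l)

lemma hh2_meas : Measurable (Function.uncurry fun (y u : ℝ) => hh η n (u - y)) :=
  (hh_meas η n).comp (measurable_snd.sub measurable_fst)

include hl in
lemma ZZ_meas : Measurable (ZZ η n s l) :=
  meas_param (hh2_meas n) (by linarith)

include hl in
lemma ZZ_abs (y : ℝ) : |ZZ η n s l y| ≤ n * l := by
  have := bd_param (f := fun y u => hh η n (u - y)) (C := n) (c := s) (d := s + l)
    (fun y u => hh_abs η n (u - y)) y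
  simpa [ZZ, abs_of_nonneg hl] using this

lemma ZZ_per : Function.Periodic (ZZ η n s l) 1 := by
  intro y
  unfold ZZ
  congr 1; ext u
  rw [show u - (y + 1) = (u - y) - 1 by ring]
  exact (hh_per η n).sub_eq (u - y)

include h0 h1 hl in
lemma ZZ_mean : ∫ y in (0:ℝ)..1, ZZ η n s l y = l * (η * S n) := by
  unfold ZZ
  rw [swap (hh2_meas n) (fun y u => hh_abs η n (u - y)) zero_le_one (by linarith)]
  simp only [hh_int h0 h1]
  simp
  ring

include h0 h1 hl in
lemma ZZ_inner (u' : ℝ) : ∫ y in (0:ℝ)..1, ZZ η n s l y * hh η n (u' - y)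
    ≤ l * (η * S n) ^ 2 + 30 * η ^ 2 * Lam n := by
  have e1 : ∀ y : ℝ, ZZ η n s l y * hh η n (u' - y)
      = ∫ u in s..(s + l), hh η n (u - y) * hh η n (u' - y) := by
    intro y
    rw [intervalIntegral.integral_mul_const]; rfl
  have hm : Measurable (Function.uncurry fun (y u : ℝ) => hh η n (u - y) * hh η n (u' - y)) :=
    (hh2_meas n).mul ((hh_meas η n).comp (measurable_const.sub measurable_fst))
  simp only [e1]
  rw [swap hm (C := (n:ℝ) * n) (fun y u => by
      rw [abs_mul]
      exact mul_le_mul (hh_abs _ _ _) (hh_abs _ _ _) (abs_nonneg _) (Nat.cast_nonneg n))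
      zero_le_one (by linarith)]
  have e2 : ∀ u : ℝ, ∫ y in (0:ℝ)..1, hh η n (u - y) * hh η n (u' - y)
      = ∑ q ∈ Finset.range n, ∑ q' ∈ Finset.range n, RR η (q+1) (q'+1) u' u := by
    intro u
    have : ∀ y : ℝ, hh η n (u - y) * hh η n (u' - y)
        = ∑ q ∈ Finset.range n, ∑ q' ∈ Finset.range n,
          F η (q+1) (((q+1:ℕ):ℝ) * (u - y)) * F η (q'+1) (((q'+1:ℕ):ℝ) * (u' - y)) := by
      intro y
      unfold hh
      rw [Finset.sum_mul_sum]
    simp only [this]
    have hI : ∀ q q' : ℕ, IntervalIntegrable (fun y : ℝ => F η (q+1) (((q+1:ℕ):ℝ) * (u - y))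
        * F η (q'+1) (((q'+1:ℕ):ℝ) * (u' - y))) volume 0 1 := by
      intro q q'
      apply bddint _ (C := 1) (fun y => RR_b η (q+1) (q'+1) u' u y)
      exact ((F_meas η _).comp (measurable_const.mul (measurable_const.sub measurable_id))).mul
        ((F_meas η _).comp (measurable_const.mul (measurable_const.sub measurable_id)))
    rw [intervalIntegral.integral_finsetSum]
    · apply Finset.sum_congr rfl
      intro q _
      rw [intervalIntegral.integral_finsetSum]
      · rfl
      · intro q' _; exact hI q q'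
    · intro q _
      apply sum_int
      intro q' _; exact hI q q'
  simp only [e2]
  have hR : ∀ q q' : ℕ, IntervalIntegrable (RR η (q+1) (q'+1) u') volume s (s+l) := fun q q' =>
    bddint (RR_meas η _ _ u') (RR_abs η _ _ u') _ _
  rw [intervalIntegral.integral_finsetSum]
  swap
  · intro q _
    exact sum_int (Finset.range n) (f := fun q' => RR η (q+1) (q'+1) u') (fun q' _ => hR q q')
  calc ∑ q ∈ Finset.range n, ∫ u in s..(s + l), ∑ q' ∈ Finset.range n, RR η (q+1) (q'+1) u' u
      = ∑ q ∈ Finset.range n, ∑ q' ∈ Finset.range n, ∫ u in s..(s + l), RR η (q+1) (q'+1) u' u := by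
        apply Finset.sum_congr rfl
        intro q _
        rw [intervalIntegral.integral_finsetSum]
        intro q' _; exact hR q q'
    _ ≤ ∑ q ∈ Finset.range n, ∑ q' ∈ Finset.range n,
          (l * ((η * rho (q+1)) * (η * rho (q'+1)))
            + 30 * η ^ 2 * (1 / (Nat.lcm (q+1) (q'+1) : ℝ))) := by
        apply Finset.sum_le_sum; intro q _
        apply Finset.sum_le_sum; intro q' _
        refine (pair_bound h0 h1 (q := q+1) (q' := q'+1) (by omega) (by omega) u' s hl).trans ?_
        have hr := rho_nonneg (q+1)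
        have hr' := rho_nonneg (q'+1)
        have hr1 := rho_le_one (q+1)
        have hr1' := rho_le_one (q'+1)
        have hm : (η * rho (q+1)) * (η * rho (q'+1)) ≤ η ^ 2 := by
          have : rho (q+1) * rho (q'+1) ≤ 1 := by nlinarith
          nlinarith [sq_nonneg η]
        have hL : (0:ℝ) ≤ 30 / (Nat.lcm (q+1) (q'+1) : ℝ) := by positivity
        calc _ = l * ((η * rho (q+1)) * (η * rho (q'+1)))
              + 30 / (Nat.lcm (q+1) (q'+1) : ℝ) * ((η * rho (q+1)) * (η * rho (q'+1))) := by ring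
          _ ≤ l * ((η * rho (q+1)) * (η * rho (q'+1)))
              + 30 / (Nat.lcm (q+1) (q'+1) : ℝ) * η ^ 2 := by
              gcongr
          _ = _ := by ring
    _ = l * (η * S n) ^ 2 + 30 * η ^ 2 * Lam n := by
        have hS : (η * S n) ^ 2 = ∑ q ∈ Finset.range n, ∑ q' ∈ Finset.range n,
            (η * rho (q+1)) * (η * rho (q'+1)) := by
          unfold S
          rw [Finset.mul_sum, pow_two, Finset.sum_mul_sum]
        rw [hS]
        unfold Lam
        simp only [Finset.sum_add_distrib, Finset.mul_sum]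

include h0 h1 hl in
lemma ZZ_sq : ∫ y in (0:ℝ)..1, (ZZ η n s l y) ^ 2
    ≤ (l * (η * S n)) ^ 2 + 30 * l * η ^ 2 * Lam n := by
  have e1 : ∀ y : ℝ, (ZZ η n s l y) ^ 2 = ∫ u' in s..(s + l), ZZ η n s l y * hh η n (u' - y) := by
    intro y
    rw [intervalIntegral.integral_const_mul, sq]; rfl
  simp only [e1]
  have hm : Measurable (Function.uncurry fun (y u' : ℝ) => ZZ η n s l y * hh η n (u' - y)) :=
    ((ZZ_meas n s hl).comp measurable_fst).mul (hh2_meas n)
  rw [swap hm (C := (n * l) * n) (fun y u => by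
      rw [abs_mul]
      exact mul_le_mul (ZZ_abs n s hl _) (hh_abs _ _ _) (abs_nonneg _) (by positivity))
      zero_le_one (by linarith)]
  have hmm : Measurable (Function.uncurry fun (u' y : ℝ) => ZZ η n s l y * hh η n (u' - y)) :=
    ((ZZ_meas n s hl).comp measurable_snd).mul
      ((hh_meas η n).comp (measurable_fst.sub measurable_snd))
  calc ∫ u' in s..(s + l), ∫ y in (0:ℝ)..1, ZZ η n s l y * hh η n (u' - y)
      ≤ ∫ u' in s..(s + l), (l * (η * S n) ^ 2 + 30 * η ^ 2 * Lam n) := by
        apply intervalIntegral.integral_mono_on (by linarith)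
        · apply bddint (meas_param hmm zero_le_one) (C := ((n * l) * n) * |1 - 0|)
          intro u'
          have hbb : ∀ (u' y : ℝ), |ZZ η n s l y * hh η n (u' - y)| ≤ (n * l) * n := by
            intro u' y
            rw [abs_mul]
            exact mul_le_mul (ZZ_abs n s hl _) (hh_abs _ _ _) (abs_nonneg _) (by positivity)
          exact bd_param (f := fun u' y => ZZ η n s l y * hh η n (u' - y)) hbb u'
        · exact intervalIntegrable_const
        · intro u' _
          exact ZZ_inner h0 h1 n s hl u'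
    _ = (l * (η * S n)) ^ 2 + 30 * l * η ^ 2 * Lam n := by
        rw [intervalIntegral.integral_const, smul_eq_mul]; ring

include h0 h1 hl in
lemma ZZ_dev {κ : ℝ} (hκ : 0 < κ) : ∫ y in (0:ℝ)..1, |ZZ η n s l y - l * (η * S n)|
    ≤ 30 * l * η ^ 2 * Lam n / (2 * κ) + κ / 2 := by
  set m := l * (η * S n) with hm
  have hZ := ZZ_meas (η := η) n s hl
  have hi1 : IntervalIntegrable (fun y => ZZ η n s l y) volume 0 1 :=
    bddint hZ (ZZ_abs n s hl) _ _
  have hi2 : IntervalIntegrable (fun y => (ZZ η n s l y)^2) volume 0 1 :=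
    bddint (hZ.pow_const 2) (C := (n*l)^2) (fun y => by
      rw [abs_pow]; exact pow_le_pow_left₀ (abs_nonneg _) (ZZ_abs n s hl y) 2) _ _
  have hi3 : IntervalIntegrable (fun y => |ZZ η n s l y - m|) volume 0 1 :=
    ((hi1.sub intervalIntegrable_const).abs)
  have hi4 : IntervalIntegrable (fun y => (ZZ η n s l y)^2 - (2*m) * ZZ η n s l y + m^2) volume 0 1 :=
    (hi2.sub (hi1.const_mul _)).add intervalIntegrable_const
  calc _ ≤ ∫ y in (0:ℝ)..1, ((ZZ η n s l y)^2 - (2*m) * ZZ η n s l y + m^2) / (2*κ) + κ/2 := by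
        apply intervalIntegral.integral_mono_on zero_le_one hi3
          ((hi4.div_const _).add intervalIntegrable_const)
        intro y _
        have : ((ZZ η n s l y)^2 - (2*m) * ZZ η n s l y + m^2) = |ZZ η n s l y - m|^2 := by
          rw [sq_abs]; ring
        rw [this]
        set t := |ZZ η n s l y - m|
        have h2 : t * (2*κ) ≤ t^2 + κ^2 := by nlinarith [sq_nonneg (t - κ)]
        have h3 : t ≤ (t^2 + κ^2) / (2*κ) := by rw [le_div_iff₀ (by positivity)]; exact h2
        have h4 : (t^2 + κ^2) / (2*κ) = t^2/(2*κ) + κ/2 := by field_simp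
        linarith
    _ = ((∫ y in (0:ℝ)..1, (ZZ η n s l y)^2) - (2*m) * m + m^2) / (2*κ) + κ/2 := by
        rw [intervalIntegral.integral_add (hi4.div_const _) intervalIntegrable_const,
          intervalIntegral.integral_div, intervalIntegral.integral_add (hi2.sub (hi1.const_mul _))
          intervalIntegrable_const, intervalIntegral.integral_sub hi2 (hi1.const_mul _),
          intervalIntegral.integral_const_mul, ZZ_mean h0 h1 n s hl, ← hm]
        simp
    _ ≤ ((m ^ 2 + 30 * l * η ^ 2 * Lam n) - (2*m) * m + m^2) / (2*κ) + κ/2 := by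
        have := ZZ_sq h0 h1 n s hl
        gcongr
    _ = _ := by ring

end

end Pool.Agent.X116.Ra
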