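import Pool.Agent.X116.RaC

open MeasureTheory Set Filter Topology

namespace Pool.Agent.X116.Ra

noncomputable def H (n : ℕ) : ℝ := ∑ i ∈ Finset.range n, 1 / ((i:ℝ) + 1)

lemma H_nonneg (n : ℕ) : 0 ≤ H n := Finset.sum_nonneg fun _ _ => by positivity

lemma H_le (n : ℕ) : H n ≤ 1 + Real.log n := by
  have h := harmonic_le_one_add_log n
  have e : ((harmonic n : ℚ) : ℝ) = H n := by
    unfold harmonic H
    push_cast
    apply Finset.sum_congr rfl
    intro i _
    rw [one_div]
  rw [← e]; exact h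

lemma div_sum (n g : ℕ) : ∑ a ∈ Finset.range n, (if (g+1) ∣ (a+1) then 1 / ((a:ℝ) + 1) else 0)
    ≤ 1 / ((g:ℝ) + 1) * H n := by
  rw [← Finset.sum_filter]
  set φ : ℕ → ℕ := fun x => (g+1) * (x+1) - 1 with hφ
  have hφ1 : ∀ x, φ x + 1 = (g+1) * (x+1) := by
    intro x
    have : 0 < (g+1) * (x+1) := by positivity
    simp only [hφ]; omega
  have hinj : Set.InjOn φ (Finset.range n : Set ℕ) := by
    intro x _ y _ hxy
    have h := congrArg (· + 1) hxy
    simp only [hφ1] at h
    have := Nat.eq_of_mul_eq_mul_left (by omega : 0 < g+1) h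
    omega
  calc _ ≤ ∑ a ∈ (Finset.range n).image φ, 1 / ((a:ℝ) + 1) := by
        apply Finset.sum_le_sum_of_subset_of_nonneg
        · intro a ha
          rw [Finset.mem_filter, Finset.mem_range] at ha
          obtain ⟨ha1, k, hk⟩ := ha
          rw [Finset.mem_image]
          have hk0 : 0 < k := by
            rcases Nat.eq_zero_or_pos k with h | h
            · rw [h] at hk; simp at hk
            · exact h
          refine ⟨k - 1, ?_, ?_⟩
          · rw [Finset.mem_range]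
            have : k ≤ (g+1) * k := Nat.le_mul_of_pos_left k (by omega)
            omega
          · have := hφ1 (k-1)
            rw [show k - 1 + 1 = k by omega, ← hk] at this
            omega
        · intro _ _ _; positivity
    _ = ∑ x ∈ Finset.range n, 1 / ((φ x : ℝ) + 1) := by
        rw [Finset.sum_image hinj]
    _ = 1 / ((g:ℝ) + 1) * H n := by
        unfold H
        rw [Finset.mul_sum]
        apply Finset.sum_congr rfl
        intro x _
        have : ((φ x : ℝ) + 1) = ((g:ℝ)+1) * ((x:ℝ)+1) := by exact_mod_cast hφ1 x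
        rw [this]
        field_simp

lemma lcm_term (n : ℕ) {a b : ℕ} (ha : a ∈ Finset.range n) :
    1 / (Nat.lcm (a+1) (b+1) : ℝ) ≤ ∑ g ∈ Finset.range n, ((g:ℝ) + 1) *
      ((if (g+1) ∣ (a+1) then 1 / ((a:ℝ) + 1) else 0) *
        (if (g+1) ∣ (b+1) then 1 / ((b:ℝ) + 1) else 0)) := by
  set g0 := Nat.gcd (a+1) (b+1) with hg0
  have hg0p : 0 < g0 := Nat.gcd_pos_of_pos_left _ (by omega)
  have hda : g0 ∣ (a+1) := Nat.gcd_dvd_left _ _
  have hdb : g0 ∣ (b+1) := Nat.gcd_dvd_right _ _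
  have hle : g0 ≤ a+1 := Nat.le_of_dvd (by omega) hda
  rw [Finset.mem_range] at ha
  have hmem : g0 - 1 ∈ Finset.range n := by rw [Finset.mem_range]; omega
  have hs := Finset.single_le_sum (f := fun g : ℕ => ((g:ℝ) + 1) *
      ((if (g+1) ∣ (a+1) then 1 / ((a:ℝ) + 1) else 0) *
        (if (g+1) ∣ (b+1) then 1 / ((b:ℝ) + 1) else 0))) (fun g _ => by
          apply mul_nonneg (by positivity)
          apply mul_nonneg <;> (split_ifs <;> positivity)) hmem
  refine le_trans (le_of_eq ?_) hs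
  have e1 : g0 - 1 + 1 = g0 := by omega
  have e2 : ((g0 - 1 : ℕ) : ℝ) + 1 = g0 := by exact_mod_cast e1
  simp only [e1, e2, if_pos hda, if_pos hdb]
  have hgl : (g0 : ℝ) * (Nat.lcm (a+1) (b+1) : ℝ) = ((a:ℝ)+1) * ((b:ℝ)+1) := by
    exact_mod_cast Nat.gcd_mul_lcm (a+1) (b+1)
  have hg0r : (g0:ℝ) ≠ 0 := by positivity
  have hL : (0:ℝ) < (Nat.lcm (a+1) (b+1) : ℝ) := by
    exact_mod_cast Nat.lcm_pos (by omega : 0 < a+1) (by omega : 0 < b+1)
  rw [one_div_mul_one_div, ← hgl]
  field_simp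

lemma Lam_le (n : ℕ) : Lam n ≤ (H n) ^ 3 := by
  unfold Lam
  calc _ ≤ ∑ a ∈ Finset.range n, ∑ b ∈ Finset.range n, ∑ g ∈ Finset.range n, ((g:ℝ) + 1) *
      ((if (g+1) ∣ (a+1) then 1 / ((a:ℝ) + 1) else 0) *
        (if (g+1) ∣ (b+1) then 1 / ((b:ℝ) + 1) else 0)) := by
        apply Finset.sum_le_sum; intro a ha
        apply Finset.sum_le_sum; intro b _
        exact lcm_term n ha
    _ = ∑ g ∈ Finset.range n, ((g:ℝ) + 1) *
        ((∑ a ∈ Finset.range n, (if (g+1) ∣ (a+1) then 1 / ((a:ℝ) + 1) else 0)) *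
        (∑ b ∈ Finset.range n, (if (g+1) ∣ (b+1) then 1 / ((b:ℝ) + 1) else 0))) := by
        have : ∀ g : ℕ, ((g:ℝ) + 1) *
          ((∑ a ∈ Finset.range n, (if (g+1) ∣ (a+1) then 1 / ((a:ℝ) + 1) else 0)) *
          (∑ b ∈ Finset.range n, (if (g+1) ∣ (b+1) then 1 / ((b:ℝ) + 1) else 0)))
          = ∑ a ∈ Finset.range n, ∑ b ∈ Finset.range n, ((g:ℝ) + 1) *
            ((if (g+1) ∣ (a+1) then 1 / ((a:ℝ) + 1) else 0) *
            (if (g+1) ∣ (b+1) then 1 / ((b:ℝ) + 1) else 0)) := by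
          intro g
          rw [Finset.sum_mul_sum, Finset.mul_sum]
          apply Finset.sum_congr rfl; intro a _
          rw [Finset.mul_sum]
        simp only [this]
        exact (Finset.sum_congr rfl fun a _ => Finset.sum_comm).trans Finset.sum_comm
    _ ≤ ∑ g ∈ Finset.range n, 1 / ((g:ℝ) + 1) * (H n) ^ 2 := by
        apply Finset.sum_le_sum; intro g _
        have h1 := div_sum n g
        have h0 : 0 ≤ ∑ a ∈ Finset.range n, (if (g+1) ∣ (a+1) then 1 / ((a:ℝ) + 1) else 0) :=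
          Finset.sum_nonneg fun _ _ => by split_ifs <;> positivity
        calc _ ≤ ((g:ℝ) + 1) * ((1 / ((g:ℝ) + 1) * H n) * (1 / ((g:ℝ) + 1) * H n)) := by
              have hH : 0 ≤ 1 / ((g:ℝ) + 1) * H n := mul_nonneg (by positivity) (H_nonneg n)
              gcongr
          _ = _ := by field_simp
    _ = (H n) ^ 3 := by
        rw [← Finset.sum_mul]
        change H n * (H n)^2 = _
        ring

end Pool.Agent.X116.Ra
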