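import Pool.Agent.X116.RaD

open MeasureTheory Set Filter Topology

namespace Pool.Agent.X116.Ra

noncomputable def GG (θ c : ℝ) (m : ℕ) (a : ℝ) : ℝ :=
  ∏ q ∈ Finset.range m, (1 - F θ (q+1) (((q+1:ℕ):ℝ) * a + c))

lemma GG_nonneg (θ c : ℝ) (m : ℕ) (a : ℝ) : 0 ≤ GG θ c m a :=
  Finset.prod_nonneg fun q _ => by linarith [F_le_one θ (q+1) (((q+1:ℕ):ℝ) * a + c)]

lemma GG_le_one (θ c : ℝ) (m : ℕ) (a : ℝ) : GG θ c m a ≤ 1 :=
  Finset.prod_le_one (fun q _ => by linarith [F_le_one θ (q+1) (((q+1:ℕ):ℝ) * a + c)])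
    (fun q _ => by linarith [F_nonneg θ (q+1) (((q+1:ℕ):ℝ) * a + c)])

lemma GG_abs (θ c : ℝ) (m : ℕ) (a : ℝ) : |GG θ c m a| ≤ 1 := by
  rw [abs_of_nonneg (GG_nonneg _ _ _ _)]; exact GG_le_one _ _ _ _

lemma GG_meas (θ c : ℝ) (m : ℕ) : Measurable (GG θ c m) := by
  unfold GG
  apply Finset.measurable_prod
  intro q _
  exact measurable_const.sub ((F_meas θ (q+1)).comp ((measurable_const.mul measurable_id).add_const c))

lemma prod_ge {x : ℕ → ℝ} (h0 : ∀ q, 0 ≤ x q) (h1 : ∀ q, x q ≤ 1) (m : ℕ) :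
    1 - ∑ q ∈ Finset.range m, x q ≤ ∏ q ∈ Finset.range m, (1 - x q) := by
  induction m with
  | zero => simp
  | succ m ih =>
    rw [Finset.sum_range_succ, Finset.prod_range_succ]
    have hp : ∏ q ∈ Finset.range m, (1 - x q) ≤ 1 :=
      Finset.prod_le_one (fun q _ => by linarith [h1 q]) (fun q _ => by linarith [h0 q])
    have := h0 m
    have := h1 m
    nlinarith

lemma GG_int {θ : ℝ} (h0 : 0 ≤ θ) (h1 : θ ≤ 1) (c : ℝ) (m : ℕ) :
    1 - θ * S m ≤ ∫ a in (0:ℝ)..1, GG θ c m a := by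
  have hI : ∀ q : ℕ, IntervalIntegrable (fun a : ℝ => F θ (q+1) (((q+1:ℕ):ℝ) * a + c)) volume 0 1 :=
    fun q => bddint ((F_meas θ (q+1)).comp ((measurable_const.mul measurable_id).add_const c))
      (fun _ => F_abs _ _ _) _ _
  have e : ∫ a in (0:ℝ)..1, (1 - ∑ q ∈ Finset.range m, F θ (q+1) (((q+1:ℕ):ℝ) * a + c))
      = 1 - θ * S m := by
    rw [intervalIntegral.integral_sub intervalIntegrable_const (sum_int _ fun q _ => hI q),
      intervalIntegral.integral_finsetSum (fun q _ => hI q)]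
    have : ∀ q ∈ Finset.range m, ∫ a in (0:ℝ)..1, F θ (q+1) (((q+1:ℕ):ℝ) * a + c)
        = θ * rho (q+1) := fun q _ => int_F h0 h1 (by omega) c
    rw [Finset.sum_congr rfl this, ← Finset.mul_sum]
    simp [S]
  rw [← e]
  apply intervalIntegral.integral_mono_on zero_le_one
  · exact intervalIntegrable_const.sub (sum_int _ fun q _ => hI q)
  · exact bddint (GG_meas θ c m) (GG_abs θ c m) _ _
  · intro a _
    exact prod_ge (fun q => F_nonneg _ _ _) (fun q => F_le_one _ _ _) m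

/-- if an index `k ≤ n` hits, then the majorant `hh` is at least one -/
lemma hit_hh {ε : ℝ} {n k : ℕ} (hk : 1 ≤ k) (hkn : k ≤ n) {x : ℝ}
    (hx : Int.fract ((k:ℝ) * x) < ε) : 1 ≤ hh ε n x := by
  set p : ℤ := ⌊(k:ℝ) * x⌋ with hp
  set g : ℕ := Int.gcd p k with hg
  have hgpos : 0 < g := Int.gcd_pos_of_ne_zero_right _ (by exact_mod_cast (by omega : k ≠ 0))
  obtain ⟨p0, hp0⟩ : (g:ℤ) ∣ p := Int.gcd_dvd_left _ _
  obtain ⟨q0, hq0⟩ : (g:ℤ) ∣ (k:ℤ) := Int.gcd_dvd_right _ _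
  have hcop : Int.gcd p0 q0 = 1 := by
    have h1 : Int.gcd ((g:ℤ) * p0) ((g:ℤ) * q0) = g * Int.gcd p0 q0 := by
      rw [Int.gcd_mul_left]; simp
    rw [← hp0, ← hq0, ← hg] at h1
    exact (Nat.eq_of_mul_eq_mul_left hgpos (by omega)).symm
  have hq0pos : 0 < q0 := by
    have : (0:ℤ) < (g:ℤ) * q0 := by rw [← hq0]; exact_mod_cast hk
    exact (mul_pos_iff_of_pos_left (by exact_mod_cast hgpos)).1 this
  obtain ⟨q1, rfl⟩ : ∃ q1 : ℕ, q0 = q1 + 1 := ⟨(q0 - 1).toNat, by omega⟩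
  have hkr : (k:ℝ) = g * ((q1:ℝ) + 1) := by exact_mod_cast hq0
  have hpr : (p:ℝ) = g * p0 := by exact_mod_cast hp0
  have hgr : (0:ℝ) < g := by exact_mod_cast hgpos
  have hg1 : (1:ℝ) ≤ g := by exact_mod_cast hgpos
  have hfr : Int.fract ((k:ℝ)*x) = (k:ℝ) * x - p := rfl
  have hq1x : (((q1+1:ℕ)):ℝ) * x = p0 + Int.fract ((k:ℝ)*x) / g := by
    rw [hfr, hkr, hpr]; push_cast; field_simp; ring
  have hf0 := Int.fract_nonneg ((k:ℝ)*x)
  have hf1 := Int.fract_lt_one ((k:ℝ)*x)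
  have hdiv : Int.fract ((k:ℝ)*x) / g ≤ Int.fract ((k:ℝ)*x) := div_le_self hf0 hg1
  have hfloor : ⌊(((q1+1:ℕ)):ℝ) * x⌋ = p0 := by
    rw [Int.floor_eq_iff, hq1x]
    constructor
    · have : 0 ≤ Int.fract ((k:ℝ)*x) / g := by positivity
      linarith
    · linarith
  have hfract : Int.fract ((((q1+1:ℕ)):ℝ) * x) < ε := by
    rw [Int.fract, hfloor, hq1x]; linarith
  have hc : cop p0 ((q1+1:ℕ):ℤ) := by
    have hh : ∀ d : ℤ, 2 ≤ d → ¬ (d ∣ p0 ∧ d ∣ ((q1+1:ℕ):ℤ)) := by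
      rintro d hd ⟨h1, h2⟩
      have h3 : d ∣ (Int.gcd p0 ((q1:ℤ)+1) : ℤ) := Int.dvd_coe_gcd h1 (by exact_mod_cast h2)
      rw [hcop] at h3
      have := Int.le_of_dvd (by norm_num) h3
      push_cast at this; omega
    exact ⟨hh 2 (by norm_num), hh 3 (by norm_num), hh 5 (by norm_num)⟩
  have hq1n : q1 ∈ Finset.range n := by
    rw [Finset.mem_range]
    have : ((q1:ℤ) + 1) ≤ (k:ℤ) := by
      rw [hq0]; nlinarith [(by exact_mod_cast hgpos : (1:ℤ) ≤ g)]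
    omega
  unfold hh
  have hs := Finset.single_le_sum (f := fun q : ℕ => F ε (q + 1) (((q + 1 : ℕ) : ℝ) * x))
    (fun q _ => F_nonneg _ _ _) hq1n
  refine le_trans ?_ hs
  have : F ε (q1 + 1) (((q1 + 1 : ℕ) : ℝ) * x) = 1 := by
    unfold F
    rw [if_pos ⟨hfract, by rw [hfloor]; exact hc⟩]
  rw [this]

/-- if `GG ≠ 0`, the hit at time `n` is the first one -/
lemma first_hit {ε l s : ℝ} (hl : 0 < l) (hs : 0 ≤ s) (hsl : s + l ≤ ε) (hε : ε + l ≤ 1)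
    {n : ℕ} {a v : ℝ} (hv1 : s ≤ Int.fract v) (hv2 : Int.fract v < s + l)
    (hG : GG (ε + l) (ε - s) (n - 1) a ≠ 0) {j : ℕ} (hj : 1 ≤ j) (hjn : j < n) :
    ε ≤ Int.fract (v - j * a) := by
  by_contra hcon
  push Not at hcon
  apply hG
  set p : ℤ := ⌊v⌋ - ⌊v - j * a⌋ with hp
  have hja : (j:ℝ) * a = p + (Int.fract v - Int.fract (v - j * a)) := by
    have e1 := Int.floor_add_fract v
    have e2 := Int.floor_add_fract (v - j * a)
    rw [hp]; push_cast; linarith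
  set d := Int.fract v - Int.fract (v - j * a) with hd
  have hf0 := Int.fract_nonneg (v - j * a)
  have hd1 : s - ε < d := by rw [hd]; linarith
  have hd2 : d < s + l := by rw [hd]; linarith
  set g : ℕ := Int.gcd p j with hg
  have hgpos : 0 < g := Int.gcd_pos_of_ne_zero_right _ (by exact_mod_cast (by omega : j ≠ 0))
  obtain ⟨p0, hp0⟩ : (g:ℤ) ∣ p := Int.gcd_dvd_left _ _
  obtain ⟨q0, hq0⟩ : (g:ℤ) ∣ (j:ℤ) := Int.gcd_dvd_right _ _
  have hcop : Int.gcd p0 q0 = 1 := by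
    have h1 : Int.gcd ((g:ℤ) * p0) ((g:ℤ) * q0) = g * Int.gcd p0 q0 := by
      rw [Int.gcd_mul_left]; simp
    rw [← hp0, ← hq0, ← hg] at h1
    exact (Nat.eq_of_mul_eq_mul_left hgpos (by omega)).symm
  have hq0pos : 0 < q0 := by
    have : (0:ℤ) < (g:ℤ) * q0 := by rw [← hq0]; exact_mod_cast hj
    exact (mul_pos_iff_of_pos_left (by exact_mod_cast hgpos)).1 this
  obtain ⟨q1, rfl⟩ : ∃ q1 : ℕ, q0 = q1 + 1 := ⟨(q0 - 1).toNat, by omega⟩
  have hkr : (j:ℝ) = g * ((q1:ℝ) + 1) := by exact_mod_cast hq0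
  have hpr : (p:ℝ) = g * p0 := by exact_mod_cast hp0
  have hgr : (0:ℝ) < g := by exact_mod_cast hgpos
  have hg1 : (1:ℝ) ≤ g := by exact_mod_cast hgpos
  have hq1x : (((q1+1:ℕ)):ℝ) * a = p0 + d / g := by
    have : (g:ℝ) * ((((q1+1:ℕ)):ℝ) * a) = g * (p0 + d / g) := by
      push_cast
      rw [hkr] at hja
      have e : (g:ℝ) * (d / g) = d := by field_simp
      rw [mul_add, e, ← hpr]; linarith
    exact mul_left_cancel₀ hgr.ne' this
  have hlow : s - ε < d / g := by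
    by_cases h : 0 ≤ d
    · have : 0 ≤ d / g := by positivity
      linarith
    · push Not at h
      have : d ≤ d / g := by
        rw [le_div_iff₀ hgr]; nlinarith
      linarith
  have hhigh : d / g < s + l := by
    by_cases h : 0 ≤ d
    · have : d / g ≤ d := div_le_self h hg1
      linarith
    · push Not at h
      have : d / g < 0 := div_neg_of_neg_of_pos h hgr
      linarith
  have hval : (((q1+1:ℕ)):ℝ) * a + (ε - s) = p0 + (d / g + (ε - s)) := by rw [hq1x]; ring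
  have hfloor : ⌊(((q1+1:ℕ)):ℝ) * a + (ε - s)⌋ = p0 := by
    rw [Int.floor_eq_iff, hval]
    constructor
    · linarith
    · linarith
  have hfract : Int.fract ((((q1+1:ℕ)):ℝ) * a + (ε - s)) < ε + l := by
    rw [Int.fract, hfloor, hval]; linarith
  have hc : cop p0 ((q1+1:ℕ):ℤ) := by
    have hh : ∀ d : ℤ, 2 ≤ d → ¬ (d ∣ p0 ∧ d ∣ ((q1+1:ℕ):ℤ)) := by
      rintro d hd ⟨h1, h2⟩
      have h3 : d ∣ (Int.gcd p0 ((q1:ℤ)+1) : ℤ) := Int.dvd_coe_gcd h1 (by exact_mod_cast h2)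
      rw [hcop] at h3
      have := Int.le_of_dvd (by norm_num) h3
      push_cast at this; omega
    exact ⟨hh 2 (by norm_num), hh 3 (by norm_num), hh 5 (by norm_num)⟩
  have hq1n : q1 ∈ Finset.range (n-1) := by
    rw [Finset.mem_range]
    have : ((q1:ℤ) + 1) ≤ (j:ℤ) := by
      rw [hq0]; nlinarith [(by exact_mod_cast hgpos : (1:ℤ) ≤ g)]
    omega
  unfold GG
  apply Finset.prod_eq_zero hq1n
  have : F (ε + l) (q1 + 1) (((q1 + 1 : ℕ) : ℝ) * a + (ε - s)) = 1 := by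
    unfold F
    rw [if_pos ⟨hfract, by rw [hfloor]; exact hc⟩]
  rw [this]; norm_num

end Pool.Agent.X116.Ra
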