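import Pool.Agent.X116.RaE

open MeasureTheory Set Filter Topology

namespace Pool.Agent.X116.Ra

/-- unit square -/
def sq : Set (ℝ × ℝ) := Ico (0:ℝ) 1 ×ˢ Ico (0:ℝ) 1

/-- first hit at time `n` with the residue in `[s, s+l)`, and no earlier or equal second hit -/
def DD (ε l s : ℝ) (n : ℕ) : Set (ℝ × ℝ) :=
  {z | z ∈ sq ∧ Int.fract (n * z.1 - z.2) ∈ Ico s (s + l) ∧
    (∀ j : ℕ, 1 ≤ j → j < n → ε ≤ Int.fract ((n * z.1 - z.2) - j * z.1)) ∧
    (∀ k : ℕ, 1 ≤ k → k ≤ n → ε ≤ Int.fract (k * (z.1 - z.2)))}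

lemma sq_meas : MeasurableSet sq := measurableSet_Ico.prod measurableSet_Ico

lemma DD_meas (ε l s : ℝ) (n : ℕ) : MeasurableSet (DD ε l s n) := by
  unfold DD
  have m1 : Measurable fun z : ℝ × ℝ => (n:ℝ) * z.1 - z.2 :=
    (measurable_const.mul measurable_fst).sub measurable_snd
  refine sq_meas.inter (MeasurableSet.inter ?_ (MeasurableSet.inter ?_ ?_))
  · exact (measurable_fract.comp m1) measurableSet_Ico
  · have : {z : ℝ × ℝ | ∀ j : ℕ, 1 ≤ j → j < n → ε ≤ Int.fract ((n * z.1 - z.2) - j * z.1)}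
        = ⋂ j : ℕ, ⋂ (_ : 1 ≤ j), ⋂ (_ : j < n), {z : ℝ × ℝ | ε ≤ Int.fract ((n * z.1 - z.2) - j * z.1)} := by
      ext z; simp
    change MeasurableSet {z : ℝ × ℝ | ∀ j : ℕ, 1 ≤ j → j < n → ε ≤ Int.fract ((n * z.1 - z.2) - j * z.1)}
    rw [this]
    refine MeasurableSet.iInter fun j => MeasurableSet.iInter fun _ => MeasurableSet.iInter fun _ => ?_
    exact measurableSet_le measurable_const
      (measurable_fract.comp (m1.sub (measurable_const.mul measurable_fst)))
  · have : {z : ℝ × ℝ | ∀ k : ℕ, 1 ≤ k → k ≤ n → ε ≤ Int.fract (k * (z.1 - z.2))}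
        = ⋂ k : ℕ, ⋂ (_ : 1 ≤ k), ⋂ (_ : k ≤ n), {z : ℝ × ℝ | ε ≤ Int.fract (k * (z.1 - z.2))} := by
      ext z; simp
    change MeasurableSet {z : ℝ × ℝ | ∀ k : ℕ, 1 ≤ k → k ≤ n → ε ≤ Int.fract (k * (z.1 - z.2))}
    rw [this]
    refine MeasurableSet.iInter fun j => MeasurableSet.iInter fun _ => MeasurableSet.iInter fun _ => ?_
    exact measurableSet_le measurable_const
      (measurable_fract.comp (measurable_const.mul (measurable_fst.sub measurable_snd)))

noncomputable def PP (s l v : ℝ) : ℝ := (Ico s (s + l)).indicator (fun _ => (1:ℝ)) (Int.fract v)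

lemma PP_nonneg (s l v : ℝ) : 0 ≤ PP s l v := Set.indicator_nonneg (fun _ _ => zero_le_one) _

lemma PP_le_one (s l v : ℝ) : PP s l v ≤ 1 := by
  unfold PP Set.indicator; split_ifs <;> norm_num

lemma PP_meas (s l : ℝ) : Measurable (PP s l) :=
  (measurable_const.indicator measurableSet_Ico).comp measurable_fract

noncomputable def Phi (ε l s : ℝ) (n : ℕ) (z : ℝ × ℝ) : ℝ :=
  GG (ε + l) (ε - s) (n - 1) z.1 * (PP s l (n * z.1 - z.2) * (1 - hh ε n (z.1 - z.2)))

lemma Phi_meas (ε l s : ℝ) (n : ℕ) : Measurable (Phi ε l s n) := by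
  unfold Phi
  exact ((GG_meas _ _ _).comp measurable_fst).mul
    (((PP_meas s l).comp ((measurable_const.mul measurable_fst).sub measurable_snd)).mul
      (measurable_const.sub ((hh_meas ε n).comp (measurable_fst.sub measurable_snd))))

lemma Phi_abs (ε l s : ℝ) (n : ℕ) (z : ℝ × ℝ) : |Phi ε l s n z| ≤ 1 + n := by
  unfold Phi
  rw [abs_mul, abs_mul]
  have h1 := GG_abs (ε + l) (ε - s) (n - 1) z.1
  have h2 : |PP s l (n * z.1 - z.2)| ≤ 1 := by
    rw [abs_of_nonneg (PP_nonneg _ _ _)]; exact PP_le_one _ _ _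
  have h3 : |1 - hh ε n (z.1 - z.2)| ≤ 1 + n := by
    have a := hh_nonneg ε n (z.1 - z.2)
    have b := hh_le ε n (z.1 - z.2)
    rw [abs_le]; constructor <;> linarith [(Nat.cast_nonneg n : (0:ℝ) ≤ n)]
  calc _ ≤ 1 * (1 * (1 + (n:ℝ))) := by
        apply mul_le_mul h1 _ (by positivity) zero_le_one
        exact mul_le_mul h2 h3 (abs_nonneg _) zero_le_one
    _ = _ := by ring

lemma Phi_le {ε l s : ℝ} (hl : 0 < l) (hs : 0 ≤ s) (hsl : s + l ≤ ε) (hε : ε + l ≤ 1)
    {n : ℕ} {z : ℝ × ℝ} (hz : z ∈ sq) :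
    Phi ε l s n z ≤ (DD ε l s n).indicator (fun _ => (1:ℝ)) z := by
  by_cases hD : z ∈ DD ε l s n
  · rw [Set.indicator_of_mem hD]
    unfold Phi
    have h1 := GG_nonneg (ε + l) (ε - s) (n - 1) z.1
    have h1' := GG_le_one (ε + l) (ε - s) (n - 1) z.1
    have h2 := PP_nonneg s l (n * z.1 - z.2)
    have h2' := PP_le_one s l (n * z.1 - z.2)
    have h3 := hh_nonneg ε n (z.1 - z.2)
    have h4 : PP s l (n * z.1 - z.2) * (1 - hh ε n (z.1 - z.2)) ≤ 1 := by nlinarith
    nlinarith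
  · rw [Set.indicator_of_notMem hD]
    unfold Phi
    by_cases hP : Int.fract (n * z.1 - z.2) ∈ Ico s (s + l)
    · by_cases hG : GG (ε + l) (ε - s) (n - 1) z.1 = 0
      · rw [hG, zero_mul]
      · have hfirst : ∀ j : ℕ, 1 ≤ j → j < n → ε ≤ Int.fract ((n * z.1 - z.2) - j * z.1) :=
          fun j hj hjn => first_hit hl hs hsl hε hP.1 hP.2 hG hj hjn
        have : ¬ (∀ k : ℕ, 1 ≤ k → k ≤ n → ε ≤ Int.fract (k * (z.1 - z.2))) := by
          intro h; exact hD ⟨hz, hP, hfirst, h⟩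
        push Not at this
        obtain ⟨k, hk1, hkn, hk⟩ := this
        have hge := hit_hh hk1 hkn hk
        have h1 := GG_nonneg (ε + l) (ε - s) (n - 1) z.1
        have h2 := PP_nonneg s l (n * z.1 - z.2)
        have h3 : PP s l (n * z.1 - z.2) * (1 - hh ε n (z.1 - z.2)) ≤ 0 :=
          mul_nonpos_of_nonneg_of_nonpos h2 (by linarith)
        exact mul_nonpos_of_nonneg_of_nonpos h1 h3
    · have : PP s l (n * z.1 - z.2) = 0 := by
        unfold PP; exact Set.indicator_of_notMem hP _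
      rw [this, zero_mul, mul_zero]

lemma Ico_int (f : ℝ → ℝ) {a b : ℝ} (hab : a ≤ b) : ∫ x in Ico a b, f x = ∫ x in a..b, f x := by
  rw [intervalIntegral.integral_of_le hab, integral_Ico_eq_integral_Ioo,
    ← integral_Ioc_eq_integral_Ioo]

lemma inner_int {ε l s : ℝ} (hl : 0 ≤ l) (hs : 0 ≤ s) (hsl : s + l ≤ 1) (n : ℕ) (c : ℝ) :
    ∫ v in (0:ℝ)..1, PP s l v * (1 - hh ε n (v - c)) = l - ZZ ε n s l c := by
  rw [← Ico_int _ zero_le_one]
  have hc : ∀ v ∈ Ico (0:ℝ) 1, PP s l v * (1 - hh ε n (v - c))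
      = (Ico s (s+l)).indicator (fun v => 1 - hh ε n (v - c)) v := by
    intro v hv
    unfold PP
    rw [Int.fract_eq_self.2 ⟨hv.1, hv.2⟩]
    unfold Set.indicator
    split_ifs <;> ring
  rw [setIntegral_congr_fun measurableSet_Ico hc, setIntegral_indicator measurableSet_Ico]
  have : Ico (0:ℝ) 1 ∩ Ico s (s+l) = Ico s (s+l) := by
    apply Set.inter_eq_right.2
    intro x hx; exact ⟨hs.trans hx.1, hx.2.trans_le hsl⟩
  have hm : Measurable (fun v : ℝ => hh ε n (v - c)) :=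
    (hh_meas ε n).comp (measurable_id.sub_const c)
  have hi : IntervalIntegrable (fun v : ℝ => hh ε n (v - c)) volume s (s + l) :=
    bddint hm (fun _ => hh_abs _ _ _) _ _
  rw [this, Ico_int _ (by linarith), intervalIntegral.integral_sub intervalIntegrable_const hi]
  simp [ZZ]

lemma b_int {ε l s : ℝ} (hl : 0 ≤ l) (hs : 0 ≤ s) (hsl : s + l ≤ 1) (n : ℕ) (a : ℝ) :
    ∫ b in (0:ℝ)..1, PP s l (n * a - b) * (1 - hh ε n (a - b))
      = l - ZZ ε n s l (((n:ℝ) - 1) * a) := by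
  set ψ : ℝ → ℝ := fun v => PP s l v * (1 - hh ε n (v - ((n:ℝ) - 1) * a)) with hψ
  have hper : Function.Periodic ψ 1 := by
    intro v
    simp only [hψ]
    have e1 : PP s l (v + 1) = PP s l v := by unfold PP; rw [Int.fract_add_one]
    have e2 : hh ε n (v + 1 - ((n:ℝ) - 1) * a) = hh ε n (v - ((n:ℝ) - 1) * a) := by
      rw [show v + 1 - ((n:ℝ) - 1) * a = (v - ((n:ℝ) - 1) * a) + 1 by ring]
      exact hh_per ε n _
    rw [e1, e2]
  have e1 : ∀ b : ℝ, PP s l (n * a - b) * (1 - hh ε n (a - b)) = ψ (n * a - b) := by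
    intro b
    simp only [hψ]
    rw [show n * a - b - ((n:ℝ) - 1) * a = a - b by ring]
  simp only [e1]
  rw [intervalIntegral.integral_comp_sub_left]
  have e2 := hper.intervalIntegral_add_eq (n * a - 1) 0
  rw [show (n:ℝ) * a - 1 + 1 = n * a - 0 by ring, zero_add] at e2
  rw [e2]
  exact inner_int hl hs hsl n _

lemma comp_mul_per {g : ℝ → ℝ} (hg : Function.Periodic g 1)
    (hint : ∀ a b, IntervalIntegrable g volume a b) {m : ℕ} (hm : 1 ≤ m) :
    ∫ a in (0:ℝ)..1, g (m * a) = ∫ y in (0:ℝ)..1, g y := by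
  have hm0 : (m:ℝ) ≠ 0 := by positivity
  rw [intervalIntegral.integral_comp_mul_left _ hm0]
  have e := hg.intervalIntegral_add_zsmul_eq (m:ℤ) 0 hint
  simp only [zero_add, zsmul_eq_mul, Int.cast_natCast, mul_one] at e
  rw [mul_zero, mul_one, e, smul_eq_mul]
  field_simp

/-- the area of `DD` -/
lemma DD_area {ε l s κ : ℝ} (hε0 : 0 ≤ ε) (hl : 0 < l) (hs : 0 ≤ s) (hsl : s + l ≤ ε)
    (hε : ε + l ≤ 1) (hκ : 0 < κ) {n : ℕ} (hn : 2 ≤ n) (hz : 0 ≤ l - l * (ε * S n)) :
    (l - l * (ε * S n)) * (1 - (ε + l) * S (n-1))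
      - (30 * l * ε ^ 2 * Lam n / (2 * κ) + κ / 2) ≤ volume.real (DD ε l s n) := by
  have hε1 : ε ≤ 1 := by linarith
  have hsub : DD ε l s n ⊆ sq := fun z hz => hz.1
  have hfin : volume sq ≠ ⊤ := by
    unfold sq
    rw [Measure.volume_eq_prod, Measure.prod_prod]
    simp
  have : IsFiniteMeasure (volume.restrict sq) := ⟨by simpa using lt_top_iff_ne_top.2 hfin⟩
  have hPi : IntegrableOn (Phi ε l s n) sq volume :=
    Integrable.of_bound (Phi_meas ε l s n).aestronglyMeasurable (1 + n)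
      (Filter.Eventually.of_forall fun z => by
        rw [Real.norm_eq_abs]; exact Phi_abs ε l s n z)
  have e1 : ∫ z in sq, Phi ε l s n z ≤ volume.real (DD ε l s n) := by
    have e2 : volume.real (DD ε l s n)
        = ∫ z in sq, (DD ε l s n).indicator (fun _ => (1:ℝ)) z := by
      rw [setIntegral_indicator (DD_meas ε l s n), Set.inter_eq_right.2 hsub, setIntegral_const]
      simp
    rw [e2]
    apply setIntegral_mono_on hPi _ sq_meas
    · intro z hz; exact Phi_le hl hs hsl hε hz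
    · exact (integrable_const (1:ℝ)).indicator (DD_meas ε l s n)
  refine le_trans ?_ e1
  have e3 : ∫ z in sq, Phi ε l s n z = ∫ a in (0:ℝ)..1, ∫ b in (0:ℝ)..1, Phi ε l s n (a, b) := by
    have hPi' := hPi
    unfold sq at hPi' ⊢
    rw [Measure.volume_eq_prod] at hPi' ⊢
    rw [setIntegral_prod _ hPi', Ico_int _ zero_le_one]
    apply intervalIntegral.integral_congr
    intro a _
    exact Ico_int _ zero_le_one
  rw [e3]
  have e4 : ∀ a : ℝ, ∫ b in (0:ℝ)..1, Phi ε l s n (a, b)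
      = GG (ε + l) (ε - s) (n - 1) a * (l - ZZ ε n s l (((n - 1 : ℕ):ℝ) * a)) := by
    intro a
    have hb := b_int (ε := ε) hl.le hs (by linarith : s + l ≤ 1) n a
    have hcast : (((n - 1 : ℕ):ℝ)) = (n:ℝ) - 1 := by
      rw [Nat.cast_sub (by omega)]; simp
    rw [hcast, ← hb]
    show ∫ b in (0:ℝ)..1, GG (ε + l) (ε - s) (n - 1) a *
      (PP s l (n * a - b) * (1 - hh ε n (a - b))) = _
    rw [intervalIntegral.integral_const_mul]
  simp only [e4]
  set zb := l * (ε * S n) with hzb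
  have hZm := ZZ_meas (η := ε) n s hl.le
  have hZi : ∀ a b, IntervalIntegrable (fun y => |ZZ ε n s l y - zb|) volume a b := fun a b =>
    ((bddint hZm (ZZ_abs n s hl.le) a b).sub intervalIntegrable_const).abs
  have hZp : Function.Periodic (fun y => |ZZ ε n s l y - zb|) 1 := by
    intro y; simp only [ZZ_per n s y]
  have e5 : ∫ a in (0:ℝ)..1, |ZZ ε n s l (((n - 1 : ℕ):ℝ) * a) - zb|
      = ∫ y in (0:ℝ)..1, |ZZ ε n s l y - zb| :=
    comp_mul_per hZp hZi (by omega)
  have e6 := ZZ_dev hε0 hε1 n s hl.le hκ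
  have hZc : Measurable (fun a : ℝ => ZZ ε n s l (((n - 1 : ℕ):ℝ) * a)) :=
    hZm.comp (measurable_const.mul measurable_id)
  have hGi : IntervalIntegrable (GG (ε + l) (ε - s) (n - 1)) volume 0 1 :=
    bddint (GG_meas _ _ _) (GG_abs _ _ _) _ _
  have hZi2 : IntervalIntegrable (fun a : ℝ => |ZZ ε n s l (((n - 1 : ℕ):ℝ) * a) - zb|) volume 0 1 :=
    ((bddint hZc (fun a => ZZ_abs n s hl.le _) 0 1).sub intervalIntegrable_const).abs
  have hG := GG_int (θ := ε + l) (by linarith) hε (ε - s) (n-1)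
  calc (l - zb) * (1 - (ε + l) * S (n-1)) - (30 * l * ε ^ 2 * Lam n / (2 * κ) + κ / 2)
      ≤ (l - zb) * (∫ a in (0:ℝ)..1, GG (ε + l) (ε - s) (n - 1) a)
        - ∫ a in (0:ℝ)..1, |ZZ ε n s l (((n - 1 : ℕ):ℝ) * a) - zb| := by
        rw [e5]
        have := mul_le_mul_of_nonneg_left hG hz
        linarith
    _ = ∫ a in (0:ℝ)..1, ((l - zb) * GG (ε + l) (ε - s) (n - 1) a
        - |ZZ ε n s l (((n - 1 : ℕ):ℝ) * a) - zb|) := by
        rw [intervalIntegral.integral_sub (hGi.const_mul _) hZi2,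
          intervalIntegral.integral_const_mul]
    _ ≤ _ := by
        apply intervalIntegral.integral_mono_on zero_le_one
        · exact (hGi.const_mul _).sub hZi2
        · apply bddint ((GG_meas _ _ _).mul (measurable_const.sub hZc)) (C := 1 * (l + n * l))
          intro a
          show |GG (ε + l) (ε - s) (n - 1) a * (l - ZZ ε n s l (((n - 1 : ℕ):ℝ) * a))| ≤ _
          rw [abs_mul]
          apply mul_le_mul (GG_abs _ _ _ _) _ (abs_nonneg _) zero_le_one
          have := ZZ_abs (η := ε) n s hl.le (((n - 1 : ℕ):ℝ) * a)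
          rw [abs_le] at this ⊢
          constructor <;> linarith [this.1, this.2]
        · intro a _
          have h0 := GG_nonneg (ε + l) (ε - s) (n - 1) a
          have h1 := GG_le_one (ε + l) (ε - s) (n - 1) a
          set G := GG (ε + l) (ε - s) (n - 1) a
          set t := ZZ ε n s l (((n - 1 : ℕ):ℝ) * a) - zb with ht
          have e : G * (l - ZZ ε n s l (((n - 1 : ℕ):ℝ) * a)) = (l - zb) * G - G * t := by
            rw [ht]; ring
          rw [e]
          have h2 : G * t ≤ |t| := by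
            calc G * t ≤ |G * t| := le_abs_self _
              _ = G * |t| := by rw [abs_mul, abs_of_nonneg h0]
              _ ≤ 1 * |t| := mul_le_mul_of_nonneg_right h1 (abs_nonneg _)
              _ = |t| := one_mul _
          linarith

end Pool.Agent.X116.Ra
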