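import Pool.Agent.X116.RaF

open MeasureTheory Set Filter Topology

namespace Pool.Agent.X116.Ra

/-- unit-scale version of the set `E¹` -/
def E1u (ε : ℝ) : Set (ℝ × ℝ) :=
  {z | z ∈ sq ∧ ∃ n : ℕ, 1 ≤ n ∧ Int.fract (n * z.1 - z.2) < ε ∧
    ∀ k : ℕ, 1 ≤ k → k ≤ n → ε ≤ Int.fract (k * (z.1 - z.2))}

lemma sq_vol : volume sq = 1 := by
  unfold sq
  rw [Measure.volume_eq_prod, Measure.prod_prod]
  simp

lemma E1u_fin (ε : ℝ) : volume (E1u ε) ≠ ⊤ :=
  ne_top_of_le_ne_top (by rw [sq_vol]; simp) (measure_mono (fun z hz => hz.1 : E1u ε ⊆ sq))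

lemma DD_sub {ε l : ℝ} {K : ℕ} (hK : K * l = ε) (hl : 0 < l) {n i : ℕ} (hn : 1 ≤ n)
    (hi : i < K) : DD ε l (i * l) n ⊆ E1u ε := by
  intro z hz
  refine ⟨hz.1, n, hn, ?_, hz.2.2.2⟩
  refine hz.2.1.2.trans_le ?_
  have : (i:ℝ) + 1 ≤ K := by exact_mod_cast hi
  calc (i:ℝ) * l + l = (i + 1) * l := by ring
    _ ≤ K * l := by gcongr
    _ = ε := hK

lemma DD_disj {ε l : ℝ} {K : ℕ} (hK : K * l = ε) (hl : 0 < l) {n n' i i' : ℕ}
    (hn : 1 ≤ n) (hn' : 1 ≤ n') (hi : i < K) (hi' : i' < K) (hne : (n, i) ≠ (n', i')) :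
    Disjoint (DD ε l (i * l) n) (DD ε l (i' * l) n') := by
  rw [Set.disjoint_left]
  intro z hz hz'
  have hb : ∀ i : ℕ, i < K → (i:ℝ) * l + l ≤ ε := by
    intro i hi
    have : (i:ℝ) + 1 ≤ K := by exact_mod_cast hi
    calc (i:ℝ) * l + l = (i + 1) * l := by ring
      _ ≤ K * l := by gcongr
      _ = ε := hK
  rcases lt_trichotomy n n' with h | h | h
  · have h1 := hz'.2.2.1 (n' - n) (by omega) (by omega)
    have e : (n':ℝ) * z.1 - z.2 - ((n' - n : ℕ) : ℝ) * z.1 = n * z.1 - z.2 := by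
      rw [Nat.cast_sub h.le]; ring
    rw [e] at h1
    have h2 := hz.2.1.2
    linarith [hb i hi]
  · subst h
    have h1 := hz.2.1
    have h2 := hz'.2.1
    have hii : i ≠ i' := fun h => hne (by rw [h])
    rcases lt_or_gt_of_ne hii with h | h
    · have : (i:ℝ) + 1 ≤ i' := by exact_mod_cast h
      have : ((i:ℝ) + 1) * l ≤ i' * l := by gcongr
      linarith [h1.2, h2.1]
    · have : (i':ℝ) + 1 ≤ i := by exact_mod_cast h
      have : ((i':ℝ) + 1) * l ≤ i * l := by gcongr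
      linarith [h2.2, h1.1]
  · have h1 := hz.2.2.1 (n - n') (by omega) (by omega)
    have e : (n:ℝ) * z.1 - z.2 - ((n - n' : ℕ) : ℝ) * z.1 = n' * z.1 - z.2 := by
      rw [Nat.cast_sub h.le]; ring
    rw [e] at h1
    have h2 := hz'.2.1.2
    linarith [hb i' hi']

lemma sum_bound {ε l κ : ℝ} (hε0 : 0 < ε) {K : ℕ} (hK : K * l = ε) (hl : 0 < l)
    (hε : ε + l ≤ 1) (hκ : 0 < κ) (M : ℕ) (hM : ∀ n, n ≤ M → ε * S n ≤ 1) :
    ∑ n ∈ Finset.Icc 2 M, K * ((l - l * (ε * S n)) * (1 - (ε + l) * S (n-1))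
      - (30 * l * ε ^ 2 * Lam n / (2 * κ) + κ / 2)) ≤ volume.real (E1u ε) := by
  have h1 : ∑ p ∈ (Finset.Icc 2 M) ×ˢ (Finset.range K), volume.real (DD ε l (p.2 * l) p.1)
      ≤ volume.real (E1u ε) := by
    have hfin : ∀ p ∈ (Finset.Icc 2 M) ×ˢ (Finset.range K),
        volume (DD ε l ((p.2:ℝ) * l) p.1) ≠ ⊤ := by
      intro p _
      exact ne_top_of_le_ne_top (by rw [sq_vol]; simp)
        (measure_mono (fun z hz => hz.1 : DD ε l (p.2 * l) p.1 ⊆ sq))
    have hu := measureReal_biUnion_finset (μ := (volume : Measure (ℝ × ℝ)))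
      (s := (Finset.Icc 2 M) ×ˢ (Finset.range K))
      (f := fun p : ℕ × ℕ => DD ε l ((p.2:ℝ) * l) p.1)
      (by
        intro p hp p' hp' hne
        rw [Finset.mem_coe, Finset.mem_product, Finset.mem_Icc, Finset.mem_range] at hp hp'
        exact DD_disj hK hl (by omega) (by omega) hp.2 hp'.2 hne)
      (fun p _ => DD_meas _ _ _ _) hfin
    rw [← hu]
    apply measureReal_mono _ (E1u_fin ε)
    apply Set.iUnion₂_subset
    intro p hp
    rw [Finset.mem_product, Finset.mem_Icc, Finset.mem_range] at hp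
    exact DD_sub hK hl (by omega) hp.2
  refine le_trans ?_ h1
  rw [Finset.sum_product]
  apply Finset.sum_le_sum
  intro n hn
  rw [Finset.mem_Icc] at hn
  have h2 : ∀ i ∈ Finset.range K, ((l - l * (ε * S n)) * (1 - (ε + l) * S (n-1))
      - (30 * l * ε ^ 2 * Lam n / (2 * κ) + κ / 2)) ≤ volume.real (DD ε l (i * l) n) := by
    intro i hi
    rw [Finset.mem_range] at hi
    apply DD_area hε0.le hl (by positivity) _ hε hκ hn.1
    · have := hM n hn.2
      nlinarith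
    · have : (i:ℝ) + 1 ≤ K := by exact_mod_cast hi
      calc (i:ℝ) * l + l = (i + 1) * l := by ring
        _ ≤ K * l := by gcongr
        _ = ε := hK
  have h3 := Finset.sum_le_sum h2
  rw [Finset.sum_const, Finset.card_range, nsmul_eq_mul] at h3
  exact h3

lemma Lam_mono {m n : ℕ} (h : m ≤ n) : Lam m ≤ Lam n := by
  unfold Lam
  calc _ ≤ ∑ q ∈ Finset.range m, ∑ q' ∈ Finset.range n, 1 / (Nat.lcm (q+1) (q'+1) : ℝ) := by
        apply Finset.sum_le_sum; intro q _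
        exact Finset.sum_le_sum_of_subset_of_nonneg (Finset.range_subset_range.2 h)
          (fun _ _ _ => by positivity)
    _ ≤ _ := Finset.sum_le_sum_of_subset_of_nonneg (Finset.range_subset_range.2 h)
          (fun _ _ _ => Finset.sum_nonneg fun _ _ => by positivity)

lemma poly_sum (α β ε : ℝ) (M : ℕ) : ∑ n ∈ Finset.range (M+1), ε * ((1 - α * (n * ε)) * (1 - β * (n * ε)))
    = ε + ε * M - (α + β) * ε ^ 2 * (M * (M + 1)) / 2
      + α * β * ε ^ 3 * (M * (M + 1) * (2 * M + 1)) / 6 := by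
  induction M with
  | zero => simp
  | succ M ih =>
    rw [Finset.sum_range_succ, ih]
    push_cast
    ring

lemma term_bound {ε x Sn Sm Ln LM : ℝ} (hε0 : 0 < ε) (hε1 : ε ≤ 1 / 100000) (hx0 : 0 ≤ x)
    (hx1 : x ≤ 3/2) (a : ε * Sn ≤ 16/25 * x + 11 * ε)
    (d : (ε + ε/100) * Sm ≤ 404/625 * x + 12 * ε) (hL : Ln ≤ LM) :
    ε * ((1 - 16/25 * x) * (1 - 404/625 * x))
      - 23 * ε ^ 2 - 1500000 * ε ^ 2 * LM - ε / 2000
      ≤ ((100:ℕ):ℝ) * ((ε/100 - ε/100 * (ε * Sn)) * (1 - (ε + ε/100) * Sm)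
      - (30 * (ε/100) * ε ^ 2 * Ln / (2 * (ε/100000)) + (ε/100000) / 2)) := by
  have h1 : 0 ≤ 1 - 16/25 * x - 11 * ε := by linarith
  have h2 : 0 ≤ 1 - 404/625 * x - 12 * ε := by linarith
  have h3 : (1 - 16/25 * x - 11 * ε) * (1 - 404/625 * x - 12 * ε)
      ≤ (1 - ε * Sn) * (1 - (ε + ε/100) * Sm) := by
    apply mul_le_mul _ _ h2 _
    · linarith
    · linarith
    · linarith
  have h4 : (1 - 16/25 * x) * (1 - 404/625 * x) - 23 * ε
      ≤ (1 - 16/25 * x - 11 * ε) * (1 - 404/625 * x - 12 * ε) := by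
    have : 0 ≤ ε * x := by positivity
    nlinarith
  have h5 : 30 * (ε/100) * ε ^ 2 * Ln / (2 * (ε/100000)) = 15000 * ε ^ 2 * Ln := by
    field_simp; ring
  rw [h5]
  have h6 : 15000 * ε^2 * Ln ≤ 15000 * ε^2 * LM := by gcongr
  have h7 : ε * ((1 - 16/25 * x) * (1 - 404/625 * x) - 23 * ε)
      ≤ ε * ((1 - ε * Sn) * (1 - (ε + ε/100) * Sm)) := by
    gcongr; linarith
  have e : ((100:ℕ):ℝ) * ((ε/100 - ε/100 * (ε * Sn)) * (1 - (ε + ε/100) * Sm)
      - (15000 * ε ^ 2 * Ln + (ε/100000) / 2))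
      = ε * ((1 - ε * Sn) * (1 - (ε + ε/100) * Sm)) - 100 * (15000 * ε^2 * Ln) - ε / 2000 := by
    push_cast; ring
  rw [e]
  have e2 : ε * ((1 - 16/25 * x) * (1 - 404/625 * x) - 23 * ε)
      = ε * ((1 - 16/25 * x) * (1 - 404/625 * x)) - 23 * ε^2 := by ring
  linarith

lemma poly_low {ε y : ℝ} (hε0 : 0 < ε) (hε1 : ε ≤ 1 / 100000) (hy1 : y ≤ 3/2)
    (hy2 : 3/2 - ε < y) : 517/1000 ≤ ε + y - 804/625 * (y * (y + ε)) / 2
      + 6464/15625 * (y * (y + ε) * (2 * y + ε)) / 6 := by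
  have p1 : y * (y + ε) ≤ 22501/10000 := by nlinarith
  have p2 : 22499/10000 ≤ y * (y + ε) := by nlinarith
  have p3 : 67490/10000 ≤ y * (y + ε) * (2 * y + ε) := by nlinarith
  linarith

lemma main_lower {ε : ℝ} (hε0 : 0 < ε) (hε1 : ε ≤ 1 / 100000)
    (hlog : ε * (1 + Real.log (3 / 2 / ε)) ^ 3 ≤ 1 / 10 ^ 10) :
    51 / 100 ≤ volume.real (E1u ε) := by
  set M : ℕ := ⌊3 / 2 / ε⌋₊ with hMdef
  have hMle : (M:ℝ) ≤ 3 / 2 / ε := Nat.floor_le (by positivity)
  have hMlt : 3 / 2 / ε < M + 1 := Nat.lt_floor_add_one _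
  have hy1 : ε * M ≤ 3/2 := by
    rw [le_div_iff₀ hε0] at hMle; linarith
  have hy2 : 3/2 - ε < ε * M := by
    rw [div_lt_iff₀ hε0] at hMlt; linarith
  have hMpos : 1 ≤ M := by
    by_contra h
    have : M = 0 := by omega
    rw [this] at hy2; simp at hy2; linarith
  have hMr : (1:ℝ) ≤ M := by exact_mod_cast hMpos
  -- bound for the arithmetic sum
  have hLam : ε * Lam M ≤ 1 / 10 ^ 10 := by
    have h1 : H M ≤ 1 + Real.log (3/2/ε) := by
      refine (H_le M).trans ?_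
      have := Real.log_le_log (by linarith : (0:ℝ) < M) hMle
      linarith
    have h2 : Lam M ≤ (1 + Real.log (3/2/ε)) ^ 3 :=
      (Lam_le M).trans (pow_le_pow_left₀ (H_nonneg M) h1 3)
    calc ε * Lam M ≤ ε * (1 + Real.log (3/2/ε)) ^ 3 := by gcongr
      _ ≤ _ := hlog
  have hSn : ∀ n : ℕ, n ≤ M → ε * S n ≤ 16/25 * (n * ε) + 11 * ε := by
    intro n _
    have := S_le n
    calc ε * S n ≤ ε * (16/25 * n + 11) := by gcongr
      _ = _ := by ring
  have hnε : ∀ n : ℕ, n ≤ M → (n:ℝ) * ε ≤ 3/2 := by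
    intro n hn
    have : (n:ℝ) ≤ M := by exact_mod_cast hn
    calc (n:ℝ) * ε ≤ M * ε := by gcongr
      _ ≤ _ := by linarith
  have hK : ((100:ℕ):ℝ) * (ε / 100) = ε := by push_cast; ring
  have hsb := sum_bound (κ := ε / 100000) hε0 (K := 100) (l := ε/100) hK (by positivity)
    (by linarith) (by positivity) M (fun n hn => by
      have a := hSn n hn
      have b := hnε n hn
      linarith)
  refine le_trans ?_ hsb
  -- termwise lower bound
  have hterm : ∀ n ∈ Finset.Icc 2 M, ε * ((1 - 16/25 * (n * ε)) * (1 - 404/625 * (n * ε)))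
      - 23 * ε ^ 2 - 1500000 * ε ^ 2 * Lam M - ε / 2000
      ≤ ((100:ℕ):ℝ) * ((ε/100 - ε/100 * (ε * S n)) * (1 - (ε + ε/100) * S (n-1))
      - (30 * (ε/100) * ε ^ 2 * Lam n / (2 * (ε/100000)) + (ε/100000) / 2)) := by
    intro n hn
    rw [Finset.mem_Icc] at hn
    have a := hSn n hn.2
    have b := hnε n hn.2
    have c : S (n-1) ≤ S n := S_mono (by omega)
    have d : (ε + ε/100) * S (n-1) ≤ 404/625 * (n*ε) + 12 * ε := by
      have : ε * S (n-1) ≤ ε * S n := by gcongr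
      linarith
    exact term_bound hε0 hε1 (by positivity) b a d (Lam_mono hn.2)
  refine le_trans ?_ (Finset.sum_le_sum hterm)
  -- summation
  have hps := poly_sum (16/25) (404/625) ε M
  have hsplit : ∑ n ∈ Finset.range (M+1), ε * ((1 - 16/25 * ((n:ℝ) * ε)) * (1 - 404/625 * (n * ε)))
      ≤ ∑ n ∈ Finset.Icc 2 M, ε * ((1 - 16/25 * ((n:ℝ) * ε)) * (1 - 404/625 * (n * ε))) + 2 * ε := by
    have e1 : Finset.range (M+1) = insert 0 (insert 1 (Finset.Icc 2 M)) := by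
      ext n; simp only [Finset.mem_range, Finset.mem_insert, Finset.mem_Icc]; omega
    rw [e1, Finset.sum_insert (by simp), Finset.sum_insert (by simp)]
    have : ε * ((1 - 16/25 * (((1:ℕ):ℝ) * ε)) * (1 - 404/625 * (((1:ℕ):ℝ) * ε))) ≤ ε := by
      push_cast
      have : (1 - 16/25 * (1 * ε)) * (1 - 404/625 * (1 * ε)) ≤ 1 := by nlinarith
      nlinarith
    simp only [Nat.cast_zero, zero_mul, mul_zero, sub_zero, mul_one]
    linarith
  have hcard : (((Finset.Icc 2 M).card : ℕ) : ℝ) ≤ M := by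
    rw [Nat.card_Icc]; exact_mod_cast (by omega : M + 1 - 2 ≤ M)
  rw [Finset.sum_sub_distrib, Finset.sum_sub_distrib, Finset.sum_sub_distrib, Finset.sum_const,
    Finset.sum_const, Finset.sum_const]
  simp only [nsmul_eq_mul]
  set c : ℝ := (((Finset.Icc 2 M).card : ℕ) : ℝ) with hc
  have hc0 : 0 ≤ c := by positivity
  have hLM := Lam_nonneg M
  have hcε : c * ε ≤ 3/2 := by
    calc c * ε ≤ M * ε := by gcongr
      _ ≤ _ := by linarith
  have t1 : c * (23 * ε^2) ≤ 35 * ε := by nlinarith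
  have t2 : c * (1500000 * ε^2 * Lam M) ≤ 1 / 1000 := by
    calc c * (1500000 * ε^2 * Lam M) = 1500000 * (c * ε) * (ε * Lam M) := by ring
      _ ≤ 1500000 * (3/2) * (1 / 10^10) := by gcongr
      _ ≤ _ := by norm_num
  have t3 : c * (ε / 2000) ≤ 1/1000 := by linarith
  set y := ε * (M:ℝ) with hy
  have hpoly : (∑ n ∈ Finset.range (M+1), ε * ((1 - 16/25 * ((n:ℝ) * ε)) * (1 - 404/625 * (n * ε))))
      = ε + y - 804/625 * (y * (y + ε)) / 2 + 6464/15625 * (y * (y + ε) * (2 * y + ε)) / 6 := by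
    rw [hps]; rw [hy]; ring
  have hmain := poly_low hε0 hε1 hy1 hy2
  rw [hpoly] at hsplit
  clear_value y c
  linarith

lemma exists_small : ∃ ε₀ : ℝ, 0 < ε₀ ∧ ε₀ ≤ 1/100000 ∧ ∀ ε : ℝ, 0 < ε → ε < ε₀ →
    ε * (1 + Real.log (3 / 2 / ε)) ^ 3 ≤ 1 / 10 ^ 10 := by
  have ht := Real.tendsto_pow_log_div_mul_add_atTop 1 0 3 one_ne_zero
  have he := Real.exp_pos 1
  have hδ : (0:ℝ) < 1 / 10^10 / (3/2 * Real.exp 1) := by positivity
  have hev := (ht.eventually (gt_mem_nhds hδ)).and (eventually_gt_atTop (0:ℝ))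
  obtain ⟨X, hX⟩ := eventually_atTop.1 hev
  set X' := max X 1 with hX'
  have hX'pos : 0 < X' := lt_of_lt_of_le one_pos (le_max_right _ _)
  refine ⟨min (1/100000) (3/2 * Real.exp 1 / X'), by positivity, min_le_left _ _, ?_⟩
  intro ε hε hlt
  have h1 : ε < 3/2 * Real.exp 1 / X' := lt_of_lt_of_le hlt (min_le_right _ _)
  set x := 3/2 * Real.exp 1 / ε with hx
  have hxpos : 0 < x := by positivity
  have hxX : X ≤ x := by
    refine (le_max_left X 1).trans ?_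
    rw [hx, le_div_iff₀ hε]
    rw [lt_div_iff₀ hX'pos] at h1
    linarith
  obtain ⟨h2, _⟩ := hX x hxX
  have hlog : Real.log x = 1 + Real.log (3/2/ε) := by
    have : x = Real.exp 1 * (3/2/ε) := by rw [hx]; ring
    rw [this, Real.log_mul he.ne' (by positivity), Real.log_exp]
  rw [hlog, one_mul, add_zero] at h2
  rw [div_lt_div_iff₀ hxpos (by positivity)] at h2
  have hεx : ε * x = 3/2 * Real.exp 1 := by rw [hx]; field_simp
  have h3 : (1 + Real.log (3/2/ε)) ^ 3 * (ε * x) < 1 / 10 ^ 10 * x := by rw [hεx]; exact h2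
  have h4 : (ε * (1 + Real.log (3/2/ε)) ^ 3) * x < 1 / 10 ^ 10 * x := by
    calc _ = (1 + Real.log (3/2/ε)) ^ 3 * (ε * x) := by ring
      _ < _ := h3
  exact (lt_of_mul_lt_mul_right h4 hxpos.le).le

end Pool.Agent.X116.Ra
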