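import Mathlib

/-!
Rotor walks on the rooted `d`-ary tree: definitions, edge balance and a criterion for many returns.
Vertices are lists of letters in `Fin d`; the root is `[]`, the `i`-th child of `v` is `i :: v`
(letters `0,…,d-1` stand for the children `1,…,d`), and the parent of `v` is `v.tail`
(so the parent of the root is the root: the self-loop).
-/

namespace Pool.Agent.X116.Rot

open Finset

/-- the vertex reached from `v` by the rotor value `r ∈ {0,…,d}`: `0` is the parent (the root itself
for the root), `i+1` is the child `i :: v`. -/
def move {d : ℕ} (v : List (Fin d)) (r : Fin (d + 1)) : List (Fin d) :=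
  Fin.cases v.tail (fun i => i :: v) r

/-- One step of the rotor walk in the configuration `a`; a state is the current position together
with the number of past departures from each vertex. -/
def step {d : ℕ} (a : List (Fin d) → ℕ → Fin (d + 1))
    (s : List (Fin d) × (List (Fin d) → ℕ)) : List (Fin d) × (List (Fin d) → ℕ) :=
  (move s.1 (a s.1 (s.2 s.1 + 1)), Function.update s.2 s.1 (s.2 s.1 + 1))

/-- The state of the rotor walk after `t` steps, started at the root. -/
def walk {d : ℕ} (a : List (Fin d) → ℕ → Fin (d + 1)) (t : ℕ) :
    List (Fin d) × (List (Fin d) → ℕ) :=
  (step a)^[t] ([], fun _ => 0)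

/-- The rotor walk visits the root infinitely often. -/
def Recurrent {d : ℕ} (a : List (Fin d) → ℕ → Fin (d + 1)) : Prop :=
  {t : ℕ | (walk a t).1 = []}.Infinite

/-- number of uses of the value `r` among the first `x` departures -/
def cnt {d : ℕ} (b : ℕ → Fin (d + 1)) (r : Fin (d + 1)) (x : ℕ) : ℕ :=
  ((Finset.Ioc 0 x).filter (fun y => b y = r)).card

section
variable {d : ℕ} (a : List (Fin d) → ℕ → Fin (d + 1))

lemma cnt_zero (b : ℕ → Fin (d + 1)) (r : Fin (d + 1)) : cnt b r 0 = 0 := by
  simp [cnt]

lemma cnt_succ (b : ℕ → Fin (d + 1)) (r : Fin (d + 1)) (x : ℕ) :
    cnt b r (x + 1) = cnt b r x + if b (x + 1) = r then 1 else 0 := by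
  unfold cnt
  have h : Finset.Ioc 0 (x + 1) = insert (x + 1) (Finset.Ioc 0 x) := by
    ext y; simp only [Finset.mem_Ioc, Finset.mem_insert]; omega
  rw [h, Finset.filter_insert]
  split_ifs with hb
  · rw [Finset.card_insert_of_notMem (by simp)]
  · rfl

lemma cnt_mono (b : ℕ → Fin (d + 1)) (r : Fin (d + 1)) {x y : ℕ} (h : x ≤ y) :
    cnt b r x ≤ cnt b r y := by
  unfold cnt
  apply Finset.card_le_card
  intro z hz
  simp only [Finset.mem_filter, Finset.mem_Ioc] at hz ⊢
  exact ⟨⟨hz.1.1, hz.1.2.trans h⟩, hz.2⟩

lemma cnt_le (b : ℕ → Fin (d + 1)) (r : Fin (d + 1)) (x : ℕ) : cnt b r x ≤ x := by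
  unfold cnt
  calc _ ≤ (Finset.Ioc 0 x).card := Finset.card_filter_le _ _
    _ = x := by simp

lemma walk_zero : walk a 0 = ([], fun _ => 0) := rfl

lemma walk_succ (t : ℕ) : walk a (t + 1) = step a (walk a t) := by
  unfold walk
  rw [Function.iterate_succ_apply']

/-- Edge balance. -/
lemma balance (t : ℕ) : ∀ (u : List (Fin d)) (i : Fin d),
    cnt (a u) i.succ ((walk a t).2 u) =
      cnt (a (i :: u)) 0 ((walk a t).2 (i :: u)) + if (i :: u) <:+ (walk a t).1 then 1 else 0 := by
  induction t with
  | zero =>
    intro u i
    simp [walk_zero, cnt_zero]
  | succ t ih =>
    intro u i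
    have IH := ih u i
    rw [walk_succ]
    set p := (walk a t).1 with hp
    set D := (walk a t).2 with hD
    unfold step
    rw [← hp, ← hD]
    dsimp only
    have hlen : ∀ (j : Fin d) (w : List (Fin d)), (j :: w) ≠ w := by
      intro j w h
      have := congrArg List.length h
      simp at this
    -- generic value of the rotor
    rcases Fin.eq_zero_or_eq_succ (a p (D p + 1)) with h0 | ⟨j, hj⟩
    · -- go to the parent
      have hmove : move p (a p (D p + 1)) = p.tail := by rw [h0]; rfl
      rw [hmove]
      by_cases hu : u = p
      · -- the vertex itself is u
        subst hu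
        have h1 : ¬ (i :: p) <:+ p := fun h => by
          have := h.length_le; simp at this
        have h2 : ¬ (i :: p) <:+ p.tail := fun h => by
          have := h.length_le
          rw [List.length_tail] at this
          simp at this
          omega
        rw [Function.update_self, Function.update_of_ne (hlen i p), cnt_succ, h0,
          if_neg (Fin.succ_ne_zero i).symm, if_neg h2]
        rw [if_neg h1] at IH
        simpa using IH
      · rw [Function.update_of_ne hu]
        by_cases hv : i :: u = p
        · rw [hv, Function.update_self, cnt_succ, if_pos h0]
          have h2 : ¬ p <:+ p.tail := fun h => by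
            have := h.length_le
            rw [List.length_tail, ← hv] at this
            simp at this
          rw [if_neg h2]
          rw [hv, if_pos (List.suffix_refl p)] at IH
          rw [IH]
        · rw [Function.update_of_ne hv, IH]
          congr 1
          have : (i :: u) <:+ p ↔ (i :: u) <:+ p.tail := by
            cases hpp : p with
            | nil => simp
            | cons b q =>
              rw [List.tail_cons, List.suffix_cons_iff]
              constructor
              · rintro (h | h)
                · exact absurd (h.trans hpp.symm) hv
                · exact h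
              · exact Or.inr
          simp only [this]
    · -- go to child j
      have hmove : move p (a p (D p + 1)) = j :: p := by rw [hj]; rfl
      rw [hmove]
      by_cases hu : u = p
      · subst hu
        have h1 : ¬ (i :: p) <:+ p := fun h => by
          have := h.length_le; simp at this
        rw [if_neg h1] at IH
        rw [Function.update_self, Function.update_of_ne (hlen i p), cnt_succ, hj]
        by_cases hij : j = i
        · subst hij
          rw [if_pos rfl, if_pos (List.suffix_refl _), IH]
        · rw [if_neg (fun h => hij (Fin.succ_injective _ h)), if_neg, IH]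
          intro h
          rw [List.suffix_cons_iff] at h
          rcases h with h | h
          · exact hij (List.cons.inj h).1.symm
          · exact h1 h
      · rw [Function.update_of_ne hu]
        have hsuf : (i :: u) <:+ p ↔ (i :: u) <:+ (j :: p) := by
          rw [List.suffix_cons_iff]
          constructor
          · exact Or.inr
          · rintro (h | h)
            · exact absurd (List.cons.inj h).2 hu
            · exact h
        by_cases hv : i :: u = p
        · rw [hv] at hsuf IH ⊢
          rw [Function.update_self, cnt_succ, hj, if_neg (Fin.succ_ne_zero j), IH]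
          simp only [hsuf, Nat.add_zero]
        · rw [Function.update_of_ne hv, IH]
          simp only [hsuf]

/-- Criterion. `T v` bounds the number of departures from `v`, `c v` is the number of parent moves
among these. -/
theorem reach (T c : List (Fin d) → ℕ)
    (h0 : ∀ v, cnt (a v) 0 (T v) = c v)
    (hc : ∀ u i, cnt (a u) i.succ (T u) = c (i :: u))
    (hfin : {v | T v ≠ 0}.Finite) : ∃ t, T [] ≤ (walk a t).2 [] := by
  classical
  by_contra hcon
  push Not at hcon
  -- departures never exceed T
  have key : ∀ t v, (walk a t).2 v ≤ T v := by
    intro t
    induction t with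
    | zero => intro v; simp [walk_zero]
    | succ t ih =>
      intro v
      rw [walk_succ]
      by_cases hv : v = (walk a t).1
      · -- v is the current position
        have hstep : (step a (walk a t)).2 v = (walk a t).2 v + 1 := by
          unfold step
          dsimp only
          rw [← hv, Function.update_self]
        rw [hstep]
        by_contra hlt
        push Not at hlt
        have heq : (walk a t).2 v = T v := le_antisymm (ih v) (by omega)
        cases v with
        | nil => have := hcon t; omega
        | cons i u =>
          have hb := balance a t u i
          rw [← hv, if_pos (List.suffix_refl _), heq, h0] at hb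
          have := cnt_mono (a u) i.succ (ih u)
          rw [hc] at this
          omega
      · have hstep : (step a (walk a t)).2 v = (walk a t).2 v := by
          unfold step
          dsimp only
          rw [Function.update_of_ne hv]
        rw [hstep]
        exact ih v
  -- total number of departures is t
  have htot : ∀ t, ∑ v ∈ hfin.toFinset, (walk a t).2 v = t := by
    intro t
    induction t with
    | zero => simp [walk_zero]
    | succ t ih =>
      have hmem : (walk a t).1 ∈ hfin.toFinset := by
        rw [Set.Finite.mem_toFinset]
        show T _ ≠ 0
        have h1 := key (t + 1) (walk a t).1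
        rw [walk_succ] at h1
        unfold step at h1
        dsimp only at h1
        rw [Function.update_self] at h1
        omega
      rw [walk_succ]
      unfold step
      dsimp only
      rw [Finset.sum_update_of_mem hmem, ← Finset.erase_eq]
      have := Finset.add_sum_erase hfin.toFinset (fun v => (walk a t).2 v) hmem
      omega
  have h1 := htot (∑ v ∈ hfin.toFinset, T v + 1)
  have h2 : ∑ v ∈ hfin.toFinset, (walk a (∑ v ∈ hfin.toFinset, T v + 1)).2 v ≤
      ∑ v ∈ hfin.toFinset, T v := Finset.sum_le_sum (fun v _ => key _ v)
  omega

/-- departures from the root are visits of the root -/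
lemma dep_root (t : ℕ) :
    (walk a t).2 [] = ((Finset.range t).filter (fun s => (walk a s).1 = [])).card := by
  induction t with
  | zero => simp [walk_zero]
  | succ t ih =>
    rw [Finset.range_add_one, Finset.filter_insert, walk_succ]
    unfold step
    dsimp only
    split_ifs with h
    · rw [Finset.card_insert_of_notMem (by simp), ← ih]
      rw [h, Function.update_self]
    · rw [Function.update_of_ne (Ne.symm h), ih]

/-- If for every `n` there is a finite budget system with at least `n` at the root, the walk is
recurrent. -/
theorem recurrent_of (T c : ℕ → List (Fin d) → ℕ)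
    (h0 : ∀ n v, cnt (a v) 0 (T n v) = c n v)
    (hc : ∀ n u i, cnt (a u) i.succ (T n u) = c n (i :: u))
    (hroot : ∀ n, n ≤ c n [])
    (hfin : ∀ n, {v | T n v ≠ 0}.Finite) : Recurrent a := by
  intro hf
  have hbound : ∀ t, (walk a t).2 [] ≤ hf.toFinset.card := by
    intro t
    rw [dep_root]
    apply Finset.card_le_card
    intro s hs
    rw [Finset.mem_filter] at hs
    rw [Set.Finite.mem_toFinset]
    exact hs.2
  obtain ⟨t, ht⟩ := reach a (T (hf.toFinset.card + 1)) (c (hf.toFinset.card + 1))
    (h0 _) (hc _) (hfin _)
  have h1 := hbound t
  have h2 := hroot (hf.toFinset.card + 1)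
  have h3 : c (hf.toFinset.card + 1) [] ≤ T (hf.toFinset.card + 1) [] := by
    rw [← h0]
    exact cnt_le _ _ _
  omega

end

end Pool.Agent.X116.Rot
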