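import Pool.Agent.X116.RotA

/-!
The word `1 2 3 0^21` (period `24`) on the ternary tree: zero positions and symbol counts.
-/

namespace Pool.Agent.X116.Rot

open Finset

/-- The 24-periodic rotor sequence with period word `1,2,3,0,…,0` (21 zeros). -/
def word (x : ℕ) : Fin 4 :=
  if x % 24 = 1 then 1 else if x % 24 = 2 then 2 else if x % 24 = 3 then 3 else 0

lemma word_add (x : ℕ) : word (x + 24) = word x := by
  unfold word
  rw [Nat.add_mod_right]

/-- number of nonzero symbols following position `y` before the next zero -/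
def gap (y : ℕ) : ℕ := if y % 24 = 0 then 3 else if y % 24 = 1 then 2 else if y % 24 = 2 then 1 else 0

/-- the next zero position after `y` -/
def nxt (y : ℕ) : ℕ := y + gap y + 1

lemma gap_add (y : ℕ) : gap (y + 24) = gap y := by
  unfold gap; rw [Nat.add_mod_right]

lemma nxt_add (y : ℕ) : nxt (y + 24) = nxt y + 24 := by
  unfold nxt; rw [gap_add]; omega

lemma iter_add (c y : ℕ) : nxt^[c] (y + 24) = nxt^[c] y + 24 := by
  induction c generalizing y with
  | zero => rfl
  | succ c ih => rw [Function.iterate_succ_apply, Function.iterate_succ_apply, nxt_add, ih]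

lemma lt_nxt (y : ℕ) : y < nxt y := by unfold nxt; omega

lemma le_iter (c y : ℕ) : y + c ≤ nxt^[c] y := by
  induction c generalizing y with
  | zero => simp
  | succ c ih =>
    rw [Function.iterate_succ_apply]
    have := ih (nxt y)
    have := lt_nxt y
    omega

/-- occurrences of `r` at positions in `(y, z]` -/
def occ (r : Fin 4) (y z : ℕ) : ℕ := ((Finset.Ioc y z).filter (fun x => word x = r)).card

lemma occ_self (r : Fin 4) (y : ℕ) : occ r y y = 0 := by simp [occ]

lemma occ_add (r : Fin 4) {x y z : ℕ} (h1 : x ≤ y) (h2 : y ≤ z) :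
    occ r x z = occ r x y + occ r y z := by
  unfold occ
  rw [← Finset.card_union_of_disjoint]
  · congr 1
    ext w
    simp only [Finset.mem_filter, Finset.mem_union, Finset.mem_Ioc]
    constructor
    · rintro ⟨⟨ha, hb⟩, hc⟩
      by_cases hw : w ≤ y
      · exact Or.inl ⟨⟨ha, hw⟩, hc⟩
      · exact Or.inr ⟨⟨by omega, hb⟩, hc⟩
    · rintro (⟨⟨ha, hb⟩, hc⟩ | ⟨⟨ha, hb⟩, hc⟩)
      · exact ⟨⟨ha, by omega⟩, hc⟩
      · exact ⟨⟨by omega, hb⟩, hc⟩
  · rw [Finset.disjoint_left]
    intro w hw hw'
    simp only [Finset.mem_filter, Finset.mem_Ioc] at hw hw'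
    omega

lemma occ_shift (r : Fin 4) (y z : ℕ) : occ r (y + 24) (z + 24) = occ r y z := by
  unfold occ
  symm
  apply Finset.card_bij (fun x _ => x + 24)
  · intro x hx
    simp only [Finset.mem_filter, Finset.mem_Ioc] at hx ⊢
    refine ⟨⟨by omega, by omega⟩, ?_⟩
    rw [word_add]; exact hx.2
  · intro x _ y _ h
    simpa using h
  · intro x hx
    simp only [Finset.mem_filter, Finset.mem_Ioc] at hx
    refine ⟨x - 24, ?_, by omega⟩
    simp only [Finset.mem_filter, Finset.mem_Ioc]
    refine ⟨⟨by omega, by omega⟩, ?_⟩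
    rw [← word_add, show x - 24 + 24 = x by omega]; exact hx.2

lemma occ_shift_mul (r : Fin 4) (y z q : ℕ) : occ r (y + 24 * q) (z + 24 * q) = occ r y z := by
  induction q with
  | zero => rfl
  | succ q ih => rw [show y + 24 * (q + 1) = (y + 24 * q) + 24 by ring,
      show z + 24 * (q + 1) = (z + 24 * q) + 24 by ring, occ_shift, ih]

lemma nxt_shift_mul (y q : ℕ) : nxt (y + 24 * q) = nxt y + 24 * q := by
  induction q with
  | zero => rfl
  | succ q ih => rw [show y + 24 * (q + 1) = (y + 24 * q) + 24 by ring, nxt_add, ih]; ring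

/-- exactly one zero in `(y, nxt y]` -/
lemma occ_zero_nxt (y : ℕ) : occ 0 y (nxt y) = 1 := by
  have h : ∀ r < 24, occ 0 r (nxt r) = 1 := by decide
  have hy : y = y % 24 + 24 * (y / 24) := (Nat.mod_add_div y 24).symm
  rw [hy, nxt_shift_mul, occ_shift_mul]
  exact h _ (Nat.mod_lt _ (by norm_num))

lemma occ_zero_iter (c y : ℕ) : occ 0 y (nxt^[c] y) = c := by
  induction c generalizing y with
  | zero => simp [occ_self]
  | succ c ih =>
    rw [Function.iterate_succ_apply]
    have h1 := le_iter c (nxt y)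
    have h2 := lt_nxt y
    rw [occ_add 0 h2.le (by omega), occ_zero_nxt, ih]
    omega

/-- number of symbols `r` read from phase `j` until `c` zeros have been read -/
def num (r : Fin 4) (j c : ℕ) : ℕ := occ r j (nxt^[c] j)

lemma iter21 (j : ℕ) (hj : j < 24) : nxt^[21] (nxt j) = nxt j + 24 := by
  have h : ∀ r < 24, nxt^[21] (nxt r) = nxt r + 24 := by decide
  exact h j hj

lemma occ24 (r : Fin 4) (hr : r ≠ 0) (y : ℕ) : occ r y (y + 24) = 1 := by
  have h : ∀ s < 24, occ r s (s + 24) = 1 := by
    revert r; decide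
  have hy : y = y % 24 + 24 * (y / 24) := (Nat.mod_add_div y 24).symm
  have e : y + 24 = (y % 24 + 24) + 24 * (y / 24) := by omega
  rw [e]
  conv_lhs => rw [hy]
  rw [show (y % 24 + 24 * (y / 24)) % 24 = y % 24 by omega,
    show (y % 24 + 24 * (y / 24)) / 24 = y / 24 by omega, occ_shift_mul]
  exact h _ (Nat.mod_lt _ (by norm_num))

lemma num_add (r : Fin 4) (hr : r ≠ 0) (j c : ℕ) (hj : j < 24) (hc : 1 ≤ c) :
    num r j (c + 21) = num r j c + 1 := by
  obtain ⟨c, rfl⟩ := Nat.exists_eq_add_of_le' hc
  unfold num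
  have e : nxt^[c + 1 + 21] j = nxt^[c + 1] j + 24 := by
    rw [show c + 1 + 21 = c + (21 + 1) by ring, Function.iterate_add_apply,
      Function.iterate_succ_apply, iter21 j hj, iter_add, ← Function.iterate_succ_apply]
  have := le_iter (c + 1) j
  rw [e, occ_add r (show j ≤ nxt^[c + 1] j by omega) (by omega), occ24 r hr]

set_option maxRecDepth 100000 in
lemma sum_small : ∀ r : Fin 4, r ≠ 0 → ∀ c ≤ 21, ∑ j : Fin 24, num r j c ≤ 4 * c := by
  decide +kernel

lemma sum_num (r : Fin 4) (hr : r ≠ 0) (c : ℕ) : ∑ j : Fin 24, num r j c ≤ 4 * c := by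
  induction c using Nat.strong_induction_on with
  | _ c ih =>
    by_cases h : c ≤ 21
    · exact sum_small r hr c h
    · have h1 := ih (c - 21) (by omega)
      have e : ∀ j : Fin 24, num r j c = num r j (c - 21) + 1 := by
        intro j
        have := num_add r hr j (c - 21) j.2 (by omega)
        rwa [show c - 21 + 21 = c by omega] at this
      simp only [e, Finset.sum_add_distrib, Finset.sum_const, Finset.card_univ, Fintype.card_fin]
      simp only [smul_eq_mul, mul_one]
      omega

/-- relation to `cnt` of the shifted word -/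
lemma cnt_shift (k : ℕ) (r : Fin 4) (x : ℕ) :
    cnt (d := 3) (fun y => word (y + k)) r x = occ r k (k + x) := by
  unfold cnt occ
  apply Finset.card_bij (fun y _ => y + k)
  · intro y hy
    simp only [Finset.mem_filter, Finset.mem_Ioc] at hy ⊢
    exact ⟨⟨by omega, by omega⟩, hy.2⟩
  · intro x _ y _ h
    simpa using h
  · intro y hy
    simp only [Finset.mem_filter, Finset.mem_Ioc] at hy
    refine ⟨y - k, ?_, by omega⟩
    simp only [Finset.mem_filter, Finset.mem_Ioc]
    refine ⟨⟨by omega, by omega⟩, ?_⟩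
    rw [show y - k + k = y by omega]; exact hy.2

/-- zero budgets -/
def bud (n : ℕ) (k : List (Fin 3) → Fin 24) : List (Fin 3) → ℕ
  | [] => n
  | i :: u => num i.succ (k u) (bud n k u)

/-- departure budgets -/
def dep (n : ℕ) (k : List (Fin 3) → Fin 24) (v : List (Fin 3)) : ℕ :=
  nxt^[bud n k v] (k v) - (k v : ℕ)

lemma dep_eq_zero (n : ℕ) (k : List (Fin 3) → Fin 24) (v : List (Fin 3)) (h : bud n k v = 0) :
    dep n k v = 0 := by
  unfold dep; rw [h]; simp

theorem recurrent_of_finite (k : List (Fin 3) → Fin 24)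
    (h : ∀ n, {v | bud n k v ≠ 0}.Finite) :
    Recurrent (fun v x => word (x + k v)) := by
  apply recurrent_of _ (fun n => dep n k) (fun n => bud n k)
  · intro n v
    have h1 := le_iter (bud n k v) (k v)
    rw [cnt_shift]
    unfold dep
    rw [show (k v : ℕ) + (nxt^[bud n k v] (k v) - (k v : ℕ)) = nxt^[bud n k v] (k v) by omega,
      occ_zero_iter]
  · intro n u i
    have h1 := le_iter (bud n k u) (k u)
    rw [cnt_shift]
    unfold dep
    rw [show (k u : ℕ) + (nxt^[bud n k u] (k u) - (k u : ℕ)) = nxt^[bud n k u] (k u) by omega]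
    rfl
  · intro n; exact le_rfl
  · intro n
    apply (h n).subset
    intro v hv hv'
    exact hv (dep_eq_zero n k v hv')

end Pool.Agent.X116.Rot
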