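import Pool.Agent.X116.RotB

/-!
The uniform shift model for the word `1 2 3 0^21`: almost sure recurrence.
-/

namespace Pool.Agent.X116.Rot

open MeasureTheory ProbabilityTheory Finset
open scoped ENNReal

/-- The uniform shift model: independent uniform shifts in `{0,…,L-1}`, one for each vertex of the
`d`-ary tree. -/
noncomputable def shiftModel (d L : ℕ) [NeZero L] : Measure (List (Fin d) → Fin L) :=
  Measure.infinitePi (fun _ : List (Fin d) => (PMF.uniformOfFintype (Fin L)).toMeasure)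

instance (d L : ℕ) [NeZero L] : IsProbabilityMeasure (shiftModel d L) := by
  unfold shiftModel; infer_instance

lemma unif_singleton (j : Fin 24) : (PMF.uniformOfFintype (Fin 24)).toMeasure {j} = (24 : ℝ≥0∞)⁻¹ := by
  rw [PMF.toMeasure_apply_singleton _ _ (measurableSet_singleton j), PMF.uniformOfFintype_apply]
  simp

lemma lint_fin (g : Fin 24 → ℝ≥0∞) :
    ∫⁻ j, g j ∂(PMF.uniformOfFintype (Fin 24)).toMeasure = (∑ j, g j) * (24 : ℝ≥0∞)⁻¹ := by
  rw [lintegral_fintype, Finset.sum_mul]
  exact Finset.sum_congr rfl (fun j _ => by rw [unif_singleton])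

lemma mean_bound {Ω : Type*} [MeasurableSpace Ω] (μ : Measure Ω) [IsProbabilityMeasure μ]
    (X : Ω → ℕ) (K : Ω → Fin 24) (hX : Measurable X) (hK : Measurable K)
    (hind : IndepFun X K μ) (hlaw : μ.map K = (PMF.uniformOfFintype (Fin 24)).toMeasure)
    (r : Fin 4) (hr : r ≠ 0) :
    ∫⁻ ω, (num r (K ω) (X ω) : ℝ≥0∞) ∂μ ≤ (6 : ℝ≥0∞)⁻¹ * ∫⁻ ω, (X ω : ℝ≥0∞) ∂μ := by
  have hg : Measurable (fun p : ℕ × Fin 24 => (num r p.2 p.1 : ℝ≥0∞)) := Measurable.of_discrete
  have h1 : ∫⁻ ω, (num r (K ω) (X ω) : ℝ≥0∞) ∂μ =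
      ∫⁻ p, (num r p.2 p.1 : ℝ≥0∞) ∂(μ.map (fun ω => (X ω, K ω))) := by
    rw [lintegral_map hg (hX.prodMk hK)]
  rw [h1, hind.map_prod_eq_prod_map_map hX.aemeasurable hK.aemeasurable, hlaw,
    lintegral_prod _ hg.aemeasurable]
  have h2 : ∫⁻ ω, (X ω : ℝ≥0∞) ∂μ = ∫⁻ x, (x : ℝ≥0∞) ∂(μ.map X) := by
    rw [lintegral_map (measurable_from_top) hX]
  rw [h2, ← lintegral_const_mul _ measurable_from_top]
  apply lintegral_mono
  intro x
  dsimp only
  rw [lint_fin]
  have h3 := sum_num r hr x
  have h4 : (∑ j : Fin 24, (num r j x : ℝ≥0∞)) ≤ 4 * (x : ℝ≥0∞) := by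
    have : ((∑ j : Fin 24, num r j x : ℕ) : ℝ≥0∞) ≤ ((4 * x : ℕ) : ℝ≥0∞) := by
      exact_mod_cast h3
    push_cast at this
    exact this
  calc (∑ j : Fin 24, (num r j x : ℝ≥0∞)) * (24 : ℝ≥0∞)⁻¹ ≤ 4 * (x : ℝ≥0∞) * (24 : ℝ≥0∞)⁻¹ := by
        gcongr
    _ = (4 * (24 : ℝ≥0∞)⁻¹) * x := by ring
    _ = (6 : ℝ≥0∞)⁻¹ * x := by
        congr 1
        rw [show (24 : ℝ≥0∞) = 4 * 6 by norm_num, ENNReal.mul_inv (by norm_num) (by norm_num),
          ← mul_assoc, ENNReal.mul_inv_cancel (by norm_num) (by norm_num), one_mul]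

/-- the budget at `v` depends only on the shifts at the proper ancestors -/
lemma bud_congr (n : ℕ) (k k' : List (Fin 3) → Fin 24) (v : List (Fin 3))
    (h : ∀ u, u <:+ v.tail → v ≠ [] → k u = k' u) : bud n k v = bud n k' v := by
  induction v with
  | nil => rfl
  | cons i u ih =>
    have h1 : k u = k' u := h u (List.suffix_refl _) (by simp)
    have h2 : bud n k u = bud n k' u := by
      apply ih
      intro w hw hu
      apply h w _ (by simp)
      exact hw.trans (List.tail_suffix u)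
    simp only [bud]
    rw [h1, h2]

/-- proper ancestors -/
def anc (v : List (Fin 3)) : Finset (List (Fin 3)) := v.tail.tails.toFinset

lemma indep_bud (n : ℕ) (u : List (Fin 3)) :
    IndepFun (fun k : List (Fin 3) → Fin 24 => bud n k u) (fun k => k u) (shiftModel 3 24) ∧
      Measurable (fun k : List (Fin 3) → Fin 24 => bud n k u) := by
  classical
  have hI : iIndepFun (fun (v : List (Fin 3)) (k : List (Fin 3) → Fin 24) => k v)
      (shiftModel 3 24) :=
    iIndepFun_infinitePi (P := fun _ : List (Fin 3) => (PMF.uniformOfFintype (Fin 24)).toMeasure)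
      (X := fun _ => id) (fun _ => measurable_id)
  rcases eq_or_ne u [] with rfl | hu
  · refine ⟨?_, measurable_const⟩
    exact (indepFun_const_left n _)
  have hdisj : Disjoint (anc u) {u} := by
    rw [Finset.disjoint_singleton_right]
    unfold anc
    rw [List.mem_toFinset, List.mem_tails]
    intro h
    have h1 := h.length_le
    rw [List.length_tail] at h1
    have : 0 < u.length := List.length_pos_iff.mpr hu
    omega
  have hfs := hI.indepFun_finset (anc u) {u} hdisj (fun v => measurable_pi_apply v)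
  -- extension map
  let ext : (anc u → Fin 24) → (List (Fin 3) → Fin 24) := fun x v =>
    if h : v ∈ anc u then x ⟨v, h⟩ else 0
  have hb : (fun k : List (Fin 3) → Fin 24 => bud n k u) =
      (fun x => bud n (ext x) u) ∘ (fun (k : List (Fin 3) → Fin 24) (i : anc u) => k i) := by
    funext k
    apply bud_congr
    intro w hw _
    have hm : w ∈ anc u := by
      unfold anc
      rw [List.mem_toFinset, List.mem_tails]
      exact hw
    simp only [ext, hm, dif_pos]
  have hk : (fun k : List (Fin 3) → Fin 24 => k u) =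
      (fun x : ((({u} : Finset (List (Fin 3))) : Type) → Fin 24) => x ⟨u, by simp⟩) ∘
        (fun (k : List (Fin 3) → Fin 24) (i : ({u} : Finset (List (Fin 3)))) => k i) := rfl
  constructor
  · rw [hb, hk]
    exact hfs.comp Measurable.of_discrete (measurable_pi_apply _)
  · rw [hb]
    exact (Measurable.of_discrete).comp
      (measurable_pi_lambda _ (fun i => measurable_pi_apply _))

lemma mean_bud (n : ℕ) (v : List (Fin 3)) :
    ∫⁻ k, (bud n k v : ℝ≥0∞) ∂(shiftModel 3 24) ≤ (6 : ℝ≥0∞)⁻¹ ^ v.length * n := by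
  induction v with
  | nil =>
    simp only [bud, List.length_nil, pow_zero, one_mul]
    rw [lintegral_const, measure_univ, mul_one]
  | cons i u ih =>
    obtain ⟨h1, h2⟩ := indep_bud n u
    have h3 := mean_bound (shiftModel 3 24) (fun k => bud n k u) (fun k => k u) h2
      (measurable_pi_apply u) h1 (by
        unfold shiftModel
        exact Measure.infinitePi_map_eval _ u) i.succ (Fin.succ_ne_zero i)
    simp only [bud, List.length_cons]
    calc _ ≤ _ := h3
      _ ≤ (6 : ℝ≥0∞)⁻¹ * ((6 : ℝ≥0∞)⁻¹ ^ u.length * n) := by gcongr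
      _ = _ := by rw [pow_succ]; ring

lemma meas_bud (n : ℕ) (v : List (Fin 3)) :
    shiftModel 3 24 {k | bud n k v ≠ 0} ≤ (6 : ℝ≥0∞)⁻¹ ^ v.length * n := by
  refine le_trans ?_ (mean_bud n v)
  obtain ⟨-, h2⟩ := indep_bud n v
  have hm : MeasurableSet {k : List (Fin 3) → Fin 24 | bud n k v ≠ 0} :=
    h2 (measurableSet_singleton 0).compl
  rw [← lintegral_indicator_one hm]
  apply lintegral_mono
  intro k
  by_cases hk : bud n k v = 0
  · rw [Set.indicator_of_notMem (by simpa using hk)]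
    exact zero_le
  · rw [Set.indicator_of_mem (by simpa using hk)]
    have : 1 ≤ bud n k v := Nat.one_le_iff_ne_zero.mpr hk
    simp only [Pi.one_apply]
    exact_mod_cast this

lemma tsum_lists : ∑' v : List (Fin 3), (6 : ℝ≥0∞)⁻¹ ^ v.length = 2 := by
  rw [← (Equiv.sigmaFiberEquiv (List.length : List (Fin 3) → ℕ)).tsum_eq, ENNReal.tsum_sigma']
  have h : ∀ l : ℕ, ∑' (b : {v : List (Fin 3) // v.length = l}),
      (6 : ℝ≥0∞)⁻¹ ^ ((Equiv.sigmaFiberEquiv (List.length : List (Fin 3) → ℕ)) ⟨l, b⟩).length =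
        (2 : ℝ≥0∞)⁻¹ ^ l := by
    intro l
    have h1 : ∀ b : {v : List (Fin 3) // v.length = l},
        (6 : ℝ≥0∞)⁻¹ ^ ((Equiv.sigmaFiberEquiv (List.length : List (Fin 3) → ℕ)) ⟨l, b⟩).length =
          (6 : ℝ≥0∞)⁻¹ ^ l := by
      intro b
      have : ((Equiv.sigmaFiberEquiv (List.length : List (Fin 3) → ℕ)) ⟨l, b⟩).length = l := b.2
      rw [this]
    simp only [h1]
    rw [ENNReal.tsum_const]
    have hc : ENat.card {v : List (Fin 3) // v.length = l} = ((3 ^ l : ℕ) : ℕ∞) := by
      have : Fintype.card (List.Vector (Fin 3) l) = 3 ^ l := by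
        rw [card_vector, Fintype.card_fin]
      rw [← this]
      exact ENat.card_eq_coe_fintype_card (α := List.Vector (Fin 3) l)
    rw [hc]
    push_cast
    rw [← mul_pow]
    congr 1
    rw [show (6 : ℝ≥0∞) = 3 * 2 by norm_num, ENNReal.mul_inv (by norm_num) (by norm_num),
          ← mul_assoc, ENNReal.mul_inv_cancel (by norm_num) (by norm_num), one_mul]
  simp only [h]
  rw [ENNReal.tsum_geometric, ENNReal.one_sub_inv_two, inv_inv]

theorem ae_recurrent : ∀ᵐ k ∂(shiftModel 3 24), Recurrent (fun v x => word (x + k v)) := by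
  have h : ∀ n : ℕ, ∀ᵐ k ∂(shiftModel 3 24), {v | bud n k v ≠ 0}.Finite := by
    intro n
    have := ae_finite_setOfPred_mem (μ := shiftModel 3 24)
      (s := fun v : List (Fin 3) => {k | bud n k v ≠ 0}) (by
        apply ne_top_of_le_ne_top (b := 2 * (n : ℝ≥0∞)) (by finiteness)
        rw [← tsum_lists, ← ENNReal.tsum_mul_right]
        exact ENNReal.tsum_le_tsum (fun v => meas_bud n v))
    exact this
  rw [← ae_all_iff] at h
  filter_upwards [h] with k hk
  exact recurrent_of_finite k hk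

end Pool.Agent.X116.Rot
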