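import Pool.Agent.X116.ScvA

/-!
The negative part: on the paraboloid `G = {p : ‖p - ⟨e,p⟩ e‖² < ⟨e,p⟩}` and for a concave modulus
with `ω(t)/t → 0` and `t ω(t) ≤ 2 ω(t²)`, every `ω`-semiconvex and `ω`-semiconcave function is
`C^{1,ω}`.
-/

namespace Pool.Agent.X116.Scv

open Set Filter Topology

variable {E : Type*} [NormedAddCommGroup E] [InnerProductSpace ℝ E]

/-- gradients at two points which see a common ball -/
lemma ball_grad {ω : ℝ → ℝ} {G : Set E} {f : E → ℝ} (hω : IsModulus ω) {x y z : E}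
    {Lx Ly : E →L[ℝ] ℝ}
    (hLx : ∀ q ∈ G, |f q - f x - Lx (q - x)| ≤ ‖q - x‖ * ω ‖q - x‖)
    (hLy : ∀ q ∈ G, |f q - f y - Ly (q - y)| ≤ ‖q - y‖ * ω ‖q - y‖)
    {r D : ℝ} (hball : ∀ q, ‖q - z‖ ≤ r → q ∈ G) (hr : 0 < r) (hrD : r ≤ D)
    (hx : ‖x - z‖ ≤ D) (hy : ‖y - z‖ ≤ D) :
    ‖Lx - Ly‖ ≤ 6 * (D / r) * ω (2 * D) := by
  have hD : 0 < D := lt_of_lt_of_le hr hrD
  have hw : 0 ≤ ω (2 * D) := hω.2.1 _ (by positivity)
  have hz : z ∈ G := hball z (by simpa using hr.le)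
  -- one sided estimate
  have one : ∀ (x : E) (L : E →L[ℝ] ℝ), ‖x - z‖ ≤ D →
      (∀ q ∈ G, |f q - f x - L (q - x)| ≤ ‖q - x‖ * ω ‖q - x‖) →
      ∀ h : E, ‖h‖ = r → |f (z + h) - f z - L h| ≤ 3 * D * ω (2 * D) := by
    intro x L hx hL h hh
    have hq : z + h ∈ G := hball _ (by rw [add_sub_cancel_left]; exact hh.le)
    have a1 := hL _ hq
    have a2 := hL _ hz
    have n1 : ‖z + h - x‖ ≤ 2 * D := by
      have : z + h - x = h - (x - z) := by abel
      rw [this]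
      calc ‖h - (x - z)‖ ≤ ‖h‖ + ‖x - z‖ := norm_sub_le _ _
        _ ≤ 2 * D := by linarith
    have n2 : ‖z - x‖ ≤ D := by rw [norm_sub_rev]; exact hx
    have b1 : ‖z + h - x‖ * ω ‖z + h - x‖ ≤ 2 * D * ω (2 * D) :=
      mul_le_mul n1 (hω.1 _ _ (norm_nonneg _) n1) (hω.2.1 _ (norm_nonneg _)) (by positivity)
    have b2 : ‖z - x‖ * ω ‖z - x‖ ≤ D * ω (2 * D) :=
      mul_le_mul n2 (hω.1 _ _ (norm_nonneg _) (by linarith)) (hω.2.1 _ (norm_nonneg _)) hD.le
    have e : f (z + h) - f z - L h =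
        (f (z + h) - f x - L (z + h - x)) - (f z - f x - L (z - x)) := by
      have : L (z + h - x) - L (z - x) = L h := by
        rw [← map_sub]; congr 1; abel
      linarith
    rw [e]
    calc _ ≤ |f (z + h) - f x - L (z + h - x)| + |f z - f x - L (z - x)| := abs_sub _ _
      _ ≤ 3 * D * ω (2 * D) := by linarith
  apply ContinuousLinearMap.opNorm_le_bound _ (by positivity)
  intro v
  rcases eq_or_ne v 0 with rfl | hv
  · simp
  have hvn : 0 < ‖v‖ := norm_pos_iff.mpr hv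
  have hh : ‖(r / ‖v‖) • v‖ = r := by
    rw [norm_smul, Real.norm_of_nonneg (by positivity)]
    field_simp
  have c1 := one x Lx hx hLx _ hh
  have c2 := one y Ly hy hLy _ hh
  have c3 : |(Lx - Ly) ((r / ‖v‖) • v)| ≤ 6 * D * ω (2 * D) := by
    have e : (Lx - Ly) ((r / ‖v‖) • v) =
        (f (z + (r / ‖v‖) • v) - f z - Ly ((r / ‖v‖) • v)) -
        (f (z + (r / ‖v‖) • v) - f z - Lx ((r / ‖v‖) • v)) := by
      rw [ContinuousLinearMap.sub_apply]; ring
    rw [e]
    calc _ ≤ _ := abs_sub _ _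
      _ ≤ 6 * D * ω (2 * D) := by linarith
  rw [map_smul, smul_eq_mul, abs_mul, abs_of_pos (by positivity)] at c3
  rw [Real.norm_eq_abs]
  have : |(Lx - Ly) v| = (‖v‖ / r) * (r / ‖v‖ * |(Lx - Ly) v|) := by field_simp
  rw [this]
  calc (‖v‖ / r) * (r / ‖v‖ * |(Lx - Ly) v|) ≤ (‖v‖ / r) * (6 * D * ω (2 * D)) := by
        gcongr
    _ = 6 * (D / r) * ω (2 * D) * ‖v‖ := by field_simp

/-- the open paraboloid with axis `e` -/
def paraboloid (e : E) : Set E := {p | ‖p - (inner ℝ e p : ℝ) • e‖ ^ 2 < inner ℝ e p}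

section parab

variable {e : E} (he : ‖e‖ = 1)
include he

lemma norm_proj_le (p : E) : ‖p - (inner ℝ e p : ℝ) • e‖ ≤ ‖p‖ := by
  have h : ‖p - (inner ℝ e p : ℝ) • e‖ ^ 2 = ‖p‖ ^ 2 - (inner ℝ e p) ^ 2 := by
    rw [norm_sub_sq_real, norm_smul, he, mul_one, real_inner_smul_right, real_inner_comm e p,
      Real.norm_eq_abs, sq_abs]
    ring
  have : ‖p - (inner ℝ e p : ℝ) • e‖ ^ 2 ≤ ‖p‖ ^ 2 := by rw [h]; nlinarith [sq_nonneg (inner ℝ e p : ℝ)]
  exact le_of_sq_le_sq this (norm_nonneg _)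

lemma abs_inner_le (p : E) : |(inner ℝ e p : ℝ)| ≤ ‖p‖ := by
  have := abs_real_inner_le_norm e p
  rwa [he, one_mul] at this

omit he in
lemma parab_open : IsOpen (paraboloid e) := by
  unfold paraboloid
  exact isOpen_lt (by fun_prop) (by fun_prop)

omit he in
lemma parab_convex : Convex ℝ (paraboloid e) := by
  intro p hp q hq a b ha hb hab
  unfold paraboloid at *
  simp only [mem_setOf_eq] at *
  have h1 : (inner ℝ e (a • p + b • q) : ℝ) = a * inner ℝ e p + b * inner ℝ e q := by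
    rw [inner_add_right, real_inner_smul_right, real_inner_smul_right]
  have h2 : a • p + b • q - (inner ℝ e (a • p + b • q) : ℝ) • e =
      a • (p - (inner ℝ e p : ℝ) • e) + b • (q - (inner ℝ e q : ℝ) • e) := by
    rw [h1]; module
  rw [h2, h1]
  set u := p - (inner ℝ e p : ℝ) • e
  set v := q - (inner ℝ e q : ℝ) • e
  have h3 : ‖a • u + b • v‖ ≤ a * ‖u‖ + b * ‖v‖ := by
    calc _ ≤ ‖a • u‖ + ‖b • v‖ := norm_add_le _ _
      _ = _ := by rw [norm_smul, norm_smul, Real.norm_of_nonneg ha, Real.norm_of_nonneg hb]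
  have h4 : ‖a • u + b • v‖ ^ 2 ≤ (a * ‖u‖ + b * ‖v‖) ^ 2 := by gcongr
  have h5 : (a * ‖u‖ + b * ‖v‖) ^ 2 ≤ a * ‖u‖ ^ 2 + b * ‖v‖ ^ 2 := by
    have : a * ‖u‖ ^ 2 + b * ‖v‖ ^ 2 - (a * ‖u‖ + b * ‖v‖) ^ 2 = a * b * (‖u‖ - ‖v‖) ^ 2 := by
      have hb' : b = 1 - a := by linarith
      rw [hb']; ring
    have : 0 ≤ a * b * (‖u‖ - ‖v‖) ^ 2 := by positivity
    linarith
  rcases ha.eq_or_lt with rfl | ha'
  · have hb1 : b = 1 := by linarith
    subst hb1
    simp only [zero_mul, one_mul, zero_add] at *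
    linarith
  · nlinarith [mul_lt_mul_of_pos_left hp ha', mul_le_mul_of_nonneg_left hq.le hb]

lemma parab_ball {s : ℝ} (hs : 1 ≤ s) (q : E) (hq : ‖q - (s ^ 2) • e‖ ≤ s / 2) :
    q ∈ paraboloid e := by
  set h := q - (s ^ 2) • e with hh
  have hqe : q = (s ^ 2) • e + h := by rw [hh]; abel
  have hee : (inner ℝ e e : ℝ) = 1 := by rw [real_inner_self_eq_norm_sq, he]; norm_num
  have h1 : (inner ℝ e q : ℝ) = s ^ 2 + inner ℝ e h := by
    rw [hqe, inner_add_right, real_inner_smul_right, hee, mul_one]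
  have h2 : q - (inner ℝ e q : ℝ) • e = h - (inner ℝ e h : ℝ) • e := by
    rw [h1, hqe]; module
  unfold paraboloid
  simp only [mem_setOf_eq]
  rw [h2, h1]
  have h3 := norm_proj_le he h
  have h4 := abs_inner_le he h
  have h5 := neg_abs_le (inner ℝ e h : ℝ)
  have h6 : ‖h - (inner ℝ e h : ℝ) • e‖ ^ 2 ≤ (s / 2) ^ 2 := by
    have := h3.trans hq
    gcongr
  nlinarith

/-- integer scale of a point -/
lemma exists_scale {p : E} (hp : p ∈ paraboloid e) : ∃ m : ℕ, (m : ℝ) ^ 2 ≤ inner ℝ e p ∧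
    (inner ℝ e p : ℝ) < ((m : ℝ) + 1) ^ 2 ∧ ‖p - (((m : ℝ) + 1) ^ 2) • e‖ ≤ 3 * ((m : ℝ) + 1) := by
  unfold paraboloid at hp
  simp only [mem_setOf_eq] at hp
  have hy : 0 < (inner ℝ e p : ℝ) := lt_of_le_of_lt (by positivity) hp
  set y := (inner ℝ e p : ℝ)
  refine ⟨⌊Real.sqrt y⌋₊, ?_, ?_, ?_⟩
  · have h1 := Nat.floor_le (Real.sqrt_nonneg y)
    calc ((⌊Real.sqrt y⌋₊ : ℕ) : ℝ) ^ 2 ≤ (Real.sqrt y) ^ 2 := by gcongr
      _ = y := Real.sq_sqrt hy.le
  · have h1 := Nat.lt_floor_add_one (Real.sqrt y)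
    calc y = (Real.sqrt y) ^ 2 := (Real.sq_sqrt hy.le).symm
      _ < _ := by gcongr
  · set m : ℝ := ((⌊Real.sqrt y⌋₊ : ℕ) : ℝ)
    have hm0 : 0 ≤ m := by positivity
    have h1 : m ≤ Real.sqrt y := Nat.floor_le (Real.sqrt_nonneg y)
    have h2 : Real.sqrt y < m + 1 := Nat.lt_floor_add_one (Real.sqrt y)
    have h3 : m ^ 2 ≤ y := by
      calc m ^ 2 ≤ (Real.sqrt y) ^ 2 := by gcongr
        _ = y := Real.sq_sqrt hy.le
    have h4 : y < (m + 1) ^ 2 := by
      calc y = (Real.sqrt y) ^ 2 := (Real.sq_sqrt hy.le).symm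
        _ < _ := by gcongr
    have h5 : ‖p - y • e‖ ≤ m + 1 := by
      have : ‖p - y • e‖ ^ 2 ≤ (m + 1) ^ 2 := by linarith
      exact le_of_sq_le_sq this (by positivity)
    have h6 : p - ((m + 1) ^ 2) • e = (p - y • e) - ((m + 1) ^ 2 - y) • e := by module
    rw [h6]
    calc _ ≤ ‖p - y • e‖ + ‖((m + 1) ^ 2 - y) • e‖ := norm_sub_le _ _
      _ = ‖p - y • e‖ + ((m + 1) ^ 2 - y) := by
        rw [norm_smul, he, mul_one, Real.norm_of_nonneg (by linarith)]
      _ ≤ 3 * (m + 1) := by nlinarith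

end parab

section main

variable [FiniteDimensional ℝ E] {e : E} (he : ‖e‖ = 1) {ω : ℝ → ℝ} {f : E → ℝ}
include he

theorem parab_C1 (hω : IsModulus ω)
    (hc : ∀ c t : ℝ, 1 ≤ c → 0 ≤ t → ω (c * t) ≤ c * ω t)
    (hs : ∀ t : ℝ, 1 ≤ t → t * ω t ≤ 2 * ω (t ^ 2))
    (h1 : Semiconvex ω (paraboloid e) f) (h2 : Semiconcave ω (paraboloid e) f) :
    IsC1 ω (paraboloid e) f := by
  have hG : IsOpen (paraboloid e) := parab_open
  have hF : ∀ x ∈ paraboloid e, DifferentiableAt ℝ f x ∧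
      ∀ y ∈ paraboloid e, |f y - f x - fderiv ℝ f x (y - x)| ≤ ‖y - x‖ * ω ‖y - x‖ := by
    intro x hx
    obtain ⟨L, hL⟩ := exists_grad hω hG h1 h2 hx
    have hd := hasFDeriv_of hω hG hx L hL
    refine ⟨hd.differentiableAt, ?_⟩
    rw [hd.fderiv]; exact hL
  have hnn : ∀ t, 0 ≤ t → 0 ≤ ω t := hω.2.1
  -- centres
  have hzG : ∀ m : ℕ, (((m : ℝ) + 1) ^ 2) • e ∈ paraboloid e := by
    intro m
    apply parab_ball he (s := (m : ℝ) + 1) (by have : (0 : ℝ) ≤ m := by positivity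
                                               linarith)
    simp only [sub_self, norm_zero]
    positivity
  -- comparison with the centre of the scale
  have hcen : ∀ (m : ℕ) (p : E), p ∈ paraboloid e → ‖p - (((m : ℝ) + 1) ^ 2) • e‖ ≤ 3 * ((m : ℝ) + 1) →
      ‖fderiv ℝ f p - fderiv ℝ f ((((m : ℝ) + 1) ^ 2) • e)‖ ≤ 216 * ω ((m : ℝ) + 1) := by
    intro m p hp hpm
    have hm : (0 : ℝ) ≤ m := by positivity
    have h := ball_grad hω (hF p hp).2 (hF _ (hzG m)).2 (z := (((m : ℝ) + 1) ^ 2) • e)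
      (r := ((m : ℝ) + 1) / 2) (D := 3 * ((m : ℝ) + 1))
      (fun q hq => parab_ball he (by linarith) q hq) (by positivity) (by linarith) hpm
      (by rw [sub_self, norm_zero]; positivity)
    have e1 : 6 * (3 * ((m : ℝ) + 1) / (((m : ℝ) + 1) / 2)) = 36 := by
      field_simp; norm_num
    rw [e1] at h
    have h3 := hc 6 ((m : ℝ) + 1) (by norm_num) (by positivity)
    have e2 : 2 * (3 * ((m : ℝ) + 1)) = 6 * ((m : ℝ) + 1) := by ring
    rw [e2] at h
    linarith
  -- chain along the axis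
  have hchain : ∀ l m : ℕ, l ≤ m →
      ‖fderiv ℝ f ((((m : ℝ) + 1) ^ 2) • e) - fderiv ℝ f ((((l : ℝ) + 1) ^ 2) • e)‖ ≤
        216 * (((m : ℝ) - l) * ω m) := by
    intro l m hlm
    induction m, hlm using Nat.le_induction with
    | base => simp
    | succ m hlm ih =>
      have hm : (0 : ℝ) ≤ m := by positivity
      have hlm' : (l : ℝ) ≤ m := by exact_mod_cast hlm
      have hstep := hcen m _ (hzG (m + 1)) (by
        rw [← sub_smul, norm_smul, he, mul_one, Real.norm_eq_abs]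
        push_cast
        rw [abs_of_nonneg (by nlinarith)]
        nlinarith)
      have hmono : ω m ≤ ω ((m : ℝ) + 1) := hω.1 _ _ hm (by linarith)
      have hn := norm_sub_le_norm_sub_add_norm_sub
        (fderiv ℝ f (((((m + 1 : ℕ) : ℝ) + 1) ^ 2) • e))
        (fderiv ℝ f ((((m : ℝ) + 1) ^ 2) • e))
        (fderiv ℝ f ((((l : ℝ) + 1) ^ 2) • e))
      have h5 : ((m : ℝ) - l) * ω m ≤ ((m : ℝ) - l) * ω ((m : ℝ) + 1) :=
        mul_le_mul_of_nonneg_left hmono (by linarith)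
      push_cast at hn hstep ⊢
      nlinarith
  refine ⟨1296, by norm_num, fun x hx => (hF x hx).1, ?_⟩
  -- near case
  have near : ∀ (m : ℕ) (p q : E), p ∈ paraboloid e → q ∈ paraboloid e →
      ‖p - (((m : ℝ) + 1) ^ 2) • e‖ ≤ 3 * ((m : ℝ) + 1) → ‖p - q‖ ≤ (m : ℝ) + 1 →
      ‖fderiv ℝ f p - fderiv ℝ f q‖ ≤ 1296 * ω ‖p - q‖ := by
    intro m p q hp hq hpm hpq
    rcases (norm_nonneg (p - q)).eq_or_lt with hd | hd
    · have : p = q := by
        rw [← sub_eq_zero, ← norm_eq_zero]; exact hd.symm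
      subst this
      simp only [sub_self, norm_zero]
      have := hnn 0 le_rfl
      positivity
    set d := ‖p - q‖ with hdd
    set s : ℝ := (m : ℝ) + 1 with hsdef
    have hs1 : 1 ≤ s := by
      have : (0 : ℝ) ≤ m := by positivity
      linarith
    have hs0 : 0 < s := by linarith
    set τ := d / s with hτ
    have hτ0 : 0 < τ := by positivity
    have hτ1 : τ ≤ 1 := (div_le_one hs0).mpr hpq
    have hz1 : ‖p - (p + τ • ((s ^ 2) • e - p))‖ ≤ 3 * d := by
      rw [sub_add_cancel_left, norm_neg, norm_smul, Real.norm_of_nonneg hτ0.le, norm_sub_rev]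
      calc τ * ‖p - s ^ 2 • e‖ ≤ τ * (3 * s) := by gcongr
        _ = 3 * d := by rw [hτ]; field_simp
    have hz2 : ‖q - (p + τ • ((s ^ 2) • e - p))‖ ≤ 4 * d := by
      have e1 : q - (p + τ • ((s ^ 2) • e - p)) = (q - p) + (p - (p + τ • ((s ^ 2) • e - p))) := by
        abel
      rw [e1]
      calc _ ≤ ‖q - p‖ + ‖p - (p + τ • ((s ^ 2) • e - p))‖ := norm_add_le _ _
        _ ≤ d + 3 * d := by rw [norm_sub_rev q p]; linarith
        _ = 4 * d := by ring
    have hball : ∀ w, ‖w - (p + τ • ((s ^ 2) • e - p))‖ ≤ d / 2 → w ∈ paraboloid e := by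
      intro w hw
      set z' := p + τ • ((s ^ 2) • e - p) with hz'
      have hin : (s ^ 2) • e + τ⁻¹ • (w - z') ∈ paraboloid e := by
        apply parab_ball he hs1
        rw [add_sub_cancel_left, norm_smul, norm_inv, Real.norm_of_nonneg hτ0.le]
        calc τ⁻¹ * ‖w - z'‖ ≤ τ⁻¹ * (d / 2) := by gcongr
          _ = s / 2 := by rw [hτ]; field_simp
      have hw' : w = (1 - τ) • p + τ • ((s ^ 2) • e + τ⁻¹ • (w - z')) := by
        rw [smul_add, smul_smul τ τ⁻¹, mul_inv_cancel₀ hτ0.ne', one_smul, hz']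
        module
      rw [hw']
      exact parab_convex hp hin (by linarith) hτ0.le (by ring)
    have h := ball_grad hω (hF p hp).2 (hF q hq).2 hball (by positivity) (D := 4 * d)
      (by linarith) (by linarith) hz2
    have e1 : 6 * (4 * d / (d / 2)) = 48 := by field_simp; norm_num
    have e2 : 2 * (4 * d) = 8 * d := by ring
    rw [e1, e2] at h
    have h3 := hc 8 d (by norm_num) hd.le
    have h4 := hnn d hd.le
    linarith
  -- far case
  have far : ∀ (l m : ℕ) (p q : E), p ∈ paraboloid e → q ∈ paraboloid e → l ≤ m →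
      (m : ℝ) ^ 2 ≤ inner ℝ e p → (inner ℝ e q : ℝ) < ((l : ℝ) + 1) ^ 2 →
      ‖p - (((m : ℝ) + 1) ^ 2) • e‖ ≤ 3 * ((m : ℝ) + 1) →
      ‖q - (((l : ℝ) + 1) ^ 2) • e‖ ≤ 3 * ((l : ℝ) + 1) →
      (m : ℝ) + 1 < ‖p - q‖ →
      ‖fderiv ℝ f p - fderiv ℝ f q‖ ≤ 1296 * ω ‖p - q‖ := by
    intro l m p q hp hq hlm hyp hyq hpm hql hfar
    set d := ‖p - q‖ with hdd
    have hm0 : (0 : ℝ) ≤ m := by positivity
    have hl0 : (0 : ℝ) ≤ l := by positivity
    have hlm' : (l : ℝ) ≤ m := by exact_mod_cast hlm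
    have a1 := hcen m p hp hpm
    have a2 := hcen l q hq hql
    have a3 := hchain l m hlm
    have b1 : ω ((m : ℝ) + 1) ≤ ω d := hω.1 _ _ (by positivity) hfar.le
    have b2 : ω ((l : ℝ) + 1) ≤ ω d := hω.1 _ _ (by positivity) (by linarith)
    have hd0 : 0 ≤ ω d := hnn d (norm_nonneg _)
    have key : ((m : ℝ) - l) * ω m ≤ 4 * ω d := by
      rcases Nat.lt_or_ge m (l + 2) with hcase | hcase
      · have h01 : (m : ℝ) - l ≤ 1 := by
          have : (m : ℝ) < l + 2 := by exact_mod_cast hcase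
          have h' : m ≤ l + 1 := by omega
          have : (m : ℝ) ≤ l + 1 := by exact_mod_cast h'
          linarith
        have hwm : ω m ≤ ω d := hω.1 _ _ hm0 (by linarith)
        have hwm0 : 0 ≤ ω m := hnn _ hm0
        nlinarith
      · have h2 : (l : ℝ) + 2 ≤ m := by exact_mod_cast hcase
        have hd1 : ((m : ℝ) - l) * m / 2 ≤ d := by
          have h3 : (inner ℝ e p : ℝ) - inner ℝ e q ≤ d := by
            have := abs_inner_le he (p - q)
            rw [inner_sub_right] at this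
            exact (le_abs_self _).trans this
          nlinarith
        have ha : 0 < (m : ℝ) := by linarith
        have hml : 0 < (m : ℝ) - l := by linarith
        have c1 : ω (((m : ℝ) - l) * m / 2) ≤ ω d := hω.1 _ _ (by positivity) hd1
        have c2 := hc 2 (((m : ℝ) - l) * m / 2) (by norm_num) (by positivity)
        have e2 : 2 * (((m : ℝ) - l) * m / 2) = ((m : ℝ) - l) * m := by ring
        rw [e2] at c2
        have c3 := hc ((m : ℝ) / (m - l)) (((m : ℝ) - l) * m)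
          (by rw [le_div_iff₀ hml]; linarith) (by positivity)
        have e3 : (m : ℝ) / (m - l) * (((m : ℝ) - l) * m) = (m : ℝ) ^ 2 := by
          field_simp
        rw [e3] at c3
        have c4 := hs m (by linarith)
        -- (m-l) ω m = (m-l)/m * (m ω m) ≤ (m-l)/m * 2 ω(m²) ≤ 2 ω((m-l) m)
        have c5 : ((m : ℝ) - l) * ω m ≤ 2 * ω (((m : ℝ) - l) * m) := by
          have e5 : ((m : ℝ) - l) * ω m = ((m : ℝ) - l) / m * (m * ω m) := by field_simp
          rw [e5]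
          calc ((m : ℝ) - l) / m * (m * ω m) ≤ ((m : ℝ) - l) / m * (2 * ((m : ℝ) / (m - l) *
                ω (((m : ℝ) - l) * m))) := by
                apply mul_le_mul_of_nonneg_left _ (by positivity)
                linarith
            _ = 2 * ω (((m : ℝ) - l) * m) := by field_simp
        linarith
    have n1 := norm_sub_le_norm_sub_add_norm_sub (fderiv ℝ f p)
      (fderiv ℝ f ((((m : ℝ) + 1) ^ 2) • e)) (fderiv ℝ f q)
    have n2 := norm_sub_le_norm_sub_add_norm_sub (fderiv ℝ f ((((m : ℝ) + 1) ^ 2) • e))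
      (fderiv ℝ f ((((l : ℝ) + 1) ^ 2) • e)) (fderiv ℝ f q)
    rw [norm_sub_rev] at a2
    linarith
  intro p hp q hq
  obtain ⟨m, hm1, hm2, hm3⟩ := exists_scale he hp
  obtain ⟨l, hl1, hl2, hl3⟩ := exists_scale he hq
  rcases le_or_gt ‖p - q‖ ((m : ℝ) + 1) with h | h
  · exact near m p q hp hq hm3 h
  rcases le_or_gt ‖q - p‖ ((l : ℝ) + 1) with h' | h'
  · rw [norm_sub_rev p q, norm_sub_rev (fderiv ℝ f p)]
    exact near l q p hq hp hl3 h'
  rcases le_total l m with hlm | hlm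
  · exact far l m p q hp hq hlm hm1 hl2 hm3 hl3 h
  · rw [norm_sub_rev p q, norm_sub_rev (fderiv ℝ f p)]
    exact far m l q p hq hp hlm hl1 hm2 hl3 hm3 h'

end main

/-- the paraboloid is cone-free in dimension at least two -/
theorem parab_coneFree {e : E} (he : ‖e‖ = 1) (hdim : ∃ v : E, v ≠ 0 ∧ (inner ℝ e v : ℝ) = 0) :
    ConeFree (paraboloid e) := by
  rintro ⟨C, a, hcone, -, hint, hsub⟩
  obtain ⟨v, hv, hev⟩ := hdim
  -- an element of C with nonzero transversal part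
  obtain ⟨c, hc⟩ := hint
  have hex : ∃ u ∈ C, u - (inner ℝ e u : ℝ) • e ≠ 0 := by
    by_cases h : c - (inner ℝ e c : ℝ) • e ≠ 0
    · exact ⟨c, interior_subset hc, h⟩
    · push Not at h
      have hcont : ContinuousAt (fun t : ℝ => c + t • v) 0 := by fun_prop
      have h0 : c + (0 : ℝ) • v ∈ interior C := by simpa using hc
      have hev' := (hcont.eventually (isOpen_interior.mem_nhds h0)).filter_mono
        (nhdsWithin_le_nhds (s := Ioi (0 : ℝ)))
      obtain ⟨t, ht, ht0⟩ := (hev'.and self_mem_nhdsWithin).exists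
      refine ⟨c + t • v, interior_subset ht, ?_⟩
      have ht0' : (0 : ℝ) < t := ht0
      have e1 : c + t • v - (inner ℝ e (c + t • v) : ℝ) • e = t • v := by
        rw [inner_add_right, real_inner_smul_right, hev, mul_zero, add_zero]
        have : c + t • v - (inner ℝ e c : ℝ) • e = (c - (inner ℝ e c : ℝ) • e) + t • v := by abel
        rw [this, h, zero_add]
      rw [e1]
      exact smul_ne_zero ht0'.ne' hv
  obtain ⟨u, hu, hune⟩ := hex
  -- the ray a + t u leaves the paraboloid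
  have hray : ∀ t : ℝ, 0 < t → a + t • u ∈ paraboloid e := fun t ht =>
    hsub ⟨t • u, hcone u hu t ht, rfl⟩
  set A := a - (inner ℝ e a : ℝ) • e with hA
  set U := u - (inner ℝ e u : ℝ) • e with hU
  have hineq : ∀ t : ℝ, 0 < t → ‖A + t • U‖ ^ 2 < inner ℝ e a + t * inner ℝ e u := by
    intro t ht
    have h1 := hray t ht
    unfold paraboloid at h1
    simp only [mem_setOf_eq] at h1
    have e1 : (inner ℝ e (a + t • u) : ℝ) = inner ℝ e a + t * inner ℝ e u := by
      rw [inner_add_right, real_inner_smul_right]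
    have e2 : a + t • u - (inner ℝ e (a + t • u) : ℝ) • e = A + t • U := by
      rw [e1, hA, hU]; module
    rwa [e2, e1] at h1
  have hUn : 0 < ‖U‖ := norm_pos_iff.mpr hune
  -- choose t large
  have hlow : ∀ t : ℝ, 0 < t → t * ‖U‖ - ‖A‖ ≤ ‖A + t • U‖ := by
    intro t ht
    have h1 : ‖t • U‖ = t * ‖U‖ := by rw [norm_smul, Real.norm_of_nonneg ht.le]
    have h2 := norm_sub_norm_le (t • U) (-A)
    rw [norm_neg, h1, sub_neg_eq_add, add_comm (t • U) A] at h2
    exact h2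
  have hlim : Tendsto (fun t : ℝ => (t * ‖U‖ - ‖A‖) ^ 2 - (inner ℝ e a + t * inner ℝ e u : ℝ))
      atTop atTop := by
    have e1 : (fun t : ℝ => (t * ‖U‖ - ‖A‖) ^ 2 - (inner ℝ e a + t * inner ℝ e u : ℝ)) =
        fun t : ℝ => t * (t * ‖U‖ ^ 2 - (2 * ‖U‖ * ‖A‖ + inner ℝ e u)) +
          (‖A‖ ^ 2 - inner ℝ e a) := by
      funext t; ring
    rw [e1]
    apply tendsto_atTop_add_const_right
    apply tendsto_id.atTop_mul_atTop₀
    apply tendsto_atTop_add_const_right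
    exact tendsto_id.atTop_mul_const (by positivity)
  have hlim2 : Tendsto (fun t : ℝ => t * ‖U‖ - ‖A‖) atTop atTop := by
    apply tendsto_atTop_add_const_right
    exact tendsto_id.atTop_mul_const (by positivity)
  obtain ⟨t, ht1, ht2, ht3⟩ := ((hlim.eventually_ge_atTop 0).and
    ((hlim2.eventually_ge_atTop 0).and (eventually_gt_atTop 0))).exists
  have h1 := hineq t ht3
  have h2 := hlow t ht3
  have h3 : (t * ‖U‖ - ‖A‖) ^ 2 ≤ ‖A + t • U‖ ^ 2 := by gcongr
  linarith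

end Pool.Agent.X116.Scv
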