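import Pool.Agent.X116.ScvB

/-!
The concave modulus `ω(t) = t / (1 + log(1+t))`.
-/

namespace Pool.Agent.X116.Scv

open Set Filter Topology

/-- `ω(t) = t / (1 + log (1+t))` -/
noncomputable def lw (t : ℝ) : ℝ := t / (1 + Real.log (1 + t))

lemma psi_pos {t : ℝ} (ht : 0 ≤ t) : 0 < 1 + Real.log (1 + t) := by
  have := Real.log_nonneg (show (1 : ℝ) ≤ 1 + t by linarith)
  linarith

lemma lw_nonneg {t : ℝ} (ht : 0 ≤ t) : 0 ≤ lw t := div_nonneg ht (psi_pos ht).le

lemma lw_mono {s t : ℝ} (hs : 0 ≤ s) (hst : s ≤ t) : lw s ≤ lw t := by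
  have ht : 0 ≤ t := hs.trans hst
  unfold lw
  rw [div_le_div_iff₀ (psi_pos hs) (psi_pos ht)]
  have h1 : Real.log (1 + t) ≤ Real.log (1 + s) + (t - s) / (1 + s) := by
    have h2 := Real.log_le_sub_one_of_pos (show 0 < (1 + t) / (1 + s) by positivity)
    rw [Real.log_div (by linarith) (by linarith)] at h2
    have h3 : (1 + t) / (1 + s) - 1 = (t - s) / (1 + s) := by field_simp; ring
    linarith
  have h4 : s * ((t - s) / (1 + s)) ≤ t - s := by
    have : s * ((t - s) / (1 + s)) = (s / (1 + s)) * (t - s) := by ring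
    rw [this]
    have h5 : s / (1 + s) ≤ 1 := (div_le_one (by linarith)).mpr (by linarith)
    nlinarith
  have h6 := Real.log_nonneg (show (1 : ℝ) ≤ 1 + s by linarith)
  have h7 : s * Real.log (1 + t) ≤ s * (Real.log (1 + s) + (t - s) / (1 + s)) :=
    mul_le_mul_of_nonneg_left h1 hs
  nlinarith

lemma lw_mul {c t : ℝ} (hc : 1 ≤ c) (ht : 0 ≤ t) : lw (c * t) ≤ c * lw t := by
  unfold lw
  rw [← mul_div_assoc]
  have hct : t ≤ c * t := by nlinarith
  apply div_le_div_of_nonneg_left (by positivity) (psi_pos ht)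
  have := Real.log_le_log (show 0 < 1 + t by linarith) (show 1 + t ≤ 1 + c * t by linarith)
  linarith

lemma lw_sq {t : ℝ} (ht : 1 ≤ t) : t * lw t ≤ 2 * lw (t ^ 2) := by
  unfold lw
  have h0 : 0 ≤ t := by linarith
  have h1 : Real.log (1 + t ^ 2) ≤ 2 * Real.log (1 + t) := by
    have e : 2 * Real.log (1 + t) = Real.log ((1 + t) ^ 2) := by
      rw [Real.log_pow]; norm_num
    rw [e]
    apply Real.log_le_log (by positivity)
    nlinarith
  have h2 := psi_pos h0
  have h3 := psi_pos (show 0 ≤ t ^ 2 by positivity)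
  have e1 : t * (t / (1 + Real.log (1 + t))) = t ^ 2 / (1 + Real.log (1 + t)) := by ring
  have e2 : 2 * (t ^ 2 / (1 + Real.log (1 + t ^ 2))) = t ^ 2 * 2 / (1 + Real.log (1 + t ^ 2)) := by
    ring
  rw [e1, e2, div_le_div_iff₀ h2 h3]
  have : 0 ≤ t ^ 2 := by positivity
  nlinarith

lemma lw_modulus : IsModulus lw := by
  refine ⟨fun s t hs hst => lw_mono hs hst, fun t ht => lw_nonneg ht, ?_⟩
  have hc : ContinuousAt lw 0 := by
    unfold lw
    apply ContinuousAt.div continuousAt_id
    · apply ContinuousAt.add continuousAt_const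
      apply ContinuousAt.log (by fun_prop)
      norm_num
    · norm_num
  have h0 : lw 0 = 0 := by simp [lw]
  have := hc.tendsto
  rw [h0] at this
  exact this.mono_left nhdsWithin_le_nhds

lemma lw_concave : ConcaveOn ℝ (Ici 0) lw := by
  have hder : ∀ x : ℝ, 0 < x → HasDerivAt lw
      ((1 * (1 + Real.log (1 + x)) - x * (1 / (1 + x))) / (1 + Real.log (1 + x)) ^ 2) x := by
    intro x hx
    have hp := psi_pos hx.le
    have h1 : HasDerivAt (fun t : ℝ => 1 + t) 1 x := by
      simpa using (hasDerivAt_id x).const_add 1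
    have h2 : HasDerivAt (fun t : ℝ => 1 + Real.log (1 + t)) (1 / (1 + x)) x :=
      (h1.log (by linarith)).const_add 1
    exact (hasDerivAt_id x).div h2 hp.ne'
  have hder2 : ∀ x : ℝ, 0 < x → HasDerivAt (fun x : ℝ =>
      ((1 * (1 + Real.log (1 + x)) - x * (1 / (1 + x))) / (1 + Real.log (1 + x)) ^ 2))
      ((-(2 + x) * (1 + Real.log (1 + x)) + 2 * x) /
        ((1 + x) ^ 2 * (1 + Real.log (1 + x)) ^ 3)) x := by
    intro x hx
    have hp := psi_pos hx.le
    have h1 : HasDerivAt (fun t : ℝ => 1 + t) 1 x := by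
      simpa using (hasDerivAt_id x).const_add 1
    have h2 : HasDerivAt (fun t : ℝ => 1 + Real.log (1 + t)) (1 / (1 + x)) x :=
      (h1.log (by linarith)).const_add 1
    have h3 : HasDerivAt (fun t : ℝ => t * (1 / (1 + t)))
        (1 * (1 / (1 + x)) + x * ((0 * (1 + x) - 1 * 1) / (1 + x) ^ 2)) x :=
      (hasDerivAt_id x).mul ((hasDerivAt_const x (1 : ℝ)).div h1 (by linarith))
    have h4 := ((h2.const_mul (1 : ℝ)).sub h3).div (h2.pow 2) (pow_ne_zero 2 hp.ne')
    have hx1 : (1 + x) ≠ 0 := by linarith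
    have hp' : (1 + Real.log (1 + x)) ≠ 0 := hp.ne'
    refine h4.congr_deriv ?_
    simp only [Pi.pow_apply, Pi.sub_apply]
    push_cast
    field_simp
    ring
  refine concaveOn_of_hasDerivWithinAt2_nonpos (convex_Ici 0) ?_
    (f' := fun x : ℝ =>
      ((1 * (1 + Real.log (1 + x)) - x * (1 / (1 + x))) / (1 + Real.log (1 + x)) ^ 2))
    (f'' := fun x : ℝ => ((-(2 + x) * (1 + Real.log (1 + x)) + 2 * x) /
        ((1 + x) ^ 2 * (1 + Real.log (1 + x)) ^ 3))) ?_ ?_ ?_
  · intro x hx
    have hx0 : (0 : ℝ) ≤ x := hx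
    apply ContinuousAt.continuousWithinAt
    unfold lw
    apply ContinuousAt.div continuousAt_id
    · apply ContinuousAt.add continuousAt_const
      apply ContinuousAt.log (by fun_prop)
      linarith
    · exact (psi_pos hx0).ne'
  · intro x hx
    rw [interior_Ici] at hx
    exact (hder x hx).hasDerivWithinAt
  · intro x hx
    rw [interior_Ici] at hx
    exact (hder2 x hx).hasDerivWithinAt
  · intro x hx
    rw [interior_Ici] at hx
    have hx0 : (0 : ℝ) < x := hx
    have hp := psi_pos hx0.le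
    apply div_nonpos_of_nonpos_of_nonneg _ (by positivity)
    -- log (1+x) ≥ 1 - 1/(1+x)
    have h1 : x / (1 + x) ≤ Real.log (1 + x) := by
      have h2 := Real.log_le_sub_one_of_pos (show 0 < (1 + x)⁻¹ by positivity)
      rw [Real.log_inv] at h2
      have : (1 + x)⁻¹ - 1 = - (x / (1 + x)) := by field_simp; ring
      linarith
    have h3 : 2 * x ≤ (2 + x) * (1 + x / (1 + x)) := by
      have : (2 + x) * (1 + x / (1 + x)) - 2 * x = (2 + 3 * x) / (1 + x) := by
        field_simp; ring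
      have h4 : 0 ≤ (2 + 3 * x) / (1 + x) := by positivity
      linarith
    nlinarith

lemma lw_div {t : ℝ} (ht : t ≠ 0) : lw t / t = 1 / (1 + Real.log (1 + t)) := by
  unfold lw; field_simp

lemma lw_small : ∃ c : ℝ, 0 < c ∧ ∀ᶠ t : ℝ in 𝓝[>] 0, c ≤ lw t / t := by
  refine ⟨1 / 2, by norm_num, ?_⟩
  filter_upwards [Ioc_mem_nhdsGT (zero_lt_one (α := ℝ))] with t ht
  rw [lw_div ht.1.ne']
  have h1 : Real.log (1 + t) ≤ 1 := by
    have := Real.log_le_sub_one_of_pos (show 0 < 1 + t by linarith [ht.1])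
    linarith [ht.2]
  have h2 := psi_pos ht.1.le
  rw [div_le_div_iff₀ (by norm_num) h2]
  linarith

lemma lw_large : Tendsto (fun t : ℝ => lw t / t) atTop (𝓝 0) := by
  have h1 : Tendsto (fun t : ℝ => 1 / (1 + Real.log (1 + t))) atTop (𝓝 0) := by
    simp only [one_div]
    apply Tendsto.inv_tendsto_atTop
    apply tendsto_atTop_add_const_left
    exact Real.tendsto_log_atTop.comp (tendsto_atTop_add_const_left _ _ tendsto_id)
  refine h1.congr' ?_
  filter_upwards [eventually_gt_atTop 0] with t ht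
  rw [lw_div ht.ne']

end Pool.Agent.X116.Scv
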