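import Pool.Agent.X116.ScvA

/-!
Recession directions of an unbounded cone-free open convex set containing the origin.
-/

namespace Pool.Agent.X116.Scv

open Set Filter Topology

variable {E : Type*} [NormedAddCommGroup E] [InnerProductSpace ℝ E]

/-- recession cone (for open convex sets containing `0`) -/
def rc (G : Set E) : Set E := {u | ∀ t : ℝ, 0 ≤ t → t • u ∈ G}

lemma smul_mem_of {G : Set E} (hconv : Convex ℝ G) (h0 : (0 : E) ∈ G) {p : E} (hp : p ∈ G) {t : ℝ}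
    (ht : 0 ≤ t) (ht1 : t ≤ 1) : t • p ∈ G := by
  have := hconv h0 hp (sub_nonneg.mpr ht1) ht (by ring)
  simpa using this

/-- limits of directions of far points are recession directions -/
lemma dir_mem_rc {G : Set E} (hG : IsOpen G) (hconv : Convex ℝ G) (h0 : (0 : E) ∈ G)
    {p : ℕ → E} (hp : ∀ n, p n ∈ G) (hn : Tendsto (fun n => ‖p n‖) atTop atTop) {e : E}
    (he : Tendsto (fun n => (‖p n‖)⁻¹ • p n) atTop (𝓝 e)) : e ∈ rc G := by
  intro t ht
  have h1 : (2 * t) • e ∈ closure G := by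
    apply mem_closure_of_tendsto (he.const_smul (2 * t))
    filter_upwards [hn.eventually_ge_atTop (2 * t), hn.eventually_gt_atTop 0] with n hn1 hn2
    rw [smul_smul]
    apply smul_mem_of hconv h0 (hp n) (by positivity)
    rw [← div_eq_mul_inv]
    exact (div_le_one hn2).mpr hn1
  have h0' : (0 : E) ∈ interior G := by rw [hG.interior_eq]; exact h0
  have h2 := hconv.combo_interior_closure_mem_interior h0' h1 (a := 1 / 2) (b := 1 / 2)
    (by norm_num) (by norm_num) (by norm_num)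
  rw [hG.interior_eq, smul_zero, zero_add, smul_smul] at h2
  have : (1 / 2 * (2 * t) : ℝ) = t := by ring
  rwa [this] at h2

lemma exists_subseq [FiniteDimensional ℝ E] {G : Set E} (hG : IsOpen G) (hconv : Convex ℝ G)
    (h0 : (0 : E) ∈ G) {p : ℕ → E} (hp : ∀ n, p n ∈ G) (hn : ∀ n : ℕ, (n : ℝ) + 1 ≤ ‖p n‖) :
    ∃ (e : E) (φ : ℕ → ℕ), ‖e‖ = 1 ∧ e ∈ rc G ∧ StrictMono φ ∧
      Tendsto (fun n => (‖p (φ n)‖)⁻¹ • p (φ n)) atTop (𝓝 e) := by
  have hs : ∀ n, (‖p n‖)⁻¹ • p n ∈ Metric.sphere (0 : E) 1 := by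
    intro n
    have : 0 < ‖p n‖ := lt_of_lt_of_le (by positivity) (hn n)
    rw [mem_sphere_zero_iff_norm, norm_smul, norm_inv, norm_norm, inv_mul_cancel₀ this.ne']
  obtain ⟨e, he, φ, hφ, hlim⟩ := (isCompact_sphere (0 : E) 1).tendsto_subseq hs
  refine ⟨e, φ, by simpa using he, ?_, hφ, hlim⟩
  apply dir_mem_rc hG hconv h0 (fun n => hp (φ n)) _ hlim
  apply tendsto_atTop_mono (fun n => hn (φ n))
  apply tendsto_atTop_add_const_right
  exact tendsto_natCast_atTop_atTop.comp hφ.tendsto_atTop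

theorem exists_dirs [FiniteDimensional ℝ E] {G : Set E} (hG : IsOpen G) (hconv : Convex ℝ G)
    (h0 : (0 : E) ∈ G) (hub : ¬ Bornology.IsBounded G) (hcf : ConeFree G) :
    ∃ u v : E, ‖u‖ = 1 ∧ ‖v‖ = 1 ∧ u ∈ rc G ∧ (inner ℝ v u : ℝ) = 0 ∧
      ∀ ε : ℝ, 0 < ε → ∃ R : ℝ, ∀ p ∈ G, R ≤ ‖p‖ → |(inner ℝ v p : ℝ)| ≤ ε * ‖p‖ := by
  -- the recession cone has empty interior
  have hcone : ∀ x ∈ rc G, ∀ l : ℝ, 0 < l → l • x ∈ rc G := by
    intro x hx l hl t ht
    rw [smul_smul]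
    exact hx _ (by positivity)
  have hrcconv : Convex ℝ (rc G) := by
    intro x hx y hy a b ha hb hab t ht
    have : t • (a • x + b • y) = a • (t • x) + b • (t • y) := by module
    rw [this]
    exact hconv (hx t ht) (hy t ht) ha hb hab
  have h0rc : (0 : E) ∈ rc G := by intro t _; rw [smul_zero]; exact h0
  have hint : ¬ (interior (rc G)).Nonempty := by
    intro hne
    apply hcf
    refine ⟨rc G, 0, hcone, hrcconv, hne, ?_⟩
    rintro _ ⟨x, hx, rfl⟩
    have := hx 1 zero_le_one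
    simpa using this
  have hspan : Submodule.span ℝ (rc G) ≠ ⊤ := by
    intro htop
    apply hint
    rw [hrcconv.interior_nonempty_iff_affineSpan_eq_top]
    rw [AffineSubspace.affineSpan_eq_top_iff_vectorSpan_eq_top_of_nonempty ℝ E E ⟨0, h0rc⟩]
    rw [vectorSpan_eq_span_vsub_set_right ℝ h0rc]
    simpa using htop
  have hperp : (Submodule.span ℝ (rc G))ᗮ ≠ ⊥ := by
    intro h
    exact hspan (Submodule.orthogonal_eq_bot_iff.mp h)
  obtain ⟨v0, hv0, hv0ne⟩ := Submodule.exists_mem_ne_zero_of_ne_bot hperp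
  have hv0n : 0 < ‖v0‖ := norm_pos_iff.mpr hv0ne
  set v := (‖v0‖)⁻¹ • v0 with hv
  have hvn : ‖v‖ = 1 := by
    rw [hv, norm_smul, norm_inv, norm_norm, inv_mul_cancel₀ hv0n.ne']
  have hvrc : ∀ u ∈ rc G, (inner ℝ v u : ℝ) = 0 := by
    intro u hu
    have h1 : (inner ℝ u v0 : ℝ) = 0 :=
      (Submodule.mem_orthogonal _ _).mp hv0 u (Submodule.subset_span hu)
    rw [hv, real_inner_smul_left, real_inner_comm, h1, mul_zero]
  -- a unit recession direction
  have hfar : ∀ n : ℕ, ∃ p ∈ G, (n : ℝ) + 1 ≤ ‖p‖ := by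
    intro n
    by_contra hcon
    push Not at hcon
    apply hub
    rw [isBounded_iff_forall_norm_le]
    exact ⟨(n : ℝ) + 1, fun x hx => (hcon x hx).le⟩
  choose p hpG hpn using hfar
  obtain ⟨u, -, hu1, hurc, -, -⟩ := exists_subseq hG hconv h0 hpG hpn
  refine ⟨u, v, hu1, hvn, hurc, hvrc u hurc, ?_⟩
  intro ε hε
  by_contra hcon
  push Not at hcon
  choose q hq using fun n : ℕ => hcon ((n : ℝ) + 1)
  obtain ⟨e, φ, he1, herc, hφ, hlim⟩ := exists_subseq hG hconv h0 (fun n => (hq n).1)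
    (fun n => (hq n).2.1)
  have h1 : Tendsto (fun n => |(inner ℝ v ((‖q (φ n)‖)⁻¹ • q (φ n)) : ℝ)|) atTop
      (𝓝 |(inner ℝ v e : ℝ)|) := (tendsto_const_nhds.inner hlim).abs
  rw [hvrc e herc, abs_zero] at h1
  have h2 : ∀ n, ε ≤ |(inner ℝ v ((‖q (φ n)‖)⁻¹ • q (φ n)) : ℝ)| := by
    intro n
    have hpos : 0 < ‖q (φ n)‖ := lt_of_lt_of_le (by positivity) (hq (φ n)).2.1
    rw [real_inner_smul_right, abs_mul, abs_of_pos (by positivity), ← div_eq_inv_mul,
      le_div_iff₀ hpos]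
    exact (hq (φ n)).2.2.le
  have := ge_of_tendsto' h1 h2
  linarith

end Pool.Agent.X116.Scv
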