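import Pool.Agent.X116.ScvD

/-!
The positive part: for every unbounded, open, convex, cone-free `G` and `0 < α < 1` there is a
`t^α`-semiconvex and `t^α`-semiconcave function on `G` which is not `C^{1,α}`.
-/

namespace Pool.Agent.X116.Scv

open Set Filter Topology

variable {E : Type*} [NormedAddCommGroup E] [InnerProductSpace ℝ E]

/-- one-scale profile -/
noncomputable def gk (α R w : ℝ) (p : E) : ℝ := w ^ (α - 1) * R * (‖p‖ ^ 2 / (R ^ 2 + ‖p‖ ^ 2))

section one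

variable {α R w : ℝ} (hα0 : 0 < α) (hα1 : α < 1) (hw : 1 ≤ w) (hwR : w ≤ R)
include hα0 hα1 hw hwR

omit hα0 hα1 in
lemma gk_nonneg (p : E) : 0 ≤ gk α R w p := by
  unfold gk
  have : 0 < R := by linarith
  have : 0 < w := by linarith
  positivity

omit hα0 in
lemma L_le_one : w ^ (α - 1) ≤ 1 := Real.rpow_le_one_of_one_le_of_nonpos hw (by linarith)

lemma gk_le (p : E) : gk α R w p ≤ ‖p‖ ^ 2 := by
  unfold gk
  have hR : 0 < R := by linarith
  have hL := L_le_one hα1 hw hwR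
  have hL0 : 0 < w ^ (α - 1) := Real.rpow_pos_of_pos (by linarith) _
  have h1 : R * (‖p‖ ^ 2 / (R ^ 2 + ‖p‖ ^ 2)) ≤ ‖p‖ ^ 2 := by
    rw [← mul_div_assoc, div_le_iff₀ (by positivity)]
    have : R ≤ R ^ 2 + ‖p‖ ^ 2 := by nlinarith [sq_nonneg ‖p‖]
    nlinarith [sq_nonneg ‖p‖]
  have h0 : 0 ≤ R * (‖p‖ ^ 2 / (R ^ 2 + ‖p‖ ^ 2)) := by positivity
  calc w ^ (α - 1) * R * (‖p‖ ^ 2 / (R ^ 2 + ‖p‖ ^ 2))
      = w ^ (α - 1) * (R * (‖p‖ ^ 2 / (R ^ 2 + ‖p‖ ^ 2))) := by ring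
    _ ≤ 1 * (R * (‖p‖ ^ 2 / (R ^ 2 + ‖p‖ ^ 2))) := by gcongr
    _ ≤ ‖p‖ ^ 2 := by rw [one_mul]; exact h1

omit hα0 hα1 in
/-- Lipschitz estimate seen from `x` -/
lemma gk_lip (x y : E) : |gk α R w x - gk α R w y| ≤
    2 * w ^ (α - 1) * R * ‖x - y‖ / Real.sqrt (R ^ 2 + ‖x‖ ^ 2) := by
  have hR : 0 < R := by linarith
  have hL0 : 0 < w ^ (α - 1) := Real.rpow_pos_of_pos (by linarith) _
  set a := Real.sqrt (R ^ 2 + ‖x‖ ^ 2) with ha
  set b := Real.sqrt (R ^ 2 + ‖y‖ ^ 2) with hb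
  have ha2 : a ^ 2 = R ^ 2 + ‖x‖ ^ 2 := Real.sq_sqrt (by positivity)
  have hb2 : b ^ 2 = R ^ 2 + ‖y‖ ^ 2 := Real.sq_sqrt (by positivity)
  have haR : R ≤ a := Real.le_sqrt_of_sq_le (by nlinarith [sq_nonneg ‖x‖])
  have hbR : R ≤ b := Real.le_sqrt_of_sq_le (by nlinarith [sq_nonneg ‖y‖])
  have hxa : ‖x‖ ≤ a := Real.le_sqrt_of_sq_le (by nlinarith [sq_nonneg R])
  have hyb : ‖y‖ ≤ b := Real.le_sqrt_of_sq_le (by nlinarith [sq_nonneg R])
  have ha0 : 0 < a := by linarith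
  have hb0 : 0 < b := by linarith
  set D := ‖x - y‖ with hD
  have hD0 : 0 ≤ D := norm_nonneg _
  have hdiff : |a ^ 2 - b ^ 2| ≤ D * (a + b) := by
    have e : a ^ 2 - b ^ 2 = (‖x‖ - ‖y‖) * (‖x‖ + ‖y‖) := by rw [ha2, hb2]; ring
    rw [e, abs_mul, abs_of_nonneg (show 0 ≤ ‖x‖ + ‖y‖ by positivity)]
    have h1 : |‖x‖ - ‖y‖| ≤ D := abs_norm_sub_norm_le x y
    have h2 : ‖x‖ + ‖y‖ ≤ a + b := by linarith
    calc _ ≤ D * (‖x‖ + ‖y‖) := by gcongr
      _ ≤ _ := by gcongr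
  have e1 : gk α R w x - gk α R w y = w ^ (α - 1) * R * (R ^ 2 * (a ^ 2 - b ^ 2) / (a ^ 2 * b ^ 2)) := by
    unfold gk
    rw [ha2, hb2]
    have h1 : R ^ 2 + ‖x‖ ^ 2 ≠ 0 := by positivity
    have h2 : R ^ 2 + ‖y‖ ^ 2 ≠ 0 := by positivity
    field_simp
    ring
  rw [e1, abs_mul, abs_of_pos (by positivity), abs_div, abs_mul, abs_of_pos (by positivity),
    abs_of_pos (show 0 < a ^ 2 * b ^ 2 by positivity)]
  have h3 : R ^ 2 * |a ^ 2 - b ^ 2| / (a ^ 2 * b ^ 2) ≤ 2 * D / a := by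
    rw [div_le_div_iff₀ (by positivity) ha0]
    have h4 : R ^ 2 * (a + b) ≤ 2 * (a * b ^ 2) := by
      have : R ^ 2 ≤ b ^ 2 := by gcongr
      have h5 : R ^ 2 ≤ a * b := by nlinarith
      nlinarith
    calc R ^ 2 * |a ^ 2 - b ^ 2| * a ≤ R ^ 2 * (D * (a + b)) * a := by gcongr
      _ = (D * a) * (R ^ 2 * (a + b)) := by ring
      _ ≤ (D * a) * (2 * (a * b ^ 2)) := by gcongr
      _ = 2 * D * (a ^ 2 * b ^ 2) := by ring
  calc w ^ (α - 1) * R * (R ^ 2 * |a ^ 2 - b ^ 2| / (a ^ 2 * b ^ 2)) ≤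
        w ^ (α - 1) * R * (2 * D / a) := by gcongr
    _ = _ := by ring

omit hα1 in
lemma w_pow : w * w ^ (α - 1) = w ^ α := by
  have : w ^ α = w ^ (1 + (α - 1)) := by congr 1; ring
  rw [this, Real.rpow_add (by linarith), Real.rpow_one]

/-- estimate (A) -/
lemma estA {l : ℝ} {x y : E} (hl : |l| ≤ ‖x - y‖)
    (hlx : |l| ≤ w * Real.sqrt (R ^ 2 + ‖x‖ ^ 2) / R + w * Real.sqrt (R ^ 2 + ‖y‖ ^ 2) / R) :
    |l * (gk α R w x - gk α R w y)| ≤ 4 * ‖x - y‖ * ‖x - y‖ ^ α := by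
  wlog hxy : Real.sqrt (R ^ 2 + ‖y‖ ^ 2) ≤ Real.sqrt (R ^ 2 + ‖x‖ ^ 2) with H
  · have := H hα0 hα1 hw hwR (l := l) (x := y) (y := x) (by rwa [norm_sub_rev])
      (by linarith) (le_of_not_ge hxy)
    rw [norm_sub_rev y x] at this
    rw [abs_mul] at this ⊢
    rwa [abs_sub_comm (gk α R w x)]
  have hR : 0 < R := by linarith
  have hw0 : 0 < w := by linarith
  have hL0 : 0 < w ^ (α - 1) := Real.rpow_pos_of_pos hw0 _
  have hlip := gk_lip (α := α) hw hwR x y
  set a := Real.sqrt (R ^ 2 + ‖x‖ ^ 2) with ha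
  set b := Real.sqrt (R ^ 2 + ‖y‖ ^ 2) with hb
  have haR : R ≤ a := Real.le_sqrt_of_sq_le (by nlinarith [sq_nonneg ‖x‖])
  have ha0 : 0 < a := by linarith
  set D := ‖x - y‖ with hD
  have hD0 : 0 ≤ D := norm_nonneg _
  set m := |l| * R / a with hm
  have hm0 : 0 ≤ m := by positivity
  have hmD : m ≤ D := by
    rw [hm, div_le_iff₀ ha0]
    exact mul_le_mul hl haR hR.le hD0
  have hm2 : m ≤ 2 * w := by
    rw [hm, div_le_iff₀ ha0]
    have : |l| ≤ 2 * w * a / R := by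
      have h1 : w * b / R ≤ w * a / R := by gcongr
      have h2 : 2 * w * a / R = w * a / R + w * a / R := by ring
      linarith
    rw [le_div_iff₀ hR] at this
    exact this
  have key : m * w ^ (α - 1) ≤ 2 * D ^ α := by
    rcases le_or_gt m w with hmw | hmw
    · rcases hm0.eq_or_lt with h0 | h0
      · rw [← h0, zero_mul]; positivity
      have h1 : w ^ (α - 1) ≤ m ^ (α - 1) :=
        Real.rpow_le_rpow_of_nonpos h0 hmw (by linarith)
      have h2 : m * m ^ (α - 1) = m ^ α := by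
        have : m ^ α = m ^ (1 + (α - 1)) := by congr 1; ring
        rw [this, Real.rpow_add h0, Real.rpow_one]
      have h3 : m ^ α ≤ D ^ α := Real.rpow_le_rpow h0.le hmD hα0.le
      have h4 : 0 ≤ D ^ α := by positivity
      calc m * w ^ (α - 1) ≤ m * m ^ (α - 1) := by gcongr
        _ ≤ 2 * D ^ α := by rw [h2]; linarith
    · have h3 : w ^ α ≤ D ^ α := Real.rpow_le_rpow hw0.le (by linarith) hα0.le
      calc m * w ^ (α - 1) ≤ 2 * w * w ^ (α - 1) := by gcongr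
        _ = 2 * w ^ α := by rw [mul_assoc, w_pow hα0 hw hwR]
        _ ≤ 2 * D ^ α := by gcongr
  rw [abs_mul]
  calc _ ≤ |l| * (2 * w ^ (α - 1) * R * D / a) := by gcongr
    _ = 2 * D * (m * w ^ (α - 1)) := by rw [hm]; ring
    _ ≤ 2 * D * (2 * D ^ α) := by gcongr
    _ = 4 * D * D ^ α := by ring

omit hα0 hα1 hw hwR in
lemma norm_combo_sq (x y : E) (l : ℝ) : ‖l • x + (1 - l) • y‖ ^ 2 =
    l * ‖x‖ ^ 2 + (1 - l) * ‖y‖ ^ 2 - l * (1 - l) * ‖x - y‖ ^ 2 := by
  rw [norm_add_sq_real, norm_sub_sq_real, norm_smul, norm_smul, real_inner_smul_left,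
    real_inner_smul_right, mul_pow, mul_pow, Real.norm_eq_abs, Real.norm_eq_abs, sq_abs, sq_abs]
  ring

/-- estimate (B) -/
lemma estB {c : ℝ} {x y : E} {l : ℝ} (hl0 : 0 ≤ l) (hl1 : l ≤ 1)
    (hc : |c| ≤ w * Real.sqrt (R ^ 2 + ‖l • x + (1 - l) • y‖ ^ 2) / R) :
    |c * (gk α R w (l • x + (1 - l) • y) - (l * gk α R w x + (1 - l) * gk α R w y))| ≤
      l * (1 - l) * (4 * ‖x - y‖ * ‖x - y‖ ^ α) := by
  have hR : 0 < R := by linarith
  have hw0 : 0 < w := by linarith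
  have hL0 : 0 < w ^ (α - 1) := Real.rpow_pos_of_pos hw0 _
  set z := l • x + (1 - l) • y with hz
  set D := ‖x - y‖ with hD
  have hD0 : 0 ≤ D := norm_nonneg _
  set s := Real.sqrt (R ^ 2 + ‖z‖ ^ 2) with hs
  have hs2 : s ^ 2 = R ^ 2 + ‖z‖ ^ 2 := Real.sq_sqrt (by positivity)
  have hsR : R ≤ s := Real.le_sqrt_of_sq_le (by nlinarith [sq_nonneg ‖z‖])
  have hs0 : 0 < s := by linarith
  have hll : 0 ≤ l * (1 - l) := mul_nonneg hl0 (by linarith)
  rw [abs_mul]
  rcases le_or_gt D R with hDR | hDR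
  · -- second order estimate
    set A := R ^ 2 + ‖x‖ ^ 2 with hA
    set B := R ^ 2 + ‖y‖ ^ 2 with hB
    set Z := R ^ 2 + ‖z‖ ^ 2 with hZ
    have hA0 : 0 < A := by positivity
    have hB0 : 0 < B := by positivity
    have hZ0 : 0 < Z := by positivity
    have hZe : Z = l * A + (1 - l) * B - l * (1 - l) * D ^ 2 := by
      rw [hZ, hz, norm_combo_sq, hA, hB]; ring
    have e1 : gk α R w z - (l * gk α R w x + (1 - l) * gk α R w y) =
        - (w ^ (α - 1) * R * (R ^ 2 * (l * (1 - l) * (D ^ 2 * (l * B + (1 - l) * A) - (A - B) ^ 2)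
          / (Z * A * B)))) := by
      unfold gk
      rw [← hA, ← hB, ← hZ]
      have h1 : ‖x‖ ^ 2 = A - R ^ 2 := by rw [hA]; ring
      have h2 : ‖y‖ ^ 2 = B - R ^ 2 := by rw [hB]; ring
      have h3 : ‖z‖ ^ 2 = Z - R ^ 2 := by rw [hZ]; ring
      rw [h1, h2, h3]
      have hD2 : l * (1 - l) * (D ^ 2 * (l * B + (1 - l) * A) - (A - B) ^ 2) =
          A * B - Z * (l * B + (1 - l) * A) := by
        rw [hZe]; ring
      rw [hD2]
      have hAne := hA0.ne'
      have hBne := hB0.ne'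
      have hZne := hZ0.ne'
      field_simp
      ring
    have hnum : |D ^ 2 * (l * B + (1 - l) * A) - (A - B) ^ 2| ≤ 2 * D ^ 2 * (A + B) := by
      have h1 : 0 ≤ D ^ 2 * (l * B + (1 - l) * A) := by
        have : 0 ≤ 1 - l := by linarith
        positivity
      have h2 : D ^ 2 * (l * B + (1 - l) * A) ≤ D ^ 2 * (A + B) := by
        apply mul_le_mul_of_nonneg_left _ (sq_nonneg D)
        nlinarith
      have h3 : (A - B) ^ 2 ≤ 2 * D ^ 2 * (A + B) := by
        have e : A - B = (‖x‖ - ‖y‖) * (‖x‖ + ‖y‖) := by rw [hA, hB]; ring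
        have h4 : (‖x‖ - ‖y‖) ^ 2 ≤ D ^ 2 := by
          rw [← sq_abs (‖x‖ - ‖y‖)]
          have := abs_norm_sub_norm_le x y
          gcongr
        have h5 : (‖x‖ + ‖y‖) ^ 2 ≤ 2 * (A + B) := by
          rw [hA, hB]; nlinarith [sq_nonneg (‖x‖ - ‖y‖), sq_nonneg R]
        rw [e, mul_pow]
        calc _ ≤ D ^ 2 * (2 * (A + B)) := by gcongr
          _ = _ := by ring
      rw [abs_le]
      constructor
      · linarith
      · have : D ^ 2 * (A + B) ≤ 2 * D ^ 2 * (A + B) := by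
          have : 0 ≤ D ^ 2 * (A + B) := by positivity
          linarith
        linarith [sq_nonneg (A - B)]
    have hAR : R ^ 2 ≤ A := by rw [hA]; nlinarith [sq_nonneg ‖x‖]
    have hBR : R ^ 2 ≤ B := by rw [hB]; nlinarith [sq_nonneg ‖y‖]
    have hdef : |gk α R w z - (l * gk α R w x + (1 - l) * gk α R w y)| ≤
        l * (1 - l) * (4 * w ^ (α - 1) * R * D ^ 2 / Z) := by
      rw [e1, abs_neg, abs_mul, abs_of_pos (show 0 < w ^ (α - 1) * R by positivity), abs_mul,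
        abs_of_pos (show 0 < R ^ 2 by positivity), abs_div, abs_mul, abs_of_nonneg hll,
        abs_of_pos (show 0 < Z * A * B by positivity)]
      have h6 : R ^ 2 * (l * (1 - l) * |D ^ 2 * (l * B + (1 - l) * A) - (A - B) ^ 2| /
          (Z * A * B)) ≤ l * (1 - l) * (4 * D ^ 2 / Z) := by
        have h7 : R ^ 2 * (A + B) ≤ 2 * (A * B) := by nlinarith
        calc R ^ 2 * (l * (1 - l) * |D ^ 2 * (l * B + (1 - l) * A) - (A - B) ^ 2| /
              (Z * A * B)) ≤ R ^ 2 * (l * (1 - l) * (2 * D ^ 2 * (A + B)) / (Z * A * B)) := by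
              gcongr
          _ = l * (1 - l) * (2 * D ^ 2 * (R ^ 2 * (A + B)) / (Z * A * B)) := by ring
          _ ≤ l * (1 - l) * (2 * D ^ 2 * (2 * (A * B)) / (Z * A * B)) := by gcongr
          _ = l * (1 - l) * (4 * D ^ 2 / Z) := by
            field_simp
            ring
      calc _ ≤ w ^ (α - 1) * R * (l * (1 - l) * (4 * D ^ 2 / Z)) := by gcongr
        _ = _ := by ring
    have hfin : w ^ α * D ^ 2 / s ≤ D * D ^ α := by
      rcases hD0.eq_or_lt with h0 | h0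
      · rw [← h0]; simp
      have h8 : D ^ 2 = D * D ^ α * D ^ (1 - α) := by
        rw [mul_assoc, ← Real.rpow_add h0]
        have : α + (1 - α) = 1 := by ring
        rw [this, Real.rpow_one]; ring
      have h9 : w ^ α * D ^ (1 - α) ≤ s := by
        calc w ^ α * D ^ (1 - α) ≤ R ^ α * R ^ (1 - α) := by
              have := Real.rpow_le_rpow hw0.le hwR hα0.le
              have := Real.rpow_le_rpow h0.le hDR (by linarith : (0:ℝ) ≤ 1 - α)
              gcongr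
          _ = R := by rw [← Real.rpow_add hR]; simp
          _ ≤ s := hsR
      rw [div_le_iff₀ hs0, h8]
      have : 0 ≤ D * D ^ α := by positivity
      nlinarith
    calc _ ≤
          (w * s / R) * (l * (1 - l) * (4 * w ^ (α - 1) * R * D ^ 2 / Z)) := by gcongr
      _ = l * (1 - l) * (4 * ((w * w ^ (α - 1)) * D ^ 2 / s)) := by
        rw [← hs2]; field_simp
      _ ≤ l * (1 - l) * (4 * (D * D ^ α)) := by rw [w_pow hα0 hw hwR]; gcongr
      _ = _ := by ring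
  · -- Lipschitz estimate
    have hzx : ‖z - x‖ = (1 - l) * D := by
      have : z - x = (1 - l) • (y - x) := by rw [hz]; module
      rw [this, norm_smul, Real.norm_of_nonneg (by linarith), norm_sub_rev y x]
    have hzy : ‖z - y‖ = l * D := by
      have : z - y = l • (x - y) := by rw [hz]; module
      rw [this, norm_smul, Real.norm_of_nonneg hl0]
    have h1 := gk_lip (α := α) hw hwR z x
    have h2 := gk_lip (α := α) hw hwR z y
    rw [hzx, ← hs] at h1
    rw [hzy, ← hs] at h2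
    have hdef : |gk α R w z - (l * gk α R w x + (1 - l) * gk α R w y)| ≤
        l * (1 - l) * (4 * w ^ (α - 1) * R * D / s) := by
      have e : gk α R w z - (l * gk α R w x + (1 - l) * gk α R w y) =
          l * (gk α R w z - gk α R w x) + (1 - l) * (gk α R w z - gk α R w y) := by ring
      rw [e]
      calc _ ≤ |l * (gk α R w z - gk α R w x)| + |(1 - l) * (gk α R w z - gk α R w y)| :=
            abs_add_le _ _
        _ = l * |gk α R w z - gk α R w x| + (1 - l) * |gk α R w z - gk α R w y| := by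
            rw [abs_mul, abs_mul, abs_of_nonneg hl0, abs_of_nonneg (by linarith : 0 ≤ 1 - l)]
        _ ≤ l * (2 * w ^ (α - 1) * R * ((1 - l) * D) / s) +
              (1 - l) * (2 * w ^ (α - 1) * R * (l * D) / s) := by
            have : 0 ≤ 1 - l := by linarith
            gcongr
        _ = _ := by ring
    calc _ ≤
          (w * s / R) * (l * (1 - l) * (4 * w ^ (α - 1) * R * D / s)) := by gcongr
      _ = l * (1 - l) * (4 * ((w * w ^ (α - 1)) * D)) := by field_simp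
      _ ≤ l * (1 - l) * (4 * D * D ^ α) := by
        rw [w_pow hα0 hw hwR]
        have h3 : w ^ α ≤ D ^ α := Real.rpow_le_rpow hw0.le (by linarith) hα0.le
        apply mul_le_mul_of_nonneg_left _ hll
        nlinarith

end one

end Pool.Agent.X116.Scv
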