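import Pool.Agent.X116.PolyaArea2

set_option autoImplicit false

open MeasureTheory Set Filter Topology Polynomial
open scoped ENNReal

namespace Pool.Agent.X116.SD

/-- polynomial as a map -/
def map (T : ℂ[X]) : ℂ → ℂ := fun w : ℂ => T.eval w

def Escapes (T : ℂ[X]) (z : ℂ) : Prop :=
  Tendsto (fun k : ℕ => ‖(map T)^[k] z‖) atTop atTop

/-- iterates as polynomials in the parameter -/
noncomputable def it (T : ℂ[X]) (z : ℂ) : ℕ → ℂ[X]
  | 0 => C z
  | (n + 1) => T.comp (it T z n) + X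

lemma it_eval (T : ℂ[X]) (z t : ℂ) (n : ℕ) :
    (it T z n).eval t = (map (T + C t))^[n] z := by
  induction n with
  | zero => simp [it]
  | succ n ih =>
    rw [Function.iterate_succ_apply', ← ih]
    simp [it, map, eval_comp]

/-- exponents -/
def ex (d : ℕ) : ℕ → ℕ
  | 0 => 0
  | (n + 1) => 1 + d * ex d n

lemma ex_eq (d n : ℕ) : ((d : ℝ) - 1) * ex d n = (d : ℝ) ^ n - 1 := by
  induction n with
  | zero => simp [ex]
  | succ n ih =>
    rw [ex, pow_succ]
    push_cast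
    linear_combination (d : ℝ) * ih

lemma it_deg {T : ℂ[X]} (hd : 2 ≤ T.natDegree) (z : ℂ) (n : ℕ) :
    (it T z (n + 1)).natDegree = T.natDegree ^ n ∧
      (it T z (n + 1)).leadingCoeff = T.leadingCoeff ^ ex T.natDegree n := by
  induction n with
  | zero =>
    have h : it T z 1 = X + C (T.eval z) := by
      simp [it, comp_C, add_comm]
    rw [h]
    simp [ex]
  | succ n ih =>
    have h1 : (T.comp (it T z (n + 1))).natDegree = T.natDegree ^ (n + 1) := by
      rw [natDegree_comp, ih.1, pow_succ, mul_comm]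
    have h2 : 2 ≤ T.natDegree ^ (n + 1) :=
      hd.trans (Nat.le_self_pow (by omega) _)
    have h3 : (X : ℂ[X]).natDegree < (T.comp (it T z (n + 1))).natDegree := by
      rw [h1, natDegree_X]; omega
    have h4 : (X : ℂ[X]).degree < (T.comp (it T z (n + 1))).degree :=
      degree_lt_degree h3
    have h5 : it T z (n + 1 + 1) = T.comp (it T z (n + 1)) + X := rfl
    refine ⟨?_, ?_⟩
    · rw [h5, natDegree_add_eq_left_of_natDegree_lt h3, h1]
    · rw [h5, leadingCoeff_add_of_degree_lt' h4, leadingCoeff_comp, ih.2, ex, pow_add, pow_one,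
        ← pow_mul, mul_comm (ex T.natDegree n)]
      rw [ih.1]
      exact pow_ne_zero _ (by omega)

lemma escape_radius {T : ℂ[X]} (hd : 2 ≤ T.natDegree) (r : ℝ) :
    ∃ R : ℝ, 1 ≤ R ∧ ∀ t : ℂ, ‖t‖ ≤ r → ∀ z : ℂ, R ≤ ‖z‖ → 2 * ‖z‖ ≤ ‖T.eval z + t‖ := by
  have hdiv : 0 < (divX T).degree := by
    have h1 : (divX T).natDegree = T.natDegree - 1 := natDegree_divX_eq_natDegree_tsub_one
    have h2 : divX T ≠ 0 := by
      intro h; rw [h, natDegree_zero] at h1; omega
    rw [degree_eq_natDegree h2, h1]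
    exact_mod_cast (by omega : 0 < T.natDegree - 1)
  have ht : Tendsto (fun z : ℂ => ‖(divX T).eval z‖) (cocompact ℂ) atTop :=
    (divX T).tendsto_norm_atTop hdiv tendsto_norm_cocompact_atTop
  have h1 := ht.eventually_ge_atTop 3
  have h2 : ∃ R0 : ℝ, ∀ z : ℂ, R0 ≤ ‖z‖ → 3 ≤ ‖(divX T).eval z‖ := by
    rw [Filter.Eventually, Filter.mem_cocompact] at h1
    obtain ⟨s, hs1, hs2⟩ := h1
    obtain ⟨B, hB⟩ := hs1.isBounded.exists_norm_le
    refine ⟨B + 1, fun z hz => ?_⟩
    have : z ∈ sᶜ := fun h => by have := hB z h; linarith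
    exact hs2 this
  obtain ⟨R0, hR0⟩ := h2
  refine ⟨max (max R0 1) (‖T.eval 0‖ + r), (le_max_right _ _).trans (le_max_left _ _), ?_⟩
  intro t ht z hz
  have hz1 : R0 ≤ ‖z‖ := ((le_max_left _ _).trans (le_max_left _ _)).trans hz
  have hz2 : ‖T.eval 0‖ + r ≤ ‖z‖ := (le_max_right _ _).trans hz
  have h3 := hR0 z hz1
  have h4 : T.eval z = z * (divX T).eval z + T.eval 0 := by
    conv_lhs => rw [← divX_mul_X_add T]
    simp only [eval_add, eval_mul, eval_X, eval_C, coeff_zero_eq_eval_zero]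
    ring
  have h5 : z * (divX T).eval z = (T.eval z + t) - (T.eval 0 + t) := by
    rw [h4]; ring
  have h6 : ‖z‖ * ‖(divX T).eval z‖ ≤ ‖T.eval z + t‖ + (‖T.eval 0‖ + ‖t‖) := by
    rw [← norm_mul, h5]
    exact (norm_sub_le _ _).trans (by gcongr; exact norm_add_le _ _)
  nlinarith [norm_nonneg z]

lemma escapes_of {T : ℂ[X]} {R : ℝ} (hR : 1 ≤ R)
    (h : ∀ z : ℂ, R ≤ ‖z‖ → 2 * ‖z‖ ≤ ‖T.eval z‖) {z : ℂ} {n : ℕ}
    (hn : R ≤ ‖(map T)^[n] z‖) : Escapes T z := by
  have h1 : ∀ k : ℕ, 2 ^ k * R ≤ ‖(map T)^[k + n] z‖ := by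
    intro k
    induction k with
    | zero => simpa using hn
    | succ k ih =>
      have h2 : R ≤ ‖(map T)^[k + n] z‖ := by
        refine le_trans ?_ ih
        have : (1:ℝ) ≤ 2 ^ k := one_le_pow₀ (by norm_num)
        nlinarith
      have h3 := h _ h2
      have h4 : (map T)^[k + 1 + n] z = T.eval ((map T)^[k + n] z) := by
        rw [show k + 1 + n = (k + n) + 1 by ring, Function.iterate_succ_apply']
        rfl
      rw [h4, pow_succ]
      linarith
  have h2 : Tendsto (fun k : ℕ => (2:ℝ) ^ k * R) atTop atTop :=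
    (tendsto_pow_atTop_atTop_of_one_lt (by norm_num)).atTop_mul_const (by linarith)
  have h3 : Tendsto (fun k : ℕ => ‖(map T)^[k + n] z‖) atTop atTop :=
    tendsto_atTop_mono h1 h2
  exact (tendsto_add_atTop_iff_nat n).1 h3

/-- the area bound in a disc -/
lemma area_disc {T : ℂ[X]} (hd : 2 ≤ T.natDegree) (z : ℂ) (r : ℝ) :
    volume {t : ℂ | ‖t‖ ≤ r ∧ ¬ Escapes (T + C t) z} ≤
      ENNReal.ofReal (Real.pi * ‖T.leadingCoeff‖ ^ (-(2:ℝ) / ((T.natDegree : ℝ) - 1))) := by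
  obtain ⟨R, hR1, hR⟩ := escape_radius hd r
  set d := T.natDegree with hdd
  have hdR : (2:ℝ) ≤ d := by exact_mod_cast hd
  have hT0 : T ≠ 0 := by rintro rfl; simp at hdd; omega
  set α := ‖T.leadingCoeff‖ with hα
  have hα0 : 0 < α := norm_pos_iff.2 (leadingCoeff_ne_zero.2 hT0)
  have hR0 : 0 < R := by linarith
  have hbd : ∀ n : ℕ, volume {t : ℂ | ‖t‖ ≤ r ∧ ¬ Escapes (T + C t) z} ≤
      ENNReal.ofReal (Real.pi * (R / α ^ ex d n) ^ (2 / ((d ^ n : ℕ) : ℝ))) := by
    intro n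
    obtain ⟨h1, h2⟩ := it_deg hd z n
    set p := it T z (n + 1) with hp
    have hl0 : p.leadingCoeff ≠ 0 := by
      rw [h2]; exact pow_ne_zero _ (leadingCoeff_ne_zero.2 hT0)
    set q := C (p.leadingCoeff⁻¹) * p with hq
    have hqm : q.Monic := by
      rw [hq, Monic, leadingCoeff_mul, leadingCoeff_C, inv_mul_cancel₀ hl0]
    have hqd : q.natDegree = d ^ n := by
      rw [hq, natDegree_C_mul (inv_ne_zero hl0), h1]
    have h3 := Pool.Agent.X116.PA.polya hqm (by rw [hqd]; exact Nat.one_le_pow _ _ (by omega))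
      (R := R / α ^ ex d n) (by positivity)
    rw [hqd] at h3
    refine (measure_mono ?_).trans h3
    rintro t ⟨ht, hesc⟩
    show ‖q.eval t‖ ≤ R / α ^ ex d n
    rw [hq, eval_mul, eval_C, norm_mul, norm_inv, h2, norm_pow, ← hα, it_eval, inv_mul_eq_div]
    have h4 : ‖(map (T + C t))^[n + 1] z‖ ≤ R := by
      by_contra hcon
      rw [not_le] at hcon
      apply hesc
      refine escapes_of hR1 (fun w hw => ?_) hcon.le
      simpa using hR t ht w hw
    gcongr
  have hlim : Tendsto (fun n : ℕ => ENNReal.ofReal (Real.pi * (R / α ^ ex d n) ^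
      (2 / ((d ^ n : ℕ) : ℝ)))) atTop
      (𝓝 (ENNReal.ofReal (Real.pi * α ^ (-(2:ℝ) / ((d : ℝ) - 1))))) := by
    apply ENNReal.tendsto_ofReal
    apply Tendsto.const_mul
    have e1 : ∀ n : ℕ, (R / α ^ ex d n) ^ (2 / ((d ^ n : ℕ) : ℝ))
        = R ^ (2 / (d:ℝ) ^ n) * α ^ (-(2:ℝ) / ((d : ℝ) - 1) * (1 - 1 / (d:ℝ) ^ n)) := by
      intro n
      have hdn : (0:ℝ) < (d:ℝ) ^ n := by positivity
      rw [Real.div_rpow hR0.le (by positivity), ← Real.rpow_natCast, ← Real.rpow_mul hα0.le]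
      push_cast
      rw [div_eq_mul_inv, ← Real.rpow_neg hα0.le]
      congr 2
      have h5 := ex_eq d n
      have h6 : (0:ℝ) < (d:ℝ) - 1 := by linarith
      have h7 : (ex d n : ℝ) = ((d : ℝ) ^ n - 1) / ((d:ℝ) - 1) := by
        rw [eq_div_iff h6.ne']; linarith
      rw [h7]
      field_simp
      try ring
    simp_rw [e1]
    have hz : Tendsto (fun n : ℕ => 1 / (d:ℝ) ^ n) atTop (𝓝 0) := by
      have := tendsto_pow_atTop_nhds_zero_of_lt_one (r := 1 / (d:ℝ)) (by positivity)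
        (by rw [div_lt_one (by linarith)]; linarith)
      refine this.congr fun n => ?_
      rw [one_div_pow]
    have h8 : Tendsto (fun n : ℕ => R ^ (2 / (d:ℝ) ^ n)) atTop (𝓝 1) := by
      have h9 : Tendsto (fun n : ℕ => 2 / (d:ℝ) ^ n) atTop (𝓝 0) := by
        have := hz.const_mul 2
        rw [mul_zero] at this
        exact this.congr fun n => by rw [mul_one_div]
      have h10 := (Real.continuousAt_const_rpow (a := R) (b := 0) hR0.ne').tendsto.comp h9
      rw [Real.rpow_zero] at h10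
      exact h10
    have h11 : Tendsto (fun n : ℕ => α ^ (-(2:ℝ) / ((d : ℝ) - 1) * (1 - 1 / (d:ℝ) ^ n))) atTop
        (𝓝 (α ^ (-(2:ℝ) / ((d : ℝ) - 1)))) := by
      have h12 : Tendsto (fun n : ℕ => -(2:ℝ) / ((d : ℝ) - 1) * (1 - 1 / (d:ℝ) ^ n)) atTop
          (𝓝 (-(2:ℝ) / ((d : ℝ) - 1))) := by
        have := (tendsto_const_nhds (x := (1:ℝ)).sub hz).const_mul (-(2:ℝ) / ((d : ℝ) - 1))
        simpa using this
      exact (Real.continuousAt_const_rpow hα0.ne').tendsto.comp h12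
    simpa using h8.mul h11
  exact ge_of_tendsto' hlim hbd

/-- the area bound -/
theorem area {T : ℂ[X]} (hd : 2 ≤ T.natDegree) (z : ℂ) :
    volume {t : ℂ | ¬ Escapes (T + C t) z} ≤
      ENNReal.ofReal (Real.pi * ‖T.leadingCoeff‖ ^ (-(2:ℝ) / ((T.natDegree : ℝ) - 1))) := by
  have h1 : {t : ℂ | ¬ Escapes (T + C t) z}
      = ⋃ k : ℕ, {t : ℂ | ‖t‖ ≤ k ∧ ¬ Escapes (T + C t) z} := by
    ext t
    simp only [mem_iUnion, mem_ofPred_eq]
    constructor
    · intro h
      obtain ⟨k, hk⟩ := exists_nat_ge ‖t‖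
      exact ⟨k, hk, h⟩
    · rintro ⟨k, -, h⟩
      exact h
  have hmono : Monotone fun k : ℕ => {t : ℂ | ‖t‖ ≤ k ∧ ¬ Escapes (T + C t) z} := by
    intro a b hab t ht
    exact ⟨ht.1.trans (by exact_mod_cast hab), ht.2⟩
  rw [h1, hmono.measure_iUnion]
  exact iSup_le fun k => area_disc hd z k

/-- critical values -/
def critValues (T : ℂ[X]) : Set ℂ := {v | ∃ c : ℂ, (derivative T).eval c = 0 ∧ T.eval c = v}

/-- all critical points escape -/
def ShiftLocus (T : ℂ[X]) : Prop := ∀ c : ℂ, (derivative T).eval c = 0 → Escapes T c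

lemma der_ne {T : ℂ[X]} (hd : 2 ≤ T.natDegree) : derivative T ≠ 0 := by
  intro h
  have := derivative_eq_zero.1 h
  omega

lemma critValues_eq {T : ℂ[X]} (hd : 2 ≤ T.natDegree) :
    critValues T = ((derivative T).roots.toFinset.image fun c => T.eval c : Finset ℂ) := by
  ext v
  simp only [critValues, mem_ofPred_eq, Finset.coe_image, mem_image, Finset.mem_coe,
    Multiset.mem_toFinset, mem_roots (der_ne hd), IsRoot.def]

lemma critValues_card {T : ℂ[X]} (hd : 2 ≤ T.natDegree) :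
    (critValues T).ncard ≤ T.natDegree - 1 := by
  rw [critValues_eq hd, ncard_coe_finset]
  refine Finset.card_image_le.trans ?_
  refine (Multiset.toFinset_card_le _).trans ?_
  refine (card_roots' _).trans ?_
  exact natDegree_derivative_le T

lemma escapes_congr {T : ℂ[X]} {c c' : ℂ} (h : T.eval c = T.eval c') (t : ℂ) :
    Escapes (T + C t) c ↔ Escapes (T + C t) c' := by
  have h1 : ∀ k : ℕ, (map (T + C t))^[k + 1] c = (map (T + C t))^[k + 1] c' := by
    intro k
    rw [Function.iterate_succ_apply, Function.iterate_succ_apply]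
    congr 1
    simp [map, h]
  unfold Escapes
  rw [← tendsto_add_atTop_iff_nat 1, ← tendsto_add_atTop_iff_nat (f := fun k : ℕ =>
    ‖(map (T + C t))^[k] c'‖) 1]
  simp only [h1]

theorem area_shift {T : ℂ[X]} (hd : 2 ≤ T.natDegree) :
    volume {t : ℂ | ¬ ShiftLocus (T + C t)} ≤ ENNReal.ofReal ((critValues T).ncard *
      (Real.pi * ‖T.leadingCoeff‖ ^ (-(2:ℝ) / ((T.natDegree : ℝ) - 1)))) := by
  set V : Finset ℂ := (derivative T).roots.toFinset.image fun c => T.eval c with hV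
  have hVm : ∀ v ∈ V, ∃ c : ℂ, (derivative T).eval c = 0 ∧ T.eval c = v := by
    intro v hv
    have : v ∈ critValues T := by rw [critValues_eq hd]; exact hv
    exact this
  have hsub : {t : ℂ | ¬ ShiftLocus (T + C t)} ⊆ ⋃ v ∈ V, {t : ℂ | ∃ c : ℂ,
      (derivative T).eval c = 0 ∧ T.eval c = v ∧ ¬ Escapes (T + C t) c} := by
    intro t ht
    simp only [mem_ofPred_eq, ShiftLocus, not_forall] at ht
    obtain ⟨c, hc, hesc⟩ := ht
    have hc' : (derivative T).eval c = 0 := by simpa using hc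
    simp only [mem_iUnion, mem_ofPred_eq]
    refine ⟨T.eval c, ?_, c, hc', rfl, hesc⟩
    have : T.eval c ∈ critValues T := ⟨c, hc', rfl⟩
    rw [critValues_eq hd] at this
    exact this
  refine (measure_mono hsub).trans ((measure_biUnion_finset_le V _).trans ?_)
  have h1 : ∀ v ∈ V, volume {t : ℂ | ∃ c : ℂ,
      (derivative T).eval c = 0 ∧ T.eval c = v ∧ ¬ Escapes (T + C t) c} ≤
      ENNReal.ofReal (Real.pi * ‖T.leadingCoeff‖ ^ (-(2:ℝ) / ((T.natDegree : ℝ) - 1))) := by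
    intro v hv
    obtain ⟨c0, -, hc0⟩ := hVm v hv
    refine (measure_mono ?_).trans (area hd c0)
    rintro t ⟨c, -, hc, hesc⟩
    exact fun h => hesc ((escapes_congr (hc0.trans hc.symm) t).1 h)
  refine (Finset.sum_le_card_nsmul V _ _ h1).trans ?_
  rw [critValues_eq hd, ncard_coe_finset, nsmul_eq_mul,
    ENNReal.ofReal_mul (p := ((Finset.card (Finset.image (fun c => eval c T)
      (derivative T).roots.toFinset) : ℕ) : ℝ)) (Nat.cast_nonneg _), ENNReal.ofReal_natCast]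

theorem exists_near {T : ℂ[X]} (hd : 2 ≤ T.natDegree) {ρ : ℝ} (hρ0 : 0 < ρ)
    (hρ : (critValues T).ncard * ‖T.leadingCoeff‖ ^ (-(2:ℝ) / ((T.natDegree : ℝ) - 1)) < ρ ^ 2) :
    ∃ t : ℂ, ‖t‖ < ρ ∧ ShiftLocus (T + C t) := by
  by_contra hcon
  push Not at hcon
  have hsub : Metric.ball (0:ℂ) ρ ⊆ {t : ℂ | ¬ ShiftLocus (T + C t)} := by
    intro t ht
    rw [mem_ball_zero_iff] at ht
    exact hcon t ht
  have h1 := (measure_mono hsub).trans (area_shift hd)
  rw [Complex.volume_ball] at h1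
  have h2 : (ENNReal.ofReal ρ) ^ 2 * NNReal.pi = ENNReal.ofReal (ρ ^ 2 * Real.pi) := by
    rw [ENNReal.ofReal_mul (by positivity), ENNReal.ofReal_pow hρ0.le]
    congr 1
    rw [← NNReal.coe_real_pi, ENNReal.ofReal_coe_nnreal]
  rw [h2, ENNReal.ofReal_le_ofReal_iff (by positivity)] at h1
  have := Real.pi_pos
  nlinarith

lemma conj_iter (T : ℂ[X]) (t z : ℂ) (k : ℕ) :
    (map (T.comp (X + C t)))^[k] z + t = (map (T + C t))^[k] (z + t) := by
  induction k with
  | zero => simp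
  | succ k ih =>
    rw [Function.iterate_succ_apply', Function.iterate_succ_apply', ← ih]
    simp [map, eval_comp]

lemma shift_comp {T : ℂ[X]} {t : ℂ} (h : ShiftLocus (T + C t)) :
    ShiftLocus (T.comp (X + C t)) := by
  intro c hc
  have hc' : (derivative (T + C t)).eval (c + t) = 0 := by
    rw [derivative_comp] at hc
    simpa [eval_comp] using hc
  have h1 := h _ hc'
  unfold Escapes at h1 ⊢
  have h2 : Tendsto (fun k : ℕ => ‖(map (T + C t))^[k] (c + t)‖ - ‖t‖) atTop atTop :=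
    tendsto_atTop_add_const_right _ _ h1
  refine tendsto_atTop_mono (fun k => ?_) h2
  rw [← conj_iter]
  have := norm_add_le ((map (T.comp (X + C t)))^[k] c) t
  linarith

lemma multibrot_disc {d : ℕ} (hd : 2 ≤ d) {t : ℂ}
    (ht : ‖t‖ ≤ (1 - 1 / (d:ℝ)) * (d:ℝ) ^ (-(1:ℝ) / ((d:ℝ) - 1))) :
    ¬ Escapes (X ^ d + C t) 0 := by
  have hdR : (2:ℝ) ≤ d := by exact_mod_cast hd
  set ρ : ℝ := (d:ℝ) ^ (-(1:ℝ) / ((d:ℝ) - 1)) with hρ
  have hρ0 : 0 < ρ := by positivity
  have hρd : ρ ^ (d - 1) = 1 / d := by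
    rw [hρ, ← Real.rpow_natCast, ← Real.rpow_mul (by positivity)]
    rw [Nat.cast_sub (by omega), Nat.cast_one, div_mul_cancel₀ _ (by linarith), Real.rpow_neg_one,
      one_div]
  have h1 : ∀ k : ℕ, ‖(map (X ^ d + C t))^[k] 0‖ ≤ ρ := by
    intro k
    induction k with
    | zero => simpa using hρ0.le
    | succ k ih =>
      rw [Function.iterate_succ_apply']
      set y := (map (X ^ d + C t))^[k] 0 with hy
      have h2 : map (X ^ d + C t) y = y ^ d + t := by simp [map]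
      rw [h2]
      have h3 : ‖y‖ ^ d ≤ ρ ^ d := by gcongr
      have h4 : ρ ^ d = ρ / d := by
        obtain ⟨m, rfl⟩ : ∃ m, d = m + 1 := ⟨d - 1, by omega⟩
        rw [pow_succ]
        simp only [Nat.add_sub_cancel] at hρd
        rw [hρd]; ring
      calc ‖y ^ d + t‖ ≤ ‖y ^ d‖ + ‖t‖ := norm_add_le _ _
        _ ≤ ρ / d + (1 - 1 / (d:ℝ)) * ρ := by rw [norm_pow, ← h4]; gcongr
        _ = ρ := by field_simp; ring
  intro hesc
  obtain ⟨k, hk⟩ := (hesc.eventually_gt_atTop ρ).exists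
  exact absurd (h1 k) (not_le.2 hk)

end Pool.Agent.X116.SD
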