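import Pool.Agent.X184.SS.Stm

set_option autoImplicit false

namespace Pool.Agent.X116.SsBd

open Finset Pool.Agent.X184.SS

lemma m_pos (k : ℕ) : 0 < m k := by unfold m; positivity

lemma m_succ (k : ℕ) : m (k + 1) = (m k) ^ 4 := by
  unfold m
  rw [← pow_mul, ← pow_succ]

lemma m_ge (k : ℕ) : 16 ≤ m k := by
  induction k with
  | zero => unfold m; norm_num
  | succ k ih =>
    rw [m_succ]
    calc 16 ≤ m k := ih
      _ ≤ (m k) ^ 4 := Nat.le_self_pow (by norm_num) _

lemma m_gap (k : ℕ) : 2 * m k + 1 < m (k + 1) := by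
  rw [m_succ]
  have h := m_ge k
  nlinarith [Nat.mul_le_mul h h, Nat.mul_le_mul (Nat.mul_le_mul h h) (Nat.mul_le_mul h h), sq_nonneg (m k),
    pow_le_pow_right₀ (show 1 ≤ m k by omega) (show 2 ≤ 4 by norm_num)]

lemma m_strict : StrictMono m := strictMono_nat_of_lt_succ fun k => by have := m_gap k; omega

lemma m_gap' {k l : ℕ} (h : k < l) : 2 * m k + 1 < m l :=
  (m_gap k).trans_le (m_strict.monotone h)

lemma m_pow (k : ℕ) : 2 ^ (k + 1) ≤ m k := by
  unfold m
  apply Nat.pow_le_pow_right (by norm_num)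
  have : k + 1 < 4 ^ (k + 1) := Nat.lt_pow_self (by norm_num)
  omega

lemma mem_A {j k : ℕ} : j ∈ A k ↔ m k ≤ j ∧ j ≤ 2 * m k := by
  unfold A; rw [mem_Ico]; omega

lemma A_unique {j k l : ℕ} (h1 : j ∈ A k) (h2 : j ∈ A l) : k = l := by
  rw [mem_A] at h1 h2
  by_contra hne
  rcases lt_or_gt_of_ne hne with h | h
  · have := m_gap' h; omega
  · have := m_gap' h; omega

lemma k_le {j k : ℕ} (h : j ∈ A k) : k ≤ j := by
  rw [mem_A] at h
  have := m_pow k
  have h2 : k + 1 < 2 ^ (k + 1) := Nat.lt_two_pow_self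
  omega

lemma Tv_mem (x : ℕ → ℝ) {j k : ℕ} (h : j ∈ A k) : Tv x j = x (m k) / (m k + 1) := by
  unfold Tv
  rw [Finset.sum_eq_single k]
  · rw [if_pos h]
  · intro l _ hl
    rw [if_neg]
    intro h2
    exact hl (A_unique h2 h)
  · intro hk
    exfalso; apply hk
    rw [mem_range]
    have := k_le h
    omega

lemma Tv_not (x : ℕ → ℝ) {j : ℕ} (h : ∀ k, j ∉ A k) : Tv x j = 0 := by
  unfold Tv
  apply Finset.sum_eq_zero
  intro k _
  rw [if_neg (h k)]

lemma single (hU : S_UNI) (n a : ℕ) : ({a} : Finset ℕ) ∈ Sch n := by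
  induction n with
  | zero => simp [Sch]
  | succ n ih =>
    have := hU n 1 (fun _ => {a}) (fun _ => ih) (fun i j hij => by
      have := Subsingleton.elim i j; omega) (fun i b hb => by omega)
    simpa using this

/-- the selected set `{m k | k ∈ K}` without its minimum is in `S_n` -/
lemma K_bound (hH : ∀ (n : ℕ) (F G : Finset ℕ), F ∈ Sch n → G ⊆ F → G ∈ Sch n) (hS : S_SPR)
    (n : ℕ) (R : Finset ℕ) (hR : R ∈ Sch n) (K : Finset ℕ) (hK : ∀ k ∈ K, ∃ h ∈ R, h ∈ A k)
    (k₀ : ℕ) (hk₀ : ∀ k ∈ K, k₀ ≤ k) (hk₀' : k₀ ∈ K) :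
    (K.erase k₀).image m ∈ Sch n := by
  classical
  choose! g hg using hK
  set R₁ : Finset ℕ := (K.image g).filter (fun h => ∃ k ∈ K, h < m k) with hR₁
  set f : ℕ → ℕ := fun j => sInf {v | (∃ k ∈ K, v = m k) ∧ j < v} with hf
  have hfin : ∀ h ∈ R₁, (∃ k ∈ K, f h = m k) ∧ h < f h := by
    intro h hh
    rw [hR₁, mem_filter] at hh
    obtain ⟨k, hk, hkm⟩ := hh.2
    exact Nat.sInf_mem (s := {v | (∃ k ∈ K, v = m k) ∧ h < v}) ⟨m k, ⟨k, hk, rfl⟩, hkm⟩
  have hfle : ∀ h, ∀ k ∈ K, h < m k → f h ≤ m k := by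
    intro h k hk hkm
    exact Nat.sInf_le ⟨⟨k, hk, rfl⟩, hkm⟩
  have hR₁n : R₁ ∈ Sch n := by
    apply hH n R R₁ hR
    intro h hh
    rw [hR₁, mem_filter, mem_image] at hh
    obtain ⟨⟨k, hk, rfl⟩, _⟩ := hh
    exact (hg k hk).1
  have hmono : StrictMonoOn f (R₁ : Set ℕ) := by
    intro a ha b hb hab
    have ha' := ha
    have hb' := hb
    rw [mem_coe, hR₁, mem_filter, mem_image] at ha' hb'
    obtain ⟨⟨k, hk, rfl⟩, _⟩ := ha'
    obtain ⟨⟨l, hl, rfl⟩, _⟩ := hb'
    have h1 := mem_A.1 (hg k hk).2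
    have h2 := mem_A.1 (hg l hl).2
    have hkl : k < l := by
      by_contra hc
      push Not at hc
      rcases hc.lt_or_eq with h | h
      · have := m_gap' h; omega
      · subst h; omega
    have h3 := m_gap' hkl
    have h4 := hfle (g k) l hl (by omega)
    have h5 := (hfin (g l) hb).2
    omega
  have him := hS n R₁ f hR₁n hmono (fun a ha => (hfin a ha).2.le)
  apply hH n _ _ him
  intro v hv
  rw [mem_image] at hv
  obtain ⟨l, hl, rfl⟩ := hv
  rw [mem_erase] at hl
  -- the predecessor of `l`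
  have hne : (K.filter (· < l)).Nonempty := ⟨k₀, by
    rw [mem_filter]; exact ⟨hk₀', lt_of_le_of_ne (hk₀ l hl.2) (Ne.symm hl.1)⟩⟩
  set k := (K.filter (· < l)).max' hne with hk
  have hkm := Finset.max'_mem _ hne
  rw [← hk, mem_filter] at hkm
  have h1 := mem_A.1 (hg k hkm.1).2
  have h2 := m_gap' hkm.2
  rw [mem_image]
  have hgR : g k ∈ R₁ := by
    rw [hR₁, mem_filter, mem_image]
    exact ⟨⟨k, hkm.1, rfl⟩, l, hl.2, by omega⟩
  refine ⟨g k, hgR, ?_⟩
  obtain ⟨⟨k', hk', hk'2⟩, hlt⟩ := hfin (g k) hgR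
  have h3 := hfle (g k) l hl.2 (by omega)
  rw [hk'2] at h3 hlt ⊢
  have h4 : k < k' := by
    by_contra hc
    push Not at hc
    have := m_strict.monotone hc
    omega
  have h5 : k' ≤ l := m_strict.le_iff_le.1 h3
  rcases h5.lt_or_eq with h | h
  · have : k' ≤ k := by
      rw [hk]
      apply Finset.le_max'
      rw [mem_filter]; exact ⟨hk', h⟩
    omega
  · rw [h]

lemma card_A (k : ℕ) : (A k).card = m k + 1 := by
  unfold A; rw [Nat.card_Ico]; omega

lemma arith (k : ℕ) : (2 * m k + 1) ^ 2 * 2 ^ (k + 1) ≤ m (k + 1) + 1 := by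
  rw [m_succ]
  have h := m_ge k
  have h2 := m_pow k
  set M := m k
  calc (2 * M + 1) ^ 2 * 2 ^ (k + 1) ≤ (2 * M + 1) ^ 2 * M := Nat.mul_le_mul_left _ h2
    _ ≤ (5 * M ^ 2) * M := Nat.mul_le_mul_right _ (by nlinarith)
    _ ≤ M ^ 4 + 1 := by
      have : 5 * M ^ 3 ≤ M * M ^ 3 := Nat.mul_le_mul_right _ (by omega)
      nlinarith

theorem t_BD : S_BD := by
  classical
  intro hU hH hS hD n x C hC F₀ hF₀
  have hCx : ∀ a, |x a| ≤ C := by
    intro a
    have := hC {a} (single hU n a)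
    simpa using this
  have hC0 : 0 ≤ C := (abs_nonneg _).trans (hCx 0)
  set F := F₀.filter (fun j => ∃ k, j ∈ A k) with hF
  have hFn : F ∈ Sch (n + 1) := hH (n + 1) F₀ F hF₀ (filter_subset _ _)
  have e1 : ∑ j ∈ F₀, |Tv x j| = ∑ j ∈ F, |Tv x j| := by
    rw [hF, sum_filter]
    apply sum_congr rfl
    intro j _
    split_ifs with h
    · rfl
    · rw [Tv_not x (fun k hk => h ⟨k, hk⟩), abs_zero]
  rw [e1]
  obtain ⟨R, hR, H, hFH, hHp⟩ := hD n F hFn
  have hRF : ∀ h ∈ R, h ∈ F := fun h hh => by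
    rw [hFH, mem_biUnion]; exact ⟨h, hh, (hHp h hh).1⟩
  have hFA : ∀ j ∈ F, ∃ k, j ∈ A k := by
    intro j hj
    rw [hF, mem_filter] at hj
    exact hj.2
  -- a bound for the indices
  set N : ℕ := F.sup id + 1 with hN
  have hNle : ∀ j ∈ F, ∀ k, j ∈ A k → k < N := by
    intro j hj k hk
    have h1 := k_le hk
    have h2 : j ≤ F.sup id := Finset.le_sup (f := id) hj
    omega
  have e2 : ∑ j ∈ F, |Tv x j| = ∑ k ∈ range N, ∑ j ∈ F.filter (fun j => j ∈ A k), |Tv x j| := by
    have hu : F = (range N).biUnion (fun k => F.filter (fun j => j ∈ A k)) := by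
      ext j
      rw [mem_biUnion]
      constructor
      · intro hj
        obtain ⟨k, hk⟩ := hFA j hj
        exact ⟨k, mem_range.2 (hNle j hj k hk), mem_filter.2 ⟨hj, hk⟩⟩
      · rintro ⟨k, _, hk⟩
        exact (mem_filter.1 hk).1
    conv_lhs => rw [hu]
    rw [sum_biUnion]
    intro k _ l _ hkl
    rw [Function.onFun, Finset.disjoint_left]
    intro j hj hj'
    exact hkl (A_unique (mem_filter.1 hj).2 (mem_filter.1 hj').2)
  set t : ℕ → ℝ := fun k => ∑ j ∈ F.filter (fun j => j ∈ A k), |Tv x j| with ht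
  have ht' : ∀ k, t k = ((F.filter (fun j => j ∈ A k)).card : ℝ) * (|x (m k)| / (m k + 1)) := by
    intro k
    rw [ht]
    simp only
    rw [sum_congr rfl (fun j hj => by
      rw [Tv_mem x (mem_filter.1 hj).2, abs_div, abs_of_nonneg (show (0:ℝ) ≤ m k + 1 by positivity)]),
      sum_const, nsmul_eq_mul]
  set K : Finset ℕ := (range N).filter (fun k => ∃ h ∈ R, h ∈ A k) with hK
  have b1 : ∀ k ∈ K, t k ≤ |x (m k)| := by
    intro k _
    rw [ht', mul_div_assoc', div_le_iff₀ (by positivity), mul_comm]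
    apply mul_le_mul_of_nonneg_left _ (abs_nonneg _)
    have : (F.filter (fun j => j ∈ A k)).card ≤ (A k).card := card_le_card (fun j hj => (mem_filter.1 hj).2)
    rw [card_A] at this
    exact_mod_cast this
  have b2 : ∀ k ∈ (range N).filter (fun k => ¬ ∃ h ∈ R, h ∈ A k), t k ≤ C * (1 / 2) ^ (k + 1) * 2 * (if k = 0 then 0 else 1) := by
    intro k hk
    rw [mem_filter] at hk
    have hsub : ∀ j ∈ F.filter (fun j => j ∈ A k), ∃ h ∈ R, j ∈ H h ∧ ∃ k' < k, h ≤ 2 * m k' := by
      intro j hj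
      rw [mem_filter] at hj
      have hj1 := hj.1
      rw [hFH, mem_biUnion] at hj1
      obtain ⟨h, hh, hjh⟩ := hj1
      obtain ⟨k', hk'⟩ := hFA h (hRF h hh)
      refine ⟨h, hh, hjh, k', ?_, (mem_A.1 hk').2⟩
      have h1 := (hHp h hh).2.1 j hjh
      have h2 := mem_A.1 hj.2
      have h3 := mem_A.1 hk'
      by_contra hc
      push Not at hc
      rcases hc.lt_or_eq with h | h
      · have := m_gap' h; omega
      · subst h; exact hk.2 ⟨_, hh, hk'⟩
    cases k with
    | zero =>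
      have : F.filter (fun j => j ∈ A 0) = ∅ := by
        rw [Finset.eq_empty_iff_forall_notMem]
        intro j hj
        obtain ⟨_, _, _, k', hk', _⟩ := hsub j hj
        omega
      rw [ht', this]; simp
    | succ k =>
      have hcard : (F.filter (fun j => j ∈ A (k + 1))).card ≤ (2 * m k + 1) ^ 2 := by
        have hs : F.filter (fun j => j ∈ A (k + 1)) ⊆ (R.filter (fun h => h < 2 * m k + 1)).biUnion H := by
          intro j hj
          obtain ⟨h, hh, hjh, k', hk', hle⟩ := hsub j hj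
          rw [mem_biUnion]
          refine ⟨h, mem_filter.2 ⟨hh, ?_⟩, hjh⟩
          have := m_strict.monotone (show k' ≤ k by omega)
          omega
        refine (card_le_card hs).trans (card_biUnion_le.trans ?_)
        have h1 : ∀ h ∈ R.filter (fun h => h < 2 * m k + 1), (H h).card ≤ 2 * m k + 1 := by
          intro h hh
          rw [mem_filter] at hh
          have := (hHp h hh.1).2.2
          omega
        refine (sum_le_sum h1).trans ?_
        rw [sum_const, smul_eq_mul, sq]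
        apply Nat.mul_le_mul_right
        calc (R.filter (fun h => h < 2 * m k + 1)).card ≤ (range (2 * m k + 1)).card :=
              card_le_card (fun h hh => mem_range.2 (mem_filter.1 hh).2)
          _ = _ := card_range _
      rw [ht']
      simp only [Nat.succ_ne_zero, if_false, mul_one, Nat.add_eq_zero_iff, one_ne_zero, and_false]
      have ha := arith k
      have hx := hCx (m (k + 1))
      have hc1 : ((F.filter (fun j => j ∈ A (k + 1))).card : ℝ) * 2 ^ (k + 1) ≤ m (k + 1) + 1 := by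
        have : (F.filter (fun j => j ∈ A (k + 1))).card * 2 ^ (k + 1) ≤ m (k + 1) + 1 :=
          (Nat.mul_le_mul_right _ hcard).trans ha
        exact_mod_cast this
      have hpos : (0:ℝ) < m (k + 1) + 1 := by positivity
      calc ((F.filter (fun j => j ∈ A (k + 1))).card : ℝ) * (|x (m (k + 1))| / (m (k + 1) + 1))
          ≤ ((m (k + 1) + 1) / 2 ^ (k + 1)) * (C / (m (k + 1) + 1)) := by
            apply mul_le_mul
            · rw [le_div_iff₀ (by positivity)]; exact hc1
            · gcongr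
            · positivity
            · positivity
        _ = C * (1 / 2) ^ (k + 1 + 1) * 2 := by
            rw [one_div, inv_pow, pow_succ (2:ℝ) (k + 1)]
            field_simp
  rw [e2, ← Finset.sum_filter_add_sum_filter_not (range N) (fun k => ∃ h ∈ R, h ∈ A k)]
  have s2 : ∑ k ∈ (range N).filter (fun k => ¬ ∃ h ∈ R, h ∈ A k), t k ≤ C := by
    refine (sum_le_sum b2).trans ?_
    have h1 : ∀ N : ℕ, ∑ k ∈ range N, C * (1 / 2) ^ (k + 1) * 2 * (if k = 0 then 0 else 1) ≤ C * (1 - (1/2) ^ N * (if N = 0 then 1 else 2)) := by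
      intro N
      induction N with
      | zero => simp
      | succ N ih =>
        rw [sum_range_succ]
        rcases Nat.eq_zero_or_pos N with h | h
        · subst h; simp
        · simp only [h.ne', if_false, Nat.succ_ne_zero, Nat.add_eq_zero_iff, one_ne_zero, and_false] at ih ⊢
          have : C * (1 - (1/2:ℝ) ^ (N+1) * 2) = C * (1 - (1/2) ^ N * 2) + C * (1/2) ^ (N+1) * 2 := by ring
          linarith
    have h2 : ∑ k ∈ (range N).filter (fun k => ¬ ∃ h ∈ R, h ∈ A k), C * (1 / 2) ^ (k + 1) * 2 * (if k = 0 then (0:ℝ) else 1)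
        ≤ ∑ k ∈ range N, C * (1 / 2) ^ (k + 1) * 2 * (if k = 0 then (0:ℝ) else 1) := by
      apply sum_le_sum_of_subset_of_nonneg (filter_subset _ _)
      intro k _ _
      split_ifs <;> positivity
    refine h2.trans ((h1 N).trans ?_)
    have h3 : 0 ≤ (1/2:ℝ) ^ N * (if N = 0 then 1 else 2) := by split_ifs <;> positivity
    have h4 := mul_nonneg hC0 h3
    rw [mul_sub, mul_one]
    linarith
  have s1 : ∑ k ∈ (range N).filter (fun k => ∃ h ∈ R, h ∈ A k), t k ≤ 2 * C := by
    refine (sum_le_sum b1).trans ?_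
    rcases K.eq_empty_or_nonempty with he | hne
    · rw [he]; simp; exact hC0
    · have hm := K.min'_mem hne
      rw [← Finset.add_sum_erase K _ hm]
      have hk := K_bound hH hS n R hR K (fun k hk => (mem_filter.1 hk).2) (K.min' hne)
        (fun k hk => K.min'_le k hk) hm
      have := hC _ hk
      rw [sum_image (fun a _ b _ h => m_strict.injective h)] at this
      have := hCx (m (K.min' hne))
      linarith
  linarith

end Pool.Agent.X116.SsBd
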