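import Mathlib
import Pool.Agent.Helper777.PP.P_carlson

/-!
# Zero products of Toeplitz operators on polyanalytic Bergman spaces: moments on the disc
-/

set_option autoImplicit false

namespace Pool.Agent.X116.Tz

open MeasureTheory Filter Topology
open scoped ComplexConjugate

/-- Normalised area measure on the unit disc. -/
noncomputable def dA : Measure ℂ :=
  (ENNReal.ofReal (Real.pi⁻¹)) • (volume.restrict (Metric.ball (0 : ℂ) 1))

instance : IsFiniteMeasure dA := by
  unfold dA
  have : IsFiniteMeasure (volume.restrict (Metric.ball (0 : ℂ) 1)) :=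
    ⟨by rw [Measure.restrict_apply_univ]; exact measure_ball_lt_top⟩
  exact Measure.smul_finite _ ENNReal.ofReal_ne_top

theorem dA_ac : dA ≪ volume := by
  unfold dA
  exact (Measure.smul_absolutelyContinuous).trans Measure.absolutelyContinuous_restrict

theorem ae_lt : ∀ᵐ z ∂dA, ‖z‖ < 1 := by
  have h : ∀ᵐ z ∂(volume.restrict (Metric.ball (0 : ℂ) 1)), ‖z‖ < 1 := by
    filter_upwards [ae_restrict_mem measurableSet_ball] with z hz
    simpa using hz
  exact Measure.smul_absolutelyContinuous.ae_le h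

theorem ae_norm_ne (r : ℝ) : ∀ᵐ z ∂dA, ‖z‖ ≠ r := by
  have h0 : ∀ᵐ z ∂(volume : Measure ℂ), ‖z‖ ≠ r := by
    rw [ae_iff]
    have h := Measure.addHaar_sphere (volume : Measure ℂ) (0 : ℂ) r
    convert h using 2
    ext z
    simp
  exact dA_ac.ae_le h0

theorem ae_ne : ∀ᵐ z ∂dA, z ≠ 0 := by
  filter_upwards [ae_norm_ne 0] with z hz h
  exact hz (by simp [h])

theorem mp_rot (u : ℂ) (hu : ‖u‖ = 1) : MeasurePreserving (fun z => u * z) dA dA := by
  have h1 : MeasurePreserving (fun z : ℂ => u * z) volume volume :=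
    (rotation (⟨u, by simp [Submonoid.unitSphere, hu]⟩ : Circle)).measurePreserving
  have h2 := (h1.restrict_preimage (s := Metric.ball (0 : ℂ) 1) measurableSet_ball)
  have h3 : (fun z : ℂ => u * z) ⁻¹' Metric.ball (0 : ℂ) 1 = Metric.ball (0 : ℂ) 1 := by
    ext z
    simp [hu]
  rw [h3] at h2
  exact h2.smul_measure (ENNReal.ofReal (Real.pi⁻¹))

theorem emb_rot (u : ℂ) (hu : ‖u‖ = 1) : MeasurableEmbedding (fun z : ℂ => u * z) := by
  have hu0 : u ≠ 0 := by
    intro h
    rw [h] at hu
    simp at hu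
  exact (Homeomorph.mulLeft₀ u hu0).measurableEmbedding

/-- Essentially bounded functions. -/
def Bd (f : ℂ → ℂ) : Prop := AEStronglyMeasurable f dA ∧ ∃ C : ℝ, ∀ᵐ z ∂dA, ‖f z‖ ≤ C

theorem Bd.of_memLp {f : ℂ → ℂ} (hf : MemLp f ⊤ dA) : Bd f := by
  refine ⟨hf.1, (eLpNormEssSup f dA).toReal, ?_⟩
  have h1 : eLpNormEssSup f dA ≠ ⊤ := by
    have := hf.2
    rw [eLpNorm_exponent_top] at this
    exact this.ne
  filter_upwards [enorm_ae_le_eLpNormEssSup f dA] with z hz
  rw [← toReal_enorm]
  exact ENNReal.toReal_mono h1 hz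

theorem Bd.memLp {f : ℂ → ℂ} (hf : Bd f) : MemLp f ⊤ dA := by
  obtain ⟨C, hC⟩ := hf.2
  exact memLp_top_of_bound hf.1 C hC

theorem Bd.integrable {f : ℂ → ℂ} (hf : Bd f) : Integrable f dA := by
  obtain ⟨C, hC⟩ := hf.2
  exact Integrable.of_bound hf.1 C hC

theorem Bd.mul {f g : ℂ → ℂ} (hf : Bd f) (hg : Bd g) : Bd (fun z => f z * g z) := by
  obtain ⟨C, hC⟩ := hf.2
  obtain ⟨D, hD⟩ := hg.2
  refine ⟨hf.1.mul hg.1, |C| * |D|, ?_⟩
  filter_upwards [hC, hD] with z h1 h2
  rw [norm_mul]
  exact mul_le_mul (h1.trans (le_abs_self C)) (h2.trans (le_abs_self D)) (norm_nonneg _)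
    (abs_nonneg _)

theorem Bd.conj {f : ℂ → ℂ} (hf : Bd f) : Bd (fun z => conj (f z)) := by
  obtain ⟨C, hC⟩ := hf.2
  refine ⟨hf.1.star, C, ?_⟩
  filter_upwards [hC] with z h
  rwa [RCLike.norm_conj]

theorem Bd.of_cont {f : ℂ → ℂ} (hf : Continuous f) : Bd f := by
  obtain ⟨C, hC⟩ := (isCompact_closedBall (0 : ℂ) 1).exists_bound_of_continuousOn hf.continuousOn
  refine ⟨hf.aestronglyMeasurable, C, ?_⟩
  filter_upwards [ae_lt] with z hz
  exact hC z (by simpa using hz.le)

/-- the extension by zero of a function on the closed disc -/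
noncomputable def ext (F : C(Metric.closedBall (0 : ℂ) 1, ℂ)) (z : ℂ) : ℂ :=
  open Classical in if h : z ∈ Metric.closedBall (0 : ℂ) 1 then F ⟨z, h⟩ else 0

theorem ext_of_mem (F : C(Metric.closedBall (0 : ℂ) 1, ℂ)) {z : ℂ}
    (h : z ∈ Metric.closedBall (0 : ℂ) 1) : ext F z = F ⟨z, h⟩ := dif_pos h

theorem ext_bd (F : C(Metric.closedBall (0 : ℂ) 1, ℂ)) : Bd (ext F) := by
  constructor
  · classical
    have h1 : Measurable (ext F) := by
      have h2 := Measurable.dite (s := Metric.closedBall (0 : ℂ) 1) (f := fun z => F z)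
        (g := fun _ => (0 : ℂ)) F.continuous.measurable measurable_const
        Metric.isClosed_closedBall.measurableSet
      convert h2 using 2
      unfold ext
      congr
    exact h1.aestronglyMeasurable
  · refine ⟨‖F‖, Eventually.of_forall fun z => ?_⟩
    by_cases h : z ∈ Metric.closedBall (0 : ℂ) 1
    · rw [ext_of_mem F h]
      exact F.norm_coe_le_norm _
    · rw [ext, dif_neg h, norm_zero]
      exact norm_nonneg F

theorem moments_zero {h : ℂ → ℂ} (hb : Bd h)
    (H : ∀ a b : ℕ, ∫ z, h z * (z ^ a * conj z ^ b) ∂dA = 0) : h =ᵐ[dA] 0 := by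
  set K := Metric.closedBall (0 : ℂ) 1 with hK
  have : CompactSpace K := isCompact_iff_compactSpace.1 (isCompact_closedBall _ _)
  let P : C(K, ℂ) → Prop := fun F => ∀ a b : ℕ,
    ∫ z, h z * (z ^ a * conj z ^ b) * ext F z ∂dA = 0
  have hmem : ∀ᵐ z ∂dA, z ∈ K := by
    filter_upwards [ae_lt] with z hz
    simpa [hK] using hz.le
  have hcab : ∀ a b : ℕ, Bd (fun z : ℂ => z ^ a * conj z ^ b) := by
    intro a b
    apply Bd.of_cont
    have := Complex.continuous_conj
    fun_prop
  have hint : ∀ a b (F : C(K, ℂ)), Integrable (fun z => h z * (z ^ a * conj z ^ b) * ext F z) dA :=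
    fun a b F => ((hb.mul (hcab a b)).mul (ext_bd F)).integrable
  let idK : C(K, ℂ) := ContinuousMap.restrict K (.id ℂ)
  have hid : ∀ z (hz : z ∈ K), idK ⟨z, hz⟩ = z := fun z hz => rfl
  have hP1 : P 1 := by
    intro a b
    rw [← H a b]
    apply integral_congr_ae
    filter_upwards [hmem] with z hz
    rw [ext_of_mem _ hz]
    simp
  have hQ : ∀ F ∈ StarAlgebra.adjoin ℂ {idK}, ∀ G, P G → P (F * G) ∧ P (star F * G) := by
    intro F hF
    induction hF using StarAlgebra.adjoin_induction with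
    | mem x hx =>
      intro G hG
      rw [Set.mem_singleton_iff] at hx
      subst hx
      constructor
      · intro a b
        rw [← hG (a + 1) b]
        apply integral_congr_ae
        filter_upwards [hmem] with z hz
        rw [ext_of_mem _ hz, ext_of_mem _ hz, ContinuousMap.mul_apply, hid]
        ring
      · intro a b
        rw [← hG a (b + 1)]
        apply integral_congr_ae
        filter_upwards [hmem] with z hz
        rw [ext_of_mem _ hz, ext_of_mem _ hz, ContinuousMap.mul_apply, ContinuousMap.star_apply,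
          hid]
        simp only [Complex.star_def]
        ring
    | algebraMap r =>
      intro G hG
      have key : ∀ c : ℂ, P (algebraMap ℂ C(K, ℂ) c * G) := by
        intro c a b
        have h1 : ∫ z, h z * (z ^ a * conj z ^ b) * ext (algebraMap ℂ C(K, ℂ) c * G) z ∂dA =
            c * ∫ z, h z * (z ^ a * conj z ^ b) * ext G z ∂dA := by
          rw [← integral_const_mul]
          apply integral_congr_ae
          filter_upwards [hmem] with z hz
          have hc : (algebraMap ℂ C(K, ℂ) c) ⟨z, hz⟩ = c := by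
            rw [Algebra.algebraMap_eq_smul_one]
            simp
          rw [ext_of_mem _ hz, ext_of_mem _ hz, ContinuousMap.mul_apply, hc]
          ring
        rw [h1, hG a b, mul_zero]
      refine ⟨key r, ?_⟩
      have : star (algebraMap ℂ C(K, ℂ) r) = algebraMap ℂ C(K, ℂ) (star r) := by
        rw [algebraMap_star_comm]
      rw [this]
      exact key _
    | add x y _ _ ihx ihy =>
      intro G hG
      have key : ∀ x y : C(K, ℂ), P (x * G) → P (y * G) → P ((x + y) * G) := by
        intro x y h1 h2 a b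
        have h3 : ∫ z, h z * (z ^ a * conj z ^ b) * ext ((x + y) * G) z ∂dA =
            ∫ z, h z * (z ^ a * conj z ^ b) * ext (x * G) z ∂dA +
            ∫ z, h z * (z ^ a * conj z ^ b) * ext (y * G) z ∂dA := by
          rw [← integral_add (hint a b _) (hint a b _)]
          apply integral_congr_ae
          filter_upwards [hmem] with z hz
          rw [ext_of_mem _ hz, ext_of_mem _ hz, ext_of_mem _ hz, ContinuousMap.mul_apply,
            ContinuousMap.mul_apply, ContinuousMap.mul_apply, ContinuousMap.add_apply]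
          ring
        rw [h3, h1 a b, h2 a b, add_zero]
      refine ⟨key x y (ihx G hG).1 (ihy G hG).1, ?_⟩
      rw [star_add]
      exact key _ _ (ihx G hG).2 (ihy G hG).2
    | mul x y _ _ ihx ihy =>
      intro G hG
      constructor
      · rw [mul_assoc]
        exact (ihx _ (ihy G hG).1).1
      · rw [star_mul, mul_comm (star y), mul_assoc]
        exact (ihx _ (ihy G hG).2).2
    | star x _ ih =>
      intro G hG
      rw [star_star]
      exact ⟨(ih G hG).2, (ih G hG).1⟩
  obtain ⟨C, hC⟩ := hb.2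
  set I : ℝ := ∫ z, ‖h z‖ ∂dA with hI
  have hI0 : 0 ≤ I := integral_nonneg fun z => norm_nonneg _
  have hall : ∀ F : C(K, ℂ), ∫ z, h z * ext F z ∂dA = 0 := by
    intro F
    have hFm : F ∈ closure ((StarAlgebra.adjoin ℂ {idK} : StarSubalgebra ℂ C(K, ℂ)) :
        Set C(K, ℂ)) := by
      have h1 := ContinuousMap.elemental_id_eq_top (𝕜 := ℂ) K
      have h2 : F ∈ StarAlgebra.elemental ℂ (ContinuousMap.restrict K (.id ℂ)) := by
        rw [h1]; trivial
      exact h2
    have h3 : ∀ ε > 0, ‖∫ z, h z * ext F z ∂dA‖ ≤ ε * I := by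
      intro ε hε
      obtain ⟨G, hG, hd⟩ := Metric.mem_closure_iff.1 hFm ε hε
      have h4 : ∫ z, h z * ext G z ∂dA = 0 := by
        have := (hQ G hG 1 hP1).1 0 0
        simpa using this
      have h5 : ∫ z, h z * ext F z ∂dA = ∫ z, h z * (ext F z - ext G z) ∂dA := by
        rw [← sub_zero (∫ z, h z * ext F z ∂dA), ← h4, ← integral_sub
          (hb.mul (ext_bd F)).integrable (hb.mul (ext_bd G)).integrable]
        congr 1
        ext z
        ring
      rw [h5]
      rw [hI, ← integral_const_mul]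
      refine norm_integral_le_of_norm_le (hb.integrable.norm.const_mul ε) ?_
      filter_upwards [hmem] with z hz
      rw [norm_mul, ext_of_mem _ hz, ext_of_mem _ hz, mul_comm]
      refine mul_le_mul_of_nonneg_right ?_ (norm_nonneg _)
      have h6 := (F - G).norm_coe_le_norm ⟨z, hz⟩
      rw [ContinuousMap.sub_apply] at h6
      rw [dist_eq_norm] at hd
      exact h6.trans hd.le
    have h7 : ‖∫ z, h z * ext F z ∂dA‖ ≤ 0 := by
      refine le_of_forall_pos_le_add fun δ hδ => ?_
      have h8 := h3 (δ / (I + 1)) (by positivity)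
      refine h8.trans ?_
      rw [div_mul_eq_mul_div, zero_add, div_le_iff₀ (by positivity)]
      nlinarith
    exact norm_le_zero_iff.1 h7
  have hli : LocallyIntegrable h dA := hb.integrable.locallyIntegrable
  refine ae_eq_zero_of_integral_contDiff_smul_eq_zero hli fun φ hφ _ => ?_
  let Fφ : C(K, ℂ) := ⟨fun z => (φ z : ℂ), by
    have := hφ.continuous
    fun_prop⟩
  rw [← hall Fφ]
  apply integral_congr_ae
  filter_upwards [hmem] with z hz
  rw [ext_of_mem _ hz, Complex.real_smul]
  show (φ z : ℂ) * h z = h z * (φ z : ℂ)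
  ring

/-- Radial functions. -/
def Radial (f : ℂ → ℂ) : Prop := ∃ φ : ℝ → ℂ, f =ᵐ[dA] fun z => φ ‖z‖

theorem Radial.rot {f : ℂ → ℂ} (hf : Radial f) (u : ℂ) (hu : ‖u‖ = 1) :
    ∀ᵐ z ∂dA, f (u * z) = f z := by
  obtain ⟨φ, hφ⟩ := hf
  have h1 := (mp_rot u hu).quasiMeasurePreserving.ae_eq_comp hφ
  filter_upwards [h1, hφ] with z h2 h3
  simp only [Function.comp] at h2
  rw [h2, h3, norm_mul, hu, one_mul]

theorem radial_mom {h : ℂ → ℂ} (hr : Radial h) (a b : ℕ) (hab : a ≠ b) :
    ∫ z, h z * (z ^ a * conj z ^ b) ∂dA = 0 := by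
  have hab' : ((a : ℂ) - b) ≠ 0 := by
    rw [sub_ne_zero]
    exact_mod_cast hab
  set u : ℂ := Complex.exp ((Real.pi / ((a : ℝ) - b) : ℝ) * Complex.I) with hu
  have hu1 : ‖u‖ = 1 := Complex.norm_exp_ofReal_mul_I _
  have huc : u * conj u = 1 := by
    rw [Complex.mul_conj, Complex.normSq_eq_norm_sq, hu1]
    simp
  have hup : u ^ a * conj u ^ b = -1 := by
    rw [hu, ← Complex.exp_conj, ← Complex.exp_nat_mul, ← Complex.exp_nat_mul, ← Complex.exp_add,
      ← Complex.exp_pi_mul_I]
    congr 1
    rw [map_mul, Complex.conj_I, Complex.conj_ofReal]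
    push_cast
    field_simp
    ring
  have h1 := (mp_rot u hu1).integral_comp (emb_rot u hu1)
    (fun z => h z * (z ^ a * conj z ^ b))
  have h2 : ∫ z, h (u * z) * ((u * z) ^ a * conj (u * z) ^ b) ∂dA =
      -∫ z, h z * (z ^ a * conj z ^ b) ∂dA := by
    rw [← integral_neg]
    apply integral_congr_ae
    filter_upwards [hr.rot u hu1] with z hz
    rw [hz, map_mul, mul_pow, mul_pow]
    linear_combination (h z * z ^ a * conj z ^ b) * hup
  rw [h2] at h1
  have h3 : (2 : ℂ) * ∫ z, h z * (z ^ a * conj z ^ b) ∂dA = 0 := by linear_combination -h1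
  simpa using h3

end Pool.Agent.X116.Tz
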