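import Pool.Agent.X116.TzA

/-!
# Mellin-type moments of functions on the disc and their Hankel determinants
-/

set_option autoImplicit false

namespace Pool.Agent.X116.Tz

open MeasureTheory Filter Topology
open scoped ComplexConjugate

/-- The function `z ↦ |z|^(2s)`. -/
noncomputable def pw (s : ℂ) (z : ℂ) : ℂ := ((‖z‖ ^ 2 : ℝ) : ℂ) ^ s

theorem pw_meas (s : ℂ) : Measurable (pw s) := by
  unfold pw
  have h1 : Measurable (fun z : ℂ => ((‖z‖ ^ 2 : ℝ) : ℂ)) := by fun_prop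
  exact h1.pow_const s

theorem pw_norm {s z : ℂ} (hz : z ≠ 0) : ‖pw s z‖ = (‖z‖ ^ 2) ^ s.re := by
  unfold pw
  have : 0 < ‖z‖ ^ 2 := by positivity
  rw [Complex.norm_cpow_eq_rpow_re_of_pos this]

theorem pw_bd {s : ℂ} (hs : 0 ≤ s.re) : Bd (pw s) := by
  refine ⟨(pw_meas s).aestronglyMeasurable, 1, ?_⟩
  filter_upwards [ae_lt, ae_ne] with z h1 h2
  rw [pw_norm h2]
  exact Real.rpow_le_one (by positivity) (by nlinarith [norm_nonneg z]) hs

theorem pw_nat (k : ℕ) (z : ℂ) : pw k z = z ^ k * conj z ^ k := by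
  unfold pw
  rw [Complex.cpow_natCast, ← mul_pow, Complex.mul_conj, Complex.normSq_eq_norm_sq]

theorem pw_add {s t z : ℂ} (hz : z ≠ 0) : pw (s + t) z = pw s z * pw t z := by
  unfold pw
  rw [Complex.cpow_add]
  exact_mod_cast (by positivity : ‖z‖ ^ 2 ≠ 0)

theorem pw_ne {s z : ℂ} (hz : z ≠ 0) : pw s z ≠ 0 := by
  intro h
  have := pw_norm (s := s) hz
  rw [h, norm_zero] at this
  have h2 : 0 < (‖z‖ ^ 2) ^ s.re := by positivity
  linarith

/-- The moment function `s ↦ ∫ h |z|^(2s) dA`. -/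
noncomputable def mom (h : ℂ → ℂ) (s : ℂ) : ℂ := ∫ z, h z * pw s z ∂dA

theorem mom_norm {h : ℂ → ℂ} (hb : Bd h) : ∃ C : ℝ, 0 ≤ C ∧ ∀ s : ℂ, 0 ≤ s.re → ‖mom h s‖ ≤ C := by
  refine ⟨∫ z, ‖h z‖ ∂dA, integral_nonneg fun _ => norm_nonneg _, fun s hs => ?_⟩
  refine norm_integral_le_of_norm_le hb.integrable.norm ?_
  filter_upwards [ae_lt, ae_ne] with z h1 h2
  rw [norm_mul, pw_norm h2]
  exact mul_le_of_le_one_right (norm_nonneg _)
    (Real.rpow_le_one (by positivity) (by nlinarith [norm_nonneg z]) hs)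

theorem mom_diff {h : ℂ → ℂ} (hb : Bd h) : DifferentiableOn ℂ (mom h) {w : ℂ | 0 < w.re} := by
  intro s hs
  rw [Set.mem_ofPred_eq] at hs
  obtain ⟨C, hC⟩ := hb.2
  have hU : {w : ℂ | s.re / 2 < w.re} ∈ 𝓝 s := by
    refine (isOpen_lt continuous_const Complex.continuous_re).mem_nhds ?_
    rw [Set.mem_ofPred_eq]
    linarith
  have key := hasDerivAt_integral_of_dominated_loc_of_deriv_le (μ := dA)
    (F := fun w z => h z * pw w z) (F' := fun w z => h z * (pw w z * Real.log (‖z‖ ^ 2)))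
    (x₀ := s) (s := {w : ℂ | s.re / 2 < w.re}) (bound := fun _ => |C| * (1 / (s.re / 2))) hU
    (Eventually.of_forall fun w => hb.1.mul (pw_meas w).aestronglyMeasurable)
    ((hb.mul (pw_bd hs.le)).integrable)
    ?_ ?_ (integrable_const _) ?_
  · exact key.2.differentiableAt.differentiableWithinAt
  · refine hb.1.mul (((pw_meas s).mul ?_).aestronglyMeasurable)
    have : Measurable (fun z : ℂ => Real.log (‖z‖ ^ 2)) := by fun_prop
    exact Complex.measurable_ofReal.comp this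
  · filter_upwards [ae_lt, ae_ne, hC] with z h1 h2 h3 w hw
    have hz0 : 0 < ‖z‖ ^ 2 := by positivity
    have hz1 : ‖z‖ ^ 2 ≤ 1 := by nlinarith [norm_nonneg z]
    rw [norm_mul, norm_mul, pw_norm h2, Complex.norm_real, Real.norm_eq_abs]
    refine mul_le_mul (h3.trans (le_abs_self C)) ?_ (by positivity) (abs_nonneg _)
    have h4 := Real.abs_log_mul_self_rpow_lt (‖z‖ ^ 2) (s.re / 2) hz0 hz1 (by linarith)
    rw [abs_mul, abs_of_pos (Real.rpow_pos_of_pos hz0 _)] at h4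
    have h5 : (‖z‖ ^ 2) ^ w.re ≤ (‖z‖ ^ 2) ^ (s.re / 2) :=
      Real.rpow_le_rpow_of_exponent_ge hz0 hz1 hw.le
    have h6 := mul_le_mul_of_nonneg_right h5 (abs_nonneg (Real.log (‖z‖ ^ 2)))
    linarith
  · filter_upwards [ae_ne] with z h2 w _
    have hz0 : ((‖z‖ ^ 2 : ℝ) : ℂ) ≠ 0 := by exact_mod_cast (by positivity : ‖z‖ ^ 2 ≠ 0)
    have h3 : HasDerivAt (fun w => pw w z) (pw w z * Complex.log ((‖z‖ ^ 2 : ℝ) : ℂ) * 1) w :=
      (hasDerivAt_id w).const_cpow (Or.inl hz0)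
    have h4 := h3.const_mul (h z)
    refine h4.congr_deriv ?_
    rw [mul_one, Complex.ofReal_log (by positivity)]

theorem halfplane_open : IsOpen {w : ℂ | 0 < w.re} :=
  isOpen_lt continuous_const Complex.continuous_re

theorem halfplane_preconn : IsPreconnected {w : ℂ | 0 < w.re} :=
  (convex_halfSpace_re_gt 0).isPreconnected

/-- The Hankel determinants of the moments. -/
noncomputable def D (f : ℂ → ℂ) (r : ℕ) (s : ℂ) : ℂ :=
  (Matrix.of fun i j : Fin r => mom f (s + (i : ℕ) + (j : ℕ))).det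

theorem shift_diff {h : ℂ → ℂ} (hb : Bd h) (a : ℕ) :
    DifferentiableOn ℂ (fun s => mom h (s + a)) {w : ℂ | 0 < w.re} := by
  refine (mom_diff hb).comp (by fun_prop) ?_
  intro w hw
  rw [Set.mem_ofPred_eq] at hw ⊢
  simp
  positivity

theorem D_diff {f : ℂ → ℂ} (hb : Bd f) (r : ℕ) :
    DifferentiableOn ℂ (D f r) {w : ℂ | 0 < w.re} := by
  have h1 : D f r = fun s => ∑ σ : Equiv.Perm (Fin r), ((Equiv.Perm.sign σ : ℤ) : ℂ) *
      ∏ i : Fin r, mom f (s + ((σ i : ℕ) : ℂ) + ((i : ℕ) : ℂ)) := by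
    funext s
    rw [D, Matrix.det_apply']
    rfl
  rw [h1]
  refine DifferentiableOn.fun_sum fun σ _ => ?_
  refine DifferentiableOn.const_mul ?_ _
  refine DifferentiableOn.fun_finsetProd fun i _ => ?_
  have := shift_diff hb ((σ i : ℕ) + (i : ℕ))
  refine this.congr fun s _ => ?_
  push_cast
  rw [add_assoc]

theorem D_bd {f : ℂ → ℂ} (hb : Bd f) (r : ℕ) :
    ∃ C : ℝ, 0 ≤ C ∧ ∀ s : ℂ, 0 ≤ s.re → ‖D f r s‖ ≤ C := by
  obtain ⟨C, hC0, hC⟩ := mom_norm hb
  refine ⟨∑ σ : Equiv.Perm (Fin r), ∏ i : Fin r, C, by positivity, fun s hs => ?_⟩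
  rw [D, Matrix.det_apply']
  refine (norm_sum_le _ _).trans (Finset.sum_le_sum fun σ _ => ?_)
  rw [norm_mul, norm_prod]
  have h1 : ‖(((Equiv.Perm.sign σ : ℤˣ) : ℤ) : ℂ)‖ = 1 := by
    rcases Int.units_eq_one_or (Equiv.Perm.sign σ) with h | h <;> simp [h]
  rw [h1, one_mul]
  refine Finset.prod_le_prod (fun _ _ => norm_nonneg _) fun i _ => ?_
  refine hC _ ?_
  simp
  positivity

end Pool.Agent.X116.Tz
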