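import Pool.Agent.X116.TzB

/-!
# A radial function all of whose Hankel determinants of moments vanish is zero
-/

set_option autoImplicit false

namespace Pool.Agent.X116.Tz

open MeasureTheory Filter Topology
open scoped ComplexConjugate

/-- linear algebra: Hankel matrices of one sequence, all singular, with invertible minors -/
theorem hankel_kernel (q : ℕ) (μ : ℕ → ℂ)
    (h1 : ∀ k, (Matrix.of fun i j : Fin (q + 1) => μ (k + i + j)).det = 0)
    (h2 : ∀ k, (Matrix.of fun i j : Fin q => μ (k + i + j)).det ≠ 0) :
    ∃ c : Fin (q + 1) → ℂ, c ≠ 0 ∧ ∀ m, ∑ j : Fin (q + 1), c j * μ (m + j) = 0 := by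
  set v : ℕ → (Fin (q + 1) → ℂ) := fun m j => μ (m + j) with hv
  set W : Submodule ℂ (Fin (q + 1) → ℂ) :=
    Submodule.span ℂ (Set.range fun i : Fin q => v i) with hW
  have hWlt : W < ⊤ := by
    rw [lt_top_iff_ne_top]
    intro h
    have h3 : Module.finrank ℂ W ≤ Fintype.card (Fin q) := finrank_range_le_card _
    rw [h, finrank_top, Module.finrank_fin_fun, Fintype.card_fin] at h3
    omega
  have hmem : ∀ m, v m ∈ W := by
    intro m
    induction m using Nat.strong_induction_on with
    | _ m ih =>
      by_cases hm : m < q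
      · exact Submodule.subset_span ⟨⟨m, hm⟩, rfl⟩
      · obtain ⟨k, rfl⟩ : ∃ k, m = k + q := ⟨m - q, by omega⟩
        obtain ⟨x, hx0, hx⟩ := Matrix.exists_vecMul_eq_zero_iff.2 (h1 k)
        have hxj : ∀ j : Fin (q + 1), ∑ i : Fin (q + 1), x i * μ (k + i + j) = 0 := by
          intro j
          have := congrFun hx j
          simpa [Matrix.vecMul, dotProduct] using this
        have hlast : x (Fin.last q) ≠ 0 := by
          intro hl
          apply h2 k
          rw [← Matrix.exists_vecMul_eq_zero_iff]
          refine ⟨fun i => x i.castSucc, ?_, ?_⟩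
          · intro h0
            apply hx0
            funext i
            refine Fin.lastCases ?_ (fun i => ?_) i
            · exact hl
            · exact congrFun h0 i
          · funext j
            have := hxj j.castSucc
            rw [Fin.sum_univ_castSucc, hl, zero_mul, add_zero] at this
            simpa [Matrix.vecMul, dotProduct] using this
        have hsum : ∑ i : Fin (q + 1), x i • v (k + i) = 0 := by
          funext j
          simpa [hv] using hxj j
        rw [Fin.sum_univ_castSucc] at hsum
        have h4 : v (k + q) = -(x (Fin.last q))⁻¹ • ∑ i : Fin q, x i.castSucc • v (k + i) := by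
          have h5 : x (Fin.last q) • v (k + q) = -∑ i : Fin q, x i.castSucc • v (k + i) := by
            rw [eq_neg_iff_add_eq_zero, add_comm (x (Fin.last q) • v (k + q))]
            simpa using hsum
          rw [neg_smul, ← smul_neg, ← h5, smul_smul, inv_mul_cancel₀ hlast, one_smul]
        rw [h4]
        refine W.smul_mem _ (W.sum_mem fun i _ => W.smul_mem _ (ih _ ?_))
        have := i.2
        omega
  obtain ⟨φ, hφ0, hφ⟩ := Submodule.exists_le_ker_of_lt_top W hWlt
  refine ⟨fun j => φ (Pi.single j 1), ?_, fun m => ?_⟩
  · intro h0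
    apply hφ0
    refine LinearMap.pi_ext' fun j => ?_
    ext
    simpa using congrFun h0 j
  · have h5 : φ (v m) = 0 := hφ (hmem m)
    rw [← h5, LinearMap.pi_apply_eq_sum_univ φ (v m)]
    refine Finset.sum_congr rfl fun j _ => ?_
    rw [smul_eq_mul, mul_comm]
    congr 1
    show φ (Pi.single j 1) = _
    congr 1
    funext i
    simp [Pi.single_apply, eq_comm]

theorem generic_shift {F : ℂ → ℂ} (hF : DifferentiableOn ℂ F {w : ℂ | 0 < w.re})
    (h0 : ¬ ∀ w : ℂ, 0 < w.re → F w = 0) :
    ∃ s : ℝ, 0 < s ∧ ∀ k : ℕ, F ((s : ℂ) + k) ≠ 0 := by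
  have hU : ∀ k : ℕ, IsOpen {y : ℝ | F ((Real.exp y : ℂ) + k) ≠ 0} := by
    intro k
    have hc : Continuous fun y : ℝ => F ((Real.exp y : ℂ) + k) := by
      rw [← continuousOn_univ]
      refine hF.continuousOn.comp (t := {w : ℂ | 0 < w.re}) (by fun_prop) ?_
      intro y _
      rw [Set.mem_ofPred_eq]
      simp only [Complex.add_re, Complex.ofReal_re, Complex.natCast_re]
      positivity
    exact isOpen_ne_fun hc continuous_const
  have hA : AnalyticOnNhd ℂ F {w : ℂ | 0 < w.re} := hF.analyticOnNhd halfplane_open
  have hD : ∀ k : ℕ, Dense {y : ℝ | F ((Real.exp y : ℂ) + k) ≠ 0} := by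
    intro k y
    rw [mem_closure_iff_frequently]
    intro hcon
    apply h0
    have hcon' : ∀ᶠ y' in 𝓝 y, F ((Real.exp y' : ℂ) + k) = 0 := by
      filter_upwards [hcon] with y' hy'
      by_contra h
      exact hy' h
    have hz0 : ((Real.exp y : ℂ) + k) ∈ {w : ℂ | 0 < w.re} := by
      rw [Set.mem_ofPred_eq]
      simp only [Complex.add_re, Complex.ofReal_re, Complex.natCast_re]
      positivity
    have hfreq : ∃ᶠ z in 𝓝[≠] ((Real.exp y : ℂ) + k), F z = 0 := by
      have ht : Tendsto (fun y' : ℝ => ((Real.exp y' : ℂ) + k)) (𝓝[≠] y)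
          (𝓝[≠] ((Real.exp y : ℂ) + k)) := by
        refine tendsto_nhdsWithin_of_tendsto_nhds_of_eventually_within _ ?_ ?_
        · have : Continuous fun y' : ℝ => ((Real.exp y' : ℂ) + k) := by fun_prop
          exact this.continuousAt.tendsto.mono_left nhdsWithin_le_nhds
        · filter_upwards [self_mem_nhdsWithin] with y' hy' heq
          apply hy'
          have : (Real.exp y' : ℂ) = (Real.exp y : ℂ) := by simpa using heq
          exact Real.exp_injective (by exact_mod_cast this)
      refine ht.frequently ?_
      have : ∀ᶠ y' in 𝓝[≠] y, F ((Real.exp y' : ℂ) + k) = 0 :=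
        hcon'.filter_mono nhdsWithin_le_nhds
      exact this.frequently
    intro w hw
    exact hA.eqOn_zero_of_preconnected_of_frequently_eq_zero halfplane_preconn hz0 hfreq hw
  have hden := dense_iInter_of_isOpen hU hD
  obtain ⟨y, hy⟩ := hden.nonempty
  rw [Set.mem_iInter] at hy
  exact ⟨Real.exp y, Real.exp_pos y, fun k => hy k⟩

theorem D_ne_zero {f : ℂ → ℂ} (hb : Bd f) (hr : Radial f) (r : ℕ)
    (h0 : ∀ s : ℂ, 0 < s.re → D f r s = 0) : f =ᵐ[dA] 0 := by
  induction r with
  | zero =>
    exfalso
    have := h0 1 (by simp)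
    simp [D] at this
  | succ q ih =>
    by_cases hq : ∀ s : ℂ, 0 < s.re → D f q s = 0
    · exact ih hq
    obtain ⟨s0, hs0, hs⟩ := generic_shift (D_diff hb q) hq
    obtain ⟨c, hc0, hc⟩ := hankel_kernel q (fun m => mom f (s0 + m)) (fun k => by
        have h1 := h0 ((s0 : ℂ) + k) (by simp; positivity)
        rw [← h1, D]
        congr 1
        ext i j
        simp only [Matrix.of_apply]
        congr 1
        push_cast
        ring) (fun k => by
        have h1 := hs k
        intro h2
        apply h1
        rw [← h2, D]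
        congr 1
        ext i j
        simp only [Matrix.of_apply]
        congr 1
        push_cast
        ring)
    -- the function with vanishing moments
    set g : ℂ → ℂ := fun z => f z * (pw s0 z * ∑ j : Fin (q + 1), c j * pw ((j : ℕ) : ℂ) z) with hg
    have hpj : ∀ j : ℕ, Continuous (pw (j : ℂ)) := by
      intro j
      have h1 : pw (j : ℂ) = fun z => z ^ j * conj z ^ j := funext fun z => pw_nat j z
      rw [h1]
      have := Complex.continuous_conj
      fun_prop
    have hs0' : 0 ≤ (s0 : ℂ).re := by simpa using hs0.le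
    have hgb : Bd g := by
      refine hb.mul ((pw_bd hs0').mul (Bd.of_cont ?_))
      exact continuous_finsetSum _ fun j _ => continuous_const.mul (hpj j)
    have hgr : Radial g := by
      obtain ⟨φ, hφ⟩ := hr
      refine ⟨fun r => φ r * (((r ^ 2 : ℝ) : ℂ) ^ (s0 : ℂ) *
        ∑ j : Fin (q + 1), c j * ((r ^ 2 : ℝ) : ℂ) ^ ((j : ℕ) : ℂ)), ?_⟩
      filter_upwards [hφ] with z hz
      rw [hg]
      simp only [hz]
      rfl
    have hg0 : g =ᵐ[dA] 0 := by
      refine moments_zero hgb fun a b => ?_
      by_cases hab : a = b
      · subst hab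
        have hI : ∀ j : Fin (q + 1),
            Integrable (fun z => c j * (f z * pw (s0 + (a + (j : ℕ) : ℕ)) z)) dA := by
          intro j
          refine Integrable.const_mul ?_ _
          refine (hb.mul (pw_bd ?_)).integrable
          simp
          positivity
        have h3 : ∫ z, g z * (z ^ a * conj z ^ a) ∂dA =
            ∑ j : Fin (q + 1), c j * mom f (s0 + (a + (j : ℕ) : ℕ)) := by
          simp only [mom]
          rw [← Finset.sum_congr rfl fun j _ => integral_const_mul (c j) _]
          rw [← integral_finsetSum _ fun j _ => hI j]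
          apply integral_congr_ae
          filter_upwards [ae_ne] with z hz
          rw [hg]
          simp only
          rw [← pw_nat a z, Finset.mul_sum, Finset.mul_sum, Finset.sum_mul]
          refine Finset.sum_congr rfl fun j _ => ?_
          rw [pw_add hz, Nat.cast_add, pw_add hz]
          ring
        rw [h3]
        have := hc a
        simpa using this
      · exact radial_mom hgr a b hab
    -- conclusion
    set P : Polynomial ℂ := ∑ j : Fin (q + 1), Polynomial.monomial (j : ℕ) (c j) with hP
    have hP0 : P ≠ 0 := by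
      intro h
      apply hc0
      funext j
      have h4 : P.coeff (j : ℕ) = c j := by
        rw [hP, Polynomial.finsetSum_coeff]
        rw [Finset.sum_eq_single j]
        · rw [Polynomial.coeff_monomial, if_pos rfl]
        · intro i _ hij
          rw [Polynomial.coeff_monomial, if_neg (fun h => hij (Fin.ext h))]
        · intro h
          exact absurd (Finset.mem_univ _) h
      rw [← h4, h]
      simp
    have hroots : ∀ᵐ z ∂dA, ∀ w ∈ P.roots.toFinset, ‖z‖ ≠ Real.sqrt w.re := by
      rw [eventually_all_finset]
      intro w _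
      exact ae_norm_ne _
    filter_upwards [hg0, ae_ne, hroots] with z h1 h2 h3
    rw [hg] at h1
    simp only [Pi.zero_apply, mul_eq_zero] at h1
    rcases h1 with h1 | h1 | h1
    · exact h1
    · exact absurd h1 (pw_ne h2)
    · exfalso
      have h5 : P.eval ((‖z‖ ^ 2 : ℝ) : ℂ) = 0 := by
        rw [← h1, hP, Polynomial.eval_finsetSum]
        refine Finset.sum_congr rfl fun j _ => ?_
        rw [Polynomial.eval_monomial]
        unfold pw
        rw [Complex.cpow_natCast]
      have h6 : ((‖z‖ ^ 2 : ℝ) : ℂ) ∈ P.roots.toFinset := by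
        rw [Multiset.mem_toFinset, Polynomial.mem_roots hP0]
        exact h5
      apply h3 _ h6
      rw [Complex.ofReal_re, Real.sqrt_sq (norm_nonneg z)]

end Pool.Agent.X116.Tz
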