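import Pool.Agent.X116.TzC

/-!
# The polyanalytic Bergman space and frequency orthogonality
-/

set_option autoImplicit false

namespace Pool.Agent.X116.Tz

open MeasureTheory Filter Topology
open scoped ComplexConjugate

/-- `h` is (almost everywhere equal to) a polyanalytic function of order `n` on the disc:
`h(z) = ∑_{j<n} conj(z)^j H_j(z)` with `H_j` holomorphic on the unit disc. -/
def IsPolyanalytic (n : ℕ) (h : ℂ → ℂ) : Prop :=
  ∃ H : Fin n → ℂ → ℂ, (∀ j, DifferentiableOn ℂ (H j) (Metric.ball 0 1)) ∧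
    h =ᵐ[dA] fun z => ∑ j : Fin n, conj z ^ (j : ℕ) * H j z

/-- The square integrable polyanalytic functions of order `n`. -/
noncomputable def polySub (n : ℕ) : Submodule ℂ (Lp ℂ 2 dA) where
  carrier := {h | IsPolyanalytic n h}
  zero_mem' := by
    refine ⟨fun _ _ => 0, fun _ => by fun_prop, ?_⟩
    filter_upwards [Lp.coeFn_zero ℂ 2 dA] with z hz
    rw [hz]
    simp
  add_mem' := by
    rintro a b ⟨A, hA, hA'⟩ ⟨B, hB, hB'⟩
    refine ⟨fun j z => A j z + B j z, fun j => (hA j).add (hB j), ?_⟩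
    filter_upwards [Lp.coeFn_add a b, hA', hB'] with z h1 h2 h3
    rw [h1, Pi.add_apply, h2, h3, ← Finset.sum_add_distrib]
    exact Finset.sum_congr rfl fun j _ => by ring
  smul_mem' := by
    rintro c a ⟨A, hA, hA'⟩
    refine ⟨fun j z => c * A j z, fun j => (hA j).const_mul c, ?_⟩
    filter_upwards [Lp.coeFn_smul c a, hA'] with z h1 h2
    rw [h1, Pi.smul_apply, h2, smul_eq_mul, Finset.mul_sum]
    exact Finset.sum_congr rfl fun j _ => by ring

/-- The polyanalytic Bergman space `A²_n`. -/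
noncomputable def A2 (n : ℕ) : Submodule ℂ (Lp ℂ 2 dA) := (polySub n).topologicalClosure

noncomputable instance (n : ℕ) : CompleteSpace (A2 n) := by
  unfold A2
  infer_instance

theorem memLp_mul {f h : ℂ → ℂ} (hf : Bd f) (hh : MemLp h 2 dA) :
    MemLp (fun z => f z * h z) 2 dA := by
  obtain ⟨C, hC⟩ := hf.2
  refine hh.of_le_mul (c := C) (hf.1.mul hh.1) ?_
  filter_upwards [hC] with z hz
  rw [norm_mul]
  exact mul_le_mul_of_nonneg_right hz (norm_nonneg _)

theorem Bd.memLp2 {f : ℂ → ℂ} (hf : Bd f) : MemLp f 2 dA := by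
  obtain ⟨C, hC⟩ := hf.2
  exact MemLp.of_bound hf.1 C hC

/-- the cut-off at radius `R` -/
noncomputable def cut (R : ℝ) (z : ℂ) : ℂ := open Classical in if ‖z‖ < R then 1 else 0

theorem cut_norm (R : ℝ) (z : ℂ) : ‖cut R z‖ ≤ 1 := by
  unfold cut
  split_ifs <;> simp

theorem cut_meas (R : ℝ) : Measurable (cut R) := by
  unfold cut
  exact Measurable.ite (measurableSet_lt measurable_norm measurable_const) measurable_const
    measurable_const

theorem cut_bd (R : ℝ) : Bd (cut R) :=
  ⟨(cut_meas R).aestronglyMeasurable, 1, Eventually.of_forall (cut_norm R)⟩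

theorem cut_radial (R : ℝ) {f : ℂ → ℂ} (hf : Radial f) : Radial (fun z => f z * cut R z) := by
  obtain ⟨φ, hφ⟩ := hf
  refine ⟨fun r => φ r * (open Classical in if r < R then 1 else 0), ?_⟩
  filter_upwards [hφ] with z hz
  rw [hz]
  rfl

theorem hol_cut_bd {H : ℂ → ℂ} (hH : DifferentiableOn ℂ H (Metric.ball 0 1)) {R : ℝ}
    (hR1 : R < 1) : Bd (fun z => H z * cut R z) := by
  constructor
  · refine AEStronglyMeasurable.mul ?_ (cut_meas R).aestronglyMeasurable
    have := hH.continuousOn.aestronglyMeasurable (μ := volume) measurableSet_ball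
    exact this.smul_measure _
  · obtain ⟨C, hC⟩ := (isCompact_closedBall (0 : ℂ) R).exists_bound_of_continuousOn
      (hH.continuousOn.mono (Metric.closedBall_subset_ball hR1))
    refine ⟨|C|, Eventually.of_forall fun z => ?_⟩
    show ‖H z * cut R z‖ ≤ |C|
    unfold cut
    split_ifs with h
    · rw [mul_one]
      exact (hC z (by simpa using h.le)).trans (le_abs_self C)
    · simp

theorem hol_int {H : ℂ → ℂ} (hH : DifferentiableOn ℂ H (Metric.ball 0 1)) {R : ℝ} (hR0 : 0 ≤ R)
    (hR1 : R < 1) {ρ : ℂ → ℂ} (hb : Bd ρ) (hr : Radial ρ) (p : ℕ) :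
    ∫ z, (ρ z * cut R z) * (H z * conj z ^ p) ∂dA =
      ((p.factorial : ℂ)⁻¹ * iteratedDeriv p H 0) *
        ∫ z, (ρ z * cut R z) * (z ^ p * conj z ^ p) ∂dA := by
  obtain ⟨a, ha⟩ : ∃ a : ℕ → ℂ, a = fun m => (m.factorial : ℂ)⁻¹ * iteratedDeriv m H 0 :=
    ⟨_, rfl⟩
  have hsum : ∀ z : ℂ, ‖z‖ < 1 → HasSum (fun m => a m * z ^ m) (H z) := by
    intro z hz
    have h1 := Complex.hasSum_taylorSeries_on_ball (c := 0) (r := 1) hH (z := z) (by simpa using hz)
    have h2 : (fun m => a m * z ^ m) = fun n : ℕ =>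
        (n.factorial : ℂ)⁻¹ • (z - 0) ^ n • iteratedDeriv n H 0 := by
      funext m
      rw [ha, smul_eq_mul, smul_eq_mul, sub_zero]
      ring
    rw [h2]
    exact h1
  have hap : (p.factorial : ℂ)⁻¹ * iteratedDeriv p H 0 = a p := by rw [ha]
  rw [hap]
  obtain ⟨C, hC⟩ := hb.2
  have hS : Summable fun m => ‖a m‖ * R ^ m := by
    have h1 := (hsum (R : ℂ) (by simpa [abs_of_nonneg hR0] using hR1)).summable.norm
    refine h1.congr fun m => ?_
    rw [norm_mul, norm_pow, Complex.norm_real, Real.norm_of_nonneg hR0]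
  have hcb : Bd (fun z => ρ z * cut R z) := hb.mul (cut_bd R)
  have hcr : Radial (fun z => ρ z * cut R z) := cut_radial R hr
  have key := hasSum_integral_of_dominated_convergence (μ := dA)
    (F := fun m z => (ρ z * cut R z) * (a m * (z ^ m * conj z ^ p)))
    (f := fun z => (ρ z * cut R z) * (H z * conj z ^ p))
    (fun m _ => |C| * (‖a m‖ * R ^ m)) ?_ ?_ ?_ ?_ ?_
  · have h2 : ∀ m, ∫ z, (ρ z * cut R z) * (a m * (z ^ m * conj z ^ p)) ∂dA =
        a m * ∫ z, (ρ z * cut R z) * (z ^ m * conj z ^ p) ∂dA := by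
      intro m
      rw [← integral_const_mul]
      congr 1
      ext z
      ring
    simp only [h2] at key
    have h3 := hasSum_single (f := fun m => a m * ∫ z, (ρ z * cut R z) * (z ^ m * conj z ^ p) ∂dA)
      p (fun m hm => by rw [radial_mom hcr m p hm, mul_zero])
    exact key.unique h3
  · intro m
    refine hcb.1.mul ?_
    have := Complex.continuous_conj
    exact (by fun_prop : Continuous fun z : ℂ => a m * (z ^ m * conj z ^ p)).aestronglyMeasurable
  · intro m
    filter_upwards [hC, ae_lt] with z h1 h2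
    by_cases hz : ‖z‖ < R
    · rw [norm_mul, norm_mul, norm_mul, norm_mul, norm_pow, norm_pow, RCLike.norm_conj]
      have h3 : ‖z‖ ^ m ≤ R ^ m := pow_le_pow_left₀ (norm_nonneg z) hz.le m
      have h4 : ‖z‖ ^ p ≤ 1 := pow_le_one₀ (norm_nonneg z) h2.le
      have h5 : ‖z‖ ^ m * ‖z‖ ^ p ≤ R ^ m :=
        (mul_le_of_le_one_right (by positivity) h4).trans h3
      refine mul_le_mul ?_ (mul_le_mul_of_nonneg_left h5 (norm_nonneg _)) (by positivity)
        (abs_nonneg _)
      calc _ ≤ ‖ρ z‖ * 1 := mul_le_mul_of_nonneg_left (cut_norm R z) (norm_nonneg _)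
        _ ≤ |C| := by rw [mul_one]; exact h1.trans (le_abs_self C)
    · have : cut R z = 0 := by
        unfold cut
        rw [if_neg hz]
      rw [this]
      simp
      positivity
  · exact Eventually.of_forall fun _ => hS.mul_left _
  · exact integrable_const _
  · filter_upwards [ae_lt] with z hz
    have h1 := ((hsum z hz).mul_right (conj z ^ p)).mul_left (ρ z * cut R z)
    have h2 : (fun m => (ρ z * cut R z) * (a m * (z ^ m * conj z ^ p))) =
        fun i => ρ z * cut R z * (a i * z ^ i * conj z ^ p) := by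
      funext m
      ring
    rw [h2]
    exact h1

end Pool.Agent.X116.Tz
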