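import Pool.Agent.X116.TzD

/-!
# Frequency orthogonality in the polyanalytic Bergman space
-/

set_option autoImplicit false

namespace Pool.Agent.X116.Tz

open MeasureTheory Filter Topology
open scoped ComplexConjugate

theorem cut_mul_self (R : ℝ) (z : ℂ) : cut R z * cut R z = cut R z := by
  unfold cut
  split_ifs <;> simp

theorem bd_mono (a b : ℕ) : Bd (fun z : ℂ => z ^ a * conj z ^ b) := by
  apply Bd.of_cont
  have := Complex.continuous_conj
  fun_prop

theorem freq_poly {n : ℕ} {x : ℂ → ℂ} (hx : IsPolyanalytic n x) (hx2 : MemLp x 2 dA) (k : ℕ)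
    {ρ : ℂ → ℂ} (hb : Bd ρ) (hr : Radial ρ) (h0 : ∀ j < n, mom ρ (k + j : ℕ) = 0) :
    ∫ z, x z * (ρ z * conj z ^ k) ∂dA = 0 := by
  obtain ⟨H, hH, hxH⟩ := hx
  set Rn : ℕ → ℝ := fun N => (N : ℝ) / (N + 1) with hRn
  have hR0 : ∀ N, 0 ≤ Rn N := fun N => by positivity
  have hR1 : ∀ N, Rn N < 1 := fun N => by
    rw [hRn]
    simp only
    rw [div_lt_one (by positivity)]
    linarith
  have hRt : Tendsto Rn atTop (𝓝 1) := tendsto_natCast_div_add_atTop (1 : ℝ)
  have hcut : ∀ z : ℂ, ‖z‖ < 1 → ∀ᶠ N in atTop, cut (Rn N) z = 1 := by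
    intro z hz
    filter_upwards [hRt.eventually (lt_mem_nhds hz)] with N hN
    unfold cut
    rw [if_pos hN]
  -- finite stage
  have hfin : ∀ N, ∫ z, x z * ((ρ z * cut (Rn N) z) * conj z ^ k) ∂dA =
      ∑ j : Fin n, (((((j : ℕ) + k).factorial : ℂ))⁻¹ * iteratedDeriv ((j : ℕ) + k) (H j) 0) *
        ∫ z, (ρ z * cut (Rn N) z) * (z ^ ((j : ℕ) + k) * conj z ^ ((j : ℕ) + k)) ∂dA := by
    intro N
    rw [← Finset.sum_congr rfl fun j _ => hol_int (hH j) (hR0 N) (hR1 N) hb hr ((j : ℕ) + k)]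
    rw [← integral_finsetSum]
    · apply integral_congr_ae
      filter_upwards [hxH] with z hz
      rw [hz, Finset.sum_mul]
      refine Finset.sum_congr rfl fun j _ => ?_
      ring
    · intro j _
      have h1 : Bd (fun z => (ρ z * conj z ^ ((j : ℕ) + k)) * (H j z * cut (Rn N) z)) := by
        refine Bd.mul ?_ (hol_cut_bd (hH j) (hR1 N))
        have := bd_mono 0 ((j : ℕ) + k)
        simp only [pow_zero, one_mul] at this
        exact hb.mul this
      refine h1.integrable.congr (Eventually.of_forall fun z => ?_)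
      simp only
      ring
  -- limits
  have hxint : Integrable x dA := hx2.integrable (by norm_num)
  obtain ⟨C, hC⟩ := hb.2
  have hlim1 : Tendsto (fun N => ∫ z, x z * ((ρ z * cut (Rn N) z) * conj z ^ k) ∂dA) atTop
      (𝓝 (∫ z, x z * (ρ z * conj z ^ k) ∂dA)) := by
    refine tendsto_integral_of_dominated_convergence (fun z => ‖x z‖ * |C|) ?_
      (hxint.norm.mul_const _) ?_ ?_
    · intro N
      have h1 : Continuous fun z : ℂ => conj z ^ k := by
        have := Complex.continuous_conj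
        fun_prop
      exact hxint.1.mul ((hb.1.mul (cut_meas _).aestronglyMeasurable).mul h1.aestronglyMeasurable)
    · intro N
      filter_upwards [hC, ae_lt] with z h1 h2
      rw [norm_mul, norm_mul, norm_mul, norm_pow, RCLike.norm_conj]
      refine mul_le_mul_of_nonneg_left ?_ (norm_nonneg _)
      calc _ ≤ ‖ρ z‖ * 1 * 1 := by
            refine mul_le_mul (mul_le_mul_of_nonneg_left (cut_norm _ z) (norm_nonneg _))
              (pow_le_one₀ (norm_nonneg z) h2.le) (by positivity) (by positivity)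
        _ ≤ |C| := by rw [mul_one, mul_one]; exact h1.trans (le_abs_self C)
    · filter_upwards [ae_lt] with z hz
      refine tendsto_const_nhds.congr' ?_
      filter_upwards [hcut z hz] with N hN
      rw [hN, mul_one]
  have hlim2 : ∀ p : ℕ, Tendsto
      (fun N => ∫ z, (ρ z * cut (Rn N) z) * (z ^ p * conj z ^ p) ∂dA) atTop
      (𝓝 (∫ z, ρ z * (z ^ p * conj z ^ p) ∂dA)) := by
    intro p
    have hbp := hb.mul (bd_mono p p)
    refine tendsto_integral_of_dominated_convergence (fun z => ‖ρ z * (z ^ p * conj z ^ p)‖) ?_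
      hbp.integrable.norm ?_ ?_
    · intro N
      exact (hb.1.mul (cut_meas _).aestronglyMeasurable).mul (bd_mono p p).1
    · intro N
      refine Eventually.of_forall fun z => ?_
      rw [norm_mul (ρ z * cut (Rn N) z), norm_mul (ρ z) (cut (Rn N) z), norm_mul (ρ z)]
      exact mul_le_mul_of_nonneg_right
        (mul_le_of_le_one_right (norm_nonneg (ρ z)) (cut_norm _ z)) (norm_nonneg _)
    · filter_upwards [ae_lt] with z hz
      refine tendsto_const_nhds.congr' ?_
      filter_upwards [hcut z hz] with N hN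
      rw [hN, mul_one]
  have hlim3 : Tendsto (fun N => ∑ j : Fin n,
      (((((j : ℕ) + k).factorial : ℂ))⁻¹ * iteratedDeriv ((j : ℕ) + k) (H j) 0) *
        ∫ z, (ρ z * cut (Rn N) z) * (z ^ ((j : ℕ) + k) * conj z ^ ((j : ℕ) + k)) ∂dA) atTop
      (𝓝 (∑ j : Fin n,
      (((((j : ℕ) + k).factorial : ℂ))⁻¹ * iteratedDeriv ((j : ℕ) + k) (H j) 0) *
        ∫ z, ρ z * (z ^ ((j : ℕ) + k) * conj z ^ ((j : ℕ) + k)) ∂dA)) :=
    tendsto_finsetSum _ fun j _ => (hlim2 _).const_mul _
  have hz : ∑ j : Fin n,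
      (((((j : ℕ) + k).factorial : ℂ))⁻¹ * iteratedDeriv ((j : ℕ) + k) (H j) 0) *
        ∫ z, ρ z * (z ^ ((j : ℕ) + k) * conj z ^ ((j : ℕ) + k)) ∂dA = 0 := by
    refine Finset.sum_eq_zero fun j _ => ?_
    have h1 := h0 j j.2
    rw [mom] at h1
    simp only [pw_nat] at h1
    rw [add_comm (j : ℕ) k, h1, mul_zero]
  rw [hz] at hlim3
  refine tendsto_nhds_unique hlim1 (hlim3.congr fun N => ?_)
  rw [hfin N]

theorem inner_toLp {u : ℂ → ℂ} (hu : MemLp u 2 dA) (x : Lp ℂ 2 dA) :
    inner ℂ (hu.toLp u) x = ∫ z, x z * conj (u z) ∂dA := by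
  rw [L2.inner_def]
  apply integral_congr_ae
  filter_upwards [hu.coeFn_toLp] with z hz
  rw [hz, RCLike.inner_apply]

theorem freq_orth {n : ℕ} {x : Lp ℂ 2 dA} (hx : x ∈ A2 n) (k : ℕ)
    {ρ : ℂ → ℂ} (hb : Bd ρ) (hr : Radial ρ) (h0 : ∀ j < n, mom ρ (k + j : ℕ) = 0) :
    ∫ z, x z * (ρ z * conj z ^ k) ∂dA = 0 := by
  have hbk : Bd (fun z => ρ z * conj z ^ k) := by
    have := bd_mono 0 k
    simp only [pow_zero, one_mul] at this
    exact hb.mul this
  have hu := hbk.conj.memLp2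
  have h1 : polySub n ≤ (innerSL ℂ (hu.toLp _)).ker := by
    intro y hy
    rw [LinearMap.mem_ker]
    show inner ℂ (hu.toLp _) y = 0
    rw [inner_toLp]
    have h2 := freq_poly (n := n) hy (Lp.memLp y) k hb hr h0
    rw [← h2]
    congr 1
    ext z
    rw [Complex.conj_conj]
  have h3 : A2 n ≤ (innerSL ℂ (hu.toLp _)).ker :=
    Submodule.topologicalClosure_minimal _ h1 (ContinuousLinearMap.isClosed_ker _)
  have h4 := h3 hx
  rw [LinearMap.mem_ker] at h4
  have h5 : inner ℂ (hu.toLp _) x = 0 := h4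
  rw [inner_toLp] at h5
  rw [← h5]
  congr 1
  ext z
  rw [Complex.conj_conj]

end Pool.Agent.X116.Tz
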