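import Pool.Agent.X116.TzE

/-!
# Zero products
-/

set_option autoImplicit false

namespace Pool.Agent.X116.Tz

open MeasureTheory Filter Topology
open scoped ComplexConjugate

/-- Multiplication by an essentially bounded function on `L²`. -/
noncomputable def mulOp (f : ℂ → ℂ) (hf : MemLp f ⊤ dA) (h : Lp ℂ 2 dA) : Lp ℂ 2 dA :=
  (memLp_mul (Bd.of_memLp hf) (Lp.memLp h)).toLp (fun z => f z * h z)

/-- The Toeplitz operator `T_f h = P_n (f h)` on the polyanalytic Bergman space. -/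
noncomputable def toep (n : ℕ) (f : ℂ → ℂ) (hf : MemLp f ⊤ dA) (h : Lp ℂ 2 dA) : Lp ℂ 2 dA :=
  (A2 n).starProjection (mulOp f hf h)

theorem toep_mem (n : ℕ) (f : ℂ → ℂ) (hf : MemLp f ⊤ dA) (h : Lp ℂ 2 dA) :
    toep n f hf h ∈ A2 n := Submodule.starProjection_apply_mem _ _

theorem inner_toep {n : ℕ} {f : ℂ → ℂ} (hf : MemLp f ⊤ dA) (h : Lp ℂ 2 dA) {y : Lp ℂ 2 dA}
    (hy : y ∈ A2 n) : inner ℂ y (toep n f hf h) = inner ℂ y (mulOp f hf h) := by
  have h1 := Submodule.starProjection_inner_eq_zero (K := A2 n) (mulOp f hf h) y hy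
  rw [inner_eq_zero_symm, inner_sub_right, sub_eq_zero] at h1
  exact h1.symm

theorem inner_toep' {n : ℕ} {f : ℂ → ℂ} (hf : MemLp f ⊤ dA) (h : Lp ℂ 2 dA) {y : Lp ℂ 2 dA}
    (hy : y ∈ A2 n) : inner ℂ (toep n f hf h) y = inner ℂ (mulOp f hf h) y := by
  rw [← inner_conj_symm, inner_toep hf h hy, inner_conj_symm]

theorem inner_toLp_mulOp {u f : ℂ → ℂ} (hu : MemLp u 2 dA) (hf : MemLp f ⊤ dA) (x : Lp ℂ 2 dA) :
    inner ℂ (hu.toLp u) (mulOp f hf x) = ∫ z, f z * x z * conj (u z) ∂dA := by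
  rw [inner_toLp]
  apply integral_congr_ae
  filter_upwards [(memLp_mul (Bd.of_memLp hf) (Lp.memLp x)).coeFn_toLp] with z hz
  rw [mulOp, hz]

/-- `⟨f x, y⟩ = ⟨x, conj f y⟩` -/
theorem mulOp_adj {f : ℂ → ℂ} (hf : MemLp f ⊤ dA) (hf' : MemLp (fun z => conj (f z)) ⊤ dA)
    (x y : Lp ℂ 2 dA) :
    inner ℂ (mulOp f hf x) y = inner ℂ x (mulOp (fun z => conj (f z)) hf' y) := by
  rw [L2.inner_def, L2.inner_def]
  apply integral_congr_ae
  filter_upwards [(memLp_mul (Bd.of_memLp hf) (Lp.memLp x)).coeFn_toLp,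
    (memLp_mul (Bd.of_memLp hf') (Lp.memLp y)).coeFn_toLp] with z h1 h2
  rw [mulOp, mulOp, h1, h2, RCLike.inner_apply, RCLike.inner_apply, map_mul]
  ring

theorem mono_memLp (a b : ℕ) : MemLp (fun z : ℂ => z ^ a * conj z ^ b) 2 dA := (bd_mono a b).memLp2

theorem mono_mem {n : ℕ} (j m : ℕ) (hj : j < n) : (mono_memLp m j).toLp _ ∈ A2 n := by
  refine Submodule.le_topologicalClosure _ ?_
  show IsPolyanalytic n _
  refine ⟨fun i z => if (i : ℕ) = j then z ^ m else 0, fun i => ?_, ?_⟩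
  · show DifferentiableOn ℂ (fun z => if (i : ℕ) = j then z ^ m else 0) _
    split_ifs <;> fun_prop
  · filter_upwards [(mono_memLp m j).coeFn_toLp] with z hz
    rw [hz, Finset.sum_eq_single ⟨j, hj⟩]
    · simp only [if_true]
      ring
    · intro i _ hi
      have : (i : ℕ) ≠ j := fun h => hi (Fin.ext h)
      simp only [this, if_false, mul_zero]
    · intro h
      exact absurd (Finset.mem_univ _) h

theorem main_step {n : ℕ} {f : ℂ → ℂ} (hf : MemLp f ⊤ dA) (hr : Radial f) (k : ℕ)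
    (hD : D f n k ≠ 0) {x : Lp ℂ 2 dA} (hx : x ∈ A2 n)
    (h0 : ∀ y ∈ A2 n, inner ℂ y (mulOp f hf x) = 0) :
    ∫ z, x z * conj z ^ k ∂dA = 0 := by
  have hb := Bd.of_memLp hf
  set M : Matrix (Fin n) (Fin n) ℂ := Matrix.of fun i j : Fin n => mom f ((k : ℂ) + (i : ℕ) + (j : ℕ))
    with hM
  have hMu : IsUnit M.det := isUnit_iff_ne_zero.2 hD
  set b : Fin n → ℂ := fun i => mom (fun _ => 1) ((k : ℂ) + (i : ℕ)) with hbdef
  set α : Fin n → ℂ := M⁻¹.mulVec b with hα
  have hMα : M.mulVec α = b := by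
    rw [hα, Matrix.mulVec_mulVec, Matrix.mul_nonsing_inv _ hMu, Matrix.one_mulVec]
  have hMα' : ∀ i : Fin n, ∑ j : Fin n, mom f ((k : ℂ) + (i : ℕ) + (j : ℕ)) * α j =
      mom (fun _ => 1) ((k : ℂ) + (i : ℕ)) := by
    intro i
    have := congrFun hMα i
    simpa [Matrix.mulVec, dotProduct, hM, hbdef] using this
  set ρ : ℂ → ℂ := fun z => f z * (∑ j : Fin n, α j * (z ^ (j : ℕ) * conj z ^ (j : ℕ))) + (-1)
    with hρ
  have hcont : Continuous fun z : ℂ => ∑ j : Fin n, α j * (z ^ (j : ℕ) * conj z ^ (j : ℕ)) := by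
    have := Complex.continuous_conj
    fun_prop
  have hρb : Bd ρ := by
    obtain ⟨C, hC⟩ := (hb.mul (Bd.of_cont hcont)).2
    refine ⟨(hb.mul (Bd.of_cont hcont)).1.add aestronglyMeasurable_const, C + 1, ?_⟩
    filter_upwards [hC] with z hz
    rw [hρ]
    refine (norm_add_le _ _).trans ?_
    rw [norm_neg, norm_one]
    linarith
  have hρr : Radial ρ := by
    obtain ⟨φ, hφ⟩ := hr
    refine ⟨fun r => φ r * (∑ j : Fin n, α j * ((r ^ 2 : ℝ) : ℂ) ^ ((j : ℕ) : ℂ)) + (-1), ?_⟩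
    filter_upwards [hφ] with z hz
    rw [hρ]
    simp only [hz]
    congr 2
    refine Finset.sum_congr rfl fun j _ => ?_
    rw [← pw_nat]
    rfl
  have hIf : ∀ m : ℕ, Integrable (fun z => f z * pw (m : ℂ) z) dA := by
    intro m
    exact (hb.mul (pw_bd (by simp))).integrable
  have hρ0 : ∀ i < n, mom ρ (k + i : ℕ) = 0 := by
    intro i hi
    have h1 := hMα' ⟨i, hi⟩
    simp only at h1
    have h2 : mom ρ (k + i : ℕ) = ∑ j : Fin n, α j * mom f ((k + i + (j : ℕ) : ℕ) : ℂ) -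
        mom (fun _ => 1) ((k + i : ℕ) : ℂ) := by
      simp only [mom]
      rw [← Finset.sum_congr rfl fun j _ => integral_const_mul (α j) _,
        ← integral_finsetSum _ fun j _ => (hIf _).const_mul _, ← integral_sub
          (integrable_finsetSum _ fun j _ => (hIf _).const_mul _)
          (by
            have := (pw_bd (s := ((k + i : ℕ) : ℂ)) (by
              rw [Complex.natCast_re]; positivity)).integrable
            simpa using this)]
      apply integral_congr_ae
      filter_upwards [ae_ne] with z hz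
      rw [hρ]
      simp only
      rw [add_mul, mul_assoc, Finset.sum_mul, Finset.mul_sum, neg_mul, sub_eq_add_neg]
      congr 1
      refine Finset.sum_congr rfl fun j _ => ?_
      rw [← pw_nat, Nat.cast_add (k + i) (j : ℕ), pw_add hz]
      ring
    rw [h2]
    have h3 : ∑ j : Fin n, α j * mom f ((k + i + (j : ℕ) : ℕ) : ℂ) =
        ∑ j : Fin n, mom f ((k : ℂ) + (i : ℕ) + (j : ℕ)) * α j := by
      refine Finset.sum_congr rfl fun j _ => ?_
      push_cast
      ring
    rw [h3, h1]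
    push_cast
    ring
  have h4 := freq_orth hx k hρb hρr hρ0
  -- expand
  have hxint : Integrable x dA := (Lp.memLp x).integrable (by norm_num)
  have hxb : ∀ g : ℂ → ℂ, Bd g → Integrable (fun z => x z * g z) dA := by
    intro g hg
    have := (memLp_mul hg (Lp.memLp x)).integrable (by norm_num)
    refine this.congr (Eventually.of_forall fun z => ?_)
    simp only
    ring
  have hmb : ∀ p : ℕ, Bd (fun z : ℂ => conj z ^ p) := by
    intro p
    have := bd_mono 0 p
    simpa only [pow_zero, one_mul] using this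
  have hterm : ∀ j : Fin n, ∫ z, f z * x z * (z ^ (j : ℕ) * conj z ^ (k + (j : ℕ))) ∂dA = 0 := by
    intro j
    have h5 := h0 _ (mono_mem (n := n) (j : ℕ) (k + (j : ℕ)) j.2)
    rw [inner_toLp_mulOp] at h5
    rw [← h5]
    congr 1
    ext z
    rw [map_mul, map_pow, map_pow, Complex.conj_conj]
    ring
  have hfin : ∫ z, x z * (ρ z * conj z ^ k) ∂dA =
      ∑ j : Fin n, α j * ∫ z, f z * x z * (z ^ (j : ℕ) * conj z ^ (k + (j : ℕ))) ∂dA -
        ∫ z, x z * conj z ^ k ∂dA := by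
    have hI : ∀ j : Fin n,
        Integrable (fun z => α j * (f z * x z * (z ^ (j : ℕ) * conj z ^ (k + (j : ℕ))))) dA := by
      intro j
      refine Integrable.const_mul ?_ _
      refine (hxb _ (hb.mul (bd_mono (j : ℕ) (k + (j : ℕ))))).congr
        (Eventually.of_forall fun z => ?_)
      simp only
      ring
    rw [← Finset.sum_congr rfl fun j _ => integral_const_mul (α j) _,
      ← integral_finsetSum _ fun j _ => hI j,
      ← integral_sub (integrable_finsetSum _ fun j _ => hI j) (hxb _ (hmb k))]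
    congr 1
    ext z
    rw [hρ]
    simp only
    rw [add_mul, mul_add, Finset.mul_sum, Finset.sum_mul, Finset.mul_sum, sub_eq_add_neg]
    congr 1
    · refine Finset.sum_congr rfl fun j _ => ?_
      rw [pow_add]
      ring
    · ring
  rw [hfin] at h4
  simp only [hterm, mul_zero, Finset.sum_const_zero, zero_sub, neg_eq_zero] at h4
  exact h4

theorem prod_zero {n : ℕ} (hn : 1 ≤ n) {f g : ℂ → ℂ} (hf : MemLp f ⊤ dA) (hg : MemLp g ⊤ dA)
    (hr : Radial f)
    (h0 : ∀ x ∈ A2 n, ∀ y ∈ A2 n, inner ℂ y (mulOp f hf (toep n g hg x)) = 0) (k l : ℕ) :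
    D f n k * ∫ z, g z * (z ^ l * conj z ^ k) ∂dA = 0 := by
  by_cases hD : D f n k = 0
  · rw [hD, zero_mul]
  have hx0 := mono_mem (n := n) 0 l hn
  have h1 := main_step hf hr k hD (toep_mem n g hg ((mono_memLp l 0).toLp _))
    (fun y hy => h0 _ hx0 y hy)
  have hy0 := mono_mem (n := n) 0 k hn
  have h2 := inner_toep hg ((mono_memLp l 0).toLp _) hy0
  rw [inner_toLp_mulOp, inner_toLp] at h2
  have h3 : ∫ z, g z * (z ^ l * conj z ^ k) ∂dA = 0 := by
    calc ∫ z, g z * (z ^ l * conj z ^ k) ∂dA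
        = ∫ z, g z * ((mono_memLp l 0).toLp _ : Lp ℂ 2 dA) z * conj (z ^ k * conj z ^ 0) ∂dA := by
          apply integral_congr_ae
          filter_upwards [(mono_memLp l 0).coeFn_toLp] with z hz
          rw [hz]
          simp
          ring
      _ = _ := h2.symm
      _ = ∫ z, (toep n g hg ((mono_memLp l 0).toLp _) : Lp ℂ 2 dA) z * conj z ^ k ∂dA := by
          congr 1
          ext z
          simp
      _ = 0 := h1
  rw [h3, mul_zero]

end Pool.Agent.X116.Tz
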