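import Pool.Agent.X116.TzF

/-!
# Zero products: the final argument
-/

set_option autoImplicit false

namespace Pool.Agent.X116.Tz

open MeasureTheory Filter Topology
open scoped ComplexConjugate

theorem mul_zero_cancel {F G : ℂ → ℂ} (hF : DifferentiableOn ℂ F {w : ℂ | 0 < w.re})
    (hG : DifferentiableOn ℂ G {w : ℂ | 0 < w.re}) (hFG : ∀ s : ℂ, 0 < s.re → F s * G s = 0)
    {s1 : ℂ} (hs1 : 0 < s1.re) (h1 : F s1 ≠ 0) : ∀ s : ℂ, 0 < s.re → G s = 0 := by
  have hnb : {w : ℂ | 0 < w.re} ∈ 𝓝 s1 := halfplane_open.mem_nhds hs1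
  have hc : ContinuousAt F s1 := hF.continuousOn.continuousAt hnb
  have hev : G =ᶠ[𝓝 s1] 0 := by
    filter_upwards [hc.eventually_ne h1, hnb] with s h2 h3
    exact (mul_eq_zero.1 (hFG s h3)).resolve_left h2
  intro s hs
  exact (hG.analyticOnNhd halfplane_open).eqOn_zero_of_preconnected_of_eventuallyEq_zero
    halfplane_preconn hs1 hev hs

theorem second_zero {n : ℕ} {f g : ℂ → ℂ} (hf : Bd f) (hg : Bd g)
    (hprod : ∀ k l : ℕ, D f n k * ∫ z, g z * (z ^ l * conj z ^ k) ∂dA = 0)
    (hD : ¬ ∀ s : ℂ, 0 < s.re → D f n s = 0) : g =ᵐ[dA] 0 := by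
  obtain ⟨s1, hs1, hs1D⟩ := generic_shift (D_diff hf n) hD
  have hs1' : 0 < (s1 : ℂ).re := by simpa using hs1
  obtain ⟨C, hC0, hC⟩ := D_bd hf n
  have hga : ∀ a : ℕ, Bd (fun z => g z * z ^ a) := by
    intro a
    have := bd_mono a 0
    simp only [pow_zero, mul_one] at this
    exact hg.mul this
  have hgb : ∀ a : ℕ, Bd (fun z => g z * conj z ^ a) := by
    intro a
    have := bd_mono 0 a
    simp only [pow_zero, one_mul] at this
    exact hg.mul this
  -- the two families of moment functions vanish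
  have hA : ∀ a : ℕ, ∀ s : ℂ, 0 < s.re → mom (fun z => g z * z ^ a) s = 0 := by
    intro a
    obtain ⟨C', hC0', hC'⟩ := mom_norm (hga a)
    refine mul_zero_cancel (D_diff hf n) (mom_diff (hga a)) ?_ hs1' (by simpa using hs1D 0)
    refine PlanePD.carlson (fun s => D f n s * mom (fun z => g z * z ^ a) s)
      ((D_diff hf n).mul (mom_diff (hga a))) (C * C') 0 ?_ 0 ?_
    · intro w hw
      have hw' : 0 ≤ w.re := by linarith
      rw [pow_zero, mul_one, norm_mul]
      exact mul_le_mul (hC w hw') (hC' w hw') (norm_nonneg _) hC0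
    · refine Eventually.of_forall fun k => ?_
      rw [zero_add]
      have := hprod k (k + a)
      rw [← this]
      congr 1
      rw [mom]
      congr 1
      ext z
      rw [pw_nat]
      ring
  have hB : ∀ a : ℕ, ∀ s : ℂ, 0 < s.re → mom (fun z => g z * conj z ^ a) s = 0 := by
    intro a
    obtain ⟨C', hC0', hC'⟩ := mom_norm (hgb a)
    have hDa : DifferentiableOn ℂ (fun s => D f n (s + a)) {w : ℂ | 0 < w.re} := by
      refine (D_diff hf n).comp (by fun_prop) ?_
      intro w hw
      rw [Set.mem_ofPred_eq] at hw ⊢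
      simp
      positivity
    refine mul_zero_cancel hDa (mom_diff (hgb a)) ?_ hs1' (hs1D a)
    refine PlanePD.carlson (fun s => D f n (s + a) * mom (fun z => g z * conj z ^ a) s)
      (hDa.mul (mom_diff (hgb a))) (C * C') 0 ?_ 0 ?_
    · intro w hw
      have hw' : 0 ≤ w.re := by linarith
      rw [pow_zero, mul_one, norm_mul]
      refine mul_le_mul (hC _ ?_) (hC' w hw') (norm_nonneg _) hC0
      simp
      positivity
    · refine Eventually.of_forall fun l => ?_
      rw [zero_add]
      have := hprod (l + a) l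
      rw [← this]
      congr 1
      · push_cast
        rfl
      · rw [mom]
        congr 1
        ext z
        rw [pw_nat]
        ring
  -- all moments of |z|² g vanish
  have hh : Bd (fun z => g z * pw 1 z) := hg.mul (pw_bd (by simp))
  have h0 : (fun z => g z * pw 1 z) =ᵐ[dA] 0 := by
    refine moments_zero hh fun a b => ?_
    rcases le_total b a with hab | hab
    · obtain ⟨c, rfl⟩ := Nat.exists_eq_add_of_le hab
      have h1 := hA c ((b + 1 : ℕ) : ℂ) (by rw [Complex.natCast_re]; positivity)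
      rw [← h1, mom]
      congr 1
      ext z
      rw [pw_nat]
      have h2 := pw_nat 1 z
      rw [Nat.cast_one] at h2
      rw [h2]
      ring
    · obtain ⟨c, rfl⟩ := Nat.exists_eq_add_of_le hab
      have h1 := hB c ((a + 1 : ℕ) : ℂ) (by rw [Complex.natCast_re]; positivity)
      rw [← h1, mom]
      congr 1
      ext z
      rw [pw_nat]
      have h2 := pw_nat 1 z
      rw [Nat.cast_one] at h2
      rw [h2]
      ring
  filter_upwards [h0, ae_ne] with z h1 h2
  simp only [Pi.zero_apply, mul_eq_zero] at h1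
  exact h1.resolve_right (pw_ne h2)

theorem zero_product_first {n : ℕ} (hn : 1 ≤ n) {f g : ℂ → ℂ} (hf : MemLp f ⊤ dA)
    (hg : MemLp g ⊤ dA) (hr : Radial f)
    (h0 : ∀ x ∈ A2 n, ∀ y ∈ A2 n, inner ℂ y (mulOp f hf (toep n g hg x)) = 0) :
    f =ᵐ[dA] 0 ∨ g =ᵐ[dA] 0 := by
  by_cases hD : ∀ s : ℂ, 0 < s.re → D f n s = 0
  · exact Or.inl (D_ne_zero (Bd.of_memLp hf) hr n hD)
  · exact Or.inr (second_zero (Bd.of_memLp hf) (Bd.of_memLp hg)
      (prod_zero hn hf hg hr h0) hD)

theorem zero_product {n : ℕ} (hn : 1 ≤ n) {f g : ℂ → ℂ} (hf : MemLp f ⊤ dA)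
    (hg : MemLp g ⊤ dA) (hr : Radial f ∨ Radial g)
    (h0 : ∀ h ∈ A2 n, toep n f hf (toep n g hg h) = 0) :
    f =ᵐ[dA] 0 ∨ g =ᵐ[dA] 0 := by
  rcases hr with hr | hr
  · refine zero_product_first hn hf hg hr fun x hx y hy => ?_
    rw [← inner_toep hf _ hy, h0 x hx, inner_zero_right]
  · have hf' : MemLp (fun z => conj (f z)) ⊤ dA := (Bd.of_memLp hf).conj.memLp
    have hg' : MemLp (fun z => conj (g z)) ⊤ dA := (Bd.of_memLp hg).conj.memLp
    have hr' : Radial (fun z => conj (g z)) := by
      obtain ⟨φ, hφ⟩ := hr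
      refine ⟨fun r => conj (φ r), ?_⟩
      filter_upwards [hφ] with z hz
      rw [hz]
    have key := zero_product_first hn hg' hf' hr' fun x hx y hy => by
      rw [← mulOp_adj hg hg', ← inner_toep' hg y (toep_mem n _ hf' x),
        inner_toep hf' x (toep_mem n g hg y), ← mulOp_adj hf hf', ← inner_toep' hf _ hx,
        h0 y hy, inner_zero_left]
    rcases key with h | h
    · right
      filter_upwards [h] with z hz
      simpa using hz
    · left
      filter_upwards [h] with z hz
      simpa using hz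

end Pool.Agent.X116.Tz
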