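import Pool.Agent.X116.TzG

/-!
# The objects of the statement, over a named copy of `L²`
-/

set_option autoImplicit false

namespace Pool.Agent.X116.Tz

open MeasureTheory Filter Topology
open scoped ComplexConjugate

/-- `L²(𝔻, dA)` (complex valued), Mathlib's `Lp ℂ 2 dA`. -/
def L2 : Type := Lp ℂ 2 dA

/-- the normed group structure of `Lp ℂ 2 dA` -/
noncomputable def L2.group : NormedAddCommGroup L2 :=
  (MeasureTheory.Lp.instNormedAddCommGroup : NormedAddCommGroup (Lp ℂ 2 dA))

attribute [instance] L2.group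

/-- the inner product of `Lp ℂ 2 dA` -/
noncomputable def L2.ips : InnerProductSpace ℂ L2 :=
  (MeasureTheory.L2.innerProductSpace : InnerProductSpace ℂ (Lp ℂ 2 dA))

attribute [instance] L2.ips

theorem L2.complete : CompleteSpace L2 :=
  (inferInstance : CompleteSpace (Lp ℂ 2 dA))

attribute [instance] L2.complete

/-- A representative of an element of `L²(𝔻, dA)`. -/
noncomputable def L2.fn (h : L2) : ℂ → ℂ := ((show Lp ℂ 2 dA from h) : ℂ → ℂ)

/-- `f ∈ L^∞(𝔻)`. -/
def Linf (f : ℂ → ℂ) : Prop := MemLp f ⊤ dA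

/-- Almost everywhere equality on the disc. -/
def AEq (f g : ℂ → ℂ) : Prop := f =ᵐ[dA] g

theorem mulL2_memLp {f : ℂ → ℂ} (hf : Linf f) (h : L2) :
    MemLp (fun z => f z * h.fn z) 2 dA :=
  memLp_mul (Bd.of_memLp hf) (Lp.memLp (show Lp ℂ 2 dA from h))

/-- The product `f h ∈ L²(𝔻, dA)` of `f ∈ L^∞(𝔻)` and `h ∈ L²(𝔻, dA)`. -/
noncomputable def mulL2 (f : ℂ → ℂ) (hf : Linf f) (h : L2) : L2 :=
  (mulL2_memLp hf h).toLp (fun z => f z * h.fn z)

theorem polyL2_zero (n : ℕ) : IsPolyanalytic n (0 : L2).fn := (polySub n).zero_mem'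

theorem polyL2_add {n : ℕ} {a b : L2} (ha : IsPolyanalytic n a.fn) (hb : IsPolyanalytic n b.fn) :
    IsPolyanalytic n (a + b).fn := (polySub n).add_mem' ha hb

theorem polyL2_smul {n : ℕ} (c : ℂ) {a : L2} (ha : IsPolyanalytic n a.fn) :
    IsPolyanalytic n (c • a).fn := (polySub n).smul_mem' c ha

/-- The square integrable polyanalytic functions of order `n`. -/
noncomputable def polyL2 (n : ℕ) : Submodule ℂ L2 where
  carrier := {h | IsPolyanalytic n h.fn}
  zero_mem' := polyL2_zero n
  add_mem' := polyL2_add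
  smul_mem' := fun c _ => polyL2_smul c

/-- The polyanalytic Bergman space `A²_n`. -/
noncomputable def Bergman (n : ℕ) : Submodule ℂ L2 := (polyL2 n).topologicalClosure

theorem Bergman_proj (n : ℕ) : (Bergman n).HasOrthogonalProjection := by
  have : CompleteSpace (Bergman n) := by
    unfold Bergman
    infer_instance
  infer_instance

attribute [instance] Bergman_proj

/-- The orthogonal projection of `L²(𝔻, dA)` onto `A²_n`. -/
noncomputable def proj (n : ℕ) (v : L2) : L2 := (Bergman n).starProjection v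

/-- The Toeplitz operator `T_f h = P_n (f h)`. -/
noncomputable def toeplitz (n : ℕ) (f : ℂ → ℂ) (hf : Linf f) (h : L2) : L2 :=
  proj n (mulL2 f hf h)

theorem zero_product' {n : ℕ} (hn : 1 ≤ n) {f g : ℂ → ℂ} (hf : Linf f)
    (hg : Linf g) (hr : Radial f ∨ Radial g)
    (h0 : ∀ h ∈ Bergman n, toeplitz n f hf (toeplitz n g hg h) = 0) :
    AEq f 0 ∨ AEq g 0 :=
  zero_product hn hf hg hr h0

end Pool.Agent.X116.Tz
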