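import Mathlib

set_option autoImplicit false

open Complex Set Filter Metric Topology

namespace Pool.Agent.X116.Ui

/-- weight -/
noncomputable def rho (z : ℂ) : ℝ := |z.im| + Real.log (1 + ‖z‖ ^ 2)

theorem rho_nonneg (z : ℂ) : 0 ≤ rho z := by
  unfold rho
  have h1 : (0:ℝ) ≤ Real.log (1 + ‖z‖ ^ 2) := Real.log_nonneg (by nlinarith [norm_nonneg z])
  positivity

theorem rho_cont : Continuous rho := by
  unfold rho
  apply Continuous.add
  · exact Complex.continuous_im.abs
  · apply Continuous.log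
    · fun_prop
    · intro z; positivity

theorem exp_rho (z : ℂ) : 1 + ‖z‖ ^ 2 ≤ Real.exp (rho z) := by
  unfold rho
  rw [Real.exp_add, Real.exp_log (by positivity)]
  have : 1 ≤ Real.exp |z.im| := Real.one_le_exp (abs_nonneg _)
  nlinarith [norm_nonneg z, sq_nonneg ‖z‖]

theorem one_add_le (z : ℂ) : 1 + ‖z‖ ≤ 2 * Real.exp (rho z) := by
  have := exp_rho z
  nlinarith [sq_nonneg (‖z‖ - 1), norm_nonneg z]

theorem rho_var {z w : ℂ} (h : ‖z - w‖ ≤ 1) : rho z ≤ rho w + 3 := by
  unfold rho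
  have h1 : |z.im| ≤ |w.im| + 1 := by
    have h2 : |(z - w).im| ≤ ‖z - w‖ := Complex.abs_im_le_norm _
    rw [Complex.sub_im] at h2
    have h3 := abs_sub_abs_le_abs_sub z.im w.im
    linarith
  have h4 : ‖z‖ ≤ ‖w‖ + 1 := by
    have := norm_sub_norm_le z w
    linarith
  have h5 : 1 + ‖z‖ ^ 2 ≤ 3 * (1 + ‖w‖ ^ 2) := by
    nlinarith [norm_nonneg z, norm_nonneg w, sq_nonneg (‖w‖ - 1)]
  have h6 : Real.log (1 + ‖z‖ ^ 2) ≤ Real.log 3 + Real.log (1 + ‖w‖ ^ 2) := by
    rw [← Real.log_mul (by norm_num) (by positivity)]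
    exact Real.log_le_log (by positivity) h5
  have h7 : Real.log 3 ≤ 3 - 1 := Real.log_le_sub_one_of_pos (by norm_num)
  linarith

/-- uniformly bounded holomorphic functions are locally Lipschitz, uniformly -/
theorem lip_of_bdd {F : ℂ → ℂ} {x : ℂ} {R M : ℝ} (hd : DifferentiableOn ℂ F (ball x R))
    (hb : ∀ z ∈ ball x R, ‖F z‖ ≤ M) : ∀ z ∈ ball x R, dist (F z) (F x) ≤ (2 * M) / R * dist z x := by
  intro z hz
  have hR : 0 < R := lt_of_le_of_lt dist_nonneg hz
  apply Complex.dist_le_div_mul_dist_of_mapsTo_ball hd _ hz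
  intro w hw
  rw [mem_closedBall, dist_eq_norm]
  have h1 := hb w hw
  have h2 := hb x (mem_ball_self hR)
  have h3 := norm_sub_le (F w) (F x)
  linarith

/-- uniformly bounded holomorphic functions converging pointwise converge locally uniformly -/
theorem tlu_pt {ι : Type*} {l : Filter ι} [l.NeBot]
    {F : ι → ℂ → ℂ} {f : ℂ → ℂ} {b : ℂ → ℝ} (hbc : Continuous b)
    (hd : ∀ i, Differentiable ℂ (F i)) (hb : ∀ i, ∀ z, ‖F i z‖ ≤ b z)
    (hp : ∀ z, Tendsto (fun i => F i z) l (𝓝 (f z))) :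
    TendstoLocallyUniformlyOn F f l univ := by
  obtain ⟨i0⟩ : Nonempty ι := l.nonempty_of_neBot
  rw [Metric.tendstoLocallyUniformlyOn_iff]
  intro ε hε x hx
  obtain ⟨M, hM1⟩ := (isCompact_closedBall x 1).exists_bound_of_continuousOn hbc.continuousOn
  have hbM : ∀ i, ∀ z ∈ ball x 1, ‖F i z‖ ≤ M := by
    intro i z hz
    exact (hb i z).trans ((le_abs_self _).trans (hM1 z (ball_subset_closedBall hz)))
  have hM : 0 ≤ M := le_trans (norm_nonneg _) (hbM i0 x (mem_ball_self one_pos))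
  set L : ℝ := (2 * M + 1) / 1 with hL
  have hLp : 0 < L := by positivity
  have key : ∀ i, ∀ z ∈ ball x 1, dist (F i z) (F i x) ≤ L * dist z x := by
    intro i z hz
    refine (lip_of_bdd ((hd i).differentiableOn) (fun w hw => hbM i w hw) z hz).trans ?_
    rw [hL]
    gcongr
    linarith
  have keyf : ∀ z ∈ ball x 1, dist (f z) (f x) ≤ L * dist z x := by
    intro z hz
    have h1 : Tendsto (fun i => dist (F i z) (F i x)) l (𝓝 (dist (f z) (f x))) :=
      (hp z).dist (hp x)
    exact le_of_tendsto h1 (Eventually.of_forall fun i => key i z hz)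
  refine ⟨ball x (min 1 (ε / (4 * L))), mem_nhdsWithin_of_mem_nhds (ball_mem_nhds _ (by positivity)), ?_⟩
  have hx' : ∀ᶠ i in l, dist (F i x) (f x) < ε / 4 := (Metric.tendsto_nhds.1 (hp x)) _ (by positivity)
  filter_upwards [hx'] with i hi y hy
  have hy1 : y ∈ ball x 1 := ball_subset_ball (min_le_left _ _) hy
  have hy2 : dist y x < ε / (4 * L) := lt_of_lt_of_le hy (min_le_right _ _)
  have hy3 : L * dist y x < ε / 4 := by
    calc L * dist y x < L * (ε / (4 * L)) := by gcongr
      _ = ε / 4 := by field_simp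
  have h1 := key i y hy1
  have h2 := keyf y hy1
  calc dist (f y) (F i y) ≤ dist (f y) (f x) + dist (f x) (F i x) + dist (F i x) (F i y) :=
        dist_triangle4 _ _ _ _
    _ < ε := by
        rw [dist_comm (f x), dist_comm (F i x) (F i y)]
        linarith

theorem tlu_iter {ι : Type*} {l : Filter ι} [l.NeBot] {F : ι → ℂ → ℂ} {f : ℂ → ℂ}
    (h : TendstoLocallyUniformlyOn F f l univ) (hd : ∀ i, Differentiable ℂ (F i)) (k : ℕ) :
    TendstoLocallyUniformlyOn (fun i => iteratedDeriv k (F i)) (iteratedDeriv k f) l univ := by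
  induction k with
  | zero => simpa [iteratedDeriv_zero] using h
  | succ k ih =>
    have h1 := ih.deriv (Eventually.of_forall fun i => ?_) isOpen_univ
    · have e1 : (fun i => iteratedDeriv (k + 1) (F i)) = deriv ∘ (fun i => iteratedDeriv k (F i)) := by
        funext i
        simp [iteratedDeriv_succ]
      rw [e1, iteratedDeriv_succ]
      exact h1
    · have hc : ContDiff ℂ ⊤ (F i) := (hd i).contDiff
      exact (hc.differentiable_iteratedDeriv k (by exact_mod_cast (WithTop.coe_lt_top _))).differentiableOn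

theorem tlu_iter_pt {ι : Type*} {l : Filter ι} [l.NeBot] {F : ι → ℂ → ℂ} {f : ℂ → ℂ}
    (h : TendstoLocallyUniformlyOn F f l univ) (hd : ∀ i, Differentiable ℂ (F i)) (k : ℕ) (z : ℂ) :
    Tendsto (fun i => iteratedDeriv k (F i) z) l (𝓝 (iteratedDeriv k f z)) := by
  have h1 := tlu_iter h hd k
  exact h1.tendsto_at (mem_univ z)

theorem tlu_diff {ι : Type*} {l : Filter ι} [l.NeBot] {F : ι → ℂ → ℂ} {f : ℂ → ℂ}
    (h : TendstoLocallyUniformlyOn F f l univ) (hd : ∀ i, Differentiable ℂ (F i)) :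
    Differentiable ℂ f := by
  rw [← differentiableOn_univ]
  exact h.differentiableOn (Eventually.of_forall fun i => (hd i).differentiableOn) isOpen_univ

/-- Montel along an ultrafilter -/
theorem montel {F : ℕ → ℂ → ℂ} {b : ℂ → ℝ} (hbc : Continuous b)
    (hd : ∀ i, Differentiable ℂ (F i)) (hb : ∀ i, ∀ z, ‖F i z‖ ≤ b z) (𝒰 : Ultrafilter ℕ) :
    ∃ G : ℂ → ℂ, Differentiable ℂ G ∧ (∀ z, ‖G z‖ ≤ b z) ∧
      ∀ k z, Tendsto (fun i => iteratedDeriv k (F i) z) 𝒰 (𝓝 (iteratedDeriv k G z)) := by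
  have h1 : ∀ z, ∃ v : ℂ, Tendsto (fun n => F n z) 𝒰 (𝓝 v) := by
    intro z
    have hcomp := isCompact_closedBall (0 : ℂ) (b z)
    have hle : ((𝒰.map (fun n => F n z) : Ultrafilter ℂ) : Filter ℂ) ≤ 𝓟 (closedBall 0 (b z)) := by
      rw [le_principal_iff, Ultrafilter.coe_map, Filter.mem_map]
      refine Filter.mem_of_superset Filter.univ_mem ?_
      intro n _
      change F n z ∈ closedBall 0 (b z)
      rw [mem_closedBall_zero_iff]
      exact hb n z
    obtain ⟨v, -, hv⟩ := hcomp.ultrafilter_le_nhds _ hle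
    exact ⟨v, hv⟩
  choose G hG using h1
  have h2 := tlu_pt hbc hd hb hG
  refine ⟨G, tlu_diff h2 hd, ?_, fun k z => tlu_iter_pt h2 hd k z⟩
  intro z
  exact le_of_tendsto (hG z).norm (Eventually.of_forall fun i => hb i z)

/-- Leibniz for a linear factor -/
theorem iter_mul {g : ℂ → ℂ} (hg : Differentiable ℂ g) (a : ℂ) (k : ℕ) (x : ℂ) :
    iteratedDeriv (k + 1) (fun z => (z - a) * g z) x
      = (x - a) * iteratedDeriv (k + 1) g x + (k + 1) * iteratedDeriv k g x := by
  have hc : ContDiff ℂ ⊤ g := hg.contDiff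
  have hdk : ∀ j : ℕ, Differentiable ℂ (iteratedDeriv j g) := fun j =>
    hc.differentiable_iteratedDeriv j (by exact_mod_cast (WithTop.coe_lt_top _))
  induction k generalizing x with
  | zero =>
    rw [zero_add, iteratedDeriv_one, iteratedDeriv_one]
    simp only [iteratedDeriv_zero, CharP.cast_eq_zero, zero_add, one_mul]
    have h1 : HasDerivAt (fun z => (z - a) * g z) (1 * g x + (x - a) * deriv g x) x :=
      ((hasDerivAt_id x).sub_const a).mul (hg x).hasDerivAt
    rw [h1.deriv]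
    ring
  | succ k ih =>
    rw [iteratedDeriv_succ]
    have e : iteratedDeriv (k + 1) (fun z => (z - a) * g z)
        = fun x => (x - a) * iteratedDeriv (k + 1) g x + (k + 1) * iteratedDeriv k g x := by
      funext y
      exact ih y
    rw [e]
    have h1 : HasDerivAt (iteratedDeriv (k + 1) g) (iteratedDeriv (k + 2) g x) x := by
      have := ((hdk (k + 1)) x).hasDerivAt
      rwa [← iteratedDeriv_succ] at this
    have h2 : HasDerivAt (iteratedDeriv k g) (iteratedDeriv (k + 1) g x) x := by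
      have := ((hdk k) x).hasDerivAt
      rwa [← iteratedDeriv_succ] at this
    have h3 : HasDerivAt (fun x => (x - a) * iteratedDeriv (k + 1) g x + (k + 1) * iteratedDeriv k g x)
        (1 * iteratedDeriv (k + 1) g x + (x - a) * iteratedDeriv (k + 2) g x
          + (k + 1) * iteratedDeriv (k + 1) g x) x :=
      (((hasDerivAt_id x).sub_const a).mul h1).add (h2.const_mul ((k : ℂ) + 1))
    rw [h3.deriv]
    push_cast
    ring

/-- Cauchy estimate -/
theorem cauchy {g : ℂ → ℂ} (hg : Differentiable ℂ g) (k : ℕ) (x : ℂ) {M : ℝ}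
    (hM : ∀ z ∈ closedBall x 1, ‖g z‖ ≤ M) : ‖iteratedDeriv k g x‖ ≤ k.factorial * M := by
  have := norm_iteratedDeriv_le_of_forall_mem_sphere_norm_le (c := x) (R := 1) (C := M) k one_pos
    (f := g) hg.diffContOnCl (fun z hz => hM z (sphere_subset_closedBall hz))
  simpa using this

/-- series of entire functions -/
theorem series {F : ℕ → ℂ → ℂ} (hd : ∀ n, Differentiable ℂ (F n)) {b : ℂ → ℝ} (hbc : Continuous b)
    {u : ℕ → ℝ} (hu : Summable u) (hu0 : ∀ n, 0 ≤ u n) (hF : ∀ n z, ‖F n z‖ ≤ u n * b z) :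
    Differentiable ℂ (fun z => ∑' n, F n z) ∧ (∀ z, ‖∑' n, F n z‖ ≤ (∑' n, u n) * b z) ∧
      ∀ k z, iteratedDeriv k (fun z => ∑' n, F n z) z = ∑' n, iteratedDeriv k (F n) z := by
  have hsum : ∀ z, Summable fun n => F n z := by
    intro z
    exact Summable.of_norm_bounded (hu.mul_right (b z)) (fun n => hF n z)
  have hp : ∀ z, Tendsto (fun s : Finset ℕ => ∑ n ∈ s, F n z) atTop (𝓝 (∑' n, F n z)) :=
    fun z => (hsum z).hasSum
  have hdS : ∀ s : Finset ℕ, Differentiable ℂ (fun z => ∑ n ∈ s, F n z) := by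
    intro s
    exact Differentiable.fun_sum fun n _ => hd n
  have hbz : ∀ z, ∀ n, 0 ≤ u n * b z := fun z n => (norm_nonneg _).trans (hF n z)
  have hbS : ∀ (s : Finset ℕ) z, ‖∑ n ∈ s, F n z‖ ≤ (∑' n, u n) * b z := by
    intro s z
    calc ‖∑ n ∈ s, F n z‖ ≤ ∑ n ∈ s, u n * b z := norm_sum_le_of_le _ fun n _ => hF n z
      _ ≤ ∑' n, u n * b z := (hu.mul_right (b z)).sum_le_tsum s fun n _ => hbz z n
      _ = (∑' n, u n) * b z := tsum_mul_right
  have h2 : TendstoLocallyUniformlyOn (fun (s : Finset ℕ) z => ∑ n ∈ s, F n z)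
      (fun z => ∑' n, F n z) (atTop : Filter (Finset ℕ)) univ :=
    tlu_pt (b := fun z => (∑' n, u n) * b z) (continuous_const.mul hbc) hdS hbS hp
  refine ⟨tlu_diff h2 hdS, ?_, ?_⟩
  · intro z
    exact le_of_tendsto (hp z).norm (Eventually.of_forall fun s => hbS s z)
  · intro k z
    have h3 := tlu_iter_pt h2 hdS k z
    have e : ∀ s : Finset ℕ, iteratedDeriv k (fun z => ∑ n ∈ s, F n z) z
        = ∑ n ∈ s, iteratedDeriv k (F n) z := by
      intro s
      apply iteratedDeriv_fun_sum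
      intro n _
      exact (hd n).contDiff.contDiffAt
    simp_rw [e] at h3
    have h4 : HasSum (fun n => iteratedDeriv k (F n) z)
        (iteratedDeriv k (fun z => ∑' n, F n z) z) := by
      simpa [HasSum] using h3
    exact h4.tsum_eq.symm

end Pool.Agent.X116.Ui
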