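import Pool.Agent.X116.UiA

set_option autoImplicit false

open Complex Set Filter Metric Topology BoundedContinuousFunction

namespace Pool.Agent.X116.Ui

def Cls (A B : ℝ) (g : ℂ → ℂ) : Prop := Differentiable ℂ g ∧ ∀ z, ‖g z‖ ≤ A * Real.exp (B * rho z)

def Interp (a : ℕ → ℂ) (p : ℕ → ℕ) (lam : ℕ → ℕ → ℂ) (g : ℂ → ℂ) : Prop :=
  ∀ n, ∀ κ < p n, iteratedDeriv κ g (a n) / (κ.factorial : ℂ) = lam n κ

theorem unif (a : ℕ → ℂ) (p : ℕ → ℕ)
    (H : ∀ lam : ℕ → ℕ → ℂ, (∃ C > (0:ℝ), ∀ n κ, ‖lam n κ‖ ≤ C) →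
      ∃ A > (0:ℝ), ∃ B > (0:ℝ), ∃ g, Cls A B g ∧ Interp a p lam g) :
    ∃ A > (0:ℝ), ∃ B > (0:ℝ), ∀ lam : ℕ → ℕ → ℂ, (∀ n κ, ‖lam n κ‖ ≤ 1) →
      ∃ g, Cls A B g ∧ Interp a p lam g := by
  classical
  set S : ℕ → Set ((ℕ × ℕ) →ᵇ ℂ) := fun k =>
    {x | ∃ g, Cls k k g ∧ Interp a p (fun n κ => x (n, κ)) g} with hS
  have hclosed : ∀ k, IsClosed (S k) := by
    intro k
    apply IsSeqClosed.isClosed
    intro u x hu hx
    choose g hg using hu
    have hbc : Continuous fun z => (k : ℝ) * Real.exp (k * rho z) := by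
      have := rho_cont
      fun_prop
    obtain ⟨G, hG1, hG2, hG3⟩ := montel hbc (fun i => (hg i).1.1) (fun i => (hg i).1.2)
      (hyperfilter ℕ)
    refine ⟨G, ⟨hG1, hG2⟩, ?_⟩
    intro n κ hκ
    have h1 : Tendsto (fun i => iteratedDeriv κ (g i) (a n) / (κ.factorial : ℂ)) (hyperfilter ℕ)
        (𝓝 (iteratedDeriv κ G (a n) / (κ.factorial : ℂ))) := (hG3 κ (a n)).div_const _
    have h2 : Tendsto (fun i => u i (n, κ)) (hyperfilter ℕ) (𝓝 (x (n, κ))) := by
      have h3 : Tendsto (fun i => u i (n, κ)) atTop (𝓝 (x (n, κ))) := by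
        have h4 : Continuous fun f : (ℕ × ℕ) →ᵇ ℂ => f (n, κ) :=
          (BoundedContinuousFunction.evalCLM ℂ (n, κ)).continuous
        exact (h4.tendsto x).comp hx
      exact h3.mono_left Nat.hyperfilter_le_atTop
    have h5 : (fun i => iteratedDeriv κ (g i) (a n) / (κ.factorial : ℂ)) = fun i => u i (n, κ) := by
      funext i
      exact (hg i).2 n κ hκ
    rw [h5] at h1
    exact tendsto_nhds_unique h1 h2
  have hU : ⋃ k, S k = univ := by
    rw [eq_univ_iff_forall]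
    intro x
    obtain ⟨A, hA, B, hB, g, hg1, hg2⟩ := H (fun n κ => x (n, κ)) ⟨‖x‖ + 1, by positivity, by
      intro n κ
      have := x.norm_coe_le_norm (n, κ)
      linarith⟩
    obtain ⟨k, hk⟩ := exists_nat_ge (max A B)
    rw [mem_iUnion]
    refine ⟨k, g, ⟨hg1.1, ?_⟩, hg2⟩
    intro z
    refine (hg1.2 z).trans ?_
    have h1 := rho_nonneg z
    have h2 : A ≤ k := (le_max_left _ _).trans hk
    have h3 : B ≤ k := (le_max_right _ _).trans hk
    gcongr
  obtain ⟨k, x, hx⟩ := nonempty_interior_of_iUnion_of_closed hclosed hU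
  rw [mem_interior_iff_mem_nhds, Metric.mem_nhds_iff] at hx
  obtain ⟨r, hr, hball⟩ := hx
  refine ⟨(2 / r) * (2 * (k + 1)), by positivity, k + 1, by positivity, ?_⟩
  intro lam hlam
  obtain ⟨g0, hg0, hg0'⟩ := hball (mem_ball_self hr)
  set L : (ℕ × ℕ) →ᵇ ℂ := BoundedContinuousFunction.ofNormedAddCommGroupDiscrete
    (fun q : ℕ × ℕ => lam q.1 q.2) 1 (fun q => hlam q.1 q.2) with hL
  have hLn : ‖L‖ ≤ 1 := by
    apply BoundedContinuousFunction.norm_ofNormedAddCommGroup_le _ zero_le_one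
  have hmem : x + ((r / 2 : ℝ) : ℂ) • L ∈ ball x r := by
    rw [mem_ball, dist_eq_norm, add_sub_cancel_left, norm_smul, Complex.norm_real,
      Real.norm_of_nonneg (by positivity)]
    nlinarith [norm_nonneg L]
  obtain ⟨g1, hg1, hg1'⟩ := hball hmem
  refine ⟨fun z => ((2 / r : ℝ) : ℂ) * (g1 z - g0 z), ⟨?_, ?_⟩, ?_⟩
  · exact (hg1.1.sub hg0.1).const_mul _
  · intro z
    rw [norm_mul, Complex.norm_real, Real.norm_of_nonneg (by positivity)]
    have h1 := hg1.2 z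
    have h2 := hg0.2 z
    have h3 : Real.exp (k * rho z) ≤ Real.exp ((k + 1) * rho z) := by
      apply Real.exp_le_exp.2
      have := rho_nonneg z
      nlinarith
    have h4 : (k : ℝ) * Real.exp (k * rho z) ≤ (k + 1) * Real.exp ((k + 1) * rho z) := by
      have := Real.exp_pos (k * rho z)
      gcongr
      linarith
    have h5 := norm_sub_le (g1 z) (g0 z)
    calc 2 / r * ‖g1 z - g0 z‖ ≤ 2 / r * (2 * ((k + 1) * Real.exp ((k + 1) * rho z))) := by
          gcongr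
          linarith
      _ = _ := by ring
  · intro n κ hκ
    have e : iteratedDeriv κ (fun z => ((2 / r : ℝ) : ℂ) * (g1 z - g0 z)) (a n)
        = ((2 / r : ℝ) : ℂ) * (iteratedDeriv κ g1 (a n) - iteratedDeriv κ g0 (a n)) := by
      have c1 : ContDiffAt ℂ κ g1 (a n) := hg1.1.contDiff.contDiffAt
      have c0 : ContDiffAt ℂ κ g0 (a n) := hg0.1.contDiff.contDiffAt
      have c2 : ContDiffAt ℂ κ (fun z => g1 z - g0 z) (a n) := c1.sub c0
      rw [iteratedDeriv_const_mul _ c2, iteratedDeriv_fun_sub c1 c0]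
    rw [e]
    have h1 := hg1' n κ hκ
    have h0 := hg0' n κ hκ
    have h2 : (x + ((r / 2 : ℝ) : ℂ) • L) (n, κ) = x (n, κ) + ((r / 2 : ℝ) : ℂ) * lam n κ := by
      simp [hL]
    simp only [h2] at h1
    have h3 : iteratedDeriv κ g1 (a n) / (κ.factorial : ℂ) - iteratedDeriv κ g0 (a n) / (κ.factorial : ℂ)
        = ((r / 2 : ℝ) : ℂ) * lam n κ := by
      rw [h1, h0]; ring
    have hrc : (r : ℂ) ≠ 0 := by exact_mod_cast hr.ne'
    calc ((2 / r : ℝ) : ℂ) * (iteratedDeriv κ g1 (a n) - iteratedDeriv κ g0 (a n)) / (κ.factorial : ℂ)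
        = ((2 / r : ℝ) : ℂ) * (iteratedDeriv κ g1 (a n) / (κ.factorial : ℂ)
            - iteratedDeriv κ g0 (a n) / (κ.factorial : ℂ)) := by ring
      _ = ((2 / r : ℝ) : ℂ) * (((r / 2 : ℝ) : ℂ) * lam n κ) := by rw [h3]
      _ = lam n κ := by push_cast; field_simp

end Pool.Agent.X116.Ui
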