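import Pool.Agent.X116.UiB

set_option autoImplicit false

open Complex Set Filter Metric Topology MeasureTheory

namespace Pool.Agent.X116.Ui

theorem sep {a : ℕ → ℂ} {A B : ℝ}
    {n m : ℕ} {g : ℂ → ℂ} (hg : Cls A B g) (h1 : g (a n) = 1) (h0 : g (a m) = 0)
    (hB : 0 < B) (hA : 0 < A) :
    1 / (2 * (A * Real.exp (B * (rho (a n) + 3)))) ≤ dist (a m) (a n) := by
  set M := A * Real.exp (B * (rho (a n) + 3)) with hM
  have hMb : ∀ z ∈ ball (a n) 1, ‖g z‖ ≤ M := by
    intro z hz
    refine (hg.2 z).trans ?_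
    rw [hM]
    have h2 : rho z ≤ rho (a n) + 3 := by
      apply rho_var
      rw [← dist_eq_norm]
      exact (mem_ball.1 hz).le
    gcongr
  have hM1 : 1 ≤ M := by
    have := hMb (a n) (mem_ball_self one_pos)
    rwa [h1, norm_one] at this
  by_contra hcon
  push Not at hcon
  have h3 : 1 / (2 * M) ≤ 1 := by
    rw [div_le_one (by positivity)]
    linarith
  have h4 : a m ∈ ball (a n) 1 := by
    rw [mem_ball]
    exact hcon.trans_le h3
  have h5 := lip_of_bdd (hg.1.differentiableOn) hMb (a m) h4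
  rw [h1, h0, dist_zero_left, norm_one, div_one] at h5
  have h6 : 2 * M * dist (a m) (a n) < 2 * M * (1 / (2 * M)) := by
    gcongr
  rw [mul_one_div_cancel (by positivity)] at h6
  linarith

theorem summ {a : ℕ → ℂ} {A B : ℝ} (hB : 0 < B) (hA : 0 < A)
    (h : ∀ n, ∃ g, Cls A B g ∧ g (a n) = 1 ∧ ∀ m, m ≠ n → g (a m) = 0) :
    Summable fun n => Real.exp (-(2 * B + 3) * rho (a n)) := by
  set δ : ℕ → ℝ := fun n => 1 / (2 * (A * Real.exp (B * (rho (a n) + 3)))) with hδ
  have hδpos : ∀ n, 0 < δ n := fun n => by rw [hδ]; positivity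
  have hM1 : ∀ n, 1 ≤ A * Real.exp (B * (rho (a n) + 3)) := by
    intro n
    obtain ⟨g, hg, h1, -⟩ := h n
    have h2 := hg.2 (a n)
    rw [h1, norm_one] at h2
    refine h2.trans ?_
    gcongr
    linarith
  have hδ1 : ∀ n, δ n ≤ 1 := by
    intro n
    simp only [hδ]
    rw [div_le_one (by have := hM1 n; linarith)]
    have := hM1 n
    linarith
  have hsep : ∀ n m, m ≠ n → δ n ≤ dist (a m) (a n) := by
    intro n m hmn
    obtain ⟨g, hg, h1, h0⟩ := h n
    exact sep hg h1 (h0 m hmn) hB hA
  set s : ℕ → Set ℂ := fun n => ball (a n) (δ n / 2) with hs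
  have hdisj : Pairwise (Function.onFun Disjoint s) := by
    intro n m hnm
    change Disjoint (s n) (s m)
    rw [Set.disjoint_left]
    intro z hz1 hz2
    simp only [hs, mem_ball] at hz1 hz2
    have h1 := hsep n m hnm.symm
    have h2 := hsep m n hnm
    have h3 := dist_triangle (a m) z (a n)
    rw [dist_comm (a m) z] at h3
    rw [dist_comm (a n) (a m)] at h2
    linarith
  have hint : Integrable (fun z : ℂ => (1 + ‖z‖) ^ (-(3:ℝ))) := by
    apply integrable_one_add_norm
    rw [Complex.finrank_real_complex]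
    norm_num
  have hsm := (hasSum_integral_iUnion (s := s) (fun n => measurableSet_ball) hdisj
    (hint.integrableOn)).summable
  have hlow : ∀ n, (Real.pi / (16 * A ^ 2 * Real.exp (6 * B)) / 64) *
      Real.exp (-(2 * B + 3) * rho (a n)) ≤ ∫ z in s n, (1 + ‖z‖) ^ (-(3:ℝ)) := by
    intro n
    have h1 : ∀ z ∈ s n, (4 * Real.exp (rho (a n))) ^ (-(3:ℝ)) ≤ (1 + ‖z‖) ^ (-(3:ℝ)) := by
      intro z hz
      apply Real.rpow_le_rpow_of_nonpos (by positivity)
      · have h2 : ‖z‖ ≤ ‖a n‖ + 1 := by
          have h3 := mem_ball.1 hz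
          rw [dist_eq_norm] at h3
          have h4 := norm_sub_norm_le z (a n)
          have := hδ1 n
          linarith
        have h5 := one_add_le (a n)
        have h6 : 1 ≤ Real.exp (rho (a n)) := Real.one_le_exp (rho_nonneg _)
        linarith [norm_nonneg (a n)]
      · norm_num
    have h2 : (volume (s n)).toReal = Real.pi * (δ n / 2) ^ 2 := by
      simp only [hs]
      rw [Complex.volume_ball, ENNReal.toReal_mul, ENNReal.toReal_pow,
        ENNReal.toReal_ofReal (by have := hδpos n; positivity)]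
      simp
      ring
    have h3 : ∫ z in s n, (4 * Real.exp (rho (a n))) ^ (-(3:ℝ)) ≤ ∫ z in s n, (1 + ‖z‖) ^ (-(3:ℝ)) := by
      apply setIntegral_mono_on
      · rw [integrableOn_const_iff]
        right
        simp only [hs]
        exact measure_ball_lt_top
      · exact hint.integrableOn
      · exact measurableSet_ball
      · exact h1
    refine le_trans ?_ h3
    rw [setIntegral_const, Measure.real, h2, smul_eq_mul]
    apply le_of_eq
    have e1 : (4 * Real.exp (rho (a n))) ^ (-(3:ℝ)) = Real.exp (-(3 * rho (a n))) / 64 := by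
      rw [Real.mul_rpow (by norm_num) (Real.exp_pos _).le, ← Real.exp_mul]
      have : (4:ℝ) ^ (-(3:ℝ)) = 1 / 64 := by
        rw [Real.rpow_neg (by norm_num)]
        norm_num
      rw [this]
      rw [show rho (a n) * -(3:ℝ) = -(3 * rho (a n)) by ring]
      ring
    rw [e1]
    have e2 : δ n = Real.exp (-(B * (rho (a n) + 3))) / (2 * A) := by
      simp only [hδ]
      rw [Real.exp_neg]
      field_simp
    rw [e2]
    have e3 : (Real.exp (-(B * (rho (a n) + 3))) / (2 * A) / 2) ^ 2
        = Real.exp (-(2 * (B * (rho (a n) + 3)))) / (16 * A ^ 2) := by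
      rw [div_pow, div_pow, ← Real.exp_nat_mul]
      push_cast
      rw [show (2:ℝ) * -(B * (rho (a n) + 3)) = -(2 * (B * (rho (a n) + 3))) by ring]
      ring
    rw [e3]
    have e4 : Real.exp (-(2 * B + 3) * rho (a n)) = Real.exp (-(3 * rho (a n))) *
        Real.exp (-(2 * (B * (rho (a n) + 3)))) * Real.exp (6 * B) := by
      rw [← Real.exp_add, ← Real.exp_add]
      congr 1
      ring
    rw [e4]
    have := Real.exp_pos (6 * B)
    field_simp
    try ring
  have hsm2 : Summable fun n => (Real.pi / (16 * A ^ 2 * Real.exp (6 * B)) / 64) *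
      Real.exp (-(2 * B + 3) * rho (a n)) :=
    Summable.of_nonneg_of_le (fun n => by have := Real.pi_pos; positivity) hlow hsm
  have hc : (Real.pi / (16 * A ^ 2 * Real.exp (6 * B)) / 64) ≠ 0 := by
    have := Real.pi_pos
    positivity
  exact (summable_mul_left_iff hc).1 hsm2

end Pool.Agent.X116.Ui
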