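import Pool.Agent.X116.ZLobe

/-!
# Concavity of `μ ↦ arccos (x - cos μ)`
-/

open Finset

namespace Pool.Agent.X116.Z

/-- the curve -/
noncomputable def ac (x m : ℝ) : ℝ := Real.arccos (x - Real.cos m)

lemma ac_cont (x : ℝ) : Continuous (ac x) := by unfold ac; fun_prop

section

variable {x : ℝ} (h0 : 0 < x) (h2 : x < 2)

include h0 h2

lemma cos_gt {m : ℝ} (hm : m ∈ Set.Ioo 0 (Real.arccos (x - 1))) :
    x - 1 < Real.cos m ∧ Real.cos m < 1 := by
  have hpi := Real.arccos_le_pi (x - 1)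
  constructor
  · have := Real.cos_lt_cos_of_nonneg_of_le_pi hm.1.le hpi hm.2
    rwa [Real.cos_arccos (by linarith) (by linarith)] at this
  · have := Real.cos_lt_cos_of_nonneg_of_le_pi le_rfl (hm.2.le.trans hpi) hm.1
    rwa [Real.cos_zero] at this

lemma ac_anti : StrictAntiOn (ac x) (Set.Icc 0 (Real.arccos (x - 1))) := by
  intro p hp q hq hpq
  have hpi := Real.arccos_le_pi (x - 1)
  unfold ac
  have hc : Real.cos q < Real.cos p :=
    Real.cos_lt_cos_of_nonneg_of_le_pi hp.1 (hq.2.trans hpi) hpq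
  apply Real.strictAntiOn_arccos
  · constructor
    · linarith [Real.cos_le_one p]
    · have := Real.cos_le_cos_of_nonneg_of_le_pi hp.1 hpi hp.2
      rw [Real.cos_arccos (by linarith) (by linarith)] at this
      linarith
  · constructor
    · linarith [Real.cos_le_one q]
    · have := Real.cos_le_cos_of_nonneg_of_le_pi hq.1 hpi hq.2
      rw [Real.cos_arccos (by linarith) (by linarith)] at this
      linarith
  · linarith

lemma ac_deriv {m : ℝ} (hm : m ∈ Set.Ioo 0 (Real.arccos (x - 1))) :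
    HasDerivAt (ac x) (-√(Real.sin m ^ 2 / (1 - (x - Real.cos m) ^ 2))) m := by
  obtain ⟨g1, g2⟩ := cos_gt h0 h2 hm
  have hpi := Real.arccos_le_pi (x - 1)
  have hs : 0 ≤ Real.sin m := Real.sin_nonneg_of_mem_Icc ⟨hm.1.le, hm.2.le.trans hpi⟩
  have h := (Real.hasDerivAt_arccos (x := x - Real.cos m) (by linarith) (by linarith)).comp m
    ((Real.hasDerivAt_cos m).const_sub x)
  refine h.congr_deriv ?_
  rw [Real.sqrt_div (sq_nonneg _), Real.sqrt_sq hs]
  ring

lemma ac_conc : StrictConcaveOn ℝ (Set.Icc 0 (Real.arccos (x - 1))) (ac x) := by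
  apply StrictAntiOn.strictConcaveOn_of_deriv (convex_Icc _ _) (ac_cont x).continuousOn
  rw [interior_Icc]
  intro p hp q hq hpq
  rw [(ac_deriv h0 h2 hp).deriv, (ac_deriv h0 h2 hq).deriv, neg_lt_neg_iff]
  obtain ⟨g1, g2⟩ := cos_gt h0 h2 hp
  obtain ⟨g3, g4⟩ := cos_gt h0 h2 hq
  have hpi := Real.arccos_le_pi (x - 1)
  have hc : Real.cos q < Real.cos p :=
    Real.cos_lt_cos_of_nonneg_of_le_pi hp.1.le (hq.2.le.trans hpi) hpq
  have s1 : Real.sin p ^ 2 = 1 - Real.cos p ^ 2 := by
    have := Real.sin_sq_add_cos_sq p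
    linarith
  have s2 : Real.sin q ^ 2 = 1 - Real.cos q ^ 2 := by
    have := Real.sin_sq_add_cos_sq q
    linarith
  rw [s1, s2]
  set u := Real.cos p with hu
  set v := Real.cos q with hv
  have d1 : 0 < 1 - (x - u) ^ 2 := by nlinarith
  have d2 : 0 < 1 - (x - v) ^ 2 := by nlinarith
  apply Real.sqrt_lt_sqrt
  · apply div_nonneg _ d1.le
    nlinarith
  · rw [div_lt_div_iff₀ d1 d2]
    have key : (1 - v ^ 2) * (1 - (x - u) ^ 2) - (1 - u ^ 2) * (1 - (x - v) ^ 2)
        = x * (u - v) * (2 * (1 + u * v) - x * (u + v)) := by ring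
    have hpos : 0 < 2 * (1 + u * v) - x * (u + v) := by
      rcases le_or_gt (u + v) 0 with h | h
      · nlinarith
      · have : x * (u + v) ≤ (1 + v) * (u + v) := by nlinarith
        nlinarith
    have : 0 < x * (u - v) * (2 * (1 + u * v) - x * (u + v)) := by
      have : 0 < u - v := by linarith
      positivity
    linarith

end

end Pool.Agent.X116.Z
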