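import Mathlib

/-!
# Sign changes of power series whose coefficients have a constant sign from some index on
-/

open Finset Polynomial

namespace Pool.Agent.X116.Z

lemma poly_alt (d : ℕ) : ∀ (p : ℝ[X]) (ε σ : ℝ), ε ≠ 0 → (∀ n, d ≤ n → 0 ≤ ε * p.coeff n) →
    ∀ y : ℕ → ℝ, (∀ i ≤ d + 1, 0 < y i) → (∀ i ≤ d, y i < y (i + 1)) →
    ¬ ∀ i ≤ d + 1, 0 < σ * (-1) ^ i * p.eval (y i) := by
  induction d with
  | zero =>
    intro p ε σ hε hc y hy _ hs
    have h1 : ∀ t : ℝ, 0 < t → 0 ≤ ε * p.eval t := by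
      intro t ht
      rw [Polynomial.eval_eq_sum_range, Finset.mul_sum]
      refine Finset.sum_nonneg fun n _ => ?_
      rw [← mul_assoc]
      exact mul_nonneg (hc n (Nat.zero_le _)) (by positivity)
    have a0 := h1 _ (hy 0 (by norm_num))
    have a1 := h1 _ (hy 1 (by norm_num))
    have b0 := hs 0 (by norm_num)
    have b1 := hs 1 (by norm_num)
    have h2 := mul_pos b0 b1
    have h3 := mul_nonneg a0 a1
    have h4 : 0 < ε ^ 2 := by positivity
    have e : σ * (-1) ^ 0 * p.eval (y 0) * (σ * (-1) ^ 1 * p.eval (y 1))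
        = -(σ ^ 2 * (p.eval (y 0) * p.eval (y 1))) := by ring
    rw [e] at h2
    have h5 : 0 ≤ p.eval (y 0) * p.eval (y 1) := by
      by_contra hcon
      push Not at hcon
      nlinarith
    have h6 := mul_nonneg (sq_nonneg σ) h5
    linarith
  | succ d ih =>
    intro p ε σ hε hc y hy hm hs
    have hmvt : ∀ i, ∃ ξ : ℝ, i ≤ d + 1 → y i < ξ ∧ ξ < y (i + 1) ∧
        p.derivative.eval ξ * (y (i + 1) - y i) = p.eval (y (i + 1)) - p.eval (y i) := by
      intro i
      by_cases hi : i ≤ d + 1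
      · obtain ⟨ξ, hξ, h⟩ := exists_deriv_eq_slope (fun t => p.eval t) (hm i hi)
          p.continuous.continuousOn p.differentiable.differentiableOn
        refine ⟨ξ, fun _ => ⟨hξ.1, hξ.2, ?_⟩⟩
        rw [Polynomial.deriv] at h
        rw [h]
        have : y (i + 1) - y i ≠ 0 := by
          have := hm i hi
          intro h
          linarith
        field_simp
      · exact ⟨0, fun h => absurd h hi⟩
    choose ξ hξ using hmvt
    refine ih p.derivative ε (-σ) hε (fun n hn => ?_) ξ (fun i hi => ?_) (fun i hi => ?_)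
      fun i hi => ?_
    · rw [Polynomial.coeff_derivative, ← mul_assoc]
      exact mul_nonneg (hc (n + 1) (by omega)) (by positivity)
    · exact (hy i (by omega)).trans (hξ i hi).1
    · exact (hξ i (by omega)).2.1.trans (hξ (i + 1) (by omega)).1
    · obtain ⟨_, _, h⟩ := hξ i hi
      have h1 := hs i (by omega)
      have h2 := hs (i + 1) (by omega)
      have h3 := hm i hi
      have h4 : 0 < -σ * (-1) ^ i * (p.eval (y (i + 1)) - p.eval (y i)) := by
        rw [pow_succ] at h2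
        nlinarith
      rw [← h, ← mul_assoc] at h4
      exact pos_of_mul_pos_left h4 (by linarith)

lemma ser_alt {d : ℕ} {c : ℕ → ℝ} {ε : ℝ} (hε : ε ≠ 0) (hc : ∀ n, d ≤ n → 0 ≤ ε * c n)
    {f : ℝ → ℝ} (hf : ∀ t, 0 < t → t < 1 → HasSum (fun n => c n * t ^ n) (f t)) (q : ℝ[X])
    (hq : ∀ n, d ≤ n → q.coeff n = 0) (σ : ℝ) (y : ℕ → ℝ) (hy : ∀ i ≤ d + 1, 0 < y i ∧ y i < 1)
    (hm : ∀ i ≤ d, y i < y (i + 1)) : ¬ ∀ i ≤ d + 1, 0 < σ * (-1) ^ i * (f (y i) + q.eval (y i)) := by
  intro hs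
  set p : ℕ → ℝ[X] := fun N => ∑ n ∈ range N, C (c n) * X ^ n + q with hp
  have hev : ∀ N t, (p N).eval t = ∑ n ∈ range N, c n * t ^ n + q.eval t := by
    intro N t
    simp only [hp, eval_add, eval_finsetSum, eval_mul, eval_C, eval_pow, eval_X]
  have hlim : ∀ i ≤ d + 1, ∀ᶠ N in Filter.atTop, 0 < σ * (-1) ^ i * (p N).eval (y i) := by
    intro i hi
    have h1 := (hf _ (hy i hi).1 (hy i hi).2).tendsto_sum_nat
    have h2 : Filter.Tendsto (fun N => σ * (-1) ^ i * (p N).eval (y i)) Filter.atTop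
        (nhds (σ * (-1) ^ i * (f (y i) + q.eval (y i)))) := by
      simp only [hev]
      exact (h1.add_const _).const_mul _
    exact h2.eventually (lt_mem_nhds (hs i hi))
  have hall : ∀ᶠ N in Filter.atTop, ∀ i ∈ range (d + 2), 0 < σ * (-1) ^ i * (p N).eval (y i) := by
    rw [Filter.eventually_all_finset]
    intro i hi
    exact hlim i (by have := Finset.mem_range.mp hi; omega)
  obtain ⟨N, hN⟩ := hall.exists
  refine poly_alt d (p N) ε σ hε (fun n hn => ?_) y (fun i hi => (hy i hi).1) hm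
    fun i hi => hN i (Finset.mem_range.mpr (by omega))
  simp only [hp, coeff_add, finsetSum_coeff, coeff_C_mul, coeff_X_pow, hq n hn, add_zero]
  rw [Finset.mul_sum]
  refine Finset.sum_nonneg fun m _ => ?_
  by_cases h : n = m
  · subst h
    simpa using hc n hn
  · simp [h]

/-- inserting two points -/
lemma insert_alt {k : ℕ} {c : ℕ → ℝ} {ε : ℝ} (hε : ε ≠ 0) (hc : ∀ n, k ≤ n → 0 ≤ ε * c n)
    {f : ℝ → ℝ} (hf : ∀ t, 0 < t → t < 1 → HasSum (fun n => c n * t ^ n) (f t)) (q : ℝ[X])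
    (hq : ∀ n, k ≤ n → q.coeff n = 0) (Y : ℕ → ℝ) (hY : ∀ i < k, 0 < Y i ∧ Y i < 1)
    (hm : ∀ i, i + 1 < k → Y i < Y (i + 1))
    (hs : ∀ i < k, 0 < (-1) ^ i * (f (Y i) + q.eval (Y i))) {j : ℕ} (hj : j + 1 < k) {p r : ℝ}
    (h1 : Y j < p) (h2 : p < r) (h3 : r < Y (j + 1))
    (sp : 0 < (-1) ^ (j + 1) * (f p + q.eval p)) (sr : 0 < (-1) ^ j * (f r + q.eval r)) :
    False := by
  set Z : ℕ → ℝ := fun i => if i ≤ j then Y i else if i = j + 1 then p else if i = j + 2 then r
    else Y (i - 2) with hZ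
  have z1 : ∀ i ≤ j, Z i = Y i := fun i hi => by simp [hZ, hi]
  have z2 : Z (j + 1) = p := by simp [hZ]
  have z3 : Z (j + 2) = r := by simp [hZ]
  have z4 : ∀ i, j + 1 ≤ i → Z (i + 2) = Y i := by
    intro i hi
    have a1 : ¬ i + 2 ≤ j := by omega
    have a2 : ¬ i + 2 = j + 1 := by omega
    have a3 : ¬ i + 2 = j + 2 := by omega
    simp only [hZ, a1, a2, a3, if_false]
    rfl
  have hcase : ∀ i, i ≤ j ∨ i = j + 1 ∨ i = j + 2 ∨ ∃ m, j + 1 ≤ m ∧ i = m + 2 := by
    intro i
    by_cases a : i ≤ j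
    · exact Or.inl a
    · by_cases b : i = j + 1
      · exact Or.inr (Or.inl b)
      · by_cases c : i = j + 2
        · exact Or.inr (Or.inr (Or.inl c))
        · exact Or.inr (Or.inr (Or.inr ⟨i - 2, by omega, by omega⟩))
  have y1 := hY j (by omega)
  have y2 := hY (j + 1) hj
  refine ser_alt hε hc hf q hq 1 Z (fun i hi => ?_) (fun i hi => ?_) fun i hi => ?_
  · rcases hcase i with h | rfl | rfl | ⟨m, hm1, rfl⟩
    · rw [z1 i h]; exact hY i (by omega)
    · rw [z2]; exact ⟨by linarith, by linarith⟩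
    · rw [z3]; exact ⟨by linarith, by linarith⟩
    · rw [z4 m hm1]; exact hY m (by omega)
  · rcases hcase i with h | rfl | rfl | ⟨m, hm1, rfl⟩
    · rcases Nat.lt_or_ge i j with h' | h'
      · rw [z1 i h, z1 (i + 1) (by omega)]
        exact hm i (by omega)
      · have : i = j := by omega
        subst this
        rw [z1 i h, z2]
        exact h1
    · rw [z2, z3]; exact h2
    · rw [z3, z4 (j + 1) le_rfl]; exact h3
    · have e : m + 2 + 1 = (m + 1) + 2 := by ring
      rw [e, z4 m hm1, z4 (m + 1) (by omega)]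
      exact hm m (by omega)
  · rw [one_mul]
    rcases hcase i with h | rfl | rfl | ⟨m, hm1, rfl⟩
    · rw [z1 i h]; exact hs i (by omega)
    · rw [z2]; exact sp
    · rw [z3, pow_add]; simpa using sr
    · rw [z4 m hm1, pow_add]
      simpa using hs m (by omega)

/-- at most one zero, and simple, between two consecutive points of an alternating chain -/
lemma unique_zero {k : ℕ} {c : ℕ → ℝ} {ε : ℝ} (hε : ε ≠ 0)
    (hc : ∀ n, k ≤ n → 0 ≤ ε * c n)
    {f : ℝ → ℝ} (hf : ∀ t, 0 < t → t < 1 → HasSum (fun n => c n * t ^ n) (f t))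
    (Y : ℕ → ℝ) (hY : ∀ i < k, 0 < Y i ∧ Y i < 1)
    (hm : ∀ i, i + 1 < k → Y i < Y (i + 1))
    (hs : ∀ i < k, 0 < (-1) ^ i * f (Y i)) {j : ℕ} (hj : j + 1 < k) {z : ℝ}
    (h1 : Y j < z) (h3 : z < Y (j + 1)) (hz : f z = 0) :
    (∀ r, Y j < r → r < Y (j + 1) → f r = 0 → r = z) ∧ ¬ HasDerivAt f 0 z := by
  -- a small constant
  have hδ : ∃ δ : ℝ, 0 < δ ∧ ∀ i < k, δ < (-1) ^ i * f (Y i) := by
    have hall : ∀ᶠ δ : ℝ in nhdsWithin 0 (Set.Ioi 0), ∀ i ∈ range k, δ < (-1) ^ i * f (Y i) := by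
      rw [Filter.eventually_all_finset]
      intro i hi
      exact nhdsWithin_le_nhds (gt_mem_nhds (hs i (Finset.mem_range.mp hi)))
    obtain ⟨δ, h1, h2⟩ := (hall.and self_mem_nhdsWithin).exists
    exact ⟨δ, h2, fun i hi => h1 i (Finset.mem_range.mpr hi)⟩
  obtain ⟨δ, hδ0, hδ⟩ := hδ
  have hs2 : ((-1 : ℝ) ^ j) * (-1) ^ j = 1 := by rw [← mul_pow]; norm_num
  -- the perturbation
  have hpert : ∀ w : ℝ, 0 < w → w < 1 → ∀ n, k ≤ n →
      (C ((-1) ^ j * δ) * (X - C w) : ℝ[X]).coeff n = 0 := by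
    intro w _ _ n hn
    have : (C ((-1) ^ j * δ) * (X - C w) : ℝ[X]).natDegree ≤ 1 := by
      refine (natDegree_C_mul_le _ _).trans ?_
      simp
    exact coeff_eq_zero_of_natDegree_lt (by omega)
  have hpev : ∀ w t : ℝ, (C ((-1) ^ j * δ) * (X - C w) : ℝ[X]).eval t = (-1) ^ j * δ * (t - w) := by
    intro w t
    simp
  have hps : ∀ w : ℝ, 0 < w → w < 1 → ∀ i < k,
      0 < (-1) ^ i * (f (Y i) + (C ((-1) ^ j * δ) * (X - C w) : ℝ[X]).eval (Y i)) := by
    intro w hw0 hw1 i hi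
    rw [hpev]
    have h := hδ i hi
    have hy := hY i hi
    have habs : |(-1 : ℝ) ^ i * ((-1) ^ j * δ * (Y i - w))| ≤ δ := by
      rw [abs_mul, abs_mul, abs_mul, abs_pow, abs_neg, abs_one, one_pow, one_mul, abs_pow,
        abs_neg, abs_one, one_pow, one_mul, abs_of_pos hδ0]
      have : |Y i - w| ≤ 1 := by
        rw [abs_le]
        constructor <;> linarith [hy.1, hy.2]
      nlinarith
    have := neg_abs_le ((-1 : ℝ) ^ i * ((-1) ^ j * δ * (Y i - w)))
    rw [mul_add]
    linarith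
  have y1 := hY j (by omega)
  have y2 := hY (j + 1) hj
  -- two distinct zeros are impossible
  have htwo : ∀ p r : ℝ, Y j < p → p < r → r < Y (j + 1) → f p = 0 → f r = 0 → False := by
    intro p r g1 g2 g3 fp fr
    refine insert_alt hε hc hf _ (hpert ((p + r) / 2) (by linarith) (by linarith)) Y hY hm
      (hps _ (by linarith) (by linarith)) hj g1 g2 g3 ?_ ?_
    · rw [hpev, fp, zero_add, pow_succ]
      have : (-1 : ℝ) ^ j * -1 * ((-1) ^ j * δ * (p - (p + r) / 2)) = ((-1) ^ j * (-1) ^ j)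
          * (δ * ((r - p) / 2)) := by ring
      rw [this, hs2, one_mul]
      have : 0 < r - p := by linarith
      positivity
    · rw [hpev, fr, zero_add]
      have : (-1 : ℝ) ^ j * ((-1) ^ j * δ * (r - (p + r) / 2)) = ((-1) ^ j * (-1) ^ j)
          * (δ * ((r - p) / 2)) := by ring
      rw [this, hs2, one_mul]
      have : 0 < r - p := by linarith
      positivity
  refine ⟨fun r g1 g2 hr => ?_, fun hd => ?_⟩
  · rcases lt_trichotomy r z with h | h | h
    · exact (htwo r z g1 h h3 hr hz).elim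
    · exact h
    · exact (htwo z r h1 h g2 hz hr).elim
  · -- a double zero
    have hz0 : 0 < z := y1.1.trans h1
    have hz1 : z < 1 := h3.trans y2.2
    set g : ℝ → ℝ := fun t => f t + (C ((-1) ^ j * δ) * (X - C z) : ℝ[X]).eval t with hg
    have hgd : HasDerivAt (fun t => (-1) ^ j * g t) δ z := by
      have h5 : HasDerivAt (fun t => (-1 : ℝ) ^ j * δ * (t - z)) ((-1) ^ j * δ * 1) z :=
        ((hasDerivAt_id z).sub_const z).const_mul _
      have h6 := (hd.add h5).const_mul ((-1 : ℝ) ^ j)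
      have e : (-1 : ℝ) ^ j * (0 + (-1) ^ j * δ * 1) = δ := by
        have : (-1 : ℝ) ^ j * (0 + (-1) ^ j * δ * 1) = ((-1) ^ j * (-1) ^ j) * δ := by ring
        rw [this, hs2, one_mul]
      rw [e] at h6
      refine h6.congr_of_eventuallyEq (Filter.Eventually.of_forall fun t => ?_)
      simp only [hg, hpev, Pi.add_apply]
    have hgz : (-1 : ℝ) ^ j * g z = 0 := by
      simp only [hg, hpev, hz]
      ring
    have hslope := hasDerivAt_iff_tendsto_slope.mp hgd
    have hev := hslope.eventually (lt_mem_nhds hδ0)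
    have hev2 : ∀ᶠ t in nhds z, t ≠ z → 0 < slope (fun t => (-1 : ℝ) ^ j * g t) z t :=
      eventually_nhdsWithin_iff.mp hev
    obtain ⟨η, hη, hball⟩ := Metric.eventually_nhds_iff.mp hev2
    -- the two points
    set τ : ℝ := min (η / 2) (min ((z - Y j) / 2) ((Y (j + 1) - z) / 2)) with hτ
    have τ0 : 0 < τ := by
      refine lt_min (by linarith) (lt_min (by linarith) (by linarith))
    have τ1 : τ ≤ η / 2 := min_le_left _ _
    have τ2 : τ ≤ (z - Y j) / 2 := (min_le_right _ _).trans (min_le_left _ _)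
    have τ3 : τ ≤ (Y (j + 1) - z) / 2 := (min_le_right _ _).trans (min_le_right _ _)
    have sl1 := hball (y := z - τ) (by
      rw [Real.dist_eq, sub_sub_cancel_left, abs_neg, abs_of_pos τ0]; linarith) (by
      intro h; linarith)
    have sl2 := hball (y := z + τ) (by
      rw [Real.dist_eq, add_sub_cancel_left, abs_of_pos τ0]; linarith) (by
      intro h; linarith)
    rw [slope_def_field, hgz, sub_zero] at sl1 sl2
    have e1 : z - τ - z = -τ := by ring
    have e2 : z + τ - z = τ := by ring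
    rw [e1] at sl1
    rw [e2] at sl2
    have s2 : 0 < (-1 : ℝ) ^ j * g (z + τ) := by
      have := mul_pos sl2 τ0
      rwa [div_mul_cancel₀ _ τ0.ne'] at this
    have s1 : 0 < (-1 : ℝ) ^ (j + 1) * g (z - τ) := by
      have := mul_pos sl1 τ0
      rw [div_neg, neg_mul, div_mul_cancel₀ _ τ0.ne'] at this
      rw [pow_succ]
      linarith
    exact insert_alt hε hc hf _ (hpert z hz0 hz1) Y hY hm (hps z hz0 hz1) hj
      (by linarith) (by linarith : z - τ < z + τ) (by linarith) s1 s2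

end Pool.Agent.X116.Z
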