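import Pool.Agent.X116.ZConc
import Pool.Agent.X116.ZDesc

/-!
# Properties of the function of the problem
-/

open Finset Filter Topology

namespace Pool.Agent.X116.Z

/-- the function of the problem -/
noncomputable def FF (x : ℝ) (k : ℕ) : ℝ :=
  ∫ l in (0 : ℝ)..Real.arccos (x - 1), Real.sin (k * Real.arccos (x - Real.cos l))

/-- the rescaled function -/
noncomputable def ff (k : ℕ) (t : ℝ) : ℝ := FF (2 - 2 * t) k / (Real.pi * k * t)

lemma FF_eq {k : ℕ} (hk : 1 ≤ k) {t : ℝ} (h0 : 0 < t) : FF (2 - 2 * t) k = Real.pi * k * t * ff k t := by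
  have hk0 : (0 : ℝ) < k := by exact_mod_cast hk
  unfold ff
  field_simp

lemma ff_series {k : ℕ} (hk : 1 ≤ k) (t : ℝ) (h0 : 0 < t) (h1 : t < 1) :
    HasSum (fun n => vs n k / ((n + 1).factorial : ℝ) * t ^ n) (ff k t) := by
  have hk0 : (0 : ℝ) < k := by exact_mod_cast hk
  have hb0 : 0 < √t := by positivity
  have hb1 : √t < 1 := by
    rw [Real.sqrt_lt' one_pos]
    simpa using h1
  have hsq : √t ^ 2 = t := Real.sq_sqrt h0.le
  have h := (hasSum_J k hb0 hb1).mul_left (√t / (Real.pi * k * t))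
  have hF := F_full hb0 hb1 k
  rw [hsq] at hF
  have e : √t / (Real.pi * k * t) * ∫ t_1 in (0 : ℝ)..Real.pi, hh k √t t_1 = ff k t := by
    unfold ff FF
    rw [hF]
    ring
  rw [e] at h
  refine h.congr_fun fun n => ?_
  have e2 : √t ^ (2 * n + 1) = t ^ n * √t := by rw [pow_succ, pow_mul, hsq]
  rw [e2]
  have e3 : √t / (Real.pi * k * t) * (Real.pi * k * vs n k * (t ^ n * √t) / ((n + 1).factorial : ℝ))
      = (√t ^ 2) * (vs n k * t ^ n) / (t * ((n + 1).factorial : ℝ)) := by
    field_simp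
  rw [e3, hsq]
  field_simp

lemma FF_second {x : ℝ} (h0 : 0 < x) (h2 : x < 2) (k : ℕ) :
    FF x k = k * ∫ m in (0 : ℝ)..Real.arccos (x - 1), Real.cos (k * m) * ac x m := by
  have ht0 : 0 < 1 - x / 2 := by linarith
  have hb0 : 0 < √(1 - x / 2) := by positivity
  have hb1 : √(1 - x / 2) < 1 := by
    rw [Real.sqrt_lt' one_pos]
    linarith
  have hsq : √(1 - x / 2) ^ 2 = 1 - x / 2 := Real.sq_sqrt ht0.le
  have h := F_second hb0 hb1 k
  rw [hsq] at h
  have e : 2 - 2 * (1 - x / 2) = x := by ring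
  rw [e] at h
  unfold FF
  rw [h, ← intervalIntegral.integral_const_mul]
  refine intervalIntegral.integral_congr fun m _ => ?_
  simp only [ac]
  ring

lemma ac_zero {x : ℝ} (h0 : 0 < x) (h2 : x < 2) {m : ℝ}
    (hm : m ∈ Set.Icc (Real.arccos (x - 1)) Real.pi) : ac x m = 0 := by
  unfold ac
  rw [Real.arccos_eq_zero]
  have := Real.cos_le_cos_of_nonneg_of_le_pi (Real.arccos_nonneg (x - 1)) hm.2 hm.1
  rw [Real.cos_arccos (by linarith) (by linarith)] at this
  linarith

lemma FF_third {x : ℝ} (h0 : 0 < x) (h2 : x < 2) (k : ℕ) :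
    FF x k = k * ∫ m in (0 : ℝ)..Real.pi, Real.cos (k * m) * ac x m := by
  rw [FF_second h0 h2]
  have hc : Continuous fun m => Real.cos (k * m) * ac x m :=
    (Real.continuous_cos.comp (by fun_prop)).mul (ac_cont x)
  rw [← intervalIntegral.integral_add_adjacent_intervals (a := 0) (b := Real.arccos (x - 1))
    (c := Real.pi) (hc.intervalIntegrable _ _) (hc.intervalIntegrable _ _)]
  have : ∫ m in Real.arccos (x - 1)..Real.pi, Real.cos (k * m) * ac x m = 0 := by
    rw [intervalIntegral.integral_congr (g := fun _ => 0)]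
    · simp
    · intro m hm
      rw [Set.uIcc_of_le (Real.arccos_le_pi _)] at hm
      simp only [ac_zero h0 h2 hm, mul_zero]
  rw [this, add_zero]

lemma FF_pos_first {x : ℝ} (h0 : 0 < x) (h2 : x < 2) {k : ℕ} (hk : 1 ≤ k)
    (hle : Real.arccos (x - 1) ≤ Real.pi / k) : 0 < FF x k := by
  have hk0 : (0 : ℝ) < k := by exact_mod_cast hk
  unfold FF
  have hpos : 0 < Real.arccos (x - 1) := Real.arccos_pos.mpr (by linarith)
  apply intervalIntegral.intervalIntegral_pos_of_pos_on _ _ hpos
  · exact Continuous.intervalIntegrable (by fun_prop) _ _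
  · intro l hl
    obtain ⟨g1, g2⟩ := cos_gt h0 h2 hl
    have a1 : 0 < Real.arccos (x - Real.cos l) := Real.arccos_pos.mpr (by linarith)
    have a2 : Real.arccos (x - Real.cos l) < Real.arccos (x - 1) := by
      apply Real.strictAntiOn_arccos
      · exact ⟨by linarith, by linarith⟩
      · exact ⟨by linarith, by linarith⟩
      · linarith
    apply Real.sin_pos_of_pos_of_lt_pi (by positivity)
    have : (k : ℝ) * Real.arccos (x - Real.cos l) < k * (Real.pi / k) := by
      apply mul_lt_mul_of_pos_left _ hk0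
      linarith
    have e : (k : ℝ) * (Real.pi / k) = Real.pi := by field_simp
    linarith

/-- the points -/
noncomputable def xm (k m : ℕ) : ℝ := 1 + Real.cos (((m + 1 : ℕ) : ℝ) * (Real.pi / k))

lemma xm_mem {k m : ℕ} (hm : m + 1 < k) : 0 < xm k m ∧ xm k m < 2 ∧
    Real.arccos (xm k m - 1) = ((m + 1 : ℕ) : ℝ) * (Real.pi / k) := by
  have hk0 : (0 : ℝ) < k := by
    have : 0 < k := by omega
    exact_mod_cast this
  have hm0 : (0 : ℝ) < ((m + 1 : ℕ) : ℝ) := by positivity
  have hmk : ((m + 1 : ℕ) : ℝ) < k := by exact_mod_cast hm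
  have h1 : 0 < ((m + 1 : ℕ) : ℝ) * (Real.pi / k) := by positivity
  have h2 : ((m + 1 : ℕ) : ℝ) * (Real.pi / k) < Real.pi := by
    rw [mul_div_assoc', div_lt_iff₀ hk0, mul_comm]
    exact mul_lt_mul_of_pos_left hmk Real.pi_pos
  have c1 := Real.cos_lt_cos_of_nonneg_of_le_pi h1.le le_rfl h2
  have c2 := Real.cos_lt_cos_of_nonneg_of_le_pi le_rfl h2.le h1
  rw [Real.cos_pi] at c1
  rw [Real.cos_zero] at c2
  unfold xm
  refine ⟨by linarith, by linarith, ?_⟩
  rw [add_sub_cancel_left, Real.arccos_cos h1.le h2.le]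

lemma xm_anti {k m n : ℕ} (hn : n + 1 < k) (hmn : m < n) : xm k n < xm k m := by
  have hk0 : (0 : ℝ) < k := by
    have : 0 < k := by omega
    exact_mod_cast this
  have hmk : ((n + 1 : ℕ) : ℝ) < k := by exact_mod_cast hn
  have h2 : ((n + 1 : ℕ) : ℝ) * (Real.pi / k) < Real.pi := by
    rw [mul_div_assoc', div_lt_iff₀ hk0, mul_comm]
    exact mul_lt_mul_of_pos_left hmk Real.pi_pos
  unfold xm
  have h3 : ((m + 1 : ℕ) : ℝ) * (Real.pi / k) < ((n + 1 : ℕ) : ℝ) * (Real.pi / k) := by
    have : ((m + 1 : ℕ) : ℝ) < ((n + 1 : ℕ) : ℝ) := by exact_mod_cast (by omega : m + 1 < n + 1)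
    have : 0 < Real.pi / k := by positivity
    nlinarith
  have := Real.cos_lt_cos_of_nonneg_of_le_pi (by positivity) h2.le h3
  linarith

lemma FF_sign {k m : ℕ} (hm : m + 1 < k) : 0 < (-1 : ℝ) ^ m * FF (xm k m) k := by
  obtain ⟨h0, h2, h3⟩ := xm_mem hm
  have hk : 1 ≤ k := by omega
  have hk0 : (0 : ℝ) < k := by exact_mod_cast hk
  have hc := ac_conc h0 h2
  have ha := ac_anti h0 h2
  rw [h3] at hc ha
  have := sign_lobes (ac_cont (xm k m)) hk m hc ha
  rw [FF_second h0 h2, h3]
  have e : (-1 : ℝ) ^ m * (k * ∫ m_1 in (0 : ℝ)..((m + 1 : ℕ) : ℝ) * (Real.pi / k),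
      Real.cos (k * m_1) * ac (xm k m) m_1) = k * ((-1 : ℝ) ^ m
        * ∫ m_1 in (0 : ℝ)..((m + 1 : ℕ) : ℝ) * (Real.pi / k),
      Real.cos (k * m_1) * ac (xm k m) m_1) := by ring
  rw [e]
  positivity

/-- continuity at the left end point -/
lemma FF_lim {k : ℕ} (hk : 1 ≤ k) :
    Tendsto (fun x => FF x k) (𝓝[>] 0) (𝓝 ((1 - (-1) ^ k) / k)) := by
  have hk0 : (0 : ℝ) < k := by exact_mod_cast hk
  have hcont : Continuous fun x : ℝ => (k : ℝ) * ∫ m in (0 : ℝ)..Real.pi,
      Real.cos (k * m) * Real.arccos (x - Real.cos m) := by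
    apply Continuous.mul continuous_const
    apply intervalIntegral.continuous_parametric_intervalIntegral_of_continuous'
    have : Continuous fun p : ℝ × ℝ => Real.cos (k * p.2) * Real.arccos (p.1 - Real.cos p.2) := by
      fun_prop
    exact this
  have hval : (k : ℝ) * ∫ m in (0 : ℝ)..Real.pi, Real.cos (k * m) * Real.arccos (0 - Real.cos m)
      = (1 - (-1) ^ k) / k := by
    have e1 : ∫ m in (0 : ℝ)..Real.pi, Real.cos (k * m) * Real.arccos (0 - Real.cos m)
        = ∫ m in (0 : ℝ)..Real.pi, (Real.pi - m) * Real.cos (k * m) := by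
      refine intervalIntegral.integral_congr fun m hm => ?_
      rw [Set.uIcc_of_le Real.pi_pos.le] at hm
      rw [zero_sub, Real.arccos_neg, Real.arccos_cos hm.1 hm.2]
      ring
    rw [e1]
    have h4 := intervalIntegral.integral_mul_deriv_eq_deriv_mul (a := 0) (b := Real.pi)
      (u := fun m => Real.pi - m) (v := fun m => Real.sin (k * m) / k)
      (u' := fun _ => -1) (v' := fun m => Real.cos (k * m))
      (fun m _ => by simpa using (hasDerivAt_id m).const_sub Real.pi) (fun m _ => by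
        have := (((hasDerivAt_id m).const_mul (k : ℝ)).sin).div_const (k : ℝ)
        refine this.congr_deriv ?_
        simp only [id]
        field_simp)
      (Continuous.intervalIntegrable (by fun_prop) _ _)
      (Continuous.intervalIntegrable (by fun_prop) _ _)
    rw [h4]
    simp only [mul_zero, Real.sin_zero, zero_div, sub_self, zero_mul, neg_one_mul,
      intervalIntegral.integral_neg, sub_neg_eq_add]
    have h5 : ∫ m in (0 : ℝ)..Real.pi, Real.sin (k * m) / k = (1 - (-1) ^ k) / k / k := by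
      rw [intervalIntegral.integral_div, intervalIntegral.integral_comp_mul_left (fun m => Real.sin m)
        hk0.ne', integral_sin]
      simp only [mul_zero, Real.cos_zero, Real.cos_nat_mul_pi, smul_eq_mul]
      field_simp
    rw [h5]
    field_simp
    ring
  have h1 := (hcont.tendsto 0).mono_left (nhdsWithin_le_nhds (s := Set.Ioi 0))
  rw [hval] at h1
  refine h1.congr' ?_
  have : Set.Ioo (0 : ℝ) 2 ∈ 𝓝[>] (0 : ℝ) := Ioo_mem_nhdsGT (by norm_num)
  filter_upwards [this] with x hx
  rw [FF_third hx.1 hx.2]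
  rfl

end Pool.Agent.X116.Z
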