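import Pool.Agent.X116.ZEnd

/-!
# The behaviour near the end point and the count of the zeros
-/

open Finset Filter Topology

namespace Pool.Agent.X116.Z

lemma A_growth (n : ℕ) : 1 / (4 * ((n : ℝ) + 1)) ≤ (A (n + 1) / ((n + 1).factorial : ℝ)) ^ 2 := by
  induction n with
  | zero =>
    simp only [A_succ, A_zero]
    norm_num
  | succ n ih =>
    have hn : (0 : ℝ) ≤ n := Nat.cast_nonneg n
    have e : (A (n + 1 + 1) / ((n + 1 + 1).factorial : ℝ)) ^ 2
        = (A (n + 1) / ((n + 1).factorial : ℝ)) ^ 2 * (((n : ℝ) + 3 / 2) / (n + 2)) ^ 2 := by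
      rw [A_succ (n + 1), Nat.factorial_succ (n + 1), ← mul_pow]
      congr 1
      have : ((n + 1).factorial : ℝ) ≠ 0 := by positivity
      push_cast
      field_simp
      ring
    rw [e]
    have h2 : 1 / (4 * (((n + 1 : ℕ) : ℝ) + 1)) ≤ 1 / (4 * ((n : ℝ) + 1)) * (((n : ℝ) + 3 / 2) / (n + 2)) ^ 2 := by
      rw [div_pow, div_mul_div_comm, div_le_div_iff₀ (by positivity) (by positivity)]
      push_cast
      nlinarith
    refine h2.trans ?_
    gcongr

lemma vs_growth {j n : ℕ} (hn : 2 * j ≤ n) : A n ^ 2 / (n.factorial : ℝ) ≤ vs n ((2 * j : ℕ) : ℝ) := by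
  refine le_trans ?_ (vs_sign_ge j n hn)
  unfold vs
  have h : (P 0 0 / ((Nat.factorial 0 : ℕ) : ℝ)) * (A n ^ 2 / (n.factorial : ℝ))
      ≤ ∑ p ∈ antidiagonal n, (P 0 p.1 / (p.1.factorial : ℝ)) * (A p.2 ^ 2 / (p.2.factorial : ℝ)) := by
    refine Finset.single_le_sum (f := fun p : ℕ × ℕ => (P 0 p.1 / (p.1.factorial : ℝ))
      * (A p.2 ^ 2 / (p.2.factorial : ℝ))) (s := antidiagonal n) (fun p _ => ?_)
      (a := (0, n)) (by simp)
    simp only [P_zero_eq]
    positivity
  simpa [P_zero] using h

lemma pow_diff_bounds {s t : ℝ} (h0 : 0 < s) (hst : s < t) (h1 : t < 1) (n : ℕ) :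
    ∃ D : ℝ, t ^ (n + 1) - s ^ (n + 1) = (t - s) * D ∧ (n + 1) * s ^ n ≤ D ∧ D ≤ n + 1 := by
  refine ⟨∑ i ∈ range (n + 1), t ^ i * s ^ (n - i), ?_, ?_, ?_⟩
  · have := (Commute.all t s).mul_geom_sum₂ (n + 1)
    rw [← this]
    simp
  · have : ∑ _i ∈ range (n + 1), s ^ n ≤ ∑ i ∈ range (n + 1), t ^ i * s ^ (n - i) := by
      refine Finset.sum_le_sum fun i hi => ?_
      have hi' : i ≤ n := Nat.lt_succ_iff.mp (Finset.mem_range.mp hi)
      have e : s ^ n = s ^ i * s ^ (n - i) := by rw [← pow_add]; congr 1; omega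
      rw [e]
      gcongr
    simpa using this
  · have : ∑ i ∈ range (n + 1), t ^ i * s ^ (n - i) ≤ ∑ _i ∈ range (n + 1), (1 : ℝ) := by
      refine Finset.sum_le_sum fun i _ => ?_
      exact mul_le_one₀ (pow_le_one₀ (by linarith) h1.le) (by positivity)
        (pow_le_one₀ h0.le (by linarith))
    simpa using this

lemma H_lim {k : ℕ} (hk : 1 ≤ k) :
    Tendsto (fun t => FF (2 - 2 * t) k) (𝓝[<] 1) (𝓝 ((1 - (-1) ^ k) / k)) := by
  refine (FF_lim hk).comp ?_
  refine tendsto_nhdsWithin_of_tendsto_nhds_of_eventually_within _ ?_ ?_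
  · have : Continuous fun t : ℝ => 2 - 2 * t := by fun_prop
    have h := (this.tendsto 1).mono_left (nhdsWithin_le_nhds (s := Set.Iio 1))
    simpa using h
  · filter_upwards [self_mem_nhdsWithin] with t ht
    have : t < 1 := ht
    simp only [Set.mem_Ioi]
    linarith

lemma near_one {k : ℕ} (hk : 1 ≤ k) (β : ℝ) (hβ : β < 1) :
    ∃ η, β < η ∧ 0 < η ∧ η < 1 ∧ 0 < (-1 : ℝ) ^ (k - 1) * ff k η := by
  have hk0 : (0 : ℝ) < k := by exact_mod_cast hk
  rcases Nat.even_or_odd k with he | ho
  · -- even case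
    obtain ⟨j, hj⟩ := he
    have hk2 : k = 2 * j := by omega
    have hsgn : (-1 : ℝ) ^ (k - 1) = -1 := by
      have : k - 1 = 2 * (j - 1) + 1 := by omega
      rw [this, pow_succ, pow_mul]
      norm_num
    set C : ℝ := ∑ n ∈ range k, |vs n k| / (n.factorial : ℝ) with hC
    -- choose N
    have hdiv : Tendsto (fun N => ∑ n ∈ Ico k N, vs n k / (n.factorial : ℝ)) atTop atTop := by
      have h1 := Real.tendsto_sum_range_one_div_nat_succ_atTop
      have h2 : Tendsto (fun N => 1 / 4 * (∑ n ∈ range N, 1 / ((n : ℝ) + 1)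
          - ∑ n ∈ range k, 1 / ((n : ℝ) + 1))) atTop atTop :=
        (tendsto_atTop_add_const_right _ _ h1).const_mul_atTop (by norm_num)
      refine tendsto_atTop_mono' _ ?_ h2
      filter_upwards [eventually_ge_atTop k] with N hN
      rw [← Finset.sum_Ico_eq_sub _ hN, Finset.mul_sum]
      refine Finset.sum_le_sum fun n hn => ?_
      rw [Finset.mem_Ico] at hn
      have hn1 : 1 ≤ n := hk.trans hn.1
      obtain ⟨m, rfl⟩ := Nat.exists_eq_add_of_le hn1
      have g1 := A_growth m
      have g2 := vs_growth (j := j) (n := 1 + m) (by omega)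
      rw [← hk2] at g2
      have e : 1 + m = m + 1 := by ring
      rw [e] at g2 ⊢
      have g3 : (A (m + 1) / ((m + 1).factorial : ℝ)) ^ 2 ≤ vs (m + 1) k / ((m + 1).factorial : ℝ) := by
        have hf : (0 : ℝ) < ((m + 1).factorial : ℝ) := by positivity
        rw [div_pow, le_div_iff₀ hf]
        refine le_trans (le_of_eq ?_) g2
        field_simp
      refine le_trans ?_ (g1.trans g3)
      have hm : (0 : ℝ) ≤ m := Nat.cast_nonneg m
      have e2 : 1 / 4 * (1 / (((m + 1 : ℕ) : ℝ) + 1)) = 1 / (4 * ((m : ℝ) + 1 + 1)) := by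
        push_cast
        field_simp
      rw [e2]
      apply one_div_le_one_div_of_le (by positivity)
      linarith
    obtain ⟨N, hN, hkN⟩ := ((hdiv.eventually (eventually_gt_atTop (C + 1))).and
      (eventually_ge_atTop k)).exists
    -- the truncated sum
    have hT : Continuous fun t : ℝ => ∑ n ∈ Ico k N, vs n k / (n.factorial : ℝ) * t ^ n := by
      fun_prop
    have hT1 : ∀ᶠ t in 𝓝 (1 : ℝ), C + 1 < ∑ n ∈ Ico k N, vs n k / (n.factorial : ℝ) * t ^ n := by
      have h3 := hT.tendsto 1
      simp only [one_pow, mul_one] at h3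
      exact h3.eventually (lt_mem_nhds hN)
    obtain ⟨ε, hε, hball⟩ := Metric.eventually_nhds_iff.mp hT1
    -- the main inequality
    have hmain : ∀ s t : ℝ, 0 < s → 1 - ε < s → s < t → t < 1 →
        t - s ≤ t * ff k t - s * ff k s := by
      intro s t hs0 hsε hst ht1
      have ht0 : 0 < t := hs0.trans hst
      have hs1 : s < 1 := hst.trans ht1
      have a1 := (ff_series hk t ht0 ht1).mul_left t
      have a2 := (ff_series hk s hs0 hs1).mul_left s
      have a3 := a1.sub a2
      choose D hD1 hD2 hD3 using fun n => pow_diff_bounds hs0 hst ht1 n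
      have a4 : HasSum (fun n => (t - s) * (vs n k / ((n + 1).factorial : ℝ) * D n))
          (t * ff k t - s * ff k s) := by
        refine a3.congr_fun fun n => ?_
        have h5 := hD1 n
        have e1 : t * (vs n k / ((n + 1).factorial : ℝ) * t ^ n)
            - s * (vs n k / ((n + 1).factorial : ℝ) * s ^ n)
            = vs n k / ((n + 1).factorial : ℝ) * (t ^ (n + 1) - s ^ (n + 1)) := by ring
        rw [e1, h5]
        ring
      have hDpos : ∀ n, 0 ≤ D n := fun n => le_trans (by positivity) (hD2 n)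
      have hvpos : ∀ n, k ≤ n → 0 ≤ vs n k := by
        intro n hn
        have := vs_sign k n hn
        have hsg : (-1 : ℝ) ^ k = 1 := by rw [hk2, pow_mul]; norm_num
        rw [hsg, one_mul] at this
        exact this.le
      have a5 := sum_le_hasSum (range N) (fun n hn => by
        have hn' : N ≤ n := by simpa using hn
        have := hvpos n (hkN.trans hn')
        have := hDpos n
        have : 0 < t - s := by linarith
        positivity) a4
      rw [← Finset.mul_sum] at a5
      have a6 : 1 ≤ ∑ n ∈ range N, vs n k / ((n + 1).factorial : ℝ) * D n := by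
        rw [← Finset.sum_range_add_sum_Ico _ hkN]
        have b1 : -C ≤ ∑ n ∈ range k, vs n k / ((n + 1).factorial : ℝ) * D n := by
          rw [hC, ← Finset.sum_neg_distrib]
          refine Finset.sum_le_sum fun n _ => ?_
          have hf : (0 : ℝ) < ((n + 1).factorial : ℝ) := by positivity
          have hf2 : (0 : ℝ) < (n.factorial : ℝ) := by positivity
          have c1 : |vs n k / ((n + 1).factorial : ℝ) * D n| ≤ |vs n k| / (n.factorial : ℝ) := by
            rw [abs_mul, abs_div, abs_of_pos hf, abs_of_nonneg (hDpos n)]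
            calc |vs n k| / ((n + 1).factorial : ℝ) * D n
                ≤ |vs n k| / ((n + 1).factorial : ℝ) * (n + 1) := by
                  gcongr
                  exact hD3 n
              _ = |vs n k| / (n.factorial : ℝ) := by
                  rw [Nat.factorial_succ]
                  push_cast
                  field_simp
          exact (abs_le.mp c1).1
        have b2 : ∑ n ∈ Ico k N, vs n k / (n.factorial : ℝ) * s ^ n
            ≤ ∑ n ∈ Ico k N, vs n k / ((n + 1).factorial : ℝ) * D n := by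
          refine Finset.sum_le_sum fun n hn => ?_
          rw [Finset.mem_Ico] at hn
          have hv := hvpos n hn.1
          calc vs n k / (n.factorial : ℝ) * s ^ n
              = vs n k / ((n + 1).factorial : ℝ) * ((n + 1) * s ^ n) := by
                rw [Nat.factorial_succ]
                push_cast
                have : (n.factorial : ℝ) ≠ 0 := by positivity
                field_simp
            _ ≤ _ := by
                gcongr
                exact hD2 n
        have b3 := hball (y := s) (by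
          rw [Real.dist_eq, abs_sub_comm, abs_of_pos (by linarith)]; linarith)
        linarith
      have : 0 < t - s := by linarith
      nlinarith
    -- the limit
    have hlim : Tendsto (fun t => t * ff k t) (𝓝[<] 1) (𝓝 0) := by
      have h7 := (H_lim hk).div_const (Real.pi * k)
      have hsg : (-1 : ℝ) ^ k = 1 := by rw [hk2, pow_mul]; norm_num
      rw [hsg, sub_self, zero_div, zero_div] at h7
      refine h7.congr' ?_
      have : Set.Ioo (0 : ℝ) 1 ∈ 𝓝[<] (1 : ℝ) := Ioo_mem_nhdsLT (by norm_num)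
      filter_upwards [this] with t ht
      rw [FF_eq hk ht.1]
      have := ht.1
      field_simp
    set η : ℝ := (max β (max (1 - ε) 0) + 1) / 2 with hη
    have m1 : max β (max (1 - ε) 0) < 1 := max_lt hβ (max_lt (by linarith) one_pos)
    have m2 : β ≤ max β (max (1 - ε) 0) := le_max_left _ _
    have m3 : 1 - ε ≤ max β (max (1 - ε) 0) := (le_max_left _ _).trans (le_max_right _ _)
    have m4 : 0 ≤ max β (max (1 - ε) 0) := (le_max_right _ _).trans (le_max_right _ _)
    have e1 : η < 1 := by rw [hη]; linarith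
    have e2 : 0 < η := by rw [hη]; linarith
    have e3 : 1 - ε < η := by rw [hη]; linarith
    have e4 : β < η := by rw [hη]; linarith
    refine ⟨η, e4, e2, e1, ?_⟩
    have h8 : 1 - η ≤ 0 - η * ff k η := by
      have h9 : Tendsto (fun t : ℝ => t - η) (𝓝[<] 1) (𝓝 (1 - η)) :=
        ((continuous_id.sub continuous_const).tendsto 1).mono_left nhdsWithin_le_nhds
      refine le_of_tendsto_of_tendsto h9 (hlim.sub_const (η * ff k η)) ?_
      have : Set.Ioo η 1 ∈ 𝓝[<] (1 : ℝ) := Ioo_mem_nhdsLT e1
      filter_upwards [this] with t ht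
      exact hmain η t e2 e3 ht.1 ht.2
    rw [hsgn]
    nlinarith
  · -- odd case
    have hsgn : (-1 : ℝ) ^ (k - 1) = 1 := by
      obtain ⟨j, hj⟩ := ho
      have : k - 1 = 2 * j := by omega
      rw [this, pow_mul]
      norm_num
    have hlim := H_lim hk
    have hpos : (0 : ℝ) < (1 - (-1) ^ k) / k := by
      rw [ho.neg_one_pow]
      have : (0 : ℝ) < 1 - -1 := by norm_num
      positivity
    have hev := hlim.eventually (lt_mem_nhds hpos)
    have : Set.Ioo (max β 0) 1 ∈ 𝓝[<] (1 : ℝ) := Ioo_mem_nhdsLT (max_lt hβ one_pos)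
    obtain ⟨η, h1, h2⟩ := (hev.and this).exists
    have h3 : β < η := (le_max_left _ _).trans_lt h2.1
    have h4 : 0 < η := (le_max_right _ _).trans_lt h2.1
    refine ⟨η, h3, h4, h2.2, ?_⟩
    rw [hsgn, one_mul]
    unfold ff
    have hpi := Real.pi_pos
    positivity

lemma ff_diff {k : ℕ} (hk : 1 ≤ k) {t : ℝ} (h0 : 0 < t) (h1 : t < 1) :
    DifferentiableAt ℝ (ff k) t := by
  set r : ℝ := (t + 1) / 2 with hr
  have hr0 : 0 < r := by rw [hr]; linarith
  have hr1 : r < 1 := by rw [hr]; linarith
  have htr : t < r := by rw [hr]; linarith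
  set c : ℕ → ℝ := fun n => vs n k / ((n + 1).factorial : ℝ) with hc
  have hs := (ff_series hk r hr0 hr1).summable.norm
  set g : ℂ → ℂ := fun z => ∑' n, (c n : ℂ) * z ^ n with hg
  have hgd : DifferentiableOn ℂ g (Metric.ball 0 r) := by
    refine Complex.differentiableOn_tsum_of_summable_norm hs (fun n => by fun_prop)
      Metric.isOpen_ball fun n z hz => ?_
    rw [mem_ball_zero_iff] at hz
    rw [norm_mul, norm_mul, norm_pow, norm_pow, Complex.norm_real, Real.norm_eq_abs r,
      abs_of_pos hr0]
    gcongr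
  have htb : (t : ℂ) ∈ Metric.ball (0 : ℂ) r := by
    rw [mem_ball_zero_iff, Complex.norm_real, Real.norm_eq_abs, abs_of_pos h0]
    exact htr
  have hgt := (hgd.differentiableAt (Metric.isOpen_ball.mem_nhds htb)).hasDerivAt.real_of_complex
  refine hgt.differentiableAt.congr_of_eventuallyEq ?_
  have : Set.Ioo (0 : ℝ) 1 ∈ 𝓝 t := Ioo_mem_nhds h0 h1
  filter_upwards [this] with s hs
  have h2 := ff_series hk s hs.1 hs.2
  have h3 : g s = ((ff k s : ℝ) : ℂ) := by
    rw [hg]
    have : HasSum (fun n => (c n : ℂ) * (s : ℂ) ^ n) ((ff k s : ℝ) : ℂ) := by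
      have := Complex.hasSum_ofReal.mpr h2
      simpa [hc] using this
    exact this.tsum_eq
  rw [h3, Complex.ofReal_re]

end Pool.Agent.X116.Z
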