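import Pool.Agent.X116.ZSer

/-!
# The power series of the integral
-/

open Finset

namespace Pool.Agent.X116.Z

lemma int_zero (a : ℕ) : ∫ t in (0 : ℝ)..Real.pi, Real.sin t ^ (2 * a)
    = Real.pi * (A a / (a.factorial : ℝ)) := by
  rw [integral_sin_pow_even]
  congr 1
  induction a with
  | zero => simp [A_zero]
  | succ a ih =>
    rw [Finset.prod_range_succ, ih, A_succ, Nat.factorial_succ]
    have h2 : (a.factorial : ℝ) ≠ 0 := by positivity
    have h3 : ((a : ℝ) + 1) ≠ 0 := by positivity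
    push_cast
    field_simp

lemma int_all (i : ℕ) : ∀ a : ℕ, ∫ t in (0 : ℝ)..Real.pi, Real.sin t ^ (2 * a) * Real.cos t ^ (2 * i)
    = Real.pi * (A a * A i / ((a + i).factorial : ℝ)) := by
  induction i with
  | zero =>
    intro a
    simpa [A_zero] using int_zero a
  | succ i ih =>
    intro a
    have e : ∀ t : ℝ, Real.sin t ^ (2 * a) * Real.cos t ^ (2 * (i + 1))
        = Real.sin t ^ (2 * a) * Real.cos t ^ (2 * i)
          - Real.sin t ^ (2 * (a + 1)) * Real.cos t ^ (2 * i) := by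
      intro t
      have h := Real.sin_sq_add_cos_sq t
      have h2 : Real.cos t ^ 2 = 1 - Real.sin t ^ 2 := by linarith
      rw [mul_add 2 i 1, pow_add, mul_one, h2]
      ring
    simp only [e]
    rw [intervalIntegral.integral_sub, ih a, ih (a + 1), A_succ a, A_succ i]
    · have e1 : a + 1 + i = a + i + 1 := by ring
      have e2 : a + (i + 1) = a + i + 1 := by ring
      rw [e1, e2, Nat.factorial_succ]
      have h2 : ((a + i).factorial : ℝ) ≠ 0 := by positivity
      have h3 : ((a : ℝ) + i + 1) ≠ 0 := by positivity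
      push_cast
      field_simp
      ring
    all_goals exact Continuous.intervalIntegrable (by fun_prop) _ _

/-- the integrand -/
noncomputable def hh (k : ℕ) (b t : ℝ) : ℝ :=
  Real.sin (2 * k * Real.arcsin (b * Real.sin t)) * Real.sin t / √(1 - b ^ 2 * Real.cos t ^ 2)

lemma hasSum_J (k : ℕ) {b : ℝ} (h0 : 0 < b) (h1 : b < 1) :
    HasSum (fun n => Real.pi * k * vs n k * b ^ (2 * n + 1) / ((n + 1).factorial : ℝ))
      (∫ t in (0 : ℝ)..Real.pi, hh k b t) := by
  -- the summands
  set f : ℝ → ℕ → ℝ := fun t j => sc k j * (b * Real.sin t) ^ (2 * j + 1) * Real.sin t with hf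
  set g : ℝ → ℕ → ℝ := fun t i => A i / (i.factorial : ℝ) * (b ^ 2 * Real.cos t ^ 2) ^ i with hg
  have hS := (hasSum_sin b h0.le h1 k).1
  have hT := hasSum_inv_sqrt (w := b ^ 2) (by positivity) (by nlinarith)
  have hSn : Summable fun j => ‖sc k j * b ^ (2 * j + 1)‖ := hS.summable.norm
  have hTn : Summable fun i => ‖A i / (i.factorial : ℝ) * (b ^ 2) ^ i‖ := hT.summable.norm
  have hbound := summable_norm_sum_mul_antidiagonal_of_summable_norm
    (f := fun j => ‖sc k j * b ^ (2 * j + 1)‖)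
    (g := fun i => ‖A i / (i.factorial : ℝ) * (b ^ 2) ^ i‖)
    (hSn.congr fun j => (norm_norm _).symm) (hTn.congr fun j => (norm_norm _).symm)
  have hsum : Summable fun n => ∑ p ∈ antidiagonal n,
      ‖sc k p.1 * b ^ (2 * p.1 + 1)‖ * ‖A p.2 / (p.2.factorial : ℝ) * (b ^ 2) ^ p.2‖ := by
    refine hbound.congr fun n => ?_
    rw [Real.norm_eq_abs, abs_of_nonneg (Finset.sum_nonneg fun p _ => by positivity)]
  have hfb : ∀ t ∈ Set.Icc (0 : ℝ) Real.pi, ∀ j, ‖f t j‖ ≤ ‖sc k j * b ^ (2 * j + 1)‖ := by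
    intro t ht j
    have hs0 := Real.sin_nonneg_of_mem_Icc ht
    have hs1 := Real.sin_le_one t
    rw [hf]
    simp only
    rw [mul_pow, ← mul_assoc, mul_assoc, norm_mul]
    refine mul_le_of_le_one_right (norm_nonneg _) ?_
    rw [Real.norm_eq_abs, abs_of_nonneg (by positivity)]
    exact mul_le_one₀ (pow_le_one₀ hs0 hs1) hs0 hs1
  have hgb : ∀ t, ∀ i, ‖g t i‖ ≤ ‖A i / (i.factorial : ℝ) * (b ^ 2) ^ i‖ := by
    intro t i
    rw [hg]
    simp only
    rw [mul_pow, ← mul_assoc, norm_mul]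
    refine mul_le_of_le_one_right (norm_nonneg _) ?_
    rw [Real.norm_eq_abs, abs_of_nonneg (by positivity)]
    exact pow_le_one₀ (by positivity) (Real.cos_sq_le_one t)
  have hbs : ∀ t ∈ Set.Icc (0 : ℝ) Real.pi, 0 ≤ b * Real.sin t ∧ b * Real.sin t < 1 := by
    intro t ht
    have hs0 := Real.sin_nonneg_of_mem_Icc ht
    have hs1 := Real.sin_le_one t
    refine ⟨by positivity, ?_⟩
    nlinarith
  have hfs : ∀ t ∈ Set.Icc (0 : ℝ) Real.pi,
      HasSum (f t) (Real.sin (2 * k * Real.arcsin (b * Real.sin t)) * Real.sin t) := by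
    intro t ht
    exact ((hasSum_sin _ (hbs t ht).1 (hbs t ht).2 k).1).mul_right (Real.sin t)
  have hgs : ∀ t, HasSum (g t) (1 / √(1 - b ^ 2 * Real.cos t ^ 2)) := by
    intro t
    refine hasSum_inv_sqrt (by positivity) ?_
    have := Real.cos_sq_le_one t
    nlinarith
  have hprod : ∀ t ∈ Set.Icc (0 : ℝ) Real.pi,
      HasSum (fun n => ∑ p ∈ antidiagonal n, f t p.1 * g t p.2) (hh k b t) := by
    intro t ht
    have n1 : Summable fun j => ‖f t j‖ := Summable.of_nonneg_of_le (fun _ => norm_nonneg _)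
      (hfb t ht) hSn
    have n2 : Summable fun j => ‖g t j‖ := Summable.of_nonneg_of_le (fun _ => norm_nonneg _)
      (hgb t) hTn
    have h2 := tsum_mul_tsum_eq_tsum_sum_antidiagonal_of_summable_norm n1 n2
    rw [(hfs t ht).tsum_eq, (hgs t).tsum_eq] at h2
    have h3 := (summable_norm_sum_mul_antidiagonal_of_summable_norm n1 n2).of_norm.hasSum
    rw [← h2] at h3
    unfold hh
    rwa [mul_one_div] at h3
  have key : HasSum (fun n => ∫ t in (0 : ℝ)..Real.pi, ∑ p ∈ antidiagonal n, f t p.1 * g t p.2)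
      (∫ t in (0 : ℝ)..Real.pi, hh k b t) := by
    refine intervalIntegral.hasSum_integral_of_dominated_convergence
      (fun n _ => ∑ p ∈ antidiagonal n,
        ‖sc k p.1 * b ^ (2 * p.1 + 1)‖ * ‖A p.2 / (p.2.factorial : ℝ) * (b ^ 2) ^ p.2‖)
      (fun n => ?_) (fun n => ?_) ?_ ?_ ?_
    · apply Continuous.aestronglyMeasurable
      rw [hf, hg]
      fun_prop
    · refine Filter.Eventually.of_forall fun t ht => ?_
      rw [Set.uIoc_of_le Real.pi_pos.le] at ht
      have ht' : t ∈ Set.Icc (0 : ℝ) Real.pi := ⟨ht.1.le, ht.2⟩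
      refine (norm_sum_le _ _).trans (Finset.sum_le_sum fun p _ => ?_)
      rw [norm_mul]
      exact mul_le_mul (hfb t ht' _) (hgb t _) (norm_nonneg _) (norm_nonneg _)
    · exact Filter.Eventually.of_forall fun _ _ => hsum
    · exact intervalIntegrable_const
    · refine Filter.Eventually.of_forall fun t ht => ?_
      rw [Set.uIoc_of_le Real.pi_pos.le] at ht
      exact hprod t ⟨ht.1.le, ht.2⟩
  convert key using 1
  funext n
  rw [intervalIntegral.integral_finset_sum]
  · unfold vs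
    rw [Finset.mul_sum, Finset.sum_mul, Finset.sum_div]
    refine Finset.sum_congr rfl fun p hp => ?_
    have hpn : p.1 + p.2 = n := by simpa using hp
    have e : ∀ t : ℝ, f t p.1 * g t p.2 = (sc k p.1 * (A p.2 / (p.2.factorial : ℝ)) * b ^ (2 * n + 1))
        * (Real.sin t ^ (2 * (p.1 + 1)) * Real.cos t ^ (2 * p.2)) := by
      intro t
      rw [hf, hg, ← hpn]
      ring
    simp only [e]
    rw [intervalIntegral.integral_const_mul, int_all]
    have e1 : p.1 + 1 + p.2 = n + 1 := by omega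
    rw [e1]
    unfold sc
    have h1 : A (p.1 + 1) ≠ 0 := (A_pos _).ne'
    have h2 : (p.1.factorial : ℝ) ≠ 0 := by positivity
    have h3 : (p.2.factorial : ℝ) ≠ 0 := by positivity
    field_simp
  · intro p _
    apply Continuous.intervalIntegrable
    rw [hf, hg]
    fun_prop

end Pool.Agent.X116.Z
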