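import Pool.Agent.X116.ZSub

/-!
# Signs of `∫ cos (k μ) a(μ) dμ` over `[0, m π / k]` for strictly concave decreasing `a`
-/

open Finset

namespace Pool.Agent.X116.Z

lemma alt_sum {d : ℕ → ℝ} (h0 : 0 < d 0) : ∀ m : ℕ, (∀ i < m, d i < d (i + 1)) →
    0 < (-1 : ℝ) ^ m * ∑ i ∈ range (m + 1), (-1) ^ i * d i ∧
    (-1 : ℝ) ^ m * ∑ i ∈ range (m + 1), (-1) ^ i * d i ≤ d m := by
  intro m
  induction m with
  | zero => intro _; simpa using h0
  | succ m ih =>
    intro h
    obtain ⟨h1, h2⟩ := ih fun i hi => h i (by omega)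
    have h3 := h m (by omega)
    have e : (-1 : ℝ) ^ (m + 1) * ∑ i ∈ range (m + 1 + 1), (-1) ^ i * d i
        = d (m + 1) - (-1 : ℝ) ^ m * ∑ i ∈ range (m + 1), (-1) ^ i * d i := by
      rw [Finset.sum_range_succ _ (m + 1), mul_add, ← mul_assoc, ← mul_pow, neg_mul_neg, one_mul,
        one_pow, one_mul, pow_succ]
      ring
    rw [e]
    constructor <;> linarith

/-- the lobes -/
noncomputable def lobe (a : ℝ → ℝ) (k : ℕ) (i : ℕ) : ℝ :=
  ∫ s in (0 : ℝ)..(Real.pi / k / 2), Real.cos (k * s) * (a (i * (Real.pi / k) + s)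
    - a ((i + 1) * (Real.pi / k) - s))

lemma lobe_eq {a : ℝ → ℝ} (ha : Continuous a) {k : ℕ} (hk : 1 ≤ k) (i : ℕ) :
    ∫ m in ((i : ℝ) * (Real.pi / k))..(((i + 1 : ℕ) : ℝ) * (Real.pi / k)), Real.cos (k * m) * a m
      = (-1) ^ i * lobe a k i := by
  have hk0 : (0 : ℝ) < k := by exact_mod_cast hk
  set h : ℝ := Real.pi / k with hh
  have hkh : (k : ℝ) * h = Real.pi := by rw [hh]; field_simp
  set G : ℝ → ℝ := fun m => Real.cos (k * m) * a m with hG
  have hGc : Continuous G := by rw [hG]; fun_prop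
  have e1 : ∫ m in ((i : ℝ) * h)..(((i + 1 : ℕ) : ℝ) * h), G m
      = ∫ s in (0 : ℝ)..h, G ((i : ℝ) * h + s) := by
    rw [intervalIntegral.integral_comp_add_left (f := G)]
    congr 1
    · ring
    · push_cast; ring
  have hcosi : ∀ s : ℝ, Real.cos (k * ((i : ℝ) * h + s)) = (-1) ^ i * Real.cos (k * s) := by
    intro s
    have : (k : ℝ) * ((i : ℝ) * h + s) = k * s + i * Real.pi := by rw [← hkh]; ring
    rw [this, Real.cos_add_nat_mul_pi]
  have hc2 : Continuous fun s => G ((i : ℝ) * h + s) := hGc.comp (by fun_prop)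
  have e2 : ∫ s in (h / 2)..h, G ((i : ℝ) * h + s) = ∫ s in (0 : ℝ)..(h / 2), G ((i : ℝ) * h + (h - s)) := by
    have := intervalIntegral.integral_comp_sub_left (a := 0) (b := h / 2)
      (fun s => G ((i : ℝ) * h + s)) h
    rw [sub_zero] at this
    have e : h - h / 2 = h / 2 := by ring
    rw [e] at this
    rw [← this]
  have hc3 : Continuous fun s => G ((i : ℝ) * h + (h - s)) := hGc.comp (by fun_prop)
  rw [e1, ← intervalIntegral.integral_add_adjacent_intervals (hc2.intervalIntegrable 0 (h / 2))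
    (hc2.intervalIntegrable (h / 2) h), e2,
    ← intervalIntegral.integral_add (hc2.intervalIntegrable _ _) (hc3.intervalIntegrable _ _)]
  unfold lobe
  rw [← hh, ← intervalIntegral.integral_const_mul]
  refine intervalIntegral.integral_congr fun s _ => ?_
  simp only [hG]
  have e3 : Real.cos (k * (h - s)) = -Real.cos (k * s) := by
    have : (k : ℝ) * (h - s) = Real.pi - k * s := by rw [← hkh]; ring
    rw [this, Real.cos_pi_sub]
  rw [hcosi, hcosi, e3]
  have e4 : (i : ℝ) * h + (h - s) = (i + 1) * h - s := by ring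
  rw [e4]
  ring

lemma cos_pos_aux {k : ℕ} (hk : 1 ≤ k) {s : ℝ} (hs : s ∈ Set.Ioo (0 : ℝ) (Real.pi / k / 2)) :
    0 < Real.cos (k * s) := by
  have hk0 : (0 : ℝ) < k := by exact_mod_cast hk
  apply Real.cos_pos_of_mem_Ioo
  have h1 : 0 < (k : ℝ) * s := mul_pos hk0 hs.1
  have h2 : (k : ℝ) * s < Real.pi / 2 := by
    have := mul_lt_mul_of_pos_left hs.2 hk0
    have e : (k : ℝ) * (Real.pi / k / 2) = Real.pi / 2 := by field_simp
    linarith
  exact ⟨by linarith [Real.pi_pos], h2⟩

lemma lobe_pos {a : ℝ → ℝ} (ha : Continuous a) {k : ℕ} (hk : 1 ≤ k)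
    (hanti : StrictAntiOn a (Set.Icc 0 (Real.pi / k))) : 0 < lobe a k 0 := by
  have hk0 : (0 : ℝ) < k := by exact_mod_cast hk
  have hh : 0 < Real.pi / k := by positivity
  unfold lobe
  apply intervalIntegral.intervalIntegral_pos_of_pos_on
  · exact Continuous.intervalIntegrable (by fun_prop) _ _
  · intro s hs
    have h1 := cos_pos_aux hk hs
    have h2 := hs.1
    have h3 := hs.2
    apply mul_pos h1
    have := hanti (a := s) (b := Real.pi / k - s) ⟨h2.le, by linarith⟩ ⟨by linarith, by linarith⟩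
      (by linarith)
    simp only [Nat.cast_zero, zero_mul, zero_add, one_mul]
    linarith
  · positivity

lemma lobe_lt {a : ℝ → ℝ} (ha : Continuous a) {k : ℕ} (hk : 1 ≤ k) {i : ℕ}
    (hconc : StrictConcaveOn ℝ (Set.Icc 0 ((i + 2) * (Real.pi / k))) a) :
    lobe a k i < lobe a k (i + 1) := by
  have hk0 : (0 : ℝ) < k := by exact_mod_cast hk
  have hh : 0 < Real.pi / k := by positivity
  set h : ℝ := Real.pi / k with hdef
  have hi : (0 : ℝ) ≤ i := Nat.cast_nonneg i
  rw [← sub_pos]
  unfold lobe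
  rw [← hdef, ← intervalIntegral.integral_sub]
  · apply intervalIntegral.intervalIntegral_pos_of_pos_on
    · exact Continuous.intervalIntegrable (by fun_prop) _ _
    · intro s hs
      have h1 := cos_pos_aux hk hs
      have h2 := hs.1
      have h3 : s < h / 2 := hs.2
      have h4 : 0 ≤ (i : ℝ) * h := by positivity
      rw [← mul_sub]
      apply mul_pos h1
      -- four points
      set p : ℝ := i * h + s with hp
      set q : ℝ := (i + 2) * h - s with hq
      have hpm : p ∈ Set.Icc 0 ((i + 2) * h) := ⟨by linarith, by rw [hp]; linarith⟩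
      have hqm : q ∈ Set.Icc 0 ((i + 2) * h) := ⟨by rw [hq]; linarith, by rw [hq]; linarith⟩
      have hpq : p ≠ q := by
        rw [hp, hq]
        intro h
        linarith
      have hpq' : 0 < q - p := by rw [hp, hq]; linarith
      set θ : ℝ := (h - 2 * s) / (q - p) with hθ
      have hθ0 : 0 < θ := div_pos (by linarith) hpq'
      have hθ1 : θ < 1 := by
        rw [hθ, div_lt_one hpq', hp, hq]
        linarith
      have hθe : θ * (q - p) = h - 2 * s := by rw [hθ]; field_simp
      have c1 := hconc.2 hpm hqm hpq (by linarith : 0 < 1 - θ) hθ0 (by ring)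
      have c2 := hconc.2 hpm hqm hpq hθ0 (by linarith : 0 < 1 - θ) (by ring)
      simp only [smul_eq_mul] at c1 c2
      have e1 : (1 - θ) * p + θ * q = (i + 1) * h - s := by
        have : (1 - θ) * p + θ * q = p + θ * (q - p) := by ring
        rw [this, hθe, hp]
        ring
      have e2 : θ * p + (1 - θ) * q = (i + 1) * h + s := by
        have : θ * p + (1 - θ) * q = q - θ * (q - p) := by ring
        rw [this, hθe, hq]
        ring
      rw [e1] at c1
      rw [e2] at c2
      have e3 : (((i + 1 : ℕ) : ℝ) + 1) * h - s = q := by rw [hq]; push_cast; ring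
      have e4 : ((i + 1 : ℕ) : ℝ) * h + s = (i + 1) * h + s := by push_cast; ring
      rw [e3, e4]
      nlinarith
    · positivity
  all_goals exact Continuous.intervalIntegrable (by fun_prop) _ _

lemma sign_lobes {a : ℝ → ℝ} (ha : Continuous a) {k : ℕ} (hk : 1 ≤ k) (m : ℕ)
    (hconc : StrictConcaveOn ℝ (Set.Icc 0 (((m + 1 : ℕ) : ℝ) * (Real.pi / k))) a)
    (hanti : StrictAntiOn a (Set.Icc 0 (((m + 1 : ℕ) : ℝ) * (Real.pi / k)))) :
    0 < (-1 : ℝ) ^ m * ∫ t in (0 : ℝ)..(((m + 1 : ℕ) : ℝ) * (Real.pi / k)), Real.cos (k * t) * a t := by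
  have hk0 : (0 : ℝ) < k := by exact_mod_cast hk
  have hh : 0 < Real.pi / k := by positivity
  have hsum : ∫ t in (0 : ℝ)..(((m + 1 : ℕ) : ℝ) * (Real.pi / k)), Real.cos (k * t) * a t
      = ∑ i ∈ range (m + 1), (-1) ^ i * lobe a k i := by
    have := intervalIntegral.sum_integral_adjacent_intervals (n := m + 1)
      (f := fun t => Real.cos (k * t) * a t) (a := fun i : ℕ => (i : ℝ) * (Real.pi / k))
      (μ := MeasureTheory.volume)
      (fun i _ => Continuous.intervalIntegrable (by fun_prop) _ _)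
    simp only [Nat.cast_zero, zero_mul] at this
    rw [← this]
    exact Finset.sum_congr rfl fun i _ => lobe_eq ha hk i
  rw [hsum]
  refine (alt_sum (lobe_pos ha hk (hanti.mono ?_)) m fun i hi => ?_).1
  · apply Set.Icc_subset_Icc le_rfl
    have : (1 : ℝ) ≤ ((m + 1 : ℕ) : ℝ) := by push_cast; linarith [Nat.cast_nonneg (α := ℝ) m]
    nlinarith
  · apply lobe_lt ha hk
    refine hconc.subset (Set.Icc_subset_Icc le_rfl ?_) (convex_Icc _ _)
    have : (i : ℝ) + 2 ≤ ((m + 1 : ℕ) : ℝ) := by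
      have : i + 2 ≤ m + 1 := by omega
      exact_mod_cast this
    nlinarith

end Pool.Agent.X116.Z
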