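import Pool.Agent.X116.ZSig

/-!
# Power series of `1/√(1-w)` and of `sin (2 k arcsin z)`
-/

open Finset

namespace Pool.Agent.X116.Z
lemma A_eq (n : ℕ) : Ring.choose ((1 / 2 : ℝ) + n - 1) n = A n / (n.factorial : ℝ) := by
  rw [← Ring.multichoose_eq]
  have h := Ring.factorial_nsmul_multichoose_eq_ascPochhammer (1 / 2 : ℝ) n
  rw [Polynomial.ascPochhammer_smeval_eq_eval] at h
  have h2 : ∀ n : ℕ, (ascPochhammer ℝ n).eval (1 / 2 : ℝ) = A n := by
    intro n
    induction n with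
    | zero => simp [A_zero]
    | succ n ih =>
      rw [ascPochhammer_succ_right, Polynomial.eval_mul, ih, A_succ]
      simp
      left
      ring
  rw [h2] at h
  rw [eq_div_iff (by positivity), ← h, nsmul_eq_mul, mul_comm]

lemma hasSum_inv_sqrt {w : ℝ} (h0 : 0 ≤ w) (h1 : w < 1) :
    HasSum (fun i : ℕ => A i / (i.factorial : ℝ) * w ^ i) (1 / √(1 - w)) := by
  have h := (Real.one_div_one_sub_rpow_hasFPowerSeriesOnBall_zero (1 / 2)).hasSum
    (y := w) (by
      rw [← ENNReal.ofReal_one, Metric.eball_ofReal]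
      simpa [abs_of_nonneg h0] using h1)
  rw [zero_add, ← Real.sqrt_eq_rpow] at h
  simpa only [FormalMultilinearSeries.ofScalars_apply_eq, A_eq, smul_eq_mul] using h

/-- the coefficients of `sin (2 k arcsin z)` -/
noncomputable def sc (k : ℝ) (j : ℕ) : ℝ := k * P k j / (A (j + 1) * (j.factorial : ℝ))

lemma sc_rec_zero (k : ℝ) : sc (k + 1) 0 = 2 * sc k 0 - sc (k - 1) 0 := by
  simp only [sc, P_zero, A_succ, A_zero]
  ring

lemma sc_rec_succ (k : ℝ) (j : ℕ) :
    sc (k + 1) (j + 1) = 2 * sc k (j + 1) - 4 * sc k j - sc (k - 1) (j + 1) := by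
  simp only [sc]
  rw [P_shift, P_shift', P_succ, A_succ (j + 1), Nat.factorial_succ]
  have h1 : A (j + 1) ≠ 0 := (A_pos _).ne'
  have h2 : (j.factorial : ℝ) ≠ 0 := by positivity
  have h3 : ((j : ℝ) + 1) ≠ 0 := by positivity
  have h4 : (((j + 1 : ℕ) : ℝ) + 1 / 2) ≠ 0 := by positivity
  push_cast at h4 ⊢
  have h5 : (2 * ((j : ℝ) + 1) + 1) ≠ 0 := by positivity
  field_simp
  ring

lemma hasSum_step {z U V : ℝ} {u v c : ℕ → ℝ}
    (hu : HasSum (fun j => u j * z ^ (2 * j + 1)) U)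
    (hv : HasSum (fun j => v j * z ^ (2 * j + 1)) V)
    (h0 : c 0 = 2 * u 0 - v 0) (hs : ∀ j, c (j + 1) = 2 * u (j + 1) - 4 * u j - v (j + 1)) :
    HasSum (fun j => c j * z ^ (2 * j + 1)) (2 * (1 - 2 * z ^ 2) * U - V) := by
  have h1 := (hasSum_nat_add_iff' 1).mpr hu
  have h2 := (hasSum_nat_add_iff' 1).mpr hv
  rw [← hasSum_nat_add_iff' 1]
  have h3 := ((h1.mul_left 2).sub (hu.mul_left (4 * z ^ 2))).sub h2
  simp only [Finset.range_one, Finset.sum_singleton, mul_zero, zero_add, pow_one] at h3 ⊢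
  convert h3 using 1
  · funext j
    rw [hs]
    ring
  · rw [h0]
    ring

lemma hasSum_sin (z : ℝ) (h0 : 0 ≤ z) (h1 : z < 1) (k : ℕ) :
    HasSum (fun j => sc k j * z ^ (2 * j + 1)) (Real.sin (2 * k * Real.arcsin z)) ∧
    HasSum (fun j => sc (k + 1 : ℕ) j * z ^ (2 * j + 1))
      (Real.sin (2 * (k + 1 : ℕ) * Real.arcsin z)) := by
  have hsin : Real.sin (Real.arcsin z) = z := Real.sin_arcsin (by linarith) h1.le
  have hcos : Real.cos (Real.arcsin z) = √(1 - z ^ 2) := Real.cos_arcsin z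
  have hz1 : 0 < 1 - z ^ 2 := by nlinarith
  induction k with
  | zero =>
    refine ⟨by simp [sc], ?_⟩
    have e1 : Real.sin (2 * ((0 + 1 : ℕ) : ℝ) * Real.arcsin z) = 2 * z * √(1 - z ^ 2) := by
      have : 2 * ((0 + 1 : ℕ) : ℝ) * Real.arcsin z = 2 * Real.arcsin z := by push_cast; ring
      rw [this, Real.sin_two_mul, hsin, hcos]
    rw [e1]
    have hw := hasSum_inv_sqrt (w := z ^ 2) (by positivity) (by nlinarith)
    have h2 := (hasSum_nat_add_iff' 1).mpr hw
    rw [← hasSum_nat_add_iff' 1]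
    have h3 := (h2.mul_left (2 * z)).sub (hw.mul_left (2 * z * z ^ 2))
    simp only [Finset.range_one, Finset.sum_singleton] at h3 ⊢
    convert h3 using 1
    · funext j
      have hP : P 1 (j + 1) = -(A j ^ 2 * (((j : ℝ) + 1) ^ 2 - 1 / 4)) := by
        have := P_shift 0 j
        rw [zero_add, P_zero_eq] at this
        rw [this]
        ring
      simp only [sc, zero_add, Nat.cast_one]
      rw [hP, A_succ (j + 1), A_succ j, Nat.factorial_succ]
      have h1 : A j ≠ 0 := (A_pos _).ne'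
      have h2 : (j.factorial : ℝ) ≠ 0 := by positivity
      have h3 : ((j : ℝ) + 1) ≠ 0 := by positivity
      have h4 : ((j : ℝ) + 1 / 2) ≠ 0 := by positivity
      push_cast
      have h5 : (2 * ((j : ℝ) + 1) + 1) ≠ 0 := by positivity
      have h6 : (2 * (j : ℝ) + 1) ≠ 0 := by positivity
      field_simp
      ring
    · have hs : √(1 - z ^ 2) ^ 2 = 1 - z ^ 2 := Real.sq_sqrt hz1.le
      have hs0 : √(1 - z ^ 2) ≠ 0 := by positivity
      simp only [sc, P_zero, A_succ, A_zero, Nat.factorial_zero, zero_add, Nat.cast_one]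
      field_simp
      push_cast
      linear_combination z * hs
  | succ k ih =>
    obtain ⟨hu, hv⟩ := ih
    refine ⟨hv, ?_⟩
    have h := hasSum_step (c := sc ((k + 1 + 1 : ℕ) : ℝ)) hv hu (by
      have := sc_rec_zero ((k : ℝ) + 1)
      push_cast
      rw [this]
      congr 2
      ring) (by
      intro j
      have := sc_rec_succ ((k : ℝ) + 1) j
      push_cast
      rw [this]
      congr 2
      ring)
    convert h using 1
    have e1 : 2 * ((k + 1 + 1 : ℕ) : ℝ) * Real.arcsin z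
        = 2 * ((k + 1 : ℕ) : ℝ) * Real.arcsin z + 2 * Real.arcsin z := by push_cast; ring
    have e2 : 2 * (k : ℝ) * Real.arcsin z
        = 2 * ((k + 1 : ℕ) : ℝ) * Real.arcsin z - 2 * Real.arcsin z := by push_cast; ring
    rw [e1, e2, Real.sin_add, Real.sin_sub, Real.cos_two_mul, hcos, Real.sq_sqrt hz1.le]
    ring

end Pool.Agent.X116.Z
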