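import Mathlib

/-!
# The sign pattern of the coefficients `ς n k`
-/

open Finset

namespace Pool.Agent.X116.Z

/-- `P k j = ∏_{l<j} ((l+1/2)² - k²)` -/
noncomputable def P (k : ℝ) (j : ℕ) : ℝ := ∏ l ∈ range j, (((l : ℝ) + 1 / 2) ^ 2 - k ^ 2)

/-- `A j = (1/2)_j` -/
noncomputable def A (j : ℕ) : ℝ := ∏ l ∈ range j, ((l : ℝ) + 1 / 2)

lemma P_zero (k : ℝ) : P k 0 = 1 := by simp [P]

lemma P_succ (k : ℝ) (j : ℕ) : P k (j + 1) = P k j * (((j : ℝ) + 1 / 2) ^ 2 - k ^ 2) := by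
  unfold P
  rw [Finset.prod_range_succ]

lemma A_zero : A 0 = 1 := by simp [A]

lemma A_succ (j : ℕ) : A (j + 1) = A j * ((j : ℝ) + 1 / 2) := by
  unfold A
  rw [Finset.prod_range_succ]

lemma A_pos (j : ℕ) : 0 < A j := by
  unfold A
  exact Finset.prod_pos fun l _ => by positivity

lemma P_zero_eq (j : ℕ) : P 0 j = A j ^ 2 := by
  induction j with
  | zero => simp [P_zero, A_zero]
  | succ j ih => rw [P_succ, A_succ, ih]; ring

lemma P_neg (k : ℝ) (j : ℕ) : P (-k) j = P k j := by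
  unfold P
  simp

lemma P_shift (k : ℝ) (j : ℕ) :
    P (k + 1) (j + 1) = -(P k j * (((j : ℝ) + 1 + k) ^ 2 - 1 / 4)) := by
  induction j with
  | zero => simp [P]; ring
  | succ j ih =>
    rw [P_succ (k + 1) (j + 1), ih, P_succ k j]
    push_cast
    ring

lemma P_shift' (k : ℝ) (j : ℕ) :
    P (k - 1) (j + 1) = -(P k j * (((j : ℝ) + 1 - k) ^ 2 - 1 / 4)) := by
  have h := P_shift (-k) j
  rw [P_neg] at h
  have e : -k + 1 = -(k - 1) := by ring
  rw [e, P_neg] at h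
  rw [h]
  ring

lemma P_diff (k : ℝ) (j : ℕ) :
    P (k + 1) (j + 1) - P (k - 1) (j + 1) = -4 * k * (j + 1) * P k j := by
  rw [P_shift, P_shift']
  ring

/-- the coefficients -/
noncomputable def vs (n : ℕ) (k : ℝ) : ℝ :=
  ∑ p ∈ antidiagonal n, (P k p.1 / (p.1.factorial : ℝ)) * (A p.2 ^ 2 / (p.2.factorial : ℝ))

lemma vs_zero (k : ℝ) : vs 0 k = 1 := by
  simp [vs, P_zero, A_zero]

lemma vs_succ_diff (n : ℕ) (k : ℝ) :
    vs (n + 1) (k + 1) = vs (n + 1) (k - 1) - 4 * k * vs n k := by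
  unfold vs
  rw [Finset.Nat.sum_antidiagonal_succ, Finset.Nat.sum_antidiagonal_succ, Finset.mul_sum]
  rw [P_zero, P_zero, add_sub_assoc, ← Finset.sum_sub_distrib]
  congr 1
  refine Finset.sum_congr rfl fun p _ => ?_
  simp only
  have h := P_diff k p.1
  have h1 : P (k + 1) (p.1 + 1) = P (k - 1) (p.1 + 1) + -4 * k * (p.1 + 1) * P k p.1 := by
    linarith
  rw [h1, Nat.factorial_succ]
  push_cast
  have h2 : (p.1.factorial : ℝ) ≠ 0 := by positivity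
  have h3 : ((p.1 : ℝ) + 1) ≠ 0 := by positivity
  field_simp
  ring

lemma vs_pos_zero (n : ℕ) : 0 < vs n 0 := by
  unfold vs
  refine Finset.sum_pos (fun p _ => ?_) ⟨(0, n), by simp⟩
  rw [P_zero_eq]
  have := A_pos p.1
  have := A_pos p.2
  positivity

lemma vs_neg_one (n : ℕ) : vs (n + 1) 1 < 0 := by
  unfold vs
  rw [Finset.Nat.sum_antidiagonal_succ]
  simp only
  have h1 : ∀ j : ℕ, P 1 (j + 1) = -(A j ^ 2 * (((j : ℝ) + 1) ^ 2 - 1 / 4)) := by
    intro j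
    have := P_shift 0 j
    rw [zero_add, P_zero_eq] at this
    rw [this]
    ring
  simp only [h1]
  have hmem : ((n, 0) : ℕ × ℕ) ∈ antidiagonal n := by simp
  rw [← Finset.add_sum_erase _ _ hmem]
  have h2 : ∑ p ∈ (antidiagonal n).erase (n, 0),
      -(A p.1 ^ 2 * (((p.1 : ℝ) + 1) ^ 2 - 1 / 4)) / ((p.1 + 1).factorial : ℝ)
        * (A p.2 ^ 2 / (p.2.factorial : ℝ)) ≤ 0 := by
    refine Finset.sum_nonpos fun p _ => ?_
    have e1 : 0 ≤ ((p.1 : ℝ) + 1) ^ 2 - 1 / 4 := by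
      have : (0 : ℝ) ≤ p.1 := Nat.cast_nonneg _
      nlinarith
    have e2 : 0 ≤ A p.1 ^ 2 * (((p.1 : ℝ) + 1) ^ 2 - 1 / 4) / ((p.1 + 1).factorial : ℝ)
        * (A p.2 ^ 2 / (p.2.factorial : ℝ)) := by positivity
    have e3 : -(A p.1 ^ 2 * (((p.1 : ℝ) + 1) ^ 2 - 1 / 4)) / ((p.1 + 1).factorial : ℝ)
        * (A p.2 ^ 2 / (p.2.factorial : ℝ)) = -(A p.1 ^ 2 * (((p.1 : ℝ) + 1) ^ 2 - 1 / 4)
          / ((p.1 + 1).factorial : ℝ) * (A p.2 ^ 2 / (p.2.factorial : ℝ))) := by ring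
    rw [e3]
    linarith
  have h3 : P 1 0 / ((Nat.factorial 0 : ℕ) : ℝ) * (A (n + 1) ^ 2 / ((n + 1).factorial : ℝ))
      + -(A n ^ 2 * (((n : ℝ) + 1) ^ 2 - 1 / 4)) / ((n + 1).factorial : ℝ)
        * (A 0 ^ 2 / ((Nat.factorial 0 : ℕ) : ℝ)) < 0 := by
    rw [P_zero, A_zero, A_succ]
    have hA := A_pos n
    have hn : (0 : ℝ) ≤ n := Nat.cast_nonneg n
    have hf : (0 : ℝ) < ((n + 1).factorial : ℝ) := by positivity
    have e : (1 : ℝ) / ((Nat.factorial 0 : ℕ) : ℝ) * ((A n * ((n : ℝ) + 1 / 2)) ^ 2 / ((n + 1).factorial : ℝ))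
      + -(A n ^ 2 * (((n : ℝ) + 1) ^ 2 - 1 / 4)) / ((n + 1).factorial : ℝ)
        * (1 ^ 2 / ((Nat.factorial 0 : ℕ) : ℝ)) = -(A n ^ 2 * ((n : ℝ) + 1 / 2) / ((n + 1).factorial : ℝ)) := by
      rw [Nat.factorial_zero]
      push_cast
      field_simp
      ring
    rw [e]
    have : 0 < A n ^ 2 * ((n : ℝ) + 1 / 2) / ((n + 1).factorial : ℝ) := by positivity
    linarith
  linarith

/-- the sign pattern: `(-1)^k ς_n(k) > 0` for `n ≥ k` -/
lemma vs_sign : ∀ (k n : ℕ), k ≤ n → 0 < (-1 : ℝ) ^ k * vs n k := by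
  intro k
  induction k using Nat.strong_induction_on with
  | _ k ih =>
    intro n hn
    rcases k with _ | _ | k
    · simpa using vs_pos_zero n
    · obtain ⟨m, rfl⟩ := Nat.exists_eq_add_of_le hn
      have := vs_neg_one m
      have e : 0 + 1 + m = m + 1 := by ring
      rw [e]
      simp only [zero_add, pow_one, Nat.cast_one]
      linarith
    · obtain ⟨m, rfl⟩ := Nat.exists_eq_add_of_le hn
      have h1 := ih k (by omega) (k + 1 + 1 + m) (by omega)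
      have h2 := ih (k + 1) (by omega) (k + 1 + m) (by omega)
      have h3 := vs_succ_diff (k + 1 + m) ((k : ℝ) + 1)
      have e1 : k + 1 + m + 1 = k + 1 + 1 + m := by ring
      have e2 : ((k + 1 + 1 : ℕ) : ℝ) = (k : ℝ) + 1 + 1 := by push_cast; ring
      have e3 : (k : ℝ) + 1 - 1 = k := by ring
      have e4 : ((k + 1 : ℕ) : ℝ) = (k : ℝ) + 1 := by push_cast; ring
      rw [e1, e3] at h3
      rw [e4] at h2
      rw [e2, h3]
      have e5 : (-1 : ℝ) ^ (k + 1 + 1) = (-1) ^ k := by rw [pow_succ, pow_succ]; ring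
      have e6 : (-1 : ℝ) ^ (k + 1) = -(-1) ^ k := by rw [pow_succ]; ring
      rw [e6] at h2
      rw [e5]
      have h4 : 0 < ((k : ℝ) + 1) * (-(-1 : ℝ) ^ k * vs (k + 1 + m) (↑k + 1)) := by positivity
      nlinarith

/-- growth: for even `k` the coefficients dominate those for `k = 0` -/
lemma vs_sign_ge : ∀ (k n : ℕ), 2 * k ≤ n → vs n 0 ≤ vs n ((2 * k : ℕ) : ℝ) := by
  intro k
  induction k with
  | zero => intro n _; simp
  | succ k ih =>
    intro n hn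
    obtain ⟨m, rfl⟩ := Nat.exists_eq_add_of_le hn
    have h1 := ih (2 * (k + 1) + m) (by omega)
    have h2 := vs_sign (2 * k + 1) (2 * k + 1 + m) (by omega)
    have h3 := vs_succ_diff (2 * k + 1 + m) (((2 * k + 1 : ℕ) : ℝ))
    have e1 : 2 * k + 1 + m + 1 = 2 * (k + 1) + m := by ring
    have e2 : ((2 * k + 1 : ℕ) : ℝ) + 1 = ((2 * (k + 1) : ℕ) : ℝ) := by push_cast; ring
    have e3 : ((2 * k + 1 : ℕ) : ℝ) - 1 = ((2 * k : ℕ) : ℝ) := by push_cast; ring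
    rw [e1, e2, e3] at h3
    rw [h3]
    have e6 : (-1 : ℝ) ^ (2 * k + 1) = -1 := by rw [pow_succ, pow_mul]; norm_num
    rw [e6] at h2
    have h5 : (0 : ℝ) < ((2 * k + 1 : ℕ) : ℝ) := by positivity
    nlinarith

end Pool.Agent.X116.Z
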