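import Pool.Agent.X116.ZInt

/-!
# Substitutions
-/

open Finset

namespace Pool.Agent.X116.Z

noncomputable def ph (b t : ℝ) : ℝ := 2 * Real.arcsin (b * Real.cos t)
noncomputable def ps (b t : ℝ) : ℝ := 2 * Real.arcsin (b * Real.sin t)

lemma cos_two_arcsin {z : ℝ} (h0 : -1 ≤ z) (h1 : z ≤ 1) :
    Real.cos (2 * Real.arcsin z) = 1 - 2 * z ^ 2 := by
  rw [Real.cos_two_mul, Real.cos_arcsin, Real.sq_sqrt (by nlinarith)]
  ring

lemma arccos_eq {z : ℝ} (h0 : 0 ≤ z) (h1 : z ≤ 1) :
    Real.arccos (1 - 2 * z ^ 2) = 2 * Real.arcsin z := by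
  rw [← cos_two_arcsin (by linarith) h1, Real.arccos_cos]
  · have := Real.arcsin_nonneg.mpr h0
    linarith
  · have := Real.arcsin_le_pi_div_two z
    linarith

section

variable {b : ℝ} (h0 : 0 < b) (h1 : b < 1)

include h0 h1

lemma bc_bound (t : ℝ) : -1 < b * Real.cos t ∧ b * Real.cos t < 1 := by
  have := Real.cos_le_one t
  have := Real.neg_one_le_cos t
  constructor <;> nlinarith

lemma bs_bound (t : ℝ) : -1 < b * Real.sin t ∧ b * Real.sin t < 1 := by
  have := Real.sin_le_one t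
  have := Real.neg_one_le_sin t
  constructor <;> nlinarith

lemma ph_deriv (t : ℝ) :
    HasDerivAt (ph b) (-(2 * b * Real.sin t / √(1 - b ^ 2 * Real.cos t ^ 2))) t := by
  obtain ⟨g1, g2⟩ := bc_bound h0 h1 t
  have h := ((Real.hasDerivAt_arcsin g1.ne' g2.ne).comp t
    ((Real.hasDerivAt_cos t).const_mul b)).const_mul 2
  refine h.congr_deriv ?_
  rw [mul_pow]
  ring

lemma ps_deriv (t : ℝ) :
    HasDerivAt (ps b) (2 * b * Real.cos t / √(1 - b ^ 2 * Real.sin t ^ 2)) t := by
  obtain ⟨g1, g2⟩ := bs_bound h0 h1 t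
  have h := ((Real.hasDerivAt_arcsin g1.ne' g2.ne).comp t
    ((Real.hasDerivAt_sin t).const_mul b)).const_mul 2
  refine h.congr_deriv ?_
  rw [mul_pow]
  ring

lemma pos_c (t : ℝ) : 0 < 1 - b ^ 2 * Real.cos t ^ 2 := by
  obtain ⟨g1, g2⟩ := bc_bound h0 h1 t
  nlinarith

lemma pos_s (t : ℝ) : 0 < 1 - b ^ 2 * Real.sin t ^ 2 := by
  obtain ⟨g1, g2⟩ := bs_bound h0 h1 t
  nlinarith

lemma cont_dph : Continuous fun t => -(2 * b * Real.sin t / √(1 - b ^ 2 * Real.cos t ^ 2)) := by
  refine (Continuous.div (by fun_prop) (by fun_prop) fun t => ?_).neg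
  have := pos_c h0 h1 t
  positivity

lemma cont_dps : Continuous fun t => 2 * b * Real.cos t / √(1 - b ^ 2 * Real.sin t ^ 2) := by
  refine Continuous.div (by fun_prop) (by fun_prop) fun t => ?_
  have := pos_s h0 h1 t
  positivity

lemma arccos_ph {t : ℝ} (ht : t ∈ Set.Icc (0 : ℝ) (Real.pi / 2)) :
    Real.arccos (2 - 2 * b ^ 2 - Real.cos (ph b t)) = ps b t := by
  obtain ⟨g1, g2⟩ := bc_bound h0 h1 t
  obtain ⟨g3, g4⟩ := bs_bound h0 h1 t
  have hs : 0 ≤ Real.sin t := Real.sin_nonneg_of_mem_Icc ⟨ht.1, by linarith [ht.2, Real.pi_pos]⟩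
  unfold ph ps
  rw [cos_two_arcsin g1.le g2.le, ← arccos_eq (by positivity) g4.le]
  congr 1
  have := Real.sin_sq_add_cos_sq t
  have e : Real.cos t ^ 2 = 1 - Real.sin t ^ 2 := by linarith
  rw [mul_pow, e]
  ring

lemma arccos_ps {t : ℝ} (ht : t ∈ Set.Icc (0 : ℝ) (Real.pi / 2)) :
    Real.arccos (2 - 2 * b ^ 2 - Real.cos (ps b t)) = ph b t := by
  obtain ⟨g1, g2⟩ := bc_bound h0 h1 t
  obtain ⟨g3, g4⟩ := bs_bound h0 h1 t
  have hs : 0 ≤ Real.cos t := Real.cos_nonneg_of_mem_Icc ⟨by linarith [ht.1, Real.pi_pos], ht.2⟩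
  unfold ph ps
  rw [cos_two_arcsin g3.le g4.le, ← arccos_eq (by positivity) g2.le]
  congr 1
  have := Real.sin_sq_add_cos_sq t
  have e : Real.sin t ^ 2 = 1 - Real.cos t ^ 2 := by linarith
  rw [mul_pow, e]
  ring

lemma arccos_end : Real.arccos (2 - 2 * b ^ 2 - 1) = 2 * Real.arcsin b := by
  rw [← arccos_eq h0.le h1.le]
  congr 1
  ring

lemma ph_zero : ph b 0 = Real.arccos (2 - 2 * b ^ 2 - 1) := by
  rw [arccos_end h0 h1, ph, Real.cos_zero, mul_one]

omit h0 h1 in
lemma ph_end : ph b (Real.pi / 2) = 0 := by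
  simp [ph]

omit h0 h1 in
lemma ps_zero : ps b 0 = 0 := by
  simp [ps]

lemma ps_end : ps b (Real.pi / 2) = Real.arccos (2 - 2 * b ^ 2 - 1) := by
  rw [arccos_end h0 h1, ps, Real.sin_pi_div_two, mul_one]

/-- the integral as an integral over `[0, π/2]` -/
lemma F_half (k : ℕ) : ∫ l in (0 : ℝ)..Real.arccos (2 - 2 * b ^ 2 - 1),
      Real.sin (k * Real.arccos (2 - 2 * b ^ 2 - Real.cos l))
    = 2 * b * ∫ t in (0 : ℝ)..(Real.pi / 2), hh k b t := by
  have h := intervalIntegral.integral_comp_mul_deriv (a := 0) (b := Real.pi / 2)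
    (f := ph b) (g := fun l => Real.sin (k * Real.arccos (2 - 2 * b ^ 2 - Real.cos l)))
    (fun t _ => ph_deriv h0 h1 t) (cont_dph h0 h1).continuousOn (by fun_prop)
  rw [ph_end, ph_zero h0 h1] at h
  have h2 := intervalIntegral.integral_symm (μ := MeasureTheory.volume)
    (f := fun l => Real.sin (k * Real.arccos (2 - 2 * b ^ 2 - Real.cos l)))
    (Real.arccos (2 - 2 * b ^ 2 - 1)) 0
  rw [← h] at h2
  rw [h2, ← intervalIntegral.integral_neg, ← intervalIntegral.integral_const_mul]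
  refine intervalIntegral.integral_congr fun t ht => ?_
  rw [Set.uIcc_of_le (by positivity)] at ht
  simp only [Function.comp]
  rw [arccos_ph h0 h1 ht]
  unfold hh ps
  have e : (k : ℝ) * (2 * Real.arcsin (b * Real.sin t)) = 2 * k * Real.arcsin (b * Real.sin t) := by
    ring
  rw [e]
  ring

/-- the integral as an integral over `[0, π]` -/
lemma F_full (k : ℕ) : ∫ l in (0 : ℝ)..Real.arccos (2 - 2 * b ^ 2 - 1),
      Real.sin (k * Real.arccos (2 - 2 * b ^ 2 - Real.cos l))
    = b * ∫ t in (0 : ℝ)..Real.pi, hh k b t := by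
  rw [F_half h0 h1]
  have hc : Continuous (hh k b) := by
    unfold hh
    refine Continuous.div (by fun_prop) (by fun_prop) fun t => ?_
    have := pos_c h0 h1 t
    positivity
  have h1 : ∫ t in (Real.pi / 2)..Real.pi, hh k b t = ∫ t in (0 : ℝ)..(Real.pi / 2), hh k b t := by
    have h := intervalIntegral.integral_comp_sub_left (a := 0) (b := Real.pi / 2) (hh k b) Real.pi
    rw [sub_zero] at h
    have e : Real.pi - Real.pi / 2 = Real.pi / 2 := by ring
    rw [e] at h
    rw [← h]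
    refine intervalIntegral.integral_congr fun t _ => ?_
    unfold hh
    rw [Real.sin_pi_sub, Real.cos_pi_sub, neg_sq]
  rw [← intervalIntegral.integral_add_adjacent_intervals (hc.intervalIntegrable 0 (Real.pi / 2))
    (hc.intervalIntegrable (Real.pi / 2) Real.pi), h1]
  ring

/-- the second representation -/
lemma F_second (k : ℕ) : ∫ l in (0 : ℝ)..Real.arccos (2 - 2 * b ^ 2 - 1),
      Real.sin (k * Real.arccos (2 - 2 * b ^ 2 - Real.cos l))
    = ∫ m in (0 : ℝ)..Real.arccos (2 - 2 * b ^ 2 - 1),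
      k * Real.cos (k * m) * Real.arccos (2 - 2 * b ^ 2 - Real.cos m) := by
  have h := intervalIntegral.integral_comp_mul_deriv (a := 0) (b := Real.pi / 2)
    (f := ph b) (g := fun l => Real.sin (k * Real.arccos (2 - 2 * b ^ 2 - Real.cos l)))
    (fun t _ => ph_deriv h0 h1 t) (cont_dph h0 h1).continuousOn (by fun_prop)
  rw [ph_end, ph_zero h0 h1] at h
  have h2 := intervalIntegral.integral_symm (μ := MeasureTheory.volume)
    (f := fun l => Real.sin (k * Real.arccos (2 - 2 * b ^ 2 - Real.cos l)))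
    (Real.arccos (2 - 2 * b ^ 2 - 1)) 0
  rw [← h] at h2
  have h3 := intervalIntegral.integral_comp_mul_deriv (a := 0) (b := Real.pi / 2)
    (f := ps b) (g := fun m => k * Real.cos (k * m) * Real.arccos (2 - 2 * b ^ 2 - Real.cos m))
    (fun t _ => ps_deriv h0 h1 t) (cont_dps h0 h1).continuousOn (by fun_prop)
  rw [ps_end h0 h1, ps_zero] at h3
  rw [h2, ← h3]
  have h4 := intervalIntegral.integral_mul_deriv_eq_deriv_mul (a := 0) (b := Real.pi / 2)
    (u := fun t => Real.sin (k * ps b t)) (v := ph b)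
    (u' := fun t => Real.cos (k * ps b t)
      * (k * (2 * b * Real.cos t / √(1 - b ^ 2 * Real.sin t ^ 2))))
    (v' := fun t => -(2 * b * Real.sin t / √(1 - b ^ 2 * Real.cos t ^ 2)))
    (fun t _ => ((ps_deriv h0 h1 t).const_mul (k : ℝ)).sin) (fun t _ => ph_deriv h0 h1 t)
    (Continuous.intervalIntegrable (by
      have h5 : Continuous (ps b) := by unfold ps; fun_prop
      exact (Real.continuous_cos.comp (continuous_const.mul h5)).mul
        (continuous_const.mul (cont_dps h0 h1))) _ _)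
    ((cont_dph h0 h1).intervalIntegrable _ _)
  simp only [ph_end, ps_zero, mul_zero, Real.sin_zero, zero_mul, zero_sub] at h4
  have h6 : ∫ x in (0 : ℝ)..(Real.pi / 2), ((fun l => Real.sin (k * Real.arccos
      (2 - 2 * b ^ 2 - Real.cos l))) ∘ ph b) x * -(2 * b * Real.sin x / √(1 - b ^ 2 * Real.cos x ^ 2))
      = ∫ x in (0 : ℝ)..(Real.pi / 2), Real.sin (k * ps b x)
        * -(2 * b * Real.sin x / √(1 - b ^ 2 * Real.cos x ^ 2)) := by
    refine intervalIntegral.integral_congr fun t ht => ?_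
    rw [Set.uIcc_of_le (by positivity)] at ht
    simp only [Function.comp]
    rw [arccos_ph h0 h1 ht]
  rw [h6, h4, neg_zero, zero_sub, neg_neg]
  refine intervalIntegral.integral_congr fun t ht => ?_
  rw [Set.uIcc_of_le (by positivity)] at ht
  simp only [Function.comp]
  rw [arccos_ps h0 h1 ht]
  ring

end

end Pool.Agent.X116.Z
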